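import Pool.Agent.Lib.MP_391708_nt.T4.Spec
import Pool.Agent.Lib.MP_391708_nt.Eqd.Prime

/-!
# Positive proportion of both signs: the size of `S0` and of `rp`

`|S0 - log log z| ≤ C`, and `1 / rp D ≤ exp (δ S0)` for all `D` in the box of the relations.
-/

set_option autoImplicit false

namespace Pool.Agent.Lib.MP391708.T4.A3

open Finset Filter Topology
open Pool.Agent.Lib.MP391708.T4

noncomputable section

/-- the primes `1 (mod 4)` up to `y` -/
def P4 (y : ℕ) : Finset ℕ := (Icc 1 y).filter (fun l => l.Prime ∧ l ≡ 1 [MOD 4])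

lemma mert : ∃ C : ℝ, 0 ≤ C ∧ ∀ y : ℕ, 3 ≤ y →
    |(∑ l ∈ P4 y, 1 / (l : ℝ)) - 1 / 2 * Real.log (Real.log y)| ≤ C := by
  obtain ⟨C, hC⟩ := Pool.Agent.Lib.MP391708.Eqd.specPrime 4 (by norm_num) 1 (by norm_num) 1 one_pos
  refine ⟨max C 0, le_max_right _ _, fun y hy => ?_⟩
  have h := hC y hy 0 (by simp)
  have h1 : (∑ p ∈ (Icc 1 y).filter (fun p => p.Prime ∧ p ≡ 1 [MOD 4]),
      (p : ℂ) ^ (-1 + Complex.I * ((0 : ℝ) : ℂ))) = ((∑ l ∈ P4 y, 1 / (l : ℝ) : ℝ) : ℂ) := by
    unfold P4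
    push_cast
    refine Finset.sum_congr rfl fun p _ => ?_
    rw [mul_zero, add_zero, Complex.cpow_neg_one, one_div]
  rw [h1, ← Complex.ofReal_sub, Complex.norm_real, Real.norm_eq_abs] at h
  have h2 : -Real.log (1 / Real.log y + |(0 : ℝ)|) = Real.log (Real.log y) := by
    rw [abs_zero, add_zero, one_div, Real.log_inv, neg_neg]
  have h3 : ((4 : ℕ).totient : ℝ) = 2 := by
    have : (4 : ℕ).totient = 2 := by decide
    rw [this]
    norm_num
  rw [h2, h3] at h
  exact h.trans (le_max_left _ _)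

lemma tendsto_zz {p : Prm} (hζ : 0 < p.ζ) : Tendsto (fun N : ℕ => zz p N) atTop atTop :=
  (tendsto_rpow_atTop hζ).comp tendsto_natCast_atTop_atTop

lemma log_zz (p : Prm) {N : ℕ} (hN : 0 < N) : Real.log (zz p N) = p.ζ * Real.log N := by
  unfold zz
  rw [Real.log_rpow (by exact_mod_cast hN)]

lemma PP_eq (p : Prm) (N : ℕ) :
    PP p N = (P4 (⌈zz p N⌉₊ - 1)).filter (fun l => p.E < l) := by
  ext l
  rw [PP, mem_filter, mem_range, mem_filter, P4, mem_filter, mem_Icc, Nat.ModEq]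
  constructor
  · rintro ⟨h1, h2, h3, h4⟩
    have := h2.pos
    exact ⟨⟨⟨this, by omega⟩, h2, by omega⟩, h4⟩
  · rintro ⟨⟨⟨h1, h2⟩, h3, h4⟩, h5⟩
    exact ⟨by omega, h3, by omega, h5⟩

lemma S0_le_sum (p : Prm) (N : ℕ) : S0 p N ≤ 2 * ∑ l ∈ P4 (⌈zz p N⌉₊ - 1), 1 / (l : ℝ) := by
  unfold S0
  rw [PP_eq, Finset.mul_sum]
  calc _ = ∑ l ∈ (P4 (⌈zz p N⌉₊ - 1)).filter (fun l => p.E < l), 2 * (1 / (l : ℝ)) :=
        Finset.sum_congr rfl fun l _ => by ring
    _ ≤ _ := Finset.sum_le_sum_of_subset_of_nonneg (filter_subset _ _)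
        fun l _ _ => by positivity

lemma sum_le_S0 (p : Prm) (N : ℕ) :
    2 * ∑ l ∈ P4 (⌈zz p N⌉₊ - 1), 1 / (l : ℝ) ≤ S0 p N + 2 * p.E := by
  unfold S0
  rw [PP_eq, ← Finset.sum_filter_add_sum_filter_not (P4 (⌈zz p N⌉₊ - 1)) (fun l => p.E < l),
    mul_add, Finset.mul_sum]
  have h1 : ∑ l ∈ (P4 (⌈zz p N⌉₊ - 1)).filter (fun l => ¬ p.E < l), 1 / (l : ℝ) ≤ p.E := by
    calc _ ≤ ∑ l ∈ (P4 (⌈zz p N⌉₊ - 1)).filter (fun l => ¬ p.E < l), (1 : ℝ) := by
          refine Finset.sum_le_sum fun l hl => ?_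
          have h2 : 1 ≤ l := by
            have h3 := (mem_filter.1 hl).1
            unfold P4 at h3
            exact (mem_Icc.1 (mem_filter.1 h3).1).1
          have h3 : (1 : ℝ) ≤ l := by exact_mod_cast h2
          rw [div_le_one (by linarith)]
          exact h3
      _ = (((P4 (⌈zz p N⌉₊ - 1)).filter (fun l => ¬ p.E < l)).card : ℝ) := by simp
      _ ≤ ((Icc 1 p.E).card : ℝ) := by
          refine Nat.cast_le.2 (Finset.card_le_card fun l hl => ?_)
          have h3 := mem_filter.1 hl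
          have h4 := h3.1
          unfold P4 at h4
          exact mem_Icc.2 ⟨(mem_Icc.1 (mem_filter.1 h4).1).1, by omega⟩
      _ = p.E := by simp
  have h2 : ∑ l ∈ (P4 (⌈zz p N⌉₊ - 1)).filter (fun l => p.E < l), 2 * (1 / (l : ℝ)) =
      ∑ l ∈ (P4 (⌈zz p N⌉₊ - 1)).filter (fun l => p.E < l), 2 / (l : ℝ) :=
    Finset.sum_congr rfl fun l _ => by ring
  rw [h2]
  linarith

/-- **the size of `S0`** -/
theorem S0_bounds (p : Prm) (hζ : 0 < p.ζ) : ∃ C : ℝ, 0 ≤ C ∧ ∀ᶠ N : ℕ in atTop,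
    |S0 p N - Real.log (Real.log (zz p N))| ≤ C := by
  obtain ⟨C, hC0, hC⟩ := mert
  refine ⟨2 * C + 2 * p.E + Real.log 2, by positivity, ?_⟩
  filter_upwards [(tendsto_zz hζ).eventually_ge_atTop 9] with N hN
  set z := zz p N with hz
  set y := ⌈z⌉₊ - 1 with hy
  have h1 : (9 : ℝ) ≤ ⌈z⌉₊ := hN.trans (Nat.le_ceil z)
  have h1' : 9 ≤ ⌈z⌉₊ := by exact_mod_cast h1
  have hy3 : 3 ≤ y := by omega
  have hyz : z - 1 ≤ y := by
    have h2 := Nat.le_ceil z
    have h3 : (y : ℝ) = ⌈z⌉₊ - 1 := by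
      rw [hy, Nat.cast_sub (by omega)]
      simp
    linarith
  have hyz' : (y : ℝ) ≤ z := by
    have h2 := Nat.ceil_lt_add_one (by linarith : 0 ≤ z)
    have h3 : (y : ℝ) = ⌈z⌉₊ - 1 := by
      rw [hy, Nat.cast_sub (by omega)]
      simp
    linarith
  have hlogz : 1 < Real.log z := by
    rw [Real.lt_log_iff_exp_lt (by linarith)]
    have := Real.exp_one_lt_d9
    linarith
  have h2 : 1 / 2 * Real.log z ≤ Real.log y := by
    have h3 : Real.sqrt z ≤ z - 1 := by
      rw [Real.sqrt_le_left (by linarith)]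
      nlinarith
    have h4 : 1 / 2 * Real.log z = Real.log (Real.sqrt z) := by
      rw [Real.log_sqrt (by linarith)]
      ring
    rw [h4]
    exact Real.log_le_log (Real.sqrt_pos.2 (by linarith)) (h3.trans hyz)
  have h3 : Real.log y ≤ Real.log z := Real.log_le_log (by
    have : (3 : ℝ) ≤ y := by exact_mod_cast hy3
    linarith) hyz'
  have h4 : Real.log (Real.log y) ≤ Real.log (Real.log z) :=
    Real.log_le_log (by linarith) h3
  have h5 : Real.log (Real.log z) - Real.log 2 ≤ Real.log (Real.log y) := by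
    rw [← Real.log_div (by linarith) (by norm_num)]
    refine Real.log_le_log (by linarith) ?_
    linarith
  have h6 := abs_le.1 (hC y hy3)
  have h7 := S0_le_sum p N
  have h8 := sum_le_S0 p N
  rw [← hz, ← hy] at h7 h8
  have h9 : 0 ≤ Real.log 2 := Real.log_nonneg (by norm_num)
  have hE : (0 : ℝ) ≤ p.E := Nat.cast_nonneg _
  rw [abs_le]
  constructor <;> linarith [h6.1, h6.2]

/-- `exp S0 ≤ C log z` -/
theorem exp_S0_le (p : Prm) (hζ : 0 < p.ζ) : ∃ C : ℝ, 0 < C ∧ ∀ᶠ N : ℕ in atTop,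
    Real.exp (S0 p N) ≤ C * Real.log (zz p N) ∧ 1 < Real.log (zz p N) ∧
      Real.log (zz p N) ≤ C * Real.exp (S0 p N) := by
  obtain ⟨C, hC0, hC⟩ := S0_bounds p hζ
  refine ⟨Real.exp C, Real.exp_pos _, ?_⟩
  filter_upwards [hC, (tendsto_zz hζ).eventually_ge_atTop 9] with N hN hz
  have hlogz : 1 < Real.log (zz p N) := by
    rw [Real.lt_log_iff_exp_lt (by linarith)]
    have := Real.exp_one_lt_d9
    linarith
  have h1 := abs_le.1 hN
  refine ⟨?_, hlogz, ?_⟩
  · calc Real.exp (S0 p N) ≤ Real.exp (C + Real.log (Real.log (zz p N))) :=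
          Real.exp_le_exp.2 (by linarith [h1.2])
      _ = _ := by rw [Real.exp_add, Real.exp_log (by linarith)]
  · calc Real.log (zz p N) = Real.exp (Real.log (Real.log (zz p N))) := by
          rw [Real.exp_log (by linarith)]
      _ ≤ Real.exp (C + S0 p N) := Real.exp_le_exp.2 (by linarith [h1.1])
      _ = _ := by rw [Real.exp_add]

/-! ### The weight `rp` -/

lemma ch_le_one (l : ℕ) : ch l ≤ 1 := by
  unfold ch
  have h : ∀ x : ZMod 4, ZMod.χ₄ x ≤ 1 := by decide
  exact_mod_cast h (l : ZMod 4)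

lemma neg_one_le_ch (l : ℕ) : -1 ≤ ch l := by
  unfold ch
  have h : ∀ x : ZMod 4, -1 ≤ ZMod.χ₄ x := by decide
  exact_mod_cast h (l : ZMod 4)

lemma ch_nonpos {l : ℕ} (hl : ¬ l ≡ 1 [MOD 4]) : ch l ≤ 0 := by
  unfold ch
  have h : ∀ x : ZMod 4, x ≠ 1 → ZMod.χ₄ x ≤ 0 := by decide
  have h1 : (l : ZMod 4) ≠ 1 := by
    intro h2
    apply hl
    rw [← ZMod.natCast_eq_natCast_iff]
    simpa using h2
  exact_mod_cast h _ h1

lemma rp_pos (D : ℕ) : 0 < rp D := by
  unfold rp
  refine Finset.prod_pos fun l hl => ?_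
  have h1 := (Nat.prime_of_mem_primeFactors hl).two_le
  have h2 : (2 : ℝ) ≤ l := by exact_mod_cast h1
  have h3 := ch_le_one l
  have h4 : ch l / l ≤ 1 / 2 := by
    rw [div_le_div_iff₀ (by linarith) (by norm_num)]
    nlinarith
  linarith

lemma one_div_rp_le (D : ℕ) :
    1 / rp D ≤ Real.exp (1 + ∑ l ∈ D.primeFactors.filter (fun l => l ≡ 1 [MOD 4]), 1 / (l : ℝ)) := by
  have h1 : 1 / rp D ≤ ∏ l ∈ D.primeFactors,
      (if l ≡ 1 [MOD 4] then Real.exp (1 / (l : ℝ) + (1 / ((l : ℝ) - 1) - 1 / l)) else 1) := by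
    unfold rp
    rw [one_div, ← Finset.prod_inv_distrib]
    refine Finset.prod_le_prod (fun l hl => ?_) fun l hl => ?_
    · have h1 := (Nat.prime_of_mem_primeFactors hl).two_le
      have h2 : (2 : ℝ) ≤ l := by exact_mod_cast h1
      have h3 := ch_le_one l
      have h4 : ch l / l ≤ 1 / 2 := by
        rw [div_le_div_iff₀ (by linarith) (by norm_num)]
        nlinarith
      have : 0 < 1 - ch l / l := by linarith
      positivity
    · have h1 := (Nat.prime_of_mem_primeFactors hl).two_le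
      have h2 : (2 : ℝ) ≤ l := by exact_mod_cast h1
      split_ifs with h
      · have h3 := ch_le_one l
        have h4 : ch l / l ≤ 1 / l := by gcongr
        have h5 : (0 : ℝ) < 1 - 1 / l := by
          have : 1 / (l : ℝ) ≤ 1 / 2 := by gcongr
          linarith
        calc (1 - ch l / l)⁻¹ ≤ (1 - 1 / (l : ℝ))⁻¹ := inv_anti₀ h5 (by linarith)
          _ = 1 + 1 / ((l : ℝ) - 1) := by
              have : (l : ℝ) - 1 ≠ 0 := by linarith
              field_simp
              ring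
          _ ≤ Real.exp (1 / ((l : ℝ) - 1)) := by
              have := Real.add_one_le_exp (1 / ((l : ℝ) - 1))
              linarith
          _ = _ := by congr 1; ring
      · have h3 : ch l / l ≤ 0 := div_nonpos_of_nonpos_of_nonneg (ch_nonpos h) (by linarith)
        exact inv_le_one_of_one_le₀ (by linarith)
  refine h1.trans ?_
  rw [← Finset.prod_filter, ← Real.exp_sum, Real.exp_le_exp, Finset.sum_add_distrib, add_comm]
  gcongr
  -- telescoping
  set s := D.primeFactors.filter (fun l => l ≡ 1 [MOD 4]) with hs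
  have hsub : s ⊆ Ico 2 (D + 2) := by
    intro l hl
    have h2 := (mem_filter.1 hl).1
    have h3 := (Nat.prime_of_mem_primeFactors h2).two_le
    have h4 := Nat.le_of_mem_primeFactors h2
    exact mem_Ico.2 ⟨h3, by omega⟩
  calc ∑ l ∈ s, (1 / ((l : ℝ) - 1) - 1 / l) ≤ ∑ l ∈ Ico 2 (D + 2), (1 / ((l : ℝ) - 1) - 1 / l) := by
        refine Finset.sum_le_sum_of_subset_of_nonneg hsub fun l hl _ => ?_
        have h3 : (2 : ℝ) ≤ l := by exact_mod_cast (mem_Ico.1 hl).1
        have h4 : 1 / (l : ℝ) ≤ 1 / ((l : ℝ) - 1) :=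
          one_div_le_one_div_of_le (by linarith) (by linarith)
        linarith
    _ = 1 - 1 / ((D : ℝ) + 1) := by
        rw [Finset.sum_Ico_eq_sum_range]
        simp only [Nat.add_sub_cancel]
        have h5 : ∀ n : ℕ, ∑ k ∈ range n, (1 / (((2 + k : ℕ) : ℝ) - 1) - 1 / ((2 + k : ℕ) : ℝ)) =
            1 - 1 / ((n : ℝ) + 1) := by
          intro n
          induction n with
          | zero => simp
          | succ n ih =>
            rw [Finset.sum_range_succ, ih]
            push_cast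
            have e1 : (2 : ℝ) + n - 1 = n + 1 := by ring
            rw [e1]
            ring
        exact h5 D
    _ ≤ 1 := by
        have : (0 : ℝ) ≤ 1 / ((D : ℝ) + 1) := by positivity
        linarith

lemma card_primeFactors_le {D B : ℕ} (hD : D ≠ 0) (h : D ≤ B) :
    D.primeFactors.card ≤ Nat.log 2 B := by
  refine Nat.le_log_of_pow_le (by norm_num) (le_trans ?_ h)
  calc 2 ^ D.primeFactors.card ≤ ∏ l ∈ D.primeFactors, l :=
        Finset.pow_card_le_prod _ _ _ fun l hl => (Nat.prime_of_mem_primeFactors hl).two_le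
    _ ≤ D := Nat.le_of_dvd (Nat.pos_of_ne_zero hD) (Nat.prod_primeFactors_dvd D)

/-- the sum of the reciprocals of the prime divisors `1 (mod 4)` -/
lemma sum_primeFactors_le {C : ℝ} (hC : ∀ y : ℕ, 3 ≤ y →
    |(∑ l ∈ P4 y, 1 / (l : ℝ)) - 1 / 2 * Real.log (Real.log y)| ≤ C) {D B : ℕ} (h : D ≤ B) :
    ∑ l ∈ D.primeFactors.filter (fun l => l ≡ 1 [MOD 4]), 1 / (l : ℝ) ≤
      1 / 2 * Real.log (Real.log (Nat.log 2 B + 3 : ℕ)) + C + 1 := by
  rcases eq_or_ne D 0 with rfl | hD
  · have h1 := abs_le.1 (hC (Nat.log 2 B + 3) (by omega))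
    have h2 : 0 ≤ ∑ l ∈ P4 (Nat.log 2 B + 3), 1 / (l : ℝ) :=
      Finset.sum_nonneg fun l _ => by positivity
    simp only [Nat.primeFactors_zero, Finset.filter_empty, Finset.sum_empty]
    linarith [h1.2]
  set y := Nat.log 2 B + 3 with hy
  have h1 := abs_le.1 (hC y (by omega))
  rw [← Finset.sum_filter_add_sum_filter_not _ (fun l => l ≤ y)]
  have h2 : ∑ l ∈ (D.primeFactors.filter (fun l => l ≡ 1 [MOD 4])).filter (fun l => l ≤ y),
      1 / (l : ℝ) ≤ ∑ l ∈ P4 y, 1 / (l : ℝ) := by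
    refine Finset.sum_le_sum_of_subset_of_nonneg (fun l hl => ?_) fun l _ _ => by positivity
    have h3 := mem_filter.1 hl
    have h4 := mem_filter.1 h3.1
    have h5 := Nat.prime_of_mem_primeFactors h4.1
    exact mem_filter.2 ⟨mem_Icc.2 ⟨h5.pos, h3.2⟩, h5, h4.2⟩
  have h3 : ∑ l ∈ (D.primeFactors.filter (fun l => l ≡ 1 [MOD 4])).filter (fun l => ¬ l ≤ y),
      1 / (l : ℝ) ≤ 1 := by
    calc _ ≤ ∑ l ∈ (D.primeFactors.filter (fun l => l ≡ 1 [MOD 4])).filter (fun l => ¬ l ≤ y),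
          1 / (y : ℝ) := by
          refine Finset.sum_le_sum fun l hl => ?_
          have h4 := (mem_filter.1 hl).2
          have h5 : (y : ℝ) ≤ l := by exact_mod_cast (by omega : y ≤ l)
          have h6 : (0 : ℝ) < y := by exact_mod_cast (by omega : 0 < y)
          exact one_div_le_one_div_of_le h6 h5
      _ = (((D.primeFactors.filter (fun l => l ≡ 1 [MOD 4])).filter
            (fun l => ¬ l ≤ y)).card : ℝ) * (1 / y) := by simp
      _ ≤ (y : ℝ) * (1 / y) := by
          have h4 : ((D.primeFactors.filter (fun l => l ≡ 1 [MOD 4])).filter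
              (fun l => ¬ l ≤ y)).card ≤ y := by
            refine (Finset.card_le_card (filter_subset _ _)).trans
              ((Finset.card_le_card (filter_subset _ _)).trans ?_)
            have := card_primeFactors_le hD h
            omega
          gcongr
      _ = 1 := by
          have h6 : (y : ℝ) ≠ 0 := by exact_mod_cast (by omega : y ≠ 0)
          field_simp
  linarith [h1.2]

/-- **the weight `rp` is negligible** -/
theorem one_div_rp_le_exp (p : Prm) (hζ : 0 < p.ζ) {δ : ℝ} (hδ : 0 < δ) :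
    ∀ᶠ N : ℕ in atTop, ∀ D : ℕ, D ≤ 10000 * (N + 1) ^ 2 → 1 / rp D ≤ Real.exp (δ * S0 p N) := by
  obtain ⟨C, hC0, hC⟩ := mert
  obtain ⟨C', hC'0, hC'⟩ := exp_S0_le p hζ
  -- the comparison of the sizes
  have hev : ∀ᶠ N : ℕ in atTop, Real.exp (2 + C) * Real.sqrt (Real.log (17 + 6 * Real.log N)) ≤
      (p.ζ * Real.log N / C') ^ δ := by
    have h1 : Tendsto (fun N : ℕ => Real.log N) atTop atTop :=
      Real.tendsto_log_atTop.comp tendsto_natCast_atTop_atTop
    have h2 : ∀ᶠ x : ℝ in atTop, Real.exp (2 + C) * Real.sqrt (Real.log (17 + 6 * x)) ≤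
        (p.ζ * x / C') ^ δ := by
      have h3 : Tendsto (fun x : ℝ => 17 + 6 * x) atTop atTop :=
        tendsto_atTop_add_const_left _ _ (Tendsto.const_mul_atTop (by norm_num) tendsto_id)
      -- sqrt (log u) ≤ log u ≤ c u ^ δ
      have h4 : ∀ᶠ u : ℝ in atTop, Real.exp (2 + C) * Real.log u ≤
          (p.ζ / (8 * C')) ^ δ * u ^ δ := by
        have h5 := (isLittleO_log_rpow_atTop hδ).bound
          (show 0 < (p.ζ / (8 * C')) ^ δ / Real.exp (2 + C) by positivity)
        filter_upwards [h5, eventually_ge_atTop 1] with u hu hu1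
        rw [Real.norm_eq_abs, Real.norm_eq_abs, abs_of_nonneg (Real.log_nonneg hu1),
          abs_of_nonneg (by positivity)] at hu
        calc Real.exp (2 + C) * Real.log u ≤
            Real.exp (2 + C) * ((p.ζ / (8 * C')) ^ δ / Real.exp (2 + C) * u ^ δ) := by gcongr
          _ = _ := by field_simp
      filter_upwards [h3.eventually h4, eventually_ge_atTop (17 : ℝ)] with x hx hx1
      have h6 : Real.sqrt (Real.log (17 + 6 * x)) ≤ Real.log (17 + 6 * x) := by
        have h7 : 1 ≤ Real.log (17 + 6 * x) := by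
          rw [Real.le_log_iff_exp_le (by linarith)]
          have := Real.exp_one_lt_d9
          linarith
        rw [Real.sqrt_le_left (by linarith)]
        nlinarith
      calc Real.exp (2 + C) * Real.sqrt (Real.log (17 + 6 * x)) ≤
          Real.exp (2 + C) * Real.log (17 + 6 * x) := by gcongr
        _ ≤ (p.ζ / (8 * C')) ^ δ * (17 + 6 * x) ^ δ := hx
        _ = (p.ζ / (8 * C') * (17 + 6 * x)) ^ δ := by
            rw [Real.mul_rpow (by positivity) (by linarith)]
        _ ≤ (p.ζ * x / C') ^ δ := by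
            refine Real.rpow_le_rpow (by positivity) ?_ hδ.le
            rw [div_mul_eq_mul_div, div_le_div_iff₀ (by positivity) hC'0]
            have : p.ζ * (17 + 6 * x) ≤ p.ζ * (8 * x) := by
              apply mul_le_mul_of_nonneg_left _ hζ.le
              linarith
            nlinarith
    exact h1.eventually h2
  filter_upwards [hC', hev, eventually_ge_atTop 10000] with N hN hN2 hN3 D hD
  have hNpos : (0 : ℝ) < N := by exact_mod_cast (by omega : 0 < N)
  have h1 := one_div_rp_le D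
  have h2 := sum_primeFactors_le hC hD
  refine h1.trans ?_
  set y := Nat.log 2 (10000 * (N + 1) ^ 2) + 3 with hy
  have hy3 : 3 ≤ y := by omega
  have hy3' : (3 : ℝ) ≤ y := by exact_mod_cast hy3
  have hlogy : 1 < Real.log y := by
    rw [Real.lt_log_iff_exp_lt (by linarith)]
    have := Real.exp_one_lt_d9
    linarith
  -- size of `y`
  have hlogN : 0 < Real.log N := Real.log_pos (by
    have : (10000 : ℝ) ≤ N := by exact_mod_cast hN3
    linarith)
  have h3 : (y : ℝ) ≤ 17 + 6 * Real.log N := by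
    have h4 : (2 : ℝ) ^ (Nat.log 2 (10000 * (N + 1) ^ 2)) ≤ (N : ℝ) ^ 4 := by
      have h5 : 2 ^ (Nat.log 2 (10000 * (N + 1) ^ 2)) ≤ 10000 * (N + 1) ^ 2 :=
        Nat.pow_log_le_self 2 (by positivity)
      have h6 : 10000 * (N + 1) ^ 2 ≤ N ^ 4 := by
        calc 10000 * (N + 1) ^ 2 ≤ N * (N + 1) ^ 2 := by gcongr
          _ ≤ N * (2 * N) ^ 2 := by gcongr; omega
          _ = 4 * N ^ 3 := by ring
          _ ≤ N * N ^ 3 := by gcongr; omega
          _ = N ^ 4 := by ring
      exact_mod_cast h5.trans h6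
    have h5 : (Nat.log 2 (10000 * (N + 1) ^ 2) : ℝ) * Real.log 2 ≤ 4 * Real.log N := by
      have h6 := Real.log_le_log (by positivity) h4
      rw [Real.log_pow, Real.log_pow] at h6
      exact_mod_cast h6
    have h6 : (2 / 3 : ℝ) < Real.log 2 := by
      have := Real.log_two_gt_d9
      linarith
    have h7 : (y : ℝ) = (Nat.log 2 (10000 * (N + 1) ^ 2) : ℝ) + 3 := by
      rw [hy]
      push_cast
      ring
    rw [h7]
    generalize (Nat.log 2 (10000 * (N + 1) ^ 2)) = n at h5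
    have h8 : (0 : ℝ) ≤ (n : ℝ) := Nat.cast_nonneg _
    have h9 : (n : ℝ) * (2 / 3) ≤ n * Real.log 2 := mul_le_mul_of_nonneg_left h6.le h8
    linarith
  have h4 : Real.exp (1 / 2 * Real.log (Real.log y)) = Real.sqrt (Real.log y) := by
    rw [Real.sqrt_eq_rpow, Real.rpow_def_of_pos (by linarith)]
    congr 1
    ring
  have h5 : Real.sqrt (Real.log y) ≤ Real.sqrt (Real.log (17 + 6 * Real.log N)) :=
    Real.sqrt_le_sqrt (Real.log_le_log (by linarith) h3)
  have h6 : p.ζ * Real.log N / C' ≤ Real.exp (S0 p N) := by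
    rw [div_le_iff₀ hC'0, ← log_zz p (by omega)]
    linarith [hN.2.2]
  calc Real.exp (1 + ∑ l ∈ D.primeFactors.filter (fun l => l ≡ 1 [MOD 4]), 1 / (l : ℝ))
      ≤ Real.exp ((2 + C) + 1 / 2 * Real.log (Real.log y)) := by
        apply Real.exp_le_exp.2
        linarith
    _ = Real.exp (2 + C) * Real.sqrt (Real.log y) := by rw [Real.exp_add, h4]
    _ ≤ Real.exp (2 + C) * Real.sqrt (Real.log (17 + 6 * Real.log N)) := by gcongr
    _ ≤ (p.ζ * Real.log N / C') ^ δ := hN2
    _ ≤ Real.exp (S0 p N) ^ δ := Real.rpow_le_rpow (by positivity) h6 hδ.le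
    _ = Real.exp (δ * S0 p N) := by
        rw [← Real.exp_mul]
        congr 1
        ring

end

end Pool.Agent.Lib.MP391708.T4.A3
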