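import Pool.Agent.Lib.MP_391708_nt.T1.SpecC
import Pool.Agent.Lib.MP_1446ad_nt.SM.All

/-!
# T1, group C: BOXQ
-/

set_option autoImplicit false

namespace Pool.Agent.Lib.MP391708.T1

open Finset
open scoped Classical
open Pool.Agent.Lib.MP_1446ad_nt.SM

namespace BoxQM

/-- Fourier inversion modulo `N` -/
theorem key (N : ℕ) [NeZero N] (b : ZMod N → ZMod N → ℂ) (s t : ZMod N) :
    ∑ h : ZMod N, ∑ k : ZMod N, (ZMod.stdAddChar (-(h * s)) : ℂ) * ZMod.stdAddChar (-(k * t)) *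
      (∑ x : ZMod N, ∑ z : ZMod N, b x z * (ZMod.stdAddChar (h * x + k * z) : ℂ)) =
      (N : ℂ) ^ 2 * b s t := by
  have h1 : ∀ h k : ZMod N, (ZMod.stdAddChar (-(h * s)) : ℂ) * ZMod.stdAddChar (-(k * t)) *
      (∑ x : ZMod N, ∑ z : ZMod N, b x z * (ZMod.stdAddChar (h * x + k * z) : ℂ)) =
      ∑ x : ZMod N, ∑ z : ZMod N,
        b x z * ((ZMod.stdAddChar (h * (x - s)) : ℂ) * ZMod.stdAddChar (k * (z - t))) := by
    intro h k
    rw [Finset.mul_sum]
    refine Finset.sum_congr rfl fun x _ => ?_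
    rw [Finset.mul_sum]
    refine Finset.sum_congr rfl fun z _ => ?_
    rw [← AddChar.map_add_eq_mul, ← AddChar.map_add_eq_mul, mul_left_comm, ← AddChar.map_add_eq_mul]
    congr 2
    ring
  calc _ = ∑ h : ZMod N, ∑ k : ZMod N, ∑ x : ZMod N, ∑ z : ZMod N,
        b x z * ((ZMod.stdAddChar (h * (x - s)) : ℂ) * ZMod.stdAddChar (k * (z - t))) := by
        refine Finset.sum_congr rfl fun h _ => Finset.sum_congr rfl fun k _ => h1 h k
    _ = ∑ h : ZMod N, ∑ x : ZMod N, ∑ z : ZMod N, ∑ k : ZMod N,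
        b x z * ((ZMod.stdAddChar (h * (x - s)) : ℂ) * ZMod.stdAddChar (k * (z - t))) := by
        refine Finset.sum_congr rfl fun h _ => ?_
        rw [Finset.sum_comm]
        refine Finset.sum_congr rfl fun x _ => ?_
        rw [Finset.sum_comm]
    _ = ∑ x : ZMod N, ∑ z : ZMod N, ∑ h : ZMod N, ∑ k : ZMod N,
        b x z * ((ZMod.stdAddChar (h * (x - s)) : ℂ) * ZMod.stdAddChar (k * (z - t))) := by
        rw [Finset.sum_comm]
        refine Finset.sum_congr rfl fun x _ => ?_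
        rw [Finset.sum_comm]
    _ = ∑ x : ZMod N, ∑ z : ZMod N,
        b x z * ((if x = s then (N : ℂ) else 0) * (if z = t then (N : ℂ) else 0)) := by
        refine Finset.sum_congr rfl fun x _ => Finset.sum_congr rfl fun z _ => ?_
        have h2 : ∀ h : ZMod N, ∑ k : ZMod N,
            b x z * ((ZMod.stdAddChar (h * (x - s)) : ℂ) * ZMod.stdAddChar (k * (z - t))) =
            b x z * (ZMod.stdAddChar (h * (x - s)) * (if z = t then (N : ℂ) else 0)) := by
          intro h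
          rw [← Finset.mul_sum, ← Finset.mul_sum, FOUM.orth]
          simp only [sub_eq_zero]
        simp only [h2]
        rw [← Finset.mul_sum, ← Finset.sum_mul, FOUM.orth]
        simp only [sub_eq_zero]
    _ = (N : ℂ) ^ 2 * b s t := by
        rw [Finset.sum_eq_single s]
        · rw [Finset.sum_eq_single t]
          · simp only [if_true]
            ring
          · intro z _ hz
            simp [hz]
          · intro h
            exact absurd (mem_univ _) h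
        · intro x _ hx
          simp [hx]
        · intro h
          exact absurd (mem_univ _) h

/-- the indicator of the congruence -/
noncomputable def bb (a q : ℕ) (β γ c : ℤ) (x z : ZMod a) : ℂ :=
  if ((a * q : ℕ) : ℤ) ∣ (β + q * ((x.val : ℕ) : ℤ)) * (γ + q * ((z.val : ℕ) : ℤ)) - c then 1 else 0

theorem bb_nat (a q : ℕ) [NeZero a] (β γ c : ℤ) (i j : ℕ) :
    bb a q β γ c (i : ZMod a) (j : ZMod a) =
      if ((a * q : ℕ) : ℤ) ∣ (β + q * (i : ℤ)) * (γ + q * (j : ℤ)) - c then 1 else 0 := by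
  unfold bb
  rw [ZMod.val_natCast, ZMod.val_natCast]
  have hi : (i : ℤ) = ((i % a : ℕ) : ℤ) + a * ((i / a : ℕ) : ℤ) := by
    exact_mod_cast (Nat.mod_add_div i a).symm
  have hj : (j : ℤ) = ((j % a : ℕ) : ℤ) + a * ((j / a : ℕ) : ℤ) := by
    exact_mod_cast (Nat.mod_add_div j a).symm
  have h : (((a * q : ℕ) : ℤ) ∣ (β + q * ((i % a : ℕ) : ℤ)) * (γ + q * ((j % a : ℕ) : ℤ)) - c) ↔
      (((a * q : ℕ) : ℤ) ∣ (β + q * (i : ℤ)) * (γ + q * (j : ℤ)) - c) := by
    have e : (β + q * (i : ℤ)) * (γ + q * (j : ℤ)) - c =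
        ((β + q * ((i % a : ℕ) : ℤ)) * (γ + q * ((j % a : ℕ) : ℤ)) - c) +
          ((a * q : ℕ) : ℤ) * (((i / a : ℕ) : ℤ) * (γ + q * (j : ℤ)) +
            ((j / a : ℕ) : ℤ) * (β + q * ((i % a : ℕ) : ℤ))) := by
      rw [hj]
      nth_rw 1 [hi]
      push_cast
      ring
    rw [e]
    exact (dvd_add_left (Dvd.intro _ rfl)).symm
  simp only [h]

/-- the complete sums -/
noncomputable def TT (a q : ℕ) [NeZero a] (β γ c : ℤ) (h k : ℤ) : ℂ :=
  ∑ x : ZMod a, ∑ z : ZMod a, bb a q β γ c x z *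
    (ZMod.stdAddChar ((h : ZMod a) * x + (k : ZMod a) * z) : ℂ)

theorem TT_symm (a q : ℕ) [NeZero a] (β γ c : ℤ) (h k : ℤ) :
    TT a q β γ c h k = TT a q γ β c k h := by
  unfold TT
  rw [Finset.sum_comm]
  refine Finset.sum_congr rfl fun x _ => Finset.sum_congr rfl fun z _ => ?_
  rw [add_comm]
  congr 1
  unfold bb
  have e : (β + q * ((z.val : ℕ) : ℤ)) * (γ + q * ((x.val : ℕ) : ℤ)) =
      (γ + q * ((x.val : ℕ) : ℤ)) * (β + q * ((z.val : ℕ) : ℤ)) := mul_comm _ _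
  simp only [e]

/-- the counting function -/
theorem cnt_eq (a q : ℕ) [NeZero a] (β γ c : ℤ) (W L : ℕ) :
    ((cntQ a q β γ c W L : ℕ) : ℂ) = (1 / (a : ℂ) ^ 2) * ∑ h ∈ range a,
      (∑ i ∈ range W, ZMod.stdAddChar ((-((h : ℤ) * ((0 : ℤ) + (1 : ℤ) * (i : ℤ))) : ℤ) : ZMod a)) *
      ∑ k ∈ range a,
      (∑ j ∈ range L, ZMod.stdAddChar ((-((k : ℤ) * ((0 : ℤ) + (1 : ℤ) * (j : ℤ))) : ℤ) : ZMod a)) *
      TT a q β γ c h k := by
  have ha : (a : ℂ) ≠ 0 := by exact_mod_cast NeZero.ne a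
  have hcnt : ((cntQ a q β γ c W L : ℕ) : ℂ) = ∑ i ∈ range W, ∑ j ∈ range L,
      bb a q β γ c (i : ZMod a) (j : ZMod a) := by
    rw [cntQ, Finset.card_filter, Finset.sum_product]
    push_cast
    refine Finset.sum_congr rfl fun i _ => Finset.sum_congr rfl fun j _ => ?_
    rw [bb_nat]
    push_cast
    rfl
  have h2 : ∀ i j : ℕ, bb a q β γ c (i : ZMod a) (j : ZMod a) = (1 / (a : ℂ) ^ 2) *
      ∑ h ∈ range a, ∑ k ∈ range a,
        (ZMod.stdAddChar ((-((h : ℤ) * ((0 : ℤ) + (1 : ℤ) * (i : ℤ))) : ℤ) : ZMod a) : ℂ) *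
        (ZMod.stdAddChar ((-((k : ℤ) * ((0 : ℤ) + (1 : ℤ) * (j : ℤ))) : ℤ) : ZMod a) : ℂ) *
        TT a q β γ c h k := by
    intro i j
    have h3 := key a (bb a q β γ c) (i : ZMod a) (j : ZMod a)
    have h4 : ∑ h ∈ range a, ∑ k ∈ range a,
        (ZMod.stdAddChar ((-((h : ℤ) * ((0 : ℤ) + (1 : ℤ) * (i : ℤ))) : ℤ) : ZMod a) : ℂ) *
        (ZMod.stdAddChar ((-((k : ℤ) * ((0 : ℤ) + (1 : ℤ) * (j : ℤ))) : ℤ) : ZMod a) : ℂ) *
        TT a q β γ c h k = (a : ℂ) ^ 2 * bb a q β γ c (i : ZMod a) (j : ZMod a) := by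
      rw [← h3, ← FOUM.sum_range_zmod]
      refine Finset.sum_congr rfl fun h _ => ?_
      rw [← FOUM.sum_range_zmod]
      refine Finset.sum_congr rfl fun k _ => ?_
      unfold TT
      push_cast
      simp only [zero_add, one_mul]
    rw [h4]
    field_simp
  rw [hcnt]
  simp only [h2]
  simp only [← Finset.mul_sum]
  congr 1
  calc ∑ i ∈ range W, ∑ j ∈ range L, ∑ h ∈ range a, ∑ k ∈ range a,
        (ZMod.stdAddChar ((-((h : ℤ) * ((0 : ℤ) + (1 : ℤ) * (i : ℤ))) : ℤ) : ZMod a) : ℂ) *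
        (ZMod.stdAddChar ((-((k : ℤ) * ((0 : ℤ) + (1 : ℤ) * (j : ℤ))) : ℤ) : ZMod a) : ℂ) *
        TT a q β γ c h k
      = ∑ i ∈ range W, ∑ h ∈ range a, ∑ k ∈ range a, ∑ j ∈ range L,
        (ZMod.stdAddChar ((-((h : ℤ) * ((0 : ℤ) + (1 : ℤ) * (i : ℤ))) : ℤ) : ZMod a) : ℂ) *
        (ZMod.stdAddChar ((-((k : ℤ) * ((0 : ℤ) + (1 : ℤ) * (j : ℤ))) : ℤ) : ZMod a) : ℂ) *
        TT a q β γ c h k := by
        refine Finset.sum_congr rfl fun i _ => ?_
        rw [Finset.sum_comm]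
        refine Finset.sum_congr rfl fun h _ => ?_
        rw [Finset.sum_comm]
    _ = ∑ h ∈ range a, ∑ i ∈ range W, ∑ k ∈ range a, ∑ j ∈ range L,
        (ZMod.stdAddChar ((-((h : ℤ) * ((0 : ℤ) + (1 : ℤ) * (i : ℤ))) : ℤ) : ZMod a) : ℂ) *
        (ZMod.stdAddChar ((-((k : ℤ) * ((0 : ℤ) + (1 : ℤ) * (j : ℤ))) : ℤ) : ZMod a) : ℂ) *
        TT a q β γ c h k := by rw [Finset.sum_comm]
    _ = _ := by
        refine Finset.sum_congr rfl fun h _ => ?_
        rw [Finset.sum_mul]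
        refine Finset.sum_congr rfl fun i _ => ?_
        rw [Finset.mul_sum]
        refine Finset.sum_congr rfl fun k _ => ?_
        rw [Finset.sum_mul, Finset.mul_sum]
        refine Finset.sum_congr rfl fun j _ => ?_
        ring

section

variable (a q : ℕ) [NeZero a] [NeZero q] [NeZero (a * q)]

/-- the residues `x` with `x = β mod q` -/
theorem sum_class (β : ℤ) (f : ZMod (a * q) → ℂ) :
    ∑ x : ZMod (a * q), (if (a : ZMod (a * q)) * (x - (β : ZMod (a * q))) = 0 then f x else 0) =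
      ∑ i ∈ range a, f ((β + q * (i : ℤ) : ℤ) : ZMod (a * q)) := by
  rw [← Finset.sum_filter]
  symm
  have ha : 0 < a := Nat.pos_of_ne_zero (NeZero.ne a)
  have hq : 0 < q := Nat.pos_of_ne_zero (NeZero.ne q)
  apply Finset.sum_bij (fun (i : ℕ) _ => ((β + q * (i : ℤ) : ℤ) : ZMod (a * q)))
  · intro i _
    rw [mem_filter]
    refine ⟨mem_univ _, ?_⟩
    have h1 : (a : ZMod (a * q)) * (((β + q * (i : ℤ) : ℤ) : ZMod (a * q)) - (β : ZMod (a * q))) =
        ((a * q : ℕ) : ZMod (a * q)) * (i : ZMod (a * q)) := by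
      push_cast
      ring
    rw [h1, ZMod.natCast_self, zero_mul]
  · intro i hi j hj hij
    rw [mem_range] at hi hj
    have h1 : (((a * q : ℕ)) : ℤ) ∣ (β + q * (j : ℤ)) - (β + q * (i : ℤ)) := by
      rw [← ZMod.intCast_zmod_eq_zero_iff_dvd, Int.cast_sub, ← hij, sub_self]
    have h2 : (q : ℤ) * a ∣ q * ((j : ℤ) - i) := by
      have e : (β + q * (j : ℤ)) - (β + q * (i : ℤ)) = q * ((j : ℤ) - i) := by ring
      rw [e] at h1
      have e2 : (((a * q : ℕ)) : ℤ) = q * a := by push_cast; ring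
      rwa [e2] at h1
    have h3 : (a : ℤ) ∣ (j : ℤ) - i :=
      (mul_dvd_mul_iff_left (by exact_mod_cast hq.ne' : (q : ℤ) ≠ 0)).1 h2
    have h4 : (j : ℤ) - i = 0 := by
      apply Int.eq_zero_of_abs_lt_dvd h3
      rw [abs_lt]
      constructor <;> omega
    omega
  · intro x hx
    rw [mem_filter] at hx
    set y : ZMod (a * q) := x - (β : ZMod (a * q)) with hy
    have h1 : ((a * y.val : ℕ) : ZMod (a * q)) = 0 := by
      push_cast
      rw [ZMod.natCast_val, ZMod.cast_id', id]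
      exact hx.2
    rw [ZMod.natCast_eq_zero_iff] at h1
    have h2 : q ∣ y.val := Nat.dvd_of_mul_dvd_mul_left ha h1
    obtain ⟨i, hi⟩ := h2
    have h3 : y.val < a * q := ZMod.val_lt y
    refine ⟨i, ?_, ?_⟩
    · rw [mem_range]
      rw [hi, mul_comm a q] at h3
      exact Nat.lt_of_mul_lt_mul_left h3
    · have h4 : ((y.val : ℕ) : ZMod (a * q)) = y := by
        rw [ZMod.natCast_val, ZMod.cast_id', id]
      rw [hi] at h4
      push_cast at h4
      push_cast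
      rw [h4, hy]
      ring
  · intro i _
    rfl

omit [NeZero a] [NeZero q] in
/-- the sum over the additive characters modulo `q` -/
theorem char_sum (β h : ℤ) (x : ZMod (a * q)) :
    ∑ s ∈ range q, (ZMod.stdAddChar (((h + a * (s : ℤ) : ℤ) : ZMod (a * q)) *
      (x - (β : ZMod (a * q)))) : ℂ) =
      if (a : ZMod (a * q)) * (x - (β : ZMod (a * q))) = 0 then
        (q : ℂ) * ZMod.stdAddChar ((h : ZMod (a * q)) * (x - (β : ZMod (a * q)))) else 0 := by
  set y : ZMod (a * q) := x - (β : ZMod (a * q)) with hy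
  have h1 : ∀ s : ℕ, (ZMod.stdAddChar (((h + a * (s : ℤ) : ℤ) : ZMod (a * q)) * y) : ℂ) =
      ZMod.stdAddChar ((h : ZMod (a * q)) * y) * (ZMod.stdAddChar ((a : ZMod (a * q)) * y)) ^ s := by
    intro s
    rw [← AddChar.map_nsmul_eq_pow, ← AddChar.map_add_eq_mul]
    congr 1
    push_cast
    rw [nsmul_eq_mul]
    ring
  simp only [h1]
  rw [← Finset.mul_sum]
  by_cases hz : (a : ZMod (a * q)) * y = 0
  · rw [if_pos hz, hz, AddChar.map_zero_eq_one]
    simp
    ring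
  · rw [if_neg hz]
    have hz1 : (ZMod.stdAddChar ((a : ZMod (a * q)) * y) : ℂ) ≠ 1 := by
      intro h2
      apply hz
      apply ZMod.injective_stdAddChar
      rw [AddChar.map_zero_eq_one]
      exact h2
    have h3 := geom_sum_mul (ZMod.stdAddChar ((a : ZMod (a * q)) * y) : ℂ) q
    have h4 : (ZMod.stdAddChar ((a : ZMod (a * q)) * y) : ℂ) ^ q = 1 := by
      rw [← AddChar.map_nsmul_eq_pow, nsmul_eq_mul, ← mul_assoc]
      have : ((q : ZMod (a * q)) * (a : ZMod (a * q))) = 0 := by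
        have h5 : ((a * q : ℕ) : ZMod (a * q)) = 0 := ZMod.natCast_self _
        push_cast at h5
        exact (mul_comm _ _).trans h5
      rw [this, zero_mul, AddChar.map_zero_eq_one]
    rw [h4, sub_self] at h3
    rcases mul_eq_zero.1 h3 with h5 | h5
    · rw [h5, mul_zero]
    · exact absurd (sub_eq_zero.1 h5) hz1

/-- characters modulo `a q` and modulo `a` -/
theorem char_eq (h : ℤ) (i : ℕ) :
    (ZMod.stdAddChar ((h : ZMod (a * q)) * ((q : ZMod (a * q)) * (i : ZMod (a * q)))) : ℂ) =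
      ZMod.stdAddChar ((h : ZMod a) * (i : ZMod a)) := by
  have h1 : ((h : ZMod (a * q)) * ((q : ZMod (a * q)) * (i : ZMod (a * q)))) =
      ((h * (q * i) : ℤ) : ZMod (a * q)) := by push_cast; ring
  have h2 : ((h : ZMod a) * (i : ZMod a)) = ((h * i : ℤ) : ZMod a) := by push_cast; ring
  rw [h1, h2, ZMod.stdAddChar_coe, ZMod.stdAddChar_coe]
  congr 1
  have ha : (a : ℂ) ≠ 0 := by exact_mod_cast NeZero.ne a
  have hq : (q : ℂ) ≠ 0 := by exact_mod_cast NeZero.ne q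
  push_cast
  field_simp

theorem TT_eq (β γ c h k : ℤ) :
    (q : ℂ) ^ 2 * TT a q β γ c h k = ∑ s ∈ range q, ∑ t ∈ range q,
      (ZMod.stdAddChar ((-((h + a * (s : ℤ)) * β + (k + a * (t : ℤ)) * γ) : ℤ) : ZMod (a * q)) : ℂ) *
        kc (a * q) c (h + a * (s : ℤ)) (k + a * (t : ℤ)) := by
  have h1 : ∀ s t : ℕ,
      (ZMod.stdAddChar ((-((h + a * (s : ℤ)) * β + (k + a * (t : ℤ)) * γ) : ℤ) : ZMod (a * q)) : ℂ) *
        kc (a * q) c (h + a * (s : ℤ)) (k + a * (t : ℤ)) =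
      ∑ x : ZMod (a * q), ∑ z : ZMod (a * q), if x * z = (c : ZMod (a * q)) then
        (ZMod.stdAddChar (((h + a * (s : ℤ) : ℤ) : ZMod (a * q)) * (x - (β : ZMod (a * q)))) : ℂ) *
        (ZMod.stdAddChar (((k + a * (t : ℤ) : ℤ) : ZMod (a * q)) * (z - (γ : ZMod (a * q)))) : ℂ)
        else 0 := by
    intro s t
    unfold kc
    rw [Finset.mul_sum]
    refine Finset.sum_congr rfl fun x _ => ?_
    rw [Finset.mul_sum]
    refine Finset.sum_congr rfl fun z _ => ?_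
    split_ifs with hxz
    · rw [← AddChar.map_add_eq_mul, ← AddChar.map_add_eq_mul]
      congr 1
      push_cast
      ring
    · rw [mul_zero]
  simp only [h1]
  have h2 : ∑ s ∈ range q, ∑ t ∈ range q, ∑ x : ZMod (a * q), ∑ z : ZMod (a * q),
        (if x * z = (c : ZMod (a * q)) then
        (ZMod.stdAddChar (((h + a * (s : ℤ) : ℤ) : ZMod (a * q)) * (x - (β : ZMod (a * q)))) : ℂ) *
        (ZMod.stdAddChar (((k + a * (t : ℤ) : ℤ) : ZMod (a * q)) * (z - (γ : ZMod (a * q)))) : ℂ)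
        else 0) =
      ∑ x : ZMod (a * q), ∑ z : ZMod (a * q), (if x * z = (c : ZMod (a * q)) then
        (∑ s ∈ range q,
          (ZMod.stdAddChar (((h + a * (s : ℤ) : ℤ) : ZMod (a * q)) * (x - (β : ZMod (a * q)))) : ℂ)) *
        (∑ t ∈ range q,
          (ZMod.stdAddChar (((k + a * (t : ℤ) : ℤ) : ZMod (a * q)) * (z - (γ : ZMod (a * q)))) : ℂ))
        else 0) := by
    calc _ = ∑ s ∈ range q, ∑ x : ZMod (a * q), ∑ z : ZMod (a * q), ∑ t ∈ range q,
          (if x * z = (c : ZMod (a * q)) then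
          (ZMod.stdAddChar (((h + a * (s : ℤ) : ℤ) : ZMod (a * q)) * (x - (β : ZMod (a * q)))) : ℂ) *
          (ZMod.stdAddChar (((k + a * (t : ℤ) : ℤ) : ZMod (a * q)) * (z - (γ : ZMod (a * q)))) : ℂ)
          else 0) := by
          refine Finset.sum_congr rfl fun s _ => ?_
          rw [Finset.sum_comm]
          refine Finset.sum_congr rfl fun x _ => ?_
          rw [Finset.sum_comm]
      _ = ∑ x : ZMod (a * q), ∑ z : ZMod (a * q), ∑ s ∈ range q, ∑ t ∈ range q,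
          (if x * z = (c : ZMod (a * q)) then
          (ZMod.stdAddChar (((h + a * (s : ℤ) : ℤ) : ZMod (a * q)) * (x - (β : ZMod (a * q)))) : ℂ) *
          (ZMod.stdAddChar (((k + a * (t : ℤ) : ℤ) : ZMod (a * q)) * (z - (γ : ZMod (a * q)))) : ℂ)
          else 0) := by
          rw [Finset.sum_comm]
          refine Finset.sum_congr rfl fun x _ => ?_
          rw [Finset.sum_comm]
      _ = _ := by
          refine Finset.sum_congr rfl fun x _ => Finset.sum_congr rfl fun z _ => ?_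
          split_ifs with hxz
          · rw [Finset.sum_mul_sum]
          · simp
  rw [h2]
  simp only [char_sum]
  have h3 : ∀ x z : ZMod (a * q), (if x * z = (c : ZMod (a * q)) then
        (if (a : ZMod (a * q)) * (x - (β : ZMod (a * q))) = 0 then
          (q : ℂ) * ZMod.stdAddChar ((h : ZMod (a * q)) * (x - (β : ZMod (a * q)))) else 0) *
        (if (a : ZMod (a * q)) * (z - (γ : ZMod (a * q))) = 0 then
          (q : ℂ) * ZMod.stdAddChar ((k : ZMod (a * q)) * (z - (γ : ZMod (a * q)))) else 0)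
        else (0 : ℂ)) =
      (if (a : ZMod (a * q)) * (x - (β : ZMod (a * q))) = 0 then
        (if (a : ZMod (a * q)) * (z - (γ : ZMod (a * q))) = 0 then
          (if x * z = (c : ZMod (a * q)) then
            (q : ℂ) ^ 2 * (ZMod.stdAddChar ((h : ZMod (a * q)) * (x - (β : ZMod (a * q)))) *
              ZMod.stdAddChar ((k : ZMod (a * q)) * (z - (γ : ZMod (a * q))))) else 0) else 0) else 0) := by
    intro x z
    split_ifs <;> ring
  simp only [h3]
  have h4 : ∀ x : ZMod (a * q), ∑ z : ZMod (a * q),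
      (if (a : ZMod (a * q)) * (x - (β : ZMod (a * q))) = 0 then
        (if (a : ZMod (a * q)) * (z - (γ : ZMod (a * q))) = 0 then
          (if x * z = (c : ZMod (a * q)) then
            (q : ℂ) ^ 2 * (ZMod.stdAddChar ((h : ZMod (a * q)) * (x - (β : ZMod (a * q)))) *
              ZMod.stdAddChar ((k : ZMod (a * q)) * (z - (γ : ZMod (a * q))))) else 0) else 0) else 0) =
      (if (a : ZMod (a * q)) * (x - (β : ZMod (a * q))) = 0 then
        ∑ j ∈ range a, (if x * ((γ + q * (j : ℤ) : ℤ) : ZMod (a * q)) = (c : ZMod (a * q)) then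
            (q : ℂ) ^ 2 * (ZMod.stdAddChar ((h : ZMod (a * q)) * (x - (β : ZMod (a * q)))) *
              ZMod.stdAddChar ((k : ZMod (a * q)) *
                (((γ + q * (j : ℤ) : ℤ) : ZMod (a * q)) - (γ : ZMod (a * q))))) else 0) else 0) := by
    intro x
    split_ifs with hx
    · rw [sum_class a q γ (fun z => if x * z = (c : ZMod (a * q)) then
            (q : ℂ) ^ 2 * (ZMod.stdAddChar ((h : ZMod (a * q)) * (x - (β : ZMod (a * q)))) *
              ZMod.stdAddChar ((k : ZMod (a * q)) * (z - (γ : ZMod (a * q))))) else 0)]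
    · simp
  simp only [h4]
  rw [sum_class a q β (fun x => ∑ j ∈ range a,
      (if x * ((γ + q * (j : ℤ) : ℤ) : ZMod (a * q)) = (c : ZMod (a * q)) then
            (q : ℂ) ^ 2 * (ZMod.stdAddChar ((h : ZMod (a * q)) * (x - (β : ZMod (a * q)))) *
              ZMod.stdAddChar ((k : ZMod (a * q)) *
                (((γ + q * (j : ℤ) : ℤ) : ZMod (a * q)) - (γ : ZMod (a * q))))) else 0))]
  unfold TT
  rw [Finset.mul_sum, ← FOUM.sum_range_zmod a (fun x => (q : ℂ) ^ 2 * ∑ z : ZMod a,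
    bb a q β γ c x z * (ZMod.stdAddChar ((h : ZMod a) * x + (k : ZMod a) * z) : ℂ))]
  refine Finset.sum_congr rfl fun i _ => ?_
  rw [Finset.mul_sum, ← FOUM.sum_range_zmod a (fun z => (q : ℂ) ^ 2 *
    (bb a q β γ c (i : ZMod a) z *
      (ZMod.stdAddChar ((h : ZMod a) * (i : ZMod a) + (k : ZMod a) * z) : ℂ)))]
  refine Finset.sum_congr rfl fun j _ => ?_
  rw [bb_nat]
  have h5 : (((a * q : ℕ) : ℤ) ∣ (β + q * (i : ℤ)) * (γ + q * (j : ℤ)) - c) ↔
      ((β + q * (i : ℤ) : ℤ) : ZMod (a * q)) * ((γ + q * (j : ℤ) : ℤ) : ZMod (a * q)) =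
        (c : ZMod (a * q)) := by
    rw [← ZMod.intCast_zmod_eq_zero_iff_dvd, Int.cast_sub, sub_eq_zero, Int.cast_mul]
  simp only [h5]
  split_ifs
  · rw [one_mul]
    have e1 : ((β + q * (i : ℤ) : ℤ) : ZMod (a * q)) - (β : ZMod (a * q)) =
        (q : ZMod (a * q)) * (i : ZMod (a * q)) := by push_cast; ring
    have e2 : ((γ + q * (j : ℤ) : ℤ) : ZMod (a * q)) - (γ : ZMod (a * q)) =
        (q : ZMod (a * q)) * (j : ZMod (a * q)) := by push_cast; ring
    rw [e1, e2, char_eq, char_eq, AddChar.map_add_eq_mul]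
  · rw [zero_mul, mul_zero]

/-- the bound for the complete sums -/
theorem norm_TT (hKLB : SpecKLB) (hDEC : SpecDEC) (β γ c : ℤ) (hc : Int.gcd c a = 1) (h k : ℤ) :
    ‖TT a q β γ c h k‖ ≤ tau (a * q) * √(uu (a * q) : ℝ) * (vv (a * q) : ℝ) * q *
      √(Int.gcd h a : ℝ) := by
  have ha : 0 < a := Nat.pos_of_ne_zero (NeZero.ne a)
  have hq : 0 < q := Nat.pos_of_ne_zero (NeZero.ne q)
  have hqR : (0 : ℝ) < q := by exact_mod_cast hq
  set B : ℝ := tau (a * q) * √(uu (a * q) : ℝ) * (vv (a * q) : ℝ) * q * √(Int.gcd h a : ℝ) with hB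
  have htau : 0 ≤ tau (a * q) := by unfold tau; positivity
  have hg2 : (Int.gcd c (uu (a * q)) : ℝ) ≤ q := by
    have h1 : uu (a * q) ∣ a * q := by
      obtain ⟨h2, -⟩ := hDEC (a * q) (Nat.mul_pos ha hq)
      exact Dvd.intro _ h2
    have h3 : Int.gcd c (uu (a * q)) ∣ Int.gcd c a * Int.gcd c q := by
      refine dvd_trans (Int.gcd_dvd_gcd_of_dvd_right (b := ((a : ℤ) * q)) _ (by exact_mod_cast h1)) ?_
      exact Int.gcd_mul_right_dvd_mul_gcd _ _ _
    rw [hc, one_mul] at h3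
    have h4 : Int.gcd c q ∣ q := by
      have := Int.gcd_dvd_right c (q : ℤ)
      exact_mod_cast this
    exact_mod_cast Nat.le_of_dvd hq (h3.trans h4)
  have hterm : ∀ s t : ℕ, ‖kc (a * q) c (h + a * (s : ℤ)) (k + a * (t : ℤ))‖ ≤ B := by
    intro s t
    have h1 := BOXM.kcb hKLB hDEC (a * q) c (h + a * (s : ℤ)) (k + a * (t : ℤ))
    have hg1 : (Int.gcd (h + a * (s : ℤ)) ((a * q : ℕ) : ℤ) : ℝ) ≤ Int.gcd h a * q := by
      have h3 : Int.gcd (h + a * (s : ℤ)) ((a * q : ℕ) : ℤ) ∣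
          Int.gcd (h + a * (s : ℤ)) a * Int.gcd (h + a * (s : ℤ)) q := by
        have := Int.gcd_mul_right_dvd_mul_gcd (h + a * (s : ℤ)) (a : ℤ) (q : ℤ)
        rwa [show ((a : ℤ) * (q : ℤ)) = ((a * q : ℕ) : ℤ) by push_cast; ring] at this
      have h4 : Int.gcd (h + a * (s : ℤ)) a ∣ Int.gcd h a := by
        have e1 : ((Int.gcd (h + a * (s : ℤ)) a : ℕ) : ℤ) ∣ h + a * (s : ℤ) := Int.gcd_dvd_left _ _
        have e2 : ((Int.gcd (h + a * (s : ℤ)) a : ℕ) : ℤ) ∣ (a : ℤ) := Int.gcd_dvd_right _ _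
        have e3 : ((Int.gcd (h + a * (s : ℤ)) a : ℕ) : ℤ) ∣ h := by
          have := dvd_sub e1 (e2.mul_right (s : ℤ))
          rwa [add_sub_cancel_right] at this
        have e4 := Int.dvd_coe_gcd e3 e2
        exact_mod_cast e4
      have h5 : Int.gcd (h + a * (s : ℤ)) q ∣ q := by
        have := Int.gcd_dvd_right (h + a * (s : ℤ)) (q : ℤ)
        exact_mod_cast this
      have h6 : 0 < Int.gcd h a * q :=
        Nat.mul_pos (Int.gcd_pos_of_ne_zero_right _ (by exact_mod_cast ha.ne')) hq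
      exact_mod_cast Nat.le_of_dvd h6 (h3.trans (Nat.mul_dvd_mul h4 h5))
    refine h1.trans ?_
    have h7 : √(Int.gcd (h + a * (s : ℤ)) ((a * q : ℕ) : ℤ) : ℝ) ≤ √(Int.gcd h a : ℝ) * √(q : ℝ) := by
      rw [← Real.sqrt_mul (by positivity)]
      exact Real.sqrt_le_sqrt hg1
    have h8 : √(Int.gcd c (uu (a * q)) : ℝ) ≤ √(q : ℝ) := Real.sqrt_le_sqrt hg2
    have h9 : √(q : ℝ) * √(q : ℝ) = q := Real.mul_self_sqrt hqR.le
    calc tau (a * q) * √(uu (a * q) : ℝ) * (vv (a * q) : ℝ) *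
          √(Int.gcd (h + a * (s : ℤ)) ((a * q : ℕ) : ℤ) : ℝ) * √(Int.gcd c (uu (a * q)) : ℝ)
        ≤ tau (a * q) * √(uu (a * q) : ℝ) * (vv (a * q) : ℝ) *
          (√(Int.gcd h a : ℝ) * √(q : ℝ)) * √(q : ℝ) := by gcongr
      _ = tau (a * q) * √(uu (a * q) : ℝ) * (vv (a * q) : ℝ) *
          √(Int.gcd h a : ℝ) * (√(q : ℝ) * √(q : ℝ)) := by ring
      _ = B := by rw [h9, hB]; ring
  have h1 : ‖(q : ℂ) ^ 2 * TT a q β γ c h k‖ ≤ (q : ℝ) ^ 2 * B := by
    rw [TT_eq]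
    refine (norm_sum_le _ _).trans ?_
    calc _ ≤ ∑ s ∈ range q, ∑ t ∈ range q, B := by
          refine Finset.sum_le_sum fun s _ => (norm_sum_le _ _).trans (Finset.sum_le_sum fun t _ => ?_)
          rw [norm_mul, AddChar.norm_apply, one_mul]
          exact hterm s t
      _ = _ := by simp; ring
  rw [norm_mul, norm_pow, Complex.norm_natCast] at h1
  exact le_of_mul_le_mul_left h1 (by positivity)

end

/-- the number of solutions `i` for given `z` -/
theorem fibre (a q : ℕ) [NeZero a] [NeZero q] (β z c : ℤ) (hz : (q : ℤ) ∣ β * z - c)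
    (hc : Int.gcd c a = 1) :
    ((range a).filter (fun i : ℕ => ((a * q : ℕ) : ℤ) ∣ (β + q * (i : ℤ)) * z - c)).card =
      if Int.gcd z a = 1 then 1 else 0 := by
  have ha : 0 < a := Nat.pos_of_ne_zero (NeZero.ne a)
  have hq : 0 < q := Nat.pos_of_ne_zero (NeZero.ne q)
  split_ifs with h1
  · obtain ⟨w, hw⟩ := hz
    have hu : IsUnit (z : ZMod a) := by
      rw [ZMod.coe_int_isUnit_iff_isCoprime, Int.isCoprime_iff_gcd_eq_one, Int.gcd_comm]
      exact h1
    have hiff : ∀ i : ℕ, (((a * q : ℕ) : ℤ) ∣ (β + q * (i : ℤ)) * z - c) ↔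
        (i : ZMod a) = -(w : ZMod a) * (z : ZMod a)⁻¹ := by
      intro i
      have e : (β + q * (i : ℤ)) * z - c = q * (w + i * z) := by linear_combination hw
      have e2 : ((a * q : ℕ) : ℤ) = q * a := by push_cast; ring
      rw [e, e2, mul_dvd_mul_iff_left (by exact_mod_cast hq.ne' : (q : ℤ) ≠ 0),
        ← ZMod.intCast_zmod_eq_zero_iff_dvd]
      push_cast
      constructor
      · intro h
        have h2 : (i : ZMod a) * z = -w := by linear_combination h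
        rw [← h2, mul_assoc, ZMod.mul_inv_of_unit _ hu, mul_one]
      · intro h
        rw [h, mul_assoc, ZMod.inv_mul_of_unit _ hu]
        ring
    rw [Finset.card_eq_one]
    refine ⟨(-(w : ZMod a) * (z : ZMod a)⁻¹).val, ?_⟩
    ext i
    rw [mem_filter, mem_range, mem_singleton, hiff]
    constructor
    · rintro ⟨h2, h3⟩
      rw [← h3, ZMod.val_cast_of_lt h2]
    · intro h2
      refine ⟨h2 ▸ ZMod.val_lt _, ?_⟩
      rw [h2, ZMod.natCast_val, ZMod.cast_id', id]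
  · rw [Finset.card_eq_zero, Finset.filter_eq_empty_iff]
    intro i _ hi
    apply h1
    have e1 : ((Int.gcd z a : ℕ) : ℤ) ∣ z := Int.gcd_dvd_left _ _
    have e2 : ((Int.gcd z a : ℕ) : ℤ) ∣ (a : ℤ) := Int.gcd_dvd_right _ _
    have e3 : (a : ℤ) ∣ (β + q * (i : ℤ)) * z - c := by
      refine dvd_trans ?_ hi
      push_cast
      exact Dvd.intro _ rfl
    have e4 : ((Int.gcd z a : ℕ) : ℤ) ∣ c := by
      have := dvd_sub (e1.mul_left (β + q * (i : ℤ))) (e2.trans e3)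
      rwa [sub_sub_cancel] at this
    have e5 := Int.dvd_coe_gcd e4 e2
    rw [hc] at e5
    exact Nat.dvd_one.1 (by exact_mod_cast e5)

theorem sum_mu (n : ℕ) :
    ∑ m ∈ n.divisors, (ArithmeticFunction.moebius m : ℝ) = if n = 1 then 1 else 0 := by
  have h1 := congrArg (fun f : ArithmeticFunction ℤ => f n)
    ArithmeticFunction.moebius_mul_coe_zeta
  simp only [ArithmeticFunction.coe_mul_zeta_apply, ArithmeticFunction.one_apply] at h1
  have h2 : ((∑ e ∈ n.divisors, ArithmeticFunction.moebius e : ℤ) : ℝ) =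
      ((if n = 1 then 1 else 0 : ℤ) : ℝ) := by rw [h1]
  push_cast at h2
  exact h2

/-- the number of `j mod a` with `γ + q j` divisible by `m` -/
theorem card_dvd (a q m : ℕ) (γ : ℤ) (ha : 0 < a) (hm : m ∣ a) (hmq : m.Coprime q) :
    ((range a).filter (fun j : ℕ => (m : ℤ) ∣ γ + q * (j : ℤ))).card = a / m := by
  have hm0 : 0 < m := Nat.pos_of_dvd_of_pos hm ha
  have : NeZero m := ⟨hm0.ne'⟩
  set v : ℕ := (-(γ : ZMod m) * (q : ZMod m)⁻¹).val with hv
  have hu : (q : ZMod m) * (q : ZMod m)⁻¹ = 1 := ZMod.coe_mul_inv_eq_one q hmq.symm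
  have hiff : ∀ j : ℕ, ((m : ℤ) ∣ γ + q * (j : ℤ)) ↔ j ≡ v [MOD m] := by
    intro j
    rw [← ZMod.intCast_zmod_eq_zero_iff_dvd, ← ZMod.natCast_eq_natCast_iff, hv, ZMod.natCast_val,
      ZMod.cast_id', id]
    push_cast
    constructor
    · intro h
      have h2 : (γ : ZMod m) = -(q * j) := by linear_combination h
      rw [h2]
      linear_combination (-(j : ZMod m)) * hu
    · intro h
      rw [h]
      linear_combination (-(γ : ZMod m)) * hu
  simp only [hiff]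
  rw [← Nat.count_eq_card_filter_range, Nat.count_modEq_card _ hm0]
  have h3 : a % m = 0 := Nat.mod_eq_zero_of_dvd hm
  rw [h3]
  simp

/-- the number of units -/
theorem card_units (a q : ℕ) (γ : ℤ) (ha : 0 < a)
    (hγ : ∀ l : ℕ, l.Prime → l ∣ a → l ∣ q → ¬ (l : ℤ) ∣ γ) :
    (((range a).filter (fun j : ℕ => Int.gcd (γ + q * (j : ℤ)) a = 1)).card : ℝ) = a * ra a q := by
  have haR : (a : ℝ) ≠ 0 := by exact_mod_cast ha.ne'
  rw [Finset.card_filter]
  push_cast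
  have h1 : ∀ j ∈ range a, (if Int.gcd (γ + q * (j : ℤ)) a = 1 then (1 : ℝ) else 0) =
      ∑ m ∈ a.divisors, if (m : ℤ) ∣ γ + q * (j : ℤ) then (ArithmeticFunction.moebius m : ℝ) else 0 := by
    intro j _
    rw [← sum_mu, ← Finset.sum_filter]
    refine Finset.sum_congr ?_ fun _ _ => rfl
    ext m
    rw [Nat.mem_divisors, mem_filter, Nat.mem_divisors]
    constructor
    · rintro ⟨h2, -⟩
      have h3 : (m : ℤ) ∣ ((Int.gcd (γ + q * (j : ℤ)) a : ℕ) : ℤ) := by exact_mod_cast h2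
      refine ⟨⟨?_, ha.ne'⟩, h3.trans (Int.gcd_dvd_left _ _)⟩
      exact_mod_cast h3.trans (Int.gcd_dvd_right _ _)
    · rintro ⟨⟨h2, -⟩, h3⟩
      refine ⟨?_, (Int.gcd_pos_of_ne_zero_right _ (by exact_mod_cast ha.ne')).ne'⟩
      have := Int.dvd_coe_gcd h3 (by exact_mod_cast h2 : (m : ℤ) ∣ (a : ℤ))
      exact_mod_cast this
  rw [Finset.sum_congr rfl h1, Finset.sum_comm, ra, Finset.mul_sum, Finset.sum_filter]
  refine Finset.sum_congr rfl fun m hm => ?_
  have hma : m ∣ a := (Nat.mem_divisors.1 hm).1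
  have hm0 : 0 < m := Nat.pos_of_dvd_of_pos hma ha
  have hmR : (m : ℝ) ≠ 0 := by exact_mod_cast hm0.ne'
  split_ifs with hmq
  · rw [← Finset.sum_filter, Finset.sum_const, nsmul_eq_mul, card_dvd a q m γ ha hma hmq,
      Nat.cast_div hma hmR]
    field_simp
  · refine Finset.sum_eq_zero fun j _ => ?_
    rw [if_neg]
    intro hd
    obtain ⟨l, hl, hlm, hlq⟩ := Nat.Prime.not_coprime_iff_dvd.1 hmq
    apply hγ l hl (hlm.trans hma) hlq
    have h2 : (l : ℤ) ∣ γ + q * (j : ℤ) := dvd_trans (by exact_mod_cast hlm) hd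
    have h3 : (l : ℤ) ∣ q * (j : ℤ) := Dvd.dvd.mul_right (by exact_mod_cast hlq) _
    exact (dvd_add_left h3).1 h2

theorem TT_zero (a q : ℕ) [NeZero a] [NeZero q] (β γ c : ℤ) (hβ : (q : ℤ) ∣ β * γ - c)
    (hc : Int.gcd c a = 1) : TT a q β γ c 0 0 = ((a * ra a q : ℝ) : ℂ) := by
  have ha : 0 < a := Nat.pos_of_ne_zero (NeZero.ne a)
  rw [← card_units a q γ ha ?_]
  · unfold TT
    rw [← FOUM.sum_range_zmod a (fun x => ∑ z : ZMod a, bb a q β γ c x z *
      (ZMod.stdAddChar (((0 : ℤ) : ZMod a) * x + ((0 : ℤ) : ZMod a) * z) : ℂ))]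
    have h1 : ∀ i : ℕ, ∑ z : ZMod a, bb a q β γ c (i : ZMod a) z *
        (ZMod.stdAddChar (((0 : ℤ) : ZMod a) * (i : ZMod a) + ((0 : ℤ) : ZMod a) * z) : ℂ) =
        ∑ j ∈ range a, if ((a * q : ℕ) : ℤ) ∣ (β + q * (i : ℤ)) * (γ + q * (j : ℤ)) - c
          then (1 : ℂ) else 0 := by
      intro i
      rw [← FOUM.sum_range_zmod a (fun z => bb a q β γ c (i : ZMod a) z *
        (ZMod.stdAddChar (((0 : ℤ) : ZMod a) * (i : ZMod a) + ((0 : ℤ) : ZMod a) * z) : ℂ))]
      refine Finset.sum_congr rfl fun j _ => ?_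
      rw [bb_nat]
      simp
    simp only [h1]
    rw [Finset.sum_comm, Finset.card_filter]
    push_cast
    refine Finset.sum_congr rfl fun j _ => ?_
    have h2 : (q : ℤ) ∣ β * (γ + q * (j : ℤ)) - c := by
      have : β * (γ + q * (j : ℤ)) - c = (β * γ - c) + q * (β * j) := by ring
      rw [this]
      exact dvd_add hβ (Dvd.intro _ rfl)
    have h3 := fibre a q β (γ + q * (j : ℤ)) c h2 hc
    rw [Finset.card_filter] at h3
    have h4 : (((∑ i ∈ range a, if ((a * q : ℕ) : ℤ) ∣ (β + q * (i : ℤ)) * (γ + q * (j : ℤ)) - c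
        then 1 else 0 : ℕ)) : ℂ) = (((if Int.gcd (γ + q * (j : ℤ)) a = 1 then 1 else 0 : ℕ)) : ℂ) := by
      rw [h3]
    push_cast at h4
    rw [h4]
    split_ifs <;> simp
  · intro l hl hla hlq hlγ
    have h1 : (l : ℤ) ∣ c := by
      have h2 : (l : ℤ) ∣ β * γ - c := dvd_trans (by exact_mod_cast hlq) hβ
      have := dvd_sub (hlγ.mul_left β) h2
      rwa [sub_sub_cancel] at this
    have h3 := Int.dvd_coe_gcd h1 (by exact_mod_cast hla : (l : ℤ) ∣ (a : ℤ))
    rw [hc] at h3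
    have h4 : l ∣ 1 := by exact_mod_cast h3
    exact hl.one_lt.ne' (Nat.dvd_one.1 h4)

/-- the sum of the second factors -/
theorem sumG' (hGEO : SpecGEO) (P : ℕ) [NeZero P] (L : ℕ) :
    ∑ k ∈ Ioo 0 P, ‖∑ j ∈ range L,
      ZMod.stdAddChar ((-((k : ℤ) * ((0 : ℤ) + (1 : ℤ) * (j : ℤ))) : ℤ) : ZMod P)‖ ≤
      (P : ℝ) * (1 + Real.log P) := by
  have hP : 0 < P := Nat.pos_of_ne_zero (NeZero.ne P)
  have hPR : (0 : ℝ) < P := by exact_mod_cast hP
  have h1 : ∀ k ∈ Ioo 0 P, ‖∑ j ∈ range L,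
      ZMod.stdAddChar ((-((k : ℤ) * ((0 : ℤ) + (1 : ℤ) * (j : ℤ))) : ℤ) : ZMod P)‖ ≤
      (P : ℝ) / 2 * (1 / (k : ℝ) + 1 / ((P : ℝ) - k)) := by
    intro k hk
    rw [mem_Ioo] at hk
    have hk0 : (0 : ℝ) < k := by exact_mod_cast hk.1
    have hk1 : (k : ℝ) < P := by exact_mod_cast hk.2
    have hkP : (0 : ℝ) < (P : ℝ) - k := by linarith
    have hnd : ¬ (P : ℤ) ∣ -(k : ℤ) := by
      rw [dvd_neg]
      intro hd
      have := Int.le_of_dvd (by omega) hd
      omega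
    have h2 := BOXM.geo hGEO P L 0 (-(k : ℤ)) hnd
    have h3 : ∀ j : ℕ, (-((k : ℤ) * ((0 : ℤ) + (1 : ℤ) * (j : ℤ))) : ℤ) =
        0 + -(k : ℤ) * (j : ℤ) := by
      intro j; ring
    simp only [h3]
    have h4 : BOXM.rs P (-(k : ℤ)) = P - k := by
      have h5 := BOXM.rs_cast P (-(k : ℤ))
      have h6 : (-(k : ℤ)) % (P : ℤ) = P - k := by
        rw [← Int.add_emod_right]
        rw [Int.emod_eq_of_lt] <;> omega
      rw [h6] at h5
      omega
    rw [h4, Nat.cast_sub hk.2.le] at h2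
    refine h2.trans ?_
    have h7 : (P : ℝ) - ((P : ℝ) - k) = k := by ring
    rw [h7]
    rcases min_cases ((P : ℝ) - k) (k : ℝ) with ⟨hm, _⟩ | ⟨hm, _⟩
    · rw [hm]
      have : (P : ℝ) / (2 * ((P : ℝ) - k)) = (P : ℝ) / 2 * (1 / ((P : ℝ) - k)) := by
        field_simp
      rw [this]
      apply mul_le_mul_of_nonneg_left _ (by positivity)
      have : 0 ≤ 1 / (k : ℝ) := by positivity
      linarith
    · rw [hm]
      have : (P : ℝ) / (2 * (k : ℝ)) = (P : ℝ) / 2 * (1 / (k : ℝ)) := by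
        field_simp
      rw [this]
      apply mul_le_mul_of_nonneg_left _ (by positivity)
      have : 0 ≤ 1 / ((P : ℝ) - k) := by positivity
      linarith
  have h2 : ∑ k ∈ Ioo 0 P, 1 / ((P : ℝ) - k) = ∑ k ∈ Ioo 0 P, 1 / (k : ℝ) := by
    apply Finset.sum_nbij' (fun k => P - k) (fun k => P - k)
    · intro k hk
      rw [mem_Ioo] at hk ⊢
      omega
    · intro k hk
      rw [mem_Ioo] at hk ⊢
      omega
    · intro k hk
      rw [mem_Ioo] at hk
      show P - (P - k) = k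
      omega
    · intro k hk
      rw [mem_Ioo] at hk
      show P - (P - k) = k
      omega
    · intro k hk
      rw [mem_Ioo] at hk
      rw [Nat.cast_sub hk.2.le]
  have h3 := BOXM.harm P
  calc _ ≤ ∑ k ∈ Ioo 0 P, (P : ℝ) / 2 * (1 / (k : ℝ) + 1 / ((P : ℝ) - k)) := sum_le_sum h1
    _ = (P : ℝ) / 2 * (∑ k ∈ Ioo 0 P, 1 / (k : ℝ) + ∑ k ∈ Ioo 0 P, 1 / ((P : ℝ) - k)) := by
        rw [← mul_sum, sum_add_distrib]
    _ = (P : ℝ) / 2 * (2 * ∑ k ∈ Ioo 0 P, 1 / (k : ℝ)) := by rw [h2]; ring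
    _ ≤ (P : ℝ) / 2 * (2 * (1 + Real.log P)) := by
        apply mul_le_mul_of_nonneg_left _ (by positivity)
        linarith
    _ = _ := by ring

end BoxQM

open BoxQM in
theorem specBoxQ : SpecBoxQ := by
  intro a q β γ c W L ha hq hβ hc
  have : NeZero a := ⟨ha.ne'⟩
  have : NeZero q := ⟨hq.ne'⟩
  have : NeZero (a * q) := ⟨(Nat.mul_pos ha hq).ne'⟩
  have haR : (0 : ℝ) < a := by exact_mod_cast ha
  have ha1 : (1 : ℝ) ≤ a := by exact_mod_cast ha
  have hlog : 0 ≤ Real.log a := Real.log_nonneg ha1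
  have haC : (a : ℂ) ≠ 0 := by exact_mod_cast ha.ne'
  have htau : 1 ≤ tau a := by
    unfold tau
    exact_mod_cast Finset.card_pos.2 ⟨1, Nat.one_mem_divisors.2 ha.ne'⟩
  set B : ℝ := tau (a * q) * √(uu (a * q) : ℝ) * (vv (a * q) : ℝ) * q with hB
  have hB0 : 0 ≤ B := by
    have : 0 ≤ tau (a * q) := by unfold tau; positivity
    positivity
  set F : ℕ → ℂ := fun h => ∑ i ∈ range W,
    ZMod.stdAddChar ((-((h : ℤ) * ((0 : ℤ) + (1 : ℤ) * (i : ℤ))) : ℤ) : ZMod a) with hF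
  set G : ℕ → ℂ := fun k => ∑ j ∈ range L,
    ZMod.stdAddChar ((-((k : ℤ) * ((0 : ℤ) + (1 : ℤ) * (j : ℤ))) : ℤ) : ZMod a) with hG
  set T : ℕ → ℕ → ℂ := fun h k => TT a q β γ c h k with hT
  have e1 : ((cntQ a q β γ c W L : ℕ) : ℂ) = (1 / (a : ℂ) ^ 2) *
      ∑ h ∈ range a, F h * ∑ k ∈ range a, G k * T h k := cnt_eq a q β γ c W L
  have f0 : F 0 = W := by simp [hF]
  have g0 : G 0 = L := by simp [hG]
  have t0 : T 0 0 = ((a * ra a q : ℝ) : ℂ) := by
    have := TT_zero a q β γ c hβ hc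
    simpa [hT] using this
  have tb1 : ∀ h k : ℕ, ‖T h k‖ ≤ B * √(Nat.gcd h a : ℝ) := by
    intro h k
    have := norm_TT a q allKLB specDEC β γ c hc h k
    rwa [Int.gcd_natCast_natCast] at this
  have tb2 : ∀ h k : ℕ, ‖T h k‖ ≤ B * √(Nat.gcd k a : ℝ) := by
    intro h k
    have h1 := norm_TT a q allKLB specDEC γ β c hc k h
    rw [Int.gcd_natCast_natCast] at h1
    show ‖TT a q β γ c h k‖ ≤ _
    rw [TT_symm]
    exact h1
  have e2 : ((cntQ a q β γ c W L : ℕ) : ℂ) - (((W : ℝ) * L / a * ra a q : ℝ) : ℂ) =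
      (1 / (a : ℂ) ^ 2) * ((∑ k ∈ Ioo 0 a, (W : ℂ) * (G k * T 0 k)) +
        ∑ h ∈ Ioo 0 a, F h * ∑ k ∈ range a, G k * T h k) := by
    rw [e1, BOXM.split a ha (fun h => F h * ∑ k ∈ range a, G k * T h k)]
    simp only [f0]
    rw [BOXM.split a ha (fun k => G k * T 0 k), g0, t0, ← Finset.mul_sum]
    push_cast
    field_simp
    ring
  have e3 : |(cntQ a q β γ c W L : ℝ) - (W : ℝ) * L / a * ra a q| =
      ‖((cntQ a q β γ c W L : ℕ) : ℂ) - (((W : ℝ) * L / a * ra a q : ℝ) : ℂ)‖ := by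
    have : ((cntQ a q β γ c W L : ℕ) : ℂ) - (((W : ℝ) * L / a * ra a q : ℝ) : ℂ) =
        (((cntQ a q β γ c W L : ℝ) - (W : ℝ) * L / a * ra a q : ℝ) : ℂ) := by
      push_cast; ring
    rw [this, Complex.norm_real, Real.norm_eq_abs]
  rw [e3, e2]
  have s1 := BOXM.sumF specGEO specGCS a W 1 0 (by simp)
  have s2 := BOXM.sumF specGEO specGCS a L 1 0 (by simp)
  have s3 := sumG' specGEO a L
  have s4 : ∑ k ∈ range a, ‖G k‖ ≤ L + (a : ℝ) * (1 + Real.log a) := by
    rw [BOXM.split a ha (fun k => ‖G k‖), g0, Complex.norm_natCast]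
    exact add_le_add le_rfl s3
  have n1 : ‖∑ k ∈ Ioo 0 a, (W : ℂ) * (G k * T 0 k)‖ ≤
      W * (B * ((a : ℝ) * tau a * (1 + Real.log a))) := by
    rw [← Finset.mul_sum, norm_mul, Complex.norm_natCast]
    refine mul_le_mul_of_nonneg_left ?_ (by positivity)
    refine (norm_sum_le _ _).trans ?_
    calc _ ≤ ∑ k ∈ Ioo 0 a, B * (‖G k‖ * √(Nat.gcd k a : ℝ)) := by
          refine Finset.sum_le_sum fun k _ => ?_
          rw [norm_mul]
          calc ‖G k‖ * ‖T 0 k‖ ≤ ‖G k‖ * (B * √(Nat.gcd k a : ℝ)) :=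
                mul_le_mul_of_nonneg_left (tb2 0 k) (norm_nonneg _)
            _ = _ := by ring
      _ = B * ∑ k ∈ Ioo 0 a, ‖G k‖ * √(Nat.gcd k a : ℝ) := by rw [Finset.mul_sum]
      _ ≤ _ := mul_le_mul_of_nonneg_left s2 hB0
  have n2 : ‖∑ h ∈ Ioo 0 a, F h * ∑ k ∈ range a, G k * T h k‖ ≤
      B * (((a : ℝ) * tau a * (1 + Real.log a)) * (L + (a : ℝ) * (1 + Real.log a))) := by
    refine (norm_sum_le _ _).trans ?_
    calc _ ≤ ∑ h ∈ Ioo 0 a, (‖F h‖ * √(Nat.gcd h a : ℝ)) * (B * ∑ k ∈ range a, ‖G k‖) := by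
          refine Finset.sum_le_sum fun h _ => ?_
          rw [norm_mul]
          have h1 : ‖∑ k ∈ range a, G k * T h k‖ ≤
              (∑ k ∈ range a, ‖G k‖) * (B * √(Nat.gcd h a : ℝ)) := by
            refine (norm_sum_le _ _).trans ?_
            rw [Finset.sum_mul]
            refine Finset.sum_le_sum fun k _ => ?_
            rw [norm_mul]
            exact mul_le_mul_of_nonneg_left (tb1 h k) (norm_nonneg _)
          calc ‖F h‖ * ‖∑ k ∈ range a, G k * T h k‖ ≤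
              ‖F h‖ * ((∑ k ∈ range a, ‖G k‖) * (B * √(Nat.gcd h a : ℝ))) :=
                mul_le_mul_of_nonneg_left h1 (norm_nonneg _)
            _ = _ := by ring
      _ = (∑ h ∈ Ioo 0 a, ‖F h‖ * √(Nat.gcd h a : ℝ)) * (B * ∑ k ∈ range a, ‖G k‖) := by
          rw [Finset.sum_mul]
      _ ≤ ((a : ℝ) * tau a * (1 + Real.log a)) * (B * (L + (a : ℝ) * (1 + Real.log a))) := by
          refine mul_le_mul s1 (mul_le_mul_of_nonneg_left s4 hB0) ?_ (by positivity)
          exact mul_nonneg hB0 (Finset.sum_nonneg fun _ _ => norm_nonneg _)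
      _ = _ := by ring
  have h1 : ‖(1 / (a : ℂ) ^ 2)‖ = 1 / (a : ℝ) ^ 2 := by simp
  rw [norm_mul, h1]
  set l : ℝ := 1 + Real.log a with hl
  have hl1 : 1 ≤ l := by rw [hl]; linarith
  have hW : (0 : ℝ) ≤ W := by positivity
  have hL : (0 : ℝ) ≤ L := by positivity
  have fin : W * (B * ((a : ℝ) * tau a * l)) + B * (((a : ℝ) * tau a * l) * (L + (a : ℝ) * l)) ≤
      B * tau a * l ^ 2 * (a : ℝ) * (a + W + L) := by
    have hX : 0 ≤ B * tau a * a := by positivity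
    have i0 : l ≤ l ^ 2 := by nlinarith
    have i1 : W * l ≤ W * l ^ 2 := mul_le_mul_of_nonneg_left i0 hW
    have i2 : L * l ≤ L * l ^ 2 := mul_le_mul_of_nonneg_left i0 hL
    calc _ = (B * tau a * a) * (W * l + L * l + a * l ^ 2) := by ring
      _ ≤ (B * tau a * a) * (W * l ^ 2 + L * l ^ 2 + a * l ^ 2) := by
          apply mul_le_mul_of_nonneg_left _ hX
          linarith
      _ = _ := by ring
  calc 1 / (a : ℝ) ^ 2 * ‖(∑ k ∈ Ioo 0 a, (W : ℂ) * (G k * T 0 k)) +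
        ∑ h ∈ Ioo 0 a, F h * ∑ k ∈ range a, G k * T h k‖
      ≤ 1 / (a : ℝ) ^ 2 * (B * tau a * l ^ 2 * (a : ℝ) * (a + W + L)) := by
        apply mul_le_mul_of_nonneg_left _ (by positivity)
        exact (norm_add_le _ _).trans ((add_le_add n1 n2).trans fin)
    _ = 1 * (B * tau a * l ^ 2 * (1 + (W : ℝ) / a + (L : ℝ) / a)) := by
        field_simp
    _ ≤ 4 * (B * tau a * l ^ 2 * (1 + (W : ℝ) / a + (L : ℝ) / a)) := by
        apply mul_le_mul_of_nonneg_right (by norm_num)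
        have : 0 ≤ tau a := by linarith
        positivity
    _ = _ := by rw [hB]; ring

end Pool.Agent.Lib.MP391708.T1
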