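import Mathlib

/-!
# The two final steps: both signs carry mass (second moment), and Cauchy–Schwarz at the other
three vertices
-/

set_option autoImplicit false

namespace Pool.Agent.Lib.MP391708.T1

open Finset

/-! ## The mass on the natural pairs of given sign -/

/-- if `P` has at most the proportion `a` and `|S| ∑ Z² ≤ b (∑ Z)²` then `Z` has at most the
proportion `√(a b)` on `P` -/
theorem mass_le {ι : Type*} (S : Finset ι) (Z : ι → ℝ) (hZ : ∀ i ∈ S, 0 ≤ Z i)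
    (P : ι → Prop) [DecidablePred P] {a b : ℝ} (ha : 0 ≤ a) (hb : 0 ≤ b)
    (h1 : ((S.filter P).card : ℝ) ≤ a * S.card)
    (h2 : (S.card : ℝ) * ∑ i ∈ S, Z i ^ 2 ≤ b * (∑ i ∈ S, Z i) ^ 2) :
    ∑ i ∈ S.filter P, Z i ≤ Real.sqrt (a * b) * ∑ i ∈ S, Z i := by
  have hA : 0 ≤ ∑ i ∈ S, Z i := sum_nonneg hZ
  have h3 : (∑ i ∈ S.filter P, Z i) ^ 2 ≤ (S.filter P).card * ∑ i ∈ S.filter P, Z i ^ 2 :=
    sq_sum_le_card_mul_sum_sq
  have h4 : ∑ i ∈ S.filter P, Z i ^ 2 ≤ ∑ i ∈ S, Z i ^ 2 :=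
    sum_le_sum_of_subset_of_nonneg (filter_subset _ _) fun i _ _ => sq_nonneg _
  have h5 : (∑ i ∈ S.filter P, Z i) ^ 2 ≤ a * b * (∑ i ∈ S, Z i) ^ 2 := by
    have h6 : 0 ≤ ∑ i ∈ S, Z i ^ 2 := sum_nonneg fun i _ => sq_nonneg _
    calc _ ≤ ((S.filter P).card : ℝ) * ∑ i ∈ S.filter P, Z i ^ 2 := h3
      _ ≤ a * S.card * ∑ i ∈ S, Z i ^ 2 := by
        apply mul_le_mul h1 h4 (sum_nonneg fun i _ => sq_nonneg _) (by positivity)
      _ = a * (S.card * ∑ i ∈ S, Z i ^ 2) := by ring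
      _ ≤ a * (b * (∑ i ∈ S, Z i) ^ 2) := by gcongr
      _ = _ := by ring
  calc _ ≤ Real.sqrt (a * b * (∑ i ∈ S, Z i) ^ 2) := Real.le_sqrt_of_sq_le h5
    _ = _ := by rw [Real.sqrt_mul (by positivity), Real.sqrt_sq hA]

/-- both signs carry a positive proportion of the mass if `|S| ∑ Z² ≤ b (∑ Z)²` with `b < 2` -/
theorem mass_both {ι : Type*} (S : Finset ι) (Z s : ι → ℝ) (hZ : ∀ i ∈ S, 0 ≤ Z i)
    (hs : ∀ i ∈ S, s i = 1 ∨ s i = -1) {ε b : ℝ} (hε : 0 ≤ ε) (hb : 0 ≤ b)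
    (h1 : |∑ i ∈ S, s i| ≤ ε * S.card)
    (h2 : (S.card : ℝ) * ∑ i ∈ S, Z i ^ 2 ≤ b * (∑ i ∈ S, Z i) ^ 2) :
    (1 - Real.sqrt ((1 + ε) / 2 * b)) * ∑ i ∈ S, Z i ≤ ∑ i ∈ S.filter (fun i => s i = -1), Z i ∧
    (1 - Real.sqrt ((1 + ε) / 2 * b)) * ∑ i ∈ S, Z i ≤ ∑ i ∈ S.filter (fun i => s i = 1), Z i := by
  classical
  have hdis : S.filter (fun i => ¬ s i = -1) = S.filter (fun i => s i = 1) := by
    refine filter_congr fun i hi => ?_
    rcases hs i hi with h | h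
    · rw [h]; norm_num
    · rw [h]; norm_num
  have hsum : ∀ F : ι → ℝ, ∑ i ∈ S, F i = ∑ i ∈ S.filter (fun i => s i = -1), F i +
      ∑ i ∈ S.filter (fun i => s i = 1), F i := by
    intro F
    rw [← sum_filter_add_sum_filter_not S (fun i => s i = -1), hdis]
  have hcard : (S.card : ℝ) = (S.filter (fun i => s i = -1)).card +
      (S.filter (fun i => s i = 1)).card := by
    have := hsum (fun _ => 1)
    simpa using this
  have hss : ∑ i ∈ S, s i = -((S.filter (fun i => s i = -1)).card : ℝ) +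
      (S.filter (fun i => s i = 1)).card := by
    rw [hsum s]
    have e1 : ∑ i ∈ S.filter (fun i => s i = -1), s i = -((S.filter (fun i => s i = -1)).card : ℝ) := by
      rw [sum_congr rfl fun i hi => (mem_filter.1 hi).2]
      simp
    have e2 : ∑ i ∈ S.filter (fun i => s i = 1), s i = ((S.filter (fun i => s i = 1)).card : ℝ) := by
      rw [sum_congr rfl fun i hi => (mem_filter.1 hi).2]
      simp
    rw [e1, e2]
  rw [hss] at h1
  rw [abs_le] at h1
  have a1 : ((S.filter (fun i => s i = 1)).card : ℝ) ≤ (1 + ε) / 2 * S.card := by linarith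
  have a2 : ((S.filter (fun i => s i = -1)).card : ℝ) ≤ (1 + ε) / 2 * S.card := by linarith
  have b1 := mass_le S Z hZ _ (by positivity) hb a1 h2
  have b2 := mass_le S Z hZ _ (by positivity) hb a2 h2
  have b3 := hsum Z
  constructor
  · linarith
  · linarith

/-! ## Cauchy–Schwarz at the other three vertices -/

/-- values of a weighted map with bounded second moment: a set carrying mass is large -/
theorem card_ge_of_mass {R : Type*} (T : Finset R) (W : R → ℝ)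
    (m : R → ℕ) (X : ℕ) (hm : ∀ r ∈ T, W r ≠ 0 → m r ∈ Icc 1 X) (P : ℕ → Prop) [DecidablePred P]
    {C c N : ℝ} (hN : 0 < N) (hC : 0 < C) (hc : 0 ≤ c)
    (h2 : ∑ M ∈ Icc 1 X, (∑ r ∈ T.filter (fun r => m r = M), W r) ^ 2 ≤ C * N)
    (h1 : c * N ≤ ∑ r ∈ T.filter (fun r => P (m r)), W r) :
    c ^ 2 / C * N ≤ (((Icc 1 X).filter P).card : ℝ) := by
  classical
  have h3 : ∑ r ∈ T.filter (fun r => P (m r)), W r =
      ∑ M ∈ (Icc 1 X).filter P, ∑ r ∈ T.filter (fun r => m r = M), W r := by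
    have e1 : ∑ r ∈ T.filter (fun r => P (m r)), W r =
        ∑ r ∈ T.filter (fun r => P (m r) ∧ W r ≠ 0), W r := by
      rw [← filter_filter, sum_filter_ne_zero]
    have e2 : ∀ M ∈ (Icc 1 X).filter P, ∑ r ∈ T.filter (fun r => m r = M), W r =
        ∑ r ∈ (T.filter (fun r => P (m r) ∧ W r ≠ 0)).filter (fun r => m r = M), W r := by
      intro M hM
      rw [mem_filter] at hM
      rw [← sum_filter_ne_zero, filter_filter, filter_filter]
      refine sum_congr (filter_congr fun r _ => ?_) fun _ _ => rfl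
      constructor
      · rintro ⟨h, h'⟩
        exact ⟨⟨by rw [h]; exact hM.2, h'⟩, h⟩
      · rintro ⟨⟨_, h'⟩, h⟩
        exact ⟨h, h'⟩
    rw [e1, sum_congr rfl e2]
    symm
    refine sum_fiberwise_of_maps_to (fun r hr => ?_) _
    rw [mem_filter] at hr
    rw [mem_filter]
    exact ⟨hm r hr.1 hr.2.2, hr.2.1⟩
  rw [h3] at h1
  have h4 : (∑ M ∈ (Icc 1 X).filter P, ∑ r ∈ T.filter (fun r => m r = M), W r) ^ 2 ≤
      ((Icc 1 X).filter P).card * ∑ M ∈ (Icc 1 X).filter P,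
        (∑ r ∈ T.filter (fun r => m r = M), W r) ^ 2 := sq_sum_le_card_mul_sum_sq
  have h5 : ∑ M ∈ (Icc 1 X).filter P, (∑ r ∈ T.filter (fun r => m r = M), W r) ^ 2 ≤ C * N :=
    (sum_le_sum_of_subset_of_nonneg (filter_subset _ _) fun i _ _ => sq_nonneg _).trans h2
  have h6 : (c * N) ^ 2 ≤ ((Icc 1 X).filter P).card * (C * N) := by
    calc (c * N) ^ 2 ≤ (∑ M ∈ (Icc 1 X).filter P, ∑ r ∈ T.filter (fun r => m r = M), W r) ^ 2 := by
          gcongr
      _ ≤ _ := h4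
      _ ≤ _ := by gcongr
  rw [div_mul_eq_mul_div, div_le_iff₀ hC]
  have h7 : c ^ 2 * N * N ≤ ((Icc 1 X).filter P).card * C * N := by
    calc c ^ 2 * N * N = (c * N) ^ 2 := by ring
      _ ≤ _ := h6
      _ = _ := by ring
  exact le_of_mul_le_mul_right h7 hN

/-- the conclusion: relations with `s(m₁) s(m₂) s(m₃) s(m₄) = 1` -/
theorem both_signs {R : Type*} (T : Finset R) (W : R → ℝ) (hW : ∀ r ∈ T, 0 ≤ W r)
    (m : Fin 4 → R → ℕ) (X : ℕ) (s : ℕ → ℝ) (hs : ∀ n, s n = 1 ∨ s n = -1)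
    (hrel : ∀ r ∈ T, W r ≠ 0 → s (m 0 r) * s (m 1 r) * s (m 2 r) * s (m 3 r) = 1)
    (hm : ∀ j : Fin 4, j ≠ 0 → ∀ r ∈ T, W r ≠ 0 → m j r ∈ Icc 1 X)
    {C c N : ℝ} (hN : 0 < N) (hC : 0 < C) (hc : 0 ≤ c)
    (h2 : ∀ j : Fin 4, j ≠ 0 →
      ∑ M ∈ Icc 1 X, (∑ r ∈ T.filter (fun r => m j r = M), W r) ^ 2 ≤ C * N)
    (e : ℝ) (he : e = 1 ∨ e = -1)
    (h1 : c * N ≤ ∑ r ∈ T.filter (fun r => s (m 0 r) = e), W r) :
    (c / 3) ^ 2 / C * N ≤ (((Icc 1 X).filter (fun n => s n = e)).card : ℝ) := by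
  classical
  -- one of the three other vertices has the same sign
  have hone : ∀ r ∈ T.filter (fun r => s (m 0 r) = e), W r ≠ 0 →
      s (m 1 r) = e ∨ s (m 2 r) = e ∨ s (m 3 r) = e := by
    intro r hr hr0
    rw [mem_filter] at hr
    have h := hrel r hr.1 hr0
    rw [hr.2] at h
    rcases he with rfl | rfl <;> rcases hs (m 1 r) with a | a <;>
      rcases hs (m 2 r) with b | b <;> rcases hs (m 3 r) with d | d <;> rw [a, b, d] at h <;>
      first
      | exact Or.inl a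
      | exact Or.inr (Or.inl b)
      | exact Or.inr (Or.inr d)
      | (exfalso; norm_num at h)
  have hle : ∑ r ∈ T.filter (fun r => s (m 0 r) = e), W r ≤
      ∑ r ∈ T.filter (fun r => s (m 1 r) = e), W r + ∑ r ∈ T.filter (fun r => s (m 2 r) = e), W r +
        ∑ r ∈ T.filter (fun r => s (m 3 r) = e), W r := by
    simp only [sum_filter]
    rw [← sum_add_distrib, ← sum_add_distrib]
    refine sum_le_sum fun r hr => ?_
    have hWr := hW r hr
    by_cases h0 : W r = 0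
    · simp [h0]
    by_cases h : s (m 0 r) = e
    · rw [if_pos h]
      rcases hone r (mem_filter.2 ⟨hr, h⟩) h0 with g | g | g <;> rw [if_pos g] <;>
        split_ifs <;> linarith
    · rw [if_neg h]
      split_ifs <;> linarith
  have key : ∃ j : Fin 4, j ≠ 0 ∧ c / 3 * N ≤ ∑ r ∈ T.filter (fun r => s (m j r) = e), W r := by
    by_contra hcon
    push Not at hcon
    have g1 := hcon 1 (by decide)
    have g2 := hcon 2 (by decide)
    have g3 := hcon 3 (by decide)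
    linarith
  obtain ⟨j, hj, hj'⟩ := key
  exact card_ge_of_mass T W (m j) X (hm j hj) (fun n => s n = e) hN hC (by positivity)
    (h2 j hj) hj'

/-! ## Abstract assembly -/

open Classical in
/-- relations `r ∈ T` over the points `γ r` of `S`: first moment `≥ 9/10`, second moment
`≤ 11/10`, cancelling signs over `S`, a good part `S'` of `S`, and second moments at the other
three vertices over the good part: both signs have positive density -/
theorem assemble {Γ R : Type*} (S : Finset Γ) (G : Γ → Prop) (T : Finset R) (γ : R → Γ)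
    (hγ : ∀ r ∈ T, γ r ∈ S) (W : R → ℝ) (hW : ∀ r ∈ T, 0 ≤ W r) (M : Γ → ℕ)
    (m : Fin 4 → R → ℕ) (hM : ∀ r ∈ T, m 0 r = M (γ r)) (X : ℕ) (s : ℕ → ℝ)
    (hs : ∀ n, s n = 1 ∨ s n = -1)
    (hrel : ∀ r ∈ T, W r ≠ 0 → s (m 0 r) * s (m 1 r) * s (m 2 r) * s (m 3 r) = 1)
    (hm : ∀ j : Fin 4, j ≠ 0 → ∀ r ∈ T, W r ≠ 0 → m j r ∈ Icc 1 X)
    {C c N : ℝ} (hN : 0 < N) (hC : 0 < C) (hc : 0 < c) (hcard : c * N ≤ S.card)
    (hsgn : |∑ x ∈ S, s (M x)| ≤ 1 / 100 * S.card)
    (hbad : ((S.filter (fun x => ¬ G x)).card : ℝ) ≤ 1 / 1000 * S.card)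
    (hfirst : 9 / 10 * (S.card : ℝ) ≤ ∑ r ∈ T, W r)
    (hsecond : ∑ x ∈ S, (∑ r ∈ T.filter (fun r => γ r = x), W r) ^ 2 ≤ 11 / 10 * S.card)
    (h2 : ∀ j : Fin 4, j ≠ 0 → ∑ n ∈ Icc 1 X,
      (∑ r ∈ T.filter (fun r => G (γ r) ∧ m j r = n), W r) ^ 2 ≤ C * N)
    (e : ℝ) (he : e = 1 ∨ e = -1) :
    (c / 30) ^ 2 / C * N ≤ (((Icc 1 X).filter (fun n => s n = e)).card : ℝ) := by
  set Z : Γ → ℝ := fun x => ∑ r ∈ T.filter (fun r => γ r = x), W r with hZ
  have hZ0 : ∀ x ∈ S, 0 ≤ Z x := fun x _ => sum_nonneg fun r hr => hW r (mem_filter.1 hr).1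
  have hcard0 : 0 < (S.card : ℝ) := lt_of_lt_of_le (by positivity) hcard
  -- sums over `T` as sums over `S`
  have htot : ∀ P : Γ → Prop, ∑ r ∈ T.filter (fun r => P (γ r)), W r =
      ∑ x ∈ S.filter P, Z x := by
    intro P
    have e1 : ∀ x ∈ S.filter P, Z x =
        ∑ r ∈ (T.filter (fun r => P (γ r))).filter (fun r => γ r = x), W r := by
      intro x hx
      rw [mem_filter] at hx
      rw [hZ, filter_filter]
      refine sum_congr (filter_congr fun r _ => ?_) fun _ _ => rfl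
      constructor
      · intro h
        exact ⟨by rw [h]; exact hx.2, h⟩
      · exact fun h => h.2
    rw [sum_congr rfl e1]
    symm
    refine sum_fiberwise_of_maps_to (fun r hr => ?_) _
    rw [mem_filter] at hr
    exact mem_filter.2 ⟨hγ r hr.1, hr.2⟩
  have htotal : ∑ r ∈ T, W r = ∑ x ∈ S, Z x := by
    have := htot (fun _ => True)
    simpa using this
  set A : ℝ := ∑ x ∈ S, Z x with hA
  rw [htotal] at hfirst
  have hA0 : 0 < A := lt_of_lt_of_le (by positivity) hfirst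
  set b : ℝ := 1100 / 810 with hb
  have hsec : (S.card : ℝ) * ∑ x ∈ S, Z x ^ 2 ≤ b * A ^ 2 := by
    calc (S.card : ℝ) * ∑ x ∈ S, Z x ^ 2 ≤ S.card * (11 / 10 * S.card) := by gcongr
      _ = b * (9 / 10 * (S.card : ℝ)) ^ 2 := by rw [hb]; ring
      _ ≤ b * A ^ 2 := by
        have : (0 : ℝ) ≤ 9 / 10 * (S.card : ℝ) := by positivity
        gcongr
  have k1 : Real.sqrt ((1 + 1 / 100) / 2 * b) ≤ 83 / 100 := by
    rw [hb]
    refine Real.sqrt_le_iff.2 ⟨by norm_num, by norm_num⟩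
  have k2 : Real.sqrt (1 / 1000 * b) ≤ 4 / 100 := by
    rw [hb]
    refine Real.sqrt_le_iff.2 ⟨by norm_num, by norm_num⟩
  have hboth := mass_both S Z (fun x => s (M x)) hZ0 (fun x _ => hs _) (by norm_num)
    (by rw [hb]; norm_num) hsgn hsec
  have hb2 := mass_le S Z hZ0 (fun x => ¬ G x) (by norm_num) (by rw [hb]; norm_num) hbad hsec
  have hbad' : ∑ x ∈ S.filter (fun x => ¬ G x), Z x ≤ 4 / 100 * A := by
    refine hb2.trans ?_
    gcongr
  have hmass : 17 / 100 * A ≤ ∑ x ∈ S.filter (fun x => s (M x) = e), Z x := by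
    have h17 : 17 / 100 * A ≤ (1 - Real.sqrt ((1 + 1 / 100) / 2 * b)) * A := by
      gcongr
      linarith
    rcases he with he | he
    · rw [he]; exact h17.trans hboth.2
    · rw [he]; exact h17.trans hboth.1
  -- the good part
  have hgood : 12 / 100 * A ≤ ∑ x ∈ S.filter (fun x => G x ∧ s (M x) = e), Z x := by
    have e1 : ∑ x ∈ S.filter (fun x => s (M x) = e), Z x ≤
        ∑ x ∈ S.filter (fun x => G x ∧ s (M x) = e), Z x +
        ∑ x ∈ S.filter (fun x => ¬ G x), Z x := by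
      simp only [sum_filter]
      rw [← sum_add_distrib]
      refine sum_le_sum fun x hx => ?_
      have := hZ0 x hx
      by_cases h1 : s (M x) = e <;> by_cases h2 : G x <;> simp [h1, h2, this]
    linarith
  set T' : Finset R := T.filter (fun r => G (γ r)) with hT'
  have hT'T : ∀ r ∈ T', r ∈ T := fun r hr => (mem_filter.1 hr).1
  have hfin : c / 10 * N ≤ ∑ r ∈ T'.filter (fun r => s (m 0 r) = e), W r := by
    have e1 : ∑ r ∈ T'.filter (fun r => s (m 0 r) = e), W r =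
        ∑ r ∈ T.filter (fun r => G (γ r) ∧ s (M (γ r)) = e), W r := by
      rw [hT', filter_filter]
      refine sum_congr (filter_congr fun r hr => ?_) fun _ _ => rfl
      rw [hM r hr]
    have e2 : ∑ r ∈ T.filter (fun r => G (γ r) ∧ s (M (γ r)) = e), W r =
        ∑ x ∈ S.filter (fun x => G x ∧ s (M x) = e), Z x := by
      convert htot (fun x => G x ∧ s (M x) = e)
    rw [e1, e2]
    have : c * N ≤ 10 / 9 * A := by linarith
    have h4 : 0 < c * N := by positivity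
    linarith
  have hres := both_signs T' W (fun r hr => hW r (hT'T r hr)) m X s hs
    (fun r hr => hrel r (hT'T r hr)) (fun j hj r hr => hm j hj r (hT'T r hr)) hN hC
    (by positivity : (0 : ℝ) ≤ c / 10) (fun j hj => by
      refine le_of_eq_of_le (sum_congr rfl fun n _ => ?_) (h2 j hj)
      rw [hT', filter_filter]) e he hfin
  calc (c / 30) ^ 2 / C * N = (c / 10 / 3) ^ 2 / C * N := by ring
    _ ≤ _ := hres

/-- from `N` to `20 N` -/
theorem scale_down {P : ℕ → Prop} [DecidablePred P] {κ : ℝ} (hκ : 0 < κ) (L : ℕ) (hL : 0 < L)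
    (h : ∃ N₀ : ℕ, ∀ N : ℕ, N₀ ≤ N → κ * N ≤ (((Icc 1 (L * N)).filter P).card : ℝ)) :
    ∃ c : ℝ, 0 < c ∧ ∃ N₀ : ℕ, ∀ N : ℕ, N₀ ≤ N → c * N ≤ (((Icc 1 N).filter P).card : ℝ) := by
  obtain ⟨N₀, h⟩ := h
  refine ⟨κ / (2 * L), by positivity, L * (N₀ + 1), fun N hN => ?_⟩
  set n : ℕ := N / L with hn
  have h1 : N₀ + 1 ≤ n := by
    rw [hn, Nat.le_div_iff_mul_le hL]
    linarith [mul_comm L (N₀ + 1)]
  have h2 : L * n ≤ N := Nat.mul_div_le N L
  have h3 : N < L * (n + 1) := by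
    have := Nat.lt_mul_div_succ N hL
    rw [hn]
    exact this
  have h4 := h n (by omega)
  have h5 : (((Icc 1 (L * n)).filter P).card : ℝ) ≤ ((Icc 1 N).filter P).card := by
    have : ((Icc 1 (L * n)).filter P).card ≤ ((Icc 1 N).filter P).card :=
      card_le_card (filter_subset_filter _ (Icc_subset_Icc_right h2))
    exact_mod_cast this
  refine le_trans ?_ (h4.trans h5)
  have h6 : (N : ℝ) ≤ L * (2 * n) := by
    have : N ≤ L * (2 * n) := by
      refine h3.le.trans (Nat.mul_le_mul_left _ ?_)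
      omega
    exact_mod_cast this
  have hLr : (0 : ℝ) < L := by exact_mod_cast hL
  rw [div_mul_eq_mul_div, div_le_iff₀ (by positivity)]
  calc κ * N ≤ κ * (L * (2 * n)) := by gcongr
    _ = κ * n * (2 * L) := by ring

end Pool.Agent.Lib.MP391708.T1
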