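import Pool.Agent.Lib.MP_391708_nt.T1.Conc

/-!
# Abstract assembly, version for a subset of the base points
-/

set_option autoImplicit false

namespace Pool.Agent.Lib.MP391708.T1

open Finset

/-- a set of positive proportion carries mass, if the first and second moments are close to `1` -/
theorem mass_sub {ι : Type*} (S : Finset ι) (Z : ι → ℝ) (A : ι → Prop) [DecidablePred A]
    {ε η : ℝ} (hη : 0 ≤ η) (hεη : 12 * ε ≤ η ^ 2) (hA : η * S.card ≤ ((S.filter A).card : ℝ))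
    (h1 : (1 - ε) * (S.card : ℝ) ≤ ∑ i ∈ S, Z i)
    (h2 : ∑ i ∈ S, Z i ^ 2 ≤ (1 + ε) * (S.card : ℝ)) :
    η / 2 * S.card ≤ ∑ i ∈ S.filter A, Z i := by
  have hdev : ∑ i ∈ S, (Z i - 1) ^ 2 ≤ 3 * ε * S.card := by
    have e : ∑ i ∈ S, (Z i - 1) ^ 2 = ∑ i ∈ S, Z i ^ 2 - 2 * ∑ i ∈ S, Z i + S.card := by
      have : ∀ i ∈ S, (Z i - 1) ^ 2 = Z i ^ 2 - 2 * Z i + 1 := fun i _ => by ring
      rw [sum_congr rfl this, sum_add_distrib, sum_sub_distrib, ← mul_sum, sum_const,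
        nsmul_eq_mul, mul_one]
    rw [e]
    linarith
  have hdevA : ∑ i ∈ S.filter A, (Z i - 1) ^ 2 ≤ 3 * ε * S.card :=
    (sum_le_sum_of_subset_of_nonneg (filter_subset _ _) fun i _ _ => sq_nonneg _).trans hdev
  have has : ((S.filter A).card : ℝ) ≤ (S.card : ℝ) := by exact_mod_cast card_filter_le S A
  set a : ℝ := ((S.filter A).card : ℝ) with ha
  set s : ℝ := (S.card : ℝ) with hs
  have ha0 : 0 ≤ a := Nat.cast_nonneg _
  have hs0 : 0 ≤ s := Nat.cast_nonneg _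
  have hcs : (∑ i ∈ S.filter A, (Z i - 1)) ^ 2 ≤ a * ∑ i ∈ S.filter A, (Z i - 1) ^ 2 :=
    sq_sum_le_card_mul_sum_sq
  have hsum : ∑ i ∈ S.filter A, (Z i - 1) = ∑ i ∈ S.filter A, Z i - a := by
    rw [sum_sub_distrib, sum_const, nsmul_eq_mul, mul_one]
  rw [hsum] at hcs
  have h3 : (∑ i ∈ S.filter A, Z i - a) ^ 2 ≤ (η / 2 * s) ^ 2 := by
    have h0 : 0 ≤ ∑ i ∈ S.filter A, (Z i - 1) ^ 2 := sum_nonneg fun _ _ => sq_nonneg _
    calc _ ≤ a * ∑ i ∈ S.filter A, (Z i - 1) ^ 2 := hcs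
      _ ≤ s * (3 * ε * s) := mul_le_mul has hdevA h0 hs0
      _ = 3 * ε * s ^ 2 := by ring
      _ ≤ η ^ 2 / 4 * s ^ 2 := by gcongr; linarith
      _ = _ := by ring
  have h4 : -(η / 2 * s) ≤ ∑ i ∈ S.filter A, Z i - a := (abs_le_of_sq_le_sq' h3 (by positivity)).1
  linarith

open Classical in
/-- relations `r ∈ T` over the points `γ r` of `S`: first moment `≥ 1 - ε`, second moment
`≤ 1 + ε`, a set `A` of proportion `η` of the points such that every relation over a point of `A`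
has another vertex with the property `P`, and second moments at the other vertices: `P` has
positive density -/
theorem assemble2 {Γ R : Type*} (S : Finset Γ) (A G : Γ → Prop) (hAG : ∀ x, A x → G x)
    (T : Finset R) (γ : R → Γ)
    (hγ : ∀ r ∈ T, γ r ∈ S) (W : R → ℝ) (hW : ∀ r ∈ T, 0 ≤ W r)
    (m : Fin 4 → R → ℕ) (X : ℕ) (P : ℕ → Prop)
    (hrel : ∀ r ∈ T, W r ≠ 0 → A (γ r) → ∃ j : Fin 4, j ≠ 0 ∧ P (m j r))
    (hm : ∀ j : Fin 4, j ≠ 0 → ∀ r ∈ T, W r ≠ 0 → m j r ∈ Icc 1 X)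
    {C c N ε η : ℝ} (hN : 0 < N) (hC : 0 < C) (hc : 0 < c) (hη : 0 < η)
    (hcard : c * N ≤ S.card) (hεη : 12 * ε ≤ η ^ 2)
    (hA : η * S.card ≤ ((S.filter A).card : ℝ))
    (hfirst : (1 - ε) * (S.card : ℝ) ≤ ∑ r ∈ T, W r)
    (hsecond : ∑ x ∈ S, (∑ r ∈ T.filter (fun r => γ r = x), W r) ^ 2 ≤ (1 + ε) * S.card)
    (h2 : ∀ j : Fin 4, j ≠ 0 → ∑ n ∈ Icc 1 X,
      (∑ r ∈ T.filter (fun r => G (γ r) ∧ m j r = n), W r) ^ 2 ≤ C * N) :
    (η * c / 6) ^ 2 / C * N ≤ (((Icc 1 X).filter P).card : ℝ) := by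
  set Z : Γ → ℝ := fun x => ∑ r ∈ T.filter (fun r => γ r = x), W r with hZ
  -- sums over `T` as sums over `S`
  have htot : ∀ Q : Γ → Prop, ∑ r ∈ T.filter (fun r => Q (γ r)), W r =
      ∑ x ∈ S.filter Q, Z x := by
    intro Q
    have e1 : ∀ x ∈ S.filter Q, Z x =
        ∑ r ∈ (T.filter (fun r => Q (γ r))).filter (fun r => γ r = x), W r := by
      intro x hx
      rw [mem_filter] at hx
      rw [hZ, filter_filter]
      refine sum_congr (filter_congr fun r _ => ?_) fun _ _ => rfl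
      constructor
      · intro h
        exact ⟨by rw [h]; exact hx.2, h⟩
      · exact fun h => h.2
    rw [sum_congr rfl e1]
    symm
    refine sum_fiberwise_of_maps_to (fun r hr => ?_) _
    rw [mem_filter] at hr
    exact mem_filter.2 ⟨hγ r hr.1, hr.2⟩
  have htotal : ∑ r ∈ T, W r = ∑ x ∈ S, Z x := by
    have := htot (fun _ => True)
    simpa using this
  rw [htotal] at hfirst
  have hmass := mass_sub S Z A hη.le hεη hA hfirst hsecond
  rw [← htot A] at hmass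
  -- one of the vertices
  obtain ⟨T', hT'⟩ : ∃ T' : Finset R, T' = T.filter (fun r => A (γ r)) := ⟨_, rfl⟩
  rw [← hT'] at hmass
  have hT'A : ∀ r ∈ T', r ∈ T ∧ A (γ r) := fun r hr => by rwa [hT', mem_filter] at hr
  have hT'T : ∀ r ∈ T', r ∈ T := fun r hr => (hT'A r hr).1
  have hle : ∑ r ∈ T', W r ≤
      ∑ r ∈ T'.filter (fun r => P (m 1 r)), W r + ∑ r ∈ T'.filter (fun r => P (m 2 r)), W r +
        ∑ r ∈ T'.filter (fun r => P (m 3 r)), W r := by
    rw [sum_filter, sum_filter, sum_filter, ← sum_add_distrib, ← sum_add_distrib]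
    refine sum_le_sum fun r hr => ?_
    have hWr := hW r (hT'T r hr)
    by_cases h0 : W r = 0
    · simp [h0]
    obtain ⟨j, hj, hPj⟩ := hrel r (hT'T r hr) h0 (hT'A r hr).2
    fin_cases j
    · exact absurd rfl hj
    · have : P (m 1 r) := hPj
      rw [if_pos this]
      split_ifs <;> linarith
    · have : P (m 2 r) := hPj
      rw [if_pos this]
      split_ifs <;> linarith
    · have : P (m 3 r) := hPj
      rw [if_pos this]
      split_ifs <;> linarith
  have hmass' : η * c / 2 * N ≤ ∑ r ∈ T', W r := by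
    refine le_trans ?_ hmass
    calc η * c / 2 * N = η / 2 * (c * N) := by ring
      _ ≤ η / 2 * S.card := by gcongr
  have key : ∃ j : Fin 4, j ≠ 0 ∧ η * c / 6 * N ≤ ∑ r ∈ T'.filter (fun r => P (m j r)), W r := by
    by_contra hcon
    push Not at hcon
    have g1 := hcon 1 (by decide)
    have g2 := hcon 2 (by decide)
    have g3 := hcon 3 (by decide)
    linarith
  obtain ⟨j, hj, hj'⟩ := key
  refine card_ge_of_mass T' W (m j) X (fun r hr => hm j hj r (hT'T r hr)) P hN hC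
    (by positivity) ?_ hj'
  refine le_trans (sum_le_sum fun n _ => ?_) (h2 j hj)
  have h0 : 0 ≤ ∑ r ∈ T'.filter (fun r => m j r = n), W r :=
    sum_nonneg fun r hr => hW r (hT'T r (mem_filter.1 hr).1)
  refine pow_le_pow_left₀ h0 ?_ 2
  refine sum_le_sum_of_subset_of_nonneg ?_ fun r hr _ => hW r (mem_filter.1 hr).1
  intro r hr
  rw [mem_filter] at hr
  obtain ⟨a1, a2⟩ := hT'A r hr.1
  exact mem_filter.2 ⟨a1, hAG _ a2, hr.2⟩

end Pool.Agent.Lib.MP391708.T1
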