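import Pool.Agent.Lib.MP_391708_nt.T1.ESpecB

/-!
# Theorem T1, module E1S: the sum over `D` of a product of periodic functions
-/

set_option autoImplicit false

namespace Pool.Agent.Lib.MP391708.T1

open Finset
open scoped Classical

namespace E1S

open ECRT

/-- product over a set of primes, moduli `l ^ j l` -/
theorem crt_pow (S : Finset ℕ) (hS : ∀ l ∈ S, l.Prime) (j : ℕ → ℕ) (f : ℕ → ℕ → ℝ)
    (hf : ∀ l ∈ S, ∀ x, f l (x % l ^ j l) = f l x) :
    ∑ x ∈ range (∏ l ∈ S, l ^ j l), ∏ l ∈ S, f l x =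
      ∏ l ∈ S, ∑ x ∈ range (l ^ j l), f l x := by
  induction S using Finset.induction_on with
  | empty => simp
  | insert p Q hp ih =>
    have hpp : p.Prime := hS p (mem_insert_self _ _)
    have hQ' : ∀ l ∈ Q, l.Prime := fun l hl => hS l (mem_insert_of_mem hl)
    have hf' : ∀ l ∈ Q, ∀ x, f l (x % l ^ j l) = f l x :=
      fun l hl => hf l (mem_insert_of_mem hl)
    have hpos : 0 < ∏ l ∈ Q, l ^ j l := prod_pos fun l hl => pow_pos (hQ' l hl).pos _
    have hcop : Nat.Coprime (p ^ j p) (∏ l ∈ Q, l ^ j l) := by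
      refine Nat.Coprime.prod_right fun l hl => Nat.Coprime.pow _ _ ?_
      rw [Nat.coprime_primes hpp (hQ' l hl)]
      rintro rfl
      exact hp hl
    rw [prod_insert hp, prod_insert hp, ← ih hQ' hf']
    simp only [prod_insert hp]
    exact crt_mul hcop (pow_pos hpp.pos _) hpos (f p) (fun x => ∏ l ∈ Q, f l x)
      (hf p (mem_insert_self _ _)) (fun x => prod_congr rfl fun l hl =>
        mod_of_dvd (hf' l hl) (dvd_prod_of_mem (fun i => i ^ j i) hl) x)

/-- a periodic function over an initial segment -/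
theorem per_range {m : ℕ} (hm : 0 < m) (F : ℕ → ℝ) (hF : ∀ x, F (x % m) = F x) (L : ℕ) :
    |∑ x ∈ range L, F x - (L : ℝ) / m * ∑ x ∈ range m, F x| ≤ 2 * ∑ x ∈ range m, |F x| := by
  have hm' : (0 : ℝ) < m := by exact_mod_cast hm
  set s := L / m with hs
  set t := L % m with ht
  have htm : t < m := Nat.mod_lt _ hm
  have hL : L = m * s + t := (Nat.div_add_mod L m).symm
  have h1 : ∑ x ∈ range L, F x = s * ∑ x ∈ range m, F x + ∑ x ∈ range t, F x := by
    rw [hL, sum_range_add, per_sum F hF]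
    congr 1
    refine sum_congr rfl fun x _ => ?_
    rw [← hF (m * s + x), Nat.mul_add_mod, hF]
  have h2 : (L : ℝ) / m = s + t / m := by
    rw [hL]
    push_cast
    field_simp
  have h3 : |∑ x ∈ range t, F x| ≤ ∑ x ∈ range m, |F x| :=
    (abs_sum_le_sum_abs _ _).trans
      (sum_le_sum_of_subset_of_nonneg (range_mono htm.le) fun x _ _ => abs_nonneg _)
  have h4 : |(t : ℝ) / m * ∑ x ∈ range m, F x| ≤ ∑ x ∈ range m, |F x| := by
    rw [abs_mul, abs_of_nonneg (by positivity : (0 : ℝ) ≤ (t : ℝ) / m)]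
    have h5 : (t : ℝ) / m ≤ 1 := by
      rw [div_le_one hm']
      exact_mod_cast htm.le
    calc (t : ℝ) / m * |∑ x ∈ range m, F x| ≤ 1 * |∑ x ∈ range m, F x| :=
          mul_le_mul_of_nonneg_right h5 (abs_nonneg _)
      _ = |∑ x ∈ range m, F x| := one_mul _
      _ ≤ _ := abs_sum_le_sum_abs _ _
  rw [h1, h2]
  have h6 : (s : ℝ) * ∑ x ∈ range m, F x + ∑ x ∈ range t, F x -
      (s + t / m) * ∑ x ∈ range m, F x =
      ∑ x ∈ range t, F x - (t : ℝ) / m * ∑ x ∈ range m, F x := by ring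
  rw [h6]
  calc _ ≤ |∑ x ∈ range t, F x| + |(t : ℝ) / m * ∑ x ∈ range m, F x| := abs_sub _ _
    _ ≤ _ := by linarith

theorem per_Ioc {m : ℕ} (hm : 0 < m) (F : ℕ → ℝ) (hF : ∀ x, F (x % m) = F x) {A₁ A₂ : ℕ}
    (hA : A₁ ≤ A₂) :
    |∑ x ∈ Ioc A₁ A₂, F x - ((A₂ : ℝ) - A₁) / m * ∑ x ∈ range m, F x| ≤
      4 * ∑ x ∈ range m, |F x| := by
  have h0 : Ioc A₁ A₂ = Ico (A₁ + 1) (A₂ + 1) := by
    ext x
    simp only [mem_Ioc, mem_Ico]
    omega
  rw [h0, sum_Ico_eq_sub _ (by omega : A₁ + 1 ≤ A₂ + 1)]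
  have h1 := per_range hm F hF (A₂ + 1)
  have h2 := per_range hm F hF (A₁ + 1)
  have h3 : ∑ x ∈ range (A₂ + 1), F x - ∑ x ∈ range (A₁ + 1), F x -
      ((A₂ : ℝ) - A₁) / m * ∑ x ∈ range m, F x =
      (∑ x ∈ range (A₂ + 1), F x - ((A₂ + 1 : ℕ) : ℝ) / m * ∑ x ∈ range m, F x) -
      (∑ x ∈ range (A₁ + 1), F x - ((A₁ + 1 : ℕ) : ℝ) / m * ∑ x ∈ range m, F x) := by
    push_cast
    ring
  rw [h3]
  refine (abs_sub _ _).trans ?_
  linarith

theorem coprime_iff {D G : ℕ} (hG : 0 < G) : D.Coprime G ↔ ∀ l ∈ G.primeFactors, ¬ l ∣ D := by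
  constructor
  · intro h l hl hD
    have hp := Nat.prime_of_mem_primeFactors hl
    exact (Nat.Prime.not_coprime_iff_dvd.2 ⟨l, hp, hD, Nat.dvd_of_mem_primeFactors hl⟩) h
  · intro h
    by_contra hc
    obtain ⟨l, hp, hD, hG'⟩ := Nat.Prime.not_coprime_iff_dvd.1 hc
    exact h l (Nat.mem_primeFactors.2 ⟨hp, hG', hG.ne'⟩) hD

theorem two_pow_le {G : ℕ} (hG : 0 < G) {T : Finset ℕ} (hT : T ⊆ G.primeFactors) :
    2 ^ T.card ≤ G.divisors.card := by
  rw [Nat.card_divisors hG.ne']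
  calc 2 ^ T.card ≤ 2 ^ G.primeFactors.card := Nat.pow_le_pow_right (by norm_num) (card_le_card hT)
    _ = ∏ _x ∈ G.primeFactors, 2 := by rw [prod_const]
    _ ≤ ∏ x ∈ G.primeFactors, (G.factorization x + 1) := by
        refine prod_le_prod' fun x hx => ?_
        have := (Nat.prime_of_mem_primeFactors hx).factorization_pos_of_dvd hG.ne'
          (Nat.dvd_of_mem_primeFactors hx)
        omega

/-- indicator of the multiples -/
noncomputable def ind (d x : ℕ) : ℝ := if d ∣ x then 1 else 0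

theorem ind_mod {d m : ℕ} (h : d ∣ m) (x : ℕ) : ind d (x % m) = ind d x := by
  unfold ind
  have : d ∣ x % m ↔ d ∣ x := by
    rw [Nat.dvd_mod_iff h]
  simp only [this]

theorem ind_sum {d : ℕ} (hd : 0 < d) : ∑ x ∈ range d, ind d x = 1 := by
  unfold ind
  rw [sum_eq_single 0]
  · simp
  · intro x hx hx0
    rw [if_neg]
    intro h
    exact hx0 (Nat.eq_zero_of_dvd_of_lt h (mem_range.1 hx))
  · intro h
    exact absurd (mem_range.2 hd) h

/-- indicator of a class -/
noncomputable def indc (n ρ x : ℕ) : ℝ := if x ≡ ρ [MOD n] then 1 else 0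

theorem indc_mod (n ρ x : ℕ) : indc n ρ (x % n) = indc n ρ x := by
  unfold indc
  have : x % n ≡ ρ [MOD n] ↔ x ≡ ρ [MOD n] := by
    unfold Nat.ModEq
    rw [Nat.mod_mod]
  simp only [this]

theorem indc_sum {n : ℕ} (hn : 0 < n) (ρ : ℕ) : ∑ x ∈ range n, indc n ρ x = 1 := by
  unfold indc
  rw [sum_eq_single (ρ % n)]
  · rw [if_pos]
    exact Nat.mod_modEq _ _
  · intro x hx hx0
    rw [if_neg]
    intro h
    apply hx0
    have h1 : x % n = ρ % n := h
    rw [Nat.mod_eq_of_lt (mem_range.1 hx)] at h1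
    exact h1
  · intro h
    exact absurd (mem_range.2 (Nat.mod_lt _ hn)) h

end E1S

open E1S ECRT in
theorem specE1S : SpecE1S := by
  intro W n ρ G A₁ A₂ S j B hW hn hG hWn hWG hnG hA hS
  set T := G.primeFactors \ S with hT
  set q := ∏ l ∈ S, l ^ j l with hq
  have hSp : ∀ l ∈ S, l.Prime := fun l hl => (hS l hl).1
  have hTp : ∀ l ∈ T, l.Prime := fun l hl =>
    Nat.prime_of_mem_primeFactors (mem_sdiff.1 hl).1
  have hqpos : 0 < q := prod_pos fun l hl => pow_pos (hSp l hl).pos _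
  set B' : ℕ → ℕ → ℝ := fun l x => if l ∣ G ∧ l ∣ x then 0 else B l x with hB'
  have hB'0 : ∀ l ∈ S, ∀ x, 0 ≤ B' l x := by
    intro l hl x
    simp only [hB']
    split_ifs
    · exact le_rfl
    · exact ((hS l hl).2.2.2.1 x).1
  have hB'1 : ∀ l ∈ S, ∀ x, B' l x ≤ 1 := by
    intro l hl x
    simp only [hB']
    split_ifs
    · exact zero_le_one
    · exact ((hS l hl).2.2.2.1 x).2
  have hB'p : ∀ l ∈ S, ∀ x, B' l (x % l ^ j l) = B' l x := by
    intro l hl x
    have h1 : l ∣ x % l ^ j l ↔ l ∣ x :=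
      Nat.dvd_mod_iff (dvd_pow_self l (by have := (hS l hl).2.2.1; omega))
    simp only [hB', h1, (hS l hl).2.2.2.2]
  -- the functions
  set F : Finset ℕ → ℕ → ℝ := fun U x =>
    ((ind W x * indc n ρ x) * ∏ l ∈ U, -(ind l x)) * ∏ l ∈ S, B' l x with hF
  set β := ∏ l ∈ S, ∑ x ∈ range (l ^ j l), B' l x with hβ
  have hβ0 : 0 ≤ β := prod_nonneg fun l hl => sum_nonneg fun x _ => hB'0 l hl x
  have hβq : β ≤ q := by
    rw [hβ, hq]
    push_cast
    refine prod_le_prod (fun l hl => sum_nonneg fun x _ => hB'0 l hl x) fun l hl => ?_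
    calc ∑ x ∈ range (l ^ j l), B' l x ≤ ∑ _x ∈ range (l ^ j l), (1 : ℝ) :=
          sum_le_sum fun x _ => hB'1 l hl x
      _ = _ := by simp
  -- coprimality
  have hcWn : Nat.Coprime W n := hWn
  have hcU : ∀ U ⊆ T, Nat.Coprime (W * n) (∏ l ∈ U, l) := by
    intro U hU
    refine Nat.Coprime.prod_right fun l hl => ?_
    have hlG : l ∣ G := Nat.dvd_of_mem_primeFactors (mem_sdiff.1 (hU hl)).1
    exact Nat.Coprime.mul_left (hWG.coprime_dvd_right hlG) (hnG.coprime_dvd_right hlG)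
  have hcq : ∀ U ⊆ T, Nat.Coprime (W * n * ∏ l ∈ U, l) q := by
    intro U hU
    refine Nat.Coprime.prod_right fun l hl => Nat.Coprime.pow_right _ ?_
    refine Nat.Coprime.mul_left ?_ ?_
    · rw [Nat.coprime_comm, Nat.Prime.coprime_iff_not_dvd (hSp l hl)]
      exact (hS l hl).2.1
    · refine Nat.Coprime.prod_left fun l' hl' => ?_
      rw [Nat.coprime_primes (hTp l' (hU hl')) (hSp l hl)]
      rintro rfl
      exact (mem_sdiff.1 (hU hl')).2 hl
  have hUpos : ∀ U ⊆ T, 0 < ∏ l ∈ U, l := fun U hU => prod_pos fun l hl => (hTp l (hU hl)).pos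
  have hperS : ∀ (f : ℕ → ℕ → ℝ), (∀ l ∈ S, ∀ x, f l (x % l ^ j l) = f l x) →
      ∀ x, (∏ l ∈ S, f l (x % q)) = ∏ l ∈ S, f l x := fun f hf x =>
    prod_congr rfl fun l hl => mod_of_dvd (hf l hl) (dvd_prod_of_mem (fun i => i ^ j i) hl) x
  -- sums over a period of products of this shape
  have hsum : ∀ U ⊆ T, ∀ g : ℕ → ℕ → ℝ, (∀ l ∈ U, ∀ x, g l (x % l) = g l x) →
      ∑ x ∈ range (W * n * (∏ l ∈ U, l) * q),
        ((ind W x * indc n ρ x) * ∏ l ∈ U, g l x) * ∏ l ∈ S, B' l x =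
        (∏ l ∈ U, ∑ x ∈ range l, g l x) * β := by
    intro U hU g hg
    have hUp : ∀ x, (∏ l ∈ U, g l (x % ∏ l ∈ U, l)) = ∏ l ∈ U, g l x := fun x =>
      prod_congr rfl fun l hl => mod_of_dvd (hg l hl) (dvd_prod_of_mem (fun i => i) hl) x
    have hWnp : ∀ x, ind W (x % (W * n)) * indc n ρ (x % (W * n)) = ind W x * indc n ρ x := by
      intro x
      rw [ind_mod (dvd_mul_right _ _), mod_of_dvd (f := indc n ρ) (indc_mod n ρ)
        (dvd_mul_left _ _)]
    rw [crt_mul (hcq U hU) (Nat.mul_pos (Nat.mul_pos hW hn) (hUpos U hU)) hqpos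
      (fun x => (ind W x * indc n ρ x) * ∏ l ∈ U, g l x) (fun x => ∏ l ∈ S, B' l x)
      (fun x => ?_) (hperS B' hB'p), crt_mul (hcU U hU) (Nat.mul_pos hW hn) (hUpos U hU)
      (fun x => ind W x * indc n ρ x) (fun x => ∏ l ∈ U, g l x) hWnp hUp,
      crt_mul hcWn hW hn (ind W) (indc n ρ) (ind_mod dvd_rfl) (indc_mod n ρ), ind_sum hW,
      indc_sum hn, crt_prod U (fun l hl => hTp l (hU hl)) g hg,
      crt_pow S hSp j B' hB'p, one_mul, one_mul]
    · -- periodicity modulo `W n ∏ l`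
      have e1 : ind W (x % (W * n * ∏ l ∈ U, l)) * indc n ρ (x % (W * n * ∏ l ∈ U, l)) =
          ind W x * indc n ρ x := by
        rw [ind_mod ((dvd_mul_right _ _).trans (dvd_mul_right _ _)),
          mod_of_dvd (f := indc n ρ) (indc_mod n ρ)
            ((dvd_mul_left _ _).trans (dvd_mul_right _ _))]
      have e2 : (∏ l ∈ U, g l (x % (W * n * ∏ l ∈ U, l))) = ∏ l ∈ U, g l x :=
        prod_congr rfl fun l hl => mod_of_dvd (hg l hl)
          ((dvd_prod_of_mem (fun i => i) hl).trans (dvd_mul_left _ _)) x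
      rw [e1, e2]
  -- one subset
  have hone : ∀ U ⊆ T, |∑ D ∈ Ioc A₁ A₂, F U D -
      ((A₂ : ℝ) - A₁) / (W * n) * (∏ l ∈ U, -(1 / (l : ℝ))) * (β / q)| ≤ 4 * q := by
    intro U hU
    have hm : 0 < W * n * (∏ l ∈ U, l) * q :=
      Nat.mul_pos (Nat.mul_pos (Nat.mul_pos hW hn) (hUpos U hU)) hqpos
    have hper : ∀ x, F U (x % (W * n * (∏ l ∈ U, l) * q)) = F U x := by
      intro x
      simp only [hF]
      rw [ind_mod ((dvd_mul_right _ _).trans ((dvd_mul_right _ _).trans (dvd_mul_right _ _))),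
        mod_of_dvd (f := indc n ρ) (indc_mod n ρ)
          ((dvd_mul_left _ _).trans ((dvd_mul_right _ _).trans (dvd_mul_right _ _)))]
      congr 1
      · congr 1
        refine prod_congr rfl fun l hl => ?_
        rw [ind_mod ((dvd_prod_of_mem (fun i => i) hl).trans
          ((dvd_mul_left _ _).trans (dvd_mul_right _ _)))]
      · exact prod_congr rfl fun l hl => mod_of_dvd (hB'p l hl)
          ((dvd_prod_of_mem (fun i => i ^ j i) hl).trans (dvd_mul_left _ _)) x
    have h1 := per_Ioc hm (F U) hper hA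
    have h2 : ∑ x ∈ range (W * n * (∏ l ∈ U, l) * q), F U x = (∏ l ∈ U, (-1 : ℝ)) * β := by
      simp only [hF]
      rw [hsum U hU (fun l x => -(ind l x)) (fun l _ x => by rw [ind_mod dvd_rfl])]
      congr 1
      refine prod_congr rfl fun l hl => ?_
      rw [sum_neg_distrib, ind_sum (hTp l (hU hl)).pos]
    have h3 : ∑ x ∈ range (W * n * (∏ l ∈ U, l) * q), |F U x| = β := by
      have h4 : ∀ x, |F U x| = ((ind W x * indc n ρ x) * ∏ l ∈ U, ind l x) * ∏ l ∈ S, B' l x := by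
        intro x
        have hi : ∀ d x : ℕ, 0 ≤ ind d x := fun d x => by unfold ind; split_ifs <;> norm_num
        have hc : ∀ x : ℕ, 0 ≤ indc n ρ x := fun x => by unfold indc; split_ifs <;> norm_num
        simp only [hF]
        rw [abs_mul, abs_mul, abs_mul, abs_of_nonneg (hi W x), abs_of_nonneg (hc x),
          Finset.abs_prod, Finset.abs_prod]
        congr 1
        · congr 1
          exact prod_congr rfl fun l _ => by rw [abs_neg, abs_of_nonneg (hi l x)]
        · exact prod_congr rfl fun l hl => abs_of_nonneg (hB'0 l hl x)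
      simp only [h4]
      rw [hsum U hU (fun l x => ind l x) (fun l _ x => by rw [ind_mod dvd_rfl])]
      rw [prod_congr rfl fun l hl => ind_sum (hTp l (hU hl)).pos, prod_const_one, one_mul]
    rw [h2, h3] at h1
    have hW' : (W : ℝ) ≠ 0 := by exact_mod_cast hW.ne'
    have hn' : (n : ℝ) ≠ 0 := by exact_mod_cast hn.ne'
    have hq' : (q : ℝ) ≠ 0 := by exact_mod_cast hqpos.ne'
    have hU' : (∏ l ∈ U, (l : ℝ)) ≠ 0 := prod_ne_zero_iff.2 fun l hl => by
      exact_mod_cast (hTp l (hU hl)).ne_zero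
    have h5 : ((A₂ : ℝ) - A₁) / ((W * n * (∏ l ∈ U, l) * q : ℕ) : ℝ) * ((∏ l ∈ U, (-1 : ℝ)) * β) =
        ((A₂ : ℝ) - A₁) / (W * n) * (∏ l ∈ U, -(1 / (l : ℝ))) * (β / q) := by
      have h6 : (∏ l ∈ U, -(1 / (l : ℝ))) = (∏ l ∈ U, (-1 : ℝ)) / ∏ l ∈ U, (l : ℝ) := by
        rw [← prod_div_distrib]
        exact prod_congr rfl fun l _ => by ring
      rw [h6]
      push_cast
      field_simp
    rw [h5] at h1
    calc _ ≤ 4 * β := h1
      _ ≤ 4 * q := by linarith
  -- the identity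
  have hid : ∑ D ∈ SDD W n ρ G A₁ A₂, ∏ l ∈ S, B l D =
      ∑ U ∈ T.powerset, ∑ D ∈ Ioc A₁ A₂, F U D := by
    unfold SDD
    rw [sum_filter, sum_comm]
    refine sum_congr rfl fun D _ => ?_
    simp only [hF]
    rw [← sum_mul, ← mul_sum]
    have h1 : ∑ U ∈ T.powerset, ∏ l ∈ U, -(ind l D) = ∏ l ∈ T, (1 - ind l D) := by
      have h2 := prod_add (fun l => -(ind l D)) (fun _ : ℕ => (1 : ℝ)) T
      simp only [prod_const_one, mul_one] at h2
      rw [← h2]
      exact prod_congr rfl fun l _ => by ring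
    rw [h1]
    by_cases hWD : W ∣ D
    · by_cases hnD : D ≡ ρ [MOD n]
      · have e1 : ind W D = 1 := if_pos hWD
        have e2 : indc n ρ D = 1 := if_pos hnD
        rw [e1, e2, one_mul, one_mul]
        by_cases hc : D.Coprime G
        · rw [if_pos ⟨hWD, hnD, hc⟩]
          rw [coprime_iff hG] at hc
          have e3 : ∏ l ∈ T, (1 - ind l D) = 1 := prod_eq_one fun l hl => by
            have : ¬ l ∣ D := hc l (mem_sdiff.1 hl).1
            unfold ind
            rw [if_neg this, sub_zero]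
          rw [e3, one_mul]
          refine prod_congr rfl fun l hl => ?_
          simp only [hB']
          rw [if_neg]
          rintro ⟨h3, h4⟩
          exact hc l (Nat.mem_primeFactors.2 ⟨hSp l hl, h3, hG.ne'⟩) h4
        · rw [if_neg fun h => hc h.2.2]
          rw [coprime_iff hG] at hc
          push Not at hc
          obtain ⟨l, hl, hlD⟩ := hc
          by_cases hlS : l ∈ S
          · have e4 : ∏ l ∈ S, B' l D = 0 := prod_eq_zero hlS (by
              simp only [hB']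
              rw [if_pos ⟨Nat.dvd_of_mem_primeFactors hl, hlD⟩])
            rw [e4, mul_zero]
          · have e4 : ∏ l ∈ T, (1 - ind l D) = 0 :=
              prod_eq_zero (mem_sdiff.2 ⟨hl, hlS⟩) (by unfold ind; rw [if_pos hlD, sub_self])
            rw [e4, zero_mul]
      · have e2 : indc n ρ D = 0 := if_neg hnD
        rw [if_neg fun h => hnD h.2.1, e2, mul_zero, zero_mul, zero_mul]
    · have e1 : ind W D = 0 := if_neg hWD
      rw [if_neg fun h => hWD h.1, e1, zero_mul, zero_mul, zero_mul]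
  -- the main term
  have hmain : ((A₂ : ℝ) - A₁) / (W * n) * (∏ l ∈ G.primeFactors, (1 - 1 / (l : ℝ))) *
        ∏ l ∈ S, Dm l (j l) G (B l) =
      ∑ U ∈ T.powerset, ((A₂ : ℝ) - A₁) / (W * n) * (∏ l ∈ U, -(1 / (l : ℝ))) * (β / q) := by
    rw [← sum_mul, ← mul_sum]
    have h1 : ∑ U ∈ T.powerset, ∏ l ∈ U, -(1 / (l : ℝ)) = ∏ l ∈ T, (1 - 1 / (l : ℝ)) := by
      have h2 := prod_add (fun l : ℕ => -(1 / (l : ℝ))) (fun _ : ℕ => (1 : ℝ)) T
      simp only [prod_const_one, mul_one] at h2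
      rw [← h2]
      exact prod_congr rfl fun l _ => by ring
    have h2 : β / q = (∏ l ∈ S, Dm l (j l) G (B l)) * ∏ l ∈ G.primeFactors ∩ S, (1 - 1 / (l : ℝ)) := by
      have h3 : ∏ l ∈ G.primeFactors ∩ S, (1 - 1 / (l : ℝ)) =
          ∏ l ∈ S, if l ∣ G then 1 - 1 / (l : ℝ) else 1 := by
        rw [← prod_filter]
        refine prod_congr ?_ fun _ _ => rfl
        ext l
        simp only [mem_inter, mem_filter, Nat.mem_primeFactors]
        constructor
        · rintro ⟨⟨_, h4, _⟩, h5⟩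
          exact ⟨h5, h4⟩
        · rintro ⟨h5, h4⟩
          exact ⟨⟨hSp l h5, h4, hG.ne'⟩, h5⟩
      rw [h3, ← prod_mul_distrib, hβ, hq]
      push_cast
      rw [← prod_div_distrib]
      refine prod_congr rfl fun l hl => ?_
      have hl0 : (l : ℝ) ≠ 0 := by exact_mod_cast (hSp l hl).ne_zero
      have hl1 : (1 : ℝ) - 1 / l ≠ 0 := by
        have h4 : (2 : ℝ) ≤ l := by exact_mod_cast (hSp l hl).two_le
        have h5 : (1 : ℝ) / l ≤ 1 / 2 := one_div_le_one_div_of_le (by norm_num) h4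
        linarith
      unfold Dm
      by_cases hlG : l ∣ G
      · rw [if_pos hlG, if_pos hlG]
        have h4 : ∑ x ∈ range (l ^ j l), B' l x =
            ∑ d ∈ (range (l ^ j l)).filter (fun d => ¬ l ∣ d), B l d := by
          rw [sum_filter]
          refine sum_congr rfl fun x _ => ?_
          simp only [hB']
          by_cases hx : l ∣ x
          · rw [if_pos ⟨hlG, hx⟩, if_neg (fun h => h hx)]
          · rw [if_neg (fun h => hx h.2), if_pos hx]
        have hl2 : (l : ℝ) - 1 ≠ 0 := by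
          have h4 : (2 : ℝ) ≤ l := by exact_mod_cast (hSp l hl).two_le
          linarith
        rw [h4]
        field_simp
      · rw [if_neg hlG, if_neg hlG, mul_one]
        congr 1
        refine sum_congr rfl fun x _ => ?_
        simp only [hB']
        rw [if_neg fun h => hlG h.1]
    have h3 : (∏ l ∈ G.primeFactors, (1 - 1 / (l : ℝ))) =
        (∏ l ∈ T, (1 - 1 / (l : ℝ))) * ∏ l ∈ G.primeFactors ∩ S, (1 - 1 / (l : ℝ)) := by
      rw [hT]
      rw [← prod_union]
      · rw [sdiff_union_inter]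
      · rw [disjoint_left]
        intro l h4 h5
        exact (mem_sdiff.1 h4).2 (mem_inter.1 h5).2
    rw [h1, h2, h3]
    ring
  rw [hid, hmain, ← sum_sub_distrib]
  calc _ ≤ ∑ U ∈ T.powerset, |∑ D ∈ Ioc A₁ A₂, F U D -
      ((A₂ : ℝ) - A₁) / (W * n) * (∏ l ∈ U, -(1 / (l : ℝ))) * (β / q)| := abs_sum_le_sum_abs _ _
    _ ≤ ∑ _U ∈ T.powerset, 4 * (q : ℝ) := sum_le_sum fun U hU => hone U (mem_powerset.1 hU)
    _ = 2 ^ T.card * (4 * (q : ℝ)) := by
        rw [sum_const, card_powerset, nsmul_eq_mul]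
        push_cast
        ring
    _ ≤ (G.divisors.card : ℝ) * (4 * (q : ℝ)) := by
        refine mul_le_mul_of_nonneg_right ?_ (by positivity)
        exact_mod_cast two_pow_le hG (sdiff_subset : T ⊆ G.primeFactors)
    _ = 4 * (G.divisors.card : ℝ) * (q : ℝ) := by ring

end Pool.Agent.Lib.MP391708.T1
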