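import Pool.Agent.Lib.MP_391708_nt.T1.ESpecB

/-!
# Theorem T1, module E2G: the sieve on top of E1
-/

set_option autoImplicit false

namespace Pool.Agent.Lib.MP391708.T1

open Finset
open scoped Classical

noncomputable section

namespace E2GM

lemma ch_le (l : ℕ) : ch l ≤ 1 := by
  unfold ch
  split_ifs <;> norm_num

lemma rp_pos' (D : ℕ) : 0 < rp D := by
  unfold rp
  refine Finset.prod_pos fun l hl => ?_
  have h2 : (2 : ℝ) ≤ l := by exact_mod_cast (Nat.prime_of_mem_primeFactors hl).two_le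
  have : ch l / l < 1 := by
    rw [div_lt_one (by linarith)]
    have := ch_le l
    linarith
  linarith

lemma main_nonneg {t : EE} (ht : t.Ok) : 0 ≤ t.main := by
  obtain ⟨h1, h2, h3, h4, h5, h6, h7, h8, h9, h10, h11, h12, h13, h14, h15, h16⟩ := ht
  unfold EE.main
  have hA : (0 : ℝ) ≤ (t.A₂ : ℝ) - t.A₁ := by
    rw [sub_nonneg]; exact_mod_cast h14
  refine mul_nonneg (div_nonneg (mul_nonneg (mul_nonneg ?_ hA) h15) (by positivity)) ?_
  · positivity
  · refine Finset.prod_nonneg fun l hl => ?_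
    have h2 : (1 : ℝ) ≤ l := by exact_mod_cast (Nat.prime_of_mem_primeFactors hl).one_le
    rw [sub_nonneg, div_le_one (by linarith)]
    exact h2

lemma err_nonneg {t : EE} (ht : t.Ok) : 0 ≤ t.err := by
  obtain ⟨h1, h2, h3, h4, h5, h6, h7, h8, h9, h10, h11, h12, h13, h14, h15, h16⟩ := ht
  unfold EE.err
  positivity

/-- the sum as a sum over pairs -/
def idx (t : EE) : Finset ((_ : ℕ) × (ℤ × ℤ)) := t.SD.sigma t.SK

/-- `D₂` -/
def e2 (t : EE) (i : (_ : ℕ) × (ℤ × ℤ)) : ℤ := (t.b * nk i.2 - t.G) / ((i.1 : ℕ) : ℤ)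

lemma S_eq (t : EE) (F : ℤ → ℤ → ℝ) :
    t.S F = ∑ i ∈ idx t, (1 / rp i.1) * F ((i.1 : ℕ) : ℤ) (e2 t i) := by
  unfold EE.S idx
  rw [Finset.sum_sigma]
  refine sum_congr rfl fun D _ => ?_
  rw [mul_sum]
  rfl

end E2GM

open E2GM in
theorem specE2g (h1 : SpecE1g) (hl : SpecLMJ) : SpecE2g := by
  intro κ
  obtain ⟨Cf, hCf, hf⟩ := flw κ
  refine ⟨Cf, hCf, ?_⟩
  intro η a hη
  obtain ⟨C1, hC1, h1'⟩ := h1 η hη
  refine ⟨Cf * C1, mul_pos hCf hC1, ?_⟩
  intro t N z S P j ψ ht hz hN hLe hS hP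
  have hz1 : (1 : ℝ) ≤ z := by linarith
  set Δ : ℝ := z ^ (8 * a + 16) with hΔ
  have hΔ1 : 1 ≤ Δ := one_le_pow₀ hz1
  set QS : ℝ := ((∏ l ∈ S, l ^ j l : ℕ) : ℝ) with hQS
  have hQS1 : 1 ≤ QS := by
    rw [hQS]
    have : 0 < ∏ l ∈ S, l ^ j l := Finset.prod_pos fun l hl => pow_pos (hS l hl).1.pos _
    exact_mod_cast this
  have hN1 : 1 ≤ N := by
    refine le_trans ?_ hN
    exact one_le_mul_of_one_le_of_one_le hΔ1 hQS1
  have hbn : ∀ l : ℕ, l.Prime → ¬ l ∣ t.W * t.n → ¬ l ∣ t.b := by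
    intro l hlp hn hb
    obtain ⟨-, -, -, -, -, -, -, h8, -⟩ := ht
    exact hn (dvd_mul_of_dvd_right (h8 l hlp (dvd_mul_of_dvd_left hb _)) _)
  -- the local means
  have hlm : ∀ (l i : ℕ) (φ : ℤ → ℤ → ℝ), l.Prime → 1 ≤ i → ¬ l ∣ t.W * t.n →
      (∀ d e, 0 ≤ φ d e ∧ φ d e ≤ 1) → 0 ≤ lmj l i t.b t.G φ ∧ lmj l i t.b t.G φ ≤ 1 := by
    intro l i φ hlp hi hn hφ
    obtain ⟨c1, -, -, c4, -⟩ := hl l i t.b t.G hlp hi (hbn l hlp hn)
    constructor
    · have := c4 (fun _ _ => 0) φ (fun d e => (hφ d e).1)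
      rwa [c1] at this
    · have := c4 φ (fun _ _ => 1) (fun d e => (hφ d e).2)
      rwa [c1] at this
  have hlm1 : ∀ (l : ℕ) (φ : ℤ → ℤ → ℝ), l.Prime → ¬ l ∣ t.W * t.n →
      lmj l 1 t.b t.G φ = lm l t.b t.G φ := by
    intro l φ hlp hn
    exact (hl l 1 t.b t.G hlp le_rfl (hbn l hlp hn)).2.2.2.2.2.1 φ
  have hsub : ∀ (l : ℕ) (φ : ℤ → ℤ → ℝ), l.Prime → ¬ l ∣ t.W * t.n →
      lmj l 1 t.b t.G (fun d e => 1 - φ d e) = 1 - lm l t.b t.G φ := by
    intro l φ hlp hn
    obtain ⟨c1, c2, -⟩ := hl l 1 t.b t.G hlp le_rfl (hbn l hlp hn)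
    have h3 := c2 φ (fun d e => 1 - φ d e)
    have h4 : lmj l 1 t.b t.G (fun d e => φ d e + (1 - φ d e)) = 1 := by
      have : (fun d e : ℤ => φ d e + (1 - φ d e)) = fun _ _ => (1 : ℝ) := by
        funext d e; ring
      rw [this]
      exact c1 1
    rw [hlm1 l φ hlp hn] at h3
    linarith
  set X : ℝ := t.main * ∏ l ∈ S, lmj l (j l) t.b t.G (ψ l) with hX
  have hX0 : 0 ≤ X := by
    refine mul_nonneg (main_nonneg ht) (Finset.prod_nonneg fun l hl' => ?_)
    obtain ⟨p1, p2, p3, p4⟩ := hS l hl'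
    exact (hlm l (j l) (ψ l) p1 p3 p2 p4.1).1
  set om : ((_ : ℕ) × (ℤ × ℤ)) → ℝ := fun i =>
    (1 / rp i.1) * ∏ l ∈ S, ψ l ((i.1 : ℕ) : ℤ) (e2 t i) with hom
  set av : ℕ → ((_ : ℕ) × (ℤ × ℤ)) → ℝ := fun p i =>
    if p ∈ P then 1 - ψ p ((i.1 : ℕ) : ℤ) (e2 t i) else 0 with hav
  set g : ℕ → ℝ := fun p => if p ∈ P then 1 - lm p t.b t.G (ψ p) else 0 with hg
  have key := hf a z hz (idx t) om av X g hX0 ?_ ?_ ?_
  · have hPB : P ⊆ QPA.PB z := by
      intro p hp
      rw [QPA.FL.mem_PB]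
      exact ⟨(hP p hp).1, (hP p hp).2.1⟩
    have e1 : ∀ i, ∏ p ∈ QPA.PB z, (1 - av p i) = ∏ p ∈ P, ψ p ((i.1 : ℕ) : ℤ) (e2 t i) := by
      intro i
      rw [← Finset.prod_subset hPB]
      · refine Finset.prod_congr rfl fun p hp => ?_
        rw [hav]
        simp only [if_pos hp]
        ring
      · intro p _ hp
        rw [hav]
        simp only [if_neg hp]
        ring
    have e2' : ∏ p ∈ QPA.PB z, (1 - g p) = ∏ p ∈ P, lm p t.b t.G (ψ p) := by
      rw [← Finset.prod_subset hPB]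
      · refine Finset.prod_congr rfl fun p hp => ?_
        rw [hg]
        simp only [if_pos hp]
        ring
      · intro p _ hp
        rw [hg]
        simp only [if_neg hp]
        ring
    have e3 : ∑ i ∈ idx t, om i * ∏ p ∈ QPA.PB z, (1 - av p i) =
        t.S (fun D D₂ => (∏ l ∈ S, ψ l D D₂) * ∏ l ∈ P, ψ l D D₂) := by
      rw [S_eq]
      refine sum_congr rfl fun i _ => ?_
      rw [e1 i, hom]
      ring
    rw [e3, e2'] at key
    refine le_trans key ?_
    have hmain : Cf * Real.exp (-(a : ℝ)) * X * ∏ p ∈ P, lm p t.b t.G (ψ p) =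
        Cf * Real.exp (-(a : ℝ)) * (t.main * (∏ l ∈ S, lmj l (j l) t.b t.G (ψ l)) *
          ∏ l ∈ P, lm l t.b t.G (ψ l)) := by
      rw [hX]; ring
    rw [hmain]
    refine add_le_add le_rfl ?_
    -- the remainder
    have hlog : 1 + Real.log z ≤ z := by
      have := Real.log_le_sub_one_of_pos (show (0 : ℝ) < z by linarith)
      linarith
    have herr := err_nonneg ht
    set B : ℝ := C1 * N ^ η * QS ^ 2 * t.err with hB
    have hB0 : 0 ≤ B := by
      have : (0 : ℝ) < N ^ η := Real.rpow_pos_of_pos (by linarith) _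
      positivity
    have hterm : ∀ δ ∈ (Icc 1 ⌊z ^ (8 * a + 16)⌋₊).filter
        (fun δ => Squarefree δ ∧ ∀ p : ℕ, p.Prime → p ∣ δ → (p : ℝ) < z),
        |(∑ i ∈ idx t, om i * ∏ p ∈ δ.primeFactors, av p i) - X * ∏ p ∈ δ.primeFactors, g p|
          ≤ B * Δ ^ 2 := by
      intro δ hδ
      rw [mem_filter, mem_Icc] at hδ
      obtain ⟨⟨hδ1, hδ2⟩, hδs, -⟩ := hδ
      have hδΔ : (δ : ℝ) ≤ Δ := le_trans (Nat.cast_le.2 hδ2) (Nat.floor_le (by positivity))
      by_cases hsubP : δ.primeFactors ⊆ P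
      · -- apply E1
        set S' := S ∪ δ.primeFactors with hS'
        set j' : ℕ → ℕ := fun l => if l ∈ S then j l else 1 with hj'
        set ψ' : ℕ → ℤ → ℤ → ℝ := fun l => if l ∈ S then ψ l else fun d e => 1 - ψ l d e with hψ'
        have hdis : Disjoint S δ.primeFactors := by
          rw [Finset.disjoint_left]
          intro l hl1 hl2
          exact (hP l (hsubP hl2)).2.2.2.1 hl1
        have hnS : ∀ l ∈ δ.primeFactors, l ∉ S := fun l hl' h => Finset.disjoint_left.1 hdis h hl'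
        have hprodN : ∏ l ∈ S', l ^ j' l = (∏ l ∈ S, l ^ j l) * δ := by
          rw [hS', Finset.prod_union hdis]
          congr 1
          · refine Finset.prod_congr rfl fun l hl' => ?_
            rw [hj']; simp only [if_pos hl']
          · refine Eq.trans ?_ (Nat.prod_primeFactors_of_squarefree hδs)
            refine Finset.prod_congr rfl fun l hl' => ?_
            rw [hj']; simp only [if_neg (hnS l hl'), pow_one]
        have hcond : ∀ l ∈ S', l.Prime ∧ ¬ l ∣ t.W * t.n ∧ 1 ≤ j' l ∧ Locm (l ^ j' l) (ψ' l) := by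
          intro l hl'
          rw [hS', mem_union] at hl'
          by_cases hlS : l ∈ S
          · obtain ⟨p1, p2, p3, p4⟩ := hS l hlS
            have q1 : j' l = j l := by rw [hj']; simp only [if_pos hlS]
            have q2 : ψ' l = ψ l := by rw [hψ']; simp only [if_pos hlS]
            rw [q1, q2]
            exact ⟨p1, p2, p3, p4⟩
          · have hlδ : l ∈ δ.primeFactors := hl'.resolve_left hlS
            obtain ⟨p1, -, p3, -, p5, -, -⟩ := hP l (hsubP hlδ)
            have q1 : j' l = 1 := by rw [hj']; simp only [if_neg hlS]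
            have q2 : ψ' l = fun d e => 1 - ψ l d e := by rw [hψ']; simp only [if_neg hlS]
            rw [q1, q2, pow_one]
            refine ⟨p1, p3, le_rfl, ?_, ?_⟩
            · intro d e
              have := p5.1 d e
              constructor <;> linarith
            · intro d d' e e' h h'
              simp only
              rw [p5.2 d d' e e' h h']
        have hN' : ((∏ l ∈ S', l ^ j' l : ℕ) : ℝ) ≤ N := by
          rw [hprodN, Nat.cast_mul]
          refine le_trans ?_ hN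
          rw [mul_comm]
          exact mul_le_mul_of_nonneg_right hδΔ (by positivity)
        have hE := h1' t N S' j' ψ' ht hN1 hLe hcond hN'
        have e4 : t.S (fun D D₂ => ∏ l ∈ S', ψ' l D D₂) =
            ∑ i ∈ idx t, om i * ∏ p ∈ δ.primeFactors, av p i := by
          rw [S_eq]
          refine sum_congr rfl fun i _ => ?_
          rw [hS', Finset.prod_union hdis, hom]
          simp only
          rw [mul_assoc]
          congr 2
          · refine Finset.prod_congr rfl fun l hl' => ?_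
            rw [hψ']; simp only [if_pos hl']
          · refine Finset.prod_congr rfl fun l hl' => ?_
            rw [hψ', hav]; simp only [if_neg (hnS l hl'), if_pos (hsubP hl')]
        have e5 : t.main * ∏ l ∈ S', lmj l (j' l) t.b t.G (ψ' l) =
            X * ∏ p ∈ δ.primeFactors, g p := by
          rw [hS', Finset.prod_union hdis, hX, mul_assoc]
          congr 2
          · refine Finset.prod_congr rfl fun l hl' => ?_
            rw [hψ', hj']; simp only [if_pos hl']
          · refine Finset.prod_congr rfl fun l hl' => ?_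
            obtain ⟨p1, -, p3, -⟩ := hP l (hsubP hl')
            have q1 : j' l = 1 := by rw [hj']; simp only [if_neg (hnS l hl')]
            have q2 : ψ' l = fun d e => 1 - ψ l d e := by
              rw [hψ']; simp only [if_neg (hnS l hl')]
            rw [q1, q2, hsub l (ψ l) p1 p3, hg]
            simp only [if_pos (hsubP hl')]
        rw [e4, e5] at hE
        refine le_trans hE ?_
        rw [hprodN, Nat.cast_mul, ← hQS, hB, mul_pow]
        have : (δ : ℝ) ^ 2 ≤ Δ ^ 2 := by gcongr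
        have hNη : (0 : ℝ) < N ^ η := Real.rpow_pos_of_pos (by linarith) _
        calc C1 * N ^ η * (QS ^ 2 * (δ : ℝ) ^ 2) * t.err
            ≤ C1 * N ^ η * (QS ^ 2 * Δ ^ 2) * t.err := by gcongr
          _ = C1 * N ^ η * QS ^ 2 * t.err * Δ ^ 2 := by ring
      · -- both sides vanish
        obtain ⟨p, hp, hpP⟩ := Finset.not_subset.1 hsubP
        have z1 : ∀ i, ∏ p ∈ δ.primeFactors, av p i = 0 := by
          intro i
          refine Finset.prod_eq_zero hp ?_
          rw [hav]; simp only [if_neg hpP]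
        have z2 : ∏ p ∈ δ.primeFactors, g p = 0 := by
          refine Finset.prod_eq_zero hp ?_
          rw [hg]; simp only [if_neg hpP]
        rw [z2, mul_zero, Finset.sum_eq_zero (fun i _ => by rw [z1 i, mul_zero]), sub_zero, abs_zero]
        positivity
    have hsum : ∑ δ ∈ (Icc 1 ⌊z ^ (8 * a + 16)⌋₊).filter
        (fun δ => Squarefree δ ∧ ∀ p : ℕ, p.Prime → p ∣ δ → (p : ℝ) < z),
        |(∑ i ∈ idx t, om i * ∏ p ∈ δ.primeFactors, av p i) - X * ∏ p ∈ δ.primeFactors, g p|
          ≤ Δ * (B * Δ ^ 2) := by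
      refine le_trans (Finset.sum_le_sum hterm) ?_
      rw [sum_const, nsmul_eq_mul]
      refine mul_le_mul_of_nonneg_right ?_ (by positivity)
      refine le_trans (Nat.cast_le.2 (Finset.card_filter_le _ _)) ?_
      rw [Nat.card_Icc, Nat.add_sub_cancel]
      exact Nat.floor_le (by positivity)
    have hlog0 : 0 ≤ 1 + Real.log z := by
      have := Real.log_nonneg hz1
      linarith
    refine le_trans (mul_le_mul_of_nonneg_left hsum (mul_nonneg hCf.le hlog0)) ?_
    refine le_trans (mul_le_mul_of_nonneg_right (mul_le_mul_of_nonneg_left hlog hCf.le)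
      (by positivity)) ?_
    refine le_of_eq ?_
    rw [hB, hΔ]
    ring
  · intro i _
    rw [hom]
    refine mul_nonneg (div_nonneg zero_le_one (rp_pos' _).le) (Finset.prod_nonneg fun l hl' => ?_)
    exact ((hS l hl').2.2.2.1 _ _).1
  · intro p _ i _
    rw [hav]
    simp only
    split_ifs with hp
    · have := (hP p hp).2.2.2.2.1.1 ((i.1 : ℕ) : ℤ) (e2 t i)
      constructor <;> linarith
    · norm_num
  · intro p hp'
    rw [hg]
    simp only
    split_ifs with hp
    · obtain ⟨p1, p2, p3, p4, p5, p6, p7⟩ := hP p hp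
      have := (hlm p 1 (ψ p) p1 le_rfl p3 p5.1).2
      rw [hlm1 p (ψ p) p1 p3] at this
      exact ⟨by linarith, p6, p7⟩
    · exact ⟨le_rfl, by positivity, by norm_num⟩

end

end Pool.Agent.Lib.MP391708.T1
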