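import Pool.Agent.Lib.MP_391708_nt.T1.ERT
import Pool.Agent.Lib.MP_391708_nt.Div

/-!
# Theorem T1, module EBD: points with a bad prime (helper44)

Also: `EBD.card_S_le`, the number of representations of `m` as a sum of two squares is at most `4 τ(m)`.
-/

set_option autoImplicit false

namespace Pool.Agent.Lib.MP391708.T1

open Finset
open scoped Classical

noncomputable section

namespace EBD

/-! ## `r₂(m) ≤ 4 τ(m)` -/

lemma card_div {p m : ℕ} (hp : p.Prime) :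
    ((ERT.S (p * (p * m))).filter (fun x => (p : ℤ) ∣ x.1 ∧ (p : ℤ) ∣ x.2)).card = (ERT.S m).card := by
  have hp0 : (p : ℤ) ≠ 0 := by exact_mod_cast hp.ne_zero
  refine card_bij' (fun x _ => (x.1 / (p : ℤ), x.2 / (p : ℤ))) (fun y _ => ((p : ℤ) * y.1, (p : ℤ) * y.2))
    ?_ ?_ ?_ ?_
  · intro x hx
    rw [mem_filter, ERT.mem_S] at hx
    obtain ⟨h1, ⟨u, hu⟩, ⟨v, hv⟩⟩ := hx
    rw [ERT.mem_S]
    show nk (x.1 / (p : ℤ), x.2 / (p : ℤ)) = m
    rw [hu, hv, Int.mul_ediv_cancel_left _ hp0, Int.mul_ediv_cancel_left _ hp0, nk]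
    apply mul_left_cancel₀ (pow_ne_zero 2 hp0)
    rw [nk, hu, hv] at h1
    push_cast at h1
    linear_combination h1
  · intro y hy
    rw [ERT.mem_S, nk] at hy
    rw [mem_filter, ERT.mem_S]
    refine ⟨?_, Dvd.intro _ rfl, Dvd.intro _ rfl⟩
    show nk ((p : ℤ) * y.1, (p : ℤ) * y.2) = ((p * (p * m) : ℕ) : ℤ)
    rw [nk]
    push_cast
    linear_combination (p : ℤ) ^ 2 * hy
  · intro x hx
    rw [mem_filter] at hx
    obtain ⟨-, ⟨u, hu⟩, ⟨v, hv⟩⟩ := hx
    simp only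
    ext
    · show (p : ℤ) * (x.1 / (p : ℤ)) = x.1
      rw [hu, Int.mul_ediv_cancel_left _ hp0]
    · show (p : ℤ) * (x.2 / (p : ℤ)) = x.2
      rw [hv, Int.mul_ediv_cancel_left _ hp0]
  · intro y _
    ext
    · exact Int.mul_ediv_cancel_left _ hp0
    · exact Int.mul_ediv_cancel_left _ hp0

lemma card_two (m : ℕ) : (ERT.S (2 * m)).card = (ERT.S m).card := by
  have h := ERT.card_half (p := 2) (m := m) Nat.prime_two (a := 1) (b := 1) (by norm_num)
  rw [← h]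
  congr 1
  ext x
  rw [mem_filter]
  refine ⟨fun hx => ⟨hx, ?_⟩, fun hx => hx.1⟩
  rw [ERT.mem_S, nk] at hx
  push_cast at hx ⊢
  have h2 : (2 : ℤ) ∣ (1 * x.1 + 1 * x.2) ^ 2 := ⟨m + x.1 * x.2, by linear_combination hx⟩
  exact Int.prime_two.dvd_of_dvd_pow h2

lemma dvd_of_three {p : ℕ} (hp : p.Prime) (h3 : p % 4 = 3) {x y : ℤ} (h : (p : ℤ) ∣ x ^ 2 + y ^ 2) :
    (p : ℤ) ∣ x ∧ (p : ℤ) ∣ y := by
  have := Fact.mk hp
  have key : ∀ x y : ℤ, (p : ℤ) ∣ x ^ 2 + y ^ 2 → (p : ℤ) ∣ y := by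
    intro x y h
    by_contra hy
    have hy' : ((y : ℤ) : ZMod p) ≠ 0 := by
      rw [Ne, ZMod.intCast_zmod_eq_zero_iff_dvd]
      exact hy
    have hxy : ((x : ℤ) : ZMod p) ^ 2 = -((y : ℤ) : ZMod p) ^ 2 := by
      have h1 : ((x ^ 2 + y ^ 2 : ℤ) : ZMod p) = 0 := by
        rw [ZMod.intCast_zmod_eq_zero_iff_dvd]
        exact h
      push_cast at h1
      exact eq_neg_of_add_eq_zero_left h1
    exact ZMod.mod_four_ne_three_of_sq_eq_neg_sq' hy' hxy h3
  exact ⟨key y x (by rwa [add_comm]), key x y h⟩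

lemma card_three {p : ℕ} (hp : p.Prime) (h3 : p % 4 = 3) {m : ℕ} (hm : ¬ p ∣ m) :
    ∀ k : ℕ, (ERT.S (p ^ k * m)).card ≤ (ERT.S m).card
  | 0 => by simp
  | 1 => by
      have : ERT.S (p ^ 1 * m) = ∅ := by
        rw [eq_empty_iff_forall_notMem]
        intro x hx
        rw [ERT.mem_S, nk, pow_one] at hx
        push_cast at hx
        have h := dvd_of_three hp h3 (Dvd.intro _ hx.symm)
        obtain ⟨⟨u, hu⟩, ⟨v, hv⟩⟩ := h
        apply hm
        have hp0 : (p : ℤ) ≠ 0 := by exact_mod_cast hp.ne_zero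
        have h2 : (m : ℤ) = p * (u ^ 2 + v ^ 2) := by
          apply mul_left_cancel₀ hp0
          rw [← hx, hu, hv]
          ring
        exact Int.natCast_dvd_natCast.1 ⟨_, h2⟩
      rw [this]
      simp
  | k + 2 => by
      have e : p ^ (k + 2) * m = p * (p * (p ^ k * m)) := by ring
      have h1 : ERT.S (p ^ (k + 2) * m) =
          (ERT.S (p * (p * (p ^ k * m)))).filter (fun x => (p : ℤ) ∣ x.1 ∧ (p : ℤ) ∣ x.2) := by
        ext x
        rw [mem_filter, e]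
        refine ⟨fun hx => ⟨hx, ?_⟩, fun hx => hx.1⟩
        rw [ERT.mem_S, nk] at hx
        push_cast at hx
        exact dvd_of_three hp h3 (Dvd.intro _ hx.symm)
      rw [h1, card_div hp]
      exact card_three hp h3 hm k

/-- the recurrence for `p ≡ 1 mod 4` -/
lemma card_rec {p : ℕ} (hp : p.Prime) (h4 : p % 4 = 1) (m : ℕ) :
    (ERT.S (p * (p * m))).card + (ERT.S m).card = 2 * (ERT.S (p * m)).card := by
  have := Fact.mk hp
  obtain ⟨a', b', hab'⟩ := Nat.Prime.sq_add_sq (p := p) (by omega)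
  have hab : (a' : ℤ) ^ 2 + (b' : ℤ) ^ 2 = p := by exact_mod_cast hab'
  have hab2 : (a' : ℤ) ^ 2 + (-(b' : ℤ)) ^ 2 = p := by linear_combination hab
  have hpp : Prime (p : ℤ) := Nat.prime_iff_prime_int.mp hp
  have ha : ¬ (p : ℤ) ∣ 2 * a' := by
    intro h
    rcases hpp.dvd_or_dvd h with h | h
    · have h5 : p ∣ 2 := by exact_mod_cast h
      have h6 := Nat.le_of_dvd (by norm_num) h5
      have h7 := hp.two_le
      omega
    · have h5 : p ∣ a' := by exact_mod_cast h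
      have ha0 : a' ≠ 0 := by
        rintro rfl
        have h6 : b' * b' = p := by rw [← hab']; ring
        have h7 := hp
        rw [← h6, Nat.prime_mul_iff] at h7
        rcases h7 with ⟨h7, h8⟩ | ⟨h7, h8⟩ <;> exact h7.one_lt.ne' h8
      have h6 := Nat.le_of_dvd (Nat.pos_of_ne_zero ha0) h5
      have h7 : a' * a' ≤ p := by nlinarith [sq_nonneg b']
      have h8 : 2 ≤ p := hp.two_le
      nlinarith
  obtain ⟨n, hn⟩ : ∃ n, n = p * m := ⟨_, rfl⟩
  obtain ⟨F1, hF1⟩ : ∃ F1, F1 = (ERT.S (p * n)).filter (fun x => (p : ℤ) ∣ (a' : ℤ) * x.1 + b' * x.2) :=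
    ⟨_, rfl⟩
  obtain ⟨F2, hF2⟩ : ∃ F2, F2 = (ERT.S (p * n)).filter
    (fun x => (p : ℤ) ∣ (a' : ℤ) * x.1 + -(b' : ℤ) * x.2) := ⟨_, rfl⟩
  have h1 : ERT.S (p * n) = F1 ∪ F2 := by
    ext x
    rw [hF1, hF2, mem_union, mem_filter, mem_filter, ← and_or_left]
    refine ⟨fun hx => ⟨hx, ?_⟩, fun hx => hx.1⟩
    rw [ERT.mem_S, nk, Nat.cast_mul] at hx
    apply hpp.dvd_or_dvd
    refine ⟨(a' : ℤ) ^ 2 * n - x.2 ^ 2, ?_⟩
    linear_combination (a' : ℤ) ^ 2 * hx - x.2 ^ 2 * hab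
  have h2 : F1 ∩ F2 = (ERT.S (p * n)).filter (fun x => (p : ℤ) ∣ x.1 ∧ (p : ℤ) ∣ x.2) := by
    ext x
    rw [hF1, hF2, mem_inter, mem_filter, mem_filter, mem_filter]
    constructor
    · rintro ⟨⟨hx, c1⟩, -, c2⟩
      have h3 : (p : ℤ) ∣ 2 * a' * x.1 := by
        obtain ⟨c, hc⟩ := c1
        obtain ⟨d, hd⟩ := c2
        exact ⟨c + d, by linear_combination hc + hd⟩
      have h4 : (p : ℤ) ∣ x.1 := (hpp.dvd_or_dvd h3).resolve_left ha
      refine ⟨hx, h4, ?_⟩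
      rw [ERT.mem_S, nk, Nat.cast_mul] at hx
      apply hpp.dvd_of_dvd_pow (n := 2)
      obtain ⟨c, hc⟩ := h4
      refine ⟨n - c * x.1, ?_⟩
      linear_combination hx - x.1 * hc
    · rintro ⟨hx, ⟨c, hc⟩, ⟨d, hd⟩⟩
      exact ⟨⟨hx, ⟨a' * c + b' * d, by rw [hc, hd]; ring⟩⟩, hx, ⟨a' * c - b' * d, by rw [hc, hd]; ring⟩⟩
  have h3 := card_union_add_card_inter F1 F2
  rw [← h1, h2] at h3
  rw [hF1, hF2, ERT.card_half hp hab, ERT.card_half hp hab2] at h3
  rw [hn, card_div hp] at h3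
  rw [h3]
  ring

lemma card_one {p : ℕ} (hp : p.Prime) (h4 : p % 4 = 1) {m : ℕ} (hm : ¬ p ∣ m) :
    ∀ k : ℕ, (ERT.S (p ^ k * m)).card = (k + 1) * (ERT.S m).card
  | 0 => by simp
  | 1 => by rw [pow_one, ERT.card_mul hp h4 hm]
  | k + 2 => by
      have h1 := card_rec hp h4 (p ^ k * m)
      have h2 := card_one hp h4 hm k
      have h3 := card_one hp h4 hm (k + 1)
      have e1 : p ^ (k + 2) * m = p * (p * (p ^ k * m)) := by ring
      have e2 : p ^ (k + 1) * m = p * (p ^ k * m) := by ring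
      rw [e2] at h3
      rw [e1]
      rw [h2, h3] at h1
      have h4 : (ERT.S (p * (p * (p ^ k * m)))).card + (k + 1) * (ERT.S m).card =
          (k + 2 + 1) * (ERT.S m).card + (k + 1) * (ERT.S m).card := by
        rw [h1]
        ring
      exact Nat.add_right_cancel h4

/-- **the number of representations as a sum of two squares** -/
theorem card_S_le (m : ℕ) : 0 < m → (ERT.S m).card ≤ 4 * m.divisors.card := by
  induction m using Nat.strong_induction_on with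
  | _ m ih =>
    intro h0
    rcases eq_or_ne m 1 with rfl | h1
    · rw [ERT.card_S_one]
      simp
    · have hp : m.minFac.Prime := Nat.minFac_prime h1
      obtain ⟨p, hpd⟩ : ∃ p, p = m.minFac := ⟨_, rfl⟩
      have hpm : p ∣ m := hpd ▸ Nat.minFac_dvd m
      rw [← hpd] at hp
      obtain ⟨k, m', hm', hmk⟩ := Nat.exists_eq_pow_mul_and_not_dvd h0.ne' p hp.ne_one
      have hk : k ≠ 0 := by
        rintro rfl
        rw [pow_zero, one_mul] at hmk
        exact hm' (hmk ▸ hpm)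
      have hm0 : 0 < m' := by
        rcases Nat.eq_zero_or_pos m' with h | h
        · rw [h, mul_zero] at hmk
          omega
        · exact h
      have hlt : m' < m := by
        rw [hmk]
        have : 1 < p ^ k := Nat.one_lt_pow hk hp.one_lt
        nlinarith
      have h5 := ih m' hlt hm0
      have hcop : Nat.Coprime (p ^ k) m' := Nat.Coprime.pow_left k ((Nat.Prime.coprime_iff_not_dvd hp).2 hm')
      have hdv : m.divisors.card = (k + 1) * m'.divisors.card := by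
        rw [hmk, Nat.Coprime.card_divisors_mul hcop, Nat.divisors_prime_pow hp]
        simp
      have hge : m'.divisors.card ≤ (k + 1) * m'.divisors.card := Nat.le_mul_of_pos_left _ (Nat.succ_pos k)
      rw [hdv, hmk]
      have hmod : p = 2 ∨ p % 4 = 1 ∨ p % 4 = 3 := by
        rcases hp.eq_two_or_odd with h | h
        · exact Or.inl h
        · right
          omega
      rcases hmod with h | h | h
      · subst h
        have h6 : ∀ k : ℕ, (ERT.S (2 ^ k * m')).card = (ERT.S m').card := by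
          intro k
          induction k with
          | zero => simp
          | succ k ihk =>
            rw [show 2 ^ (k + 1) * m' = 2 * (2 ^ k * m') by ring, card_two, ihk]
        rw [h6]
        omega
      · rw [card_one hp h hm']
        calc (k + 1) * (ERT.S m').card ≤ (k + 1) * (4 * m'.divisors.card) := Nat.mul_le_mul_left _ h5
          _ = _ := by ring
      · refine (card_three hp h hm' k).trans ?_
        omega

/-! ## counting in classes -/

lemma card_class (A : Finset ℕ) (a b q : ℕ) (_hq : 0 < q) (hab : a ≤ b) (h : ∀ x ∈ A, a < x ∧ x ≤ b)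
    (hd : ∀ x ∈ A, ∀ y ∈ A, x ≡ y [MOD q]) : (A.card : ℝ) ≤ ((b : ℝ) - a) / q + 1 := by
  have h1 : A.card ≤ (b - a) / q + 1 := by
    rw [← card_range ((b - a) / q + 1)]
    refine card_le_card_of_injOn (fun x => (x - (a + 1)) / q) ?_ ?_
    · intro x hx
      have := h x (mem_coe.1 hx)
      rw [mem_coe, mem_range, Nat.lt_succ_iff]
      exact Nat.div_le_div_right (by omega)
    · intro x hx y hy hxy
      have hx1 := h x (mem_coe.1 hx)
      have hy1 := h y (mem_coe.1 hy)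
      have h2 := hd x (mem_coe.1 hx) y (mem_coe.1 hy)
      obtain ⟨u, hu⟩ : ∃ u, x = u + (a + 1) := ⟨x - (a + 1), by omega⟩
      obtain ⟨v, hv⟩ : ∃ v, y = v + (a + 1) := ⟨y - (a + 1), by omega⟩
      subst hu
      subst hv
      simp only [Nat.add_sub_cancel] at hxy
      have h3 : u ≡ v [MOD q] := Nat.ModEq.add_right_cancel' (a + 1) h2
      have h4 : u % q = v % q := h3
      have h5 := Nat.div_add_mod u q
      have h6 := Nat.div_add_mod v q
      rw [hxy, h4] at h5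
      omega
  have h2 : (((b - a) / q : ℕ) : ℝ) ≤ ((b : ℝ) - a) / q := by
    rw [← Nat.cast_sub hab]
    exact Nat.cast_div_le
  have h3 : (A.card : ℝ) ≤ (((b - a) / q : ℕ) : ℝ) + 1 := by exact_mod_cast h1
  linarith

lemma count_le {D' b G R e : ℕ} (hD : 0 < D') (he : 0 < e) (hG : Nat.Coprime D' G) (A : Finset ℕ)
    (hA : ∀ x ∈ A, 1 ≤ x ∧ x ≤ R ∧ (D' : ℤ) ∣ (b : ℤ) * x - G ∧ e ∣ x) :
    (A.card : ℝ) ≤ (R : ℝ) / ((D' : ℝ) * e) + 1 := by
  rcases A.eq_empty_or_nonempty with rfl | ⟨x₀, hx₀⟩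
  · simp only [card_empty, Nat.cast_zero]
    positivity
  · obtain ⟨-, -, ⟨c, hc⟩, hex⟩ := hA x₀ hx₀
    have hG' : IsCoprime (D' : ℤ) (G : ℤ) := Nat.isCoprime_iff_coprime.2 hG
    have h1 : IsCoprime (D' : ℤ) ((b : ℤ) * x₀) := by
      have e1 : (b : ℤ) * x₀ = G + D' * c := by linear_combination hc
      rw [e1]
      exact hG'.add_mul_left_right c
    have hb : IsCoprime (D' : ℤ) (b : ℤ) := h1.of_mul_right_left
    have hx : IsCoprime (D' : ℤ) (x₀ : ℤ) := h1.of_mul_right_right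
    have hDe : IsCoprime (D' : ℤ) (e : ℤ) :=
      hx.of_isCoprime_of_dvd_right (Int.natCast_dvd_natCast.2 hex)
    have h2 := card_class A 0 R (D' * e) (Nat.mul_pos hD he) (Nat.zero_le _)
      (fun x hx => ⟨by have := (hA x hx).1; omega, (hA x hx).2.1⟩) (fun x hx y hy => by
        obtain ⟨-, -, hdx, hex⟩ := hA x hx
        obtain ⟨-, -, hdy, hey⟩ := hA y hy
        have h3 : (D' : ℤ) ∣ (b : ℤ) * (y - x) := by
          have := dvd_sub hdy hdx
          have e1 : (b : ℤ) * y - G - ((b : ℤ) * x - G) = b * (y - x) := by ring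
          rwa [e1] at this
        have h4 : (D' : ℤ) ∣ (y : ℤ) - x := hb.dvd_of_dvd_mul_left h3
        have h5 : (e : ℤ) ∣ (y : ℤ) - x :=
          dvd_sub (Int.natCast_dvd_natCast.2 hey) (Int.natCast_dvd_natCast.2 hex)
        rw [Nat.modEq_iff_dvd]
        push_cast
        exact hDe.mul_dvd h4 h5)
    push_cast at h2
    rw [sub_zero] at h2
    exact h2

lemma rp_lower (D : ℕ) (hD : 0 < D) : 0 < rp D ∧ 1 / rp D ≤ D.divisors.card := by
  have h1 : ∀ l ∈ D.primeFactors, (1 / 2 : ℝ) ≤ 1 - ch l / l := by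
    intro l hl
    have hlp : l.Prime := Nat.prime_of_mem_primeFactors hl
    have hl2 : (2 : ℝ) ≤ l := by exact_mod_cast hlp.two_le
    have hch : ch l ≤ 1 := by
      unfold ch
      split_ifs <;> norm_num
    have : ch l / l ≤ 1 / 2 := by
      rw [div_le_iff₀ (by linarith)]
      linarith
    linarith
  have h2 : (1 / 2 : ℝ) ^ D.primeFactors.card ≤ rp D := by
    unfold rp
    rw [← prod_const]
    exact prod_le_prod (fun _ _ => by norm_num) h1
  have h3 : (2 : ℝ) ^ D.primeFactors.card ≤ D.divisors.card := by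
    have : 2 ^ D.primeFactors.card ≤ D.divisors.card := by
      rw [Nat.card_divisors hD.ne', ← prod_const]
      refine prod_le_prod' fun l hl => ?_
      have hlp : l.Prime := Nat.prime_of_mem_primeFactors hl
      have := hlp.factorization_pos_of_dvd hD.ne' (Nat.dvd_of_mem_primeFactors hl)
      omega
    exact_mod_cast this
  have h4 : (0 : ℝ) < (1 / 2 : ℝ) ^ D.primeFactors.card := by positivity
  refine ⟨h4.trans_le h2, ?_⟩
  calc 1 / rp D ≤ 1 / (1 / 2 : ℝ) ^ D.primeFactors.card := one_div_le_one_div_of_le h4 h2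
    _ = (2 : ℝ) ^ D.primeFactors.card := by rw [one_div, ← inv_pow]; norm_num
    _ ≤ _ := h3

end EBD

open EBD

theorem specEBD : SpecEBD := by
  intro η hη
  obtain ⟨C₁, hC₁, hdiv⟩ := Pool.Agent.Lib.MP_391708_nt.Div.card_divisors_le_rpow (η / 3) (by positivity)
  refine ⟨12 * C₁ ^ 3, by positivity, ?_⟩
  intro t N z hok hz hN hle _ hA₁
  obtain ⟨hW, -, hn, -, -, -, -, -, hG, -, -, hWG, -, hAA, -, hR⟩ := hok
  obtain ⟨-, -, -, -, hGN, hAN, hRN⟩ := hle
  have hz0 : 0 < z := by linarith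
  have hN0 : 0 < N := by linarith
  have hT : ∀ x : ℕ, 0 < x → (x : ℝ) ≤ N → (x.divisors.card : ℝ) ≤ C₁ * N ^ (η / 3) := by
    intro x hx hxN
    refine (hdiv x hx).trans ?_
    gcongr
  have hT0 : 0 ≤ C₁ * N ^ (η / 3) := by positivity
  have hG1 : (1 : ℝ) ≤ t.G.divisors.card := by
    have : 0 < t.G.divisors.card := card_pos.2 ⟨1, Nat.one_mem_divisors.2 hG.ne'⟩
    exact_mod_cast this
  -- the members of `SD`
  have hSD : ∀ D ∈ t.SD, t.A₁ < D ∧ D ≤ t.A₂ ∧ D ≡ t.ρ [MOD t.n] ∧ D.Coprime t.G := by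
    intro D hD
    unfold EE.SD SDD at hD
    rw [mem_filter, mem_Ioc] at hD
    exact ⟨hD.1.1, hD.1.2, hD.2.2.1, hD.2.2.2⟩
  -- fixed `D`
  have key : ∀ D ∈ t.SD, (((t.SK D).filter (fun k => ∃ l : ℕ, l.Prime ∧ z ≤ (l : ℝ) ∧
      ((l : ℤ) ^ 2 ∣ nk k ∨ ((l : ℤ) ∣ nk k ∧ l ∣ t.G)))).card : ℝ) ≤
      4 * (C₁ * N ^ (η / 3)) * (C₁ * N ^ (η / 3)) * (3 * (t.R / z) * (1 / D) + (Real.sqrt t.R + 1)) := by
    intro D hD
    obtain ⟨hD1, hD2, -, hDG⟩ := hSD D hD
    have hD0 : 0 < D := by omega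
    have hR2 : t.R₂ D ≤ t.R := (hR D hD1 hD2).2.1
    obtain ⟨K, hK⟩ : ∃ K, K = (t.SK D).filter (fun k => ∃ l : ℕ, l.Prime ∧ z ≤ (l : ℝ) ∧
      ((l : ℤ) ^ 2 ∣ nk k ∨ ((l : ℤ) ∣ nk k ∧ l ∣ t.G))) := ⟨_, rfl⟩
    rw [← hK]
    -- the values
    obtain ⟨X, hX⟩ : ∃ X : Finset ℕ, X = (Icc 1 t.R).filter (fun x : ℕ => ((D * t.W : ℕ) : ℤ) ∣ (t.b : ℤ) * (x : ℤ) - t.G ∧
      ∃ l : ℕ, l.Prime ∧ z ≤ (l : ℝ) ∧ (l ^ 2 ∣ x ∨ (l ∣ x ∧ l ∣ t.G))) := ⟨_, rfl⟩
    have hKX : ∀ k ∈ K, (nk k).toNat ∈ X ∧ nk k = ((nk k).toNat : ℤ) := by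
      intro k hk
      rw [hK, mem_filter, EE.SK, mem_filter, mem_dk] at hk
      obtain ⟨⟨h1, h2, h3, -⟩, l, hl, hzl, hll⟩ := hk
      have h4 : nk k = ((nk k).toNat : ℤ) := (Int.toNat_of_nonneg (nk_nonneg k)).symm
      refine ⟨?_, h4⟩
      rw [hX, mem_filter, mem_Icc]
      rw [h4] at h1 h2 h3 hll
      refine ⟨⟨?_, ?_⟩, h3, l, hl, hzl, ?_⟩
      · have : (0 : ℤ) ≤ t.R₁ D := by positivity
        omega
      · have : ((nk k).toNat : ℤ) ≤ t.R := h1.trans (by exact_mod_cast hR2)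
        exact_mod_cast this
      · rcases hll with h | ⟨h, h'⟩
        · left
          exact_mod_cast h
        · right
          exact ⟨by exact_mod_cast h, h'⟩
    have hKc : (K.card : ℝ) ≤ 4 * (C₁ * N ^ (η / 3)) * X.card := by
      have h1 : K.card = ∑ x ∈ X, (K.filter (fun k => (nk k).toNat = x)).card :=
        card_eq_sum_card_fiberwise (fun k hk => mem_coe.2 (hKX k (mem_coe.1 hk)).1)
      rw [h1, Nat.cast_sum, mul_comm, ← nsmul_eq_mul]
      refine sum_le_card_nsmul _ _ _ fun x hx => ?_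
      have hx' := hx
      rw [hX, mem_filter, mem_Icc] at hx'
      have h2 : (K.filter (fun k => (nk k).toNat = x)).card ≤ (ERT.S x).card := by
        refine card_le_card fun k hk => ?_
        rw [mem_filter] at hk
        rw [ERT.mem_S, (hKX k hk.1).2, hk.2]
      have h3 := h2.trans (card_S_le x hx'.1.1)
      have h4 : ((K.filter (fun k => (nk k).toNat = x)).card : ℝ) ≤ 4 * (x.divisors.card : ℝ) := by
        exact_mod_cast h3
      have hxN : (x : ℝ) ≤ N := by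
        have : (x : ℝ) ≤ t.R := by exact_mod_cast hx'.1.2
        linarith
      have h5 := hT x hx'.1.1 hxN
      linarith
    -- the number of values
    have hDW : 0 < D * t.W := Nat.mul_pos hD0 hW
    have hDWG : Nat.Coprime (D * t.W) t.G := Nat.Coprime.mul_left hDG hWG
    have hDle : ∀ e : ℕ, 0 < e → (t.R : ℝ) / (((D * t.W : ℕ) : ℝ) * e) ≤ t.R / (D * e) := by
      intro e he
      have hW1 : (1 : ℝ) ≤ t.W := by exact_mod_cast hW
      have he0 : (0 : ℝ) < e := by exact_mod_cast he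
      have hD0' : (0 : ℝ) < D := by exact_mod_cast hD0
      apply div_le_div_of_nonneg_left (by positivity) (by positivity)
      push_cast
      nlinarith [mul_pos hD0' he0]
    obtain ⟨L₁, hL₁⟩ : ∃ L₁ : Finset ℕ, L₁ = (Ioo (⌈z⌉₊ - 1) (Nat.sqrt t.R + 1)).filter Nat.Prime :=
      ⟨_, rfl⟩
    obtain ⟨L₂, hL₂⟩ : ∃ L₂ : Finset ℕ, L₂ = (t.G.primeFactors).filter (fun l : ℕ => z ≤ (l : ℝ)) := ⟨_, rfl⟩
    have hceil : 2 ≤ ⌈z⌉₊ := by
      have : (2 : ℝ) ≤ ⌈z⌉₊ := hz.trans (Nat.le_ceil z)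
      exact_mod_cast this
    have hXsub : X ⊆ (L₁.biUnion fun l => X.filter (fun x => l ^ 2 ∣ x)) ∪
        (L₂.biUnion fun l => X.filter (fun x => l ∣ x)) := by
      intro x hx
      have hx' := hx
      rw [hX, mem_filter, mem_Icc] at hx'
      obtain ⟨⟨hx1, hx2⟩, -, l, hl, hzl, hll⟩ := hx'
      rw [mem_union, mem_biUnion, mem_biUnion]
      rcases hll with h | ⟨h, h'⟩
      · left
        refine ⟨l, ?_, mem_filter.2 ⟨hx, h⟩⟩
        rw [hL₁, mem_filter, mem_Ioo]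
        have h1 : ⌈z⌉₊ ≤ l := Nat.ceil_le.2 hzl
        have h2 : l ^ 2 ≤ t.R := (Nat.le_of_dvd hx1 h).trans hx2
        have h3 : l ≤ Nat.sqrt t.R := Nat.le_sqrt'.2 h2
        exact ⟨⟨by omega, by omega⟩, hl⟩
      · right
        refine ⟨l, ?_, mem_filter.2 ⟨hx, h⟩⟩
        rw [hL₂, mem_filter, Nat.mem_primeFactors]
        exact ⟨⟨hl, h', hG.ne'⟩, hzl⟩
    have hsum1 : ∑ l ∈ L₁, ((X.filter (fun x => l ^ 2 ∣ x)).card : ℝ) ≤
        2 * (t.R / z) * (1 / D) + Real.sqrt t.R := by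
      have h1 : ∀ l ∈ L₁, ((X.filter (fun x => l ^ 2 ∣ x)).card : ℝ) ≤
          t.R / D * ((l : ℝ) ^ 2)⁻¹ + 1 := by
        intro l hl
        rw [hL₁, mem_filter] at hl
        have hl0 : 0 < l ^ 2 := pow_pos hl.2.pos 2
        have h2 := count_le (b := t.b) (R := t.R) hDW hl0 hDWG (X.filter (fun x => l ^ 2 ∣ x))
          (fun x hx => by
            rw [mem_filter, hX, mem_filter, mem_Icc] at hx
            exact ⟨hx.1.1.1, hx.1.1.2, hx.1.2.1, hx.2⟩)
        have h3 := hDle (l ^ 2) hl0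
        have h4 : (t.R : ℝ) / (D * ((l ^ 2 : ℕ) : ℝ)) = t.R / D * ((l : ℝ) ^ 2)⁻¹ := by
          push_cast
          rw [← div_div, div_eq_mul_inv (t.R / (D : ℝ))]
        linarith
      refine (sum_le_sum h1).trans ?_
      rw [sum_add_distrib, ← mul_sum, sum_const, nsmul_eq_mul, mul_one]
      have h2 : ∑ l ∈ L₁, ((l : ℝ) ^ 2)⁻¹ ≤ 2 / z := by
        calc ∑ l ∈ L₁, ((l : ℝ) ^ 2)⁻¹ ≤ ∑ l ∈ Ioo (⌈z⌉₊ - 1) (Nat.sqrt t.R + 1), ((l : ℝ) ^ 2)⁻¹ := by
              rw [hL₁]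
              exact sum_le_sum_of_subset_of_nonneg (filter_subset _ _) fun _ _ _ => by positivity
          _ ≤ 2 / (((⌈z⌉₊ - 1 : ℕ) : ℝ) + 1) := sum_Ioo_inv_sq_le _ _
          _ ≤ 2 / z := by
              apply div_le_div_of_nonneg_left (by norm_num) hz0
              have : ((⌈z⌉₊ - 1 : ℕ) : ℝ) + 1 = ⌈z⌉₊ := by
                rw [Nat.cast_sub (by omega)]
                push_cast
                ring
              rw [this]
              exact Nat.le_ceil z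
      have h3 : (L₁.card : ℝ) ≤ Real.sqrt t.R := by
        have h4 : L₁.card ≤ Nat.sqrt t.R := by
          rw [hL₁]
          refine (card_filter_le _ _).trans ?_
          rw [Nat.card_Ioo]
          omega
        calc (L₁.card : ℝ) ≤ (Nat.sqrt t.R : ℝ) := by exact_mod_cast h4
          _ ≤ Real.sqrt t.R := Real.nat_sqrt_le_real_sqrt
      have h4 : (t.R : ℝ) / D * ∑ l ∈ L₁, ((l : ℝ) ^ 2)⁻¹ ≤ t.R / D * (2 / z) :=
        mul_le_mul_of_nonneg_left h2 (by positivity)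
      have h5 : (t.R : ℝ) / D * (2 / z) = 2 * (t.R / z) * (1 / D) := by ring
      linarith
    have hsum2 : ∑ l ∈ L₂, ((X.filter (fun x => l ∣ x)).card : ℝ) ≤
        t.G.divisors.card * ((t.R / z) * (1 / D) + 1) := by
      have h1 : ∀ l ∈ L₂, ((X.filter (fun x => l ∣ x)).card : ℝ) ≤ (t.R / z) * (1 / D) + 1 := by
        intro l hl
        rw [hL₂, mem_filter] at hl
        have hlp : l.Prime := Nat.prime_of_mem_primeFactors hl.1
        have h2 := count_le (b := t.b) (R := t.R) hDW hlp.pos hDWG (X.filter (fun x => l ∣ x))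
          (fun x hx => by
            rw [mem_filter, hX, mem_filter, mem_Icc] at hx
            exact ⟨hx.1.1.1, hx.1.1.2, hx.1.2.1, hx.2⟩)
        have h3 := hDle l hlp.pos
        have hD0' : (0 : ℝ) < D := by exact_mod_cast hD0
        have h4 : (t.R : ℝ) / (D * l) ≤ t.R / (D * z) :=
          div_le_div_of_nonneg_left (by positivity) (by positivity) (by nlinarith [hl.2])
        have h5 : (t.R : ℝ) / (D * z) = (t.R / z) * (1 / D) := by
          field_simp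
        linarith
      have h2 : (L₂.card : ℝ) ≤ t.G.divisors.card := by
        have : L₂.card ≤ t.G.divisors.card := by
          rw [hL₂]
          refine (card_filter_le _ _).trans (card_le_card fun l hl => ?_)
          rw [Nat.mem_divisors]
          exact ⟨Nat.dvd_of_mem_primeFactors hl, hG.ne'⟩
        exact_mod_cast this
      have h3 : (0 : ℝ) ≤ (t.R / z) * (1 / D) + 1 := by positivity
      calc ∑ l ∈ L₂, ((X.filter (fun x => l ∣ x)).card : ℝ) ≤ L₂.card • ((t.R / z) * (1 / (D : ℝ)) + 1) :=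
            sum_le_card_nsmul _ _ _ h1
        _ = L₂.card * ((t.R / z) * (1 / D) + 1) := by rw [nsmul_eq_mul]
        _ ≤ _ := mul_le_mul_of_nonneg_right h2 h3
    have hXc : (X.card : ℝ) ≤ (C₁ * N ^ (η / 3)) * (3 * (t.R / z) * (1 / D) + (Real.sqrt t.R + 1)) := by
      have h1 : (X.card : ℝ) ≤ ∑ l ∈ L₁, ((X.filter (fun x => l ^ 2 ∣ x)).card : ℝ) +
          ∑ l ∈ L₂, ((X.filter (fun x => l ∣ x)).card : ℝ) := by
        have h2 := (card_le_card hXsub).trans (card_union_le _ _)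
        have h3 := h2.trans (Nat.add_le_add card_biUnion_le card_biUnion_le)
        exact_mod_cast h3
      have h4 : (0 : ℝ) ≤ (t.R / z) * (1 / D) := by positivity
      have h5 : (0 : ℝ) ≤ Real.sqrt t.R := Real.sqrt_nonneg _
      have h6 : (t.G.divisors.card : ℝ) ≤ C₁ * N ^ (η / 3) := hT t.G hG hGN
      have h7 : (X.card : ℝ) ≤ t.G.divisors.card * (3 * (t.R / z) * (1 / D) + (Real.sqrt t.R + 1)) := by
        nlinarith [mul_nonneg (sub_nonneg.2 hG1) h4, mul_nonneg (sub_nonneg.2 hG1) h5]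
      exact h7.trans (mul_le_mul_of_nonneg_right h6 (by positivity))
    calc (K.card : ℝ) ≤ 4 * (C₁ * N ^ (η / 3)) * X.card := hKc
      _ ≤ 4 * (C₁ * N ^ (η / 3)) *
          ((C₁ * N ^ (η / 3)) * (3 * (t.R / z) * (1 / D) + (Real.sqrt t.R + 1))) :=
          mul_le_mul_of_nonneg_left hXc (by positivity)
      _ = _ := by ring
  -- the sum over `D`
  have hterm : ∀ D ∈ t.SD, (1 / rp D) * (((t.SK D).filter (fun k => ∃ l : ℕ, l.Prime ∧ z ≤ (l : ℝ) ∧
      ((l : ℤ) ^ 2 ∣ nk k ∨ ((l : ℤ) ∣ nk k ∧ l ∣ t.G)))).card : ℝ) ≤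
      4 * (C₁ * N ^ (η / 3)) ^ 3 * (3 * (t.R / z) * (1 / t.A₁) + (Real.sqrt t.R + 1)) := by
    intro D hD
    obtain ⟨hD1, hD2, -, -⟩ := hSD D hD
    have hD0 : 0 < D := by omega
    obtain ⟨hr0, hr1⟩ := rp_lower D hD0
    have hDN : (D : ℝ) ≤ N := by
      have : (D : ℝ) ≤ t.A₂ := by exact_mod_cast hD2
      linarith
    have h1 : 1 / rp D ≤ C₁ * N ^ (η / 3) := hr1.trans (hT D hD0 hDN)
    have h2 := key D hD
    have hA0 : (0 : ℝ) < t.A₁ := by exact_mod_cast hA₁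
    have h3 : (1 : ℝ) / D ≤ 1 / t.A₁ := by
      apply one_div_le_one_div_of_le hA0
      exact_mod_cast hD1.le
    have h4 : (0 : ℝ) ≤ t.R / z := by positivity
    calc _ ≤ (C₁ * N ^ (η / 3)) * (4 * (C₁ * N ^ (η / 3)) * (C₁ * N ^ (η / 3)) *
          (3 * (t.R / z) * (1 / D) + (Real.sqrt t.R + 1))) :=
          mul_le_mul h1 h2 (by positivity) hT0
      _ = 4 * (C₁ * N ^ (η / 3)) ^ 3 * (3 * (t.R / z) * (1 / D) + (Real.sqrt t.R + 1)) := by ring
      _ ≤ _ := by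
          apply mul_le_mul_of_nonneg_left _ (by positivity)
          have := mul_le_mul_of_nonneg_left h3 (show (0 : ℝ) ≤ 3 * (t.R / z) by positivity)
          linarith
  have hcard1 : (t.SD.card : ℝ) ≤ ((t.A₂ : ℝ) - t.A₁) / t.n + 1 :=
    card_class t.SD t.A₁ t.A₂ t.n hn hAA (fun D hD => ⟨(hSD D hD).1, (hSD D hD).2.1⟩)
      (fun D hD D' hD' => (hSD D hD).2.2.1.trans (hSD D' hD').2.2.1.symm)
  have hcard2 : (t.SD.card : ℝ) ≤ t.A₂ := by
    have : t.SD.card ≤ t.A₂ := by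
      unfold EE.SD SDD
      refine (card_filter_le _ _).trans ?_
      rw [Nat.card_Ioc]
      omega
    exact_mod_cast this
  have hA0 : (0 : ℝ) < t.A₁ := by exact_mod_cast hA₁
  have hpow : (C₁ * N ^ (η / 3)) ^ 3 = C₁ ^ 3 * N ^ η := by
    rw [mul_pow, ← Real.rpow_natCast (N ^ (η / 3)) 3, ← Real.rpow_mul hN0.le]
    congr 2
    push_cast
    ring
  refine (sum_le_card_nsmul _ _ _ hterm).trans ?_
  rw [nsmul_eq_mul, hpow]
  have h1 : (t.SD.card : ℝ) * (3 * (t.R / z) * (1 / t.A₁) + (Real.sqrt t.R + 1)) ≤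
      3 * (t.R / z * ((((t.A₂ : ℝ) - t.A₁) / t.n + 1) / t.A₁)) + t.A₂ * (Real.sqrt t.R + 1) := by
    have h2 : (t.SD.card : ℝ) * (3 * (t.R / z) * (1 / t.A₁)) ≤
        (((t.A₂ : ℝ) - t.A₁) / t.n + 1) * (3 * (t.R / z) * (1 / t.A₁)) :=
      mul_le_mul_of_nonneg_right hcard1 (by positivity)
    have h3 : (t.SD.card : ℝ) * (Real.sqrt t.R + 1) ≤ t.A₂ * (Real.sqrt t.R + 1) :=
      mul_le_mul_of_nonneg_right hcard2 (by positivity)
    have h4 : (((t.A₂ : ℝ) - t.A₁) / t.n + 1) * (3 * (t.R / z) * (1 / t.A₁)) =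
        3 * (t.R / z * ((((t.A₂ : ℝ) - t.A₁) / t.n + 1) / t.A₁)) := by ring
    linarith
  have h5 : (0 : ℝ) ≤ t.A₂ * (Real.sqrt t.R + 1) := by positivity
  calc (t.SD.card : ℝ) * (4 * (C₁ ^ 3 * N ^ η) * (3 * (t.R / z) * (1 / t.A₁) + (Real.sqrt t.R + 1)))
      = 4 * (C₁ ^ 3 * N ^ η) * ((t.SD.card : ℝ) * (3 * (t.R / z) * (1 / t.A₁) + (Real.sqrt t.R + 1))) := by
        ring
    _ ≤ 4 * (C₁ ^ 3 * N ^ η) * (3 * (t.R / z * ((((t.A₂ : ℝ) - t.A₁) / t.n + 1) / t.A₁)) +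
        t.A₂ * (Real.sqrt t.R + 1)) := mul_le_mul_of_nonneg_left h1 (by positivity)
    _ ≤ 4 * (C₁ ^ 3 * N ^ η) * (3 * (t.R / z * ((((t.A₂ : ℝ) - t.A₁) / t.n + 1) / t.A₁)) +
        3 * (t.A₂ * (Real.sqrt t.R + 1))) := by
        apply mul_le_mul_of_nonneg_left _ (by positivity)
        linarith
    _ = _ := by ring

end

end Pool.Agent.Lib.MP391708.T1
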