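import Pool.Agent.Lib.MP_391708_nt.T1.ELP

/-!
# Theorem T1, module ECN: the number of Gaussian integers modulo `m` of given norm
-/

set_option autoImplicit false

namespace Pool.Agent.Lib.MP391708.T1

open Finset

/-- the character modulo 4 -/
noncomputable def ch (l : ℕ) : ℝ := if l % 4 = 1 then 1 else if l % 4 = 3 then -1 else 0

/-- the number of Gaussian integers `x` modulo `m` with `b N(x) ≡ a` -/
noncomputable def cn (m : ℕ) (b a : ℤ) : ℕ :=
  ((range m ×ˢ range m).filter (fun x => (m : ℤ) ∣ b * nk ((x.1 : ℤ), (x.2 : ℤ)) - a)).card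

namespace ECN

/-! ## prime moduli -/

lemma two_iff (x y : ZMod 2) : x ^ 2 + y ^ 2 = 0 ↔ x = y := by
  revert x y
  decide

section prime

variable {l : ℕ} [hl : Fact l.Prime]

/-- solutions of `x² + y² = c` -/
noncomputable def S (l : ℕ) [Fact l.Prime] (c : ZMod l) : Finset (ZMod l × ZMod l) :=
  univ.filter (fun x => x.1 ^ 2 + x.2 ^ 2 = c)

lemma card_S_eq {c : ZMod l} (hc : c ≠ 0) : (S l c).card = (S l 1).card := by
  obtain ⟨a, b, hab⟩ := ZMod.sq_add_sq l c
  symm
  refine card_bij' (fun x _ => (a * x.1 - b * x.2, a * x.2 + b * x.1))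
    (fun x _ => ((a * x.1 + b * x.2) / c, (a * x.2 - b * x.1) / c)) ?_ ?_ ?_ ?_
  · intro x hx
    rw [S, mem_filter] at hx ⊢
    refine ⟨mem_univ _, ?_⟩
    rw [← hab]
    linear_combination (a ^ 2 + b ^ 2) * hx.2
  · intro x hx
    rw [S, mem_filter] at hx ⊢
    refine ⟨mem_univ _, ?_⟩
    show ((a * x.1 + b * x.2) / c) ^ 2 + ((a * x.2 - b * x.1) / c) ^ 2 = 1
    field_simp
    rw [← hab] at hx ⊢
    linear_combination (a ^ 2 + b ^ 2) * hx.2
  · intro x hx
    ext
    · show (a * (a * x.1 - b * x.2) + b * (a * x.2 + b * x.1)) / c = x.1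
      field_simp
      rw [← hab]; ring
    · show (a * (a * x.2 + b * x.1) - b * (a * x.1 - b * x.2)) / c = x.2
      field_simp
      rw [← hab]; ring
  · intro x hx
    ext
    · show a * ((a * x.1 + b * x.2) / c) - b * ((a * x.2 - b * x.1) / c) = x.1
      field_simp
      rw [← hab]; ring
    · show a * ((a * x.2 - b * x.1) / c) + b * ((a * x.1 + b * x.2) / c) = x.2
      field_simp
      rw [← hab]; ring

lemma sum_card_S : ∑ c : ZMod l, (S l c).card = l ^ 2 := by
  have h : (univ : Finset (ZMod l × ZMod l)).card = ∑ c : ZMod l, (S l c).card := by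
    rw [card_eq_sum_card_fiberwise (f := fun x : ZMod l × ZMod l => x.1 ^ 2 + x.2 ^ 2)
      (t := univ) (fun _ _ => mem_coe.2 (mem_univ _))]
    rfl
  rw [← h, card_univ, Fintype.card_prod, ZMod.card]
  ring

lemma card_S_rel : ((S l 0).card : ℝ) + (l - 1) * (S l 1).card = (l : ℝ) ^ 2 := by
  have h := sum_card_S (l := l)
  rw [← Finset.add_sum_erase univ _ (mem_univ (0 : ZMod l)),
    sum_congr rfl (fun c hc => card_S_eq (ne_of_mem_erase hc)), sum_const,
    card_erase_of_mem (mem_univ _), card_univ, ZMod.card] at h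
  have h1 : ((l - 1 : ℕ) : ℝ) = (l : ℝ) - 1 := by
    rw [Nat.cast_sub hl.1.one_lt.le]; simp
  have h2 : (((S l 0).card + (l - 1) • (S l 1).card : ℕ) : ℝ) = ((l ^ 2 : ℕ) : ℝ) := by rw [h]
  push_cast [smul_eq_mul] at h2
  rw [h1] at h2
  exact h2

lemma card_S_zero : ((S l 0).card : ℝ) = l + (l - 1) * ch l := by
  have hl1 := hl.1
  have hodd : l = 2 ∨ l % 4 = 1 ∨ l % 4 = 3 := by
    rcases hl1.eq_two_or_odd with h | h
    · exact Or.inl h
    · omega
  rcases hodd with h2 | h4 | h4
  · subst h2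
    have hS : S 2 0 = univ.image (fun x : ZMod 2 => (x, x)) := by
      ext x
      rw [S, mem_filter, mem_image]
      constructor
      · rintro ⟨_, h⟩
        exact ⟨x.1, mem_univ _, Prod.ext rfl ((two_iff x.1 x.2).1 h)⟩
      · rintro ⟨w, -, rfl⟩
        exact ⟨mem_univ _, (two_iff w w).2 rfl⟩
    have : (S 2 0).card = 2 := by
      rw [hS, card_image_of_injective _ (fun a b h => (Prod.mk.inj h).1), card_univ, ZMod.card]
    rw [this]
    norm_num [ch]
  · -- `-1` is a square
    obtain ⟨i, hi⟩ : IsSquare (-1 : ZMod l) := (ZMod.exists_sq_eq_neg_one_iff).2 (by omega)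
    have hi0 : i ≠ 0 := by
      rintro rfl
      simp at hi
    have h2 : (2 : ZMod l) ≠ 0 := by
      intro h
      have : (l : ℕ) ∣ 2 := by
        rw [← ZMod.natCast_eq_zero_iff]
        exact_mod_cast h
      have := Nat.le_of_dvd (by norm_num) this
      have := hl1.two_le
      omega
    have hS : S l 0 = (univ.image (fun y : ZMod l => (i * y, y))) ∪
        ((univ.erase (0 : ZMod l)).image (fun y : ZMod l => (-(i * y), y))) := by
      ext ⟨x, y⟩
      rw [S, mem_filter, mem_union, mem_image, mem_image]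
      constructor
      · rintro ⟨_, h⟩
        have h' : (x - i * y) * (x + i * y) = 0 := by
          linear_combination h + y ^ 2 * hi
        rcases mul_eq_zero.1 h' with h'' | h''
        · exact Or.inl ⟨y, mem_univ _, by rw [Prod.mk.injEq]; exact ⟨by linear_combination -h'', rfl⟩⟩
        · by_cases hy : y = 0
          · subst hy
            refine Or.inl ⟨0, mem_univ _, ?_⟩
            rw [Prod.mk.injEq]
            exact ⟨by linear_combination -h'', rfl⟩
          · refine Or.inr ⟨y, mem_erase.2 ⟨hy, mem_univ _⟩, ?_⟩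
            rw [Prod.mk.injEq]
            exact ⟨by linear_combination -h'', rfl⟩
      · rintro (⟨w, -, h⟩ | ⟨w, -, h⟩)
        · rw [Prod.mk.injEq] at h
          obtain ⟨rfl, rfl⟩ := h
          exact ⟨mem_univ _, by linear_combination -(w ^ 2) * hi⟩
        · rw [Prod.mk.injEq] at h
          obtain ⟨rfl, rfl⟩ := h
          exact ⟨mem_univ _, by linear_combination -(w ^ 2) * hi⟩
    have hcard : (S l 0).card = l + (l - 1) := by
      rw [hS, card_union_of_disjoint, card_image_of_injective _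
        (fun a b h => (Prod.mk.inj h).2), card_image_of_injective _
        (fun a b h => (Prod.mk.inj h).2), card_univ, ZMod.card,
        card_erase_of_mem (mem_univ _), card_univ, ZMod.card]
      rw [disjoint_left]
      rintro ⟨x, y⟩ h1 h3
      rw [mem_image] at h1 h3
      obtain ⟨w, -, h1⟩ := h1
      obtain ⟨w', hw', h3⟩ := h3
      rw [Prod.mk.injEq] at h1 h3
      obtain ⟨h1a, h1b⟩ := h1
      obtain ⟨h3a, h3b⟩ := h3
      have hw0 := ne_of_mem_erase hw'
      have e : w = w' := by rw [h1b, h3b]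
      subst e
      have : 2 * (i * w) = 0 := by linear_combination h1a - h3a
      rcases mul_eq_zero.1 this with h | h
      · exact h2 h
      · rcases mul_eq_zero.1 h with h | h
        · exact hi0 h
        · exact hw0 h
    rw [hcard]
    have h1 : ((l - 1 : ℕ) : ℝ) = (l : ℝ) - 1 := by
      rw [Nat.cast_sub hl1.one_lt.le]; simp
    rw [Nat.cast_add, h1, ch, if_pos h4]
    ring
  · have hns : ¬ IsSquare (-1 : ZMod l) := by
      rw [ZMod.exists_sq_eq_neg_one_iff]
      omega
    have hS : S l 0 = {(0, 0)} := by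
      ext ⟨x, y⟩
      rw [S, mem_filter, mem_singleton, Prod.mk.injEq]
      constructor
      · rintro ⟨_, h⟩
        by_cases hy : y = 0
        · subst hy
          refine ⟨?_, rfl⟩
          simpa using h
        · exfalso
          apply hns
          refine ⟨x / y, ?_⟩
          field_simp
          linear_combination -h
      · rintro ⟨rfl, rfl⟩
        exact ⟨mem_univ _, by ring⟩
    rw [hS, card_singleton, ch, if_neg (by omega), if_pos h4]
    push_cast
    ring

lemma card_S_one : ((S l 1).card : ℝ) = l - ch l := by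
  have h1 := card_S_rel (l := l)
  rw [card_S_zero] at h1
  have h2 : ((l : ℝ) - 1) ≠ 0 := by
    have : (1 : ℝ) < l := by exact_mod_cast hl.1.one_lt
    linarith
  have h3 : ((l : ℝ) - 1) * (S l 1).card = (l - 1) * (l - ch l) := by linear_combination h1
  exact mul_left_cancel₀ h2 h3

lemma cn_eq_card {b a : ℤ} (hb : ¬ (l : ℤ) ∣ b) : cn l b a = (S l ((a : ZMod l) / (b : ZMod l))).card := by
  have hb0 : (b : ZMod l) ≠ 0 := by
    rw [Ne, ZMod.intCast_zmod_eq_zero_iff_dvd]; exact hb
  unfold cn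
  refine card_bij' (fun x _ => ((x.1 : ZMod l), (x.2 : ZMod l)))
    (fun x _ => (x.1.val, x.2.val)) ?_ ?_ ?_ ?_
  · intro x hx
    rw [mem_filter] at hx
    rw [S, mem_filter]
    refine ⟨mem_univ _, ?_⟩
    have h := (ZMod.intCast_zmod_eq_zero_iff_dvd _ l).2 hx.2
    unfold nk at h
    push_cast at h
    show (x.1 : ZMod l) ^ 2 + (x.2 : ZMod l) ^ 2 = _
    rw [eq_div_iff hb0]
    linear_combination h
  · intro x hx
    rw [S, mem_filter] at hx
    rw [mem_filter, mem_product, mem_range, mem_range]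
    refine ⟨⟨ZMod.val_lt _, ZMod.val_lt _⟩, ?_⟩
    rw [← ZMod.intCast_zmod_eq_zero_iff_dvd]
    unfold nk
    push_cast
    rw [ZMod.natCast_zmod_val, ZMod.natCast_zmod_val]
    have h := hx.2
    rw [eq_div_iff hb0] at h
    linear_combination h
  · intro x hx
    rw [mem_filter, mem_product, mem_range, mem_range] at hx
    ext
    · exact ZMod.val_cast_of_lt hx.1.1
    · exact ZMod.val_cast_of_lt hx.1.2
  · intro x hx
    ext
    · simp
    · simp

lemma cn_prime_unit {b a : ℤ} (hb : ¬ (l : ℤ) ∣ b) (ha : ¬ (l : ℤ) ∣ a) :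
    (cn l b a : ℝ) = l - ch l := by
  rw [cn_eq_card hb, card_S_eq, card_S_one]
  have hb0 : (b : ZMod l) ≠ 0 := by
    rw [Ne, ZMod.intCast_zmod_eq_zero_iff_dvd]; exact hb
  have ha0 : (a : ZMod l) ≠ 0 := by
    rw [Ne, ZMod.intCast_zmod_eq_zero_iff_dvd]; exact ha
  exact div_ne_zero ha0 hb0

lemma cn_prime_zero {b a : ℤ} (hb : ¬ (l : ℤ) ∣ b) (ha : (l : ℤ) ∣ a) :
    (cn l b a : ℝ) = l + (l - 1) * ch l := by
  have ha0 : (a : ZMod l) = 0 := (ZMod.intCast_zmod_eq_zero_iff_dvd _ l).2 ha
  rw [cn_eq_card hb, ha0, zero_div, card_S_zero]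

end prime

end ECN

end Pool.Agent.Lib.MP391708.T1
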