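import Pool.Agent.Lib.MP_391708_nt.T1.ECRT

/-!
# Theorem T1, module ECR2: sums over residue classes, moduli `l ^ j`
-/

set_option autoImplicit false

namespace Pool.Agent.Lib.MP391708.T1

open Finset

namespace ECRT

lemma coprime_prodj {p a : ℕ} {Q : Finset ℕ} {j : ℕ → ℕ} (hp : p.Prime) (hQ : ∀ l ∈ Q, l.Prime)
    (h : p ∉ Q) : Nat.Coprime (p ^ a) (∏ l ∈ Q, l ^ j l) := by
  refine Nat.Coprime.prod_right fun l hl => Nat.Coprime.pow _ _ ?_
  rw [Nat.coprime_primes hp (hQ l hl)]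
  rintro rfl
  exact h hl

/-- product over a set of primes, moduli `l ^ j l` -/
theorem crt_prodj (Q : Finset ℕ) (hQ : ∀ l ∈ Q, l.Prime) (j : ℕ → ℕ) (f : ℕ → ℕ → ℝ)
    (hf : ∀ l ∈ Q, ∀ x, f l (x % l ^ j l) = f l x) :
    ∑ x ∈ range (∏ l ∈ Q, l ^ j l), ∏ l ∈ Q, f l x = ∏ l ∈ Q, ∑ x ∈ range (l ^ j l), f l x := by
  induction Q using Finset.induction_on with
  | empty => simp
  | insert p Q hp ih =>
    have hpp : p.Prime := hQ p (mem_insert_self _ _)
    have hQ' : ∀ l ∈ Q, l.Prime := fun l hl => hQ l (mem_insert_of_mem hl)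
    have hf' : ∀ l ∈ Q, ∀ x, f l (x % l ^ j l) = f l x := fun l hl => hf l (mem_insert_of_mem hl)
    have hpos : 0 < ∏ l ∈ Q, l ^ j l := prod_pos fun l hl => pow_pos (hQ' l hl).pos _
    rw [prod_insert hp, prod_insert hp, ← ih hQ' hf']
    simp only [prod_insert hp]
    exact crt_mul (coprime_prodj hpp hQ' hp) (pow_pos hpp.pos _) hpos (f p)
      (fun x => ∏ l ∈ Q, f l x) (hf p (mem_insert_self _ _)) (fun x => prod_congr rfl fun l hl =>
        mod_of_dvd (hf' l hl) (dvd_prod_of_mem (fun i => i ^ j i) hl) x)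

theorem cn_prodj (Q : Finset ℕ) (hQ : ∀ l ∈ Q, l.Prime) (j : ℕ → ℕ) (b a : ℤ) :
    (cn (∏ l ∈ Q, l ^ j l) b a : ℝ) = ∏ l ∈ Q, (cn (l ^ j l) b a : ℝ) := by
  induction Q using Finset.induction_on with
  | empty =>
    rw [cn_eq_sum]
    simp
  | insert p Q hp ih =>
    have hpp : p.Prime := hQ p (mem_insert_self _ _)
    have hQ' : ∀ l ∈ Q, l.Prime := fun l hl => hQ l (mem_insert_of_mem hl)
    have hpos : 0 < ∏ l ∈ Q, l ^ j l := prod_pos fun l hl => pow_pos (hQ' l hl).pos _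
    rw [prod_insert hp, prod_insert hp, cn_mul (coprime_prodj hpp hQ' hp) (pow_pos hpp.pos _) hpos,
      ih hQ']

/-- multiplication by a unit permutes the classes -/
theorem perm_sum {q : ℕ} (hq : 0 < q) {a : ℕ} (ha : a.Coprime q) (c : ℕ) (f : ℕ → ℝ)
    (hf : ∀ x, f (x % q) = f x) : ∑ x ∈ range q, f (c + a * x) = ∑ x ∈ range q, f x := by
  have h1 : ∑ x ∈ range q, f (c + a * x) = ∑ x ∈ range q, f ((c + a * x) % q) :=
    sum_congr rfl fun x _ => (hf _).symm
  rw [h1]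
  have hinj : Set.InjOn (fun x : ℕ => (c + a * x) % q) (range q) := by
    intro x hx y hy h
    rw [mem_coe, mem_range] at hx hy
    have h2 : c + a * x ≡ c + a * y [MOD q] := h
    have h3 : a * x ≡ a * y [MOD q] := Nat.ModEq.add_left_cancel' c h2
    have h4 : x ≡ y [MOD q] := Nat.ModEq.cancel_left_of_coprime (by rw [Nat.gcd_comm]; exact ha) h3
    exact Nat.ModEq.eq_of_lt_of_lt h4 hx hy
  have himg : (range q).image (fun x : ℕ => (c + a * x) % q) = range q := by
    refine eq_of_subset_of_card_le ?_ ?_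
    · intro y hy
      rw [mem_image] at hy
      obtain ⟨x, -, rfl⟩ := hy
      rw [mem_range]
      exact Nat.mod_lt _ hq
    · rw [card_image_of_injOn hinj]
  conv_rhs => rw [← himg]
  rw [sum_image hinj]

end ECRT

end Pool.Agent.Lib.MP391708.T1
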