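import Pool.Agent.Lib.MP_391708_nt.T1.ECN

/-!
# Theorem T1, module ECRT: sums over residue classes
-/

set_option autoImplicit false

namespace Pool.Agent.Lib.MP391708.T1

open Finset

namespace ECRT

/-- a periodic function over several periods -/
lemma per_sum {r : ℕ} (f : ℕ → ℝ) (hf : ∀ x, f (x % r) = f x) (s : ℕ) :
    ∑ x ∈ range (r * s), f x = s * ∑ x ∈ range r, f x := by
  induction s with
  | zero => simp
  | succ s ih =>
    rw [Nat.mul_succ, sum_range_add, ih]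
    have : ∑ x ∈ range r, f (r * s + x) = ∑ x ∈ range r, f x := by
      refine sum_congr rfl fun x hx => ?_
      rw [← hf (r * s + x), Nat.mul_add_mod, Nat.mod_eq_of_lt (mem_range.1 hx)]
    rw [this]
    push_cast
    ring

/-- Chinese remainder theorem, one variable -/
lemma crt_sum {m n : ℕ} (hmn : Nat.Coprime m n) (hm : 0 < m) (hn : 0 < n) (F : ℕ → ℕ → ℝ) :
    ∑ x ∈ range (m * n), F (x % m) (x % n) = ∑ y ∈ range m, ∑ y' ∈ range n, F y y' := by
  have hinj : Set.InjOn (fun x : ℕ => (x % m, x % n)) (range (m * n)) := by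
    intro x hx y hy h
    rw [mem_coe, mem_range] at hx hy
    simp only [Prod.mk.injEq] at h
    have h1 : x ≡ y [MOD m * n] := (Nat.modEq_and_modEq_iff_modEq_mul hmn).1 ⟨h.1, h.2⟩
    exact Nat.ModEq.eq_of_lt_of_lt h1 hx hy
  have himg : (range (m * n)).image (fun x : ℕ => (x % m, x % n)) = range m ×ˢ range n := by
    refine eq_of_subset_of_card_le ?_ ?_
    · intro y hy
      rw [mem_image] at hy
      obtain ⟨x, -, rfl⟩ := hy
      rw [mem_product, mem_range, mem_range]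
      exact ⟨Nat.mod_lt _ hm, Nat.mod_lt _ hn⟩
    · rw [card_image_of_injOn hinj, card_product, card_range, card_range, card_range]
  rw [← sum_product (range m) (range n) (fun y => F y.1 y.2), ← himg, sum_image hinj]

/-- a product of two functions, one variable -/
lemma crt_mul {m n : ℕ} (hmn : Nat.Coprime m n) (hm : 0 < m) (hn : 0 < n)
    (f g : ℕ → ℝ) (hf : ∀ x, f (x % m) = f x) (hg : ∀ x, g (x % n) = g x) :
    ∑ x ∈ range (m * n), f x * g x = (∑ x ∈ range m, f x) * ∑ x ∈ range n, g x := by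
  have h := crt_sum hmn hm hn (fun a b => f a * g b)
  simp only [hf, hg] at h
  rw [h, sum_mul_sum]

/-- a product of two functions, two variables -/
lemma crt_mul2 {m n : ℕ} (hmn : Nat.Coprime m n) (hm : 0 < m) (hn : 0 < n)
    (f g : ℕ → ℕ → ℝ) (hf : ∀ x y, f (x % m) (y % m) = f x y)
    (hg : ∀ x y, g (x % n) (y % n) = g x y) :
    ∑ x ∈ range (m * n), ∑ y ∈ range (m * n), f x y * g x y =
      (∑ x ∈ range m, ∑ y ∈ range m, f x y) * ∑ x ∈ range n, ∑ y ∈ range n, g x y := by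
  have h1 : ∀ x : ℕ, ∑ y ∈ range (m * n), f x y * g x y =
      (∑ y ∈ range m, f (x % m) y) * ∑ y ∈ range n, g (x % n) y := by
    intro x
    rw [← crt_mul hmn hm hn (fun y => f (x % m) y) (fun y => g (x % n) y)
      (fun y => by
        have h1 := hf (x % m) (y % m); have h2 := hf (x % m) y
        rw [Nat.mod_mod, Nat.mod_mod] at h1
        rw [Nat.mod_mod] at h2
        rw [← h2])
      (fun y => by
        have h2 := hg (x % n) y
        rw [Nat.mod_mod] at h2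
        rw [← h2])]
    refine sum_congr rfl fun y _ => ?_
    have e1 : f (x % m) y = f x y := by
      rw [← hf (x % m) y, Nat.mod_mod, hf]
    have e2 : g (x % n) y = g x y := by
      rw [← hg (x % n) y, Nat.mod_mod, hg]
    rw [e1, e2]
  simp only [h1]
  have h2 := crt_sum hmn hm hn (fun a b => (∑ y ∈ range m, f a y) * ∑ y ∈ range n, g b y)
  rw [h2, sum_mul_sum]

lemma coprime_prod {p : ℕ} {Q : Finset ℕ} (hp : p.Prime) (hQ : ∀ l ∈ Q, l.Prime) (h : p ∉ Q) :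
    Nat.Coprime p (∏ l ∈ Q, l) := by
  refine Nat.Coprime.prod_right fun l hl => ?_
  rw [Nat.coprime_primes hp (hQ l hl)]
  rintro rfl
  exact h hl

lemma mod_of_dvd {f : ℕ → ℝ} {l m : ℕ} (hf : ∀ x, f (x % l) = f x) (h : l ∣ m) (x : ℕ) :
    f (x % m) = f x := by
  rw [← hf (x % m), Nat.mod_mod_of_dvd x h, hf]

/-- product over a set of primes, one variable -/
theorem crt_prod (Q : Finset ℕ) (hQ : ∀ l ∈ Q, l.Prime) (f : ℕ → ℕ → ℝ)
    (hf : ∀ l ∈ Q, ∀ x, f l (x % l) = f l x) :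
    ∑ x ∈ range (∏ l ∈ Q, l), ∏ l ∈ Q, f l x = ∏ l ∈ Q, ∑ x ∈ range l, f l x := by
  induction Q using Finset.induction_on with
  | empty => simp
  | insert p Q hp ih =>
    have hpp : p.Prime := hQ p (mem_insert_self _ _)
    have hQ' : ∀ l ∈ Q, l.Prime := fun l hl => hQ l (mem_insert_of_mem hl)
    have hf' : ∀ l ∈ Q, ∀ x, f l (x % l) = f l x := fun l hl => hf l (mem_insert_of_mem hl)
    have hpos : 0 < ∏ l ∈ Q, l := prod_pos fun l hl => (hQ' l hl).pos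
    rw [prod_insert hp, prod_insert hp, ← ih hQ' hf']
    simp only [prod_insert hp]
    exact crt_mul (coprime_prod hpp hQ' hp) hpp.pos hpos (f p) (fun x => ∏ l ∈ Q, f l x)
      (hf p (mem_insert_self _ _)) (fun x => prod_congr rfl fun l hl =>
        mod_of_dvd (hf' l hl) (dvd_prod_of_mem (fun i => i) hl) x)

lemma mod_of_dvd2 {f : ℕ → ℕ → ℝ} {l m : ℕ} (hf : ∀ x y, f (x % l) (y % l) = f x y) (h : l ∣ m)
    (x y : ℕ) : f (x % m) (y % m) = f x y := by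
  rw [← hf (x % m) (y % m), Nat.mod_mod_of_dvd x h, Nat.mod_mod_of_dvd y h, hf]

/-- product over a set of primes, two variables -/
theorem crt_prod2 (Q : Finset ℕ) (hQ : ∀ l ∈ Q, l.Prime) (f : ℕ → ℕ → ℕ → ℝ)
    (hf : ∀ l ∈ Q, ∀ x y, f l (x % l) (y % l) = f l x y) :
    ∑ x ∈ range (∏ l ∈ Q, l), ∑ y ∈ range (∏ l ∈ Q, l), ∏ l ∈ Q, f l x y =
      ∏ l ∈ Q, ∑ x ∈ range l, ∑ y ∈ range l, f l x y := by
  induction Q using Finset.induction_on with
  | empty => simp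
  | insert p Q hp ih =>
    have hpp : p.Prime := hQ p (mem_insert_self _ _)
    have hQ' : ∀ l ∈ Q, l.Prime := fun l hl => hQ l (mem_insert_of_mem hl)
    have hf' : ∀ l ∈ Q, ∀ x y, f l (x % l) (y % l) = f l x y :=
      fun l hl => hf l (mem_insert_of_mem hl)
    have hpos : 0 < ∏ l ∈ Q, l := prod_pos fun l hl => (hQ' l hl).pos
    rw [prod_insert hp, prod_insert hp, ← ih hQ' hf']
    simp only [prod_insert hp]
    exact crt_mul2 (coprime_prod hpp hQ' hp) hpp.pos hpos (f p) (fun x y => ∏ l ∈ Q, f l x y)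
      (hf p (mem_insert_self _ _)) (fun x y => prod_congr rfl fun l hl =>
        mod_of_dvd2 (hf' l hl) (dvd_prod_of_mem (fun i => i) hl) x y)

/-! ## `cn` -/

lemma cn_eq_sum (m : ℕ) (b a : ℤ) : (cn m b a : ℝ) = ∑ x ∈ range m, ∑ y ∈ range m,
    if (m : ℤ) ∣ b * nk ((x : ℤ), (y : ℤ)) - a then (1 : ℝ) else 0 := by
  unfold cn
  rw [card_filter, Nat.cast_sum, sum_product]
  refine sum_congr rfl fun x _ => sum_congr rfl fun y _ => ?_
  push_cast
  rfl

lemma nk_mod (m : ℕ) (x y : ℕ) : (m : ℤ) ∣ nk ((x : ℤ), (y : ℤ)) - nk (((x % m : ℕ) : ℤ), ((y % m : ℕ) : ℤ)) := by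
  have h : ∀ z : ℕ, (m : ℤ) ∣ (z : ℤ) - ((z % m : ℕ) : ℤ) := by
    intro z
    rw [Int.natCast_mod]
    exact Int.dvd_self_sub_emod
  unfold nk
  have e : ((x : ℤ)) ^ 2 + (y : ℤ) ^ 2 - (((x % m : ℕ) : ℤ) ^ 2 + ((y % m : ℕ) : ℤ) ^ 2) =
      ((x : ℤ) - ((x % m : ℕ) : ℤ)) * ((x : ℤ) + ((x % m : ℕ) : ℤ)) +
      ((y : ℤ) - ((y % m : ℕ) : ℤ)) * ((y : ℤ) + ((y % m : ℕ) : ℤ)) := by ring
  show (m : ℤ) ∣ (x : ℤ) ^ 2 + (y : ℤ) ^ 2 - (((x % m : ℕ) : ℤ) ^ 2 + ((y % m : ℕ) : ℤ) ^ 2)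
  rw [e]
  exact dvd_add (dvd_mul_of_dvd_left (h x) _) (dvd_mul_of_dvd_left (h y) _)

lemma dvd_cn_mod (m : ℕ) (b a : ℤ) (x y : ℕ) :
    ((m : ℤ) ∣ b * nk (((x % m : ℕ) : ℤ), ((y % m : ℕ) : ℤ)) - a) ↔
      (m : ℤ) ∣ b * nk ((x : ℤ), (y : ℤ)) - a := by
  have h := dvd_mul_of_dvd_right (nk_mod m x y) b
  have e : b * nk ((x : ℤ), (y : ℤ)) - a = b * (nk ((x : ℤ), (y : ℤ)) - nk (((x % m : ℕ) : ℤ), ((y % m : ℕ) : ℤ)))
    + (b * nk (((x % m : ℕ) : ℤ), ((y % m : ℕ) : ℤ)) - a) := by ring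
  rw [e]
  exact (dvd_add_right h).symm

/-- multiplicativity in the modulus -/
theorem cn_mul {m n : ℕ} (hmn : Nat.Coprime m n) (hm : 0 < m) (hn : 0 < n) (b a : ℤ) :
    (cn (m * n) b a : ℝ) = cn m b a * cn n b a := by
  rw [cn_eq_sum, cn_eq_sum, cn_eq_sum]
  rw [← crt_mul2 hmn hm hn
    (fun x y => if (m : ℤ) ∣ b * nk ((x : ℤ), (y : ℤ)) - a then (1 : ℝ) else 0)
    (fun x y => if (n : ℤ) ∣ b * nk ((x : ℤ), (y : ℤ)) - a then (1 : ℝ) else 0)
    (fun x y => by simp only [dvd_cn_mod]) (fun x y => by simp only [dvd_cn_mod])]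
  refine sum_congr rfl fun x _ => sum_congr rfl fun y _ => ?_
  have hc : IsCoprime (m : ℤ) (n : ℤ) := Nat.isCoprime_iff_coprime.2 hmn
  have hiff : ((m * n : ℕ) : ℤ) ∣ b * nk ((x : ℤ), (y : ℤ)) - a ↔
      (m : ℤ) ∣ b * nk ((x : ℤ), (y : ℤ)) - a ∧ (n : ℤ) ∣ b * nk ((x : ℤ), (y : ℤ)) - a := by
    push_cast
    constructor
    · intro h
      exact ⟨(dvd_mul_right _ _).trans h, (dvd_mul_left _ _).trans h⟩
    · rintro ⟨h1, h2⟩
      exact hc.mul_dvd h1 h2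
  by_cases h1 : (m : ℤ) ∣ b * nk ((x : ℤ), (y : ℤ)) - a
  · by_cases h2 : (n : ℤ) ∣ b * nk ((x : ℤ), (y : ℤ)) - a
    · rw [if_pos (hiff.2 ⟨h1, h2⟩), if_pos h1, if_pos h2, one_mul]
    · rw [if_neg (fun h => h2 (hiff.1 h).2), if_neg h2, mul_zero]
  · rw [if_neg (fun h => h1 (hiff.1 h).1), if_neg h1, zero_mul]

/-- product over a set of primes -/
theorem cn_prod (Q : Finset ℕ) (hQ : ∀ l ∈ Q, l.Prime) (b a : ℤ) :
    (cn (∏ l ∈ Q, l) b a : ℝ) = ∏ l ∈ Q, (cn l b a : ℝ) := by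
  induction Q using Finset.induction_on with
  | empty =>
    rw [cn_eq_sum]
    simp
  | insert p Q hp ih =>
    have hpp : p.Prime := hQ p (mem_insert_self _ _)
    have hQ' : ∀ l ∈ Q, l.Prime := fun l hl => hQ l (mem_insert_of_mem hl)
    have hpos : 0 < ∏ l ∈ Q, l := prod_pos fun l hl => (hQ' l hl).pos
    rw [prod_insert hp, prod_insert hp, cn_mul (coprime_prod hpp hQ' hp) hpp.pos hpos, ih hQ']

/-- `cn` depends only on the class of `a` -/
lemma cn_congr {m : ℕ} {b a a' : ℤ} (h : (m : ℤ) ∣ a - a') : cn m b a = cn m b a' := by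
  unfold cn
  congr 1
  refine filter_congr fun x _ => ?_
  have e : b * nk ((x.1 : ℤ), (x.2 : ℤ)) - a' =
    (b * nk ((x.1 : ℤ), (x.2 : ℤ)) - a) + (a - a') := by ring
  rw [e]
  exact (dvd_add_left h).symm

end ECRT

end Pool.Agent.Lib.MP391708.T1
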