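import Pool.Agent.Lib.MP_391708_nt.T1.ESpecB

/-!
# Theorem T1, module ERT: representations of squarefree numbers as sums of two squares
-/

set_option autoImplicit false

namespace Pool.Agent.Lib.MP391708.T1

open Finset

noncomputable section

namespace ERT

/-- all representations -/
def S (m : ℕ) : Finset (ℤ × ℤ) := (dk m).filter (fun k => nk k = m)

lemma mem_S {m : ℕ} {k : ℤ × ℤ} : k ∈ S m ↔ nk k = m := by
  rw [S, mem_filter, mem_dk]
  exact ⟨fun h => h.2, fun h => ⟨h.le, h⟩⟩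

lemma filter_eq {m R : ℕ} (h : m ≤ R) : (dk R).filter (fun k => nk k = m) = S m := by
  ext k
  rw [mem_filter, mem_dk, mem_S]
  refine ⟨fun h => h.2, fun h2 => ⟨?_, h2⟩⟩
  rw [h2]
  exact_mod_cast h

lemma card_S_one : (S 1).card = 4 := by
  have h : S 1 = {(1, 0), (-1, 0), (0, 1), (0, -1)} := by
    ext k
    rw [mem_S]
    obtain ⟨x, y⟩ := k
    simp only [nk, mem_insert, mem_singleton, Prod.mk.injEq, Nat.cast_one]
    constructor
    · intro h
      have hx : -1 ≤ x ∧ x ≤ 1 := ⟨by nlinarith [sq_nonneg y, sq_nonneg (x - 1)],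
        by nlinarith [sq_nonneg y, sq_nonneg (x + 1)]⟩
      have hy : -1 ≤ y ∧ y ≤ 1 := ⟨by nlinarith [sq_nonneg x, sq_nonneg (y - 1)],
        by nlinarith [sq_nonneg x, sq_nonneg (y + 1)]⟩
      obtain ⟨hx1, hx2⟩ := hx
      obtain ⟨hy1, hy2⟩ := hy
      interval_cases x <;> interval_cases y <;> simp_all
    · rintro (⟨rfl, rfl⟩ | ⟨rfl, rfl⟩ | ⟨rfl, rfl⟩ | ⟨rfl, rfl⟩) <;> norm_num
  rw [h]
  rfl

/-- division by the Gaussian integer `a + b i` -/
lemma card_half {p m : ℕ} (hp : p.Prime) {a b : ℤ} (hab : a ^ 2 + b ^ 2 = p) :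
    ((S (p * m)).filter (fun x => (p : ℤ) ∣ a * x.1 + b * x.2)).card = (S m).card := by
  have hp0 : (p : ℤ) ≠ 0 := by exact_mod_cast hp.ne_zero
  have hpp : Prime (p : ℤ) := Nat.prime_iff_prime_int.mp hp
  refine card_bij' (fun x _ => ((a * x.1 + b * x.2) / p, (a * x.2 - b * x.1) / p))
    (fun y _ => (a * y.1 - b * y.2, a * y.2 + b * y.1)) ?_ ?_ ?_ ?_
  · intro x hx
    rw [mem_filter, mem_S] at hx
    obtain ⟨h1, u, hu⟩ := hx
    rw [nk, Nat.cast_mul] at h1
    have h2 : (p : ℤ) ∣ a * x.2 - b * x.1 := by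
      apply hpp.dvd_of_dvd_pow (n := 2)
      refine ⟨p * m - p * u ^ 2, ?_⟩
      linear_combination (a ^ 2 + b ^ 2) * h1 + (p : ℤ) * m * hab - (a * x.1 + b * x.2 + p * u) * hu
    obtain ⟨v, hv⟩ := h2
    rw [mem_S]
    show nk ((a * x.1 + b * x.2) / p, (a * x.2 - b * x.1) / p) = m
    rw [hu, hv, Int.mul_ediv_cancel_left _ hp0, Int.mul_ediv_cancel_left _ hp0, nk]
    apply mul_left_cancel₀ (pow_ne_zero 2 hp0)
    show (p : ℤ) ^ 2 * (u ^ 2 + v ^ 2) = (p : ℤ) ^ 2 * m
    linear_combination -(a * x.1 + b * x.2 + p * u) * hu - (a * x.2 - b * x.1 + p * v) * hv +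
      (a ^ 2 + b ^ 2) * h1 + (p : ℤ) * m * hab
  · intro y hy
    rw [mem_S, nk] at hy
    rw [mem_filter, mem_S]
    refine ⟨?_, y.1, ?_⟩
    · show nk (a * y.1 - b * y.2, a * y.2 + b * y.1) = ((p * m : ℕ) : ℤ)
      rw [nk, Nat.cast_mul]
      show (a * y.1 - b * y.2) ^ 2 + (a * y.2 + b * y.1) ^ 2 = (p : ℤ) * m
      linear_combination (a ^ 2 + b ^ 2) * hy + (m : ℤ) * hab
    · show a * (a * y.1 - b * y.2) + b * (a * y.2 + b * y.1) = (p : ℤ) * y.1
      linear_combination y.1 * hab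
  · intro x hx
    rw [mem_filter, mem_S] at hx
    obtain ⟨h1, u, hu⟩ := hx
    rw [nk, Nat.cast_mul] at h1
    have h2 : (p : ℤ) ∣ a * x.2 - b * x.1 := by
      apply hpp.dvd_of_dvd_pow (n := 2)
      refine ⟨p * m - p * u ^ 2, ?_⟩
      linear_combination (a ^ 2 + b ^ 2) * h1 + (p : ℤ) * m * hab - (a * x.1 + b * x.2 + p * u) * hu
    obtain ⟨v, hv⟩ := h2
    simp only
    rw [hu, hv, Int.mul_ediv_cancel_left _ hp0, Int.mul_ediv_cancel_left _ hp0]
    ext
    · show a * u - b * v = x.1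
      apply mul_left_cancel₀ hp0
      linear_combination -a * hu + b * hv + x.1 * hab
    · show a * v + b * u = x.2
      apply mul_left_cancel₀ hp0
      linear_combination -a * hv - b * hu + x.2 * hab
  · intro y hy
    ext
    · show (a * (a * y.1 - b * y.2) + b * (a * y.2 + b * y.1)) / (p : ℤ) = y.1
      have : a * (a * y.1 - b * y.2) + b * (a * y.2 + b * y.1) = (p : ℤ) * y.1 := by
        linear_combination y.1 * hab
      rw [this, Int.mul_ediv_cancel_left _ hp0]
    · show (a * (a * y.2 + b * y.1) - b * (a * y.1 - b * y.2)) / (p : ℤ) = y.2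
      have : a * (a * y.2 + b * y.1) - b * (a * y.1 - b * y.2) = (p : ℤ) * y.2 := by
        linear_combination y.2 * hab
      rw [this, Int.mul_ediv_cancel_left _ hp0]

lemma card_mul {p m : ℕ} (hp : p.Prime) (h4 : p % 4 = 1) (hm : ¬ p ∣ m) :
    (S (p * m)).card = 2 * (S m).card := by
  haveI := Fact.mk hp
  obtain ⟨a', b', hab'⟩ := Nat.Prime.sq_add_sq (p := p) (by omega)
  have hab : (a' : ℤ) ^ 2 + (b' : ℤ) ^ 2 = p := by exact_mod_cast hab'
  have hab2 : (a' : ℤ) ^ 2 + (-(b' : ℤ)) ^ 2 = p := by linear_combination hab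
  have hpp : Prime (p : ℤ) := Nat.prime_iff_prime_int.mp hp
  have h1 : S (p * m) = (S (p * m)).filter (fun x => (p : ℤ) ∣ (a' : ℤ) * x.1 + b' * x.2) ∪
      (S (p * m)).filter (fun x => (p : ℤ) ∣ (a' : ℤ) * x.1 + -(b' : ℤ) * x.2) := by
    ext x
    rw [mem_union, mem_filter, mem_filter, ← and_or_left]
    refine ⟨fun hx => ⟨hx, ?_⟩, fun hx => hx.1⟩
    rw [mem_S, nk, Nat.cast_mul] at hx
    apply hpp.dvd_or_dvd
    refine ⟨(a' : ℤ) ^ 2 * m - x.2 ^ 2, ?_⟩
    linear_combination (a' : ℤ) ^ 2 * hx - x.2 ^ 2 * hab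
  have ha : ¬ (p : ℤ) ∣ 2 * a' := by
    intro h
    rcases hpp.dvd_or_dvd h with h | h
    · have h5 : p ∣ 2 := by exact_mod_cast h
      have := Nat.le_of_dvd (by norm_num) h5
      interval_cases p <;> omega
    · have h5 : p ∣ a' := by exact_mod_cast h
      have ha0 : a' ≠ 0 := by
        rintro rfl
        have h6 : b' * b' = p := by rw [← hab']; ring
        have h7 := hp
        rw [← h6, Nat.prime_mul_iff] at h7
        rcases h7 with ⟨h7, h8⟩ | ⟨h7, h8⟩ <;> exact h7.one_lt.ne' h8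
      have h6 := Nat.le_of_dvd (Nat.pos_of_ne_zero ha0) h5
      have h7 : a' * a' ≤ p := by nlinarith [sq_nonneg b']
      have h8 : 2 ≤ p := hp.two_le
      nlinarith
  have h2 : Disjoint ((S (p * m)).filter (fun x => (p : ℤ) ∣ (a' : ℤ) * x.1 + b' * x.2))
      ((S (p * m)).filter (fun x => (p : ℤ) ∣ (a' : ℤ) * x.1 + -(b' : ℤ) * x.2)) := by
    rw [disjoint_left]
    intro x hx hy
    rw [mem_filter, mem_S, nk, Nat.cast_mul] at hx hy
    have h3 : (p : ℤ) ∣ 2 * a' * x.1 := by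
      obtain ⟨c, hc⟩ := hx.2
      obtain ⟨d, hd⟩ := hy.2
      exact ⟨c + d, by linear_combination hc + hd⟩
    have h4 : (p : ℤ) ∣ x.1 := (hpp.dvd_or_dvd h3).resolve_left ha
    have h5 : (p : ℤ) ∣ x.2 := by
      apply hpp.dvd_of_dvd_pow (n := 2)
      obtain ⟨c, hc⟩ := h4
      refine ⟨m - c * x.1, ?_⟩
      linear_combination hx.1 - x.1 * hc
    obtain ⟨c, hc⟩ := h4
    obtain ⟨d, hd⟩ := h5
    apply hm
    have h6 : (p : ℤ) ∣ m := by
      refine ⟨c ^ 2 + d ^ 2, ?_⟩
      apply mul_left_cancel₀ (show (p : ℤ) ≠ 0 by exact_mod_cast hp.ne_zero)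
      rw [← hx.1, hc, hd]
      ring
    exact_mod_cast h6
  rw [h1, card_union_of_disjoint h2, card_half hp hab, card_half hp hab2]
  ring

theorem card_S (m : ℕ) : 0 < m → Squarefree m → (∀ l : ℕ, l.Prime → l ∣ m → l % 4 = 1) →
    (S m).card = 4 * 2 ^ m.primeFactors.card := by
  induction m using Nat.strong_induction_on with
  | _ m ih =>
    intro h0 hs hl
    rcases eq_or_ne m 1 with rfl | h1
    · rw [card_S_one]
      simp
    · have hp : m.minFac.Prime := Nat.minFac_prime h1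
      obtain ⟨m', hm'⟩ := Nat.minFac_dvd m
      set p := m.minFac with hpdef
      have hm0 : 0 < m' := by
        rcases Nat.eq_zero_or_pos m' with h | h
        · rw [h] at hm'; omega
        · exact h
      have hpm : ¬ p ∣ m' := by
        intro h
        obtain ⟨c, hc⟩ := h
        have h3 : p * p ∣ m := ⟨c, by rw [hm', hc]; ring⟩
        have h4 := hs p h3
        exact hp.one_lt.ne' (Nat.isUnit_iff.mp h4)
      have hlt : m' < m := by
        rw [hm']
        have := hp.one_lt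
        nlinarith
      have hs' : Squarefree m' := by
        rw [hm'] at hs
        exact hs.of_mul_right
      have h5 := ih m' hlt hm0 hs' (fun l hl1 hl2 => hl l hl1 (hm' ▸ hl2.mul_left p))
      rw [hm', card_mul hp (hl p hp ⟨m', hm'⟩) hpm, h5]
      rw [Nat.primeFactors_mul hp.ne_zero hm0.ne', hp.primeFactors, singleton_union,
        card_insert_of_notMem (fun h => hpm (Nat.dvd_of_mem_primeFactors h)), pow_succ]
      ring

end ERT

theorem specERT : SpecERT := by
  intro m R h0 hs hl hR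
  rw [ERT.filter_eq hR]
  exact ERT.card_S m h0 hs hl

end

end Pool.Agent.Lib.MP391708.T1
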