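import Pool.Agent.Lib.MP_391708_nt.T4.Defs

/-!
# Theorem T1: the quantifier `Good`
-/

set_option autoImplicit false

namespace Pool.Agent.Lib.MP391708.T4

lemma Good.mono {φ ψ : Prm → Prop} (hφ : Good φ) (h : ∀ p, φ p → ψ p) : Good ψ := by
  obtain ⟨E₀, hE⟩ := hφ
  refine ⟨E₀, fun E hE' => ?_⟩
  obtain ⟨K₀, hK⟩ := hE E hE'
  refine ⟨K₀, fun K hK' => ?_⟩
  obtain ⟨r₀, hr⟩ := hK K hK'
  refine ⟨r₀, fun r hr' => ?_⟩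
  obtain ⟨k₀, hk⟩ := hr r hr'
  refine ⟨k₀, fun k hk' => ?_⟩
  obtain ⟨ζ₀, hζ0, hζ⟩ := hk k hk'
  exact ⟨ζ₀, hζ0, fun ζ h1 h2 => h _ (hζ ζ h1 h2)⟩

lemma Good.and {φ ψ : Prm → Prop} (hφ : Good φ) (hψ : Good ψ) : Good (fun p => φ p ∧ ψ p) := by
  obtain ⟨E₀, hE⟩ := hφ
  obtain ⟨E₁, hE₁⟩ := hψ
  refine ⟨max E₀ E₁, fun E hE' => ?_⟩
  obtain ⟨K₀, hK⟩ := hE E ((le_max_left _ _).trans hE')
  obtain ⟨K₁, hK₁⟩ := hE₁ E ((le_max_right _ _).trans hE')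
  refine ⟨max K₀ K₁, fun K hK' => ?_⟩
  obtain ⟨r₀, hr⟩ := hK K ((le_max_left _ _).trans hK')
  obtain ⟨r₁, hr₁⟩ := hK₁ K ((le_max_right _ _).trans hK')
  refine ⟨max r₀ r₁, fun r hr' => ?_⟩
  obtain ⟨k₀, hk⟩ := hr r ((le_max_left _ _).trans hr')
  obtain ⟨k₁, hk₁⟩ := hr₁ r ((le_max_right _ _).trans hr')
  refine ⟨max k₀ k₁, fun k hk' => ?_⟩
  obtain ⟨ζ₀, hζ0, hζ⟩ := hk k ((le_max_left _ _).trans hk')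
  obtain ⟨ζ₁, hζ1, hζ'⟩ := hk₁ k ((le_max_right _ _).trans hk')
  exact ⟨min ζ₀ ζ₁, lt_min hζ0 hζ1, fun ζ h1 h2 =>
    ⟨hζ ζ h1 (h2.trans (min_le_left _ _)), hζ' ζ h1 (h2.trans (min_le_right _ _))⟩⟩

lemma Good.of_all {φ : Prm → Prop} (h : ∀ p, φ p) : Good φ :=
  ⟨0, fun _ _ => ⟨0, fun _ _ => ⟨0, fun _ _ => ⟨0, fun _ _ => ⟨1, one_pos, fun _ _ _ => h _⟩⟩⟩⟩⟩

lemma Good.large_E (n : ℕ) : Good (fun p => n ≤ p.E) :=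
  ⟨n, fun _ h => ⟨0, fun _ _ => ⟨0, fun _ _ => ⟨0, fun _ _ => ⟨1, one_pos, fun _ _ _ => h⟩⟩⟩⟩⟩

/-- `K` is large depending on `E` -/
lemma Good.large_K (g : ℕ → ℕ) : Good (fun p => g p.E ≤ p.K) :=
  ⟨0, fun E _ => ⟨g E, fun _ h => ⟨0, fun _ _ => ⟨0, fun _ _ => ⟨1, one_pos, fun _ _ _ => h⟩⟩⟩⟩⟩

/-- `r` is large depending on `E, K` -/
lemma Good.large_r (g : ℕ → ℕ → ℕ) : Good (fun p => g p.E p.K ≤ p.r) :=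
  ⟨0, fun E _ => ⟨0, fun K _ => ⟨g E K, fun _ h => ⟨0, fun _ _ => ⟨1, one_pos, fun _ _ _ => h⟩⟩⟩⟩⟩

/-- `k` is large depending on `E, K, r` -/
lemma Good.large_k (g : ℕ → ℕ → ℕ → ℕ) : Good (fun p => g p.E p.K p.r ≤ p.k) :=
  ⟨0, fun E _ => ⟨0, fun K _ => ⟨0, fun r _ => ⟨g E K r, fun _ h => ⟨1, one_pos, fun _ _ _ => h⟩⟩⟩⟩⟩

lemma Good.zeta_pos : Good (fun p => 0 < p.ζ) :=
  ⟨0, fun _ _ => ⟨0, fun _ _ => ⟨0, fun _ _ => ⟨0, fun _ _ => ⟨1, one_pos, fun _ h _ => h⟩⟩⟩⟩⟩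

/-- `ζ` is small depending on `E, K, r, k` -/
lemma Good.zeta_le (g : ℕ → ℕ → ℕ → ℕ → ℝ) (hg : ∀ E K r k, 0 < g E K r k) :
    Good (fun p => p.ζ ≤ g p.E p.K p.r p.k) :=
  ⟨0, fun E _ => ⟨0, fun K _ => ⟨0, fun r _ => ⟨0, fun k _ => ⟨g E K r k, hg E K r k,
    fun _ _ h => h⟩⟩⟩⟩⟩

end Pool.Agent.Lib.MP391708.T4
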