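import Pool.Agent.Lib.MP_391708_nt.T1.ESpecC
import Pool.Agent.Lib.MP_391708_nt.T1.GoodL
import Pool.Agent.Lib.MP_391708_nt.T1.A3An

/-!
# Theorem T1, module EVS: bridges between the notations of `T1` and `T4`, the product over the
sieving primes, and the size of the error terms
-/

set_option autoImplicit false

namespace Pool.Agent.Lib.MP391708.T1

open Finset Filter Topology
open scoped Classical

open T4 (Prm PP zz S0 Adm W0 Y1 Y2 Y3 Y4 Good)

namespace EVS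

/-! ## Bridges -/

lemma mem_PP {p : Prm} {N l : ℕ} :
    l ∈ PP p N ↔ (l : ℝ) < zz p N ∧ l.Prime ∧ l % 4 = 1 ∧ p.E < l := by
  unfold PP
  rw [mem_filter, mem_range, Nat.lt_ceil]

/-- the primes of `PP` -/
theorem PPs_eq (p : Prm) (N : ℕ) : PPs p.E (zz p N) = PP p N := by
  ext l
  rw [mem_PP]
  unfold PPs QPA.PB
  rw [mem_filter, mem_filter, mem_range, Nat.lt_ceil]
  tauto

/-- the character -/
theorem ch_eq (l : ℕ) : T4.ch l = ch l := by
  unfold T4.ch ch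
  rw [ZMod.χ₄_nat_mod_four]
  have h4 : l % 4 < 4 := Nat.mod_lt _ (by norm_num)
  have h : l % 4 = 0 ∨ l % 4 = 1 ∨ l % 4 = 2 ∨ l % 4 = 3 := by omega
  rcases h with h | h | h | h
  · rw [h]
    have : ZMod.χ₄ ((0 : ℕ) : ZMod 4) = 0 := by decide
    rw [this]
    norm_num
  · rw [h]
    have : ZMod.χ₄ ((1 : ℕ) : ZMod 4) = 1 := by decide
    rw [this]
    norm_num
  · rw [h]
    have : ZMod.χ₄ ((2 : ℕ) : ZMod 4) = 0 := by decide
    rw [this]
    norm_num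
  · rw [h]
    have : ZMod.χ₄ ((3 : ℕ) : ZMod 4) = -1 := by decide
    rw [this]
    norm_num

/-- the product of the character -/
theorem rp_eq (D : ℕ) : T4.rp D = rp D := by
  unfold T4.rp rp
  exact prod_congr rfl fun l _ => by rw [ch_eq]

theorem F1_eq (M G P Q : ℕ) (t : ℤ × ℕ) : T4.F1 (M, G, P, Q, t) = F1 M G P Q t.1 := by
  obtain ⟨D, X⟩ := t
  unfold T4.F1 F1 T4.rP T4.rD T4.rM T4.rG T4.rQ
  rfl

theorem F2_eq (M G P Q : ℕ) (t : ℤ × ℕ) :
    T4.F2 (M, G, P, Q, t) = F2 M G P Q (T4.D2 (M, G, P, Q, t)) := by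
  obtain ⟨D, X⟩ := t
  unfold T4.F2 F2 T4.rP T4.rM T4.rG T4.rQ
  rfl

/-! ## The product -/

lemma exp_le_one_sub {x : ℝ} (h1 : x ≤ 1 / 2) :
    Real.exp (-x - 2 * x ^ 2) ≤ 1 - x := by
  have h2 : 0 < 1 - x := by linarith
  rw [← Real.le_log_iff_exp_le h2]
  have h3 := Real.one_sub_inv_le_log_of_pos h2
  refine le_trans ?_ h3
  have h4 : 1 - (1 - x)⁻¹ = -x - x ^ 2 / (1 - x) := by
    field_simp
    ring
  rw [h4]
  have h6 : x ^ 2 / (1 - x) ≤ 2 * x ^ 2 := by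
    rw [div_le_iff₀ h2]
    nlinarith [sq_nonneg x]
  linarith

/-- the sum of `1/l²` over integers `> E` -/
lemma sum_inv_sq_le {E : ℕ} (hE : 1 ≤ E) {P : Finset ℕ} (hP : ∀ l ∈ P, E < l) :
    ∑ l ∈ P, 1 / (l : ℝ) ^ 2 ≤ 1 / (E : ℝ) := by
  have key : ∀ n : ℕ, E ≤ n → ∑ l ∈ Ioc E n, 1 / (l : ℝ) ^ 2 ≤ 1 / (E : ℝ) - 1 / (n : ℝ) := by
    intro n hn
    induction n, hn using Nat.le_induction with
    | base => simp
    | succ n hn ih =>
      rw [Finset.sum_Ioc_succ_top hn]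
      have hn0 : (0 : ℝ) < n := by exact_mod_cast (by omega : 0 < n)
      have h1 : 1 / ((n + 1 : ℕ) : ℝ) ^ 2 ≤ 1 / (n : ℝ) - 1 / ((n + 1 : ℕ) : ℝ) := by
        push_cast
        rw [div_sub_div _ _ hn0.ne' (by positivity), div_le_div_iff₀ (by positivity) (by positivity)]
        nlinarith
      linarith
  obtain ⟨n, hn⟩ : ∃ n, P ⊆ Ioc E n := by
    refine ⟨P.sup id, fun l hl => mem_Ioc.2 ⟨hP l hl, ?_⟩⟩
    exact Finset.le_sup (f := id) hl
  rcases le_or_gt E n with h | h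
  · refine (sum_le_sum_of_subset_of_nonneg hn fun _ _ _ => by positivity).trans ?_
    have h1 : (0 : ℝ) ≤ 1 / (n : ℝ) := by positivity
    linarith [key n h]
  · have : P = ∅ := by
      rw [Finset.eq_empty_iff_forall_notMem]
      intro l hl
      have h1 := mem_Ioc.1 (hn hl)
      omega
    rw [this, sum_empty]
    positivity

/-- the product over primes `> E` -/
theorem prod_bounds {E : ℕ} (hE : 12 ≤ E) {P : Finset ℕ} (hP : ∀ l ∈ P, E < l) {c : ℝ}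
    (h0 : 0 ≤ c) (h6 : c ≤ 6) :
    Real.exp (-(c * ∑ l ∈ P, 1 / (l : ℝ))) * (1 - 72 / E) ≤ ∏ l ∈ P, (1 - c / (l : ℝ)) ∧
      ∏ l ∈ P, (1 - c / (l : ℝ)) ≤ Real.exp (-(c * ∑ l ∈ P, 1 / (l : ℝ))) := by
  have hl12 : ∀ l ∈ P, (12 : ℝ) < l := fun l hl => by
    exact_mod_cast lt_of_le_of_lt hE (hP l hl)
  have hE0 : (0 : ℝ) < E := by exact_mod_cast (by omega : 0 < E)
  have hx : ∀ l ∈ P, 0 ≤ c / (l : ℝ) ∧ c / (l : ℝ) ≤ 1 / 2 := fun l hl => by
    have := hl12 l hl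
    refine ⟨by positivity, ?_⟩
    rw [div_le_iff₀ (by linarith)]
    linarith
  constructor
  · have h1 : Real.exp (∑ l ∈ P, (-(c / (l : ℝ)) - 2 * (c / (l : ℝ)) ^ 2)) ≤
        ∏ l ∈ P, (1 - c / (l : ℝ)) := by
      rw [Real.exp_sum]
      exact prod_le_prod (fun _ _ => (Real.exp_pos _).le)
        fun l hl => exp_le_one_sub (hx l hl).2
    refine le_trans ?_ h1
    have h2 : ∑ l ∈ P, (-(c / (l : ℝ)) - 2 * (c / (l : ℝ)) ^ 2) =
        -(c * ∑ l ∈ P, 1 / (l : ℝ)) + -(2 * c ^ 2 * ∑ l ∈ P, 1 / (l : ℝ) ^ 2) := by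
      rw [mul_sum, mul_sum, ← sum_neg_distrib, ← sum_neg_distrib, ← sum_add_distrib]
      refine sum_congr rfl fun l _ => ?_
      rw [div_pow]
      ring
    rw [h2, Real.exp_add]
    refine mul_le_mul_of_nonneg_left ?_ (Real.exp_pos _).le
    have h3 := sum_inv_sq_le (by omega : 1 ≤ E) hP
    have h4 : 2 * c ^ 2 * ∑ l ∈ P, 1 / (l : ℝ) ^ 2 ≤ 72 / E := by
      calc 2 * c ^ 2 * ∑ l ∈ P, 1 / (l : ℝ) ^ 2 ≤ 72 * (1 / E) := by
            refine mul_le_mul (by nlinarith) h3 (sum_nonneg fun _ _ => by positivity) (by norm_num)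
        _ = 72 / E := by ring
    have h5 := Real.add_one_le_exp (-(2 * c ^ 2 * ∑ l ∈ P, 1 / (l : ℝ) ^ 2))
    linarith
  · have h1 : Real.exp (-(c * ∑ l ∈ P, 1 / (l : ℝ))) = ∏ l ∈ P, Real.exp (-(c / (l : ℝ))) := by
      rw [← Real.exp_sum]
      congr 1
      rw [mul_sum, ← sum_neg_distrib]
      exact sum_congr rfl fun l _ => by ring
    rw [h1]
    refine prod_le_prod (fun l hl => by linarith [(hx l hl).2]) fun l _ => ?_
    have := Real.add_one_le_exp (-(c / (l : ℝ)))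
    linarith

lemma S0_eq (p : Prm) (N : ℕ) : S0 p N = 2 * ∑ l ∈ PP p N, 1 / (l : ℝ) := by
  unfold S0
  rw [mul_sum]
  exact sum_congr rfl fun l _ => by ring

/-- the product over the sieving primes -/
theorem prod_PP (p : Prm) (N : ℕ) (hE : 12 ≤ p.E) {τ : ℝ} (h0 : 0 ≤ τ) (h3 : τ ≤ 3) :
    Real.exp (-(τ * S0 p N)) * (1 - 72 / p.E) ≤ ∏ l ∈ PP p N, (1 - 2 * τ / (l : ℝ)) ∧
      ∏ l ∈ PP p N, (1 - 2 * τ / (l : ℝ)) ≤ Real.exp (-(τ * S0 p N)) := by
  have h := prod_bounds hE (P := PP p N) (fun l hl => (mem_PP.1 hl).2.2.2) (c := 2 * τ)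
    (by linarith) (by linarith)
  have h1 : τ * S0 p N = 2 * τ * ∑ l ∈ PP p N, 1 / (l : ℝ) := by
    rw [S0_eq]
    ring
  rw [h1]
  exact h

/-! ## The size of `S0` -/

/-- a trivial bound -/
theorem S0_le (p : Prm) (N : ℕ) (hz : 4 ≤ zz p N) : S0 p N ≤ 2 * (1 + Real.log (zz p N)) := by
  rw [S0_eq]
  have h1 : PP p N ⊆ Icc 1 ⌊zz p N⌋₊ := by
    intro l hl
    have := mem_PP.1 hl
    rw [mem_Icc]
    exact ⟨this.2.1.one_le, Nat.le_floor this.1.le⟩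
  have h2 : ∑ l ∈ PP p N, 1 / (l : ℝ) ≤ ∑ l ∈ Icc 1 ⌊zz p N⌋₊, 1 / (l : ℝ) :=
    sum_le_sum_of_subset_of_nonneg h1 fun _ _ _ => by positivity
  have h3 := harmonic_le_one_add_log ⌊zz p N⌋₊
  have h4 : ((harmonic ⌊zz p N⌋₊ : ℚ) : ℝ) = ∑ l ∈ Icc 1 ⌊zz p N⌋₊, 1 / (l : ℝ) := by
    rw [harmonic_eq_sum_Icc]
    push_cast
    exact sum_congr rfl fun l _ => by rw [one_div]
  rw [h4] at h3
  have h5 : 1 ≤ ⌊zz p N⌋₊ := Nat.le_floor (by push_cast; linarith)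
  have h6 : Real.log (⌊zz p N⌋₊ : ℝ) ≤ Real.log (zz p N) :=
    Real.log_le_log (by exact_mod_cast h5) (Nat.floor_le (by linarith))
  linarith

lemma S0_nonneg (p : Prm) (N : ℕ) : 0 ≤ S0 p N := sum_nonneg fun _ _ => by positivity

/-- a trivial bound -/
theorem exp_S0_ge (p : Prm) (N : ℕ) (hz : 4 ≤ zz p N) {τ : ℝ} (h3 : τ ≤ 3) :
    1 ≤ Real.exp (-(τ * S0 p N)) * zz p N ^ 12 := by
  have hz0 : 0 < zz p N := by linarith
  have h1 := S0_le p N hz
  have h2 : τ * S0 p N ≤ 3 * (2 * (1 + Real.log (zz p N))) :=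
    mul_le_mul h3 h1 (S0_nonneg p N) (by norm_num)
  have h4 : Real.log 4 ≤ Real.log (zz p N) := Real.log_le_log (by norm_num) hz
  have h5 : 1 ≤ Real.log 4 := by
    rw [Real.le_log_iff_exp_le (by norm_num)]
    linarith [Real.exp_one_lt_d9]
  have h6 : zz p N ^ 12 = Real.exp (12 * Real.log (zz p N)) := by
    rw [show (12 : ℝ) * Real.log (zz p N) = ((12 : ℕ) : ℝ) * Real.log (zz p N) by norm_num,
      Real.exp_nat_mul, Real.exp_log hz0]
  rw [h6, ← Real.exp_add]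
  exact Real.one_le_exp (by linarith)

/-! ## Sizes -/

lemma zz_tendsto {p : Prm} (hζ : 0 < p.ζ) : Tendsto (fun N : ℕ => zz p N) atTop atTop :=
  (tendsto_rpow_atTop hζ).comp tendsto_natCast_atTop_atTop

/-- powers of `z` are at most `N` -/
theorem zpow_le_N (g : ℕ → ℕ → ℕ → ℕ → ℕ) :
    Good (fun p => ∀ᶠ N : ℕ in atTop, zz p N ^ g p.E p.K p.r p.k ≤ (N : ℝ)) := by
  refine ((T4.Good.zeta_le (fun E K r k => 1 / (g E K r k + 1 : ℝ)) (fun E K r k => by positivity)).and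
    T4.Good.zeta_pos).mono fun p hp => ?_
  filter_upwards [eventually_ge_atTop 1] with N hN
  have hN1 : (1 : ℝ) ≤ N := by exact_mod_cast hN
  unfold zz
  rw [← Real.rpow_natCast, ← Real.rpow_mul (by linarith)]
  calc (N : ℝ) ^ (p.ζ * (g p.E p.K p.r p.k : ℝ)) ≤ (N : ℝ) ^ (1 : ℝ) := by
        refine Real.rpow_le_rpow_of_exponent_le hN1 ?_
        have h1 := hp.1
        have h2 : (0 : ℝ) ≤ g p.E p.K p.r p.k := Nat.cast_nonneg _
        calc p.ζ * (g p.E p.K p.r p.k : ℝ) ≤ 1 / (g p.E p.K p.r p.k + 1 : ℝ) * g p.E p.K p.r p.k :=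
              mul_le_mul_of_nonneg_right h1 h2
          _ ≤ 1 := by
            rw [one_div, inv_mul_le_iff₀ (by linarith)]
            linarith
    _ = N := Real.rpow_one _

/-- `z` is large -/
theorem zz_large (g : ℕ → ℕ → ℕ → ℕ → ℝ) :
    Good (fun p => ∀ᶠ N : ℕ in atTop, g p.E p.K p.r p.k ≤ zz p N) :=
  T4.Good.zeta_pos.mono fun _ hp => (zz_tendsto hp).eventually_ge_atTop _

/-! ## The error terms -/

/-- **ERR**: the error terms are small.  `A ≍ M/P` bounds `D`, `R ≍ G`, `L ≍ M/Q`. -/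
theorem err_small (g : ℕ → ℕ → ℕ → ℕ) : Good (fun p => ∀ᶠ N : ℕ in atTop, ∀ M G P Q : ℕ,
    Adm p N M G P Q → ∀ A R L : ℝ, 0 ≤ A → A * P ≤ 10 * M → 0 ≤ R → R ≤ 100 * G → 0 ≤ L →
    L * Q * M ≤ 20 * ((M : ℝ) ^ 2 + 1) →
    zz p N ^ g p.E p.K p.r * (A * Real.sqrt R + A ^ 2 + L) ≤ G) := by
  refine ((((T4.Good.large_k (fun E K r => 2 * g E K r + 8 * K + 20)).and
    (T4.Good.large_r (fun _ _ => 1))).and (zz_large (fun _ _ _ _ => 1000))).and
    T4.Good.zeta_pos).mono fun p hp => ?_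
  obtain ⟨⟨⟨hk, hr⟩, hz⟩, hζ⟩ := hp
  filter_upwards [hz, eventually_ge_atTop 1] with N hz hN M G P Q hA A R L hA0 hAP hR0 hR hL0 hL
  obtain ⟨h1, h2, h3, h4, h5, h6, h7, h8, h9⟩ := hA
  set z := zz p N with hzdef
  set γ := g p.E p.K p.r with hγ
  have hz0 : 0 < z := by linarith
  have hz1 : 1 ≤ z := by linarith
  have hM0 : 0 < M := by omega
  have hMr : (0 : ℝ) < M := by exact_mod_cast hM0
  have hprod : 0 < G * P * Q := by rw [h1]; positivity
  have hG0 : 0 < G := Nat.pos_of_ne_zero fun h => by simp [h] at hprod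
  have hP0 : 0 < P := Nat.pos_of_ne_zero fun h => by simp [h] at hprod
  have hQ0 : 0 < Q := Nat.pos_of_ne_zero fun h => by simp [h] at hprod
  have hGr : (0 : ℝ) < G := by exact_mod_cast hG0
  have hPr : (0 : ℝ) < P := by exact_mod_cast hP0
  have hQr : (0 : ℝ) < Q := by exact_mod_cast hQ0
  have hY1 : Y1 p N = z ^ p.k := rfl
  have hY2 : Y2 p N = z ^ (p.r * p.k) := rfl
  have hY3 : Y3 p N = z ^ (10 * p.r * p.k) := rfl
  -- `A ≤ z^(rk + 4K + 1)`
  have hAle : A ≤ z ^ (p.r * p.k + 4 * p.K + 1) := by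
    have e1 : A * P ≤ 100 * (Y2 p N * z ^ (4 * p.K)) * P := by
      calc A * P ≤ 10 * M := hAP
        _ ≤ 10 * (10 * P * (Y2 p N * z ^ (4 * p.K))) := by linarith
        _ = 100 * (Y2 p N * z ^ (4 * p.K)) * P := by ring
    have e2 : A ≤ 100 * (Y2 p N * z ^ (4 * p.K)) := le_of_mul_le_mul_right e1 hPr
    calc A ≤ 100 * (Y2 p N * z ^ (4 * p.K)) := e2
      _ ≤ z * (Y2 p N * z ^ (4 * p.K)) := by
          refine mul_le_mul_of_nonneg_right (by linarith) ?_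
          rw [hY2]
          positivity
      _ = z ^ (p.r * p.k + 4 * p.K + 1) := by rw [hY2]; ring
  -- `z^(k + 10 r k - 1) ≤ G`
  have hGge : z ^ (p.k + 10 * (p.r * p.k)) ≤ z * G := by
    calc z ^ (p.k + 10 * (p.r * p.k)) = Y1 p N * Y3 p N := by rw [hY1, hY3]; ring
      _ ≤ 10 * G := h8
      _ ≤ z * G := mul_le_mul_of_nonneg_right (by linarith) hGr.le
  have hrk : 1 * p.k ≤ p.r * p.k := Nat.mul_le_mul_right _ hr
  -- the three terms
  have hsq : (1000 * z ^ γ * z ^ (p.r * p.k + 4 * p.K + 1)) ^ 2 ≤ G := by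
    have e1 : (1000 * z ^ γ * z ^ (p.r * p.k + 4 * p.K + 1)) ^ 2 * z ≤
        z ^ (p.k + 10 * (p.r * p.k) - 1) * z := by
      calc (1000 * z ^ γ * z ^ (p.r * p.k + 4 * p.K + 1)) ^ 2 * z
          ≤ (z * z ^ γ * z ^ (p.r * p.k + 4 * p.K + 1)) ^ 2 * z := by
            refine mul_le_mul_of_nonneg_right (pow_le_pow_left₀ (by positivity) ?_ 2) hz0.le
            gcongr
        _ = z ^ (2 * γ + 2 * (p.r * p.k) + 8 * p.K + 5) := by ring
        _ ≤ z ^ (p.k + 10 * (p.r * p.k)) := pow_le_pow_right₀ hz1 (by omega)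
        _ = z ^ (p.k + 10 * (p.r * p.k) - 1) * z := by
          rw [← pow_succ]
          congr 1
          omega
    have e2 : z ^ (p.k + 10 * (p.r * p.k) - 1) * z ≤ G * z := by
      rw [← pow_succ, show p.k + 10 * (p.r * p.k) - 1 + 1 = p.k + 10 * (p.r * p.k) by omega]
      linarith
    exact le_of_mul_le_mul_right (e1.trans e2) hz0
  have hT1 : z ^ γ * (A * Real.sqrt R) ≤ G / 4 := by
    have e1 : Real.sqrt R ≤ 10 * Real.sqrt G := by
      calc Real.sqrt R ≤ Real.sqrt (100 * G) := Real.sqrt_le_sqrt hR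
        _ = 10 * Real.sqrt G := by
          rw [Real.sqrt_mul (by norm_num), show (100 : ℝ) = 10 ^ 2 by norm_num,
            Real.sqrt_sq (by norm_num)]
    have e2 : 1000 * z ^ γ * z ^ (p.r * p.k + 4 * p.K + 1) ≤ Real.sqrt G :=
      Real.le_sqrt_of_sq_le hsq
    have e3 : Real.sqrt G * Real.sqrt G = G := Real.mul_self_sqrt hGr.le
    calc z ^ γ * (A * Real.sqrt R) ≤
        z ^ γ * (z ^ (p.r * p.k + 4 * p.K + 1) * (10 * Real.sqrt G)) := by gcongr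
      _ = (1000 * z ^ γ * z ^ (p.r * p.k + 4 * p.K + 1)) * Real.sqrt G / 100 := by ring
      _ ≤ Real.sqrt G * Real.sqrt G / 100 := by gcongr
      _ = G / 100 := by rw [e3]
      _ ≤ G / 4 := by linarith
  have hT2 : z ^ γ * A ^ 2 ≤ G / 4 := by
    calc z ^ γ * A ^ 2 ≤ z ^ γ * (z ^ (p.r * p.k + 4 * p.K + 1)) ^ 2 := by gcongr
      _ ≤ (1000 * z ^ γ * z ^ (p.r * p.k + 4 * p.K + 1)) ^ 2 / 4 := by
        have e1 : 1 ≤ z ^ γ := one_le_pow₀ hz1
        have e2 : z ^ γ ≤ (z ^ γ) ^ 2 := by nlinarith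
        have e3 : 0 ≤ (z ^ (p.r * p.k + 4 * p.K + 1)) ^ 2 := by positivity
        nlinarith [mul_le_mul_of_nonneg_right e2 e3,
          mul_nonneg (sq_nonneg (z ^ γ)) e3]
      _ ≤ G / 4 := by linarith
  have hT3 : z ^ γ * L ≤ G / 4 := by
    -- `L Q M ≤ 20 G P Q`
    have e0 : (G : ℝ) * P * Q = (M : ℝ) ^ 2 + 1 := by exact_mod_cast h1
    have e1 : L * M * Q ≤ 20 * G * P * Q := by
      calc L * M * Q = L * Q * M := by ring
        _ ≤ 20 * ((M : ℝ) ^ 2 + 1) := hL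
        _ = 20 * G * P * Q := by rw [← e0]; ring
    have e2 : L * M ≤ 20 * G * P := le_of_mul_le_mul_right e1 hQr
    have e3 : L * M * Y1 p N ≤ 200 * G * M * z ^ (4 * p.K) := by
      calc L * M * Y1 p N ≤ 20 * G * P * Y1 p N := by
            refine mul_le_mul_of_nonneg_right e2 ?_
            rw [hY1]
            positivity
        _ = 20 * G * (P * Y1 p N) := by ring
        _ ≤ 20 * G * (10 * M * z ^ (4 * p.K)) := by gcongr
        _ = 200 * G * M * z ^ (4 * p.K) := by ring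
    have e4 : L * Y1 p N ≤ 200 * G * z ^ (4 * p.K) := by
      refine le_of_mul_le_mul_right ?_ hMr
      linarith
    have e5 : z ^ γ * L * z ^ p.k ≤ G / 4 * z ^ p.k := by
      calc z ^ γ * L * z ^ p.k = z ^ γ * (L * Y1 p N) := by rw [hY1]; ring
        _ ≤ z ^ γ * (200 * G * z ^ (4 * p.K)) := by gcongr
        _ = G / 4 * (800 * z ^ (γ + 4 * p.K)) := by ring
        _ ≤ G / 4 * (z * z ^ (γ + 4 * p.K)) := by
            have : 0 ≤ z ^ (γ + 4 * p.K) := by positivity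
            have : 800 * z ^ (γ + 4 * p.K) ≤ z * z ^ (γ + 4 * p.K) := by nlinarith
            exact mul_le_mul_of_nonneg_left this (by positivity)
        _ = G / 4 * z ^ (γ + 4 * p.K + 1) := by ring
        _ ≤ G / 4 * z ^ p.k := by
            refine mul_le_mul_of_nonneg_left (pow_le_pow_right₀ hz1 (by omega)) (by positivity)
    exact le_of_mul_le_mul_right e5 (by positivity)
  calc z ^ γ * (A * Real.sqrt R + A ^ 2 + L)
      = z ^ γ * (A * Real.sqrt R) + z ^ γ * A ^ 2 + z ^ γ * L := by ring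
    _ ≤ (G : ℝ) := by linarith

/-- all data are at most `N` -/
theorem size_le (g : ℕ → ℕ → ℕ → ℕ → ℕ) : Good (fun p => ∀ᶠ N : ℕ in atTop, ∀ M G P Q : ℕ,
    Adm p N M G P Q → ((W0 p : ℕ) : ℝ) ≤ N ∧ zz p N ^ g p.E p.K p.r p.k * (G : ℝ) ≤ N ∧
      ∀ A : ℝ, A * P ≤ 10 * M → zz p N ^ g p.E p.K p.r p.k * A ≤ N) := by
  refine (((zpow_le_N (fun E K r k => g E K r k + r * k + 10 * r ^ 2 * k + 4 * K + 1)).and
    (zz_large (fun _ _ _ _ => 1000))).and (zz_large (fun _ _ _ _ => 1000))).mono fun p hp => ?_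
  obtain ⟨⟨hN, hz⟩, -⟩ := hp
  have hW : ∀ᶠ N : ℕ in atTop, ((W0 p : ℕ) : ℝ) ≤ N :=
    tendsto_natCast_atTop_atTop.eventually_ge_atTop _
  filter_upwards [hN, hz, hW, eventually_ge_atTop 1] with N hN hz hW hN1 M G P Q hA
  obtain ⟨h1, h2, h3, h4, h5, h6, h7, h8, h9⟩ := hA
  set z := zz p N with hzdef
  set γ := g p.E p.K p.r p.k with hγ
  have hz0 : 0 < z := by linarith
  have hz1 : 1 ≤ z := by linarith
  have hM0 : 0 < M := by omega
  have hprod : 0 < G * P * Q := by rw [h1]; positivity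
  have hP0 : 0 < P := Nat.pos_of_ne_zero fun h => by simp [h] at hprod
  have hPr : (0 : ℝ) < P := by exact_mod_cast hP0
  refine ⟨hW, ?_, fun A hAP => ?_⟩
  · calc z ^ γ * (G : ℝ) ≤ z ^ γ * (10 * (Y2 p N * Y4 p N * z ^ (4 * p.K))) := by gcongr
      _ ≤ z ^ γ * (z * (Y2 p N * Y4 p N * z ^ (4 * p.K))) := by
          have : 0 ≤ Y2 p N * Y4 p N * z ^ (4 * p.K) := by unfold Y2 Y4; positivity
          gcongr
          linarith
      _ = z ^ (γ + p.r * p.k + 10 * p.r ^ 2 * p.k + 4 * p.K + 1) := by unfold Y2 Y4; ring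
      _ ≤ N := hN
  · have e1 : A * P ≤ 100 * (Y2 p N * z ^ (4 * p.K)) * P := by
      calc A * P ≤ 10 * M := hAP
        _ ≤ 10 * (10 * P * (Y2 p N * z ^ (4 * p.K))) := by linarith
        _ = 100 * (Y2 p N * z ^ (4 * p.K)) * P := by ring
    have e2 : A ≤ 100 * (Y2 p N * z ^ (4 * p.K)) := le_of_mul_le_mul_right e1 hPr
    have e3 : 0 ≤ Y2 p N * z ^ (4 * p.K) := by unfold Y2; positivity
    calc z ^ γ * A ≤ z ^ γ * (z * (Y2 p N * z ^ (4 * p.K))) := by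
          have : A ≤ z * (Y2 p N * z ^ (4 * p.K)) := by nlinarith
          gcongr
      _ = z ^ (γ + p.r * p.k + 4 * p.K + 1) := by unfold Y2; ring
      _ ≤ z ^ (γ + p.r * p.k + 10 * p.r ^ 2 * p.k + 4 * p.K + 1) :=
          pow_le_pow_right₀ hz1 (by omega)
      _ ≤ N := hN

/-! ## `SpecEVS` -/

lemma exp_le_one_sub' {x : ℝ} (h1 : x ≤ 1 / 16) :
    Real.exp (-x - 16 / 15 * x ^ 2) ≤ 1 - x := by
  have h2 : 0 < 1 - x := by linarith
  rw [← Real.le_log_iff_exp_le h2]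
  have h3 := Real.one_sub_inv_le_log_of_pos h2
  refine le_trans ?_ h3
  have h4 : 1 - (1 - x)⁻¹ = -x - x ^ 2 / (1 - x) := by
    field_simp
    ring
  rw [h4]
  have h6 : x ^ 2 / (1 - x) ≤ 16 / 15 * x ^ 2 := by
    rw [div_le_iff₀ h2]
    nlinarith [sq_nonneg x]
  linarith

/-- the product over primes `> E`, sharper constant -/
theorem prod_ge {E : ℕ} (hE : 100 ≤ E) {P : Finset ℕ} (hP : ∀ l ∈ P, E < l) {c : ℝ}
    (h0 : 0 ≤ c) (h6 : c ≤ 6) :
    (1 - 40 / (E : ℝ)) * Real.exp (-(c * ∑ l ∈ P, 1 / (l : ℝ))) ≤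
      ∏ l ∈ P, (1 - c / (l : ℝ)) := by
  have hl12 : ∀ l ∈ P, (100 : ℝ) < l := fun l hl => by
    exact_mod_cast lt_of_le_of_lt hE (hP l hl)
  have hE0 : (0 : ℝ) < E := by exact_mod_cast (by omega : 0 < E)
  have hx : ∀ l ∈ P, c / (l : ℝ) ≤ 1 / 16 := fun l hl => by
    have := hl12 l hl
    rw [div_le_iff₀ (by linarith)]
    linarith
  have h1 : Real.exp (∑ l ∈ P, (-(c / (l : ℝ)) - 16 / 15 * (c / (l : ℝ)) ^ 2)) ≤
      ∏ l ∈ P, (1 - c / (l : ℝ)) := by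
    rw [Real.exp_sum]
    exact prod_le_prod (fun _ _ => (Real.exp_pos _).le) fun l hl => exp_le_one_sub' (hx l hl)
  refine le_trans ?_ h1
  have h2 : ∑ l ∈ P, (-(c / (l : ℝ)) - 16 / 15 * (c / (l : ℝ)) ^ 2) =
      -(16 / 15 * c ^ 2 * ∑ l ∈ P, 1 / (l : ℝ) ^ 2) + -(c * ∑ l ∈ P, 1 / (l : ℝ)) := by
    rw [mul_sum, mul_sum, ← sum_neg_distrib, ← sum_neg_distrib, ← sum_add_distrib]
    refine sum_congr rfl fun l _ => ?_
    rw [div_pow]
    ring
  rw [h2, Real.exp_add]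
  refine mul_le_mul_of_nonneg_right ?_ (Real.exp_pos _).le
  have h3 := sum_inv_sq_le (by omega : 1 ≤ E) hP
  have h4 : 16 / 15 * c ^ 2 * ∑ l ∈ P, 1 / (l : ℝ) ^ 2 ≤ 40 / (E : ℝ) := by
    calc 16 / 15 * c ^ 2 * ∑ l ∈ P, 1 / (l : ℝ) ^ 2 ≤ 40 * (1 / (E : ℝ)) := by
          refine mul_le_mul (by nlinarith) h3 (sum_nonneg fun _ _ => by positivity) (by norm_num)
      _ = 40 / (E : ℝ) := by ring
  have h5 := Real.add_one_le_exp (-(16 / 15 * c ^ 2 * ∑ l ∈ P, 1 / (l : ℝ) ^ 2))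
  linarith

/-- powers of `log z` are at most `z` -/
lemma log_pow_le (C : ℝ) (n : ℕ) : ∀ᶠ z : ℝ in atTop, C * Real.log z ^ n ≤ z := by
  have h := (Real.isLittleO_pow_log_id_atTop (n := n)).def (c := 1 / (|C| + 1)) (by positivity)
  filter_upwards [h, eventually_ge_atTop 1] with z hz hz1
  have h1 : 0 ≤ Real.log z ^ n := pow_nonneg (Real.log_nonneg hz1) _
  rw [Real.norm_eq_abs, Real.norm_eq_abs, abs_of_nonneg h1, id,
    abs_of_nonneg (by linarith : (0 : ℝ) ≤ z)] at hz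
  have h2 : C ≤ |C| + 1 := by linarith [le_abs_self C]
  have h3 : 0 < |C| + 1 := by positivity
  calc C * Real.log z ^ n ≤ (|C| + 1) * Real.log z ^ n := mul_le_mul_of_nonneg_right h2 h1
    _ ≤ (|C| + 1) * (1 / (|C| + 1) * z) := mul_le_mul_of_nonneg_left hz h3.le
    _ = z := by field_simp

end EVS

open EVS in
/-- **EVS** -/
theorem specEVS : SpecEVS := by
  refine ⟨fun p N c hE h0 h6 => ?_, fun c => T4.Good.zeta_pos.mono fun p hζ => ?_⟩
  · have h1 : c / 2 * S0 p N = c * ∑ l ∈ PP p N, 1 / (l : ℝ) := by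
      rw [S0_eq]
      ring
    rw [PPs_eq, h1]
    have hP : ∀ l ∈ PP p N, p.E < l := fun l hl => (mem_PP.1 hl).2.2.2
    exact ⟨prod_ge hE hP h0 h6, (prod_bounds (by omega) hP h0 h6).2⟩
  · obtain ⟨C, hC0, hC⟩ := T4.A3.exp_S0_le p hζ
    set n := ⌈|c|⌉₊ with hn
    filter_upwards [hC, (zz_tendsto hζ).eventually (log_pow_le ((W0 p : ℝ) ^ 4 * C ^ n) n)]
      with N hN hz
    obtain ⟨h1, h2, -⟩ := hN
    have h3 : Real.exp (c * S0 p N) ≤ (C * Real.log (zz p N)) ^ n := by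
      calc Real.exp (c * S0 p N) ≤ Real.exp (n * S0 p N) := by
            refine Real.exp_le_exp.2 (mul_le_mul_of_nonneg_right ?_ (S0_nonneg p N))
            exact (le_abs_self c).trans (Nat.le_ceil _)
        _ = Real.exp (S0 p N) ^ n := Real.exp_nat_mul _ _
        _ ≤ (C * Real.log (zz p N)) ^ n := pow_le_pow_left₀ (Real.exp_pos _).le h1 n
    calc (W0 p : ℝ) ^ 4 * Real.exp (c * S0 p N) ≤ (W0 p : ℝ) ^ 4 * (C * Real.log (zz p N)) ^ n :=
          mul_le_mul_of_nonneg_left h3 (by positivity)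
      _ = (W0 p : ℝ) ^ 4 * C ^ n * Real.log (zz p N) ^ n := by rw [mul_pow]; ring
      _ ≤ zz p N := hz

end Pool.Agent.Lib.MP391708.T1
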