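import Pool.Agent.Lib.MP_391708_nt.T1.ESpecC
import Pool.Agent.Lib.MP_391708_nt.T1.EVS
import Pool.Agent.Lib.MP_391708_nt.T1.ERT
import Pool.Agent.Lib.MP_391708_nt.T4.ISm

/-!
# Theorem T1, group E, module EDU: decomposition of the PHU sum
-/

set_option autoImplicit false

namespace Pool.Agent.Lib.MP391708.T1

namespace EDU

open Finset
open scoped Classical

noncomputable section

/-! ## general lemmas -/

lemma sum_le_of_inj {α β : Type*} {s : Finset α} {t : Finset β} (g : α → β) (f : α → ℝ)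
    (h : β → ℝ) (hg : ∀ a ∈ s, g a ∈ t) (hinj : Set.InjOn g s) (hle : ∀ a ∈ s, f a ≤ h (g a))
    (h0 : ∀ b ∈ t, 0 ≤ h b) : ∑ a ∈ s, f a ≤ ∑ b ∈ t, h b := by
  calc ∑ a ∈ s, f a ≤ ∑ a ∈ s, h (g a) := sum_le_sum hle
    _ = ∑ b ∈ s.image g, h b := (sum_image (fun a ha b hb hab => hinj ha hb hab)).symm
    _ ≤ ∑ b ∈ t, h b := sum_le_sum_of_subset_of_nonneg
        (by intro b hb; obtain ⟨a, ha, rfl⟩ := mem_image.1 hb; exact hg a ha)
        (fun b hb _ => h0 b hb)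

/-! ## the tilt as a product of local functions -/

variable {p : T4.Prm} {N : ℕ}

lemma F1_eq {σ : ℤ} (hσ : σ * σ = 1) (M G P Q : ℕ) (t : ℤ × ℕ) :
    T4.F1 (M, G, P, Q, t) = F1 (σ * M) G P Q (σ * t.1) := by
  unfold T4.F1 F1 T4.rP T4.rD T4.rM T4.rG T4.rQ
  linear_combination (-(P : ℤ) * t.1 ^ 2 + 2 * M * t.1) * hσ

lemma F2_eq {σ : ℤ} (hσ : σ * σ = 1) (M G P Q : ℕ) (t : ℤ × ℕ) :
    T4.F2 (M, G, P, Q, t) = F2 (σ * M) G P Q (σ * T4.D2 (M, G, P, Q, t)) := by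
  unfold T4.F2 F2 T4.rP T4.rM T4.rG T4.rQ
  linear_combination (-(Q : ℤ) * T4.D2 (M, G, P, Q, t) ^ 2 - 2 * M * T4.D2 (M, G, P, Q, t)) * hσ

lemma D2_mul {M G P Q : ℕ} {t : ℤ × ℕ} (hd : t.1 ∣ (t.2 : ℤ) - G) :
    t.1 * T4.D2 (M, G, P, Q, t) = t.2 - G := by
  unfold T4.D2 T4.rX T4.rG T4.rD
  exact Int.mul_ediv_cancel' hd

lemma tilt_eq {M G P Q : ℕ} {s : ℤ} (hs : s * s = 1) (bT bR : ℝ) {t : ℤ × ℕ} (hX : 0 < t.2)
    (hd : t.1 ∣ (t.2 : ℤ) - G) :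
    T4.tilt p N bT bR (M, G, P, Q, t) =
      wU p N (s * M) G P Q (T4.sm p N t.2) bT bR (s * t.1) (s * T4.D2 (M, G, P, Q, t)) := by
  have hσM : (s * (M : ℤ)) ^ 2 + 1 = (M : ℤ) ^ 2 + 1 := by
    linear_combination (M : ℤ) ^ 2 * hs
  have hXe : (G : ℤ) + s * t.1 * (s * T4.D2 (M, G, P, Q, t)) = t.2 := by
    have h1 := D2_mul (M := M) (P := P) (Q := Q) hd
    linear_combination h1 + t.1 * T4.D2 (M, G, P, Q, t) * hs
  have hMd : ∀ l : ℕ, (l : ℤ) ∣ (s * (M : ℤ)) ^ 2 + 1 ↔ l ∣ M ^ 2 + 1 := by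
    intro l
    rw [hσM]
    exact_mod_cast Iff.rfl
  unfold T4.tilt wU
  refine prod_congr ?_ ?_
  · refine filter_congr fun l hl => ?_
    change ¬ l ∣ (M ^ 2 + 1) * t.2 ↔ _
    rw [hMd, T4.I.dvd_sm_iff hX.ne' hl, (T4.I.prime_of_mem_PP hl).dvd_mul]
    tauto
  · intro l hl
    obtain ⟨hl1, hl2, hl3⟩ := mem_filter.1 hl
    have hlX : ¬ l ∣ t.2 := by rwa [← T4.I.dvd_sm_iff hX.ne' hl1]
    rw [F1_eq hs, F2_eq hs, wgt, if_neg (show ¬ (l : ℤ) ∣ G + s * t.1 *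
      (s * T4.D2 (M, G, P, Q, t)) by rw [hXe]; exact_mod_cast hlX)]

/-! ## `2 ^ ω` as a number of Gaussian integers -/

lemma dn_eq {X R : ℕ} (hX : 0 < X) (hsq : Squarefree X)
    (h4 : ∀ l : ℕ, l.Prime → l ∣ X → l % 4 = 1) (hR : X / T4.sm p N X ≤ R) :
    T4.dn (X / T4.sm p N X) = (T4.sm p N X : ℝ) / (4 * X) *
      (((dk R).filter (fun k => (T4.sm p N X : ℤ) * nk k = X)).card : ℝ) := by
  set b := T4.sm p N X with hb
  have hbX : b ∣ X := T4.I.sm_dvd hX.ne'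
  have hb0 : 0 < b := T4.I.sm_pos X
  have hY : b * (X / b) = X := Nat.mul_div_cancel' hbX
  have hY0 : 0 < X / b := Nat.div_pos (Nat.le_of_dvd hX hbX) hb0
  have hYX : X / b ∣ X := ⟨b, by rw [mul_comm]; exact hY.symm⟩
  have h1 := specERT (X / b) R hY0 (hsq.squarefree_of_dvd hYX)
    (fun l hl hd => h4 l hl (hd.trans hYX)) hR
  have h2 : (dk R).filter (fun k => (b : ℤ) * nk k = X) =
      (dk R).filter (fun k => nk k = ((X / b : ℕ) : ℤ)) := by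
    refine filter_congr fun k _ => ?_
    have h3 : ((X : ℕ) : ℤ) = (b : ℤ) * ((X / b : ℕ) : ℤ) := by exact_mod_cast hY.symm
    rw [h3]
    exact mul_right_inj' (by exact_mod_cast hb0.ne')
  rw [h2, h1]
  unfold T4.dn T4.wn
  have h3 : (X : ℝ) = b * ((X / b : ℕ) : ℝ) := by exact_mod_cast hY.symm
  have hb1 : (b : ℝ) ≠ 0 := by exact_mod_cast hb0.ne'
  have hY1 : ((X / b : ℕ) : ℝ) ≠ 0 := by exact_mod_cast hY0.ne'
  rw [h3]
  push_cast
  field_simp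

/-! ## assembly -/

lemma rp_pos (D : ℕ) : 0 < rp D := by
  rw [← EVS.rp_eq]
  unfold T4.rp
  refine prod_pos fun l hl => ?_
  have h1 : (2 : ℝ) ≤ l := by exact_mod_cast (Nat.prime_of_mem_primeFactors hl).two_le
  have h2 : T4.ch l / l ≤ 1 / 2 := by
    rw [div_le_div_iff₀ (by linarith) (by norm_num)]
    have h3 : T4.ch l ≤ 1 := by
      unfold T4.ch
      rcases ZMod.isQuadratic_χ₄ (l : ZMod 4) with h | h | h <;> rw [h] <;> norm_num
    linarith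
  linarith

lemma wgt_nonneg (l : ℕ) (M : ℤ) (G P Q : ℕ) {bT bR : ℝ} (hT : 0 ≤ bT) (hR : 0 ≤ bR) (d e : ℤ) :
    0 ≤ wgt l M G P Q bT bR d e := by
  unfold wgt
  split_ifs <;> positivity

lemma wU_nonneg (M : ℤ) (G P Q n : ℕ) {bT bR : ℝ} (hT : 0 ≤ bT) (hR : 0 ≤ bR) (d e : ℤ) :
    0 ≤ wU p N M G P Q n bT bR d e :=
  prod_nonneg fun l _ => wgt_nonneg l M G P Q hT hR d e

/-- the summation set of `UU` for given `D` -/
def KU (p : T4.Prm) (M : ℕ) (s : ℤ) (G P Q n : ℕ) (c : ℤ → ℤ → ℤ → Prop) (D : ℕ) :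
    Finset (ℤ × ℤ) :=
  (dk ⌊(D : ℝ) * LU M G P / n⌋₊).filter (fun k => 0 < nk k ∧
    ((D * T4.W0 p : ℕ) : ℤ) ∣ n * nk k - G ∧
    c (F1 (s * M) G P Q D) (F2 (s * M) G P Q ((n * nk k - G) / D)) (n * nk k))

lemma UU_eq (M : ℕ) (s : ℤ) (G P Q n : ℕ) (bT bR : ℝ) (c : ℤ → ℤ → ℤ → Prop) :
    UU p N M s G P Q n bT bR c =
      ∑ D ∈ DD (T4.W0 p) n (s * M) G P Q ((M - 1) / (3 * P)) (10 * M / P), (1 / rp D) *
        ∑ k ∈ KU p M s G P Q n c D,
          wU p N (s * M) G P Q n bT bR D ((n * nk k - G) / D) := rfl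

lemma om_eq {X : ℕ} (hX : 0 < X) : T4.om p N X = (T4.sm p N X).primeFactors.card := by
  unfold T4.om
  congr 1
  ext l
  rw [mem_filter, Nat.mem_primeFactors]
  constructor
  · rintro ⟨h1, h2⟩
    exact ⟨T4.I.prime_of_mem_PP h1, (T4.I.dvd_sm_iff hX.ne' h1).2 h2, (T4.I.sm_pos X).ne'⟩
  · rintro ⟨h1, h2, -⟩
    exact T4.I.mem_PP_of_dvd_sm h1 h2

attribute [local irreducible] T4.dbox

lemma D_ne_zero {M G P Q : ℕ} {t : ℤ × ℕ} (ht : t ∈ T4.S2 p N M G P Q) : t.1 ≠ 0 := by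
  obtain ⟨-, ⟨hD0, -⟩, -⟩ := mem_filter.1 ht
  exact hD0

lemma sum_split (M G P Q : ℕ) (c : ℤ → ℤ → ℤ → Prop) (f : ℤ × ℕ → ℝ) :
    ∑ t ∈ (T4.S2 p N M G P Q).filter
        (fun t => c (T4.F1 (M, G, P, Q, t)) (T4.F2 (M, G, P, Q, t)) (t.2 : ℤ)), f t =
      ∑ t ∈ ((T4.S2 p N M G P Q).filter
        (fun t => c (T4.F1 (M, G, P, Q, t)) (T4.F2 (M, G, P, Q, t)) (t.2 : ℤ))).filter
        (fun t => 0 < 1 * t.1), f t +
      ∑ t ∈ ((T4.S2 p N M G P Q).filter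
        (fun t => c (T4.F1 (M, G, P, Q, t)) (T4.F2 (M, G, P, Q, t)) (t.2 : ℤ))).filter
        (fun t => 0 < -1 * t.1), f t := by
  rw [← sum_filter_add_sum_filter_not ((T4.S2 p N M G P Q).filter
        (fun t => c (T4.F1 (M, G, P, Q, t)) (T4.F2 (M, G, P, Q, t)) (t.2 : ℤ)))
        (fun t => 0 < 1 * t.1)]
  congr 1
  refine sum_congr (filter_congr fun t ht => ?_) fun _ _ => rfl
  have h4 : t.1 ≠ 0 := D_ne_zero (mem_filter.1 ht).1
  omega

/-- the numbers `n` -/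
def NS (p : T4.Prm) (N G : ℕ) : Finset ℕ :=
  (SQ (T4.PP p N) (T4.zz p N ^ (4 * p.K))).filter (fun n => n.Coprime G)

lemma mem_facts {M G P Q : ℕ} {c : ℤ → ℤ → ℤ → Prop} (hM : 0 < M) (hP : 0 < P)
    {s : ℤ} (hs : s * s = 1) {t : ℤ × ℕ} (ht : t ∈ T4.S2 p N M G P Q)
    (hc : c (T4.F1 (M, G, P, Q, t)) (T4.F2 (M, G, P, Q, t)) (t.2 : ℤ)) (hpos : 0 < s * t.1)
    (hF : (T4.sm p N t.2 : ℤ) ∣ T4.F1 (M, G, P, Q, t)) :
    0 < t.2 ∧ (t.1.natAbs : ℤ) = s * t.1 ∧ T4.sm p N t.2 ∈ NS p N G ∧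
    t.1.natAbs ∈ DD (T4.W0 p) (T4.sm p N t.2) (s * M) G P Q ((M - 1) / (3 * P)) (10 * M / P) ∧
    ∀ k : ℤ × ℤ, (T4.sm p N t.2 : ℤ) * nk k = t.2 →
      ((T4.sm p N t.2 : ℤ) * nk k - G) / (t.1.natAbs : ℤ) = s * T4.D2 (M, G, P, Q, t) ∧
      k ∈ KU p M s G P Q (T4.sm p N t.2) c t.1.natAbs := by
  obtain ⟨-, ⟨hD0, hdvd, hW1, hW2, hXW, hXsq, hX4, hGX, hDG⟩, h1, h2, -, h4, -, h6, h7⟩ :=
    mem_filter.1 ht
  have hX : 0 < t.2 := hXsq.ne_zero.bot_lt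
  set X := t.2 with hXdef
  set n := T4.sm p N X with hn
  have hn0 : 0 < n := T4.I.sm_pos X
  have hnX : n ∣ X := T4.I.sm_dvd hX.ne'
  have habs : (t.1.natAbs : ℤ) = s * t.1 := by
    rcases mul_self_eq_one_iff.1 hs with h | h
    · rw [h] at hpos ⊢; omega
    · rw [h] at hpos ⊢; omega
  have habs' : |t.1| = s * t.1 := by rw [← habs]; exact Int.abs_eq_natAbs _
  have hDpos : 0 < t.1.natAbs := Int.natAbs_pos.2 hD0
  have hnG : n.Coprime G := (hGX.symm.coprime_dvd_left hnX)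
  have hnSQ : n ∈ SQ (T4.PP p N) (T4.zz p N ^ (4 * p.K)) := by
    unfold SQ
    refine mem_filter.2 ⟨mem_Icc.2 ⟨hn0, Nat.le_floor h7⟩, hXsq.squarefree_of_dvd hnX, ?_⟩
    intro l hl hd
    exact (T4.I.mem_PP_of_dvd_sm hl hd).1
  have hDn : t.1.natAbs.Coprime n := by
    refine Nat.coprime_of_dvd fun q hq hq1 hq2 => ?_
    have e1 : (q : ℤ) ∣ t.1 := Int.natCast_dvd.2 hq1
    have e2 : (q : ℤ) ∣ (X : ℤ) := by exact_mod_cast hq2.trans hnX
    have e3 : (q : ℤ) ∣ (G : ℤ) := by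
      have := (e1.trans hdvd)
      have e4 := dvd_sub e2 this
      simpa using e4
    have e5 : q ∣ G := by exact_mod_cast e3
    exact hq.one_lt.ne' (Nat.eq_one_of_dvd_coprimes hGX e5 (hq2.trans hnX))
  have hDG' : t.1.natAbs.Coprime G := by
    have := hDG
    rw [Int.isCoprime_iff_gcd_eq_one, Int.gcd] at this
    simpa using this
  have hF1 : F1 (s * M) G P Q (t.1.natAbs : ℤ) = T4.F1 (M, G, P, Q, t) := by
    rw [habs]; exact (F1_eq hs M G P Q t).symm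
  refine ⟨hX, habs, mem_filter.2 ⟨hnSQ, hnG⟩, ?_, ?_⟩
  · unfold DD
    refine mem_filter.2 ⟨mem_Ioc.2 ⟨?_, ?_⟩, ?_, hDG', hDn, ?_⟩
    · rw [Nat.div_lt_iff_lt_mul (by positivity)]
      have : (M : ℤ) ≤ 3 * ((t.1.natAbs : ℤ) * P) := by rw [habs, ← habs']; exact h1
      have h8 : M ≤ 3 * (t.1.natAbs * P) := by exact_mod_cast this
      have h9 : t.1.natAbs * (3 * P) = 3 * (t.1.natAbs * P) := by ring
      omega
    · rw [Nat.le_div_iff_mul_le hP]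
      have : (t.1.natAbs : ℤ) * P ≤ 10 * (M : ℤ) := by rw [habs, ← habs']; exact h2
      exact_mod_cast this
    · exact Int.natCast_dvd.1 hW1
    · rw [hF1]; exact hF
  · intro k hk
    have hdiv : ((n : ℤ) * nk k - G) / (t.1.natAbs : ℤ) = s * T4.D2 (M, G, P, Q, t) := by
      rw [hk, habs]
      have e1 := D2_mul (M := M) (P := P) (Q := Q) hdvd
      have e2 : ((X : ℤ) - G) = s * t.1 * (s * T4.D2 (M, G, P, Q, t)) := by
        linear_combination -e1 - t.1 * T4.D2 (M, G, P, Q, t) * hs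
      rw [e2]
      exact Int.mul_ediv_cancel_left _ hpos.ne'
    refine ⟨hdiv, ?_⟩
    unfold KU
    refine mem_filter.2 ⟨?_, ?_, ?_, ?_⟩
    · rw [mem_dk]
      have e0 := nk_nonneg k
      obtain ⟨m, hm⟩ := Int.eq_ofNat_of_zero_le e0
      rw [hm] at hk ⊢
      have e1 : n * m = X := by exact_mod_cast hk
      have hMr : (0 : ℝ) < M := by exact_mod_cast hM
      have hnr : (0 : ℝ) < n := by exact_mod_cast hn0
      have e2 : (m : ℝ) ≤ (t.1.natAbs : ℝ) * LU M G P / n := by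
        rw [le_div_iff₀ hnr]
        have e3 : (n : ℝ) * m ≤ 100 * G := by
          have : n * m ≤ 100 * G := by rw [e1]; exact h4
          exact_mod_cast this
        have e4 : (M : ℝ) ≤ 3 * ((t.1.natAbs : ℝ) * P) := by
          have : (M : ℤ) ≤ 3 * ((t.1.natAbs : ℤ) * P) := by rw [habs, ← habs']; exact h1
          exact_mod_cast this
        have e5 : (t.1.natAbs : ℝ) * LU M G P = 100 * G * (3 * (t.1.natAbs * P) / M) := by
          unfold LU; ring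
        rw [e5]
        have e6 : 1 ≤ 3 * ((t.1.natAbs : ℝ) * P) / M := by rwa [le_div_iff₀ hMr, one_mul]
        have e7 : (0 : ℝ) ≤ 100 * G := by positivity
        nlinarith
      exact_mod_cast Nat.le_floor e2
    · have : (0 : ℤ) < n * nk k := by rw [hk]; exact_mod_cast hX
      exact pos_of_mul_pos_right this (by positivity)
    · rw [hk]
      have e1 := D2_mul (M := M) (P := P) (Q := Q) hdvd
      rw [Nat.cast_mul, habs]
      obtain ⟨u, hu⟩ := hW2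
      rw [hu] at e1
      refine ⟨s * u, ?_⟩
      linear_combination -e1 - t.1 * T4.W0 p * u * hs
    · rw [hdiv, hF1, hk, ← F2_eq hs]
      exact hc

/-- the summand -/
def Ph (p : T4.Prm) (N M : ℕ) (s : ℤ) (G P Q : ℕ) (al bT bR : ℝ) (n D : ℕ) (k : ℤ × ℤ) : ℝ :=
  25 / G * (al ^ n.primeFactors.card * n * ((1 / rp D) *
    wU p N (s * M) G P Q n bT bR D ((n * nk k - G) / D)))

lemma Ph_nonneg (M : ℕ) (s : ℤ) (G P Q : ℕ) {al bT bR : ℝ} (hal : 0 ≤ al) (hT : 0 ≤ bT)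
    (hR : 0 ≤ bR) (n D : ℕ) (k : ℤ × ℤ) : 0 ≤ Ph p N M s G P Q al bT bR n D k := by
  unfold Ph
  have h1 := rp_pos D
  have h2 := wU_nonneg (p := p) (N := N) (s * M) G P Q n hT hR (D : ℤ) ((n * nk k - G) / D)
  positivity

lemma vh_le {M G P Q : ℕ} {al bT bR : ℝ} {c : ℤ → ℤ → ℤ → Prop} (hM : 0 < M) (hG : 0 < G)
    (hP : 0 < P) (hal : 0 ≤ al) (hT : 0 ≤ bT) (hR : 0 ≤ bR)
    {s : ℤ} (hs : s * s = 1) {t : ℤ × ℕ} (ht : t ∈ T4.S2 p N M G P Q)
    (hc : c (T4.F1 (M, G, P, Q, t)) (T4.F2 (M, G, P, Q, t)) (t.2 : ℤ)) (hpos : 0 < s * t.1)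
    (hF : (T4.sm p N t.2 : ℤ) ∣ T4.F1 (M, G, P, Q, t)) :
    T4.vh p N al bT bR (M, G, P, Q, t) ≤
      ∑ k ∈ (KU p M s G P Q (T4.sm p N t.2) c t.1.natAbs).filter
        (fun k => (T4.sm p N t.2 : ℤ) * nk k = t.2),
        Ph p N M s G P Q al bT bR (T4.sm p N t.2) t.1.natAbs k := by
  obtain ⟨hX, habs, -, -, hk⟩ := mem_facts hM hP hs ht hc hpos hF
  obtain ⟨-, ⟨hD0, hdvd, hW1, hW2, hXW, hXsq, hX4, hGX, hDG⟩, h1, h2, -, h4, h5, h6, h7⟩ :=
    mem_filter.1 ht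
  have htilt := tilt_eq (p := p) (N := N) (P := P) (Q := Q) (M := M) hs bT bR hX hdvd
  have hom := om_eq (p := p) (N := N) hX
  have hdn := dn_eq (p := p) (N := N) hX hXsq hX4 le_rfl
  set X := t.2 with hXdef
  set n := T4.sm p N X with hn
  have hn0 : 0 < n := T4.I.sm_pos X
  set S₁ := (dk (X / n)).filter (fun k => (n : ℤ) * nk k = X) with hS₁
  set S₂ := (KU p M s G P Q n c t.1.natAbs).filter (fun k => (n : ℤ) * nk k = X) with hS₂
  have hcard : (S₁.card : ℝ) ≤ S₂.card := by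
    have : S₁ ⊆ S₂ := by
      intro k hk'
      have h8 := (mem_filter.1 hk').2
      exact mem_filter.2 ⟨(hk k h8).2, h8⟩
    exact_mod_cast card_le_card this
  have hsum : ∑ k ∈ S₂, Ph p N M s G P Q al bT bR n t.1.natAbs k =
      S₂.card * (25 / G * (al ^ n.primeFactors.card * n * ((1 / rp t.1.natAbs) *
        T4.tilt p N bT bR (M, G, P, Q, t)))) := by
    rw [sum_congr rfl (g := fun _ => 25 / G * (al ^ n.primeFactors.card * n *
      ((1 / rp t.1.natAbs) * T4.tilt p N bT bR (M, G, P, Q, t)))), sum_const, nsmul_eq_mul]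
    intro k hk'
    have h8 := (mem_filter.1 hk').2
    unfold Ph
    rw [htilt, (hk k h8).1, habs]
  rw [hsum]
  have hvh : T4.vh p N al bT bR (M, G, P, Q, t) = 1 / rp t.1.natAbs * al ^ n.primeFactors.card *
      ((n : ℝ) / (4 * X) * S₁.card) * T4.tilt p N bT bR (M, G, P, Q, t) := by
    unfold T4.vh
    change 1 / T4.rp t.1.natAbs * al ^ T4.om p N X * T4.dn (X / n) *
      (if (n : ℤ) ∣ T4.F1 (M, G, P, Q, t) then 1 else 0) * _ = _
    rw [if_pos hF, EVS.rp_eq, hom, hdn]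
    ring
  rw [hvh]
  have hrp := rp_pos t.1.natAbs
  have htn : 0 ≤ T4.tilt p N bT bR (M, G, P, Q, t) := by
    rw [htilt]; exact wU_nonneg _ _ _ _ _ hT hR _ _
  have hXr : (0 : ℝ) < X := by exact_mod_cast hX
  have hGr : (0 : ℝ) < G := by exact_mod_cast hG
  have hle : (n : ℝ) / (4 * X) ≤ 25 / G * n := by
    rw [div_le_iff₀ (by positivity)]
    have h9 : (G : ℝ) ≤ 100 * X := by exact_mod_cast h5
    have h10 : 25 / (G : ℝ) * n * (4 * X) = n * (100 * X / G) := by ring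
    rw [h10]
    have h11 : 1 ≤ 100 * (X : ℝ) / G := by rwa [le_div_iff₀ hGr, one_mul]
    have h12 : (0 : ℝ) ≤ n := Nat.cast_nonneg _
    nlinarith
  calc 1 / rp t.1.natAbs * al ^ n.primeFactors.card * ((n : ℝ) / (4 * X) * S₁.card) *
        T4.tilt p N bT bR (M, G, P, Q, t)
      ≤ 1 / rp t.1.natAbs * al ^ n.primeFactors.card * (25 / G * n * S₂.card) *
        T4.tilt p N bT bR (M, G, P, Q, t) := by
        have h13 : (n : ℝ) / (4 * X) * S₁.card ≤ 25 / G * n * S₂.card :=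
          mul_le_mul hle hcard (Nat.cast_nonneg _) (by positivity)
        exact mul_le_mul_of_nonneg_right (mul_le_mul_of_nonneg_left h13 (by positivity)) htn
    _ = _ := by ring

/-- one sign of `D` -/
lemma sum_sign {M G P Q : ℕ} {al bT bR : ℝ} {c : ℤ → ℤ → ℤ → Prop} (hM : 0 < M) (hG : 0 < G)
    (hP : 0 < P) (hal : 0 ≤ al) (hT : 0 ≤ bT) (hR : 0 ≤ bR) {s : ℤ} (hs : s * s = 1) :
    ∑ t ∈ ((T4.S2 p N M G P Q).filter
        (fun t => c (T4.F1 (M, G, P, Q, t)) (T4.F2 (M, G, P, Q, t)) (t.2 : ℤ))).filter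
        (fun t => 0 < s * t.1), T4.vh p N al bT bR (M, G, P, Q, t) ≤
      25 / G * ∑ n ∈ NS p N G, al ^ n.primeFactors.card * n * UU p N M s G P Q n bT bR c := by
  set T := ((T4.S2 p N M G P Q).filter
        (fun t => c (T4.F1 (M, G, P, Q, t)) (T4.F2 (M, G, P, Q, t)) (t.2 : ℤ))).filter
        (fun t => 0 < s * t.1) with hTdef
  set T' := T.filter (fun t => (T4.sm p N t.2 : ℤ) ∣ T4.F1 (M, G, P, Q, t)) with hT'
  have hmem : ∀ t ∈ T', t ∈ T4.S2 p N M G P Q ∧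
      c (T4.F1 (M, G, P, Q, t)) (T4.F2 (M, G, P, Q, t)) (t.2 : ℤ) ∧ 0 < s * t.1 ∧
      (T4.sm p N t.2 : ℤ) ∣ T4.F1 (M, G, P, Q, t) := by
    intro t ht
    obtain ⟨h1, h2⟩ := mem_filter.1 ht
    obtain ⟨h3, h4⟩ := mem_filter.1 h1
    obtain ⟨h5, h6⟩ := mem_filter.1 h3
    exact ⟨h5, h6, h4, h2⟩
  have h1 : ∑ t ∈ T, T4.vh p N al bT bR (M, G, P, Q, t) =
      ∑ t ∈ T', T4.vh p N al bT bR (M, G, P, Q, t) := by
    symm
    refine sum_subset (filter_subset _ _) fun t ht ht' => ?_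
    have h2 : ¬ (T4.sm p N t.2 : ℤ) ∣ T4.F1 (M, G, P, Q, t) := fun h => ht' (mem_filter.2 ⟨ht, h⟩)
    unfold T4.vh
    change 1 / T4.rp t.1.natAbs * al ^ T4.om p N t.2 * T4.dn (t.2 / T4.sm p N t.2) *
      (if (T4.sm p N t.2 : ℤ) ∣ T4.F1 (M, G, P, Q, t) then 1 else 0) * _ = _
    rw [if_neg h2, mul_zero, zero_mul]
  have h2 : 25 / (G : ℝ) * ∑ n ∈ NS p N G,
      al ^ n.primeFactors.card * n * UU p N M s G P Q n bT bR c =
      ∑ x ∈ (NS p N G).sigma (fun n => (DD (T4.W0 p) n (s * M) G P Q ((M - 1) / (3 * P))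
        (10 * M / P)).sigma (fun D => KU p M s G P Q n c D)),
        Ph p N M s G P Q al bT bR x.1 x.2.1 x.2.2 := by
    rw [sum_sigma, mul_sum]
    refine sum_congr rfl fun n _ => ?_
    rw [sum_sigma, UU_eq, mul_sum, mul_sum]
    refine sum_congr rfl fun D _ => ?_
    rw [mul_sum, mul_sum, mul_sum]
    refine sum_congr rfl fun k _ => ?_
    unfold Ph
    ring
  rw [h1, h2]
  refine (sum_le_sum fun t ht => vh_le (al := al) (bT := bT) (bR := bR) (c := c) hM hG hP hal hT hR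
    hs (hmem t ht).1 (hmem t ht).2.1 (hmem t ht).2.2.1 (hmem t ht).2.2.2).trans ?_
  rw [← sum_sigma (σ := fun _ => ℤ × ℤ) T' (fun t => (KU p M s G P Q (T4.sm p N t.2) c
    t.1.natAbs).filter (fun k => (T4.sm p N t.2 : ℤ) * nk k = t.2))
    (fun x => Ph p N M s G P Q al bT bR (T4.sm p N x.1.2) x.1.1.natAbs x.2)]
  refine sum_le_of_inj (fun x => ⟨T4.sm p N x.1.2, ⟨x.1.1.natAbs, x.2⟩⟩) _ _ ?_ ?_ ?_ ?_
  · rintro ⟨t, k⟩ hx
    obtain ⟨ht, hk⟩ := mem_sigma.1 hx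
    obtain ⟨hm1, hm2, hm3, hm4⟩ := hmem t ht
    obtain ⟨hX, habs, hn, hD, hk'⟩ := mem_facts hM hP hs hm1 hm2 hm3 hm4
    exact mem_sigma.2 ⟨hn, mem_sigma.2 ⟨hD, (mem_filter.1 hk).1⟩⟩
  · rintro ⟨t, k⟩ hx ⟨t', k'⟩ hx' he
    obtain ⟨ht, hk⟩ := mem_sigma.1 hx
    obtain ⟨ht', hk'⟩ := mem_sigma.1 hx'
    obtain ⟨hm1, hm2, hm3, hm4⟩ := hmem t ht
    obtain ⟨hm1', hm2', hm3', hm4'⟩ := hmem t' ht'
    have ha := (mem_facts hM hP hs hm1 hm2 hm3 hm4).2.1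
    have ha' := (mem_facts hM hP hs hm1' hm2' hm3' hm4').2.1
    have hk2 := (mem_filter.1 hk).2
    have hk2' := (mem_filter.1 hk').2
    simp only [Sigma.mk.injEq, heq_eq_eq] at he
    obtain ⟨e1, e2, e3⟩ := he
    subst e3
    have h3 : t.2 = t'.2 := by
      have : (t.2 : ℤ) = t'.2 := by
        rw [← hk2, ← hk2', e1]
      exact_mod_cast this
    have h4 : t.1 = t'.1 := by
      have h5 : s * t.1 = s * t'.1 := by rw [← ha, ← ha', e2]
      linear_combination s * h5 - (t.1 - t'.1) * hs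
    have h5 : t = t' := Prod.ext h4 h3
    subst h5
    rfl
  · intro x _
    exact le_rfl
  · intro x _
    exact Ph_nonneg _ _ _ _ _ hal hT hR _ _ _

end

end EDU

open scoped Classical in
/-- **EDU** -/
theorem specEDU : SpecEDU := by
  intro p N M G P Q al bT bR c _ _ _ _ hM hG hP _ hal _ hT _ hR _
  have h1 := EDU.sum_sign (p := p) (N := N) (Q := Q) (c := c) hM hG hP hal hT hR
    (s := 1) (by norm_num)
  have h2 := EDU.sum_sign (p := p) (N := N) (Q := Q) (c := c) hM hG hP hal hT hR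
    (s := -1) (by norm_num)
  have h3 : 25 / (G : ℝ) * ∑ n ∈ (SQ (T4.PP p N) (T4.zz p N ^ (4 * p.K))).filter
      (fun n => n.Coprime G), al ^ n.primeFactors.card * n *
        (UU p N M 1 G P Q n bT bR c + UU p N M (-1) G P Q n bT bR c) =
      25 / (G : ℝ) * ∑ n ∈ EDU.NS p N G,
        al ^ n.primeFactors.card * n * UU p N M 1 G P Q n bT bR c +
      25 / (G : ℝ) * ∑ n ∈ EDU.NS p N G,
        al ^ n.primeFactors.card * n * UU p N M (-1) G P Q n bT bR c := by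
    rw [← mul_add, ← Finset.sum_add_distrib]
    congr 1
    exact Finset.sum_congr rfl fun n _ => by ring
  rw [h3]
  refine le_trans (le_of_eq ?_) (add_le_add h1 h2)
  exact EDU.sum_split M G P Q c _

end Pool.Agent.Lib.MP391708.T1
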