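import Mathlib

/-!
# Theorem T1, module ELP: lattice points in discs and residue classes, uniformly in the modulus
-/

set_option autoImplicit false

namespace Pool.Agent.Lib.MP391708.T1

open Finset MeasureTheory

/-- the norm of a Gaussian integer -/
noncomputable def nk (k : ℤ × ℤ) : ℤ := k.1 ^ 2 + k.2 ^ 2

/-- the Gaussian integers of norm at most `R` -/
noncomputable def dk (R : ℕ) : Finset (ℤ × ℤ) :=
  (Icc (-(R : ℤ)) R ×ˢ Icc (-(R : ℤ)) R).filter (fun k => nk k ≤ R)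

lemma nk_nonneg (k : ℤ × ℤ) : 0 ≤ nk k := by unfold nk; positivity

lemma mem_dk {R : ℕ} {k : ℤ × ℤ} : k ∈ dk R ↔ nk k ≤ R := by
  unfold dk
  rw [mem_filter, and_iff_right_of_imp]
  intro h
  unfold nk at h
  rw [mem_product, mem_Icc, mem_Icc]
  refine ⟨⟨?_, ?_⟩, ?_, ?_⟩ <;> nlinarith [sq_nonneg k.1, sq_nonneg k.2, sq_nonneg (k.1 + 1), sq_nonneg (k.1 - 1), sq_nonneg (k.2 + 1), sq_nonneg (k.2 - 1)]

namespace ELP

/-- the half open square of side `m` with lower left corner `z` -/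
def sq (m : ℕ) (z : ℤ × ℤ) : Set ℂ :=
  {p | ((z.1 : ℝ) ≤ p.re ∧ p.re < z.1 + m) ∧ ((z.2 : ℝ) ≤ p.im ∧ p.im < z.2 + m)}

lemma sq_eq (m : ℕ) (z : ℤ × ℤ) : sq m z = Complex.measurableEquivRealProd ⁻¹'
    ((Set.Ico (z.1 : ℝ) (z.1 + m)) ×ˢ (Set.Ico (z.2 : ℝ) (z.2 + m))) := by
  ext p
  simp [sq, Complex.measurableEquivRealProd_apply]

lemma measurableSet_sq (m : ℕ) (z : ℤ × ℤ) : MeasurableSet (sq m z) := by
  rw [sq_eq]
  exact Complex.measurableEquivRealProd.measurable (measurableSet_Ico.prod measurableSet_Ico)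

lemma volume_sq (m : ℕ) (z : ℤ × ℤ) : volume (sq m z) = ENNReal.ofReal ((m : ℝ) ^ 2) := by
  rw [sq_eq, Complex.volume_preserving_equiv_real_prod.measure_preimage
    (measurableSet_Ico.prod measurableSet_Ico).nullMeasurableSet, Measure.volume_eq_prod,
    Measure.prod_prod, Real.volume_Ico, Real.volume_Ico, add_sub_cancel_left, add_sub_cancel_left,
    ← ENNReal.ofReal_mul (Nat.cast_nonneg _), ← pow_two]

/-- the complex number of a lattice point -/
noncomputable def cx (z : ℤ × ℤ) : ℂ := ⟨(z.1 : ℝ), (z.2 : ℝ)⟩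

lemma norm_cx_sq (z : ℤ × ℤ) : ‖cx z‖ ^ 2 = (nk z : ℝ) := by
  rw [← Complex.normSq_eq_norm_sq, Complex.normSq_apply]
  unfold cx nk
  push_cast
  ring

lemma norm_sub_le' {m : ℕ} {z : ℤ × ℤ} {p : ℂ} (h : p ∈ sq m z) : ‖p - cx z‖ ≤ 2 * m := by
  obtain ⟨⟨h1, h2⟩, h3, h4⟩ := h
  refine (Complex.norm_le_abs_re_add_abs_im _).trans ?_
  have e1 : (p - cx z).re = p.re - z.1 := by simp [cx]
  have e2 : (p - cx z).im = p.im - z.2 := by simp [cx]
  rw [e1, e2, abs_of_nonneg (by linarith), abs_of_nonneg (by linarith)]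
  linarith

/-- lattice points in discs and residue classes -/
theorem disc {m : ℕ} (hm : 0 < m) (w : ℤ × ℤ) (R : ℕ) :
    |(((dk R).filter (fun k => (m : ℤ) ∣ k.1 - w.1 ∧ (m : ℤ) ∣ k.2 - w.2)).card : ℝ)
      - Real.pi * R / (m : ℝ) ^ 2| ≤ 16 * (Real.sqrt R / m + 1) := by
  classical
  have hm1 : (1 : ℝ) ≤ m := by exact_mod_cast hm
  have hm0 : (0 : ℝ) < m := by linarith
  set r := Real.sqrt R with hr
  have hr0 : 0 ≤ r := Real.sqrt_nonneg _
  have hrY : r ^ 2 = R := Real.sq_sqrt (Nat.cast_nonneg _)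
  set cond : ℤ × ℤ → Prop := fun k => (m : ℤ) ∣ k.1 - w.1 ∧ (m : ℤ) ∣ k.2 - w.2 with hcond
  set S1 := (dk R).filter cond with hS1
  have hmem : ∀ z, z ∈ S1 ↔ (nk z : ℝ) ≤ R ∧ cond z := by
    intro z
    rw [hS1, mem_filter, mem_dk]
    have : ((nk z : ℝ) ≤ R) ↔ nk z ≤ (R : ℤ) := by exact_mod_cast Iff.rfl
    rw [this]
  have hdisj : Set.PairwiseDisjoint (↑S1 : Set (ℤ × ℤ)) (sq m) := by
    intro z hz z' hz' hne
    rw [Function.onFun, Set.disjoint_left]
    rintro p ⟨⟨a1, a2⟩, a3, a4⟩ ⟨⟨b1, b2⟩, b3, b4⟩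
    apply hne
    have hz := ((hmem z).1 hz).2
    have hz' := ((hmem z').1 hz').2
    have key : ∀ a b c : ℤ, (m : ℤ) ∣ a - c → (m : ℤ) ∣ b - c → (a : ℝ) < b + m →
        (b : ℝ) < a + m → a = b := by
      intro a b c h1 h2 h3 h4
      have h5 : (m : ℤ) ∣ a - b := by
        have := dvd_sub h1 h2
        rwa [sub_sub_sub_cancel_right] at this
      have h3' : a < b + m := by exact_mod_cast h3
      have h4' : b < a + m := by exact_mod_cast h4
      have := Int.eq_zero_of_abs_lt_dvd h5 (by rw [abs_lt]; constructor <;> omega)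
      omega
    exact Prod.ext (key _ _ _ hz.1 hz'.1 (by linarith) (by linarith))
      (key _ _ _ hz.2 hz'.2 (by linarith) (by linarith))
  have hvol : volume (⋃ z ∈ S1, sq m z) = ENNReal.ofReal (S1.card * (m : ℝ) ^ 2) := by
    rw [measure_biUnion_finset hdisj (fun z _ => measurableSet_sq m z),
      Finset.sum_congr rfl (fun z _ => volume_sq m z), sum_const, nsmul_eq_mul,
      ENNReal.ofReal_mul (Nat.cast_nonneg _), ENNReal.ofReal_natCast]
  have hball : ∀ R : ℝ, 0 ≤ R → volume (Metric.closedBall (0 : ℂ) R) =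
      ENNReal.ofReal (R ^ 2 * Real.pi) := by
    intro R hR
    rw [Complex.volume_closedBall, ENNReal.ofReal_mul (by positivity),
      ENNReal.ofReal_pow hR]
    congr 1
    rw [← NNReal.coe_real_pi, ENNReal.ofReal_coe_nnreal]
  have hnr : ∀ z, z ∈ S1 → ‖cx z‖ ≤ r := by
    intro z hz
    have h1 := ((hmem z).1 hz).1
    rw [← norm_cx_sq, ← hrY] at h1
    exact (pow_le_pow_iff_left₀ (norm_nonneg _) hr0 two_ne_zero).1 h1
  -- upper bound
  have hup : (S1.card : ℝ) * (m : ℝ) ^ 2 ≤ (r + 2 * m) ^ 2 * Real.pi := by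
    have h1 : (⋃ z ∈ S1, sq m z) ⊆ Metric.closedBall (0 : ℂ) (r + 2 * m) := by
      intro p hp
      rw [Set.mem_iUnion₂] at hp
      obtain ⟨z, hz, hpz⟩ := hp
      rw [mem_closedBall_zero_iff]
      have h2 := norm_sub_le' hpz
      have h3 := hnr z hz
      calc ‖p‖ = ‖(p - cx z) + cx z‖ := by rw [sub_add_cancel]
        _ ≤ ‖p - cx z‖ + ‖cx z‖ := norm_add_le _ _
        _ ≤ r + 2 * m := by linarith
    have h2 := measure_mono (μ := volume) h1
    rw [hvol, hball _ (by positivity), ENNReal.ofReal_le_ofReal_iff (by positivity)] at h2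
    exact h2
  -- lower bound
  have hlow : (r ^ 2 - 4 * m * r) * Real.pi ≤ (S1.card : ℝ) * (m : ℝ) ^ 2 := by
    rcases lt_or_ge r (2 * m) with hlt | hge
    · have : (r ^ 2 - 4 * m * r) * Real.pi ≤ 0 := by
        apply mul_nonpos_of_nonpos_of_nonneg _ Real.pi_pos.le
        nlinarith
      have : 0 ≤ (S1.card : ℝ) * (m : ℝ) ^ 2 := by positivity
      linarith
    · have h1 : Metric.closedBall (0 : ℂ) (r - 2 * m) ⊆ (⋃ z ∈ S1, sq m z) := by
        intro p hp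
        rw [mem_closedBall_zero_iff] at hp
        set z : ℤ × ℤ := ⟨w.1 + m * ⌊(p.re - w.1) / m⌋, w.2 + m * ⌊(p.im - w.2) / m⌋⟩ with hz
        have key : ∀ (a : ℤ) (x : ℝ), ((a + m * ⌊(x - a) / m⌋ : ℤ) : ℝ) ≤ x ∧
            x < ((a + m * ⌊(x - a) / m⌋ : ℤ) : ℝ) + m := by
          intro a x
          have h2 := Int.floor_le ((x - a) / (m : ℝ))
          have h3 := Int.lt_floor_add_one ((x - a) / (m : ℝ))
          rw [le_div_iff₀ hm0] at h2
          rw [div_lt_iff₀ hm0] at h3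
          push_cast
          constructor <;> nlinarith
        have hpz : p ∈ sq m z := ⟨key w.1 p.re, key w.2 p.im⟩
        rw [Set.mem_iUnion₂]
        refine ⟨z, (hmem z).2 ⟨?_, ?_, ?_⟩, hpz⟩
        · have h2 := norm_sub_le' hpz
          have h3 : ‖cx z‖ ≤ r := by
            calc ‖cx z‖ = ‖p - (p - cx z)‖ := by rw [sub_sub_cancel]
              _ ≤ ‖p‖ + ‖p - cx z‖ := norm_sub_le _ _
              _ ≤ r := by linarith
          rw [← norm_cx_sq, ← hrY]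
          exact pow_le_pow_left₀ (norm_nonneg _) h3 2
        · rw [hz]; simp
        · rw [hz]; simp
      have h2 := measure_mono (μ := volume) h1
      rw [hvol, hball _ (by linarith), ENNReal.ofReal_le_ofReal_iff (by positivity)] at h2
      refine le_trans ?_ h2
      apply mul_le_mul_of_nonneg_right _ Real.pi_pos.le
      nlinarith
  have hpi := Real.pi_pos
  have hpi4 := Real.pi_le_four
  have hdiv : Real.pi * R / (m : ℝ) ^ 2 * (m : ℝ) ^ 2 = Real.pi * r ^ 2 := by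
    rw [div_mul_cancel₀ _ (by positivity), hrY]
  have hrm : r / m * (m : ℝ) ^ 2 = r * m := by field_simp
  rw [abs_le]
  constructor
  · have h1 : (Real.pi * R / (m : ℝ) ^ 2 - 16 * (r / m + 1)) * (m : ℝ) ^ 2 ≤
        S1.card * (m : ℝ) ^ 2 := by
      have e : (Real.pi * R / (m : ℝ) ^ 2 - 16 * (r / m + 1)) * (m : ℝ) ^ 2 =
          Real.pi * r ^ 2 - 16 * (r * m) - 16 * (m : ℝ) ^ 2 := by
        rw [sub_mul, hdiv, mul_assoc, add_mul, hrm]; ring
      rw [e]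
      refine le_trans ?_ hlow
      nlinarith [mul_nonneg hr0 hm0.le, sq_nonneg (m : ℝ)]
    have := le_of_mul_le_mul_right h1 (by positivity)
    linarith
  · have h1 : (S1.card : ℝ) * (m : ℝ) ^ 2 ≤
        (Real.pi * R / (m : ℝ) ^ 2 + 16 * (r / m + 1)) * (m : ℝ) ^ 2 := by
      have e : (Real.pi * R / (m : ℝ) ^ 2 + 16 * (r / m + 1)) * (m : ℝ) ^ 2 =
          Real.pi * r ^ 2 + 16 * (r * m) + 16 * (m : ℝ) ^ 2 := by
        rw [add_mul, hdiv, mul_assoc, add_mul, hrm]; ring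
      rw [e]
      refine le_trans hup ?_
      nlinarith [mul_nonneg hr0 hm0.le, sq_nonneg (m : ℝ)]
    have := le_of_mul_le_mul_right h1 (by positivity)
    linarith

/-- lattice points in annuli and residue classes -/
theorem ann {m : ℕ} (hm : 0 < m) (w : ℤ × ℤ) {R₁ R₂ : ℕ} (h : R₁ ≤ R₂) :
    |(((dk R₂).filter (fun k => (R₁ : ℤ) < nk k ∧ (m : ℤ) ∣ k.1 - w.1 ∧ (m : ℤ) ∣ k.2 - w.2)).card : ℝ)
      - Real.pi * ((R₂ : ℝ) - R₁) / (m : ℝ) ^ 2| ≤ 32 * (Real.sqrt R₂ / m + 1) := by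
  classical
  have h1 := disc hm w R₁
  have h2 := disc hm w R₂
  have hm0 : (0 : ℝ) < m := by exact_mod_cast hm
  have h3 : Real.sqrt R₁ / m ≤ Real.sqrt R₂ / m := by
    apply div_le_div_of_nonneg_right _ hm0.le
    exact Real.sqrt_le_sqrt (by exact_mod_cast h)
  have h4 : ((dk R₂).filter (fun k => (m : ℤ) ∣ k.1 - w.1 ∧ (m : ℤ) ∣ k.2 - w.2)).card =
      ((dk R₂).filter (fun k => (R₁ : ℤ) < nk k ∧ (m : ℤ) ∣ k.1 - w.1 ∧ (m : ℤ) ∣ k.2 - w.2)).card +
      ((dk R₁).filter (fun k => (m : ℤ) ∣ k.1 - w.1 ∧ (m : ℤ) ∣ k.2 - w.2)).card := by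
    rw [← card_union_of_disjoint]
    · congr 1
      ext k
      rw [mem_filter, mem_union, mem_filter, mem_filter, mem_dk, mem_dk]
      have : (R₁ : ℤ) ≤ R₂ := by exact_mod_cast h
      constructor
      · rintro ⟨a, b⟩
        rcases le_or_gt (nk k) R₁ with c | c
        · exact Or.inr ⟨c, b⟩
        · exact Or.inl ⟨a, c, b⟩
      · rintro (⟨a, b, c⟩ | ⟨a, b⟩)
        · exact ⟨a, c⟩
        · exact ⟨by omega, b⟩
    · rw [disjoint_left]
      intro k hk hk'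
      rw [mem_filter] at hk hk'
      have := hk.2.1
      have := mem_dk.1 hk'.1
      omega
  have h5 : (((dk R₂).filter (fun k => (m : ℤ) ∣ k.1 - w.1 ∧ (m : ℤ) ∣ k.2 - w.2)).card : ℝ) =
      (((dk R₂).filter (fun k => (R₁ : ℤ) < nk k ∧ (m : ℤ) ∣ k.1 - w.1 ∧ (m : ℤ) ∣ k.2 - w.2)).card : ℝ) +
      (((dk R₁).filter (fun k => (m : ℤ) ∣ k.1 - w.1 ∧ (m : ℤ) ∣ k.2 - w.2)).card : ℝ) := by
    exact_mod_cast h4
  have h6 : Real.pi * ((R₂ : ℝ) - R₁) / (m : ℝ) ^ 2 =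
      Real.pi * R₂ / (m : ℝ) ^ 2 - Real.pi * R₁ / (m : ℝ) ^ 2 := by ring
  rw [h6]
  rw [abs_le] at h1 h2 ⊢
  rw [h5] at h2
  constructor <;> linarith [h1.1, h1.2, h2.1, h2.2]

end ELP

end Pool.Agent.Lib.MP391708.T1
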