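import Pool.Agent.Lib.MP_391708_nt.T1.ESpec
import Pool.Agent.Lib.MP_391708_nt.QPA.P3M

/-!
# Module ESN: the sum over the smooth part
-/

set_option autoImplicit false

namespace Pool.Agent.Lib.MP391708.T1.ESN

open Finset
open scoped Classical

noncomputable section

/-- the term of a subset -/
def W (PE : Finset ℕ) (a : ℕ → ℝ) (c : ℝ) (S : Finset ℕ) : ℝ :=
  (∏ l ∈ S, c / (l : ℝ)) * ∏ l ∈ PE \ S, (1 - a l)

/-- the full sum -/
def F (PE P : Finset ℕ) (a : ℕ → ℝ) (c : ℝ) : ℝ :=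
  (∏ l ∈ P, (c / (l : ℝ) + (1 - a l))) * ∏ l ∈ PE \ P, (1 - a l)

lemma prod_pf {S : Finset ℕ} (hS : ∀ l ∈ S, l.Prime) : (∏ l ∈ S, l).primeFactors = S :=
  Nat.primeFactors_prod hS

lemma dvd_prod_iff {S : Finset ℕ} (hS : ∀ l ∈ S, l.Prime) {p : ℕ} (hp : p.Prime) :
    p ∣ ∏ l ∈ S, l ↔ p ∈ S := by
  have h0 : ∏ l ∈ S, l ≠ 0 := Finset.prod_ne_zero_iff.2 fun l hl => (hS l hl).ne_zero
  have := prod_pf hS
  constructor
  · intro h
    rw [← this, Nat.mem_primeFactors]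
    exact ⟨hp, h, h0⟩
  · intro h
    exact Finset.dvd_prod_of_mem _ h

lemma sum_SQ (P : Finset ℕ) (hP : ∀ l ∈ P, l.Prime) (Y : ℝ) (hY : 0 ≤ Y) (f : ℕ → ℝ) :
    ∑ n ∈ SQ P Y, f n =
      ∑ S ∈ P.powerset.filter (fun S => ((∏ l ∈ S, l : ℕ) : ℝ) ≤ Y), f (∏ l ∈ S, l) := by
  symm
  refine Finset.sum_bij (fun S _ => ∏ l ∈ S, l) ?_ ?_ ?_ ?_
  · intro S hS
    rw [mem_filter, mem_powerset] at hS
    have hS' : ∀ l ∈ S, l.Prime := fun l hl => hP l (hS.1 hl)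
    have h0 : 0 < ∏ l ∈ S, l := Finset.prod_pos fun l hl => (hS' l hl).pos
    rw [SQ, mem_filter, mem_Icc]
    refine ⟨⟨h0, Nat.le_floor hS.2⟩, ?_, ?_⟩
    · refine Finset.squarefree_prod_of_pairwise_isCoprime (fun p hp q hq hpq ↦ ?_)
        fun _ hp ↦ (hS' _ hp).squarefree
      simp only [Function.onFun, ← Nat.coprime_iff_isRelPrime]
      exact (Nat.coprime_primes (hS' p hp) (hS' q hq)).mpr hpq
    · intro l hl hd
      exact hS.1 ((dvd_prod_iff hS' hl).1 hd)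
  · intro S hS S' hS' h
    rw [mem_filter, mem_powerset] at hS hS'
    rw [← prod_pf (fun l hl => hP l (hS.1 hl)), ← prod_pf (fun l hl => hP l (hS'.1 hl)), h]
  · intro n hn
    rw [SQ, mem_filter, mem_Icc] at hn
    refine ⟨n.primeFactors, ?_, Nat.prod_primeFactors_of_squarefree hn.2.1⟩
    rw [mem_filter, mem_powerset, Nat.prod_primeFactors_of_squarefree hn.2.1]
    refine ⟨fun l hl => hn.2.2 l (Nat.prime_of_mem_primeFactors hl) (Nat.dvd_of_mem_primeFactors hl), ?_⟩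
    exact (Nat.le_floor_iff hY).1 hn.1.2
  · intro S hS
    rfl

/-- the term at `∏ S` -/
lemma term_eq (PE : Finset ℕ) (a : ℕ → ℝ) (c : ℝ) (hPE : ∀ l ∈ PE, l.Prime) {S : Finset ℕ}
    (hS : ∀ l ∈ S, l.Prime) :
    c ^ (∏ l ∈ S, l).primeFactors.card / ((∏ l ∈ S, l : ℕ) : ℝ) *
      ∏ l ∈ PE.filter (fun l => ¬ l ∣ ∏ l ∈ S, l), (1 - a l) = W PE a c S := by
  unfold W
  congr 1
  · rw [prod_pf hS, Finset.prod_div_distrib, Finset.prod_const]
    push_cast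
    rfl
  · apply Finset.prod_congr _ fun _ _ => rfl
    ext l
    rw [mem_filter, mem_sdiff]
    constructor
    · intro h
      exact ⟨h.1, fun h' => h.2 ((dvd_prod_iff hS (hPE l h.1)).2 h')⟩
    · intro h
      exact ⟨h.1, fun h' => h.2 ((dvd_prod_iff hS (hPE l h.1)).1 h')⟩

lemma sdiff_split {PE P S : Finset ℕ} (hP : P ⊆ PE) (hS : S ⊆ P) (g : ℕ → ℝ) :
    ∏ l ∈ PE \ S, g l = (∏ l ∈ P \ S, g l) * ∏ l ∈ PE \ P, g l := by
  rw [← Finset.prod_union]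
  · apply Finset.prod_congr _ fun _ _ => rfl
    ext l
    simp only [mem_union, mem_sdiff]
    constructor
    · intro h
      by_cases hl : l ∈ P
      · exact Or.inl ⟨hl, h.2⟩
      · exact Or.inr ⟨h.1, hl⟩
    · rintro (h | h)
      · exact ⟨hP h.1, h.2⟩
      · exact ⟨h.1, fun h' => h.2 (hS h')⟩
  · rw [Finset.disjoint_left]
    intro l h h'
    rw [mem_sdiff] at h h'
    exact h'.2 h.1

/-- the weighted full sum -/
lemma sum_full (PE P : Finset ℕ) (hP : P ⊆ PE) (a : ℕ → ℝ) (c : ℝ) (r : ℕ → ℝ) :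
    ∑ S ∈ P.powerset, (∏ l ∈ S, r l) * W PE a c S =
      (∏ l ∈ P, (r l * (c / (l : ℝ)) + (1 - a l))) * ∏ l ∈ PE \ P, (1 - a l) := by
  rw [Finset.prod_add, Finset.sum_mul]
  refine Finset.sum_congr rfl fun S hS => ?_
  rw [mem_powerset] at hS
  rw [W, sdiff_split hP hS, prod_mul_distrib]
  ring

lemma sum_one (PE P : Finset ℕ) (hP : P ⊆ PE) (a : ℕ → ℝ) (c : ℝ) :
    ∑ S ∈ P.powerset, W PE a c S = F PE P a c := by
  have := sum_full PE P hP a c (fun _ => 1)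
  simp only [prod_const_one, one_mul] at this
  exact this

/-- the sum over the subsets that contain `l₀` -/
lemma sum_spec (PE P : Finset ℕ) (hP : P ⊆ PE) (a : ℕ → ℝ) (c : ℝ) (l₀ : ℕ) (hl : l₀ ∈ P) :
    ∑ S ∈ P.powerset.filter (fun S => l₀ ∈ S), W PE a c S =
      (c / l₀) * (∏ l ∈ P.erase l₀, (c / (l : ℝ) + (1 - a l))) * ∏ l ∈ PE \ P, (1 - a l) := by
  have h1 : (c / l₀) * (∏ l ∈ P.erase l₀, (c / (l : ℝ) + (1 - a l))) =
      ∏ l ∈ P, (c / (l : ℝ) + (if l = l₀ then 0 else (1 - a l))) := by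
    rw [← Finset.mul_prod_erase P _ hl]
    congr 1
    · simp
    · refine Finset.prod_congr rfl fun l hl' => ?_
      rw [if_neg (mem_erase.1 hl').1]
  rw [h1, Finset.prod_add, Finset.sum_mul, Finset.sum_filter]
  refine Finset.sum_congr rfl fun S hS => ?_
  rw [mem_powerset] at hS
  split_ifs with h
  · rw [W, sdiff_split hP hS]
    have : ∏ l ∈ P \ S, (if l = l₀ then (0 : ℝ) else (1 - a l)) = ∏ l ∈ P \ S, (1 - a l) := by
      refine Finset.prod_congr rfl fun l hl' => ?_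
      rw [if_neg]
      rintro rfl
      exact (mem_sdiff.1 hl').2 h
    rw [this]
    ring
  · have : ∏ l ∈ P \ S, (if l = l₀ then (0 : ℝ) else (1 - a l)) = 0 :=
      Finset.prod_eq_zero (mem_sdiff.2 ⟨hl, h⟩) (by simp)
    rw [this]
    ring

/-- Bernoulli -/
lemma bern (s : Finset ℕ) (u : ℕ → ℝ) (h0 : ∀ l ∈ s, 0 ≤ u l) (h1 : ∀ l ∈ s, u l ≤ 1) :
    1 - ∑ l ∈ s, u l ≤ ∏ l ∈ s, (1 - u l) := by
  induction s using Finset.induction_on with
  | empty => simp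
  | insert x s hx ih =>
    rw [sum_insert hx, prod_insert hx]
    have i := ih (fun l hl => h0 l (mem_insert_of_mem hl)) (fun l hl => h1 l (mem_insert_of_mem hl))
    have e0 := h0 x (mem_insert_self _ _)
    have e1 := h1 x (mem_insert_self _ _)
    have e2 : 0 ≤ ∑ l ∈ s, u l := sum_nonneg fun l hl => h0 l (mem_insert_of_mem hl)
    have e3 := mul_le_mul_of_nonneg_left i (sub_nonneg.2 e1)
    nlinarith [mul_nonneg e0 e2]

/-- `∑_{l > E} 1/l² ≤ 1/E` -/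
lemma sum_sq (E : ℕ) (hE : 1 ≤ E) (s : Finset ℕ) (hs : ∀ l ∈ s, E < l) :
    ∑ l ∈ s, 1 / (l : ℝ) ^ 2 ≤ 1 / (E : ℝ) := by
  set n := max E (s.sup id) with hn
  have h1 : s ⊆ Ioc E n := by
    intro l hl
    rw [mem_Ioc]
    exact ⟨hs l hl, le_trans (Finset.le_sup (f := id) hl) (le_max_right _ _)⟩
  calc ∑ l ∈ s, 1 / (l : ℝ) ^ 2 ≤ ∑ l ∈ Ioc E n, 1 / (l : ℝ) ^ 2 :=
        Finset.sum_le_sum_of_subset_of_nonneg h1 fun _ _ _ => by positivity
    _ = ∑ l ∈ Ioc E n, ((l : ℝ) ^ 2)⁻¹ := by simp only [one_div]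
    _ ≤ (E : ℝ)⁻¹ - (n : ℝ)⁻¹ := sum_Ioc_inv_sq_le_sub (by omega) (le_max_left _ _)
    _ ≤ 1 / (E : ℝ) := by
      have : 0 ≤ (n : ℝ)⁻¹ := by positivity
      rw [one_div]; linarith

/-- `∑_{l ∈ s} log l / l ≤ log z + 8` -/
lemma sum_log (z : ℝ) (hz : 1 ≤ z) (s : Finset ℕ) (hs : ∀ l ∈ s, l.Prime ∧ (l : ℝ) < z) :
    ∑ p ∈ s, Real.log p / (p : ℝ) ≤ Real.log z + 8 := by
  have h := QPA.P3M.mert 1 z le_rfl hz
  rw [Real.log_one, sub_zero] at h
  refine le_trans ?_ h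
  apply Finset.sum_le_sum_of_subset_of_nonneg
  · intro p hp
    have hp' := hs p hp
    rw [mem_filter, mem_Ioc]
    refine ⟨⟨?_, Nat.le_floor hp'.2.le⟩, hp'.1⟩
    rw [Nat.floor_one]
    exact hp'.1.one_lt
  · intro p hp _
    rw [mem_filter, mem_Ioc] at hp
    exact div_nonneg (Real.log_nonneg (by exact_mod_cast hp.2.one_lt.le)) (Nat.cast_nonneg _)

/-- the hypotheses, in the form used below -/
structure Hy (E : ℕ) (z c τ : ℝ) (a : ℕ → ℝ) (PE PP P1 : Finset ℕ) : Prop where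
  hE : 1000 ≤ E
  hz : 2 ≤ z
  c0 : 0 ≤ c
  c2 : c ≤ 2
  t0 : 0 ≤ τ
  t6 : τ ≤ 6
  pe : ∀ l ∈ PE, l.Prime ∧ E < l ∧ (l : ℝ) < z
  sub : PP ⊆ PE
  ha : ∀ l ∈ PE, 0 ≤ a l ∧ a l ≤ 10 / (l : ℝ)
  hp : ∀ l ∈ PP \ P1, |a l - τ / l| ≤ 100 / (l : ℝ) ^ 2
  hb : ∀ l ∈ PE \ (PP \ P1), a l ≤ 2 / (l : ℝ) ^ 2 + (if l ∈ P1 then 10 / (l : ℝ) else 0)

variable {E : ℕ} {z c τ : ℝ} {a : ℕ → ℝ} {PE PP P1 : Finset ℕ}

/-- the product over the main primes -/
def V (c τ : ℝ) (s : Finset ℕ) : ℝ := ∏ l ∈ s, (1 - (τ - c) / (l : ℝ))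

lemma Hy.big (h : Hy E z c τ a PE PP P1) {l : ℕ} (hl : l ∈ PE) : (1000 : ℝ) ≤ l := by
  have := (h.pe l hl).2.1
  have h2 := h.hE
  exact_mod_cast (by omega : 1000 ≤ l)

lemma Hy.a1 (h : Hy E z c τ a PE PP P1) {l : ℕ} (hl : l ∈ PE) : a l ≤ 1 / 100 := by
  have h1 := h.big hl
  refine (h.ha l hl).2.trans ?_
  rw [div_le_iff₀ (by linarith)]
  linarith

lemma Hy.a2 (h : Hy E z c τ a PE PP P1) {l : ℕ} (hl : l ∈ PE) : 1 / 2 ≤ c / (l : ℝ) + (1 - a l) := by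
  have h1 := h.big hl
  have h2 := h.a1 hl
  have h3 : 0 ≤ c / (l : ℝ) := div_nonneg h.c0 (by linarith)
  linarith

lemma Hy.v1 (h : Hy E z c τ a PE PP P1) {l : ℕ} (hl : l ∈ PE) : 99 / 100 ≤ 1 - (τ - c) / (l : ℝ) := by
  have h1 := h.big hl
  have h2 : (τ - c) / (l : ℝ) ≤ 1 / 100 := by
    rw [div_le_iff₀ (by linarith)]
    have := h.t6
    have := h.c0
    linarith
  linarith

lemma Hy.v2 (h : Hy E z c τ a PE PP P1) {l : ℕ} (hl : l ∈ PE) : 1 - (τ - c) / (l : ℝ) ≤ Real.exp (2 / l) := by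
  have h1 := h.big hl
  have h2 : -(τ - c) / (l : ℝ) ≤ 2 / l := by
    apply div_le_div_of_nonneg_right _ (by linarith)
    have := h.t0
    have := h.c2
    linarith
  have h3 := Real.add_one_le_exp (2 / (l : ℝ))
  rw [neg_div] at h2
  linarith

lemma Hy.v3 (h : Hy E z c τ a PE PP P1) {l : ℕ} (hl : l ∈ PE) :
    1 ≤ (1 - (τ - c) / (l : ℝ)) * Real.exp (12 / l) := by
  have h1 := h.big hl
  have h2 : (τ - c) / (l : ℝ) ≤ 6 / l := by
    apply div_le_div_of_nonneg_right _ (by linarith)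
    have := h.t6
    have := h.c0
    linarith
  have h3 := Real.add_one_le_exp (12 / (l : ℝ))
  have h4 : 6 / (l : ℝ) ≤ 1 / 100 := by
    rw [div_le_iff₀ (by linarith)]
    linarith
  have h5 : 0 ≤ 6 / (l : ℝ) := by positivity
  have h6 : 12 / (l : ℝ) = 2 * (6 / l) := by ring
  rw [h6] at h3 ⊢
  have h7 := h.v1 hl
  calc (1 : ℝ) ≤ (1 - 6 / l) * (2 * (6 / l) + 1) := by nlinarith
    _ ≤ (1 - (τ - c) / (l : ℝ)) * Real.exp (2 * (6 / l)) := by
      apply mul_le_mul (by linarith) h3 (by linarith) (by linarith)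

lemma Hy.V0 (h : Hy E z c τ a PE PP P1) {s : Finset ℕ} (hs : s ⊆ PE) : 0 ≤ V c τ s :=
  prod_nonneg fun l hl => by linarith [h.v1 (hs hl)]

lemma V_split (c τ : ℝ) (PP P1 : Finset ℕ) : V c τ PP = V c τ (PP \ P1) * V c τ (PP ∩ P1) := by
  unfold V
  rw [← Finset.prod_union]
  · rw [Finset.sdiff_union_inter]
  · exact Finset.disjoint_sdiff_inter PP P1

lemma sum_inter_le (P1 PP : Finset ℕ) (k : ℝ) (hk : 0 ≤ k) :
    ∑ l ∈ PP ∩ P1, k / (l : ℝ) ≤ k * ∑ l ∈ P1, 1 / (l : ℝ) := by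
  rw [mul_sum]
  calc ∑ l ∈ PP ∩ P1, k / (l : ℝ) ≤ ∑ l ∈ P1, k / (l : ℝ) :=
        Finset.sum_le_sum_of_subset_of_nonneg inter_subset_right fun _ _ _ => by positivity
    _ = _ := Finset.sum_congr rfl fun l _ => by ring

lemma Hy.V_up (h : Hy E z c τ a PE PP P1) :
    V c τ (PP \ P1) ≤ V c τ PP * Real.exp (12 * ∑ l ∈ P1, 1 / (l : ℝ)) := by
  have h1 : 1 ≤ V c τ (PP ∩ P1) * Real.exp (12 * ∑ l ∈ P1, 1 / (l : ℝ)) := by
    calc (1 : ℝ) ≤ ∏ l ∈ PP ∩ P1, ((1 - (τ - c) / (l : ℝ)) * Real.exp (12 / l)) :=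
          Finset.one_le_prod fun l hl => h.v3 (h.sub (mem_inter.1 hl).1)
      _ = V c τ (PP ∩ P1) * Real.exp (∑ l ∈ PP ∩ P1, 12 / (l : ℝ)) := by
          rw [prod_mul_distrib, ← Real.exp_sum]; rfl
      _ ≤ _ := by
          apply mul_le_mul_of_nonneg_left _ (h.V0 (inter_subset_left.trans h.sub))
          exact Real.exp_le_exp.2 (sum_inter_le _ _ _ (by norm_num))
  have h2 := h.V0 (sdiff_subset.trans h.sub : PP \ P1 ⊆ PE)
  calc V c τ (PP \ P1) = V c τ (PP \ P1) * 1 := by ring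
    _ ≤ V c τ (PP \ P1) * (V c τ (PP ∩ P1) * Real.exp (12 * ∑ l ∈ P1, 1 / (l : ℝ))) :=
        mul_le_mul_of_nonneg_left h1 h2
    _ = _ := by rw [V_split c τ PP P1]; ring

lemma Hy.V_low (h : Hy E z c τ a PE PP P1) :
    (1 - 2 * ∑ l ∈ P1, 1 / (l : ℝ)) * V c τ PP ≤ V c τ (PP \ P1) := by
  have h1 : V c τ (PP ∩ P1) ≤ Real.exp (2 * ∑ l ∈ P1, 1 / (l : ℝ)) := by
    calc V c τ (PP ∩ P1) ≤ ∏ l ∈ PP ∩ P1, Real.exp (2 / l) :=
          prod_le_prod (fun l hl => by linarith [h.v1 (h.sub (mem_inter.1 hl).1)])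
            fun l hl => h.v2 (h.sub (mem_inter.1 hl).1)
      _ = Real.exp (∑ l ∈ PP ∩ P1, 2 / (l : ℝ)) := by rw [← Real.exp_sum]
      _ ≤ _ := Real.exp_le_exp.2 (sum_inter_le _ _ _ (by norm_num))
  have h2 := h.V0 (sdiff_subset.trans h.sub : PP \ P1 ⊆ PE)
  have h2' := h.V0 h.sub
  have h3 : V c τ PP ≤ V c τ (PP \ P1) * Real.exp (2 * ∑ l ∈ P1, 1 / (l : ℝ)) := by
    rw [V_split c τ PP P1]
    exact mul_le_mul_of_nonneg_left h1 h2
  have h4 := Real.add_one_le_exp (-(2 * ∑ l ∈ P1, 1 / (l : ℝ)))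
  calc (1 - 2 * ∑ l ∈ P1, 1 / (l : ℝ)) * V c τ PP
      ≤ Real.exp (-(2 * ∑ l ∈ P1, 1 / (l : ℝ))) * V c τ PP :=
        mul_le_mul_of_nonneg_right (by linarith) h2'
    _ ≤ Real.exp (-(2 * ∑ l ∈ P1, 1 / (l : ℝ))) *
        (V c τ (PP \ P1) * Real.exp (2 * ∑ l ∈ P1, 1 / (l : ℝ))) :=
        mul_le_mul_of_nonneg_left h3 (Real.exp_pos _).le
    _ = V c τ (PP \ P1) * (Real.exp (-(2 * ∑ l ∈ P1, 1 / (l : ℝ))) *
        Real.exp (2 * ∑ l ∈ P1, 1 / (l : ℝ))) := by ring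
    _ = V c τ (PP \ P1) := by rw [← Real.exp_add, neg_add_cancel, Real.exp_zero, mul_one]

lemma Hy.inv_sq (h : Hy E z c τ a PE PP P1) {l : ℕ} (hl : l ∈ PE) :
    0 ≤ 100 / (l : ℝ) ^ 2 ∧ 100 / (l : ℝ) ^ 2 ≤ 1 / 100 := by
  have h1 := h.big hl
  refine ⟨by positivity, ?_⟩
  rw [div_le_iff₀ (by positivity)]
  nlinarith

lemma Hy.sub' (h : Hy E z c τ a PE PP P1) : PP \ P1 ⊆ PE := sdiff_subset.trans h.sub

lemma Hy.F0 (h : Hy E z c τ a PE PP P1) : 0 ≤ F PE (PP \ P1) a c := by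
  apply mul_nonneg
  · exact prod_nonneg fun l hl => by linarith [h.a2 (h.sub' hl)]
  · exact prod_nonneg fun l hl => by linarith [h.a1 (mem_sdiff.1 hl).1]

lemma Hy.W0 (h : Hy E z c τ a PE PP P1) (S : Finset ℕ) : 0 ≤ W PE a c S := by
  apply mul_nonneg
  · exact prod_nonneg fun l _ => div_nonneg h.c0 (Nat.cast_nonneg _)
  · exact prod_nonneg fun l hl => by linarith [h.a1 (mem_sdiff.1 hl).1]

lemma Hy.F_up (h : Hy E z c τ a PE PP P1) :
    F PE (PP \ P1) a c ≤ (1 + 400 / E) * Real.exp (12 * ∑ l ∈ P1, 1 / (l : ℝ)) * V c τ PP := by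
  have hE : (1000 : ℝ) ≤ E := by exact_mod_cast h.hE
  have h1 : ∏ l ∈ PE \ (PP \ P1), (1 - a l) ≤ 1 :=
    prod_le_one (fun l hl => by linarith [h.a1 (mem_sdiff.1 hl).1])
      fun l hl => by linarith [(h.ha l (mem_sdiff.1 hl).1).1]
  have h2 : ∏ l ∈ PP \ P1, (c / (l : ℝ) + (1 - a l)) ≤ V c τ (PP \ P1) * (1 + 400 / E) := by
    calc ∏ l ∈ PP \ P1, (c / (l : ℝ) + (1 - a l))
        ≤ ∏ l ∈ PP \ P1, ((1 - (τ - c) / (l : ℝ)) * Real.exp (200 * (1 / (l : ℝ) ^ 2))) := by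
          refine prod_le_prod (fun l hl => by linarith [h.a2 (h.sub' hl)]) fun l hl => ?_
          have e1 := h.v1 (h.sub' hl)
          have e2 := abs_le.1 (h.hp l hl)
          have e3 := h.inv_sq (h.sub' hl)
          have e4 := Real.add_one_le_exp (200 * (1 / (l : ℝ) ^ 2))
          have e5 : 200 * (1 / (l : ℝ) ^ 2) = 2 * (100 / (l : ℝ) ^ 2) := by ring
          rw [e5] at e4 ⊢
          have e6 : (τ - c) / (l : ℝ) = τ / l - c / l := by ring
          calc c / (l : ℝ) + (1 - a l) ≤ (1 - (τ - c) / (l : ℝ)) + 100 / (l : ℝ) ^ 2 := by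
                rw [e6]; linarith [e2.1]
            _ ≤ (1 - (τ - c) / (l : ℝ)) * (2 * (100 / (l : ℝ) ^ 2) + 1) := by nlinarith
            _ ≤ _ := mul_le_mul_of_nonneg_left e4 (by linarith)
      _ = V c τ (PP \ P1) * Real.exp (200 * ∑ l ∈ PP \ P1, 1 / (l : ℝ) ^ 2) := by
          rw [prod_mul_distrib, ← Real.exp_sum, mul_sum]; rfl
      _ ≤ V c τ (PP \ P1) * (1 + 400 / E) := by
          apply mul_le_mul_of_nonneg_left _ (h.V0 h.sub')
          have e1 := sum_sq E (by have := h.hE; omega) (PP \ P1) (fun l hl => (h.pe l (h.sub' hl)).2.1)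
          have e2 : 200 * ∑ l ∈ PP \ P1, 1 / (l : ℝ) ^ 2 ≤ 200 / (E : ℝ) := by
            rw [show (200 : ℝ) / E = 200 * (1 / E) by ring]
            linarith
          have e3 : 200 / (E : ℝ) ≤ 1 := by
            rw [div_le_one (by linarith)]
            linarith
          have e4 : 0 ≤ 200 / (E : ℝ) := by positivity
          refine (Real.exp_le_exp.2 e2).trans ?_
          have e5 := Real.abs_exp_sub_one_le (x := 200 / (E : ℝ)) (by rw [abs_of_nonneg e4]; exact e3)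
          rw [abs_of_nonneg e4] at e5
          have e6 := (abs_le.1 e5).2
          have e7 : 400 / (E : ℝ) = 2 * (200 / E) := by ring
          rw [e7]
          linarith
  have h3 := h.V_up
  have h0 : 0 ≤ ∏ l ∈ PP \ P1, (c / (l : ℝ) + (1 - a l)) :=
    prod_nonneg fun l hl => by linarith [h.a2 (h.sub' hl)]
  have h4 : (0 : ℝ) ≤ 1 + 400 / E := by positivity
  calc F PE (PP \ P1) a c ≤ (∏ l ∈ PP \ P1, (c / (l : ℝ) + (1 - a l))) * 1 :=
        mul_le_mul_of_nonneg_left h1 h0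
    _ ≤ V c τ (PP \ P1) * (1 + 400 / E) := by rw [mul_one]; exact h2
    _ ≤ (V c τ PP * Real.exp (12 * ∑ l ∈ P1, 1 / (l : ℝ))) * (1 + 400 / E) :=
        mul_le_mul_of_nonneg_right h3 h4
    _ = _ := by ring

lemma Hy.F_low (h : Hy E z c τ a PE PP P1) :
    (1 - 200 / E - 12 * ∑ l ∈ P1, 1 / (l : ℝ)) * V c τ PP ≤ F PE (PP \ P1) a c := by
  have hE : (1000 : ℝ) ≤ E := by exact_mod_cast h.hE
  have hV := h.V0 h.sub
  have hSg : 0 ≤ ∑ l ∈ P1, 1 / (l : ℝ) := sum_nonneg fun _ _ => by positivity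
  have hE0 : 0 ≤ 200 / (E : ℝ) := by positivity
  by_cases hc : 1 - 200 / E - 12 * ∑ l ∈ P1, 1 / (l : ℝ) ≤ 0
  · exact (mul_nonpos_of_nonpos_of_nonneg hc hV).trans h.F0
  push Not at hc
  set u : ℕ → ℝ := fun l => 200 / (l : ℝ) ^ 2 + (if l ∈ P1 then 10 / (l : ℝ) else 0) with hu
  have u0 : ∀ l ∈ PE, 0 ≤ u l ∧ u l ≤ 1 := by
    intro l hl
    have e1 := h.inv_sq hl
    have e2 := h.big hl
    have e3 : 200 / (l : ℝ) ^ 2 = 2 * (100 / (l : ℝ) ^ 2) := by ring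
    have e4 : 10 / (l : ℝ) ≤ 1 / 100 := by
      rw [div_le_iff₀ (by linarith)]
      linarith
    have e5 : 0 ≤ 10 / (l : ℝ) := by positivity
    simp only [hu]
    rw [e3]
    split_ifs <;> constructor <;> linarith
  have h1 : V c τ (PP \ P1) * ∏ l ∈ PP \ P1, (1 - u l) ≤ ∏ l ∈ PP \ P1, (c / (l : ℝ) + (1 - a l)) := by
    unfold V
    rw [← prod_mul_distrib]
    refine prod_le_prod (fun l hl => ?_) fun l hl => ?_
    · exact mul_nonneg (by linarith [h.v1 (h.sub' hl)]) (by linarith [(u0 l (h.sub' hl)).2])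
    · have e0 : u l = 2 * (100 / (l : ℝ) ^ 2) := by
        simp only [hu]
        rw [if_neg (mem_sdiff.1 hl).2]
        ring
      have e1 := h.v1 (h.sub' hl)
      have e2 := abs_le.1 (h.hp l hl)
      have e3 := h.inv_sq (h.sub' hl)
      have e6 : (τ - c) / (l : ℝ) = τ / l - c / l := by ring
      rw [e0]
      calc (1 - (τ - c) / (l : ℝ)) * (1 - 2 * (100 / (l : ℝ) ^ 2))
          ≤ (1 - (τ - c) / (l : ℝ)) - 100 / (l : ℝ) ^ 2 := by nlinarith
        _ ≤ _ := by rw [e6]; linarith [e2.2]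
  have h2 : ∏ l ∈ PE \ (PP \ P1), (1 - u l) ≤ ∏ l ∈ PE \ (PP \ P1), (1 - a l) := by
    refine prod_le_prod (fun l hl => ?_) fun l hl => ?_
    · linarith [(u0 l (mem_sdiff.1 hl).1).2]
    · have e1 := h.hb l hl
      have e3 := h.inv_sq (mem_sdiff.1 hl).1
      have e4 : 200 / (l : ℝ) ^ 2 = 2 * (100 / (l : ℝ) ^ 2) := by ring
      have e5 : 2 / (l : ℝ) ^ 2 = (2 / 100) * (100 / (l : ℝ) ^ 2) := by ring
      simp only [hu]
      rw [e4]
      rw [e5] at e1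
      linarith
  have h3 : 1 - ∑ l ∈ PE, u l ≤ ∏ l ∈ PE, (1 - u l) :=
    bern PE u (fun l hl => (u0 l hl).1) (fun l hl => (u0 l hl).2)
  have h4 : ∑ l ∈ PE, u l ≤ 200 / E + 10 * ∑ l ∈ P1, 1 / (l : ℝ) := by
    simp only [hu]
    rw [sum_add_distrib]
    apply add_le_add
    · have e1 := sum_sq E (by have := h.hE; omega) PE (fun l hl => (h.pe l hl).2.1)
      calc ∑ l ∈ PE, (200 : ℝ) / (l : ℝ) ^ 2 = 200 * ∑ l ∈ PE, 1 / (l : ℝ) ^ 2 := by
            rw [mul_sum]; exact sum_congr rfl fun l _ => by ring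
        _ ≤ 200 * (1 / (E : ℝ)) := by linarith
        _ = 200 / (E : ℝ) := by ring
    · rw [← sum_filter, mul_sum]
      calc ∑ l ∈ PE.filter (fun l => l ∈ P1), 10 / (l : ℝ) ≤ ∑ l ∈ P1, 10 / (l : ℝ) :=
            sum_le_sum_of_subset_of_nonneg (fun l hl => (mem_filter.1 hl).2) fun _ _ _ => by positivity
        _ = _ := sum_congr rfl fun l _ => by ring
  have h5 : ∏ l ∈ PE, (1 - u l) = (∏ l ∈ PP \ P1, (1 - u l)) * ∏ l ∈ PE \ (PP \ P1), (1 - u l) := by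
    rw [mul_comm, Finset.prod_sdiff h.sub']
  have h6 := h.V_low
  have n1 : 0 ≤ ∏ l ∈ PE \ (PP \ P1), (1 - u l) :=
    prod_nonneg fun l hl => by linarith [(u0 l (mem_sdiff.1 hl).1).2]
  have n2 : 0 ≤ ∏ l ∈ PP \ P1, (c / (l : ℝ) + (1 - a l)) :=
    prod_nonneg fun l hl => by linarith [h.a2 (h.sub' hl)]
  have n3 := h.V0 h.sub'
  calc (1 - 200 / E - 12 * ∑ l ∈ P1, 1 / (l : ℝ)) * V c τ PP
      ≤ ((1 - 2 * ∑ l ∈ P1, 1 / (l : ℝ)) * (1 - 200 / E - 10 * ∑ l ∈ P1, 1 / (l : ℝ))) * V c τ PP := by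
        apply mul_le_mul_of_nonneg_right _ hV
        nlinarith [mul_nonneg hSg hE0, mul_nonneg hSg hSg]
    _ = ((1 - 2 * ∑ l ∈ P1, 1 / (l : ℝ)) * V c τ PP) * (1 - 200 / E - 10 * ∑ l ∈ P1, 1 / (l : ℝ)) := by
        ring
    _ ≤ V c τ (PP \ P1) * (1 - 200 / E - 10 * ∑ l ∈ P1, 1 / (l : ℝ)) := by
        apply mul_le_mul_of_nonneg_right h6
        linarith
    _ ≤ V c τ (PP \ P1) * ∏ l ∈ PE, (1 - u l) := by
        apply mul_le_mul_of_nonneg_left _ n3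
        linarith
    _ = (V c τ (PP \ P1) * ∏ l ∈ PP \ P1, (1 - u l)) * ∏ l ∈ PE \ (PP \ P1), (1 - u l) := by
        rw [h5]; ring
    _ ≤ (∏ l ∈ PP \ P1, (c / (l : ℝ) + (1 - a l))) * ∏ l ∈ PE \ (PP \ P1), (1 - a l) :=
        mul_le_mul h1 h2 n1 n2
    _ = _ := rfl

lemma Hy.tail (h : Hy E z c τ a PE PP P1) (K : ℝ) :
    ∑ S ∈ (PP \ P1).powerset.filter (fun S => ¬ ((∏ l ∈ S, l : ℕ) : ℝ) ≤ z ^ K), W PE a c S ≤
      Real.exp 51 * Real.exp (-K / 2) * F PE (PP \ P1) a c := by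
  have hz0 : 0 < z := by linarith [h.hz]
  have hlz : 0.69 < Real.log z := by
    have e1 := Real.log_two_gt_d9
    have e2 := Real.log_le_log (by norm_num) h.hz
    linarith
  set σ : ℝ := 1 / (2 * Real.log z) with hσ
  have hσ0 : 0 < σ := by positivity
  have hσ1 : σ * Real.log z = 1 / 2 := by rw [hσ]; field_simp
  have hσ2 : σ ≤ 0.73 := by
    rw [hσ, div_le_iff₀ (by linarith)]
    linarith
  have step : ∀ S ∈ (PP \ P1).powerset, (if ¬ ((∏ l ∈ S, l : ℕ) : ℝ) ≤ z ^ K then W PE a c S else 0)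
      ≤ Real.exp (-K / 2) * ((∏ l ∈ S, (l : ℝ) ^ σ) * W PE a c S) := by
    intro S hS
    have hW := h.W0 S
    have e2 : ∏ l ∈ S, (l : ℝ) ^ σ = ((∏ p ∈ S, p : ℕ) : ℝ) ^ σ := by
      push_cast
      rw [Real.finsetProd_rpow]
      intro p _
      exact Nat.cast_nonneg p
    rw [e2]
    by_cases h3 : ((∏ l ∈ S, l : ℕ) : ℝ) ≤ z ^ K
    swap
    · rw [if_pos h3]
      push Not at h3
      have e3 : Real.exp (K / 2) ≤ ((∏ p ∈ S, p : ℕ) : ℝ) ^ σ := by
        calc Real.exp (K / 2) = (z ^ K) ^ σ := by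
              rw [← Real.rpow_mul hz0.le, Real.rpow_def_of_pos hz0]
              congr 1
              linear_combination (-K) * hσ1
          _ ≤ _ := Real.rpow_le_rpow (by positivity) h3.le hσ0.le
      calc W PE a c S = Real.exp (-K / 2) * (Real.exp (K / 2) * W PE a c S) := by
            rw [← mul_assoc, ← Real.exp_add, show -K / 2 + K / 2 = 0 by ring, Real.exp_zero, one_mul]
        _ ≤ _ := by gcongr
    · rw [if_neg (not_not.2 h3)]
      positivity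
  rw [sum_filter]
  refine (sum_le_sum step).trans ?_
  rw [← mul_sum, sum_full PE _ h.sub' a c (fun l => (l : ℝ) ^ σ)]
  have e4 : ∀ l ∈ PP \ P1, (l : ℝ) ^ σ * (c / (l : ℝ)) + (1 - a l) ≤
      (c / (l : ℝ) + (1 - a l)) * Real.exp (8 * σ * (Real.log l / l)) := by
    intro l hl
    have hl1 := h.big (h.sub' hl)
    have hl0 : (0 : ℝ) < l := by linarith
    have hll : 0 ≤ Real.log l := Real.log_nonneg (by linarith)
    have e5 : σ * Real.log l ≤ 1 / 2 := by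
      rw [← hσ1]
      apply mul_le_mul_of_nonneg_left _ hσ0.le
      exact Real.log_le_log hl0 (h.pe l (h.sub' hl)).2.2.le
    have e6 : 0 ≤ σ * Real.log l := by positivity
    have e7 : (l : ℝ) ^ σ ≤ 1 + 2 * (σ * Real.log l) := by
      rw [Real.rpow_def_of_pos hl0, mul_comm (Real.log l)]
      have := Real.abs_exp_sub_one_sub_id_le (x := σ * Real.log l) (by rw [abs_le]; constructor <;> linarith)
      rw [abs_le] at this
      nlinarith [this.2]
    have c1 : c / (l : ℝ) ≤ 2 / l := div_le_div_of_nonneg_right h.c2 hl0.le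
    have c0 : 0 ≤ c / (l : ℝ) := div_nonneg h.c0 hl0.le
    have e8 : (l : ℝ) ^ σ * (c / (l : ℝ)) + (1 - a l) ≤
        (c / (l : ℝ) + (1 - a l)) + 4 * σ * (Real.log l / l) := by
      have i1 := mul_le_mul_of_nonneg_right e7 c0
      have i2 : (2 * (σ * Real.log l)) * (c / (l : ℝ)) ≤ (2 * (σ * Real.log l)) * (2 / l) :=
        mul_le_mul_of_nonneg_left c1 (by linarith)
      have i3 : (2 * (σ * Real.log l)) * (2 / (l : ℝ)) = 4 * σ * (Real.log l / l) := by ring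
      nlinarith
    have e9 := h.a2 (h.sub' hl)
    have e10 := Real.add_one_le_exp (8 * σ * (Real.log l / l))
    have e11 : 0 ≤ 4 * σ * (Real.log l / l) := by positivity
    calc _ ≤ (c / (l : ℝ) + (1 - a l)) + 4 * σ * (Real.log l / l) := e8
      _ ≤ (c / (l : ℝ) + (1 - a l)) * (8 * σ * (Real.log l / l) + 1) := by nlinarith
      _ ≤ _ := mul_le_mul_of_nonneg_left e10 (by linarith)
  have e5 : ∏ l ∈ PP \ P1, ((l : ℝ) ^ σ * (c / (l : ℝ)) + (1 - a l)) ≤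
      (∏ l ∈ PP \ P1, (c / (l : ℝ) + (1 - a l))) * Real.exp 51 := by
    calc ∏ l ∈ PP \ P1, ((l : ℝ) ^ σ * (c / (l : ℝ)) + (1 - a l))
        ≤ ∏ l ∈ PP \ P1, ((c / (l : ℝ) + (1 - a l)) * Real.exp (8 * σ * (Real.log l / l))) := by
          refine prod_le_prod (fun l hl => ?_) e4
          have h1 := h.a1 (h.sub' hl)
          have c0 : 0 ≤ c / (l : ℝ) := div_nonneg h.c0 (Nat.cast_nonneg _)
          have h2 : 0 ≤ (l : ℝ) ^ σ * (c / (l : ℝ)) := by positivity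
          linarith
      _ = (∏ l ∈ PP \ P1, (c / (l : ℝ) + (1 - a l))) *
          Real.exp (8 * σ * ∑ l ∈ PP \ P1, Real.log l / l) := by
          rw [prod_mul_distrib, ← Real.exp_sum, mul_sum]
      _ ≤ _ := by
          apply mul_le_mul_of_nonneg_left _ (prod_nonneg fun l hl => by linarith [h.a2 (h.sub' hl)])
          apply Real.exp_le_exp.2
          have e6 := sum_log z (by linarith [h.hz]) (PP \ P1)
            (fun l hl => ⟨(h.pe l (h.sub' hl)).1, (h.pe l (h.sub' hl)).2.2⟩)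
          calc 8 * σ * ∑ l ∈ PP \ P1, Real.log l / l ≤ 8 * σ * (Real.log z + 8) := by gcongr
            _ = 8 * (σ * Real.log z) + 64 * σ := by ring
            _ ≤ 51 := by rw [hσ1]; linarith
  have n1 : 0 ≤ ∏ l ∈ PE \ (PP \ P1), (1 - a l) :=
    prod_nonneg fun l hl => by linarith [h.a1 (mem_sdiff.1 hl).1]
  calc Real.exp (-K / 2) * ((∏ l ∈ PP \ P1, ((l : ℝ) ^ σ * (c / (l : ℝ)) + (1 - a l))) *
        ∏ l ∈ PE \ (PP \ P1), (1 - a l))
      ≤ Real.exp (-K / 2) * (((∏ l ∈ PP \ P1, (c / (l : ℝ) + (1 - a l))) * Real.exp 51) *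
        ∏ l ∈ PE \ (PP \ P1), (1 - a l)) := by gcongr
    _ = Real.exp 51 * Real.exp (-K / 2) * F PE (PP \ P1) a c := by rw [F]; ring

lemma Hy.spec (h : Hy E z c τ a PE PP P1) (l₀ : ℕ) (hl : l₀ ∈ PP \ P1) :
    ∑ S ∈ (PP \ P1).powerset.filter (fun S => l₀ ∈ S), W PE a c S ≤
      4 / l₀ * F PE (PP \ P1) a c := by
  rw [sum_spec PE _ h.sub' a c l₀ hl, F, ← Finset.mul_prod_erase (PP \ P1) _ hl]
  have h1 := h.big (h.sub' hl)
  have h2 := h.a2 (h.sub' hl)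
  have n1 : 0 ≤ ∏ l ∈ PE \ (PP \ P1), (1 - a l) :=
    prod_nonneg fun l hl => by linarith [h.a1 (mem_sdiff.1 hl).1]
  have n2 : 0 ≤ ∏ l ∈ (PP \ P1).erase l₀, (c / (l : ℝ) + (1 - a l)) :=
    prod_nonneg fun l hl => by linarith [h.a2 (h.sub' (mem_of_mem_erase hl))]
  have h3 : c / (l₀ : ℝ) ≤ 4 / l₀ * (c / (l₀ : ℝ) + (1 - a l₀)) := by
    calc c / (l₀ : ℝ) ≤ 2 / l₀ := div_le_div_of_nonneg_right h.c2 (by linarith)
      _ = 4 / l₀ * (1 / 2) := by ring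
      _ ≤ _ := mul_le_mul_of_nonneg_left h2 (by positivity)
  calc c / (l₀ : ℝ) * (∏ l ∈ (PP \ P1).erase l₀, (c / (l : ℝ) + (1 - a l))) *
        ∏ l ∈ PE \ (PP \ P1), (1 - a l)
      ≤ (4 / l₀ * (c / (l₀ : ℝ) + (1 - a l₀))) * (∏ l ∈ (PP \ P1).erase l₀, (c / (l : ℝ) + (1 - a l))) *
        ∏ l ∈ PE \ (PP \ P1), (1 - a l) := by gcongr
    _ = _ := by ring

lemma Hy.spec' (h : Hy E z c τ a PE PP P1) (l₀ : ℕ) :
    ∑ S ∈ (PP \ P1).powerset.filter (fun S => l₀ ∈ S), W PE a c S ≤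
      4 / l₀ * F PE (PP \ P1) a c := by
  by_cases hl : l₀ ∈ PP \ P1
  · exact h.spec l₀ hl
  · have : (PP \ P1).powerset.filter (fun S => l₀ ∈ S) = ∅ := by
      rw [Finset.filter_eq_empty_iff]
      intro S hS hS'
      exact hl (mem_powerset.1 hS hS')
    rw [this, sum_empty]
    exact mul_nonneg (by positivity) h.F0

/-- the four estimates for subsets -/
lemma Hy.main (h : Hy E z c τ a PE PP P1) (C : ℝ) (hC : 1000 ≤ C) :
    F PE (PP \ P1) a c ≤ (1 + C / E) * Real.exp (C * ∑ l ∈ P1, 1 / (l : ℝ)) * V c τ PP ∧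
    4 * F PE (PP \ P1) a c ≤ C * Real.exp (C * ∑ l ∈ P1, 1 / (l : ℝ)) * V c τ PP := by
  have hE : (1000 : ℝ) ≤ E := by exact_mod_cast h.hE
  have hV := h.V0 h.sub
  have hSg : 0 ≤ ∑ l ∈ P1, 1 / (l : ℝ) := sum_nonneg fun _ _ => by positivity
  have h1 := h.F_up
  have h2 : Real.exp (12 * ∑ l ∈ P1, 1 / (l : ℝ)) ≤ Real.exp (C * ∑ l ∈ P1, 1 / (l : ℝ)) := by
    apply Real.exp_le_exp.2
    apply mul_le_mul_of_nonneg_right _ hSg
    linarith
  have h3 : 400 / (E : ℝ) ≤ C / E := div_le_div_of_nonneg_right (by linarith) (by linarith)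
  have h4 : 400 / (E : ℝ) ≤ 1 := by
    rw [div_le_one (by linarith)]
    linarith
  constructor
  · refine h1.trans ?_
    apply mul_le_mul_of_nonneg_right _ hV
    exact mul_le_mul (by linarith) h2 (Real.exp_pos _).le (by positivity)
  · calc 4 * F PE (PP \ P1) a c
        ≤ 4 * ((1 + 400 / E) * Real.exp (12 * ∑ l ∈ P1, 1 / (l : ℝ)) * V c τ PP) := by linarith
      _ = (4 * (1 + 400 / E)) * Real.exp (12 * ∑ l ∈ P1, 1 / (l : ℝ)) * V c τ PP := by ring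
      _ ≤ _ := by
        apply mul_le_mul_of_nonneg_right _ hV
        exact mul_le_mul (by linarith) h2 (Real.exp_pos _).le (by linarith)

lemma Hy.lower (h : Hy E z c τ a PE PP P1) (K : ℝ) :
    (1 - (1000 + 6 * Real.exp 51) / E - (1000 + 6 * Real.exp 51) * Real.exp (-K / 2) -
      (1000 + 6 * Real.exp 51) * ∑ l ∈ P1, 1 / (l : ℝ)) * V c τ PP ≤
    ∑ S ∈ (PP \ P1).powerset.filter (fun S => ((∏ l ∈ S, l : ℕ) : ℝ) ≤ z ^ K), W PE a c S := by
  have hE : (1000 : ℝ) ≤ E := by exact_mod_cast h.hE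
  have hV := h.V0 h.sub
  have hSg : 0 ≤ ∑ l ∈ P1, 1 / (l : ℝ) := sum_nonneg fun _ _ => by positivity
  have hX : 0 < Real.exp 51 := Real.exp_pos _
  have hK : 0 < Real.exp (-K / 2) := Real.exp_pos _
  set g := ∑ l ∈ P1, 1 / (l : ℝ) with hg
  have e0 : 0 ≤ (1000 + 6 * Real.exp 51) / (E : ℝ) := by positivity
  have e1 : 0 ≤ (1000 + 6 * Real.exp 51) * Real.exp (-K / 2) := by positivity
  by_cases hc : 1 ≤ (1000 + 6 * Real.exp 51) * g
  · refine (mul_nonpos_of_nonpos_of_nonneg ?_ hV).trans ?_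
    · linarith
    · exact sum_nonneg fun S _ => h.W0 S
  push Not at hc
  have hg1 : 12 * g ≤ 1 := by nlinarith
  have h1 := sum_filter_add_sum_filter_not (PP \ P1).powerset
    (fun S => ((∏ l ∈ S, l : ℕ) : ℝ) ≤ z ^ K) (fun S => W PE a c S)
  rw [sum_one PE _ h.sub'] at h1
  have h2 := h.tail K
  have h3 := h.F_low
  have h4 := h.F_up
  rw [← hg] at h3 h4
  have h5 : Real.exp (12 * g) ≤ 2.8 := by
    have := Real.exp_one_lt_d9
    have := Real.exp_le_exp.2 hg1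
    linarith
  have h6 : 400 / (E : ℝ) ≤ 1 := by
    rw [div_le_one (by linarith)]
    linarith
  have h6' : 0 ≤ 400 / (E : ℝ) := by positivity
  have h7 : F PE (PP \ P1) a c ≤ 6 * V c τ PP := by
    refine h4.trans (mul_le_mul_of_nonneg_right ?_ hV)
    have := mul_le_mul (show 1 + 400 / (E : ℝ) ≤ 2 by linarith) h5 (Real.exp_pos _).le (by norm_num)
    linarith
  have h8 : Real.exp 51 * Real.exp (-K / 2) * F PE (PP \ P1) a c ≤
      Real.exp 51 * Real.exp (-K / 2) * (6 * V c τ PP) := mul_le_mul_of_nonneg_left h7 (by positivity)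
  have h9 : 200 / (E : ℝ) ≤ (1000 + 6 * Real.exp 51) / E :=
    div_le_div_of_nonneg_right (by linarith) (by linarith)
  have h10 : 12 * g ≤ (1000 + 6 * Real.exp 51) * g := by
    apply mul_le_mul_of_nonneg_right _ hSg
    linarith
  have h11 : 6 * Real.exp 51 * Real.exp (-K / 2) ≤ (1000 + 6 * Real.exp 51) * Real.exp (-K / 2) := by
    apply mul_le_mul_of_nonneg_right _ hK.le
    linarith
  have h12 : (1 - (1000 + 6 * Real.exp 51) / E - (1000 + 6 * Real.exp 51) * Real.exp (-K / 2) -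
      (1000 + 6 * Real.exp 51) * g) * V c τ PP ≤
      (1 - 200 / E - 12 * g - 6 * Real.exp 51 * Real.exp (-K / 2)) * V c τ PP := by
    apply mul_le_mul_of_nonneg_right _ hV
    linarith
  have h13 : (1 - 200 / E - 12 * g - 6 * Real.exp 51 * Real.exp (-K / 2)) * V c τ PP =
      (1 - 200 / E - 12 * g) * V c τ PP - Real.exp 51 * Real.exp (-K / 2) * (6 * V c τ PP) := by ring
  linarith

lemma Hy.extra (h : Hy E z c τ a PE PP P1) (s : Finset (Finset ℕ)) (hs : s ⊆ (PP \ P1).powerset) :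
    ∑ S ∈ s, (∑ l ∈ S, 1 / (l : ℝ)) * W PE a c S ≤ 4 / E * F PE (PP \ P1) a c := by
  have hE : (1000 : ℝ) ≤ E := by exact_mod_cast h.hE
  calc ∑ S ∈ s, (∑ l ∈ S, 1 / (l : ℝ)) * W PE a c S
      ≤ ∑ S ∈ (PP \ P1).powerset, (∑ l ∈ S, 1 / (l : ℝ)) * W PE a c S := by
        apply sum_le_sum_of_subset_of_nonneg hs
        intro S _ _
        exact mul_nonneg (sum_nonneg fun _ _ => by positivity) (h.W0 S)
    _ = ∑ S ∈ (PP \ P1).powerset, ∑ l ∈ PP \ P1, (if l ∈ S then 1 / (l : ℝ) * W PE a c S else 0) := by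
        refine sum_congr rfl fun S hS => ?_
        rw [sum_mul, ← sum_filter]
        apply sum_congr _ fun _ _ => rfl
        ext l
        rw [mem_filter]
        exact ⟨fun hl => ⟨mem_powerset.1 hS hl, hl⟩, fun hl => hl.2⟩
    _ = ∑ l ∈ PP \ P1, 1 / (l : ℝ) * ∑ S ∈ (PP \ P1).powerset.filter (fun S => l ∈ S), W PE a c S := by
        rw [sum_comm]
        refine sum_congr rfl fun l hl => ?_
        rw [mul_sum, sum_filter]
    _ ≤ ∑ l ∈ PP \ P1, 1 / (l : ℝ) * (4 / l * F PE (PP \ P1) a c) := by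
        refine sum_le_sum fun l hl => ?_
        exact mul_le_mul_of_nonneg_left (h.spec l hl) (by positivity)
    _ = (4 * F PE (PP \ P1) a c) * ∑ l ∈ PP \ P1, 1 / (l : ℝ) ^ 2 := by
        rw [mul_sum]
        refine sum_congr rfl fun l _ => ?_
        ring
    _ ≤ (4 * F PE (PP \ P1) a c) * (1 / E) := by
        apply mul_le_mul_of_nonneg_left _ (by linarith [h.F0])
        exact sum_sq E (by have := h.hE; omega) _ (fun l hl => (h.pe l (h.sub' hl)).2.1)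
    _ = _ := by ring

end

end Pool.Agent.Lib.MP391708.T1.ESN

namespace Pool.Agent.Lib.MP391708.T1

open Finset ESN
open scoped Classical

theorem specESN : SpecESN := by
  have hX : 0 < Real.exp 51 := Real.exp_pos _
  refine ⟨1000 + 6 * Real.exp 51, by positivity, ?_⟩
  intro E z K α τ a P1 hE hz hK hα0 hα1 hτ0 hτ6 hP1 ha
  intro PE T V'
  have hE' : (1000 : ℝ) ≤ E := by exact_mod_cast hE
  have hPE : ∀ l ∈ PE, l.Prime ∧ E < l ∧ (l : ℝ) < z := by
    intro l hl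
    rw [mem_filter, QPA.PB, mem_filter, mem_range, Nat.lt_ceil] at hl
    exact ⟨hl.1.2, hl.2, hl.1.1⟩
  have hsub : PPs E z ⊆ PE := by
    intro l hl
    rw [PPs, mem_filter] at hl
    exact mem_filter.2 ⟨hl.1, hl.2.1⟩
  have h1 : ∀ l ∈ PE, l ∉ P1 → l % 4 = 1 ∨ l % 4 = 3 := by
    intro l hl _
    have := hPE l hl
    have h2 := this.1.eq_two_or_odd
    omega
  have hy : Hy E z (2 * α) τ a PE (PPs E z) P1 := by
    refine ⟨hE, hz, by linarith, by linarith, hτ0, hτ6, hPE, hsub, ?_, ?_, ?_⟩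
    · intro l hl
      have h2 := hPE l hl
      have h3 := ha l h2.1 h2.2.1 h2.2.2
      refine ⟨h3.1, ?_⟩
      have h5 : (1000 : ℝ) ≤ l := by
        have : (E : ℝ) ≤ l := by exact_mod_cast h2.2.1.le
        linarith
      have hl0 : (0 : ℝ) < l := by linarith
      have h6 : 100 / (l : ℝ) ^ 2 ≤ 1 / l := by
        rw [div_le_div_iff₀ (by positivity) hl0]
        nlinarith
      by_cases hl1 : l ∈ P1
      · exact h3.2.2.2 hl1
      · rcases h1 l hl hl1 with h4 | h4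
        · have h7 := abs_le.1 (h3.2.1 hl1 h4)
          have h8 : τ / (l : ℝ) ≤ 6 / l := div_le_div_of_nonneg_right hτ6 hl0.le
          have h9 : 10 / (l : ℝ) = 6 / l + 4 * (1 / l) := by ring
          have h10 : 0 ≤ 1 / (l : ℝ) := by positivity
          linarith [h7.2]
        · have h7 := h3.2.2.1 hl1 h4
          have h8 : 2 / (l : ℝ) ^ 2 = 2 / 100 * (100 / (l : ℝ) ^ 2) := by ring
          have h9 : 10 / (l : ℝ) = 10 * (1 / l) := by ring
          have h10 : 0 ≤ 1 / (l : ℝ) := by positivity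
          linarith
    · intro l hl
      rw [mem_sdiff] at hl
      have h2 := hPE l (hsub hl.1)
      exact (ha l h2.1 h2.2.1 h2.2.2).2.1 hl.2 (mem_filter.1 hl.1).2.2
    · intro l hl
      rw [mem_sdiff] at hl
      have h2 := hPE l hl.1
      have h3 := ha l h2.1 h2.2.1 h2.2.2
      by_cases hl1 : l ∈ P1
      · rw [if_pos hl1]
        have := h3.2.2.2 hl1
        have h5 : 0 ≤ 2 / (l : ℝ) ^ 2 := by positivity
        linarith
      · rw [if_neg hl1, add_zero]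
        apply h3.2.2.1 hl1
        rcases h1 l hl.1 hl1 with h4 | h4
        · exfalso
          apply hl.2
          rw [mem_sdiff, PPs, mem_filter]
          exact ⟨⟨(mem_filter.1 hl.1).1, h2.2.1, h4⟩, hl1⟩
        · exact h4
  have hPr : ∀ l ∈ PPs E z \ P1, l.Prime := fun l hl => (hPE l (hy.sub' hl)).1
  have hz0 : 0 ≤ z ^ K := Real.rpow_nonneg (by linarith) _
  have hPEp : ∀ l ∈ PE, l.Prime := fun l hl => (hPE l hl).1
  have hT : T = ∑ S ∈ (PPs E z \ P1).powerset.filter (fun S => ((∏ l ∈ S, l : ℕ) : ℝ) ≤ z ^ K),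
      W PE a (2 * α) S := by
    have := sum_SQ (PPs E z \ P1) hPr (z ^ K) hz0 (fun n => (2 * α) ^ n.primeFactors.card / (n : ℝ) *
      ∏ l ∈ PE.filter (fun l => ¬ l ∣ n), (1 - a l))
    refine this.trans (sum_congr rfl fun S hS => ?_)
    exact term_eq PE a (2 * α) hPEp fun l hl => hPr l (mem_powerset.1 (mem_filter.1 hS).1 hl)
  have hV' : V' = ESN.V (2 * α) τ (PPs E z) := rfl
  obtain ⟨m1, m2⟩ := hy.main (1000 + 6 * Real.exp 51) (by linarith)
  refine ⟨?_, ?_, ?_, ?_⟩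
  · rw [hT, hV']
    refine le_trans ?_ m1
    rw [← sum_one PE _ hy.sub']
    exact sum_le_sum_of_subset_of_nonneg (filter_subset _ _) fun S _ _ => hy.W0 S
  · rw [hT, hV']
    exact hy.lower K
  · intro l₀ hl₀
    have hl0 : (0 : ℝ) < l₀ := by exact_mod_cast hl₀.pos
    rw [sum_filter]
    have := sum_SQ (PPs E z \ P1) hPr (z ^ K) hz0 (fun n => if l₀ ∣ n then
      (2 * α) ^ n.primeFactors.card / (n : ℝ) * ∏ l ∈ PE.filter (fun l => ¬ l ∣ n), (1 - a l) else 0)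
    rw [this, hV']
    calc _ ≤ ∑ S ∈ (PPs E z \ P1).powerset, if l₀ ∈ S then W PE a (2 * α) S else 0 := by
          rw [sum_filter]
          refine sum_le_sum fun S hS => ?_
          have hS' : ∀ l ∈ S, l.Prime := fun l hl => hPr l (mem_powerset.1 hS hl)
          have hW := hy.W0 S
          by_cases h2 : ((∏ l ∈ S, l : ℕ) : ℝ) ≤ z ^ K
          · rw [if_pos h2]
            by_cases h3 : l₀ ∈ S
            · rw [if_pos h3, if_pos ((dvd_prod_iff hS' hl₀).2 h3)]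
              exact (term_eq PE a (2 * α) hPEp hS').le
            · rw [if_neg h3, if_neg (fun h4 => h3 ((dvd_prod_iff hS' hl₀).1 h4))]
          · rw [if_neg h2]
            split_ifs <;> first | exact hW | exact le_rfl
      _ ≤ 4 / l₀ * F PE (PPs E z \ P1) a (2 * α) := by
          rw [← sum_filter]
          exact hy.spec' l₀
      _ = (4 * F PE (PPs E z \ P1) a (2 * α)) / l₀ := by ring
      _ ≤ ((1000 + 6 * Real.exp 51) * Real.exp ((1000 + 6 * Real.exp 51) * ∑ l ∈ P1, 1 / (l : ℝ)) *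
          ESN.V (2 * α) τ (PPs E z)) / l₀ := div_le_div_of_nonneg_right m2 hl0.le
      _ = _ := by ring
  · have := sum_SQ (PPs E z \ P1) hPr (z ^ K) hz0 (fun n => (∑ l ∈ n.primeFactors, 1 / (l : ℝ)) *
      ((2 * α) ^ n.primeFactors.card / (n : ℝ) * ∏ l ∈ PE.filter (fun l => ¬ l ∣ n), (1 - a l)))
    rw [this, hV']
    calc _ = ∑ S ∈ (PPs E z \ P1).powerset.filter (fun S => ((∏ l ∈ S, l : ℕ) : ℝ) ≤ z ^ K),
          (∑ l ∈ S, 1 / (l : ℝ)) * W PE a (2 * α) S := by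
          refine sum_congr rfl fun S hS => ?_
          have hS' : ∀ l ∈ S, l.Prime := fun l hl => hPr l (mem_powerset.1 (mem_filter.1 hS).1 hl)
          show (∑ l ∈ (∏ l ∈ S, l).primeFactors, 1 / (l : ℝ)) * _ = _
          rw [term_eq PE a (2 * α) hPEp hS', prod_pf hS']
      _ ≤ 4 / E * F PE (PPs E z \ P1) a (2 * α) := hy.extra _ (filter_subset _ _)
      _ = (4 * F PE (PPs E z \ P1) a (2 * α)) / E := by ring
      _ ≤ ((1000 + 6 * Real.exp 51) * Real.exp ((1000 + 6 * Real.exp 51) * ∑ l ∈ P1, 1 / (l : ℝ)) *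
          ESN.V (2 * α) τ (PPs E z)) / E := div_le_div_of_nonneg_right m2 (by linarith)
      _ = _ := by ring

end Pool.Agent.Lib.MP391708.T1
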