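import Pool.Agent.Lib.MP_391708_nt.T1.ESpecB

/-!
# Theorem T1, group E: stage 2 (from the equidistribution statements to `SpecPHI`, `SpecPHU`)

Owner helper49.  `z = zz p N`, `W = W0 p`.
-/

set_option autoImplicit false

namespace Pool.Agent.Lib.MP391708.T1

open Finset Filter Topology
open scoped Classical
open T4 (Prm Good zz W0 PP sm Adm S1 S2 vh kp kpU S0)

noncomputable section

/-! ## elementary modules -/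

/-- EVS (helper89): products over the sieving primes, `S0 = ∑ 2/l`.
(1) `1 - x ≤ e^{-x}`, `1 - x ≥ e^{-x-x²}` for `x ≤ 1/2`, `∑_{l > E} c²/l² ≤ 36/E`;
(2) `S0 ≤ 2 log log z + C` (`A3An`), `z → ∞`, `W0` does not depend on `N`. -/
def SpecEVS : Prop :=
  (∀ (p : Prm) (N : ℕ) (c : ℝ), 100 ≤ p.E → 0 ≤ c → c ≤ 6 →
    (1 - 40 / (p.E : ℝ)) * Real.exp (-(c / 2 * S0 p N)) ≤
        ∏ l ∈ PPs p.E (zz p N), (1 - c / (l : ℝ)) ∧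
      ∏ l ∈ PPs p.E (zz p N), (1 - c / (l : ℝ)) ≤ Real.exp (-(c / 2 * S0 p N))) ∧
  ∀ c : ℝ, Good (fun p => ∀ᶠ N : ℕ in atTop, (W0 p : ℝ) ^ 4 * Real.exp (c * S0 p N) ≤ zz p N)

/-- ERR (helper89): sizes.  From `Adm`: `z^(k-4K)/10 ≤ M/P ≤ 10 z^(rk+4K)`,
`G ≥ z^(k+10rk)/10`, `G ≤ M²+1 ≤ 65 N²`; `c` is an arbitrary function of `K`, `r ≥ 1`, `k ≥ k₀(K)`,
`ζ ≤ ζ₀(K, r, k)`. -/
def SpecERR : Prop := ∀ c : ℕ → ℕ, Good (fun p => 0 < p.ζ ∧ 1000 ≤ p.E ∧ 1 ≤ p.K ∧ 4 ∣ W0 p ∧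
  (∀ l : ℕ, l.Prime → (l ≤ p.E ↔ l ∣ W0 p)) ∧ ∀ᶠ N : ℕ in atTop,
  2 ≤ zz p N ∧ zz p N ^ (c p.K) ≤ N ∧ ∀ M G P Q : ℕ, Adm p N M G P Q →
    0 < M ∧ 0 < G ∧ 0 < P ∧ 0 < Q ∧ G % 4 = 1 ∧ (M : ℝ) / P ≤ N ∧ (G : ℝ) ≤ 100 * (N : ℝ) ^ 2 ∧
    zz p N ^ (c p.K) * P ≤ M ∧ zz p N ^ (c p.K) ≤ G ∧
    zz p N ^ (c p.K) * ((M : ℝ) / P * Real.sqrt G + ((M : ℝ) / P) ^ 2 + G * P / M) ≤ G)

/-- LMB (helper84): the local mean does not depend on `b` (`cn_prime_unit`, `cn_prime_zero`) -/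
def SpecLMB : Prop := ∀ (l b G : ℕ) (ψ : ℤ → ℤ → ℝ), l.Prime → ¬ l ∣ b →
  lm l b G ψ = lm l 1 G ψ

/-- the values of `D` -/
def DD (W n : ℕ) (M : ℤ) (G P Q A₁ A₂ : ℕ) : Finset ℕ :=
  (Ioc A₁ A₂).filter (fun D : ℕ => W ∣ D ∧ D.Coprime G ∧ D.Coprime n ∧
    (n : ℤ) ∣ F1 M G P Q (D : ℤ))

/-- the roots of `F₁` modulo `n` -/
def Rt (n : ℕ) (M : ℤ) (G P Q : ℕ) : Finset ℕ :=
  (range n).filter (fun ρ : ℕ => n.Coprime ρ ∧ (n : ℤ) ∣ F1 M G P Q (ρ : ℤ))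

/-- RTS (helper84): roots of `F₁`.
(2): if `d, d'` are roots modulo `l^j` then `(d - d')(P(d+d') - 2M) ≡ 0`, and `(2Pd - 2M)² ≡ -4`, so
`l` does not divide both factors; CRT. (3): `ERO.card_roots`. -/
def SpecRTS : Prop :=
  (∀ (W n G P Q A₁ A₂ : ℕ) (M : ℤ) (g : ℕ → ℝ), 0 < n →
    ∑ D ∈ DD W n M G P Q A₁ A₂, g D = ∑ ρ ∈ Rt n M G P Q, ∑ D ∈ SDD W n ρ G A₁ A₂, g D) ∧
  (∀ (n G P Q : ℕ) (M : ℤ), (G : ℤ) * P * Q = M ^ 2 + 1 → Odd n →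
    (Rt n M G P Q).card ≤ 2 ^ n.primeFactors.card) ∧
  (∀ (n G P Q : ℕ) (M : ℤ), (G : ℤ) * P * Q = M ^ 2 + 1 → 0 < n →
    (∀ l : ℕ, l.Prime → l ∣ n → l % 4 = 1 ∧ ¬ (l : ℤ) ∣ M ^ 2 + 1) →
    (Rt n M G P Q).card = 2 ^ n.primeFactors.card)

/-- ESX (helper20): ESN with primes of `M² + 1` allowed in `n`, and no weights at `P1` and at the
primes `≡ 3 mod 4`; upper bounds only.  From ESN with `a l = 0` there: `n = n₀ n₁`, `n₁ ∣ ∏ P1`,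
`∑ (2α)^ω(n₁)/n₁ ≤ ∏_{P1} (1 + 2/l)`. -/
def SpecESX : Prop := ∃ C : ℝ, 0 < C ∧ ∀ (E : ℕ) (z K α τ : ℝ) (a : ℕ → ℝ) (P1 : Finset ℕ),
  1000 ≤ E → 2 ≤ z → 1 ≤ K → 0 ≤ α → α ≤ 1 → 0 ≤ τ → τ ≤ 6 →
  (∀ l ∈ P1, l.Prime ∧ E < l ∧ (l : ℝ) < z) →
  (∀ l ∈ PPs E z, l ∉ P1 → 0 ≤ a l ∧ a l ≤ 1 ∧ |a l - τ / l| ≤ 100 / (l : ℝ) ^ 2) →
  let V := ∏ l ∈ PPs E z, (1 - (τ - 2 * α) / (l : ℝ))
  ∑ n ∈ SQ (PPs E z) (z ^ K), (2 * α) ^ n.primeFactors.card / (n : ℝ) *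
      ∏ l ∈ (PPs E z).filter (fun l => ¬ l ∣ n ∧ l ∉ P1), (1 - a l) ≤
    C * Real.exp (C * ∑ l ∈ P1, 1 / (l : ℝ)) * V ∧
  ∀ l₀ : ℕ, l₀.Prime → ∑ n ∈ (SQ (PPs E z) (z ^ K)).filter (fun n => l₀ ∣ n),
      (2 * α) ^ n.primeFactors.card / (n : ℝ) *
      ∏ l ∈ (PPs E z).filter (fun l => ¬ l ∣ n ∧ l ∉ P1), (1 - a l) ≤
    C / l₀ * Real.exp (C * ∑ l ∈ P1, 1 / (l : ℝ)) * V

/-! ## PHU -/

def LU (M G P : ℕ) : ℝ := 300 * G * P / M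

/-- the data for PHU: `n'` = modulus for `D`, `n` = smooth part of `X`, `k ≡ κ mod m` -/
def tU (p : Prm) (M G P n' ρ n m : ℕ) (κ : ℤ × ℤ) : EE :=
  ⟨W0 p, n', ρ, n, m, κ, G, (M - 1) / (3 * P), 10 * M / P, 3000 * G, fun _ => 0,
    fun D => ⌊(D : ℝ) * LU M G P / n⌋₊, LU M G P⟩

/-- the local weights -/
def wU (p : Prm) (N : ℕ) (M : ℤ) (G P Q n : ℕ) (bT bR : ℝ) (D D₂ : ℤ) : ℝ :=
  ∏ l ∈ (PP p N).filter (fun l : ℕ => ¬ l ∣ n ∧ ¬ (l : ℤ) ∣ M ^ 2 + 1), wgt l M G P Q bT bR D D₂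

/-- the sum for given smooth part `n` of `X` and sign `s` of `D`, with a condition
`c F₁ F₂ X` -/
def UU (p : Prm) (N M : ℕ) (s : ℤ) (G P Q n : ℕ) (bT bR : ℝ) (c : ℤ → ℤ → ℤ → Prop) : ℝ :=
  ∑ D ∈ DD (W0 p) n (s * M) G P Q ((M - 1) / (3 * P)) (10 * M / P), (1 / rp D) *
    ∑ k ∈ (dk ⌊(D : ℝ) * LU M G P / n⌋₊).filter (fun k => 0 < nk k ∧
        ((D * W0 p : ℕ) : ℤ) ∣ n * nk k - G ∧
        c (F1 (s * M) G P Q D) (F2 (s * M) G P Q ((n * nk k - G) / D)) (n * nk k)),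
      wU p N (s * M) G P Q n bT bR D ((n * nk k - G) / D)

/-- EDU (helper37): the decomposition of the sum over `S2`.  `s = sign D`, `n = sm X`, `X/n = N(k)` for
`4·2^ω(X/n)` values of `k` (`specERT`), `1/X ≤ 100/G`; `(D, n) = 1` because `l ∣ D, X` implies `l ∣ G`;
for `D < 0` use `F₁(M, D) = F₁(-M, -D)`, `F₂(M, D₂) = F₂(-M, -D₂)`. -/
def SpecEDU : Prop := ∀ (p : Prm) (N M G P Q : ℕ) (al bT bR : ℝ) (c : ℤ → ℤ → ℤ → Prop),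
  4 ∣ W0 p → (∀ l : ℕ, l.Prime → (l ≤ p.E ↔ l ∣ W0 p)) → 2 ≤ zz p N → Adm p N M G P Q →
  0 < M → 0 < G → 0 < P → 0 < Q →
  0 ≤ al → al ≤ 1 → 0 ≤ bT → bT ≤ 1 → 0 ≤ bR → bR ≤ 1 →
  ∑ t ∈ (S2 p N M G P Q).filter
      (fun t => c (T4.F1 (M, G, P, Q, t)) (T4.F2 (M, G, P, Q, t)) (t.2 : ℤ)),
      vh p N al bT bR (M, G, P, Q, t) ≤
    25 / G * ∑ n ∈ (SQ (PP p N) (zz p N ^ (4 * p.K))).filter (fun n => n.Coprime G),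
      al ^ n.primeFactors.card * n *
        (UU p N M 1 G P Q n bT bR c + UU p N M (-1) G P Q n bT bR c)

/-- EUG (helper95; from E2g with `κ = 10`, `a = 0`, `η = ζ/3`, `N³` for `N`; ELM, LMB, ERR): general
upper bound for the sums over `(D, k)` -/
def SpecEUG : Prop := ∃ C : ℝ, 0 < C ∧ Good (fun p => ∀ᶠ N : ℕ in atTop,
  ∀ (M G P Q : ℕ) (s : ℤ) (bT bR : ℝ) (n n' ρ m : ℕ) (κ : ℤ × ℤ) (S : Finset ℕ) (j : ℕ → ℕ)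
    (ψ : ℕ → ℤ → ℤ → ℝ), Adm p N M G P Q → (s = 1 ∨ s = -1) → 0 ≤ bT → bT ≤ 1 → 0 ≤ bR →
  bR ≤ 1 → n ∈ SQ (PP p N) (zz p N ^ (4 * p.K)) → n ∣ n' → 0 < n' →
  (n' : ℝ) ≤ zz p N ^ (4 * p.K + 2) → (∀ l : ℕ, l.Prime → l ∣ n' → l ∈ PP p N ∧ ¬ l ∣ G) →
  n'.Coprime ρ → 0 < m → (m : ℝ) ≤ zz p N → (∀ l : ℕ, l.Prime → l ∣ m → l ∣ n') → S.card ≤ 1 →
  (∀ l ∈ S, l ∈ PP p N ∧ ¬ l ∣ n' ∧ 1 ≤ j l ∧ j l ≤ 2 ∧ Locm (l ^ j l) (ψ l)) →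
  (tU p M G P n' ρ n m κ).S (fun D D₂ => (∏ l ∈ S, ψ l D D₂) *
      ∏ l ∈ (PP p N).filter (fun l : ℕ => ¬ l ∣ n' ∧ ¬ (l : ℤ) ∣ (M : ℤ) ^ 2 + 1 ∧ l ∉ S),
        wgt l (s * M) G P Q bT bR D D₂) ≤
    C * (G / ((W0 p : ℝ) ^ 2 * n' * n * (m : ℝ) ^ 2)) * (∏ l ∈ S, lmj l (j l) n G (ψ l)) *
      ∏ l ∈ (PP p N).filter (fun l : ℕ => ¬ l ∣ n' ∧ ¬ (l : ℤ) ∣ (M : ℤ) ^ 2 + 1 ∧ l ∉ S),
        lm l 1 G (wgt l (s * M) G P Q bT bR) + G / zz p N ^ (20 * p.K + 20))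

/-- the local means for given `n` -/
def VU (p : Prm) (N M : ℕ) (s : ℤ) (G P Q n : ℕ) (bT bR : ℝ) : ℝ :=
  ∏ l ∈ (PP p N).filter (fun l : ℕ => ¬ l ∣ n ∧ ¬ (l : ℤ) ∣ (M : ℤ) ^ 2 + 1),
    lm l 1 G (wgt l (s * M) G P Q bT bR)

/-- the cases of PHU: for given `n`, under the hypothesis `H (PP p N) M n q`, the sum with the
condition `c q F₁ F₂ X` has the density `f q` -/
def EUC (c : ℕ → ℤ → ℤ → ℤ → Prop) (H : Finset ℕ → ℕ → ℕ → ℕ → Prop) (f : ℕ → ℝ) : Prop :=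
  ∃ C : ℝ, 0 < C ∧ Good (fun p => ∀ᶠ N : ℕ in atTop,
  ∀ (M G P Q : ℕ) (s : ℤ) (bT bR : ℝ) (n q : ℕ), Adm p N M G P Q → (s = 1 ∨ s = -1) → 0 ≤ bT →
  bT ≤ 1 → 0 ≤ bR → bR ≤ 1 → n ∈ SQ (PP p N) (zz p N ^ (4 * p.K)) → n.Coprime G →
  H (PP p N) M n q →
  UU p N M s G P Q n bT bR (c q) ≤ 2 ^ n.primeFactors.card *
    (C * f q * (G / ((W0 p : ℝ) ^ 2 * (n : ℝ) ^ 2)) * VU p N M s G P Q n bT bR +
      G / zz p N ^ (20 * p.K + 10)))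

/-- case 0: no condition (helper49): `n' = n`, `S = ∅` -/
def SpecEUC0 : Prop := EUC (fun _ _ _ _ => True) (fun _ _ _ _ => True) (fun _ => 1)

/-- case B, `q ∤ n` (helper49): `q ∣ X F₁ F₂`; `S = {q}`, `j = 1`; also for `q ∣ M² + 1`
(`ELMM.roots_le`, `ELMM.fin_bound`); the factor of `q` in the weight is dropped (its mean is `≥ 1/3`) -/
def SpecEUCB : Prop := EUC (fun q f₁ f₂ x => (q : ℤ) ∣ x * f₁ * f₂)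
  (fun PP _ n q => q ∈ PP ∧ ¬ q ∣ n) (fun q => 1 / (q : ℝ))

/-- case A1, `q ∤ n`: `q² ∣ F₁`; `n' = n q²`, roots modulo `n q²` -/
def SpecEUCA : Prop := EUC (fun q f₁ _ _ => (q : ℤ) ^ 2 ∣ f₁)
  (fun PP M n q => q ∈ PP ∧ ¬ q ∣ n ∧ ¬ q ∣ M ^ 2 + 1) (fun q => 1 / (q : ℝ) ^ 2)

/-- case A1, `q ∣ n`: `q² ∣ F₁`; `n' = n q`, roots modulo `n q` -/
def SpecEUCA' : Prop := EUC (fun q f₁ _ _ => (q : ℤ) ^ 2 ∣ f₁)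
  (fun PP M n q => q ∈ PP ∧ q ∣ n ∧ ¬ q ∣ M ^ 2 + 1) (fun q => 1 / (q : ℝ))

/-- case A2, `q ∤ n` (helper49): `q² ∣ F₂`; `S = {q}`, `j = 2` (`specLMJ`) -/
def SpecEUCD : Prop := EUC (fun q _ f₂ _ => (q : ℤ) ^ 2 ∣ f₂)
  (fun PP M n q => q ∈ PP ∧ ¬ q ∣ n ∧ ¬ q ∣ M ^ 2 + 1) (fun q => 1 / (q : ℝ) ^ 2)

/-- case A2, `q ∣ n`: `q² ∣ F₂`; `n' = n q`, all `q` lifts `ρ` of each root modulo `n`, `m = q`, the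
`κ mod q` with `q² ∣ F₂((n N(κ) - G)/ρ)`: `N(κ) mod q` is determined, `≤ 2 q` classes; total
`q · 2q / (q · q²) = 2/q` -/
def SpecEUCD' : Prop := EUC (fun q _ f₂ _ => (q : ℤ) ^ 2 ∣ f₂)
  (fun PP M n q => q ∈ PP ∧ q ∣ n ∧ ¬ q ∣ M ^ 2 + 1) (fun q => 1 / (q : ℝ))

/-- case A3, `q ∤ n` (helper49): `q ∤ X`, `q ∣ F₁`, `q ∣ F₂`; `S = {q}`, `j = 1` (`specELM`) -/
def SpecEUCF : Prop := EUC (fun q f₁ f₂ x => ¬ (q : ℤ) ∣ x ∧ (q : ℤ) ∣ f₁ ∧ (q : ℤ) ∣ f₂)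
  (fun PP M n q => q ∈ PP ∧ ¬ q ∣ n ∧ ¬ q ∣ M ^ 2 + 1) (fun q => 1 / (q : ℝ) ^ 2)

/-! ## PHI -/

def hI (M Q : ℕ) : ℝ := ((M : ℝ) ^ 2 + 1) / (Q * M)

/-- the data for PHI -/
def tI (p : Prm) (M G P Q ρ n m : ℕ) (κ : ℤ × ℤ) : EE :=
  ⟨W0 p, n, ρ, n, m, κ, G, 2 * M / P, 3 * M / P, 7 * G / n,
    fun D => ⌈((G : ℝ) + D * hI M Q) / n⌉₊ - 1, fun D => ⌈((G : ℝ) + 2 * D * hI M Q) / n⌉₊ - 1,
    hI M Q⟩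

/-- the local weights of PHI -/
def pI (M G P Q l : ℕ) (d e : ℤ) : ℝ :=
  if (l : ℤ) ∣ (M : ℤ) ^ 2 + 1 then wgt0 l G Q d e
  else if l % 4 = 1 then wgt l M G P Q (1 / 6) (1 / 6) d e else wgt l M G P Q 1 1 d e

/-- all primes in `(E, z)` -/
def PE (p : Prm) (N : ℕ) : Finset ℕ := (QPA.PB (zz p N)).filter (fun l => p.E < l)

/-- the sieving primes of `M² + 1` -/
def P1 (p : Prm) (N M : ℕ) : Finset ℕ := (PP p N).filter (fun l => l ∣ M ^ 2 + 1)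

/-- the `k` of PHI -/
def KI (p : Prm) (M G Q n D : ℕ) : Finset (ℤ × ℤ) :=
  (dk (⌈((G : ℝ) + 2 * D * hI M Q) / n⌉₊ - 1)).filter (fun k =>
    ((⌈((G : ℝ) + D * hI M Q) / n⌉₊ - 1 : ℕ) : ℤ) < nk k ∧ ((D * W0 p : ℕ) : ℤ) ∣ n * nk k - G)

/-- the sum for given smooth part `n` of `X`, with a condition on `k` -/
def UI (p : Prm) (N M G P Q n : ℕ) (c : ℤ × ℤ → Prop) : ℝ :=
  ∑ D ∈ DD (W0 p) n M G P Q (2 * M / P) (3 * M / P), (1 / rp D) *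
    ∑ k ∈ (KI p M G Q n D).filter c,
      ∏ l ∈ (PE p N).filter (fun l => ¬ l ∣ n), pI M G P Q l D ((n * nk k - G) / D)

/-- the number of `(D, k)` with a bad prime `≥ z` -/
def UI3 (p : Prm) (N M G P Q n : ℕ) : ℝ :=
  ∑ D ∈ DD (W0 p) n M G P Q (2 * M / P) (3 * M / P), (1 / rp D) *
    (((KI p M G Q n D).filter (fun k => ∃ l : ℕ, l.Prime ∧ zz p N ≤ (l : ℝ) ∧
      ((l : ℤ) ^ 2 ∣ nk k ∨ ((l : ℤ) ∣ nk k ∧ l ∣ G)))).card : ℝ)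

/-- the coefficient of `n` -/
def cI (G n : ℕ) : ℝ := (1 / 6) ^ n.primeFactors.card * n / (4 * G)

/-- EDI (helper12): the decomposition of the sum over `S1`.  `n = sm X`, `X/n = N(k)`,
`X/G · dn(X/n) = n/G · 2^ω(X/n)`; a `k` counted in `UI` such that no prime of `n` divides `N(k)` and no
bad prime `≥ z` gives an `X = n N(k)` which satisfies all conditions (a prime `≡ 3 mod 4` divides `N(k)`
to an even power). -/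
def SpecEDI : Prop := ∀ (p : Prm) (N M G P Q : ℕ),
  4 ∣ W0 p → (∀ l : ℕ, l.Prime → (l ≤ p.E ↔ l ∣ W0 p)) → 2 ≤ zz p N → Adm p N M G P Q →
  0 < M → 0 < G → 0 < P → 0 < Q →
  ∑ t ∈ S1 p N M G P Q, (t.2 : ℝ) / G * vh p N (1 / 6) (1 / 6) (1 / 6) (M, G, P, Q, t) ≤
    ∑ n ∈ SQ (PP p N \ P1 p N M) (zz p N ^ p.K), cI G n * UI p N M G P Q n (fun _ => True) ∧
  ∑ n ∈ SQ (PP p N \ P1 p N M) (zz p N ^ p.K), cI G n * (UI p N M G P Q n (fun _ => True) -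
      UI p N M G P Q n (fun k => ∃ l : ℕ, l.Prime ∧ l ∣ n ∧ (l : ℤ) ∣ nk k) -
      UI3 p N M G P Q n) ≤
    ∑ t ∈ S1 p N M G P Q, (t.2 : ℝ) / G * vh p N (1 / 6) (1 / 6) (1 / 6) (M, G, P, Q, t)

/-- main term for given `n` and `ρ` -/
def mI (p : Prm) (M G P Q n : ℕ) : ℝ :=
  2 * Real.pi * (((3 * M / P : ℕ) : ℝ) - ((2 * M / P : ℕ) : ℝ)) * hI M Q /
      ((W0 p : ℝ) ^ 2 * (n : ℝ) ^ 2) * ∏ l ∈ G.primeFactors, (1 - 1 / (l : ℝ))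

/-- the local means for given `n` -/
def VI (p : Prm) (N M G P Q n : ℕ) : ℝ :=
  ∏ l ∈ (PE p N).filter (fun l => ¬ l ∣ n), lm l 1 G (pI M G P Q l)

/-- EIG (helper91; from E2g, ELM, LMB, ERR) -/
def SpecEIG : Prop := ∀ ε : ℝ, 0 < ε → Good (fun p => ∀ᶠ N : ℕ in atTop,
  ∀ M G P Q n ρ : ℕ, Adm p N M G P Q → n ∈ SQ (PP p N \ P1 p N M) (zz p N ^ p.K) →
  n.Coprime ρ →
  |(tI p M G P Q ρ n 1 (0, 0)).S (fun D D₂ => ∏ l ∈ (PE p N).filter (fun l => ¬ l ∣ n),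
      pI M G P Q l D D₂) - mI p M G P Q n * VI p N M G P Q n| ≤
    ε * (mI p M G P Q n * VI p N M G P Q n) + G / zz p N ^ (20 * p.K + 20) ∧
  ∀ (l₀ : ℕ) (κ : ℤ × ℤ), l₀.Prime → l₀ ∣ n →
    (tI p M G P Q ρ n l₀ κ).S (fun D D₂ => ∏ l ∈ (PE p N).filter (fun l => ¬ l ∣ n),
      pI M G P Q l D D₂) ≤
    2 * (mI p M G P Q n * VI p N M G P Q n) / (l₀ : ℝ) ^ 2 + G / zz p N ^ (20 * p.K + 20))

/-- EI1, EI2 (helper32; from EIG, RTS): (1) `UI` without condition; (2) the part with a prime of `n`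
dividing `N(k)`: `≤ 2 l` classes `κ` modulo `l` -/
def SpecEI12 : Prop := ∀ ε : ℝ, 0 < ε → Good (fun p => ∀ᶠ N : ℕ in atTop,
  ∀ M G P Q n : ℕ, Adm p N M G P Q → n ∈ SQ (PP p N \ P1 p N M) (zz p N ^ p.K) →
  |UI p N M G P Q n (fun _ => True) -
      2 ^ n.primeFactors.card * (mI p M G P Q n * VI p N M G P Q n)| ≤
    2 ^ n.primeFactors.card * (ε * (mI p M G P Q n * VI p N M G P Q n) +
      G / zz p N ^ (20 * p.K + 10)) ∧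
  UI p N M G P Q n (fun k => ∃ l : ℕ, l.Prime ∧ l ∣ n ∧ (l : ℤ) ∣ nk k) ≤
    2 ^ n.primeFactors.card * ((∑ l ∈ n.primeFactors, 1 / (l : ℝ)) *
      (4 * (mI p M G P Q n * VI p N M G P Q n)) + G / zz p N ^ (20 * p.K + 10)))

/-- EI3 (helper44; from EBD with `η = ζ/10`, RTS, ERR) -/
def SpecEI3 : Prop := Good (fun p => ∀ᶠ N : ℕ in atTop, ∀ M G P Q : ℕ, Adm p N M G P Q →
  ∑ n ∈ SQ (PP p N \ P1 p N M) (zz p N ^ p.K), cI G n * UI3 p N M G P Q n ≤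
    1 / Real.sqrt (zz p N))

end

end Pool.Agent.Lib.MP391708.T1
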