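import Pool.Agent.Lib.MP_391708_nt.T1.ESN
import Pool.Agent.Lib.MP_391708_nt.T1.ESpecC

/-!
# Module ESX: the sum over the smooth part with the primes of `M² + 1`
-/

set_option autoImplicit false

namespace Pool.Agent.Lib.MP391708.T1.ESXM

open Finset ESN
open scoped Classical

noncomputable section

/-- the modified local densities -/
def am (a : ℕ → ℝ) (P1 : Finset ℕ) (l : ℕ) : ℝ := if l ∈ P1 then 0 else a l

lemma term_eq' (PP P1 : Finset ℕ) (a : ℕ → ℝ) (c : ℝ) (hPP : ∀ l ∈ PP, l.Prime) {S : Finset ℕ}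
    (hS : ∀ l ∈ S, l.Prime) :
    c ^ (∏ l ∈ S, l).primeFactors.card / ((∏ l ∈ S, l : ℕ) : ℝ) *
      ∏ l ∈ PP.filter (fun l => ¬ l ∣ ∏ l ∈ S, l ∧ l ∉ P1), (1 - a l) = W PP (am a P1) c S := by
  rw [← term_eq PP (am a P1) c hPP hS]
  congr 1
  rw [← Finset.filter_filter, Finset.prod_filter]
  refine Finset.prod_congr rfl fun l _ => ?_
  by_cases h : l ∈ P1
  · simp [am, h]
  · simp [am, h]

/-- the sum over the subsets that contain `l₀` -/
lemma spec_gen (PE P : Finset ℕ) (hP : P ⊆ PE) (a : ℕ → ℝ) (c : ℝ) (hc2 : c ≤ 2)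
    (h1 : ∀ l ∈ PE, 0 ≤ 1 - a l) (h2 : ∀ l ∈ P, 1 / 2 ≤ c / (l : ℝ) + (1 - a l)) (l₀ : ℕ) :
    ∑ S ∈ P.powerset.filter (fun S => l₀ ∈ S), W PE a c S ≤ 4 / l₀ * F PE P a c := by
  have n1 : 0 ≤ ∏ l ∈ PE \ P, (1 - a l) := prod_nonneg fun l hl => h1 l (mem_sdiff.1 hl).1
  by_cases hl : l₀ ∈ P
  · rw [sum_spec PE P hP a c l₀ hl, F, ← Finset.mul_prod_erase P _ hl]
    have n2 : 0 ≤ ∏ l ∈ P.erase l₀, (c / (l : ℝ) + (1 - a l)) :=
      prod_nonneg fun l hl => by linarith [h2 l (mem_of_mem_erase hl)]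
    have h3 : c / (l₀ : ℝ) ≤ 4 / l₀ * (c / (l₀ : ℝ) + (1 - a l₀)) := by
      calc c / (l₀ : ℝ) ≤ 2 / l₀ := div_le_div_of_nonneg_right hc2 (Nat.cast_nonneg _)
        _ = 4 / l₀ * (1 / 2) := by ring
        _ ≤ _ := mul_le_mul_of_nonneg_left (h2 l₀ hl) (by positivity)
    calc c / (l₀ : ℝ) * (∏ l ∈ P.erase l₀, (c / (l : ℝ) + (1 - a l))) * ∏ l ∈ PE \ P, (1 - a l)
        ≤ (4 / l₀ * (c / (l₀ : ℝ) + (1 - a l₀))) * (∏ l ∈ P.erase l₀, (c / (l : ℝ) + (1 - a l))) *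
          ∏ l ∈ PE \ P, (1 - a l) := by gcongr
      _ = _ := by ring
  · have : P.powerset.filter (fun S => l₀ ∈ S) = ∅ := by
      rw [Finset.filter_eq_empty_iff]
      intro S hS hS'
      exact hl (mem_powerset.1 hS hS')
    rw [this, sum_empty]
    refine mul_nonneg (by positivity) (mul_nonneg ?_ n1)
    exact prod_nonneg fun l hl => by linarith [h2 l hl]

variable {E : ℕ} {z c τ : ℝ} {a : ℕ → ℝ} {PP P1 : Finset ℕ}

/-- the full sum over all subsets -/
lemma full (h : Hy E z c τ a PP PP P1) (h0 : ∀ l ∈ PP ∩ P1, a l = 0) :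
    4 * F PP PP a c ≤ 1000 * Real.exp (1000 * ∑ l ∈ P1, 1 / (l : ℝ)) * V c τ PP := by
  have hE : (1000 : ℝ) ≤ E := by exact_mod_cast h.hE
  have hV := h.V0 h.sub
  have hSg : 0 ≤ ∑ l ∈ P1, 1 / (l : ℝ) := sum_nonneg fun _ _ => by positivity
  have e1 : F PP PP a c = F PP (PP \ P1) a c * ∏ l ∈ PP ∩ P1, (c / (l : ℝ) + 1) := by
    have e0 : PP \ (PP \ P1) = PP ∩ P1 := by
      ext l
      simp only [mem_sdiff, mem_inter]
      tauto
    rw [F, F, Finset.sdiff_self, prod_empty, mul_one, e0]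
    have e2 : ∏ l ∈ PP ∩ P1, (1 - a l) = 1 := by
      apply prod_eq_one
      intro l hl
      rw [h0 l hl, sub_zero]
    have e3 : ∏ l ∈ PP, (c / (l : ℝ) + (1 - a l)) = (∏ l ∈ PP \ P1, (c / (l : ℝ) + (1 - a l))) *
        ∏ l ∈ PP ∩ P1, (c / (l : ℝ) + (1 - a l)) := by
      rw [← Finset.prod_union (Finset.disjoint_sdiff_inter PP P1), Finset.sdiff_union_inter]
    have e4 : ∏ l ∈ PP ∩ P1, (c / (l : ℝ) + (1 - a l)) = ∏ l ∈ PP ∩ P1, (c / (l : ℝ) + 1) :=
      prod_congr rfl fun l hl => by rw [h0 l hl, sub_zero]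
    rw [e3, e4, e2]
    ring
  have e2 : ∏ l ∈ PP ∩ P1, (c / (l : ℝ) + 1) ≤ Real.exp (2 * ∑ l ∈ P1, 1 / (l : ℝ)) := by
    calc ∏ l ∈ PP ∩ P1, (c / (l : ℝ) + 1) ≤ ∏ l ∈ PP ∩ P1, Real.exp (2 / (l : ℝ)) := by
          refine prod_le_prod (fun l _ => ?_) fun l _ => ?_
          · have : 0 ≤ c / (l : ℝ) := div_nonneg h.c0 (Nat.cast_nonneg _)
            linarith
          · have i1 : c / (l : ℝ) ≤ 2 / l := div_le_div_of_nonneg_right h.c2 (Nat.cast_nonneg _)
            have i2 := Real.add_one_le_exp (2 / (l : ℝ))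
            linarith
      _ = Real.exp (∑ l ∈ PP ∩ P1, 2 / (l : ℝ)) := by rw [← Real.exp_sum]
      _ ≤ _ := Real.exp_le_exp.2 (sum_inter_le _ _ _ (by norm_num))
  have e3 := h.F_up
  have hF := h.F0
  have h4 : 400 / (E : ℝ) ≤ 1 := by
    rw [div_le_one (by linarith)]
    linarith
  calc 4 * F PP PP a c = 4 * (F PP (PP \ P1) a c * ∏ l ∈ PP ∩ P1, (c / (l : ℝ) + 1)) := by rw [e1]
    _ ≤ 4 * (((1 + 400 / E) * Real.exp (12 * ∑ l ∈ P1, 1 / (l : ℝ)) * V c τ PP) *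
        Real.exp (2 * ∑ l ∈ P1, 1 / (l : ℝ))) := by
        have : 0 ≤ ∏ l ∈ PP ∩ P1, (c / (l : ℝ) + 1) := prod_nonneg fun l _ => by
          have : 0 ≤ c / (l : ℝ) := div_nonneg h.c0 (Nat.cast_nonneg _)
          linarith
        gcongr
    _ = (4 * (1 + 400 / E)) * (Real.exp (12 * ∑ l ∈ P1, 1 / (l : ℝ)) *
        Real.exp (2 * ∑ l ∈ P1, 1 / (l : ℝ))) * V c τ PP := by ring
    _ = (4 * (1 + 400 / E)) * Real.exp (14 * ∑ l ∈ P1, 1 / (l : ℝ)) * V c τ PP := by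
        rw [← Real.exp_add]
        congr 3
        ring
    _ ≤ _ := by
        apply mul_le_mul_of_nonneg_right _ hV
        apply mul_le_mul (by linarith) _ (Real.exp_pos _).le (by norm_num)
        apply Real.exp_le_exp.2
        nlinarith

end

end Pool.Agent.Lib.MP391708.T1.ESXM

namespace Pool.Agent.Lib.MP391708.T1

open Finset ESN ESXM
open scoped Classical

theorem specESX : SpecESX := by
  refine ⟨1000, by norm_num, ?_⟩
  intro E z K α τ a P1 hE hz hK hα0 hα1 hτ0 hτ6 hP1 ha V'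
  have hE' : (1000 : ℝ) ≤ E := by exact_mod_cast hE
  have hPP : ∀ l ∈ PPs E z, l.Prime ∧ E < l ∧ (l : ℝ) < z := by
    intro l hl
    rw [PPs, mem_filter, QPA.PB, mem_filter, mem_range, Nat.lt_ceil] at hl
    exact ⟨hl.1.2, hl.2.1, hl.1.1⟩
  have hy : Hy E z (2 * α) τ (am a P1) (PPs E z) (PPs E z) P1 := by
    refine ⟨hE, hz, by linarith, by linarith, hτ0, hτ6, hPP, subset_rfl, ?_, ?_, ?_⟩
    · intro l hl
      have h2 := hPP l hl
      have h5 : (1000 : ℝ) ≤ l := by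
        have : (E : ℝ) ≤ l := by exact_mod_cast h2.2.1.le
        linarith
      have hl0 : (0 : ℝ) < l := by linarith
      have h6 : 100 / (l : ℝ) ^ 2 ≤ 1 / l := by
        rw [div_le_div_iff₀ (by positivity) hl0]
        nlinarith
      have h10 : 0 ≤ 1 / (l : ℝ) := by positivity
      by_cases hl1 : l ∈ P1
      · rw [am, if_pos hl1]
        exact ⟨le_rfl, by positivity⟩
      · rw [am, if_neg hl1]
        have h3 := ha l hl hl1
        have h7 := abs_le.1 h3.2.2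
        have h8 : τ / (l : ℝ) ≤ 6 / l := div_le_div_of_nonneg_right hτ6 hl0.le
        have h9 : 10 / (l : ℝ) = 6 / l + 4 * (1 / l) := by ring
        exact ⟨h3.1, by linarith [h7.2]⟩
    · intro l hl
      rw [mem_sdiff] at hl
      rw [am, if_neg hl.2]
      exact (ha l hl.1 hl.2).2.2
    · intro l hl
      rw [mem_sdiff, mem_sdiff] at hl
      have hl1 : l ∈ P1 := by
        by_contra h
        exact hl.2 ⟨hl.1, h⟩
      rw [am, if_pos hl1, if_pos hl1]
      positivity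
  have hPr : ∀ l ∈ PPs E z, l.Prime := fun l hl => (hPP l hl).1
  have hz0 : 0 ≤ z ^ K := Real.rpow_nonneg (by linarith) _
  have h0 : ∀ l ∈ PPs E z ∩ P1, am a P1 l = 0 := fun l hl => by
    rw [am, if_pos (mem_inter.1 hl).2]
  have hfull := full hy h0
  have hV' : V' = ESN.V (2 * α) τ (PPs E z) := rfl
  have hF0 : 0 ≤ F (PPs E z) (PPs E z) (am a P1) (2 * α) := by
    apply mul_nonneg
    · exact prod_nonneg fun l hl => by linarith [hy.a2 hl]
    · exact prod_nonneg fun l hl => by linarith [hy.a1 (mem_sdiff.1 hl).1]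
  constructor
  · have := sum_SQ (PPs E z) hPr (z ^ K) hz0 (fun n => (2 * α) ^ n.primeFactors.card / (n : ℝ) *
      ∏ l ∈ (PPs E z).filter (fun l => ¬ l ∣ n ∧ l ∉ P1), (1 - a l))
    rw [this, hV']
    calc _ = ∑ S ∈ (PPs E z).powerset.filter (fun S => ((∏ l ∈ S, l : ℕ) : ℝ) ≤ z ^ K),
          W (PPs E z) (am a P1) (2 * α) S := by
          refine sum_congr rfl fun S hS => ?_
          exact term_eq' (PPs E z) P1 a (2 * α) hPr
            fun l hl => hPr l (mem_powerset.1 (mem_filter.1 hS).1 hl)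
      _ ≤ ∑ S ∈ (PPs E z).powerset, W (PPs E z) (am a P1) (2 * α) S :=
          sum_le_sum_of_subset_of_nonneg (filter_subset _ _) fun S _ _ => hy.W0 S
      _ = F (PPs E z) (PPs E z) (am a P1) (2 * α) := sum_one _ _ subset_rfl _ _
      _ ≤ 4 * F (PPs E z) (PPs E z) (am a P1) (2 * α) := by linarith
      _ ≤ _ := hfull
  · intro l₀ hl₀
    have hl0 : (0 : ℝ) < l₀ := by exact_mod_cast hl₀.pos
    rw [sum_filter]
    have := sum_SQ (PPs E z) hPr (z ^ K) hz0 (fun n => if l₀ ∣ n then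
      (2 * α) ^ n.primeFactors.card / (n : ℝ) *
        ∏ l ∈ (PPs E z).filter (fun l => ¬ l ∣ n ∧ l ∉ P1), (1 - a l) else 0)
    rw [this, hV']
    calc _ ≤ ∑ S ∈ (PPs E z).powerset, if l₀ ∈ S then W (PPs E z) (am a P1) (2 * α) S else 0 := by
          rw [sum_filter]
          refine sum_le_sum fun S hS => ?_
          have hS' : ∀ l ∈ S, l.Prime := fun l hl => hPr l (mem_powerset.1 hS hl)
          have hW := hy.W0 S
          by_cases h2 : ((∏ l ∈ S, l : ℕ) : ℝ) ≤ z ^ K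
          · rw [if_pos h2]
            by_cases h3 : l₀ ∈ S
            · rw [if_pos h3, if_pos ((dvd_prod_iff hS' hl₀).2 h3)]
              exact (term_eq' (PPs E z) P1 a (2 * α) hPr hS').le
            · rw [if_neg h3, if_neg (fun h4 => h3 ((dvd_prod_iff hS' hl₀).1 h4))]
          · rw [if_neg h2]
            split_ifs <;> first | exact hW | exact le_rfl
      _ ≤ 4 / l₀ * F (PPs E z) (PPs E z) (am a P1) (2 * α) := by
          rw [← sum_filter]
          exact spec_gen _ _ subset_rfl _ _ (by linarith) (fun l hl => by linarith [hy.a1 hl])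
            (fun l hl => hy.a2 hl) l₀
      _ = (4 * F (PPs E z) (PPs E z) (am a P1) (2 * α)) / l₀ := by ring
      _ ≤ (1000 * Real.exp (1000 * ∑ l ∈ P1, 1 / (l : ℝ)) *
          ESN.V (2 * α) τ (PPs E z)) / l₀ := div_le_div_of_nonneg_right hfull hl0.le
      _ = _ := by ring

end Pool.Agent.Lib.MP391708.T1
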