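import Pool.Agent.Lib.MP_391708_nt.T1.ECN
import Pool.Agent.Lib.MP_391708_nt.T1.FLW

/-!
# Theorem T1, group E (pointwise sums over `(D, X)`): exact statements of the modules

Owner helper49.  A module proves `theorem specXxx : SpecXxx` in its own file `T1/<Name>.lean`.

Notation: `X = b N(k) = G + D D₂`, `k ∈ ℤ²`, `nk k = N(k)`; `W ∣ D`, `W ∣ D₂` (`W = W0`, `4 ∣ W`),
`D ≡ ρ mod n`, `(D, G) = 1`.  `b` is the smooth part of `X` (times a prime for the error terms), `n` the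
modulus of the condition on `D`; every prime of `b` divides `n`.
-/

set_option autoImplicit false

namespace Pool.Agent.Lib.MP391708.T1

open Finset
open scoped Classical

noncomputable section

/-- `rp(D) = ∏_{l ∣ D} (1 - χ(l)/l)` -/
def rp (D : ℕ) : ℝ := ∏ l ∈ D.primeFactors, (1 - ch l / l)

/-- density of the class `(d, e)` of `(D, D₂)` modulo `l`, relative to `1/l²` -/
def om (l : ℕ) (b G d e : ℤ) : ℝ := if (l : ℤ) ∣ d then 1 else (cn l b (G + d * e) : ℝ) / l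

/-- local mean (`(D, G) = 1`, so the classes `l ∣ d` are excluded if `l ∣ G`) -/
def lm (l : ℕ) (b G : ℤ) (ψ : ℤ → ℤ → ℝ) : ℝ :=
  if (l : ℤ) ∣ G then (∑ d ∈ (range l).filter (fun d => d ≠ 0), ∑ e ∈ range l,
      ψ (d : ℤ) (e : ℤ) * om l b G (d : ℤ) (e : ℤ)) / ((l : ℝ) * (l - 1))
  else (∑ d ∈ range l, ∑ e ∈ range l, ψ (d : ℤ) (e : ℤ) * om l b G (d : ℤ) (e : ℤ)) / (l : ℝ) ^ 2

/-- a function of the classes modulo `l` with values in `[0,1]` -/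
def Loc (l : ℕ) (ψ : ℤ → ℤ → ℝ) : Prop :=
  (∀ d e, 0 ≤ ψ d e ∧ ψ d e ≤ 1) ∧
  ∀ d d' e e' : ℤ, (l : ℤ) ∣ d - d' → (l : ℤ) ∣ e - e' → ψ d e = ψ d' e'

/-- the data of a sum over `(D, k)` -/
structure ED where
  W : ℕ
  n : ℕ
  ρ : ℕ
  b : ℕ
  G : ℕ
  A₁ : ℕ
  A₂ : ℕ
  R : ℕ
  R₁ : ℕ → ℕ
  R₂ : ℕ → ℕ
  L : ℝ

/-- the hypotheses on the data -/
def ED.Ok (t : ED) : Prop :=
  0 < t.W ∧ 4 ∣ t.W ∧ 0 < t.n ∧ t.n.Coprime t.ρ ∧ 0 < t.b ∧ t.b % 4 = 1 ∧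
  (∀ l : ℕ, l.Prime → l ∣ t.b → l ∣ t.n) ∧ 0 < t.G ∧ t.G % 4 = 1 ∧ t.W.Coprime t.n ∧
  t.W.Coprime t.G ∧ t.n.Coprime t.G ∧ t.A₁ ≤ t.A₂ ∧ 0 ≤ t.L ∧
  ∀ D : ℕ, t.A₁ < D → D ≤ t.A₂ → t.R₁ D ≤ t.R₂ D ∧ t.R₂ D ≤ t.R ∧
    |((t.R₂ D : ℝ) - t.R₁ D) - D * t.L / t.b| ≤ 1

/-- the values of `D` -/
def ED.SD (t : ED) : Finset ℕ :=
  (Ioc t.A₁ t.A₂).filter (fun D => t.W ∣ D ∧ D ≡ t.ρ [MOD t.n] ∧ D.Coprime t.G)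

/-- the values of `k` for given `D` -/
def ED.SK (t : ED) (D : ℕ) : Finset (ℤ × ℤ) :=
  (dk (t.R₂ D)).filter (fun k => (t.R₁ D : ℤ) < nk k ∧ ((D * t.W : ℕ) : ℤ) ∣ t.b * nk k - t.G)

/-- the sum over `(D, k)` of `F D D₂ / rp(D)` -/
def ED.S (t : ED) (F : ℤ → ℤ → ℝ) : ℝ :=
  ∑ D ∈ t.SD, (1 / rp D) * ∑ k ∈ t.SK D, F (D : ℤ) ((t.b * nk k - t.G) / (D : ℤ))

/-- the main term -/
def ED.main (t : ED) : ℝ :=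
  2 * Real.pi * ((t.A₂ : ℝ) - t.A₁) * t.L / ((t.W : ℝ) ^ 2 * t.n * t.b) *
    ∏ l ∈ t.G.primeFactors, (1 - 1 / (l : ℝ))

/-- the error term -/
def ED.err (t : ED) : ℝ := (t.W : ℝ) * (t.A₂ * Real.sqrt t.R + (t.A₂ : ℝ) ^ 2 + t.L)

/-- all data are at most `N` -/
def ED.Le (t : ED) (N : ℝ) : Prop :=
  (t.W : ℝ) ≤ N ∧ (t.n : ℝ) ≤ N ∧ (t.b : ℝ) ≤ N ∧ (t.G : ℝ) ≤ N ∧ (t.A₂ : ℝ) ≤ N ∧ (t.R : ℝ) ≤ N

/-- ECM: the number of Gaussian integers of given norm modulo `m`, `4 ∣ m`.  Proof: `U` = classes with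
`(N, m) = 1`, `#U = m² ∏_{l ∣ m} (1 - 1/l)(1 - χ(l)/l)` (`ECN.card_S_zero`); the fibres of the norm
`U → (ℤ/m)^×` over attained values have the same size (multiply by `κ₁ conj(κ₀)/c₀`); every unit
`c ≡ 1 mod 4` is attained: Dirichlet (`Nat.forall_exists_prime_gt_and_eq_mod`) gives a prime `p ≡ c mod m`,
`p ≡ 1 mod 4`, `p = x² + y²`; no `c ≡ 3 mod 4` is; so each fibre is `#U/(φ(m)/2)`. -/
def SpecECM : Prop := ∀ (m : ℕ) (b a : ℤ), 0 < m → 4 ∣ m → IsCoprime (m : ℤ) a →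
  IsCoprime (m : ℤ) b → (4 : ℤ) ∣ b - a →
  (cn m b a : ℝ) = 2 * m * rp m

/-- E1: equidistribution of `(D, k)` (helper49).  For fixed `D` put `m = W D Q`; the sum over `k` is a sum
over the classes `κ` mod `m` with `D W ∣ b N(κ) - G`, each class has `π (R₂ - R₁)/m² + O(√R/m + 1)` points
(`ELP.ann`); the number of classes with `D₂ ≡ W e` mod `W Q` is `cn m b (G + D W e)`
`= 2 W D Q rp(D) ∏_{l ∣ Q} (om l (D, W e) or ..)` (`SpecECM`, `ECN`), so the sum over `k` is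
`2 π L/(W b) rp(D) ∏_{l ∣ Q} l⁻¹ ∑_e ψ_l(D, e) om l (D, e) + error`; then the sum over `D` in classes
mod `W n Q` with `(D, G) = 1` (Möbius over the divisors of `G`). -/
def SpecE1 : Prop := ∀ η : ℝ, 0 < η → ∃ C : ℝ, 0 < C ∧ ∀ (t : ED) (N : ℝ) (Q : ℕ)
  (ψ : ℕ → ℤ → ℤ → ℝ), t.Ok → 1 ≤ N → t.Le N → (Q : ℝ) ≤ N → 0 < Q → Squarefree Q →
  Q.Coprime (t.W * t.n) → (∀ l, Loc l (ψ l)) →
  |t.S (fun D D₂ => ∏ l ∈ Q.primeFactors, ψ l D D₂)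
      - t.main * ∏ l ∈ Q.primeFactors, lm l t.b t.G (ψ l)| ≤ C * N ^ η * (Q : ℝ) ^ 3 * t.err

/-- E2 (from E1 and `T1.flw`): `q` fixed squarefree (arbitrary local functions), `P` a set of primes `< z`,
`1 - ψ_l` of mean at most `κ/l` and `2/3` for `l ∈ P`. -/
def SpecE2 : Prop := ∀ κ : ℕ, ∃ C₀ : ℝ, 0 < C₀ ∧ ∀ (η : ℝ) (a : ℕ), 0 < η → ∃ C : ℝ, 0 < C ∧
  ∀ (t : ED) (N z : ℝ) (q : ℕ) (P : Finset ℕ) (ψ : ℕ → ℤ → ℤ → ℝ),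
  t.Ok → 2 ≤ z → z ^ (8 * a + 16) * q ≤ N → t.Le N → 0 < q → Squarefree q →
  q.Coprime (t.W * t.n) →
  (∀ l ∈ P, l.Prime ∧ (l : ℝ) < z ∧ ¬ l ∣ t.W * t.n * q ∧ 1 - lm l t.b t.G (ψ l) ≤ κ / (l : ℝ) ∧
    1 - lm l t.b t.G (ψ l) ≤ 2 / 3) → (∀ l, Loc l (ψ l)) →
  |t.S (fun D D₂ => (∏ l ∈ q.primeFactors, ψ l D D₂) * ∏ l ∈ P, ψ l D D₂)
      - t.main * (∏ l ∈ q.primeFactors, lm l t.b t.G (ψ l)) * ∏ l ∈ P, lm l t.b t.G (ψ l)| ≤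
    C₀ * Real.exp (-(a : ℝ)) * t.main * (∏ l ∈ q.primeFactors, lm l t.b t.G (ψ l)) *
        (∏ l ∈ P, lm l t.b t.G (ψ l)) +
      C * N ^ η * z ^ (4 * (8 * a + 16) + 1) * (q : ℝ) ^ 3 * t.err

/-! ## Local means (helper91) -/

/-- the two quadratic forms: `F₁(d) = P d² - 2 M d + G Q`, `F₂(e) = Q e² + 2 M e + G P` -/
def F1 (M : ℤ) (G P Q : ℕ) (d : ℤ) : ℤ := P * d ^ 2 - 2 * M * d + G * Q
def F2 (M : ℤ) (G P Q : ℕ) (e : ℤ) : ℤ := Q * e ^ 2 + 2 * M * e + G * P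

/-- the local weight at `l ∤ M² + 1`: no `l ∣ X`, factor `bT` if `l ∣ F₁(D)`, `bR` if `l ∣ F₂(D₂)` -/
def wgt (l : ℕ) (M : ℤ) (G P Q : ℕ) (bT bR : ℝ) (d e : ℤ) : ℝ :=
  if (l : ℤ) ∣ G + d * e then 0 else
    (if (l : ℤ) ∣ F1 M G P Q d then bT else 1) * (if (l : ℤ) ∣ F2 M G P Q e then bR else 1)

/-- the local weight at `l ∣ M² + 1`: no `l ∣ X`, no `l ∣ (D, Q)` -/
def wgt0 (l : ℕ) (G Q : ℕ) (d e : ℤ) : ℝ :=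
  if (l : ℤ) ∣ G + d * e ∨ ((l : ℤ) ∣ d ∧ l ∣ Q) then 0 else 1

/-- ELM: local means -/
def SpecELM : Prop := ∀ (l : ℕ) (M : ℤ) (G P Q b : ℕ) (bT bR : ℝ), l.Prime → 100 < l →
  (G : ℤ) * P * Q = M ^ 2 + 1 → ¬ l ∣ b → 0 ≤ bT → bT ≤ 1 → 0 ≤ bR → bR ≤ 1 →
  -- total mass one
  (∀ c : ℝ, lm l b G (fun _ _ => c) = c) ∧
  -- `l ∤ M² + 1`, `l ≡ 1 mod 4`
  (¬ (l : ℤ) ∣ M ^ 2 + 1 → l % 4 = 1 →
    |1 - lm l b G (wgt l M G P Q bT bR) - (6 - 2 * bT - 2 * bR) / l| ≤ 100 / (l : ℝ) ^ 2) ∧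
  -- `l ≡ 3 mod 4`
  (l % 4 = 3 → 1 - lm l b G (wgt l M G P Q bT bR) ≤ 2 / (l : ℝ) ^ 2 ∧
    0 ≤ 1 - lm l b G (wgt l M G P Q bT bR)) ∧
  -- `l ∣ M² + 1`
  ((l : ℤ) ∣ M ^ 2 + 1 → 0 ≤ 1 - lm l b G (wgt0 l G Q) ∧ 1 - lm l b G (wgt0 l G Q) ≤ 10 / l) ∧
  -- special primes
  (¬ (l : ℤ) ∣ M ^ 2 + 1 →
    lm l b G (fun d _ => if (l : ℤ) ∣ F1 M G P Q d then 1 else 0) ≤ 10 / l ∧
    lm l b G (fun _ e => if (l : ℤ) ∣ F2 M G P Q e then 1 else 0) ≤ 10 / l ∧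
    lm l b G (fun d _ => if (l : ℤ) ∣ d then 1 else 0) ≤ 10 / l ∧
    lm l b G (fun _ e => if (l : ℤ) ∣ e then 1 else 0) ≤ 10 / l ∧
    lm l b G (fun d e => if (l : ℤ) ∣ G + d * e then 1 else 0) ≤ 10 / l ∧
    lm l b G (fun d e => if (l : ℤ) ∣ F1 M G P Q d ∧ (l : ℤ) ∣ F2 M G P Q e ∧ ¬ (l : ℤ) ∣ G + d * e
      then 1 else 0) ≤ 10 / (l : ℝ) ^ 2) ∧
  (∀ ψ : ℤ → ℤ → ℝ, Loc l ψ → 0 ≤ lm l b G ψ ∧ lm l b G ψ ≤ 1)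

/-! ## The sum over the smooth part (helper20) -/

/-- primes `≡ 1 mod 4` in `(E, z)` -/
def PPs (E : ℕ) (z : ℝ) : Finset ℕ := (QPA.PB z).filter (fun l => E < l ∧ l % 4 = 1)

/-- `n ≤ Y` squarefree with all primes in `P` -/
def SQ (P : Finset ℕ) (Y : ℝ) : Finset ℕ :=
  (Icc 1 ⌊Y⌋₊).filter (fun n => Squarefree n ∧ ∀ l : ℕ, l.Prime → l ∣ n → l ∈ P)

/-- ESN: the sum over the smooth part.  `a l = 1 - (local mean)`, `P1` = the primes of `M² + 1` in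
`(E, z)`. -/
def SpecESN : Prop := ∃ C : ℝ, 0 < C ∧ ∀ (E : ℕ) (z K α τ : ℝ) (a : ℕ → ℝ) (P1 : Finset ℕ),
  1000 ≤ E → 2 ≤ z → 1 ≤ K → 0 ≤ α → α ≤ 1 → 0 ≤ τ → τ ≤ 6 →
  (∀ l ∈ P1, l.Prime ∧ E < l ∧ (l : ℝ) < z) →
  (∀ l : ℕ, l.Prime → E < l → (l : ℝ) < z → 0 ≤ a l ∧ (l ∉ P1 → l % 4 = 1 →
      |a l - τ / l| ≤ 100 / (l : ℝ) ^ 2) ∧ (l ∉ P1 → l % 4 = 3 → a l ≤ 2 / (l : ℝ) ^ 2) ∧
      (l ∈ P1 → a l ≤ 10 / l)) →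
  let PE := (QPA.PB z).filter (fun l => E < l)
  let T := ∑ n ∈ SQ (PPs E z \ P1) (z ^ K), (2 * α) ^ n.primeFactors.card / (n : ℝ) *
      ∏ l ∈ PE.filter (fun l => ¬ l ∣ n), (1 - a l)
  let V := ∏ l ∈ PPs E z, (1 - (τ - 2 * α) / (l : ℝ))
  T ≤ (1 + C / E) * Real.exp (C * ∑ l ∈ P1, 1 / (l : ℝ)) * V ∧
  (1 - C / E - C * Real.exp (-K / 2) - C * ∑ l ∈ P1, 1 / (l : ℝ)) * V ≤ T ∧
  -- a special prime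
  (∀ l₀ : ℕ, l₀.Prime → ∑ n ∈ (SQ (PPs E z \ P1) (z ^ K)).filter (fun n => l₀ ∣ n),
      (2 * α) ^ n.primeFactors.card / (n : ℝ) * ∏ l ∈ PE.filter (fun l => ¬ l ∣ n), (1 - a l) ≤
    C / l₀ * Real.exp (C * ∑ l ∈ P1, 1 / (l : ℝ)) * V) ∧
  -- extra factor `∑_{l ∣ n} 1/l`
  ∑ n ∈ SQ (PPs E z \ P1) (z ^ K), (∑ l ∈ n.primeFactors, 1 / (l : ℝ)) *
      ((2 * α) ^ n.primeFactors.card / (n : ℝ) * ∏ l ∈ PE.filter (fun l => ¬ l ∣ n), (1 - a l)) ≤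
    C / E * Real.exp (C * ∑ l ∈ P1, 1 / (l : ℝ)) * V

end

end Pool.Agent.Lib.MP391708.T1
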