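import Pool.Agent.Lib.MP_391708_nt.T1.ECRT
import Pool.Agent.Lib.MP_391708_nt.T1.ESpec
import Pool.Agent.Lib.MP_391708_nt.T4.Spec

/-!
# Theorem T1, group E: final statements of E1, E2 and of the auxiliary modules

Owner helper49.  These replace `SpecE1`, `SpecE2` of `ESpec.lean`: one more congruence `k ≡ κ mod m`, and
local functions modulo `l ^ j` (only `j = 1, 2` are used).
-/

set_option autoImplicit false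

namespace Pool.Agent.Lib.MP391708.T1

open Finset
open scoped Classical

noncomputable section

/-! ## local means modulo prime powers -/

/-- density of the class `(d, e)` of `(D, D₂)` modulo `l ^ j`, relative to the uniform density -/
def omj (l j : ℕ) (b G d e : ℤ) : ℝ :=
  if (l : ℤ) ∣ d then 1 else (cn (l ^ j) b (G + d * e) : ℝ) / (l : ℝ) ^ j

/-- mean over `D₂` for given `D` -/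
def Bm (l j : ℕ) (b G : ℤ) (ψ : ℤ → ℤ → ℝ) (d : ℤ) : ℝ :=
  (∑ e ∈ range (l ^ j), ψ d (e : ℤ) * omj l j b G d (e : ℤ)) / (l : ℝ) ^ j

/-- mean over the classes of `D` modulo `l ^ j` with `(D, G, l) = 1` -/
def Dm (l j G : ℕ) (B : ℕ → ℝ) : ℝ :=
  if l ∣ G then (∑ d ∈ (range (l ^ j)).filter (fun d => ¬ l ∣ d), B d) /
      ((l : ℝ) ^ j * (1 - 1 / (l : ℝ)))
  else (∑ d ∈ range (l ^ j), B d) / (l : ℝ) ^ j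

/-- the local mean -/
def lmj (l j b G : ℕ) (ψ : ℤ → ℤ → ℝ) : ℝ := Dm l j G (fun d => Bm l j b G ψ (d : ℤ))

/-- a function of the classes modulo `q` with values in `[0,1]` -/
def Locm (q : ℕ) (ψ : ℤ → ℤ → ℝ) : Prop :=
  (∀ d e, 0 ≤ ψ d e ∧ ψ d e ≤ 1) ∧
  ∀ d d' e e' : ℤ, (q : ℤ) ∣ d - d' → (q : ℤ) ∣ e - e' → ψ d e = ψ d' e'

/-! ## the data -/

/-- the data of a sum over `(D, k)` -/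
structure EE where
  W : ℕ
  n : ℕ
  ρ : ℕ
  b : ℕ
  m : ℕ
  κ : ℤ × ℤ
  G : ℕ
  A₁ : ℕ
  A₂ : ℕ
  R : ℕ
  R₁ : ℕ → ℕ
  R₂ : ℕ → ℕ
  L : ℝ

/-- the hypotheses on the data -/
def EE.Ok (t : EE) : Prop :=
  0 < t.W ∧ 4 ∣ t.W ∧ 0 < t.n ∧ t.n.Coprime t.ρ ∧ 0 < t.b ∧ t.b % 4 = 1 ∧ 0 < t.m ∧
  (∀ l : ℕ, l.Prime → l ∣ t.b * t.m → l ∣ t.n) ∧ 0 < t.G ∧ t.G % 4 = 1 ∧ t.W.Coprime t.n ∧
  t.W.Coprime t.G ∧ t.n.Coprime t.G ∧ t.A₁ ≤ t.A₂ ∧ 0 ≤ t.L ∧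
  ∀ D : ℕ, t.A₁ < D → D ≤ t.A₂ → t.R₁ D ≤ t.R₂ D ∧ t.R₂ D ≤ t.R ∧
    |((t.R₂ D : ℝ) - t.R₁ D) - D * t.L / t.b| ≤ 1

/-- the values of `D` -/
def SDD (W n ρ G A₁ A₂ : ℕ) : Finset ℕ :=
  (Ioc A₁ A₂).filter (fun D => W ∣ D ∧ D ≡ ρ [MOD n] ∧ D.Coprime G)

/-- the values of `D` -/
def EE.SD (t : EE) : Finset ℕ := SDD t.W t.n t.ρ t.G t.A₁ t.A₂

/-- the values of `k` for given `D` -/
def EE.SK (t : EE) (D : ℕ) : Finset (ℤ × ℤ) :=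
  (dk (t.R₂ D)).filter (fun k => (t.R₁ D : ℤ) < nk k ∧ ((D * t.W : ℕ) : ℤ) ∣ t.b * nk k - t.G ∧
    (t.m : ℤ) ∣ k.1 - t.κ.1 ∧ (t.m : ℤ) ∣ k.2 - t.κ.2)

/-- the sum over `(D, k)` of `F D D₂ / rp(D)` -/
def EE.S (t : EE) (F : ℤ → ℤ → ℝ) : ℝ :=
  ∑ D ∈ t.SD, (1 / rp D) * ∑ k ∈ t.SK D, F (D : ℤ) ((t.b * nk k - t.G) / (D : ℤ))

/-- the main term -/
def EE.main (t : EE) : ℝ :=
  2 * Real.pi * ((t.A₂ : ℝ) - t.A₁) * t.L / ((t.W : ℝ) ^ 2 * t.n * t.b * (t.m : ℝ) ^ 2) *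
    ∏ l ∈ t.G.primeFactors, (1 - 1 / (l : ℝ))

/-- the error term -/
def EE.err (t : EE) : ℝ := (t.W : ℝ) * (t.A₂ * Real.sqrt t.R + (t.A₂ : ℝ) ^ 2 + t.L)

/-- all data are at most `N` -/
def EE.Le (t : EE) (N : ℝ) : Prop :=
  (t.W : ℝ) ≤ N ∧ (t.n : ℝ) ≤ N ∧ (t.b : ℝ) ≤ N ∧ (t.m : ℝ) ≤ N ∧ (t.G : ℝ) ≤ N ∧
    (t.A₂ : ℝ) ≤ N ∧ (t.R : ℝ) ≤ N

/-! ## E1 -/

/-- E1D (fixed `D`; helper49).  `μ = W D Q m`, `Q = ∏ l ^ j l`; the classes `κ'` mod `μ` with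
`D W Q ∣ b N(κ') - (G + D W e)` and `κ' ≡ κ mod m` are `cn (D W Q) b (G + D W e)` many, which is
`2 D W Q rp(D) ∏_{l ∈ S} omj l (j l) (D, W e)` (`specECM` for `D W ∏_{l ∣ D} l ^ j l`, `ECRT.cn_mul`). -/
def SpecE1D : Prop := ∀ η : ℝ, 0 < η → ∃ C : ℝ, 0 < C ∧ ∀ (t : EE) (N : ℝ) (S : Finset ℕ)
  (j : ℕ → ℕ) (ψ : ℕ → ℤ → ℤ → ℝ), t.Ok → 1 ≤ N → t.Le N →
  (∀ l ∈ S, l.Prime ∧ ¬ l ∣ t.W * t.n ∧ 1 ≤ j l ∧ Locm (l ^ j l) (ψ l)) →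
  ((∏ l ∈ S, l ^ j l : ℕ) : ℝ) ≤ N → ∀ D ∈ t.SD,
  |(1 / rp D) * ∑ k ∈ t.SK D, ∏ l ∈ S, ψ l (D : ℤ) ((t.b * nk k - t.G) / (D : ℤ))
      - 2 * Real.pi * t.L / (t.b * t.W * (t.m : ℝ) ^ 2) *
        ∏ l ∈ S, Bm l (j l) t.b t.G (ψ l) (D : ℤ)| ≤
    C * N ^ η * ((∏ l ∈ S, l ^ j l : ℕ) : ℝ) ^ 2 * (Real.sqrt t.R + t.W * t.A₂)

/-- E1S (the sum over `D`).  `D = W D'`; Möbius over the squarefree divisors `d` of `G` composed of primes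
not in `S`; the number of `D'` in an interval, in a class modulo `n d Q`, is length/`(n d Q) + O(1)`;
`∑_{x mod Q} ∏ B_l(x) = ∏ ∑_{x mod l^j} B_l(x)` (`ECRT`, generalized to pairwise coprime moduli; the
factor `l ∤ D` is put into `B_l` for the `l ∈ S`, `l ∣ G`). -/
def SpecE1S : Prop := ∀ (W n ρ G A₁ A₂ : ℕ) (S : Finset ℕ) (j : ℕ → ℕ) (B : ℕ → ℕ → ℝ),
  0 < W → 0 < n → 0 < G → W.Coprime n → W.Coprime G → n.Coprime G → A₁ ≤ A₂ →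
  (∀ l ∈ S, l.Prime ∧ ¬ l ∣ W * n ∧ 1 ≤ j l ∧ (∀ x, 0 ≤ B l x ∧ B l x ≤ 1) ∧
    ∀ x, B l (x % l ^ j l) = B l x) →
  |∑ D ∈ SDD W n ρ G A₁ A₂, ∏ l ∈ S, B l D
      - ((A₂ : ℝ) - A₁) / (W * n) * (∏ l ∈ G.primeFactors, (1 - 1 / (l : ℝ))) *
        ∏ l ∈ S, Dm l (j l) G (B l)| ≤ 4 * (G.divisors.card : ℝ) * ((∏ l ∈ S, l ^ j l : ℕ) : ℝ)

/-- E1 (from E1D, E1S, and `0 ≤ Bm ≤ 1`) -/
def SpecE1g : Prop := ∀ η : ℝ, 0 < η → ∃ C : ℝ, 0 < C ∧ ∀ (t : EE) (N : ℝ) (S : Finset ℕ)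
  (j : ℕ → ℕ) (ψ : ℕ → ℤ → ℤ → ℝ), t.Ok → 1 ≤ N → t.Le N →
  (∀ l ∈ S, l.Prime ∧ ¬ l ∣ t.W * t.n ∧ 1 ≤ j l ∧ Locm (l ^ j l) (ψ l)) →
  ((∏ l ∈ S, l ^ j l : ℕ) : ℝ) ≤ N →
  |t.S (fun D D₂ => ∏ l ∈ S, ψ l D D₂) - t.main * ∏ l ∈ S, lmj l (j l) t.b t.G (ψ l)| ≤
    C * N ^ η * ((∏ l ∈ S, l ^ j l : ℕ) : ℝ) ^ 2 * t.err

/-- LMJ: properties of the local mean: total mass one, monotone, linear, values in `[0,1]`. -/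
def SpecLMJ : Prop := ∀ (l j b G : ℕ), l.Prime → 1 ≤ j → ¬ l ∣ b →
  (∀ c : ℝ, lmj l j b G (fun _ _ => c) = c) ∧
  (∀ ψ φ : ℤ → ℤ → ℝ, lmj l j b G (fun d e => ψ d e + φ d e) = lmj l j b G ψ + lmj l j b G φ) ∧
  (∀ (c : ℝ) (ψ : ℤ → ℤ → ℝ), lmj l j b G (fun d e => c * ψ d e) = c * lmj l j b G ψ) ∧
  (∀ ψ φ : ℤ → ℤ → ℝ, (∀ d e, ψ d e ≤ φ d e) → lmj l j b G ψ ≤ lmj l j b G φ) ∧
  (∀ (ψ : ℤ → ℤ → ℝ) (d : ℤ), (∀ d e, 0 ≤ ψ d e ∧ ψ d e ≤ 1) →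
    0 ≤ Bm l j b G ψ d ∧ Bm l j b G ψ d ≤ 1) ∧
  (∀ ψ : ℤ → ℤ → ℝ, lmj l 1 b G ψ = lm l b G ψ) ∧
  -- the special prime modulo `l²`
  (∀ (M : ℤ) (P Q : ℕ), l % 4 = 1 → (G : ℤ) * P * Q = M ^ 2 + 1 → ¬ (l : ℤ) ∣ M ^ 2 + 1 →
    lmj l 2 b G (fun _ e => if (l : ℤ) ^ 2 ∣ F2 M G P Q e then 1 else 0) ≤ 10 / (l : ℝ) ^ 2)

/-! ## E2 (from E1, LMJ and `T1.flw`) -/

/-- `S` special primes with arbitrary local functions modulo `l ^ j l`, `P` a set of primes `< z` with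
`1 - ψ_l` of mean at most `κ/l` and `2/3`. -/
def SpecE2g : Prop := ∀ κ : ℕ, ∃ C₀ : ℝ, 0 < C₀ ∧ ∀ (η : ℝ) (a : ℕ), 0 < η → ∃ C : ℝ, 0 < C ∧
  ∀ (t : EE) (N z : ℝ) (S P : Finset ℕ) (j : ℕ → ℕ) (ψ : ℕ → ℤ → ℤ → ℝ),
  t.Ok → 2 ≤ z → z ^ (8 * a + 16) * ((∏ l ∈ S, l ^ j l : ℕ) : ℝ) ≤ N → t.Le N →
  (∀ l ∈ S, l.Prime ∧ ¬ l ∣ t.W * t.n ∧ 1 ≤ j l ∧ Locm (l ^ j l) (ψ l)) →
  (∀ l ∈ P, l.Prime ∧ (l : ℝ) < z ∧ ¬ l ∣ t.W * t.n ∧ l ∉ S ∧ Locm l (ψ l) ∧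
    1 - lm l t.b t.G (ψ l) ≤ κ / (l : ℝ) ∧ 1 - lm l t.b t.G (ψ l) ≤ 2 / 3) →
  |t.S (fun D D₂ => (∏ l ∈ S, ψ l D D₂) * ∏ l ∈ P, ψ l D D₂)
      - t.main * (∏ l ∈ S, lmj l (j l) t.b t.G (ψ l)) * ∏ l ∈ P, lm l t.b t.G (ψ l)| ≤
    C₀ * Real.exp (-(a : ℝ)) * (t.main * (∏ l ∈ S, lmj l (j l) t.b t.G (ψ l)) *
        ∏ l ∈ P, lm l t.b t.G (ψ l)) +
      C * N ^ η * z ^ (3 * (8 * a + 16) + 1) * ((∏ l ∈ S, l ^ j l : ℕ) : ℝ) ^ 2 * t.err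

/-! ## auxiliary modules -/

/-- ERT: representations as a sum of two squares: `r₂(p m) = 2 r₂(m)` for `p ∤ m`, `p ≡ 1 mod 4` (an
`x` with `N(x) = p m` is divisible by exactly one of `π, conj π`). -/
def SpecERT : Prop := ∀ (m R : ℕ), 0 < m → Squarefree m → (∀ l : ℕ, l.Prime → l ∣ m → l % 4 = 1) →
  m ≤ R → ((dk R).filter (fun k => nk k = m)).card = 4 * 2 ^ m.primeFactors.card

/-- EBD: the `k` with a bad prime `≥ z`: for fixed `D`, `b N(k) = G + D D₂`, the number of `k` with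
`N(k) = x` is `≤ C N^η` (divisor bound; or `r₂(x) ≤ 4 τ(x)`, or any elementary bound `N^η`), and the
`x ≤ R` with `b x ≡ G mod D W` and `l² ∣ x` for some prime `l ≥ z` (then `l ∤ D W`), or `l ∣ x` for some
`l ≥ z`, `l ∣ G`, are at most `∑_l (R/(D l²) + 1)` over `l ≤ √R`, resp. `∑_{l ∣ G} (R/(D l) + 1)`; finally
`∑_{D ∈ SD} 1/D ≤ ((A₂ - A₁)/n + 1)/A₁`. -/
def SpecEBD : Prop := ∀ η : ℝ, 0 < η → ∃ C : ℝ, 0 < C ∧ ∀ (t : EE) (N z : ℝ), t.Ok → 2 ≤ z →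
  1 ≤ N → t.Le N → t.m = 1 → 0 < t.A₁ →
  ∑ D ∈ t.SD, (1 / rp D) * (((t.SK D).filter (fun k => ∃ l : ℕ, l.Prime ∧ z ≤ (l : ℝ) ∧
      ((l : ℤ) ^ 2 ∣ nk k ∨ ((l : ℤ) ∣ nk k ∧ l ∣ t.G)))).card : ℝ) ≤
    C * N ^ η * (t.R / z * ((((t.A₂ : ℝ) - t.A₁) / t.n + 1) / t.A₁) +
      t.A₂ * (Real.sqrt t.R + 1))

/-- ERO: the roots of `F₁` modulo a squarefree `n` prime to `M² + 1` with all primes `≡ 1 mod 4`: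
`2 ^ ω(n)` of them, all units; and modulo `q²`. -/
def SpecERO : Prop := ∀ (M : ℤ) (G P Q n : ℕ), (G : ℤ) * P * Q = M ^ 2 + 1 → 0 < n →
  (∀ l : ℕ, l.Prime → l ∣ n → l % 4 = 1 ∧ ¬ (l : ℤ) ∣ M ^ 2 + 1) →
  ((range n).filter (fun ρ => (n : ℤ) ∣ F1 M G P Q (ρ : ℤ))).card = 2 ^ n.primeFactors.card ∧
  ∀ ρ : ℕ, (n : ℤ) ∣ F1 M G P Q (ρ : ℤ) → n.Coprime ρ

end

end Pool.Agent.Lib.MP391708.T1
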