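import Pool.Agent.Lib.MP_391708_nt.T1.ESpecB

/-!
# Theorem T1, module LMJ: local means modulo prime powers
-/

set_option autoImplicit false
set_option linter.unusedSectionVars false

namespace Pool.Agent.Lib.MP391708.T1

open Finset
open scoped Classical

noncomputable section

namespace LMJM

/-- exactly one class `e` with `q ∣ c - d e` -/
lemma sum_one_class {q : ℕ} (hq : 0 < q) {d : ℤ} (hd : IsCoprime (q : ℤ) d) (c : ℤ) :
    ∑ e ∈ range q, (if (q : ℤ) ∣ c - d * (e : ℤ) then (1 : ℝ) else 0) = 1 := by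
  have : NeZero q := ⟨hq.ne'⟩
  obtain ⟨s, t, hst⟩ := hd
  have hu : (d : ZMod q) * (t : ZMod q) = 1 := by
    have := congrArg (Int.cast : ℤ → ZMod q) hst
    push_cast at this
    rw [ZMod.natCast_self, mul_zero, zero_add, mul_comm] at this
    exact this
  have key : ∀ e : ℕ, (q : ℤ) ∣ c - d * (e : ℤ) ↔ (e : ZMod q) = (c : ZMod q) * t := by
    intro e
    rw [← ZMod.intCast_zmod_eq_zero_iff_dvd]
    push_cast
    constructor
    · intro h
      linear_combination (-(t : ZMod q)) * h - (e : ZMod q) * hu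
    · intro h
      rw [h]
      linear_combination (-(c : ZMod q)) * hu
  rw [Finset.sum_eq_single (((c : ZMod q) * t).val)]
  · rw [if_pos]
    rw [key, ZMod.natCast_zmod_val]
  · intro e he hne
    rw [if_neg]
    intro h
    rw [key] at h
    apply hne
    rw [← h, ZMod.val_natCast_of_lt (mem_range.1 he)]
  · intro h
    exact absurd (mem_range.2 (ZMod.val_lt _)) h

/-- the sum of `cn` over all classes -/
lemma sum_cn {q : ℕ} (hq : 0 < q) {d : ℤ} (hd : IsCoprime (q : ℤ) d) (b G : ℤ) :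
    ∑ e ∈ range q, (cn q b (G + d * (e : ℤ)) : ℝ) = (q : ℝ) ^ 2 := by
  have h1 : ∀ e : ℕ, (cn q b (G + d * (e : ℤ)) : ℝ) = ∑ x ∈ range q, ∑ y ∈ range q,
      if (q : ℤ) ∣ (b * nk ((x : ℤ), (y : ℤ)) - G) - d * (e : ℤ) then (1 : ℝ) else 0 := by
    intro e
    rw [ECRT.cn_eq_sum]
    refine sum_congr rfl fun x _ => sum_congr rfl fun y _ => ?_
    rw [show b * nk ((x : ℤ), (y : ℤ)) - (G + d * (e : ℤ)) =
      (b * nk ((x : ℤ), (y : ℤ)) - G) - d * (e : ℤ) by ring]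
  rw [Finset.sum_congr rfl (fun e _ => h1 e), Finset.sum_comm]
  have h2 : ∀ x ∈ range q, ∑ e ∈ range q, ∑ y ∈ range q,
      (if (q : ℤ) ∣ (b * nk ((x : ℤ), (y : ℤ)) - G) - d * (e : ℤ) then (1 : ℝ) else 0) = q := by
    intro x _
    rw [Finset.sum_comm, Finset.sum_congr rfl (fun y _ => sum_one_class hq hd _), sum_const,
      card_range, nsmul_eq_mul, mul_one]
  rw [Finset.sum_congr rfl h2, sum_const, card_range, nsmul_eq_mul]
  ring

variable {l j : ℕ}

lemma omj_nonneg (b G d e : ℤ) : 0 ≤ omj l j b G d e := by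
  unfold omj
  split_ifs
  · norm_num
  · positivity

lemma coprime_pow (hl : l.Prime) {d : ℤ} (hd : ¬ (l : ℤ) ∣ d) (j : ℕ) :
    IsCoprime ((l ^ j : ℕ) : ℤ) d := by
  push_cast
  exact (((Nat.prime_iff_prime_int.1 hl).coprime_iff_not_dvd).2 hd).pow_left

lemma row_omj (hl : l.Prime) (b G d : ℤ) :
    ∑ e ∈ range (l ^ j), omj l j b G d (e : ℤ) = (l : ℝ) ^ j := by
  have hq : 0 < l ^ j := pow_pos hl.pos j
  have hl0 : (0 : ℝ) < (l : ℝ) ^ j := by exact_mod_cast hq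
  unfold omj
  by_cases hd : (l : ℤ) ∣ d
  · simp only [if_pos hd, sum_const, card_range, nsmul_eq_mul, mul_one]
    push_cast
    rfl
  · simp only [if_neg hd]
    rw [← Finset.sum_div, sum_cn hq (coprime_pow hl hd j)]
    push_cast
    field_simp

lemma Bm_const (hl : l.Prime) (b G d : ℤ) (c : ℝ) : Bm l j b G (fun _ _ => c) d = c := by
  have hl0 : (l : ℝ) ^ j ≠ 0 := by
    have := hl.pos
    positivity
  unfold Bm
  rw [← Finset.mul_sum, row_omj hl, mul_div_assoc, div_self hl0, mul_one]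

lemma Bm_add (b G d : ℤ) (ψ φ : ℤ → ℤ → ℝ) :
    Bm l j b G (fun d e => ψ d e + φ d e) d = Bm l j b G ψ d + Bm l j b G φ d := by
  unfold Bm
  rw [← add_div, ← Finset.sum_add_distrib]
  congr 1
  refine sum_congr rfl fun e _ => ?_
  ring

lemma Bm_smul (b G d : ℤ) (c : ℝ) (ψ : ℤ → ℤ → ℝ) :
    Bm l j b G (fun d e => c * ψ d e) d = c * Bm l j b G ψ d := by
  unfold Bm
  rw [← mul_div_assoc, Finset.mul_sum]
  congr 1
  refine sum_congr rfl fun e _ => ?_
  ring

lemma Bm_mono (b G d : ℤ) {ψ φ : ℤ → ℤ → ℝ} (h : ∀ e, ψ d e ≤ φ d e) :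
    Bm l j b G ψ d ≤ Bm l j b G φ d := by
  unfold Bm
  refine div_le_div_of_nonneg_right ?_ (by positivity)
  exact Finset.sum_le_sum fun e _ => mul_le_mul_of_nonneg_right (h _) (omj_nonneg _ _ _ _)

lemma card_not_dvd (hl : l.Prime) (hj : 1 ≤ j) :
    (((range (l ^ j)).filter (fun d => ¬ l ∣ d)).card : ℝ) = (l : ℝ) ^ j * (1 - 1 / (l : ℝ)) := by
  have h1 : ((range (l ^ j)).filter (fun d => ¬ l ∣ d)).card = Nat.totient (l ^ j) := by
    rw [Nat.totient]
    congr 1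
    refine filter_congr fun d _ => ?_
    rw [Nat.coprime_pow_left_iff (by omega), hl.coprime_iff_not_dvd]
  have hl0 : (l : ℝ) ≠ 0 := by exact_mod_cast hl.ne_zero
  rw [h1, Nat.totient_prime_pow hl (by omega)]
  obtain ⟨i, rfl⟩ : ∃ i, j = i + 1 := ⟨j - 1, by omega⟩
  rw [Nat.add_sub_cancel, Nat.cast_mul, Nat.cast_sub hl.one_le, Nat.cast_pow, Nat.cast_one,
    pow_succ]
  field_simp

lemma Dm_const (hl : l.Prime) (hj : 1 ≤ j) (G : ℕ) (c : ℝ) : Dm l j G (fun _ => c) = c := by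
  have h1 : (1 : ℝ) < l := by exact_mod_cast hl.one_lt
  have hl0 : (0 : ℝ) < (l : ℝ) ^ j := by positivity
  unfold Dm
  split_ifs with h
  · rw [sum_const, nsmul_eq_mul, card_not_dvd hl hj, mul_div_assoc, mul_comm, div_mul_cancel₀]
    have : (0 : ℝ) < 1 - 1 / (l : ℝ) := by
      rw [sub_pos, div_lt_one (by linarith)]
      exact h1
    positivity
  · rw [sum_const, nsmul_eq_mul, card_range]
    push_cast
    field_simp

lemma Dm_add (G : ℕ) (A B : ℕ → ℝ) :
    Dm l j G (fun d => A d + B d) = Dm l j G A + Dm l j G B := by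
  unfold Dm
  split_ifs
  · rw [← add_div, sum_add_distrib]
  · rw [← add_div, sum_add_distrib]

lemma Dm_smul (G : ℕ) (c : ℝ) (A : ℕ → ℝ) :
    Dm l j G (fun d => c * A d) = c * Dm l j G A := by
  unfold Dm
  split_ifs
  · rw [← mul_div_assoc, mul_sum]
  · rw [← mul_div_assoc, mul_sum]

lemma Dm_mono (hl : l.Prime) (G : ℕ) {A B : ℕ → ℝ} (h : ∀ d, A d ≤ B d) :
    Dm l j G A ≤ Dm l j G B := by
  have h1 : (1 : ℝ) < l := by exact_mod_cast hl.one_lt
  have : (0 : ℝ) ≤ 1 - 1 / (l : ℝ) := by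
    rw [sub_nonneg, div_le_one (by linarith)]
    exact h1.le
  unfold Dm
  split_ifs
  · exact div_le_div_of_nonneg_right (Finset.sum_le_sum fun _ _ => h _) (by positivity)
  · exact div_le_div_of_nonneg_right (Finset.sum_le_sum fun _ _ => h _) (by positivity)

lemma lmj_one (hl : l.Prime) (b G : ℕ) (ψ : ℤ → ℤ → ℝ) : lmj l 1 b G ψ = lm l b G ψ := by
  have h1 : (1 : ℝ) < l := by exact_mod_cast hl.one_lt
  have hl0 : (l : ℝ) ≠ 0 := by positivity
  have hl1 : (l : ℝ) - 1 ≠ 0 := by linarith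
  have hB : ∀ d : ℕ, Bm l 1 b G ψ (d : ℤ) =
      (∑ e ∈ range l, ψ (d : ℤ) (e : ℤ) * om l b G (d : ℤ) (e : ℤ)) / (l : ℝ) := by
    intro d
    unfold Bm omj om
    simp only [pow_one]
  unfold lmj Dm lm
  by_cases h : l ∣ G
  · rw [if_pos h, if_pos (Int.natCast_dvd_natCast.2 h)]
    simp only [pow_one, hB]
    have hf : (range l).filter (fun d => ¬ l ∣ d) = (range l).filter (fun d => d ≠ 0) := by
      refine filter_congr fun d hd => ?_
      rw [mem_range] at hd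
      constructor
      · intro h h0
        exact h (h0 ▸ dvd_zero _)
      · intro h0 h
        exact h0 (Nat.eq_zero_of_dvd_of_lt h hd)
    rw [hf, ← Finset.sum_div, div_div]
    congr 1
    field_simp
  · rw [if_neg h, if_neg (fun h' => h (Int.natCast_dvd_natCast.1 h'))]
    simp only [pow_one, hB]
    rw [← Finset.sum_div, div_div]
    congr 1
    ring

/-! ## the special prime modulo `l²` -/

/-- at most two solutions of a quadratic congruence `b x² ≡ c` -/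
lemma two_sq (hl : l.Prime) {b : ℤ} (hb : ¬ (l : ℤ) ∣ b) (c : ℤ) :
    ((range l).filter (fun x : ℕ => (l : ℤ) ∣ b * (x : ℤ) ^ 2 - c)).card ≤ 2 := by
  have hp := Nat.prime_iff_prime_int.1 hl
  by_contra hc
  push Not at hc
  obtain ⟨x, y, z, hx, hy, hz, hxy, hxz, hyz⟩ := (Finset.two_lt_card_iff).1 hc
  simp only [mem_filter, mem_range] at hx hy hz
  have hne : ∀ {s t : ℕ}, s < l → t < l → s ≠ t → ¬ (l : ℤ) ∣ (s : ℤ) - t := by
    intro s t hs ht hst h
    apply hst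
    have h3 := Int.eq_zero_of_abs_lt_dvd h (by rw [abs_lt]; constructor <;> omega)
    omega
  have e1 : (l : ℤ) ∣ (x : ℤ) + y := by
    have : (l : ℤ) ∣ b * (((x : ℤ) - y) * (x + y)) := by
      have := dvd_sub hx.2 hy.2
      rwa [show b * (x : ℤ) ^ 2 - c - (b * (y : ℤ) ^ 2 - c) = b * (((x : ℤ) - y) * (x + y)) by
        ring] at this
    rcases hp.dvd_or_dvd this with h | h
    · exact absurd h hb
    rcases hp.dvd_or_dvd h with h | h
    · exact absurd h (hne hx.1 hy.1 hxy)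
    · exact h
  have e2 : (l : ℤ) ∣ (x : ℤ) + z := by
    have : (l : ℤ) ∣ b * (((x : ℤ) - z) * (x + z)) := by
      have := dvd_sub hx.2 hz.2
      rwa [show b * (x : ℤ) ^ 2 - c - (b * (z : ℤ) ^ 2 - c) = b * (((x : ℤ) - z) * (x + z)) by
        ring] at this
    rcases hp.dvd_or_dvd this with h | h
    · exact absurd h hb
    rcases hp.dvd_or_dvd h with h | h
    · exact absurd h (hne hx.1 hz.1 hxz)
    · exact h
  have e3 := dvd_sub e1 e2
  rw [show (x : ℤ) + y - (x + z) = (y : ℤ) - z by ring] at e3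
  exact hne hy.1 hz.1 hyz e3

lemma int_mod (l x : ℕ) : (l : ℤ) ∣ (x : ℤ) - ((x % l : ℕ) : ℤ) := by
  rw [Int.natCast_mod]
  exact Int.dvd_self_sub_emod

/-- `b N(κ) ≡ a mod l²` has at most `3 l² + 2 l` solutions -/
lemma cn_sq_le (hl : l.Prime) (h2 : l ≠ 2) {b : ℤ} (hb : ¬ (l : ℤ) ∣ b) (a : ℤ) :
    cn (l ^ 2) b a ≤ 3 * l ^ 2 + 2 * l := by
  have hp := Nat.prime_iff_prime_int.1 hl
  have hl0 := hl.pos
  set S := (range (l ^ 2) ×ˢ range (l ^ 2)).filter
    (fun x => ((l ^ 2 : ℕ) : ℤ) ∣ b * nk ((x.1 : ℤ), (x.2 : ℤ)) - a) with hS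
  have hcn : cn (l ^ 2) b a = S.card := rfl
  have hdl : (l : ℤ) ∣ ((l ^ 2 : ℕ) : ℤ) := by push_cast; exact dvd_pow_self _ (by norm_num)
  -- injectivity principle
  have uniq : ∀ x x' y : ℕ, x < l ^ 2 → x' < l ^ 2 → ¬ (l : ℤ) ∣ (x : ℤ) → x % l = x' % l →
      ((l ^ 2 : ℕ) : ℤ) ∣ b * ((x : ℤ) ^ 2 - (x' : ℤ) ^ 2) → x = x' := by
    intro x x' y hx hx' hlx hm hd
    have c1 : (l : ℤ) ∣ (x : ℤ) - x' := by
      have i1 := int_mod l x
      have i2 := int_mod l x'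
      rw [hm] at i1
      have := dvd_sub i1 i2
      rwa [show (x : ℤ) - ((x' % l : ℕ) : ℤ) - ((x' : ℤ) - ((x' % l : ℕ) : ℤ)) = (x : ℤ) - x' by
        ring] at this
    have c2 : ¬ (l : ℤ) ∣ (x : ℤ) + x' := by
      intro h
      have h3 := dvd_add c1 h
      rw [show (x : ℤ) - x' + (x + x') = 2 * x by ring] at h3
      rcases hp.dvd_or_dvd h3 with h4 | h4
      · have : l ∣ 2 := by exact_mod_cast h4
        exact h2 ((Nat.prime_dvd_prime_iff_eq hl Nat.prime_two).1 this)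
      · exact hlx h4
    have c3 : IsCoprime ((l ^ 2 : ℕ) : ℤ) (b * ((x : ℤ) + x')) :=
      (coprime_pow hl hb 2).mul_right (coprime_pow hl c2 2)
    have c4 : ((l ^ 2 : ℕ) : ℤ) ∣ (x : ℤ) - x' := by
      refine c3.dvd_of_dvd_mul_left ?_
      rwa [show b * ((x : ℤ) + x') * (x - x') = b * ((x : ℤ) ^ 2 - (x' : ℤ) ^ 2) by ring]
    have c5 := Int.eq_zero_of_abs_lt_dvd c4 (by rw [abs_lt]; constructor <;> omega)
    omega
  -- the part `l ∤ x`
  have p1 : (S.filter (fun x => ¬ (l : ℤ) ∣ (x.1 : ℤ))).card ≤ 2 * l ^ 2 := by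
    have hmaps : ∀ x ∈ S.filter (fun x => ¬ (l : ℤ) ∣ (x.1 : ℤ)), (x.2, x.1 % l) ∈
        ((range (l ^ 2)).sigma (fun y => (range l).filter (fun x : ℕ =>
          (l : ℤ) ∣ b * (x : ℤ) ^ 2 - (a - b * (y : ℤ) ^ 2)))).image
            (fun s : (_ : ℕ) × ℕ => (s.1, s.2)) := by
      intro x hx
      rw [mem_filter, hS, mem_filter, mem_product, mem_range, mem_range] at hx
      obtain ⟨⟨⟨hx1, hx2⟩, hd⟩, hn⟩ := hx
      rw [mem_image]
      refine ⟨⟨x.2, x.1 % l⟩, ?_, rfl⟩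
      rw [mem_sigma, mem_filter, mem_range, mem_range]
      refine ⟨hx2, Nat.mod_lt _ hl0, ?_⟩
      have h3 := dvd_trans hdl hd
      have h4 := int_mod l x.1
      have h5 : (l : ℤ) ∣ b * (((x.1 : ℤ) - ((x.1 % l : ℕ) : ℤ)) * ((x.1 : ℤ) + ((x.1 % l : ℕ) : ℤ))) :=
        dvd_mul_of_dvd_right (dvd_mul_of_dvd_left h4 _) _
      have h6 := dvd_sub h3 h5
      unfold nk at h6
      rwa [show b * ((x.1 : ℤ) ^ 2 + (x.2 : ℤ) ^ 2) - a -
        b * (((x.1 : ℤ) - ((x.1 % l : ℕ) : ℤ)) * ((x.1 : ℤ) + ((x.1 % l : ℕ) : ℤ))) =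
        b * ((x.1 % l : ℕ) : ℤ) ^ 2 - (a - b * (x.2 : ℤ) ^ 2) by ring] at h6
    refine le_trans (Finset.card_le_card_of_injOn _ hmaps ?_) ?_
    · intro x hx y hy hxy
      rw [mem_coe, mem_filter, hS, mem_filter, mem_product, mem_range, mem_range] at hx hy
      simp only [Prod.mk.injEq] at hxy
      have : x.1 = y.1 := by
        refine uniq x.1 y.1 x.2 hx.1.1.1 hy.1.1.1 hx.2 hxy.2 ?_
        have h3 := dvd_sub hx.1.2 hy.1.2
        unfold nk at h3
        rw [hxy.1] at h3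
        rwa [show b * ((x.1 : ℤ) ^ 2 + (y.2 : ℤ) ^ 2) - a - (b * ((y.1 : ℤ) ^ 2 + (y.2 : ℤ) ^ 2) - a)
          = b * ((x.1 : ℤ) ^ 2 - (y.1 : ℤ) ^ 2) by ring] at h3
      exact Prod.ext this hxy.1
    · refine le_trans Finset.card_image_le ?_
      rw [card_sigma]
      refine le_trans (Finset.sum_le_sum fun y _ => two_sq hl hb _) ?_
      rw [sum_const, card_range, smul_eq_mul, mul_comm]
  -- the part `l ∣ x`, `l ∤ y`
  have p2 : ((S.filter (fun x => (l : ℤ) ∣ (x.1 : ℤ))).filter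
      (fun x => ¬ (l : ℤ) ∣ (x.2 : ℤ))).card ≤ 2 * l := by
    have hmaps : ∀ x ∈ (S.filter (fun x => (l : ℤ) ∣ (x.1 : ℤ))).filter
        (fun x => ¬ (l : ℤ) ∣ (x.2 : ℤ)), (x.1 / l, x.2 % l) ∈
        (range l) ×ˢ ((range l).filter (fun x : ℕ => (l : ℤ) ∣ b * (x : ℤ) ^ 2 - a)) := by
      intro x hx
      rw [mem_filter, mem_filter, hS, mem_filter, mem_product, mem_range, mem_range] at hx
      obtain ⟨⟨⟨⟨hx1, hx2⟩, hd⟩, hn1⟩, hn⟩ := hx
      rw [mem_product, mem_filter, mem_range, mem_range]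
      refine ⟨?_, Nat.mod_lt _ hl0, ?_⟩
      · rw [Nat.div_lt_iff_lt_mul hl0, ← pow_two]; exact hx1
      have h3 := dvd_trans hdl hd
      have h4 := int_mod l x.2
      have h5 : (l : ℤ) ∣ b * (((x.2 : ℤ) - ((x.2 % l : ℕ) : ℤ)) * ((x.2 : ℤ) + ((x.2 % l : ℕ) : ℤ))) :=
        dvd_mul_of_dvd_right (dvd_mul_of_dvd_left h4 _) _
      have h7 : (l : ℤ) ∣ b * ((x.1 : ℤ) * x.1) :=
        dvd_mul_of_dvd_right (dvd_mul_of_dvd_left hn1 _) _
      have h6 := dvd_sub (dvd_sub h3 h5) h7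
      unfold nk at h6
      rwa [show b * ((x.1 : ℤ) ^ 2 + (x.2 : ℤ) ^ 2) - a -
        b * (((x.2 : ℤ) - ((x.2 % l : ℕ) : ℤ)) * ((x.2 : ℤ) + ((x.2 % l : ℕ) : ℤ))) -
        b * ((x.1 : ℤ) * x.1) = b * ((x.2 % l : ℕ) : ℤ) ^ 2 - a by ring] at h6
    refine le_trans (Finset.card_le_card_of_injOn _ hmaps ?_) ?_
    · intro x hx y hy hxy
      rw [mem_coe, mem_filter, mem_filter, hS, mem_filter, mem_product, mem_range,
        mem_range] at hx hy
      simp only [Prod.mk.injEq] at hxy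
      have e1 : x.1 = y.1 := by
        have a1 : l ∣ x.1 := by exact_mod_cast hx.1.2
        have a2 : l ∣ y.1 := by exact_mod_cast hy.1.2
        rw [← Nat.div_mul_cancel a1, ← Nat.div_mul_cancel a2, hxy.1]
      have : x.2 = y.2 := by
        refine uniq x.2 y.2 x.1 hx.1.1.1.2 hy.1.1.1.2 hx.2 hxy.2 ?_
        have h3 := dvd_sub hx.1.1.2 hy.1.1.2
        unfold nk at h3
        rw [e1] at h3
        rwa [show b * ((y.1 : ℤ) ^ 2 + (x.2 : ℤ) ^ 2) - a - (b * ((y.1 : ℤ) ^ 2 + (y.2 : ℤ) ^ 2) - a)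
          = b * ((x.2 : ℤ) ^ 2 - (y.2 : ℤ) ^ 2) by ring] at h3
      exact Prod.ext e1 this
    · rw [card_product, card_range, mul_comm]
      exact Nat.mul_le_mul_right l (two_sq hl hb a)
  -- the part `l ∣ x`, `l ∣ y`
  have p3 : ((S.filter (fun x => (l : ℤ) ∣ (x.1 : ℤ))).filter
      (fun x => ¬ ¬ (l : ℤ) ∣ (x.2 : ℤ))).card ≤ l ^ 2 := by
    have hmaps : ∀ x ∈ (S.filter (fun x => (l : ℤ) ∣ (x.1 : ℤ))).filter
        (fun x => ¬ ¬ (l : ℤ) ∣ (x.2 : ℤ)), (x.1 / l, x.2 / l) ∈ (range l) ×ˢ (range l) := by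
      intro x hx
      rw [mem_filter, mem_filter, hS, mem_filter, mem_product, mem_range, mem_range] at hx
      obtain ⟨⟨⟨⟨hx1, hx2⟩, hd⟩, hn1⟩, hn⟩ := hx
      rw [mem_product, mem_range, mem_range]
      constructor
      · rw [Nat.div_lt_iff_lt_mul hl0, ← pow_two]; exact hx1
      · rw [Nat.div_lt_iff_lt_mul hl0, ← pow_two]; exact hx2
    refine le_trans (Finset.card_le_card_of_injOn _ hmaps ?_) ?_
    · intro x hx y hy hxy
      rw [mem_coe, mem_filter, mem_filter, hS, mem_filter, mem_product, mem_range,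
        mem_range, not_not] at hx hy
      simp only [Prod.mk.injEq] at hxy
      have a1 : l ∣ x.1 := by exact_mod_cast hx.1.2
      have a2 : l ∣ y.1 := by exact_mod_cast hy.1.2
      have a3 : l ∣ x.2 := by exact_mod_cast hx.2
      have a4 : l ∣ y.2 := by exact_mod_cast hy.2
      refine Prod.ext ?_ ?_
      · rw [← Nat.div_mul_cancel a1, ← Nat.div_mul_cancel a2, hxy.1]
      · rw [← Nat.div_mul_cancel a3, ← Nat.div_mul_cancel a4, hxy.2]
    · rw [card_product, card_range, ← pow_two]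
  have s1 := Finset.card_filter_add_card_filter_not (s := S) (fun x => (l : ℤ) ∣ (x.1 : ℤ))
  have s2 := Finset.card_filter_add_card_filter_not (s := S.filter (fun x => (l : ℤ) ∣ (x.1 : ℤ)))
    (fun x => ¬ (l : ℤ) ∣ (x.2 : ℤ))
  rw [hcn]
  omega

/-- at most two roots of `F₂` modulo `l²` -/
lemma roots_sq (hl : l.Prime) (h2 : l ≠ 2) {M : ℤ} {G P Q : ℕ}
    (h : (G : ℤ) * P * Q = M ^ 2 + 1) (hQ : ¬ (l : ℤ) ∣ (Q : ℤ)) :
    ((range (l ^ 2)).filter (fun e : ℕ => (l : ℤ) ^ 2 ∣ F2 M G P Q (e : ℤ))).card ≤ 2 := by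
  have hp := Nat.prime_iff_prime_int.1 hl
  have hdl : (l : ℤ) ∣ (l : ℤ) ^ 2 := dvd_pow_self _ (by norm_num)
  have key : ∀ x y : ℕ, x < l ^ 2 → y < l ^ 2 → x ≠ y → (l : ℤ) ^ 2 ∣ F2 M G P Q (x : ℤ) →
      (l : ℤ) ^ 2 ∣ F2 M G P Q (y : ℤ) → (l : ℤ) ^ 2 ∣ (Q : ℤ) * (x + y) + 2 * M := by
    intro x y hx hy hxy hfx hfy
    have d1 := dvd_sub hfx hfy
    have e1 : F2 M G P Q (x : ℤ) - F2 M G P Q (y : ℤ) =
        ((x : ℤ) - y) * ((Q : ℤ) * (x + y) + 2 * M) := by unfold F2; ring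
    rw [e1] at d1
    by_cases hd : (l : ℤ) ∣ (x : ℤ) - y
    · exfalso
      have c2 : ¬ (l : ℤ) ∣ (Q : ℤ) * (x + y) + 2 * M := by
        intro h3
        have h4 : (l : ℤ) ∣ 2 * ((Q : ℤ) * x + M) := by
          have := dvd_add h3 (dvd_mul_of_dvd_right hd (Q : ℤ))
          rwa [show (Q : ℤ) * (x + y) + 2 * M + Q * ((x : ℤ) - y) = 2 * ((Q : ℤ) * x + M) by
            ring] at this
        have h5 : (l : ℤ) ∣ (Q : ℤ) * x + M := by
          rcases hp.dvd_or_dvd h4 with h5 | h5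
          · have : l ∣ 2 := by exact_mod_cast h5
            exact absurd ((Nat.prime_dvd_prime_iff_eq hl Nat.prime_two).1 this) h2
          · exact h5
        have h6 : (l : ℤ) ∣ (Q : ℤ) * F2 M G P Q (x : ℤ) :=
          dvd_mul_of_dvd_right (dvd_trans hdl hfx) _
        have h7 : (l : ℤ) ∣ ((Q : ℤ) * x + M) * ((Q : ℤ) * x + M) := dvd_mul_of_dvd_left h5 _
        have h8 := dvd_sub h6 h7
        have e2 : (Q : ℤ) * F2 M G P Q (x : ℤ) - ((Q : ℤ) * x + M) * ((Q : ℤ) * x + M) = 1 := by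
          unfold F2
          linear_combination h
        rw [e2] at h8
        exact hp.not_isUnit (isUnit_of_dvd_one h8)
      have c3 : IsCoprime ((l : ℤ) ^ 2) ((Q : ℤ) * (x + y) + 2 * M) := by
        have := coprime_pow hl c2 2
        push_cast at this
        exact this
      have c4 := c3.dvd_of_dvd_mul_right d1
      have : ((l ^ 2 : ℕ) : ℤ) ∣ (x : ℤ) - y := by push_cast; exact c4
      have c5 := Int.eq_zero_of_abs_lt_dvd this (by rw [abs_lt]; constructor <;> omega)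
      omega
    · have c3 : IsCoprime ((l : ℤ) ^ 2) ((x : ℤ) - y) := by
        have := coprime_pow hl hd 2
        push_cast at this
        exact this
      exact c3.dvd_of_dvd_mul_left d1
  by_contra hc
  push Not at hc
  obtain ⟨x, y, z, hx, hy, hz, hxy, hxz, hyz⟩ := (Finset.two_lt_card_iff).1 hc
  simp only [mem_filter, mem_range] at hx hy hz
  have e1 := key x y hx.1 hy.1 hxy hx.2 hy.2
  have e2 := key x z hx.1 hz.1 hxz hx.2 hz.2
  have e3 := dvd_sub e1 e2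
  rw [show (Q : ℤ) * (x + y) + 2 * M - ((Q : ℤ) * (x + z) + 2 * M) = (Q : ℤ) * ((y : ℤ) - z) by
    ring] at e3
  have c3 : IsCoprime ((l : ℤ) ^ 2) (Q : ℤ) := by
    have := coprime_pow hl hQ 2
    push_cast at this
    exact this
  have c4 := c3.dvd_of_dvd_mul_left e3
  have : ((l ^ 2 : ℕ) : ℤ) ∣ (y : ℤ) - z := by push_cast; exact c4
  have c5 := Int.eq_zero_of_abs_lt_dvd this (by rw [abs_lt]; constructor <;> omega)
  omega

end LMJM

open LMJM in
theorem specLMJ : SpecLMJ := by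
  intro l j b G hl hj hb
  refine ⟨?_, ?_, ?_, ?_, ?_, ?_, ?_⟩
  · intro c
    unfold lmj
    simp only [Bm_const hl]
    exact Dm_const hl hj G c
  · intro ψ φ
    unfold lmj
    simp only [Bm_add]
    exact Dm_add G _ _
  · intro c ψ
    unfold lmj
    simp only [Bm_smul]
    exact Dm_smul G c _
  · intro ψ φ h
    exact Dm_mono hl G (fun d => Bm_mono _ _ _ (fun e => h _ _))
  · intro ψ d h
    constructor
    · have := Bm_mono (l := l) (j := j) b G d (ψ := fun _ _ => (0 : ℝ)) (φ := ψ) (fun e => (h d e).1)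
      rwa [Bm_const hl] at this
    · have := Bm_mono (l := l) (j := j) b G d (ψ := ψ) (φ := fun _ _ => (1 : ℝ)) (fun e => (h d e).2)
      rwa [Bm_const hl] at this
  · intro ψ
    exact lmj_one hl b G ψ
  · intro M P Q h4 hGPQ hM
    have h2 : l ≠ 2 := by rintro rfl; omega
    have h5 : 5 ≤ l := by
      have := hl.two_le
      by_contra h
      interval_cases l <;> omega
    have hl5 : (5 : ℝ) ≤ l := by exact_mod_cast h5
    have hG : ¬ l ∣ G := by
      intro h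
      apply hM
      rw [← hGPQ]
      exact dvd_mul_of_dvd_left (dvd_mul_of_dvd_left (by exact_mod_cast h) _) _
    have hQ : ¬ (l : ℤ) ∣ (Q : ℤ) := by
      intro h
      apply hM
      rw [← hGPQ]
      exact dvd_mul_of_dvd_right h _
    have hb' : ¬ (l : ℤ) ∣ (b : ℤ) := by exact_mod_cast hb
    have hom : ∀ d e : ℤ, omj l 2 b G d e ≤ 3 + 2 / (l : ℝ) := by
      intro d e
      unfold omj
      split_ifs
      · have : (0 : ℝ) ≤ 2 / (l : ℝ) := by positivity
        linarith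
      · rw [div_le_iff₀ (by positivity)]
        have := cn_sq_le hl h2 hb' (G + d * e)
        have h' : (cn (l ^ 2) b (G + d * e) : ℝ) ≤ 3 * (l : ℝ) ^ 2 + 2 * l := by exact_mod_cast this
        refine le_trans h' (le_of_eq ?_)
        field_simp
    have hB : ∀ d : ℕ, Bm l 2 b G (fun _ e => if (l : ℤ) ^ 2 ∣ F2 M G P Q e then 1 else 0) (d : ℤ)
        ≤ 2 * (3 + 2 / (l : ℝ)) / (l : ℝ) ^ 2 := by
      intro d
      unfold Bm
      refine div_le_div_of_nonneg_right ?_ (by positivity)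
      have : ∑ e ∈ range (l ^ 2), (if (l : ℤ) ^ 2 ∣ F2 M G P Q (e : ℤ) then (1 : ℝ) else 0) *
          omj l 2 b G (d : ℤ) (e : ℤ) ≤ ∑ e ∈ range (l ^ 2),
            (if (l : ℤ) ^ 2 ∣ F2 M G P Q (e : ℤ) then (3 + 2 / (l : ℝ)) else 0) := by
        refine Finset.sum_le_sum fun e _ => ?_
        split_ifs
        · rw [one_mul]; exact hom _ _
        · rw [zero_mul]
      refine le_trans this ?_
      rw [← Finset.sum_filter, sum_const, nsmul_eq_mul]
      have h6 := roots_sq hl h2 hGPQ hQ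
      have h7 : (((range (l ^ 2)).filter (fun e : ℕ => (l : ℤ) ^ 2 ∣ F2 M G P Q (e : ℤ))).card : ℝ)
          ≤ 2 := by exact_mod_cast h6
      refine mul_le_mul_of_nonneg_right h7 ?_
      positivity
    unfold lmj
    refine le_trans (Dm_mono hl G hB) ?_
    rw [Dm_const hl (by norm_num) G]
    refine div_le_div_of_nonneg_right ?_ (by positivity)
    have : (2 : ℝ) / l ≤ 2 / 5 := by
      rw [div_le_div_iff₀ (by linarith) (by norm_num)]
      linarith
    linarith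

end

end Pool.Agent.Lib.MP391708.T1
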