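import Pool.Agent.Lib.MP_391708_nt.T1.ESpecC
import Pool.Agent.Lib.MP_391708_nt.T1.EVS
import Pool.Agent.Lib.MP_391708_nt.T1.ELM
import Pool.Agent.Lib.MP_391708_nt.T1.LMJ
import Pool.Agent.Lib.MP_391708_nt.T1.E2G

/-!
# Theorem T1, module EUC0: the cases of PHU with the modulus `n' = n`
-/

set_option autoImplicit false

namespace Pool.Agent.Lib.MP391708.T1

open Finset Filter Topology
open scoped Classical
open T4 (Prm Good zz W0 PP sm Adm S1 S2 vh kp kpU S0)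

noncomputable section

namespace EUCM

/-- the sum for given `n` is at most a sum of EE sums over the roots -/
lemma UU_le (hRT : SpecRTS) {p : Prm} {N M : ℕ} {s : ℤ} {G P Q n : ℕ} {bT bR : ℝ}
    {c : ℤ → ℤ → ℤ → Prop} (hn : 0 < n) (F : ℤ → ℤ → ℝ) (hF0 : ∀ D D₂, 0 ≤ F D D₂)
    (hF : ∀ D D₂ : ℤ, c (F1 (s * M) G P Q D) (F2 (s * M) G P Q D₂) (G + D * D₂) →
      (n : ℤ) ∣ G + D * D₂ → wU p N (s * M) G P Q n bT bR D D₂ ≤ F D D₂) :
    UU p N M s G P Q n bT bR c ≤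
      ∑ ρ ∈ Rt n (s * M) G P Q, (tU p M G P n ρ n 1 (0, 0)).S F := by
  unfold UU
  rw [hRT.1 (W0 p) n G P Q _ _ (s * M) _ hn]
  refine sum_le_sum fun ρ _ => ?_
  unfold EE.S
  refine sum_le_sum fun D hD => ?_
  refine mul_le_mul_of_nonneg_left ?_ (one_div_nonneg.2 (E2GM.rp_pos' D).le)
  have hD0 : (D : ℤ) ≠ 0 := by
    have : (M - 1) / (3 * P) < D := (mem_Ioc.1 (mem_filter.1 hD).1).1
    exact_mod_cast (Nat.ne_of_gt (lt_of_le_of_lt (Nat.zero_le _) this))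
  refine le_trans (sum_le_sum (g := fun k => F (D : ℤ) (((n : ℤ) * nk k - G) / (D : ℤ)))
    fun k hk => ?_) (sum_le_sum_of_subset_of_nonneg ?_ fun k _ _ => hF0 _ _)
  · obtain ⟨_, _, hk2, hk3⟩ := mem_filter.1 hk
    have hdv : (D : ℤ) ∣ n * nk k - G := dvd_trans ⟨(W0 p : ℤ), by push_cast; ring⟩ hk2
    have hx : (G : ℤ) + D * (((n : ℤ) * nk k - G) / D) = n * nk k := by
      rw [Int.mul_ediv_cancel' hdv]; ring
    refine hF _ _ ?_ ?_
    · rw [hx]; exact hk3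
    · rw [hx]; exact ⟨nk k, rfl⟩
  · intro k hk
    obtain ⟨hk0, hk1, hk2, hk3⟩ := mem_filter.1 hk
    unfold EE.SK
    rw [mem_filter]
    refine ⟨hk0, ?_, hk2, ?_, ?_⟩
    · simpa [tU] using hk1
    · simp [tU]
    · simp [tU]

/-- sum over the roots -/
lemma sum_roots (hRT : SpecRTS) {M' : ℤ} {G P Q n : ℕ} (h : (G : ℤ) * P * Q = M' ^ 2 + 1)
    (hn : Odd n) {g : ℕ → ℝ} {X : ℝ} (hX : 0 ≤ X) (hg : ∀ ρ ∈ Rt n M' G P Q, g ρ ≤ X) :
    ∑ ρ ∈ Rt n M' G P Q, g ρ ≤ 2 ^ n.primeFactors.card * X := by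
  calc ∑ ρ ∈ Rt n M' G P Q, g ρ ≤ ∑ _ρ ∈ Rt n M' G P Q, X := sum_le_sum hg
    _ = (Rt n M' G P Q).card * X := by rw [sum_const, nsmul_eq_mul]
    _ ≤ 2 ^ n.primeFactors.card * X := by
        refine mul_le_mul_of_nonneg_right ?_ hX
        exact_mod_cast hRT.2.1 n G P Q M' h hn

/-- facts on `n` -/
lemma n_facts {p : Prm} {N n : ℕ} {Y : ℝ} (hn : n ∈ SQ (PP p N) Y) :
    0 < n ∧ Odd n ∧ (n : ℝ) ≤ Y ∧ ∀ l : ℕ, l.Prime → l ∣ n → l ∈ PP p N := by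
  unfold SQ at hn
  obtain ⟨h1, h2, h3⟩ := mem_filter.1 hn
  rw [mem_Icc] at h1
  have hY : 0 ≤ Y := by
    by_contra h
    have : ⌊Y⌋₊ = 0 := Nat.floor_of_nonpos (not_le.1 h).le
    omega
  refine ⟨by omega, ?_, (Nat.le_floor_iff hY).1 h1.2, h3⟩
  by_contra h
  rw [Nat.not_odd_iff_even, even_iff_two_dvd] at h
  have := EVS.mem_PP.1 (h3 2 Nat.prime_two h)
  omega

lemma sq_sign {M : ℕ} {s : ℤ} (hs : s = 1 ∨ s = -1) : (s * (M : ℤ)) ^ 2 + 1 = (M : ℤ) ^ 2 + 1 := by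
  rcases hs with rfl | rfl <;> ring

/-- facts on a sieving prime -/
lemma lm_facts (hM : SpecELM) {p : Prm} {N l M G P Q : ℕ} {s : ℤ} {bT bR : ℝ}
    (hl : l ∈ PP p N) (hE : 1000 ≤ p.E) (hs : s = 1 ∨ s = -1) (h : (G : ℤ) * P * Q = (M : ℤ) ^ 2 + 1)
    (h1 : 0 ≤ bT) (h2 : bT ≤ 1) (h3 : 0 ≤ bR) (h4 : bR ≤ 1) (hd : ¬ (l : ℤ) ∣ (M : ℤ) ^ 2 + 1) :
    1 / 3 ≤ lm l 1 G (wgt l (s * M) G P Q bT bR) := by
  obtain ⟨_, hp, h41, hEl⟩ := EVS.mem_PP.1 hl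
  have hMM : (s * (M : ℤ)) ^ 2 + 1 = (M : ℤ) ^ 2 + 1 := sq_sign hs
  have hl1 : ¬ l ∣ 1 := by
    intro h
    exact hp.one_lt.ne' (Nat.dvd_one.1 h)
  obtain ⟨_, hA, _⟩ := hM l (s * M) G P Q 1 bT bR hp (by omega) (by rw [hMM]; exact h) hl1 h1 h2 h3 h4
  have := hA (by rw [hMM]; exact hd) h41
  have hl : (1000 : ℝ) < l := by exact_mod_cast (by omega : 1000 < l)
  have e1 : (6 - 2 * bT - 2 * bR) / (l : ℝ) ≤ 6 / 1000 := by
    rw [div_le_div_iff₀ (by linarith) (by norm_num)]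
    nlinarith
  have e2 : 100 / (l : ℝ) ^ 2 ≤ 100 / 1000 ^ 2 := by gcongr
  rw [abs_le] at this
  have e0 : ((1 : ℕ) : ℤ) = 1 := rfl
  rw [e0] at this
  norm_num at e2
  linarith [this.2]

/-- the local means are in `[0,1]` -/
lemma lm_unit_int {p : Prm} {N l M G P Q : ℕ} {s : ℤ} {bT bR : ℝ}
    (hl : l ∈ PP p N)
    (h1 : 0 ≤ bT) (h2 : bT ≤ 1) (h3 : 0 ≤ bR) (h4 : bR ≤ 1) :
    0 ≤ lm l 1 G (wgt l (s * M) G P Q bT bR) ∧ lm l 1 G (wgt l (s * M) G P Q bT bR) ≤ 1 := by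
  obtain ⟨_, hp, h41, hEl⟩ := EVS.mem_PP.1 hl
  have := Fact.mk hp
  have hl1 : ¬ l ∣ 1 := by
    intro h
    exact hp.one_lt.ne' (Nat.dvd_one.1 h)
  have := ELMM.lm_bounds (l := l) (b := 1) (G := G) hl1
    (ψ := wgt l (s * M) G P Q bT bR) (fun x y => ELMM.wgt_bounds h1 h2 h3 h4 _ _)
  exact_mod_cast this

/-- the set of primes with weights -/
def AA (p : Prm) (N M n : ℕ) : Finset ℕ :=
  (PP p N).filter (fun l : ℕ => ¬ l ∣ n ∧ ¬ (l : ℤ) ∣ (M : ℤ) ^ 2 + 1)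

lemma filter_eq (p : Prm) (N M n : ℕ) (S : Finset ℕ) :
    (PP p N).filter (fun l : ℕ => ¬ l ∣ n ∧ ¬ (l : ℤ) ∣ (M : ℤ) ^ 2 + 1 ∧ l ∉ S) =
      (AA p N M n).filter (fun l => l ∉ S) := by
  unfold AA
  rw [filter_filter]
  refine filter_congr fun l _ => ?_
  tauto

lemma prod_le_VU (hM : SpecELM) {p : Prm} {N M G P Q n : ℕ} {s : ℤ} {bT bR : ℝ}
    (hE : 1000 ≤ p.E) (hs : s = 1 ∨ s = -1) (h : (G : ℤ) * P * Q = (M : ℤ) ^ 2 + 1)
    (h1 : 0 ≤ bT) (h2 : bT ≤ 1) (h3 : 0 ≤ bR) (h4 : bR ≤ 1) {S : Finset ℕ} (hS : S.card ≤ 1) :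
    ∏ l ∈ (PP p N).filter (fun l : ℕ => ¬ l ∣ n ∧ ¬ (l : ℤ) ∣ (M : ℤ) ^ 2 + 1 ∧ l ∉ S),
      lm l 1 G (wgt l (s * M) G P Q bT bR) ≤ 3 * VU p N M s G P Q n bT bR := by
  rw [filter_eq]
  have e : VU p N M s G P Q n bT bR =
      (∏ l ∈ (AA p N M n).filter (fun l => l ∉ S), lm l 1 G (wgt l (s * M) G P Q bT bR)) *
      ∏ l ∈ (AA p N M n).filter (fun l => ¬ l ∉ S), lm l 1 G (wgt l (s * M) G P Q bT bR) :=
    (prod_filter_mul_prod_filter_not _ _ _).symm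
  have h0 : 0 ≤ ∏ l ∈ (AA p N M n).filter (fun l => l ∉ S),
      lm l 1 G (wgt l (s * M) G P Q bT bR) :=
    prod_nonneg fun l hl => (lm_unit_int (mem_filter.1 (mem_filter.1 hl).1).1 h1 h2 h3 h4).1
  have hlow : (1 / 3 : ℝ) ≤ ∏ l ∈ (AA p N M n).filter (fun l => ¬ l ∉ S),
      lm l 1 G (wgt l (s * M) G P Q bT bR) := by
    have hc : ((AA p N M n).filter (fun l => ¬ l ∉ S)).card ≤ 1 := by
      refine (card_le_card ?_).trans hS
      intro l hl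
      exact not_not.1 (mem_filter.1 hl).2
    rcases Nat.le_one_iff_eq_zero_or_eq_one.1 hc with hc | hc
    · rw [card_eq_zero.1 hc, prod_empty]
      norm_num
    · obtain ⟨l, hl⟩ := card_eq_one.1 hc
      have hl' : l ∈ (AA p N M n).filter (fun l => ¬ l ∉ S) := by rw [hl]; exact mem_singleton_self l
      rw [hl, prod_singleton]
      have h5 := mem_filter.1 (mem_filter.1 hl').1
      exact lm_facts hM h5.1 hE hs h h1 h2 h3 h4 h5.2.2
  rw [e]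
  nlinarith

lemma wU_le {p : Prm} {N M G P Q n : ℕ} {s : ℤ} {bT bR : ℝ} (hs : s = 1 ∨ s = -1)
    (h1 : 0 ≤ bT) (h2 : bT ≤ 1) (h3 : 0 ≤ bR) (h4 : bR ≤ 1) (S : Finset ℕ) (D D₂ : ℤ) :
    wU p N (s * M) G P Q n bT bR D D₂ ≤
      ∏ l ∈ (PP p N).filter (fun l : ℕ => ¬ l ∣ n ∧ ¬ (l : ℤ) ∣ (M : ℤ) ^ 2 + 1 ∧ l ∉ S),
        wgt l (s * M) G P Q bT bR D D₂ := by
  rw [filter_eq]
  have e : wU p N (s * M) G P Q n bT bR D D₂ =
      (∏ l ∈ (AA p N M n).filter (fun l => l ∉ S), wgt l (s * M) G P Q bT bR D D₂) *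
      ∏ l ∈ (AA p N M n).filter (fun l => ¬ l ∉ S), wgt l (s * M) G P Q bT bR D D₂ := by
    rw [prod_filter_mul_prod_filter_not]
    unfold wU AA
    rw [sq_sign hs]
  rw [e]
  refine mul_le_of_le_one_right (prod_nonneg fun l hl => ?_) (prod_le_one (fun l hl => ?_) fun l hl => ?_)
  · have : Fact l.Prime := ⟨(EVS.mem_PP.1 (mem_filter.1 (mem_filter.1 hl).1).1).2.1⟩
    exact (ELMM.wgt_bounds h1 h2 h3 h4 _ _).1
  · have : Fact l.Prime := ⟨(EVS.mem_PP.1 (mem_filter.1 (mem_filter.1 hl).1).1).2.1⟩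
    exact (ELMM.wgt_bounds h1 h2 h3 h4 _ _).1
  · have : Fact l.Prime := ⟨(EVS.mem_PP.1 (mem_filter.1 (mem_filter.1 hl).1).1).2.1⟩
    exact (ELMM.wgt_bounds h1 h2 h3 h4 _ _).2

/-- the common step -/
theorem general (hEU : SpecEUG) (hR : SpecERR) (hRT : SpecRTS) (hM : SpecELM)
    {c : ℕ → ℤ → ℤ → ℤ → Prop} {H : Finset ℕ → ℕ → ℕ → ℕ → Prop} {f : ℕ → ℝ} {A : ℝ} (hA : 0 < A)
    {Sf : ℕ → Finset ℕ} {j : ℕ} (ψ : ℤ → ℕ → ℕ → ℕ → ℕ → ℤ → ℤ → ℝ)
    (hf : ∀ q, 0 ≤ f q)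
    (hS1 : ∀ q, (Sf q).card ≤ 1)
    (hS : ∀ (PP : Finset ℕ) (M n q : ℕ), H PP M n q → ∀ l ∈ Sf q, l ∈ PP ∧ ¬ l ∣ n)
    (hj : 1 ≤ j ∧ j ≤ 2)
    (hψ : ∀ (M' : ℤ) (G P Q l : ℕ), l.Prime → Locm (l ^ j) (ψ M' G P Q l))
    (hc : ∀ (M' : ℤ) (G P Q q : ℕ) (d e : ℤ), c q (F1 M' G P Q d) (F2 M' G P Q e) (G + d * e) →
      ∀ l ∈ Sf q, 1 ≤ ψ M' G P Q l d e)
    (hm : ∀ (p : Prm) (N M n q G P Q : ℕ) (s : ℤ), H (PP p N) M n q → 1000 ≤ p.E →
      (s = 1 ∨ s = -1) → (G : ℤ) * P * Q = (M : ℤ) ^ 2 + 1 →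
      ∏ l ∈ Sf q, lmj l j n G (ψ (s * M) G P Q l) ≤ A * f q) : EUC c H f := by
  obtain ⟨C, hC, hG⟩ := hEU
  refine ⟨3 * C * A, by positivity, ?_⟩
  refine (hG.and (hR fun _ => 1)).mono fun p hp => ?_
  obtain ⟨h1, hζ, hE, hK, h4W, hW, h2⟩ := hp
  filter_upwards [h1, h2] with N hN hN2
  obtain ⟨hz, hzN, hadm⟩ := hN2
  intro M G P Q s bT bR n q hAd hs b1 b2 b3 b4 hn hnG hH
  obtain ⟨hM0, hG0, hP0, hQ0, hG4, -⟩ := hadm M G P Q hAd
  have hMM : (G : ℤ) * P * Q = (M : ℤ) ^ 2 + 1 := by exact_mod_cast hAd.1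
  obtain ⟨hn0, hodd, hnle, hnp⟩ := n_facts hn
  have hPPp : ∀ l ∈ PP p N, l.Prime := fun l hl => (EVS.mem_PP.1 hl).2.1
  have hz1 : 1 ≤ zz p N := by linarith
  have hVU : 0 ≤ VU p N M s G P Q n bT bR :=
    prod_nonneg fun l hl => (lm_unit_int (mem_filter.1 hl).1 b1 b2 b3 b4).1
  have hlj : ∀ l ∈ Sf q, 0 ≤ lmj l j n G (ψ (s * M) G P Q l) := by
    intro l hl
    have hl' := hS _ _ _ _ hH l hl
    have hlp := hPPp l hl'.1
    unfold lmj
    have e0 : Dm l j G (fun _ => (0 : ℝ)) = 0 := LMJM.Dm_const hlp hj.1 G 0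
    rw [← e0]
    refine LMJM.Dm_mono hlp G fun d => ?_
    have e1 : Bm l j n G (fun _ _ => (0 : ℝ)) (d : ℤ) = 0 := LMJM.Bm_const hlp _ _ _ 0
    rw [← e1]
    exact LMJM.Bm_mono _ _ _ fun e => ((hψ (s * M) G P Q l hlp).1 _ _).1
  have key := UU_le hRT (p := p) (N := N) (M := M) (s := s) (G := G) (P := P) (Q := Q) (n := n)
    (bT := bT) (bR := bR) (c := c q) hn0
    (fun D D₂ => (∏ l ∈ Sf q, ψ (s * M) G P Q l D D₂) *
      ∏ l ∈ (PP p N).filter (fun l : ℕ => ¬ l ∣ n ∧ ¬ (l : ℤ) ∣ (M : ℤ) ^ 2 + 1 ∧ l ∉ Sf q),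
        wgt l (s * M) G P Q bT bR D D₂)
    (fun D D₂ => mul_nonneg
      (prod_nonneg fun l hl => ((hψ _ _ _ _ l (hPPp l (hS _ _ _ _ hH l hl).1)).1 _ _).1)
      (prod_nonneg fun l hl => by
        have : Fact l.Prime := ⟨hPPp l (mem_filter.1 hl).1⟩
        exact (ELMM.wgt_bounds b1 b2 b3 b4 _ _).1))
    (fun D D₂ hcc _ => by
      refine (wU_le hs b1 b2 b3 b4 (Sf q) D D₂).trans ?_
      refine le_mul_of_one_le_left (prod_nonneg fun l hl => ?_) ?_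
      · have : Fact l.Prime := ⟨hPPp l (mem_filter.1 hl).1⟩
        exact (ELMM.wgt_bounds b1 b2 b3 b4 _ _).1
      · rw [← prod_const_one (s := Sf q)]
        exact prod_le_prod (fun _ _ => zero_le_one) fun l hl => hc _ _ _ _ _ _ _ hcc l hl)
  refine key.trans (sum_roots hRT (by rw [sq_sign hs]; exact hMM) hodd ?_ fun ρ hρ => ?_)
  · have := hf q
    positivity
  · have hρ2 := mem_filter.1 hρ
    have h := hN M G P Q s bT bR n n ρ 1 (0, 0) (Sf q) (fun _ => j) (ψ (s * M) G P Q) hAd hs b1 b2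
      b3 b4 hn dvd_rfl hn0 (hnle.trans (pow_le_pow_right₀ hz1 (by omega)))
      (fun l hl hd => ⟨hnp l hl hd, fun hg => hl.one_lt.ne' (Nat.eq_one_of_dvd_coprimes hnG hd hg)⟩)
      hρ2.2.1 one_pos (by exact_mod_cast hz1) (fun l hl hd => absurd (Nat.dvd_one.1 hd) hl.ne_one)
      (hS1 q) (fun l hl => ⟨(hS _ _ _ _ hH l hl).1, (hS _ _ _ _ hH l hl).2, hj.1, hj.2,
        hψ _ _ _ _ l (hPPp l (hS _ _ _ _ hH l hl).1)⟩)
    refine h.trans ?_
    have e1 : (G : ℝ) / ((W0 p : ℝ) ^ 2 * n * n * ((1 : ℕ) : ℝ) ^ 2) =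
        G / ((W0 p : ℝ) ^ 2 * (n : ℝ) ^ 2) := by
      congr 1
      push_cast
      ring
    have hX : 0 ≤ C * ((G : ℝ) / ((W0 p : ℝ) ^ 2 * (n : ℝ) ^ 2)) := by positivity
    have h3 : C * ((G : ℝ) / ((W0 p : ℝ) ^ 2 * n * n * ((1 : ℕ) : ℝ) ^ 2)) *
        (∏ l ∈ Sf q, lmj l j n G (ψ (s * M) G P Q l)) *
        ∏ l ∈ (PP p N).filter (fun l : ℕ => ¬ l ∣ n ∧ ¬ (l : ℤ) ∣ (M : ℤ) ^ 2 + 1 ∧ l ∉ Sf q),
          lm l 1 G (wgt l (s * M) G P Q bT bR) ≤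
        3 * C * A * f q * ((G : ℝ) / ((W0 p : ℝ) ^ 2 * (n : ℝ) ^ 2)) *
          VU p N M s G P Q n bT bR := by
      rw [e1]
      calc _ ≤ C * ((G : ℝ) / ((W0 p : ℝ) ^ 2 * (n : ℝ) ^ 2)) * (A * f q) *
            (3 * VU p N M s G P Q n bT bR) := by
            refine mul_le_mul (mul_le_mul_of_nonneg_left (hm p N M n q G P Q s hH hE hs hMM) hX)
              (prod_le_VU hM hE hs hMM b1 b2 b3 b4 (hS1 q)) (prod_nonneg fun l hl =>
                (lm_unit_int (mem_filter.1 hl).1 b1 b2 b3 b4).1) ?_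
            have := hf q
            positivity
        _ = _ := by ring
    have h4 : (G : ℝ) / zz p N ^ (20 * p.K + 20) ≤ G / zz p N ^ (20 * p.K + 10) := by
      refine div_le_div_of_nonneg_left (by positivity) (by positivity) ?_
      exact pow_le_pow_right₀ hz1 (by omega)
    exact add_le_add h3 h4

end EUCM

open EUCM

theorem specEUC0 (hEU : SpecEUG) (hR : SpecERR) (hRT : SpecRTS) (hM : SpecELM) : SpecEUC0 := by
  refine general hEU hR hRT hM (A := 1) one_pos (Sf := fun _ => ∅) (j := 1)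
    (fun _ _ _ _ _ _ _ => 1) (fun _ => zero_le_one) (fun _ => by simp) (by simp) ⟨le_rfl, by norm_num⟩
    (fun _ _ _ _ _ _ => ⟨fun _ _ => ⟨zero_le_one, le_rfl⟩, fun _ _ _ _ _ _ => rfl⟩)
    (by simp) (by simp)

namespace EUCM

lemma F1_congr (M : ℤ) (G P Q : ℕ) {m d d' : ℤ} (h : m ∣ d - d') :
    m ∣ F1 M G P Q d - F1 M G P Q d' := by
  have : F1 M G P Q d - F1 M G P Q d' = (d - d') * (P * (d + d') - 2 * M) := by
    unfold F1; ring
  rw [this]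
  exact Dvd.dvd.mul_right h _

lemma F2_congr (M : ℤ) (G P Q : ℕ) {m e e' : ℤ} (h : m ∣ e - e') :
    m ∣ F2 M G P Q e - F2 M G P Q e' := by
  have : F2 M G P Q e - F2 M G P Q e' = (e - e') * (Q * (e + e') + 2 * M) := by
    unfold F2; ring
  rw [this]
  exact Dvd.dvd.mul_right h _

lemma X_congr (G : ℕ) {m d d' e e' : ℤ} (h : m ∣ d - d') (h' : m ∣ e - e') :
    m ∣ ((G : ℤ) + d * e) - (G + d' * e') := by
  have : ((G : ℤ) + d * e) - (G + d' * e') = (d - d') * e + d' * (e - e') := by ring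
  rw [this]
  exact dvd_add (Dvd.dvd.mul_right h _) (Dvd.dvd.mul_left h' _)

/-- an indicator is a local function -/
lemma locm_ind {m : ℕ} {p : ℤ → ℤ → Prop} [∀ d e, Decidable (p d e)]
    (h : ∀ d d' e e' : ℤ, (m : ℤ) ∣ d - d' → (m : ℤ) ∣ e - e' → p d e → p d' e') :
    Locm m (fun d e => if p d e then (1 : ℝ) else 0) := by
  refine ⟨fun d e => ?_, fun d d' e e' h1 h2 => ?_⟩
  · dsimp only
    split_ifs <;> norm_num
  · dsimp only
    have hiff : p d e ↔ p d' e' := by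
      refine ⟨h d d' e e' h1 h2, h d' d e' e ?_ ?_⟩
      · rw [← neg_sub]; exact (dvd_neg).2 h1
      · rw [← neg_sub]; exact (dvd_neg).2 h2
    simp only [hiff]

lemma dvd_of_sub {m a b : ℤ} (h : m ∣ a - b) (ha : m ∣ a) : m ∣ b := by
  have := dvd_sub ha h
  simpa using this

end EUCM

theorem specEUCB (hEU : SpecEUG) (hR : SpecERR) (hRT : SpecRTS) (hM : SpecELM) : SpecEUCB := by
  refine general hEU hR hRT hM (A := 13) (by norm_num) (Sf := fun q => {q}) (j := 1)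
    (fun M' G P Q l d e => if (l : ℤ) ∣ (G + d * e) * F1 M' G P Q d * F2 M' G P Q e then 1 else 0)
    (fun _ => by positivity) (fun _ => by simp) ?_ ⟨le_rfl, by norm_num⟩ ?_ ?_ ?_
  · intro PP M n q h l hl
    rw [mem_singleton] at hl
    subst hl
    exact h
  · intro M' G P Q l hl
    rw [pow_one]
    refine locm_ind fun d d' e e' h1 h2 h => ?_
    rcases (Nat.prime_iff_prime_int.1 hl).dvd_or_dvd h with h | h
    · rcases (Nat.prime_iff_prime_int.1 hl).dvd_or_dvd h with h | h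
      · exact Dvd.dvd.mul_right (Dvd.dvd.mul_right (dvd_of_sub (X_congr G h1 h2) h) _) _
      · exact Dvd.dvd.mul_right (Dvd.dvd.mul_left (dvd_of_sub (F1_congr M' G P Q h1) h) _) _
    · exact Dvd.dvd.mul_left (dvd_of_sub (F2_congr M' G P Q h2) h) _
  · intro M' G P Q q d e h l hl
    rw [mem_singleton] at hl
    subst hl
    rw [if_pos h]
  · intro p N M n q G P Q s hH hE hs hMM
    obtain ⟨hq, hqn⟩ := hH
    obtain ⟨_, hp, h41, hEl⟩ := EVS.mem_PP.1 hq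
    have := Fact.mk hp
    have hMM' : (G : ℤ) * P * Q = (s * (M : ℤ)) ^ 2 + 1 := by rw [sq_sign hs]; exact hMM
    have hMM'' : (G : ℤ) * Q * P = (-(s * (M : ℤ))) ^ 2 + 1 := by rw [neg_sq, ← hMM']; ring
    have hq0 : (0 : ℝ) < q := by exact_mod_cast hp.pos
    rw [prod_singleton, LMJM.lmj_one hp]
    set T : Finset (ZMod q × ZMod q) :=
      ((univ : Finset (ZMod q × ZMod q)).filter (fun x => x.1 ≠ 0 ∧ (G : ZMod q) + x.1 * x.2 = 0)) ∪
      ((((univ : Finset (ZMod q)).filter (fun x => ELMM.f1 q (s * M) G P Q x = 0)) ×ˢ univ) ∪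
      (univ ×ˢ ((univ : Finset (ZMod q)).filter (fun x => ELMM.f1 q (-(s * M)) G Q P x = 0))))
      with hT
    have hcard : T.card ≤ 5 * q := by
      have hc : Fintype.card (ZMod q) = q := ZMod.card q
      have h1 := ELMM.card_w (l := q) (G := G)
      have h2 := ELMM.roots_le (l := q) (by omega) hMM'
      have h3 := ELMM.roots_le (l := q) (by omega) hMM''
      have h4 : ((((univ : Finset (ZMod q)).filter (fun x => ELMM.f1 q (s * M) G P Q x = 0)) ×ˢ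
          (univ : Finset (ZMod q)))).card ≤ 2 * q := by
        rw [card_product, card_univ, hc]
        exact Nat.mul_le_mul_right _ h2
      have h5 : (((univ : Finset (ZMod q)) ×ˢ
          ((univ : Finset (ZMod q)).filter (fun x => ELMM.f1 q (-(s * M)) G Q P x = 0)))).card ≤
          2 * q := by
        rw [card_product, card_univ, hc, mul_comm]
        exact Nat.mul_le_mul_right _ h3
      refine (card_union_le _ _).trans ?_
      have := card_union_le (((univ : Finset (ZMod q)).filter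
        (fun x => ELMM.f1 q (s * M) G P Q x = 0)) ×ˢ (univ : Finset (ZMod q)))
        ((univ : Finset (ZMod q)) ×ˢ
          ((univ : Finset (ZMod q)).filter (fun x => ELMM.f1 q (-(s * M)) G Q P x = 0)))
      omega
    have hcard' : (T.card : ℝ) ≤ 5 * q := by exact_mod_cast hcard
    refine (ELMM.fin_bound (l := q) (b := n) (G := G) hqn (by omega) T hcard' ?_ ?_).trans ?_
    · intro x y
      split_ifs <;> norm_num
    · intro x y hx hxy
      rw [if_neg]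
      intro h
      apply hxy
      rw [hT, mem_union, mem_union]
      rcases (Nat.prime_iff_prime_int.1 hp).dvd_or_dvd h with h | h
      · rcases (Nat.prime_iff_prime_int.1 hp).dvd_or_dvd h with h | h
        · left
          rw [mem_filter]
          have h' := (ELMM.dvd_w G x y).1 h
          refine ⟨mem_univ _, ?_, h'⟩
          rintro rfl
          rw [zero_mul, add_zero] at h'
          exact hx ((ZMod.natCast_eq_zero_iff G q).1 h') rfl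
        · right; left
          rw [mem_product, mem_filter]
          exact ⟨⟨mem_univ _, (ELMM.dvd_F1 _ G P Q x).1 h⟩, mem_univ _⟩
      · right; right
        rw [mem_product, mem_filter]
        exact ⟨mem_univ _, mem_univ _, (ELMM.dvd_F2 _ G P Q y).1 h⟩
    · have : 5 / 2 * (5 * (q : ℝ)) / (q : ℝ) ^ 2 = 25 / 2 * (1 / q) := by
        field_simp
        ring
      rw [this]
      have : 0 < 1 / (q : ℝ) := by positivity
      linarith

theorem specEUCD (hEU : SpecEUG) (hR : SpecERR) (hRT : SpecRTS) (hM : SpecELM) (hJ : SpecLMJ) :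
    SpecEUCD := by
  refine general hEU hR hRT hM (A := 10) (by norm_num) (Sf := fun q => {q}) (j := 2)
    (fun M' G P Q l _ e => if (l : ℤ) ^ 2 ∣ F2 M' G P Q e then 1 else 0)
    (fun _ => by positivity) (fun _ => by simp) ?_ ⟨by norm_num, le_rfl⟩ ?_ ?_ ?_
  · intro PP M n q h l hl
    rw [mem_singleton] at hl
    subst hl
    exact ⟨h.1, h.2.1⟩
  · intro M' G P Q l hl
    refine locm_ind fun d d' e e' h1 h2 h => ?_
    push_cast at h2
    exact dvd_of_sub (F2_congr M' G P Q h2) h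
  · intro M' G P Q q d e h l hl
    rw [mem_singleton] at hl
    subst hl
    rw [if_pos h]
  · intro p N M n q G P Q s hH hE hs hMM
    obtain ⟨hq, hqn, hqM⟩ := hH
    obtain ⟨_, hp, h41, hEl⟩ := EVS.mem_PP.1 hq
    have hMM' : (G : ℤ) * P * Q = (s * (M : ℤ)) ^ 2 + 1 := by rw [sq_sign hs]; exact hMM
    rw [prod_singleton]
    have := (hJ q 2 n G hp (by norm_num) hqn).2.2.2.2.2.2 (s * M) P Q h41 hMM' (by
      rw [sq_sign hs]; exact_mod_cast hqM)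
    refine this.trans (le_of_eq ?_)
    ring

theorem specEUCF (hEU : SpecEUG) (hR : SpecERR) (hRT : SpecRTS) (hM : SpecELM) : SpecEUCF := by
  refine general hEU hR hRT hM (A := 10) (by norm_num) (Sf := fun q => {q}) (j := 1)
    (fun M' G P Q l d e => if (l : ℤ) ∣ F1 M' G P Q d ∧ (l : ℤ) ∣ F2 M' G P Q e ∧
      ¬ (l : ℤ) ∣ G + d * e then 1 else 0)
    (fun _ => by positivity) (fun _ => by simp) ?_ ⟨le_rfl, by norm_num⟩ ?_ ?_ ?_
  · intro PP M n q h l hl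
    rw [mem_singleton] at hl
    subst hl
    exact ⟨h.1, h.2.1⟩
  · intro M' G P Q l hl
    rw [pow_one]
    refine locm_ind fun d d' e e' h1 h2 h => ?_
    refine ⟨dvd_of_sub (F1_congr M' G P Q h1) h.1, dvd_of_sub (F2_congr M' G P Q h2) h.2.1, ?_⟩
    intro h'
    refine h.2.2 (dvd_of_sub ?_ h')
    refine X_congr G ?_ ?_
    · rw [← neg_sub]; exact (dvd_neg).2 h1
    · rw [← neg_sub]; exact (dvd_neg).2 h2
  · intro M' G P Q q d e h l hl
    rw [mem_singleton] at hl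
    subst hl
    rw [if_pos ⟨h.2.1, h.2.2, h.1⟩]
  · intro p N M n q G P Q s hH hE hs hMM
    obtain ⟨hq, hqn, hqM⟩ := hH
    obtain ⟨_, hp, h41, hEl⟩ := EVS.mem_PP.1 hq
    have hMM' : (G : ℤ) * P * Q = (s * (M : ℤ)) ^ 2 + 1 := by rw [sq_sign hs]; exact hMM
    rw [prod_singleton, LMJM.lmj_one hp]
    have := ((hM q (s * M) G P Q n 1 1 hp (by omega) hMM' hqn zero_le_one le_rfl zero_le_one
      le_rfl).2.2.2.2.1 (by rw [sq_sign hs]; exact_mod_cast hqM)).2.2.2.2.2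
    refine this.trans (le_of_eq ?_)
    ring

end

end Pool.Agent.Lib.MP391708.T1
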