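import Pool.Agent.Lib.MP_391708_nt.T1.ESpecC
import Pool.Agent.Lib.MP_391708_nt.T1.GoodL

/-!
# Theorem T1, module EUG: the general upper bound for the sums over `(D, k)`
-/

set_option autoImplicit false

namespace Pool.Agent.Lib.MP391708.T1

open Finset Filter Topology
open scoped Classical
open T4 (Prm Good zz W0 PP sm Adm S1 S2 vh kp kpU S0)

noncomputable section

namespace EUG

lemma mem_PP {p : Prm} {N l : ℕ} : l ∈ PP p N ↔ (l : ℝ) < zz p N ∧ l.Prime ∧ l % 4 = 1 ∧ p.E < l := by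
  unfold PP
  rw [mem_filter, mem_range, Nat.lt_ceil]

lemma dvd_iff_of_sub {l a b : ℤ} (h : l ∣ a - b) : l ∣ a ↔ l ∣ b := by
  constructor
  · intro h1
    have := dvd_sub h1 h
    rwa [sub_sub_cancel] at this
  · intro h1
    have := dvd_add h h1
    rwa [sub_add_cancel] at this

/-- the weight is a local function -/
lemma wgt_loc (l : ℕ) (M : ℤ) (G P Q : ℕ) {bT bR : ℝ} (h0 : 0 ≤ bT) (h1 : bT ≤ 1) (h2 : 0 ≤ bR)
    (h3 : bR ≤ 1) : Locm l (wgt l M G P Q bT bR) := by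
  constructor
  · intro d e
    unfold wgt
    by_cases ha : (l : ℤ) ∣ G + d * e
    · rw [if_pos ha]; norm_num
    rw [if_neg ha]
    constructor
    · apply mul_nonneg <;> split_ifs <;> linarith
    · apply mul_le_one₀
      · split_ifs <;> linarith
      · split_ifs <;> linarith
      · split_ifs <;> linarith
  · intro d d' e e' hd he
    have e1 : (l : ℤ) ∣ G + d * e ↔ (l : ℤ) ∣ G + d' * e' := by
      apply dvd_iff_of_sub
      have : (G : ℤ) + d * e - (G + d' * e') = (d - d') * e + d' * (e - e') := by ring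
      rw [this]
      exact dvd_add (Dvd.dvd.mul_right hd _) (Dvd.dvd.mul_left he _)
    have e2 : (l : ℤ) ∣ F1 M G P Q d ↔ (l : ℤ) ∣ F1 M G P Q d' := by
      apply dvd_iff_of_sub
      have : F1 M G P Q d - F1 M G P Q d' = (d - d') * (P * (d + d') - 2 * M) := by
        unfold F1; ring
      rw [this]
      exact Dvd.dvd.mul_right hd _
    have e3 : (l : ℤ) ∣ F2 M G P Q e ↔ (l : ℤ) ∣ F2 M G P Q e' := by
      apply dvd_iff_of_sub
      have : F2 M G P Q e - F2 M G P Q e' = (e - e') * (Q * (e + e') + 2 * M) := by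
        unfold F2; ring
      rw [this]
      exact Dvd.dvd.mul_right he _
    unfold wgt
    simp only [e1, e2, e3]

lemma prod_mod4 {n : ℕ} (hn : Squarefree n) (h : ∀ l : ℕ, l.Prime → l ∣ n → l % 4 = 1) :
    n % 4 = 1 := by
  rw [← Nat.prod_primeFactors_of_squarefree hn, Finset.prod_nat_mod]
  rw [prod_congr rfl (g := fun _ => 1) fun l hl => h l (Nat.prime_of_mem_primeFactors hl)
    (Nat.dvd_of_mem_primeFactors hl)]
  simp

/-- the sizes of the data -/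
lemma tU_ok {p : Prm} {M G P n' ρ n m : ℕ} {κ : ℤ × ℤ} (h4 : 4 ∣ W0 p) (hW : 0 < W0 p)
    (hn' : 0 < n') (hρ : n'.Coprime ρ) (hn : 0 < n) (hn4 : n % 4 = 1) (hm : 0 < m)
    (hnm : ∀ l : ℕ, l.Prime → l ∣ n * m → l ∣ n') (hG : 0 < G) (hG4 : G % 4 = 1)
    (hWn : (W0 p).Coprime n') (hWG : (W0 p).Coprime G) (hnG : n'.Coprime G) (hM : 0 < M)
    (hP : 0 < P) : (tU p M G P n' ρ n m κ).Ok := by
  refine ⟨hW, h4, hn', hρ, hn, hn4, hm, hnm, hG, hG4, hWn, hWG, hnG, ?_, ?_, ?_⟩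
  · show (M - 1) / (3 * P) ≤ 10 * M / P
    calc (M - 1) / (3 * P) ≤ M / P := by
          apply Nat.div_le_div (by omega) (by omega) (by omega)
      _ ≤ 10 * M / P := Nat.div_le_div_right (by omega)
  · show 0 ≤ LU M G P
    unfold LU
    positivity
  · intro D h1 h2
    change D ≤ 10 * M / P at h2
    show 0 ≤ ⌊(D : ℝ) * LU M G P / n⌋₊ ∧ ⌊(D : ℝ) * LU M G P / n⌋₊ ≤ 3000 * G ∧
      |((⌊(D : ℝ) * LU M G P / n⌋₊ : ℕ) : ℝ) - ((0 : ℕ) : ℝ) - D * LU M G P / n| ≤ 1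
    have hMr : (0 : ℝ) < M := by exact_mod_cast hM
    have hPr : (0 : ℝ) < P := by exact_mod_cast hP
    have hnr : (1 : ℝ) ≤ n := by exact_mod_cast hn
    have hL : 0 ≤ LU M G P := by unfold LU; positivity
    have hD : (D : ℝ) * P ≤ 10 * M := by
      have := (Nat.le_div_iff_mul_le hP).1 h2
      exact_mod_cast this
    have h3 : 0 ≤ (D : ℝ) * LU M G P / n := by positivity
    refine ⟨Nat.zero_le _, ?_, ?_⟩
    · have h4 : (D : ℝ) * LU M G P / n ≤ ((3000 * G : ℕ) : ℝ) := by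
        refine (div_le_self (by positivity) hnr).trans ?_
        unfold LU
        have e : (D : ℝ) * (300 * G * P / M) = (D * P) * (300 * G / M) := by ring
        rw [e]
        calc (D : ℝ) * P * (300 * G / M) ≤ 10 * M * (300 * G / M) :=
              mul_le_mul_of_nonneg_right hD (by positivity)
          _ = ((3000 * G : ℕ) : ℝ) := by push_cast; field_simp; ring
      exact_mod_cast (Nat.floor_le_floor h4).trans (by rw [Nat.floor_natCast])
    · have h4 := Nat.floor_le h3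
      have h5 := Nat.lt_floor_add_one ((D : ℝ) * LU M G P / n)
      rw [Nat.cast_zero, sub_zero, abs_le]
      constructor <;> linarith

lemma A2_le {M P : ℕ} (hP : 0 < P) : ((10 * M / P : ℕ) : ℝ) ≤ 10 * ((M : ℝ) / P) := by
  have := Nat.cast_div_le (α := ℝ) (m := 10 * M) (n := P)
  push_cast at this
  calc _ ≤ 10 * (M : ℝ) / P := this
    _ = _ := by ring

lemma sizes {N G x : ℝ} (hN : 300000 ≤ N) (hG : G ≤ 100 * N ^ 2) (hx : x ≤ N) :
    G ≤ N ^ 3 ∧ 10 * x ≤ N ^ 3 ∧ 3000 * G ≤ N ^ 3 := by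
  have h1 : 300000 * N ^ 2 ≤ N ^ 3 := by
    have := mul_le_mul_of_nonneg_right hN (sq_nonneg N)
    linarith [this, (by ring : N * N ^ 2 = N ^ 3)]
  have h2 : N ≤ N ^ 2 := by nlinarith
  have h3 : 0 ≤ N ^ 2 := sq_nonneg N
  refine ⟨by linarith, by linarith, by linarith⟩

/-- the main term -/
lemma tU_main_le {p : Prm} {M G P n' ρ n m : ℕ} {κ : ℤ × ℤ} (hM : 0 < M) (hP : 0 < P) (hG : 0 < G) :
    (tU p M G P n' ρ n m κ).main ≤
      6000 * Real.pi * (G / ((W0 p : ℝ) ^ 2 * n' * n * (m : ℝ) ^ 2)) := by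
  have hMr : (0 : ℝ) < M := by exact_mod_cast hM
  have hPr : (0 : ℝ) < P := by exact_mod_cast hP
  have hpr : ∏ l ∈ G.primeFactors, (1 - 1 / (l : ℝ)) ≤ 1 := by
    refine prod_le_one (fun l hl => ?_) fun l hl => ?_
    · have : (1 : ℝ) ≤ l := by exact_mod_cast (Nat.prime_of_mem_primeFactors hl).one_lt.le
      rw [sub_nonneg, div_le_one (by linarith)]
      exact this
    · have : 0 ≤ 1 / (l : ℝ) := by positivity
      linarith
  have hAL : (((10 * M / P : ℕ) : ℝ) - (((M - 1) / (3 * P) : ℕ) : ℝ)) * LU M G P ≤ 3000 * G := by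
    have h1 := A2_le (M := M) hP
    have h2 : (0 : ℝ) ≤ (((M - 1) / (3 * P) : ℕ) : ℝ) := Nat.cast_nonneg _
    have hL : 0 ≤ LU M G P := by unfold LU; positivity
    calc _ ≤ 10 * ((M : ℝ) / P) * LU M G P := mul_le_mul_of_nonneg_right (by linarith) hL
      _ = 3000 * G := by unfold LU; field_simp; ring
  show 2 * Real.pi * (((10 * M / P : ℕ) : ℝ) - (((M - 1) / (3 * P) : ℕ) : ℝ)) * LU M G P /
      ((W0 p : ℝ) ^ 2 * n' * n * (m : ℝ) ^ 2) * ∏ l ∈ G.primeFactors, (1 - 1 / (l : ℝ)) ≤ _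
  have hAL0 : 0 ≤ (((10 * M / P : ℕ) : ℝ) - (((M - 1) / (3 * P) : ℕ) : ℝ)) * LU M G P := by
    apply mul_nonneg
    · rw [sub_nonneg]
      have : (M - 1) / (3 * P) ≤ 10 * M / P := by
        calc (M - 1) / (3 * P) ≤ M / P := Nat.div_le_div (by omega) (by omega) (by omega)
          _ ≤ 10 * M / P := Nat.div_le_div_right (by omega)
      exact_mod_cast this
    · unfold LU; positivity
  have e : 2 * Real.pi * (((10 * M / P : ℕ) : ℝ) - (((M - 1) / (3 * P) : ℕ) : ℝ)) * LU M G P /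
      ((W0 p : ℝ) ^ 2 * n' * n * (m : ℝ) ^ 2) = 2 * Real.pi /
      ((W0 p : ℝ) ^ 2 * n' * n * (m : ℝ) ^ 2) *
      ((((10 * M / P : ℕ) : ℝ) - (((M - 1) / (3 * P) : ℕ) : ℝ)) * LU M G P) := by ring
  rw [e]
  calc _ ≤ 2 * Real.pi / ((W0 p : ℝ) ^ 2 * n' * n * (m : ℝ) ^ 2) *
      ((((10 * M / P : ℕ) : ℝ) - (((M - 1) / (3 * P) : ℕ) : ℝ)) * LU M G P) * 1 :=
        mul_le_mul_of_nonneg_left hpr (by positivity)
    _ ≤ 2 * Real.pi / ((W0 p : ℝ) ^ 2 * n' * n * (m : ℝ) ^ 2) * (3000 * G) := by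
        rw [mul_one]
        exact mul_le_mul_of_nonneg_left hAL (by positivity)
    _ = _ := by ring

/-- the error term -/
lemma tU_err_le {p : Prm} {M G P n' ρ n m : ℕ} {κ : ℤ × ℤ} (hM : 0 < M) (hP : 0 < P) (hG : 0 < G) :
    (tU p M G P n' ρ n m κ).err ≤
      W0 p * (600 * ((M : ℝ) / P * Real.sqrt G + ((M : ℝ) / P) ^ 2 + G * P / M)) := by
  have hMr : (0 : ℝ) < M := by exact_mod_cast hM
  have hPr : (0 : ℝ) < P := by exact_mod_cast hP
  show (W0 p : ℝ) * (((10 * M / P : ℕ) : ℝ) * Real.sqrt ((3000 * G : ℕ) : ℝ) +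
    ((10 * M / P : ℕ) : ℝ) ^ 2 + LU M G P) ≤ _
  apply mul_le_mul_of_nonneg_left _ (Nat.cast_nonneg _)
  have h1 := A2_le (M := M) hP
  have h0 : (0 : ℝ) ≤ ((10 * M / P : ℕ) : ℝ) := Nat.cast_nonneg _
  have h2 : Real.sqrt ((3000 * G : ℕ) : ℝ) ≤ 60 * Real.sqrt G := by
    rw [Real.sqrt_le_left (by positivity), mul_pow, Real.sq_sqrt (Nat.cast_nonneg _)]
    push_cast
    have : (0 : ℝ) ≤ G := Nat.cast_nonneg _
    nlinarith
  have h3 : ((10 * M / P : ℕ) : ℝ) * Real.sqrt ((3000 * G : ℕ) : ℝ) ≤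
      10 * ((M : ℝ) / P) * (60 * Real.sqrt G) :=
    mul_le_mul h1 h2 (Real.sqrt_nonneg _) (by positivity)
  have h4 : ((10 * M / P : ℕ) : ℝ) ^ 2 ≤ (10 * ((M : ℝ) / P)) ^ 2 := pow_le_pow_left₀ h0 h1 2
  have h5 : LU M G P = 300 * (G * P / M) := by unfold LU; ring
  have h6 : 0 ≤ ((M : ℝ) / P) ^ 2 := by positivity
  have h7 : 0 ≤ (G : ℝ) * P / M := by positivity
  rw [h5]
  nlinarith

end EUG

open EUG in
/-- **EUG** -/
theorem specEUG (h2 : SpecE2g) (hj : SpecLMJ) (hE : SpecELM) (hb : SpecLMB) (hr : SpecERR) :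
    SpecEUG := by
  obtain ⟨C₀, hC₀, H⟩ := h2 10
  refine ⟨(1 + C₀) * (6000 * Real.pi), by positivity, ?_⟩
  refine T4.Good.mono (hr (fun K => 100 * K + 200)) fun p hp => ?_
  obtain ⟨hζ, hE0, hK, h4, hpr, hev⟩ := hp
  obtain ⟨C, hC, H⟩ := H (p.ζ / 3) 0 (by positivity)
  have hzt : Tendsto (fun N : ℕ => zz p N) atTop atTop :=
    (tendsto_rpow_atTop hζ).comp tendsto_natCast_atTop_atTop
  filter_upwards [hev, hzt.eventually_ge_atTop (C + 600 * W0 p + 2), eventually_ge_atTop (W0 p),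
    eventually_ge_atTop 300000, eventually_ge_atTop 1] with N hN hzC hNW hN3 hN1
  obtain ⟨hz2, hzN, hN⟩ := hN
  intro M G P Q s bT bR n n' ρ m κ S j ψ hadm hs hT0 hT1 hR0 hR1 hn hnn' hn'0 hn'le hn' hρ hm hmz
    hmn' hScard hS
  obtain ⟨hM, hG, hP, hQ, hG4, hMPN, hGN, hzP, hzG, herr⟩ := hN M G P Q hadm
  set z := zz p N with hz
  have hz0 : (0 : ℝ) < z := by linarith
  have hz1 : (1 : ℝ) ≤ z := by linarith
  have hN1' : (1 : ℝ) ≤ N := by exact_mod_cast hN1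
  have hN0 : (0 : ℝ) < N := by linarith
  have hN3' : (300000 : ℝ) ≤ N := by exact_mod_cast hN3
  have hMr : (0 : ℝ) < M := by exact_mod_cast hM
  have hPr : (0 : ℝ) < P := by exact_mod_cast hP
  have hGr : (0 : ℝ) < G := by exact_mod_cast hG
  have hE0' : (1000 : ℝ) ≤ p.E := by exact_mod_cast hE0
  -- facts on `n`
  unfold SQ at hn
  rw [mem_filter, mem_Icc] at hn
  obtain ⟨⟨hn1, hn2⟩, hnsq, hnP⟩ := hn
  have hn4 : n % 4 = 1 := prod_mod4 hnsq fun l hl hln => (mem_PP.1 (hnP l hl hln)).2.2.1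
  have hnr : (n : ℝ) ≤ z ^ (4 * p.K) := by
    refine (Nat.cast_le.2 hn2).trans (Nat.floor_le (by positivity)) |>.trans ?_
    exact le_of_eq (by norm_cast)
  have hWpos : 0 < W0 p := Nat.pos_of_ne_zero fun h => by
    have h5 : ∃ l : ℕ, l.Prime ∧ p.E < l := by
      obtain ⟨l, hl1, hl2⟩ := Nat.exists_infinite_primes (p.E + 1)
      exact ⟨l, hl2, by omega⟩
    obtain ⟨l, hl1, hl2⟩ := h5
    have h6 := (hpr l hl1).2 (by rw [h]; exact dvd_zero l)
    omega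
  have hPW : ∀ l ∈ PP p N, ¬ l ∣ W0 p := by
    intro l hl h
    obtain ⟨_, h5, _, h6⟩ := mem_PP.1 hl
    have := (hpr l h5).2 h
    omega
  have hWn' : (W0 p).Coprime n' := by
    rw [Nat.coprime_iff_gcd_eq_one]
    by_contra hne
    obtain ⟨l, hl, h1⟩ := Nat.exists_prime_and_dvd hne
    exact hPW l (hn' l hl (h1.trans (Nat.gcd_dvd_right _ _))).1 (h1.trans (Nat.gcd_dvd_left _ _))
  have hn'G : n'.Coprime G := by
    rw [Nat.coprime_iff_gcd_eq_one]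
    by_contra hne
    obtain ⟨l, hl, h1⟩ := Nat.exists_prime_and_dvd hne
    exact (hn' l hl (h1.trans (Nat.gcd_dvd_left _ _))).2 (h1.trans (Nat.gcd_dvd_right _ _))
  have hWG : (W0 p).Coprime G := hadm.2.2.2.1.symm
  have hok : (tU p M G P n' ρ n m κ).Ok := tU_ok h4 hWpos hn'0 hρ (by omega) hn4 hm
    (fun l hl h => (hl.dvd_mul.1 h).elim (fun h' => h'.trans hnn') (fun h' => hmn' l hl h'))
    hG hG4 hWn' hWG hn'G hM hP
  -- the primes
  set Pr := (PP p N).filter (fun l : ℕ => ¬ l ∣ n' ∧ ¬ (l : ℤ) ∣ (M : ℤ) ^ 2 + 1 ∧ l ∉ S) with hPr'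
  have hrel : (G : ℤ) * P * Q = (s * M) ^ 2 + 1 := by
    have h1 : (G : ℤ) * P * Q = (M : ℤ) ^ 2 + 1 := by exact_mod_cast hadm.1
    rcases hs with rfl | rfl
    · rw [h1]; ring
    · rw [h1]; ring
  have hrel2 : (s * (M : ℤ)) ^ 2 + 1 = (M : ℤ) ^ 2 + 1 := by
    rcases hs with rfl | rfl <;> ring
  have hnln : ∀ l, ¬ l ∣ n' → ¬ l ∣ n := fun l h h' => h (h'.trans hnn')
  set ψ' : ℕ → ℤ → ℤ → ℝ := fun l => if l ∈ S then ψ l else wgt l (s * M) G P Q bT bR with hψ'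
  have hψS : ∀ l ∈ S, ψ' l = ψ l := fun l hl => by simp only [hψ']; rw [if_pos hl]
  have hψP : ∀ l ∈ Pr, ψ' l = wgt l (s * M) G P Q bT bR := fun l hl => by
    simp only [hψ']; rw [if_neg (mem_filter.1 hl).2.2.2]
  have hSc : ∀ l ∈ S, l.Prime ∧ ¬ l ∣ W0 p * n' ∧ 1 ≤ j l ∧ Locm (l ^ j l) (ψ' l) := by
    intro l hl
    obtain ⟨h1, h3, h5, _, h6⟩ := hS l hl
    have hlp := (mem_PP.1 h1).2.1
    refine ⟨hlp, ?_, h5, by rw [hψS l hl]; exact h6⟩
    intro h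
    rcases hlp.dvd_mul.1 h with h | h
    · exact hPW l h1 h
    · exact h3 h
  have hmean : ∀ l ∈ Pr, 0 ≤ 1 - lm l n G (wgt l (s * M) G P Q bT bR) ∧
      1 - lm l n G (wgt l (s * M) G P Q bT bR) ≤ 10 / (l : ℝ) ∧
      1 - lm l n G (wgt l (s * M) G P Q bT bR) ≤ 2 / 3 := by
    intro l hl
    obtain ⟨h1, h3, h5, h6⟩ := mem_filter.1 hl
    obtain ⟨_, hlp, hl4, hlE⟩ := mem_PP.1 h1
    have hlr : (1000 : ℝ) ≤ l := by
      have : 1000 ≤ l := by omega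
      exact_mod_cast this
    obtain ⟨_, h7, _⟩ := hE l (s * M) G P Q n bT bR hlp (by omega) hrel (hnln l h3) hT0 hT1 hR0 hR1
    have h8 := abs_le.1 (h7 (by rw [hrel2]; exact h5) hl4)
    have h9 : 100 / (l : ℝ) ^ 2 ≤ 1 / (l : ℝ) := by
      rw [div_le_div_iff₀ (by positivity) (by positivity)]
      nlinarith
    have h10 : (6 - 2 * bT - 2 * bR) / (l : ℝ) ≤ 6 / (l : ℝ) :=
      div_le_div_of_nonneg_right (by linarith) (by linarith)
    have h11 : 2 / (l : ℝ) ≤ (6 - 2 * bT - 2 * bR) / (l : ℝ) :=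
      div_le_div_of_nonneg_right (by linarith) (by linarith)
    have h12 : 6 / (l : ℝ) + 1 / l = 7 / l := by ring
    have h13 : 7 / (l : ℝ) ≤ 10 / l := div_le_div_of_nonneg_right (by norm_num) (by linarith)
    have h14 : 10 / (l : ℝ) ≤ 2 / 3 := by
      rw [div_le_div_iff₀ (by linarith) (by norm_num)]
      linarith
    have h15 : 1 / (l : ℝ) ≤ 2 / l := div_le_div_of_nonneg_right (by norm_num) (by linarith)
    refine ⟨by linarith [h8.1], by linarith [h8.2], by linarith [h8.2]⟩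
  have hPc : ∀ l ∈ Pr, l.Prime ∧ (l : ℝ) < z ∧ ¬ l ∣ W0 p * n' ∧ l ∉ S ∧ Locm l (ψ' l) ∧
      1 - lm l n G (ψ' l) ≤ (10 : ℕ) / (l : ℝ) ∧ 1 - lm l n G (ψ' l) ≤ 2 / 3 := by
    intro l hl
    obtain ⟨h1, h3, h5, h6⟩ := mem_filter.1 hl
    obtain ⟨hlz, hlp, hl4, hlE⟩ := mem_PP.1 h1
    rw [hψP l hl]
    refine ⟨hlp, hlz, ?_, h6, wgt_loc l _ G P Q hT0 hT1 hR0 hR1, ?_, (hmean l hl).2.2⟩
    · intro h
      rcases hlp.dvd_mul.1 h with h | h
      · exact hPW l h1 h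
      · exact h3 h
    · exact_mod_cast (hmean l hl).2.1
  -- the size of the special modulus
  have hQS : ((∏ l ∈ S, l ^ j l : ℕ) : ℝ) ≤ z ^ 2 := by
    rcases Nat.eq_zero_or_pos S.card with h | h
    · rw [card_eq_zero.1 h, prod_empty, Nat.cast_one]
      exact one_le_pow₀ hz1
    · obtain ⟨l, hl⟩ := card_eq_one.1 (le_antisymm hScard h)
      have hlS : l ∈ S := by rw [hl]; exact mem_singleton_self l
      obtain ⟨h1, _, _, h5, _⟩ := hS l hlS
      rw [hl, prod_singleton]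
      push_cast
      have hlz := (mem_PP.1 h1).1
      have hl1 : (1 : ℝ) ≤ l := by exact_mod_cast (mem_PP.1 h1).2.1.one_lt.le
      calc (l : ℝ) ^ j l ≤ (l : ℝ) ^ 2 := pow_le_pow_right₀ hl1 h5
        _ ≤ z ^ 2 := pow_le_pow_left₀ (by linarith) hlz.le 2
  have hQS0 : (0 : ℝ) ≤ ((∏ l ∈ S, l ^ j l : ℕ) : ℝ) := Nat.cast_nonneg _
  -- the sizes
  have hNcube : (N : ℝ) ≤ (N : ℝ) ^ 3 := by
    calc (N : ℝ) = (N : ℝ) ^ 1 := (pow_one _).symm
      _ ≤ (N : ℝ) ^ 3 := pow_le_pow_right₀ hN1' (by norm_num)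
  have hzK : ∀ i : ℕ, i ≤ 100 * p.K + 200 → z ^ i ≤ (N : ℝ) := fun i hi =>
    (pow_le_pow_right₀ hz1 hi).trans hzN
  have hle : (tU p M G P n' ρ n m κ).Le ((N : ℝ) ^ 3) := by
    refine ⟨?_, ?_, ?_, ?_, ?_, ?_, ?_⟩
    · exact (by exact_mod_cast hNW : (W0 p : ℝ) ≤ N).trans hNcube
    · exact (hn'le.trans (hzK _ (by omega))).trans hNcube
    · exact (hnr.trans (hzK _ (by omega))).trans hNcube
    · exact (hmz.trans ((by simpa using hzK 1 (by omega)) : z ≤ N)).trans hNcube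
    · exact (sizes hN3' hGN hMPN).1
    · exact (A2_le hP).trans (sizes hN3' hGN hMPN).2.1
    · show ((3000 * G : ℕ) : ℝ) ≤ (N : ℝ) ^ 3
      push_cast
      exact (sizes hN3' hGN hMPN).2.2
  have hmain := H (tU p M G P n' ρ n m κ) ((N : ℝ) ^ 3) z S Pr j ψ' hok hz2 (by
    calc z ^ (8 * 0 + 16) * ((∏ l ∈ S, l ^ j l : ℕ) : ℝ) ≤ z ^ (8 * 0 + 16) * z ^ 2 :=
          mul_le_mul_of_nonneg_left hQS (by positivity)
      _ = z ^ 18 := by ring
      _ ≤ N := hzK 18 (by omega)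
      _ ≤ _ := hNcube) hle hSc hPc
  -- rewrite the functions
  have hprodS : ∀ D D₂ : ℤ, ∏ l ∈ S, ψ' l D D₂ = ∏ l ∈ S, ψ l D D₂ := fun D D₂ =>
    prod_congr rfl fun l hl => by rw [hψS l hl]
  have hprodP : ∀ D D₂ : ℤ, ∏ l ∈ Pr, ψ' l D D₂ = ∏ l ∈ Pr, wgt l (s * M) G P Q bT bR D D₂ :=
    fun D D₂ => prod_congr rfl fun l hl => by rw [hψP l hl]
  have hmS : ∏ l ∈ S, lmj l (j l) n G (ψ' l) = ∏ l ∈ S, lmj l (j l) n G (ψ l) :=
    prod_congr rfl fun l hl => by rw [hψS l hl]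
  have hmP : ∏ l ∈ Pr, lm l n G (ψ' l) = ∏ l ∈ Pr, lm l 1 G (wgt l (s * M) G P Q bT bR) :=
    prod_congr rfl fun l hl => by
      obtain ⟨h1, h3, h5, h6⟩ := mem_filter.1 hl
      rw [hψP l hl]
      exact hb l n G _ (mem_PP.1 h1).2.1 (hnln l h3)
  simp only [hprodS, hprodP] at hmain
  change |(tU p M G P n' ρ n m κ).S (fun D D₂ => (∏ l ∈ S, ψ l D D₂) *
      ∏ l ∈ Pr, wgt l (s * M) G P Q bT bR D D₂) - (tU p M G P n' ρ n m κ).main *
        (∏ l ∈ S, lmj l (j l) n G (ψ' l)) * ∏ l ∈ Pr, lm l n G (ψ' l)| ≤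
      C₀ * Real.exp (-((0 : ℕ) : ℝ)) * ((tU p M G P n' ρ n m κ).main *
        (∏ l ∈ S, lmj l (j l) n G (ψ' l)) * ∏ l ∈ Pr, lm l n G (ψ' l)) + _ at hmain
  rw [hmS, hmP] at hmain
  set XS := ∏ l ∈ S, lmj l (j l) n G (ψ l) with hXS
  set XP := ∏ l ∈ Pr, lm l 1 G (wgt l (s * M) G P Q bT bR) with hXP
  have hXP0 : 0 ≤ XP := by
    rw [← hmP]
    refine prod_nonneg fun l hl => ?_
    rw [hψP l hl]
    have := (hmean l hl).2.2
    linarith
  have hXS0 : 0 ≤ XS := by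
    refine prod_nonneg fun l hl => ?_
    obtain ⟨h1, h3, h5, _, h6⟩ := hS l hl
    obtain ⟨hc1, _, _, hc4, _⟩ := hj l (j l) n G (mem_PP.1 h1).2.1 h5 (hnln l h3)
    have h7 := hc4 (fun _ _ => 0) (ψ l) fun d e => (h6.1 d e).1
    rwa [hc1 0] at h7
  have hup := (abs_le.1 hmain).2
  have hmn : (tU p M G P n' ρ n m κ).main * XS * XP ≤
      6000 * Real.pi * (G / ((W0 p : ℝ) ^ 2 * n' * n * (m : ℝ) ^ 2)) * XS * XP :=
    mul_le_mul_of_nonneg_right (mul_le_mul_of_nonneg_right (tU_main_le hM hP hG) hXS0) hXP0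
  have hexp : Real.exp (-((0 : ℕ) : ℝ)) = 1 := by simp
  rw [hexp, mul_one] at hup
  have hN3η : ((N : ℝ) ^ 3) ^ (p.ζ / 3) = z := by
    rw [← Real.rpow_natCast, ← Real.rpow_mul hN0.le, hz]
    unfold zz
    congr 1
    push_cast
    ring
  rw [hN3η] at hup
  -- the error term
  have herr' : C * z * z ^ (3 * (8 * 0 + 16) + 1) * ((∏ l ∈ S, l ^ j l : ℕ) : ℝ) ^ 2 *
      (tU p M G P n' ρ n m κ).err ≤ G / z ^ (20 * p.K + 20) := by
    have h1 := tU_err_le (p := p) (n' := n') (ρ := ρ) (n := n) (m := m) (κ := κ) hM hP hG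
    have h0 : 0 ≤ (tU p M G P n' ρ n m κ).err := by
      show 0 ≤ (W0 p : ℝ) * (((10 * M / P : ℕ) : ℝ) * Real.sqrt ((3000 * G : ℕ) : ℝ) +
        ((10 * M / P : ℕ) : ℝ) ^ 2 + LU M G P)
      have : 0 ≤ LU M G P := by unfold LU; positivity
      positivity
    have h3 : W0 p * (600 * ((M : ℝ) / P * Real.sqrt G + ((M : ℝ) / P) ^ 2 + G * P / M)) ≤
        z * (G / z ^ (100 * p.K + 200)) := by
      have h5 : (M : ℝ) / P * Real.sqrt G + ((M : ℝ) / P) ^ 2 + G * P / M ≤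
          G / z ^ (100 * p.K + 200) := by
        rw [le_div_iff₀ (by positivity), mul_comm]
        exact herr
      have h6 : 0 ≤ (M : ℝ) / P * Real.sqrt G + ((M : ℝ) / P) ^ 2 + G * P / M := by positivity
      calc _ = 600 * (W0 p : ℝ) * ((M : ℝ) / P * Real.sqrt G + ((M : ℝ) / P) ^ 2 + G * P / M) := by ring
        _ ≤ z * (G / z ^ (100 * p.K + 200)) := mul_le_mul (by linarith) h5 h6 hz0.le
    have h5 : ((∏ l ∈ S, l ^ j l : ℕ) : ℝ) ^ 2 ≤ (z ^ 2) ^ 2 := pow_le_pow_left₀ hQS0 hQS 2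
    have h6 : C ≤ z := by
      have : (0 : ℝ) ≤ W0 p := Nat.cast_nonneg _
      linarith
    calc C * z * z ^ (3 * (8 * 0 + 16) + 1) * ((∏ l ∈ S, l ^ j l : ℕ) : ℝ) ^ 2 *
          (tU p M G P n' ρ n m κ).err ≤ z * z * z ^ (3 * (8 * 0 + 16) + 1) * (z ^ 2) ^ 2 *
          (z * (G / z ^ (100 * p.K + 200))) := by
          refine mul_le_mul ?_ (h1.trans h3) h0 (by positivity)
          refine mul_le_mul ?_ h5 (by positivity) (by positivity)
          exact mul_le_mul_of_nonneg_right (mul_le_mul_of_nonneg_right h6 hz0.le) (by positivity)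
      _ = z ^ 56 * (G / z ^ (100 * p.K + 200)) := by ring
      _ ≤ G / z ^ (20 * p.K + 20) := by
          rw [← mul_div_assoc, div_le_div_iff₀ (by positivity) (by positivity)]
          have e : z ^ 56 * G * z ^ (20 * p.K + 20) = G * z ^ (20 * p.K + 76) := by ring
          rw [e]
          exact mul_le_mul_of_nonneg_left (pow_le_pow_right₀ hz1 (by omega)) hGr.le
  have hfin : (1 + C₀) * (6000 * Real.pi) * (G / ((W0 p : ℝ) ^ 2 * n' * n * (m : ℝ) ^ 2)) * XS * XP =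
      6000 * Real.pi * (G / ((W0 p : ℝ) ^ 2 * n' * n * (m : ℝ) ^ 2)) * XS * XP +
      C₀ * (6000 * Real.pi * (G / ((W0 p : ℝ) ^ 2 * n' * n * (m : ℝ) ^ 2)) * XS * XP) := by ring
  have hmn2 := mul_le_mul_of_nonneg_left hmn hC₀.le
  rw [hfin]
  exact (sub_le_iff_le_add.1 hup).trans
    (le_of_le_of_eq (add_le_add (add_le_add hmn2 herr') hmn) (by ring))

end

end Pool.Agent.Lib.MP391708.T1
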