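import Pool.Agent.Lib.MP_391708_nt.T1.SpecC
import Pool.Agent.Lib.MP_1446ad_nt.SM.DEC

/-!
# T1, group C, EQUID, first part: boxes
-/

set_option autoImplicit false

namespace Pool.Agent.Lib.MP391708.T1.Equ

open Finset Filter Topology
open Pool.Agent.Lib.MP391708.Eqd
open scoped Classical
open MP_1446ad_nt.SM (tau uu vv specDEC)

/-- the error term of BOXQ -/
noncomputable def ea (a q : ℕ) : ℝ :=
  4 * tau (a * q) * √(uu (a * q) : ℝ) * (vv (a * q) : ℝ) * q * tau a * (1 + Real.log a) ^ 2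

lemma one_le_tau {m : ℕ} (hm : 0 < m) : 1 ≤ tau m := by
  have h : 0 < m.divisors.card := Finset.card_pos.mpr ⟨1, by simp [hm.ne']⟩
  unfold tau
  exact_mod_cast h

lemma four_tau_le_ea {a q : ℕ} (ha : 0 < a) (hq : 0 < q) : 4 * tau a ≤ ea a q := by
  have hP : 0 < a * q := Nat.mul_pos ha hq
  obtain ⟨h1, -, -, -⟩ := specDEC (a * q) hP
  have hu : 0 < uu (a * q) := Nat.pos_of_ne_zero (by
    intro h; rw [h, zero_mul] at h1; omega)
  have hv : 0 < vv (a * q) := Nat.pos_of_ne_zero (by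
    intro h; rw [h, mul_zero] at h1; omega)
  have h2 : (1 : ℝ) ≤ √(uu (a * q) : ℝ) := by
    rw [Real.one_le_sqrt]; exact_mod_cast hu
  have h3 : (1 : ℝ) ≤ (vv (a * q) : ℝ) := by exact_mod_cast hv
  have h4 : (1 : ℝ) ≤ (q : ℝ) := by exact_mod_cast hq
  have h5 : (1 : ℝ) ≤ tau (a * q) := one_le_tau hP
  have h6 : (1 : ℝ) ≤ tau a := one_le_tau ha
  have h7 : (1 : ℝ) ≤ (1 + Real.log a) ^ 2 := by
    have : 0 ≤ Real.log a := Real.log_nonneg (by exact_mod_cast ha)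
    nlinarith
  have h8 : (1 : ℝ) ≤ tau (a * q) * √(uu (a * q) : ℝ) := one_le_mul_of_one_le_of_one_le h5 h2
  have h9 : (1 : ℝ) ≤ tau (a * q) * √(uu (a * q) : ℝ) * (vv (a * q) : ℝ) :=
    one_le_mul_of_one_le_of_one_le h8 h3
  have h10 : (1 : ℝ) ≤ tau (a * q) * √(uu (a * q) : ℝ) * (vv (a * q) : ℝ) * q :=
    one_le_mul_of_one_le_of_one_le h9 h4
  have h11 : (1 : ℝ) ≤ tau (a * q) * √(uu (a * q) : ℝ) * (vv (a * q) : ℝ) * q *
      (1 + Real.log a) ^ 2 := one_le_mul_of_one_le_of_one_le h10 h7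
  unfold ea
  nlinarith

lemma one_le_ea {a q : ℕ} (ha : 0 < a) (hq : 0 < q) : 4 ≤ ea a q := by
  have := four_tau_le_ea ha hq
  have := one_le_tau ha
  linarith

/-- `n ↦ 1 / n` -/
noncomputable def fi : ArithmeticFunction ℝ := ⟨fun n => if n = 0 then 0 else (1 : ℝ) / n, by simp⟩

lemma fi_apply {n : ℕ} (hn : n ≠ 0) : fi n = 1 / (n : ℝ) := by
  show (if n = 0 then 0 else (1 : ℝ) / n) = _
  rw [if_neg hn]

lemma fi_mult : fi.IsMultiplicative := by
  constructor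
  · rw [fi_apply one_ne_zero]; simp
  · intro m n hmn
    by_cases hm : m = 0
    · simp [hm]
    by_cases hn : n = 0
    · simp [hn]
    rw [fi_apply hm, fi_apply hn, fi_apply (mul_ne_zero hm hn)]
    push_cast
    field_simp

/-- `ra` is a product over the primes dividing `a` and not `q` -/
lemma ra_eq (a q : ℕ) (ha : 0 < a) :
    ra a q = ∏ p ∈ a.primeFactors.filter (fun p => p.Coprime q), (1 - (1 : ℝ) / p) := by
  set s := a.primeFactors.filter (fun p => p.Coprime q) with hs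
  have hs1 : ∀ p ∈ s, p.Prime := fun p hp => by
    rw [hs, mem_filter] at hp; exact Nat.prime_of_mem_primeFactors hp.1
  set b := ∏ p ∈ s, p with hb
  have hb0 : b ≠ 0 := Finset.prod_ne_zero_iff.mpr fun p hp => (hs1 p hp).ne_zero
  have hsq : Squarefree b := by
    rw [hb]; exact MP_1446ad_nt.SM.DECM.squarefree_prod_primes s hs1
  have hpf : b.primeFactors = s := Nat.primeFactors_prod hs1
  have h1 := fi_mult.prodPrimeFactors_one_sub_of_squarefree fi hsq
  rw [hpf] at h1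
  have h2 : ∏ p ∈ s, (1 - (1 : ℝ) / p) = ∏ p ∈ s, (1 - fi p) := by
    apply prod_congr rfl
    intro p hp
    rw [fi_apply (hs1 p hp).ne_zero]
  rw [h2, h1]
  unfold ra
  symm
  have h3 : b.divisors ⊆ a.divisors.filter (fun m => m.Coprime q) := by
    intro m hm
    rw [Nat.mem_divisors] at hm
    have hba : b ∣ a := by
      rw [hb]
      calc ∏ p ∈ s, p ∣ ∏ p ∈ a.primeFactors, p := by
            apply prod_dvd_prod_of_subset
            exact filter_subset _ _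
        _ ∣ a := Nat.prod_primeFactors_dvd a
    have hbq : Nat.Coprime b q := by
      rw [hb]
      apply Nat.Coprime.prod_left
      intro p hp
      rw [hs, mem_filter] at hp
      exact hp.2
    rw [mem_filter, Nat.mem_divisors]
    exact ⟨⟨hm.1.trans hba, ha.ne'⟩, Nat.Coprime.coprime_dvd_left hm.1 hbq⟩
  rw [← Finset.sum_subset h3]
  · apply sum_congr rfl
    intro m hm
    have : m ≠ 0 := (Nat.pos_of_mem_divisors hm).ne'
    rw [fi_apply this]
    ring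
  · intro m hm hm'
    rw [mem_filter, Nat.mem_divisors] at hm
    have hmu : ArithmeticFunction.moebius m = 0 := by
      apply ArithmeticFunction.moebius_eq_zero_of_not_squarefree
      intro hsqm
      apply hm'
      rw [Nat.mem_divisors]
      refine ⟨?_, hb0⟩
      rw [← Nat.prod_primeFactors_of_squarefree hsqm, hb]
      apply prod_dvd_prod_of_subset
      intro p hp
      rw [hs, mem_filter]
      refine ⟨Nat.primeFactors_mono hm.1.1 hm.1.2 hp, ?_⟩
      exact Nat.Coprime.coprime_dvd_left (Nat.dvd_of_mem_primeFactors hp) hm.2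
    simp [hmu]

lemma ra_nonneg {a : ℕ} (q : ℕ) (ha : 0 < a) : 0 ≤ ra a q := by
  rw [ra_eq a q ha]
  apply prod_nonneg
  intro p hp
  rw [mem_filter] at hp
  have : (1 : ℝ) ≤ p := by exact_mod_cast (Nat.prime_of_mem_primeFactors hp.1).one_le
  rw [sub_nonneg, div_le_one (by linarith)]
  exact this

lemma ra_le_one {a : ℕ} (q : ℕ) (ha : 0 < a) : ra a q ≤ 1 := by
  rw [ra_eq a q ha]
  apply prod_le_one
  · intro p hp
    rw [mem_filter] at hp
    have : (1 : ℝ) ≤ p := by exact_mod_cast (Nat.prime_of_mem_primeFactors hp.1).one_le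
    rw [sub_nonneg, div_le_one (by linarith)]
    exact this
  · intro p _
    have : (0 : ℝ) ≤ 1 / p := by positivity
    linarith

/-- arithmetic progressions in an interval -/
lemma ap (q : ℕ) (hq : 0 < q) (b0 A B : ℤ) : ∃ (β : ℤ) (W : ℕ), (q : ℤ) ∣ β - b0 ∧
    (∀ b : ℤ, (A < b ∧ b ≤ B ∧ (q : ℤ) ∣ b - b0) ↔ ∃ i : ℕ, i < W ∧ b = β + q * i) ∧
    (A ≤ B → |(W : ℝ) - ((B : ℝ) - A) / q| ≤ 1) ∧ (B ≤ A → W = 0) := by
  have hq' : (0 : ℤ) < q := by exact_mod_cast hq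
  set ρ := (b0 - A - 1) % (q : ℤ) with hρ
  have hρ0 : 0 ≤ ρ := Int.emod_nonneg _ hq'.ne'
  have hρ1 : ρ < q := Int.emod_lt_of_pos _ hq'
  set β := A + 1 + ρ with hβ
  have hdvd : (q : ℤ) ∣ β - b0 := by
    have h1 : (q : ℤ) ∣ (b0 - A - 1) - ρ := Int.dvd_self_sub_emod
    have h2 : β - b0 = -((b0 - A - 1) - ρ) := by rw [hβ]; ring
    rw [h2]; exact (dvd_neg).mpr h1
  set m := (B - β) / (q : ℤ) with hm
  have hm1 : m * q ≤ B - β := Int.ediv_mul_le _ hq'.ne'
  have hm2 : B - β < (m + 1) * q := Int.lt_ediv_add_one_mul_self _ hq'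
  refine ⟨β, (m + 1).toNat, hdvd, ?_, ?_, ?_⟩
  · intro b
    constructor
    · rintro ⟨h1, h2, h3⟩
      have h4 : (q : ℤ) ∣ b - β := by
        have : b - β = (b - b0) - (β - b0) := by ring
        rw [this]; exact dvd_sub h3 hdvd
      obtain ⟨i, hi⟩ := h4
      have h5 : -(q : ℤ) < b - β := by rw [hβ]; omega
      have h6 : 0 ≤ i := by
        by_contra h
        push Not at h
        have : (q : ℤ) * i ≤ q * (-1) := mul_le_mul_of_nonneg_left (by omega) hq'.le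
        linarith
      have h7 : i < m + 1 := by
        by_contra h
        push Not at h
        have : (m + 1) * q ≤ i * q := mul_le_mul_of_nonneg_right h hq'.le
        have : i * q = b - β := by rw [hi]; ring
        omega
      refine ⟨i.toNat, by omega, ?_⟩
      rw [Int.toNat_of_nonneg h6]
      linarith
    · rintro ⟨i, hi, rfl⟩
      have h1 : (i : ℤ) ≤ m := by omega
      have h2 : (i : ℤ) * q ≤ m * q := mul_le_mul_of_nonneg_right h1 hq'.le
      have h3 : (0 : ℤ) ≤ q * i := by positivity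
      refine ⟨by rw [hβ]; omega, ?_, ?_⟩
      · have : (q : ℤ) * i = i * q := by ring
        omega
      · have : β + q * i - b0 = (β - b0) + q * i := by ring
        rw [this]; exact dvd_add hdvd (Dvd.intro _ rfl)
  · intro hAB
    have h1 : 0 ≤ m + 1 := by
      by_contra h
      push Not at h
      have : (m + 1) * q ≤ (-1) * q := mul_le_mul_of_nonneg_right (by omega) hq'.le
      rw [hβ] at hm2
      omega
    have h2 : ((m + 1).toNat : ℝ) = (m : ℝ) + 1 := by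
      have : (((m + 1).toNat : ℤ) : ℝ) = ((m + 1 : ℤ) : ℝ) := by rw [Int.toNat_of_nonneg h1]
      push_cast at this
      exact_mod_cast this
    have hqR : (0 : ℝ) < q := by exact_mod_cast hq
    have h3 : ((m : ℝ) * q) ≤ (B : ℝ) - A - 1 - ρ := by
      have : ((m * q : ℤ) : ℝ) ≤ ((B - β : ℤ) : ℝ) := by exact_mod_cast hm1
      rw [hβ] at this
      push_cast at this
      linarith
    have h4 : (B : ℝ) - A - 1 - ρ < ((m : ℝ) + 1) * q := by
      have : ((B - β : ℤ) : ℝ) < (((m + 1) * q : ℤ) : ℝ) := by exact_mod_cast hm2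
      rw [hβ] at this
      push_cast at this
      linarith
    have h5 : (0 : ℝ) ≤ ρ := by exact_mod_cast hρ0
    have h6 : (ρ : ℝ) + 1 ≤ q := by exact_mod_cast hρ1
    rw [h2, abs_le]
    constructor
    · rw [neg_le_sub_iff_le_add, div_le_iff₀ hqR]
      nlinarith
    · rw [sub_le_iff_le_add, ← sub_le_iff_le_add', le_div_iff₀ hqR]
      nlinarith
  · intro hBA
    have h1 : m + 1 ≤ 0 := by
      by_contra h
      push Not at h
      have : 0 * (q : ℤ) ≤ m * q := mul_le_mul_of_nonneg_right (by omega) hq'.le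
      rw [hβ] at hm1
      omega
    omega

/-- the pairs `(b, c)` in a box, in residue classes modulo `q`, with `b c = 1 + a k0` modulo
`a q` -/
noncomputable def bx (a q : ℕ) (b0 c0 k0 : ℤ) (B₁ B₂ : ℝ) (C₁ C₂ : ℤ) : Finset (ℤ × ℤ) :=
  (Ioc ⌊B₁⌋ ⌊B₂⌋ ×ˢ Ioc C₁ C₂).filter (fun t => (q : ℤ) ∣ t.1 - b0 ∧ (q : ℤ) ∣ t.2 - c0 ∧
    ((a * q : ℕ) : ℤ) ∣ t.1 * t.2 - (1 + a * k0))

lemma card_bx_eq (a q : ℕ) (hq : 0 < q) (b0 c0 k0 : ℤ) (h : (q : ℤ) ∣ b0 * c0 - (1 + a * k0))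
    (B₁ B₂ : ℝ) (C₁ C₂ : ℤ) (hC : C₁ ≤ C₂) :
    ∃ (β γ : ℤ) (W L : ℕ), (q : ℤ) ∣ β * γ - (1 + a * k0) ∧
      (bx a q b0 c0 k0 B₁ B₂ C₁ C₂).card = cntQ a q β γ (1 + a * k0) W L ∧
      |(W : ℝ) - max 0 (B₂ - B₁) / q| ≤ 2 ∧ |(L : ℝ) - ((C₂ : ℝ) - C₁) / q| ≤ 1 := by
  have hq' : (0 : ℤ) < q := by exact_mod_cast hq
  have hqR : (1 : ℝ) ≤ q := by exact_mod_cast hq
  obtain ⟨β, W, hβ, hW, hW1, hW2⟩ := ap q hq b0 ⌊B₁⌋ ⌊B₂⌋
  obtain ⟨γ, L, hγ, hL, hL1, -⟩ := ap q hq c0 C₁ C₂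
  refine ⟨β, γ, W, L, ?_, ?_, ?_, hL1 hC⟩
  · obtain ⟨x, hx⟩ := hβ
    obtain ⟨y, hy⟩ := hγ
    have : β * γ - (1 + a * k0) = (b0 * c0 - (1 + a * k0)) + q * (x * γ + b0 * y) := by
      have h1 : β = b0 + q * x := by linarith
      have h2 : γ = c0 + q * y := by linarith
      rw [h1, h2]; ring
    rw [this]
    exact dvd_add h (Dvd.intro _ rfl)
  · unfold cntQ bx
    symm
    apply card_bij (fun t _ => (β + q * (t.1 : ℤ), γ + q * (t.2 : ℤ)))
    · intro t ht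
      rw [mem_filter, mem_product, mem_range, mem_range] at ht
      obtain ⟨⟨h1, h2⟩, h3⟩ := ht
      obtain ⟨g1, g2, g3⟩ := (hW (β + q * (t.1 : ℤ))).mpr ⟨t.1, h1, rfl⟩
      obtain ⟨e1, e2, e3⟩ := (hL (γ + q * (t.2 : ℤ))).mpr ⟨t.2, h2, rfl⟩
      rw [mem_filter, mem_product, mem_Ioc, mem_Ioc]
      exact ⟨⟨⟨g1, g2⟩, e1, e2⟩, g3, e3, h3⟩
    · intro t _ t' _ htt
      simp only [Prod.mk.injEq] at htt
      have e1 : (t.1 : ℤ) = t'.1 := by
        have : (q : ℤ) * t.1 = q * t'.1 := by linarith [htt.1]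
        exact mul_left_cancel₀ hq'.ne' this
      have e2 : (t.2 : ℤ) = t'.2 := by
        have : (q : ℤ) * t.2 = q * t'.2 := by linarith [htt.2]
        exact mul_left_cancel₀ hq'.ne' this
      ext
      · exact_mod_cast e1
      · exact_mod_cast e2
    · intro y hy
      rw [mem_filter, mem_product, mem_Ioc, mem_Ioc] at hy
      obtain ⟨⟨⟨g1, g2⟩, e1, e2⟩, g3, e3, h3⟩ := hy
      obtain ⟨i, hi, hi'⟩ := (hW y.1).mp ⟨g1, g2, g3⟩
      obtain ⟨j, hj, hj'⟩ := (hL y.2).mp ⟨e1, e2, e3⟩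
      refine ⟨(i, j), ?_, ?_⟩
      · rw [mem_filter, mem_product, mem_range, mem_range]
        refine ⟨⟨hi, hj⟩, ?_⟩
        simp only
        rw [← hi', ← hj']
        exact h3
      · simp only
        rw [← hi', ← hj']
  · rcases le_total B₁ B₂ with hB | hB
    · have h1 := hW1 (Int.floor_le_floor hB)
      rw [max_eq_right (by linarith)]
      have f1 := Int.floor_le B₁
      have f2 := Int.lt_floor_add_one B₁
      have f3 := Int.floor_le B₂
      have f4 := Int.lt_floor_add_one B₂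
      have h2 : |((⌊B₂⌋ : ℝ) - ⌊B₁⌋) / q - (B₂ - B₁) / q| ≤ 1 := by
        rw [← sub_div, abs_div, abs_of_pos (by linarith : (0 : ℝ) < q), div_le_one (by linarith)]
        have : |(⌊B₂⌋ : ℝ) - ⌊B₁⌋ - (B₂ - B₁)| ≤ 1 := by
          rw [abs_le]; constructor <;> linarith
        linarith
      calc |(W : ℝ) - (B₂ - B₁) / q| ≤ |(W : ℝ) - ((⌊B₂⌋ : ℝ) - ⌊B₁⌋) / q| +
            |((⌊B₂⌋ : ℝ) - ⌊B₁⌋) / q - (B₂ - B₁) / q| := abs_sub_le _ _ _
        _ ≤ 2 := by linarith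
    · rw [hW2 (Int.floor_le_floor hB), max_eq_left (by linarith)]
      simp

lemma card_bx (hB : SpecBoxQ) (a q : ℕ) (ha : 0 < a) (hq : 0 < q) (b0 c0 k0 : ℤ)
    (h : (q : ℤ) ∣ b0 * c0 - (1 + a * k0)) (B₁ B₂ : ℝ) (C₁ C₂ : ℤ) (hC : C₁ ≤ C₂) :
    |((bx a q b0 c0 k0 B₁ B₂ C₁ C₂).card : ℝ) -
      max 0 (B₂ - B₁) * ((C₂ : ℝ) - C₁) / (a * q ^ 2) * ra a q| ≤
      6 * ea a q * (1 + (max 0 (B₂ - B₁) + ((C₂ : ℝ) - C₁)) / a) := by
  obtain ⟨β, γ, W, L, h1, h2, h3, h4⟩ := card_bx_eq a q hq b0 c0 k0 h B₁ B₂ C₁ C₂ hC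
  have haR : (1 : ℝ) ≤ a := by exact_mod_cast ha
  have hqR : (1 : ℝ) ≤ q := by exact_mod_cast hq
  have ha0 : (0 : ℝ) < a := by linarith
  have hq0 : (0 : ℝ) < q := by linarith
  have hE := one_le_ea ha hq
  have hr0 := ra_nonneg q ha
  have hr1 := ra_le_one q ha
  set w := max 0 (B₂ - B₁) with hw
  set l := (C₂ : ℝ) - C₁ with hl
  have hw0 : 0 ≤ w := le_max_left _ _
  have hl0 : 0 ≤ l := by
    rw [hl]; have : (C₁ : ℝ) ≤ C₂ := by exact_mod_cast hC
    linarith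
  have hgcd : Int.gcd (1 + a * k0) a = 1 := by
    rw [← Int.isCoprime_iff_gcd_eq_one]
    exact ⟨1, -k0, by ring⟩
  have h5 := hB a q β γ (1 + a * k0) W L ha hq h1 hgcd
  rw [h2]
  have hwq : w / q ≤ w := div_le_self hw0 hqR
  have hlq : l / q ≤ l := div_le_self hl0 hqR
  have hwq0 : 0 ≤ w / q := by positivity
  have hlq0 : 0 ≤ l / q := by positivity
  have hW0 : (0 : ℝ) ≤ W := Nat.cast_nonneg _
  have hL0 : (0 : ℝ) ≤ L := Nat.cast_nonneg _
  rw [abs_le] at h3 h4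
  have h6 : |(W : ℝ) * L - w * l / q ^ 2| ≤ w + 2 * l + 2 := by
    have e : (W : ℝ) * L - w * l / q ^ 2 = W * (L - l / q) + l / q * (W - w / q) := by
      field_simp; ring
    rw [e]
    have e1 : |(W : ℝ) * (L - l / q)| ≤ W * 1 := by
      rw [abs_mul, abs_of_nonneg hW0]
      apply mul_le_mul_of_nonneg_left _ hW0
      rw [abs_le]; exact h4
    have e2 : |l / q * (W - w / q)| ≤ l / q * 2 := by
      rw [abs_mul, abs_of_nonneg hlq0]
      apply mul_le_mul_of_nonneg_left _ hlq0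
      rw [abs_le]; exact h3
    calc |(W : ℝ) * (L - l / q) + l / q * (W - w / q)| ≤ _ := abs_add_le _ _
      _ ≤ W * 1 + l / q * 2 := add_le_add e1 e2
      _ ≤ _ := by linarith
  have h7 : |(W : ℝ) * L / a * ra a q - w * l / (a * q ^ 2) * ra a q| ≤
      (w + 2 * l + 2) / a := by
    have e : (W : ℝ) * L / a * ra a q - w * l / (a * q ^ 2) * ra a q =
        ((W : ℝ) * L - w * l / q ^ 2) / a * ra a q := by
      field_simp
    rw [e, abs_mul, abs_div, abs_of_pos ha0, abs_of_nonneg hr0]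
    calc |(W : ℝ) * L - w * l / q ^ 2| / a * ra a q ≤ |(W : ℝ) * L - w * l / q ^ 2| / a * 1 := by
          apply mul_le_mul_of_nonneg_left hr1 (by positivity)
      _ ≤ _ := by
          rw [mul_one]
          gcongr
  have h8 : (1 + (W : ℝ) / a + (L : ℝ) / a) ≤ 4 + (w + l) / a := by
    have e1 : (W : ℝ) / a ≤ (w + 2) / a := by gcongr; linarith
    have e2 : (L : ℝ) / a ≤ (l + 1) / a := by gcongr; linarith
    have e3 : (w + 2) / a + (l + 1) / a = (w + l) / a + 3 / a := by ring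
    have e4 : 3 / (a : ℝ) ≤ 3 := div_le_self (by norm_num) haR
    linarith
  have h9 : (w + 2 * l + 2) / a ≤ 2 * ((w + l) / a) + 2 := by
    have e3 : (w + 2 * l + 2) / a ≤ (2 * (w + l) + 2) / a := by gcongr; linarith
    have e4 : (2 * (w + l) + 2) / (a : ℝ) = 2 * ((w + l) / a) + 2 / a := by ring
    have e5 : 2 / (a : ℝ) ≤ 2 := div_le_self (by norm_num) haR
    linarith
  have h10 : 0 ≤ (w + l) / a := by positivity
  have h11 : |(cntQ a q β γ (1 + a * k0) W L : ℝ) - (W : ℝ) * L / a * ra a q| ≤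
      ea a q * (4 + (w + l) / a) := by
    refine h5.trans ?_
    have : 4 * tau (a * q) * √(uu (a * q) : ℝ) * (vv (a * q) : ℝ) * q * tau a *
        (1 + Real.log a) ^ 2 = ea a q := rfl
    rw [this]
    exact mul_le_mul_of_nonneg_left h8 (by linarith)
  calc |(cntQ a q β γ (1 + a * k0) W L : ℝ) - w * l / (a * q ^ 2) * ra a q|
      ≤ |(cntQ a q β γ (1 + a * k0) W L : ℝ) - (W : ℝ) * L / a * ra a q| +
        |(W : ℝ) * L / a * ra a q - w * l / (a * q ^ 2) * ra a q| := abs_sub_le _ _ _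
    _ ≤ ea a q * (4 + (w + l) / a) + (2 * ((w + l) / a) + 2) := add_le_add h11 (h7.trans h9)
    _ ≤ _ := by nlinarith

end Pool.Agent.Lib.MP391708.T1.Equ
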