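import Pool.Agent.Lib.MP_391708_nt.T1.EquA

/-!
# T1, group C, EQUID, second part: pieces
-/

set_option autoImplicit false

namespace Pool.Agent.Lib.MP391708.T1.Equ

open Finset Filter Topology
open Pool.Agent.Lib.MP391708.Eqd
open scoped Classical

/-- end points of the interval for `b` -/
noncomputable def uu' (T : ℝ → ℝ) (a c : ℝ) : ℝ := (a * T (a ^ 2 + c ^ 2) + c) / (a ^ 2 + c ^ 2)

/-- relative length of the window -/
noncomputable def PP' (T₁ T₂ : ℝ → ℝ) (s : ℝ) : ℝ := max 0 (T₂ s - T₁ s) / s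

variable {L X Y : ℝ} {T₁ T₂ : ℝ → ℝ}

lemma PP'_nonneg {s : ℝ} (hs : 0 < s) : 0 ≤ PP' T₁ T₂ s := by
  unfold PP'; exact div_nonneg (le_max_left _ _) hs.le

lemma PP'_le (hL : 1 ≤ L) (hY : 1 ≤ Y) (hX : 0 ≤ X) (hB : Bd L X Y T₁ T₂) {s : ℝ} (hs : 0 < s) :
    PP' T₁ T₂ s ≤ L ^ 2 * X / Y := by
  unfold PP'
  rcases le_or_gt (T₂ s) (T₁ s) with h | h
  · rw [max_eq_left (by linarith)]
    simp only [zero_div]
    positivity
  · obtain ⟨h1, h2, h3, h4⟩ := hB.supp s h
    rw [max_eq_right (by linarith), div_le_div_iff₀ hs (by linarith)]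
    have h5 : Y ≤ L * s := by
      rw [div_le_iff₀ (by linarith)] at h1; linarith
    have h6 : (T₂ s - T₁ s) * Y ≤ (L * X) * Y := by
      apply mul_le_mul_of_nonneg_right _ (by linarith); linarith
    have h7 : (L * X) * Y ≤ (L * X) * (L * s) := by
      apply mul_le_mul_of_nonneg_left h5; positivity
    nlinarith

/-- `PP'` is Lipschitz -/
lemma PP'_lip (hL : 1 ≤ L) (hY : 1 ≤ Y) (hX : 0 ≤ X) (hB : Bd L X Y T₁ T₂) {s t : ℝ}
    (hs : 0 < s) (ht : 0 < t) :
    |PP' T₁ T₂ s - PP' T₁ T₂ t| ≤ 3 * L ^ 3 * X / Y ^ 2 * |s - t| := by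
  have hY0 : 0 < Y := by linarith
  have hL0 : 0 < L := by linarith
  set m : ℝ → ℝ := fun s => max 0 (T₂ s - T₁ s) with hm
  have hm0 : ∀ s, 0 ≤ m s := fun s => le_max_left _ _
  have hmz : ∀ s, s < Y / L → m s = 0 := by
    intro s hs
    by_contra h
    have h1 : T₁ s < T₂ s := by
      by_contra h2
      push Not at h2
      exact h (max_eq_left (by linarith))
    linarith [(hB.supp s h1).1]
  have hmb : ∀ s, m s ≤ L * X := by
    intro s
    rcases le_or_gt (T₂ s) (T₁ s) with h | h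
    · rw [hm]; simp only; rw [max_eq_left (by linarith)]; positivity
    · obtain ⟨h1, h2, h3, h4⟩ := hB.supp s h
      rw [hm]; simp only; rw [max_eq_right (by linarith)]; linarith
  have hml : ∀ s t, |m s - m t| ≤ 2 * L * (X / Y) * |s - t| := by
    intro s t
    have h1 : |m s - m t| ≤ |(T₂ s - T₁ s) - (T₂ t - T₁ t)| := by
      have := abs_max_sub_max_le_abs (T₂ s - T₁ s) (T₂ t - T₁ t) 0
      rw [hm]; simp only
      rw [max_comm 0 (T₂ s - T₁ s), max_comm 0 (T₂ t - T₁ t)]
      exact this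
    have h2 : (T₂ s - T₁ s) - (T₂ t - T₁ t) = (T₂ s - T₂ t) - (T₁ s - T₁ t) := by ring
    have h3 := abs_sub (T₂ s - T₂ t) (T₁ s - T₁ t)
    have h4 := hB.lip₁ s t
    have h5 := hB.lip₂ s t
    rw [h2] at h1
    linarith
  -- the main case
  have key : ∀ s t, 0 < s → 0 < t → Y / L ≤ t → |m s / s - m t / t| ≤
      3 * L ^ 3 * X / Y ^ 2 * |s - t| := by
    intro s t hs ht htL
    have h0 : 0 ≤ |s - t| := abs_nonneg _
    have hXY : 0 ≤ X / Y := by positivity
    have hXY2 : 0 ≤ X / Y ^ 2 := by positivity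
    have e1 : 1 / t ≤ L / Y := by
      rw [div_le_div_iff₀ ht hY0]
      rw [div_le_iff₀ hL0] at htL
      linarith
    rcases lt_or_ge s (Y / L) with h | h
    · rw [hmz s h, zero_div, zero_sub, abs_neg, abs_of_nonneg (div_nonneg (hm0 t) ht.le)]
      have h1 := hml s t
      rw [hmz s h, zero_sub, abs_neg, abs_of_nonneg (hm0 t)] at h1
      calc m t / t = m t * (1 / t) := by ring
        _ ≤ (2 * L * (X / Y) * |s - t|) * (L / Y) := by
          apply mul_le_mul h1 e1 (by positivity) (by positivity)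
        _ = 2 * L ^ 2 * X / Y ^ 2 * |s - t| := by field_simp
        _ ≤ _ := by
          apply mul_le_mul_of_nonneg_right _ h0
          apply div_le_div_of_nonneg_right _ (by positivity)
          apply mul_le_mul_of_nonneg_right _ hX
          nlinarith [pow_le_pow_right₀ hL (show 2 ≤ 3 by norm_num)]
    · have e2 : 1 / s ≤ L / Y := by
        rw [div_le_div_iff₀ hs hY0]
        rw [div_le_iff₀ hL0] at h
        linarith
      have h1 : m s / s - m t / t = (m s - m t) * (1 / s) + m t * (t - s) * ((1 / s) * (1 / t)) := by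
        field_simp; ring
      rw [h1]
      have h2 : |(m s - m t) * (1 / s)| ≤ (2 * L * (X / Y) * |s - t|) * (L / Y) := by
        rw [abs_mul, abs_of_pos (by positivity : (0 : ℝ) < 1 / s)]
        exact mul_le_mul (hml s t) e2 (by positivity) (by positivity)
      have h3 : |m t * (t - s) * ((1 / s) * (1 / t))| ≤ ((L * X) * |s - t|) * ((L / Y) * (L / Y)) := by
        rw [abs_mul, abs_mul, abs_of_nonneg (hm0 t), abs_of_pos (by positivity : (0 : ℝ) < (1 / s) * (1 / t)),
          abs_sub_comm t s]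
        apply mul_le_mul
        · exact mul_le_mul_of_nonneg_right (hmb t) h0
        · exact mul_le_mul e2 e1 (by positivity) (by positivity)
        · positivity
        · positivity
      calc _ ≤ _ := abs_add_le _ _
        _ ≤ (2 * L * (X / Y) * |s - t|) * (L / Y) + ((L * X) * |s - t|) * ((L / Y) * (L / Y)) :=
            add_le_add h2 h3
        _ = (2 * L ^ 2 + L ^ 3) * (X / Y ^ 2 * |s - t|) := by field_simp
        _ ≤ (3 * L ^ 3) * (X / Y ^ 2 * |s - t|) := by
            apply mul_le_mul_of_nonneg_right _ (by positivity)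
            nlinarith [pow_le_pow_right₀ hL (show 2 ≤ 3 by norm_num)]
        _ = _ := by ring
  show |m s / s - m t / t| ≤ _
  rcases lt_or_ge t (Y / L) with h | h
  · rcases lt_or_ge s (Y / L) with h' | h'
    · rw [hmz s h', hmz t h]
      simp only [zero_div, sub_self, abs_zero]
      positivity
    · rw [abs_sub_comm, abs_sub_comm s t]
      exact key t s ht hs h'
  · exact key s t hs ht h

/-- the end points vary little over a piece -/
lemma near {S : ℝ} (hL : 1 ≤ L) (hS : 1 ≤ S) (hX : S ^ 2 ≤ L * X) (hB : Bd L X (S ^ 2) T₁ T₂)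
    {a c c' cs H : ℝ} (ha : 1 ≤ a) (hH : 0 ≤ H) (hH2 : 6 * L ^ 2 * H ≤ S)
    (hs : T₁ (a ^ 2 + cs ^ 2) < T₂ (a ^ 2 + cs ^ 2)) (h1 : |c - cs| ≤ H) (h2 : |c' - cs| ≤ H)
    (h3 : |c - c'| ≤ H) {T : ℝ → ℝ} (hT : T = T₁ ∨ T = T₂) :
    |uu' T a c - uu' T a c'| ≤ a * (80 * L ^ 5 * X * H / S ^ 3) := by
  have hL0 : 0 < L := by linarith
  have hS0 : 0 < S := by linarith
  have hX0 : 0 ≤ X := by
    have : 0 ≤ L * X := le_trans (by positivity) hX
    exact nonneg_of_mul_nonneg_right this hL0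
  obtain ⟨g1, g2, g3, g4⟩ := hB.supp _ hs
  have hL2 : L ≤ L ^ 2 := by nlinarith
  have hcs : |cs| ≤ L * S := by
    apply abs_le_of_sq_le_sq _ (by positivity)
    nlinarith [sq_nonneg a, sq_nonneg S]
  have hHS : H ≤ S / 6 := by
    have : H ≤ L ^ 2 * H := by nlinarith
    linarith
  -- bounds for `c`, `d`
  have bd : ∀ c : ℝ, |c - cs| ≤ H → |c| ≤ 2 * L * S ∧ S ^ 2 / (2 * L) ≤ a ^ 2 + c ^ 2 ∧
      |(a ^ 2 + c ^ 2) - (a ^ 2 + cs ^ 2)| ≤ S ^ 2 / (2 * L) := by
    intro c hc
    have e1 : |c| ≤ L * S + H := by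
      calc |c| = |(c - cs) + cs| := by ring_nf
        _ ≤ |c - cs| + |cs| := abs_add_le _ _
        _ ≤ _ := by linarith
    have e2 : L * S + H ≤ (7 / 6) * L * S := by nlinarith
    have e3 : |(a ^ 2 + c ^ 2) - (a ^ 2 + cs ^ 2)| ≤ S ^ 2 / (2 * L) := by
      have : (a ^ 2 + c ^ 2) - (a ^ 2 + cs ^ 2) = (c - cs) * (c + cs) := by ring
      rw [this, abs_mul]
      have e4 : |c + cs| ≤ 3 * L * S := by
        calc |c + cs| ≤ |c| + |cs| := abs_add_le _ _
          _ ≤ _ := by nlinarith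
      have e5 : |c - cs| * |c + cs| ≤ H * (3 * L * S) :=
        mul_le_mul hc e4 (abs_nonneg _) hH
      have e6 : H * (3 * L * S) ≤ S ^ 2 / (2 * L) := by
        rw [le_div_iff₀ (by positivity)]
        nlinarith
      linarith
    refine ⟨by nlinarith, ?_, e3⟩
    rw [abs_le] at e3
    have e7 : S ^ 2 / L = S ^ 2 / (2 * L) + S ^ 2 / (2 * L) := by field_simp; ring
    linarith [e3.1]
  obtain ⟨b1, b2, b3⟩ := bd c h1
  obtain ⟨b1', b2', b3'⟩ := bd c' h2
  set d := a ^ 2 + c ^ 2 with hd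
  set d' := a ^ 2 + c' ^ 2 with hd'
  have hdp : 0 < S ^ 2 / (2 * L) := by positivity
  have hd0 : 0 < d := by linarith
  have hd0' : 0 < d' := by linarith
  have i1 : 1 / d ≤ 2 * L / S ^ 2 := by
    rw [div_le_div_iff₀ hd0 (by positivity)]
    rw [div_le_iff₀ (by positivity)] at b2
    linarith
  have i1' : 1 / d' ≤ 2 * L / S ^ 2 := by
    rw [div_le_div_iff₀ hd0' (by positivity)]
    rw [div_le_iff₀ (by positivity)] at b2'
    linarith
  -- difference of the `d`
  have dd : |d - d'| ≤ 4 * L * S * H := by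
    have : d - d' = (c - c') * (c + c') := by rw [hd, hd']; ring
    rw [this, abs_mul]
    have e4 : |c + c'| ≤ 4 * L * S := by
      calc |c + c'| ≤ |c| + |c'| := abs_add_le _ _
        _ ≤ _ := by linarith
    calc |c - c'| * |c + c'| ≤ H * (4 * L * S) := mul_le_mul h3 e4 (abs_nonneg _) hH
      _ = _ := by ring
  -- Lipschitz and size
  have lipT : ∀ s t, |T s - T t| ≤ L * (X / S ^ 2) * |s - t| := by
    rcases hT with h | h
    · rw [h]; exact hB.lip₁
    · rw [h]; exact hB.lip₂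
  have szT : |T d'| ≤ 2 * L * X := by
    have e1 : |T (a ^ 2 + cs ^ 2)| ≤ L * X := by
      rcases hT with h | h
      · rw [h, abs_of_nonneg g3]; linarith
      · rw [h, abs_of_nonneg (by linarith)]; exact g4
    have e2 := lipT d' (a ^ 2 + cs ^ 2)
    have e3 : L * (X / S ^ 2) * |d' - (a ^ 2 + cs ^ 2)| ≤ L * (X / S ^ 2) * (S ^ 2 / (2 * L)) :=
      mul_le_mul_of_nonneg_left b3' (by positivity)
    have e4 : L * (X / S ^ 2) * (S ^ 2 / (2 * L)) = X / 2 := by field_simp
    have e5 : |T d'| ≤ |T d' - T (a ^ 2 + cs ^ 2)| + |T (a ^ 2 + cs ^ 2)| := by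
      calc |T d'| = |(T d' - T (a ^ 2 + cs ^ 2)) + T (a ^ 2 + cs ^ 2)| := by ring_nf
        _ ≤ _ := abs_add_le _ _
    nlinarith
  -- combine
  have e0 : uu' T a c - uu' T a c' = (a * (T d - T d') + (c - c')) * (1 / d) +
      (a * T d' + c') * (d' - d) * ((1 / d) * (1 / d')) := by
    unfold uu'
    rw [← hd, ← hd']
    field_simp
    ring
  rw [e0]
  have a0 : 0 < a := by linarith
  have hdd : 0 ≤ 4 * L * S * H := by positivity
  have f1 : |(a * (T d - T d') + (c - c')) * (1 / d)| ≤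
      (a * (L * (X / S ^ 2) * (4 * L * S * H)) + H) * (2 * L / S ^ 2) := by
    rw [abs_mul, abs_of_pos (by positivity : (0 : ℝ) < 1 / d)]
    apply mul_le_mul _ i1 (by positivity) (by positivity)
    calc |a * (T d - T d') + (c - c')| ≤ |a * (T d - T d')| + |c - c'| := abs_add_le _ _
      _ ≤ a * (L * (X / S ^ 2) * (4 * L * S * H)) + H := by
        apply add_le_add _ h3
        rw [abs_mul, abs_of_pos a0]
        apply mul_le_mul_of_nonneg_left _ a0.le
        exact (lipT d d').trans (mul_le_mul_of_nonneg_left dd (by positivity))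
  have f2 : |(a * T d' + c') * (d' - d) * ((1 / d) * (1 / d'))| ≤
      ((a * (2 * L * X) + 2 * L * S) * (4 * L * S * H)) * ((2 * L / S ^ 2) * (2 * L / S ^ 2)) := by
    rw [abs_mul, abs_mul, abs_of_pos (by positivity : (0 : ℝ) < (1 / d) * (1 / d')),
      abs_sub_comm d' d]
    apply mul_le_mul _ (mul_le_mul i1 i1' (by positivity) (by positivity)) (by positivity)
      (by positivity)
    apply mul_le_mul _ dd (abs_nonneg _) (by positivity)
    calc |a * T d' + c'| ≤ |a * T d'| + |c'| := abs_add_le _ _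
      _ ≤ _ := by
        apply add_le_add _ b1'
        rw [abs_mul, abs_of_pos a0]
        exact mul_le_mul_of_nonneg_left szT a0.le
  refine (abs_add_le _ _).trans ((add_le_add f1 f2).trans ?_)
  have g : (a * (L * (X / S ^ 2) * (4 * L * S * H)) + H) * (2 * L / S ^ 2) +
      ((a * (2 * L * X) + 2 * L * S) * (4 * L * S * H)) * ((2 * L / S ^ 2) * (2 * L / S ^ 2)) =
      (8 * L ^ 3 + 32 * L ^ 4) * (a * X * H / S ^ 3) + (2 * L + 32 * L ^ 4) * (S * H / S ^ 3) := by
    field_simp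
    ring
  rw [g]
  have k1 : S * H / S ^ 3 ≤ L * (a * X * H / S ^ 3) := by
    have : S ≤ L * X := by nlinarith
    have : S ≤ L * (a * X) := by
      have : L * X ≤ L * (a * X) := by
        apply mul_le_mul_of_nonneg_left _ hL0.le
        nlinarith
      linarith
    rw [← mul_div_assoc]
    apply div_le_div_of_nonneg_right _ (by positivity)
    calc S * H ≤ L * (a * X) * H := mul_le_mul_of_nonneg_right this hH
      _ = _ := by ring
  have k2 : 0 ≤ a * X * H / S ^ 3 := by positivity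
  have k3 : L ^ 3 ≤ L ^ 5 := pow_le_pow_right₀ hL (by norm_num)
  have k4 : L ^ 4 ≤ L ^ 5 := pow_le_pow_right₀ hL (by norm_num)
  have k5 : L ^ 2 ≤ L ^ 5 := pow_le_pow_right₀ hL (by norm_num)
  have k6 : 0 ≤ 2 * L + 32 * L ^ 4 := by positivity
  calc _ ≤ (8 * L ^ 3 + 32 * L ^ 4) * (a * X * H / S ^ 3) +
        (2 * L + 32 * L ^ 4) * (L * (a * X * H / S ^ 3)) := by
          linarith [mul_le_mul_of_nonneg_left k1 k6]
    _ = (8 * L ^ 3 + 32 * L ^ 4 + 2 * L ^ 2 + 32 * L ^ 5) * (a * X * H / S ^ 3) := by ring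
    _ ≤ (80 * L ^ 5) * (a * X * H / S ^ 3) := by
        apply mul_le_mul_of_nonneg_right _ k2
        linarith
    _ = _ := by ring

end Pool.Agent.Lib.MP391708.T1.Equ
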