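import Pool.Agent.Lib.MP_391708_nt.T1.EquB

/-!
# T1, group C, EQUID, third part: counting in pieces
-/

set_option autoImplicit false

namespace Pool.Agent.Lib.MP391708.T1.Equ

open Finset Filter Topology
open Pool.Agent.Lib.MP391708.Eqd
open scoped Classical

variable {L X Y : ℝ} {T₁ T₂ : ℝ → ℝ}

/-- residue classes -/
abbrev RC (q : ℕ) : Type := (ZMod q × ZMod q) × (ZMod q × ZMod q)

/-- all unimodular pairs in the region and in a residue class -/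
noncomputable def cl (M : ℕ) (T₁ T₂ : ℝ → ℝ) (q : ℕ) (r : RC q) : Finset (V × V) :=
  (pairs 1 M).filter (fun x => Reg T₁ T₂ x ∧ res q x = r)

/-- pieces -/
noncomputable def pc (M : ℕ) (T₁ T₂ : ℝ → ℝ) (q : ℕ) (r : RC q) (a C₁ C₂ : ℤ) : Finset (V × V) :=
  (cl M T₁ T₂ q r).filter (fun x => x.1.1 = a ∧ C₁ < x.1.2 ∧ x.1.2 ≤ C₂)

lemma mem_cl {M : ℕ} {q : ℕ} {r : RC q} {x : V × V} :
    x ∈ cl M T₁ T₂ q r ↔ x ∈ pairs 1 M ∧ Reg T₁ T₂ x ∧ res q x = r := by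
  unfold cl; rw [mem_filter]

lemma mem_pc {M : ℕ} {q : ℕ} {r : RC q} {a C₁ C₂ : ℤ} {x : V × V} :
    x ∈ pc M T₁ T₂ q r a C₁ C₂ ↔ (x ∈ pairs 1 M ∧ Reg T₁ T₂ x ∧ res q x = r) ∧
      x.1.1 = a ∧ C₁ < x.1.2 ∧ x.1.2 ≤ C₂ := by
  unfold pc; rw [mem_filter, mem_cl]

lemma cross_of_mem {M : ℕ} {x : V × V} (h : x ∈ pairs 1 M) : cross x.1 x.2 = -1 := by
  have := (mem_pairs.mp h).2
  simpa using this

lemma reg_iff {a : ℕ} (ha : 0 < a) {x : V × V} (hx : x.1.1 = a) (h : cross x.1 x.2 = -1) :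
    Reg T₁ T₂ x ↔ uu' T₁ a x.1.2 < x.2.1 ∧ (x.2.1 : ℝ) ≤ uu' T₂ a x.1.2 := by
  obtain ⟨⟨a', c⟩, ⟨b, k⟩⟩ := x
  simp only at hx
  subst hx
  simp only [cross] at h
  have haR : (0 : ℝ) < a := by exact_mod_cast ha
  have hR : (a : ℝ) * k - c * b = -1 := by exact_mod_cast h
  have hd : 0 < (a : ℝ) ^ 2 + (c : ℝ) ^ 2 := by positivity
  have e1 : (nsq ((a : ℤ), c) : ℝ) = (a : ℝ) ^ 2 + (c : ℝ) ^ 2 := by
    simp only [nsq]; push_cast; rfl
  have e2 : (a : ℝ) * (dot ((a : ℤ), c) (b, k) : ℝ) = b * ((a : ℝ) ^ 2 + (c : ℝ) ^ 2) - c := by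
    simp only [dot]; push_cast
    linear_combination (c : ℝ) * hR
  unfold Reg uu'
  simp only
  rw [e1, div_lt_iff₀ hd, le_div_iff₀ hd]
  constructor
  · rintro ⟨h1, h2⟩
    have h3 := mul_lt_mul_of_pos_left h1 haR
    have h4 := mul_le_mul_of_nonneg_left h2 haR.le
    constructor <;> linarith
  · rintro ⟨h1, h2⟩
    constructor
    · refine lt_of_mul_lt_mul_left (a := (a : ℝ)) ?_ haR.le
      linarith
    · refine le_of_mul_le_mul_left (a := (a : ℝ)) ?_ haR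
      linarith

/-- the class of `((a, c0), (b0, k0))` -/
def rr (q : ℕ) (a c0 b0 k0 : ℤ) : RC q :=
  (((a : ZMod q), (c0 : ZMod q)), ((b0 : ZMod q), (k0 : ZMod q)))

lemma res_iff {q : ℕ} {a c0 b0 k0 : ℤ} {x : V × V} (hx : x.1.1 = a) :
    res q x = rr q a c0 b0 k0 ↔ (q : ℤ) ∣ x.1.2 - c0 ∧ (q : ℤ) ∣ x.2.1 - b0 ∧
      (q : ℤ) ∣ x.2.2 - k0 := by
  have key : ∀ s t : ℤ, (s : ZMod q) = (t : ZMod q) ↔ (q : ℤ) ∣ s - t := by
    intro s t
    rw [eq_comm, ZMod.intCast_eq_intCast_iff_dvd_sub]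
  unfold res rr
  simp only [Prod.mk.injEq, hx, true_and, key]

lemma pc_le {M : ℕ} {q : ℕ} {a : ℕ} (ha : 0 < a) (b0 c0 k0 : ℤ) {C₁ C₂ : ℤ} {B₁ B₂ : ℝ}
    (hu : ∀ c : ℤ, C₁ < c → c ≤ C₂ → B₁ ≤ uu' T₁ a c ∧ uu' T₂ a c ≤ B₂) :
    (pc M T₁ T₂ q (rr q a c0 b0 k0) a C₁ C₂).card ≤ (bx a q b0 c0 k0 B₁ B₂ C₁ C₂).card := by
  have haZ : (a : ℤ) ≠ 0 := by exact_mod_cast ha.ne'
  apply card_le_card_of_injOn (fun x : V × V => (x.2.1, x.1.2))
  · intro x hx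
    rw [mem_coe, mem_pc] at hx
    obtain ⟨⟨h1, h2, h3⟩, h4, h5, h6⟩ := hx
    have hc := cross_of_mem h1
    rw [reg_iff ha h4 hc] at h2
    rw [res_iff h4] at h3
    obtain ⟨g1, g2⟩ := hu _ h5 h6
    obtain ⟨f1, f2, f3⟩ := h3
    rw [mem_coe]
    unfold bx
    rw [mem_filter, mem_product, mem_Ioc, mem_Ioc]
    refine ⟨⟨⟨?_, ?_⟩, h5, h6⟩, f2, f1, ?_⟩
    · rw [Int.floor_lt]; linarith [h2.1]
    · rw [Int.le_floor]; linarith [h2.2]
    · simp only [cross] at hc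
      rw [h4] at hc
      have e : x.2.1 * x.1.2 - (1 + a * k0) = a * (x.2.2 - k0) := by linarith
      simp only
      rw [e]
      push_cast
      exact mul_dvd_mul_left _ f3
  · intro x hx y hy hxy
    rw [mem_coe, mem_pc] at hx hy
    have h1 := cross_of_mem hx.1.1
    have h2 := cross_of_mem hy.1.1
    have h3 := hx.2.1
    have h4 := hy.2.1
    simp only [Prod.mk.injEq] at hxy
    simp only [cross] at h1 h2
    rw [h3] at h1
    rw [h4, ← hxy.1, ← hxy.2] at h2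
    have h5 : (a : ℤ) * x.2.2 = a * y.2.2 := by linarith
    have h6 := mul_left_cancel₀ haZ h5
    ext
    · rw [h3, h4]
    · exact hxy.2
    · exact hxy.1
    · exact h6

lemma le_pc {M : ℕ} (hM : ∀ x : V × V, cross x.1 x.2 = -1 → Reg T₁ T₂ x → x ∈ pairs 1 M)
    {q : ℕ} {a : ℕ} (ha : 0 < a) (b0 c0 k0 : ℤ)
    {C₁ C₂ : ℤ} {B₁ B₂ : ℝ}
    (hu : ∀ c : ℤ, C₁ < c → c ≤ C₂ → uu' T₁ a c ≤ B₁ ∧ B₂ ≤ uu' T₂ a c) :
    (bx a q b0 c0 k0 B₁ B₂ C₁ C₂).card ≤ (pc M T₁ T₂ q (rr q a c0 b0 k0) a C₁ C₂).card := by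
  have haZ : (a : ℤ) ≠ 0 := by exact_mod_cast ha.ne'
  apply card_le_card_of_injOn (fun t : ℤ × ℤ => (((a : ℤ), t.2), (t.1, (t.1 * t.2 - 1) / a)))
  · intro t ht
    rw [mem_coe] at ht
    unfold bx at ht
    rw [mem_filter, mem_product, mem_Ioc, mem_Ioc] at ht
    obtain ⟨⟨⟨h1, h2⟩, h5, h6⟩, f2, f1, f3⟩ := ht
    push_cast at f3
    obtain ⟨z, hz⟩ := f3
    have e1 : t.1 * t.2 - 1 = a * (k0 + q * z) := by linarith
    have e2 : (t.1 * t.2 - 1) / a = k0 + q * z := by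
      rw [e1]; exact Int.mul_ediv_cancel_left _ haZ
    have hc : cross ((a : ℤ), t.2) (t.1, (t.1 * t.2 - 1) / a) = -1 := by
      simp only [cross]; rw [e2]; linarith
    obtain ⟨g1, g2⟩ := hu _ h5 h6
    have hr : Reg T₁ T₂ (((a : ℤ), t.2), (t.1, (t.1 * t.2 - 1) / a)) := by
      rw [reg_iff ha rfl hc]
      rw [Int.floor_lt] at h1
      rw [Int.le_floor] at h2
      exact ⟨by simp only; linarith, by simp only; linarith⟩
    rw [mem_coe, mem_pc]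
    refine ⟨⟨hM _ hc hr, hr, ?_⟩, rfl, h5, h6⟩
    rw [res_iff rfl]
    refine ⟨f1, f2, ?_⟩
    simp only
    rw [e2]
    exact ⟨z, by ring⟩
  · intro t _ t' _ htt
    simp only [Prod.mk.injEq] at htt
    ext
    · exact htt.2.1
    · exact htt.1.2

/-- size of `cross`, end points -/
lemma piece (hbox : SpecBoxQ) {S : ℝ} (hL : 1 ≤ L) (hS : 1 ≤ S) (hX : S ^ 2 ≤ L * X)
    (hB : Bd L X (S ^ 2) T₁ T₂) {M : ℕ}
    (hM : ∀ x : V × V, cross x.1 x.2 = -1 → Reg T₁ T₂ x → x ∈ pairs 1 M)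
    (a q H : ℕ) (ha : 0 < a) (hq : 0 < q) (hH : 0 < H) (hH2 : 6 * L ^ 2 * H ≤ S) (b0 c0 k0 : ℤ)
    (h : (q : ℤ) ∣ b0 * c0 - (1 + a * k0)) (n : ℤ) {R : ℝ} (hR : R = 80 * L ^ 5 * X * H / S ^ 3) :
    |((pc M T₁ T₂ q (rr q a c0 b0 k0) a (n * H) ((n + 1) * H)).card : ℝ) -
      PP' T₁ T₂ ((a : ℝ) ^ 2 + ((n : ℝ) * H) ^ 2) * H * (ra a q / (q : ℝ) ^ 2)| ≤
      2 * R * H + 6 * ea a q * (1 + L ^ 2 * X / S ^ 2 + 2 * R + H / a) := by
  have hL0 : 0 < L := by linarith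
  have hS0 : 0 < S := by linarith
  have hX0 : 0 ≤ X := by
    have : 0 ≤ L * X := le_trans (by positivity) hX
    exact nonneg_of_mul_nonneg_right this hL0
  have haR : (1 : ℝ) ≤ a := by exact_mod_cast ha
  have ha0 : (0 : ℝ) < a := by linarith
  have hqR : (1 : ℝ) ≤ q := by exact_mod_cast hq
  have hHR : (1 : ℝ) ≤ H := by exact_mod_cast hH
  have hR0 : 0 ≤ R := by rw [hR]; positivity
  have hE := one_le_ea ha hq
  have hr0 := ra_nonneg q ha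
  have hr1 := ra_le_one q ha
  set dn : ℝ := (a : ℝ) ^ 2 + ((n : ℝ) * H) ^ 2 with hdn
  have hdn0 : 0 < dn := by positivity
  set P := PP' T₁ T₂ dn with hP
  have hP0 : 0 ≤ P := PP'_nonneg hdn0
  have hP1 : P ≤ L ^ 2 * X / S ^ 2 := PP'_le hL (by nlinarith) hX0 hB hdn0
  have hrq : ra a q / (q : ℝ) ^ 2 ≤ 1 := by
    rw [div_le_one (by positivity)]
    nlinarith
  have hrq0 : 0 ≤ ra a q / (q : ℝ) ^ 2 := by positivity
  have hHa : 0 ≤ (H : ℝ) / a := by positivity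
  have hbig : 0 ≤ L ^ 2 * X / S ^ 2 := by positivity
  by_cases good : ∃ c : ℤ, n * H ≤ c ∧ c ≤ (n + 1) * H ∧
      T₁ ((a : ℝ) ^ 2 + (c : ℝ) ^ 2) < T₂ ((a : ℝ) ^ 2 + (c : ℝ) ^ 2)
  swap
  · -- nothing in this piece
    have e1 : pc M T₁ T₂ q (rr q a c0 b0 k0) a (n * H) ((n + 1) * H) = ∅ := by
      apply Finset.eq_empty_of_forall_notMem
      intro x hx
      rw [mem_pc] at hx
      apply good
      refine ⟨x.1.2, hx.2.2.1.le, hx.2.2.2, ?_⟩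
      have h1 := hx.1.2.1
      unfold Reg at h1
      have e : (nsq x.1 : ℝ) = (a : ℝ) ^ 2 + (x.1.2 : ℝ) ^ 2 := by
        simp only [nsq]; rw [hx.2.1]; push_cast; rfl
      rw [e] at h1
      linarith
    have e2 : P = 0 := by
      rw [hP]
      unfold PP'
      have : ¬ (T₁ dn < T₂ dn) := by
        intro h1
        apply good
        refine ⟨n * H, le_rfl, ?_, ?_⟩
        · have : (0 : ℤ) ≤ H := Int.natCast_nonneg _
          nlinarith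
        · push_cast; exact h1
      push Not at this
      rw [max_eq_left (by linarith), zero_div]
    rw [e1, e2]
    simp only [card_empty, Nat.cast_zero, zero_mul, sub_zero, abs_zero]
    positivity
  obtain ⟨cs, hs1, hs2, hs3⟩ := good
  have hHZ : (0 : ℤ) < H := by exact_mod_cast hH
  have hs1R : (n : ℝ) * H ≤ cs := by exact_mod_cast hs1
  have hs2R : (cs : ℝ) ≤ ((n : ℝ) + 1) * H := by exact_mod_cast hs2
  have hnear : ∀ c : ℤ, n * H < c → c ≤ (n + 1) * H → ∀ T : ℝ → ℝ, T = T₁ ∨ T = T₂ →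
      |uu' T a c - uu' T a ((n : ℝ) * H)| ≤ a * R := by
    intro c hc1 hc2 T hT
    have hc1R : (n : ℝ) * H < c := by exact_mod_cast hc1
    have hc2R : (c : ℝ) ≤ ((n : ℝ) + 1) * H := by exact_mod_cast hc2
    rw [hR]
    apply near hL hS hX hB haR (by positivity) hH2 hs3 _ _ _ hT
    · rw [abs_le]; constructor <;> nlinarith
    · rw [abs_le]; constructor <;> nlinarith
    · rw [abs_le]; constructor <;> nlinarith
  set U₁ := uu' T₁ a ((n : ℝ) * H) with hU₁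
  set U₂ := uu' T₂ a ((n : ℝ) * H) with hU₂
  have hΔ : max 0 (U₂ - U₁) = a * P := by
    have e1 : U₂ - U₁ = (T₂ dn - T₁ dn) * (a / dn) := by
      rw [hU₁, hU₂]
      unfold uu'
      rw [← hdn]
      field_simp
      ring
    rw [e1, hP]
    unfold PP'
    have e2 : max 0 ((T₂ dn - T₁ dn) * ((a : ℝ) / dn)) = max 0 (T₂ dn - T₁ dn) * (a / dn) := by
      rw [max_mul_of_nonneg _ _ (by positivity : (0 : ℝ) ≤ a / dn), zero_mul]
    rw [e2]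
    ring
  have hC : n * H ≤ (n + 1) * H := by nlinarith
  have hCC : ((((n + 1) * H : ℤ)) : ℝ) - ((n * H : ℤ) : ℝ) = H := by push_cast; ring
  -- upper bound
  have up := pc_le (M := M) (q := q) (T₁ := T₁) (T₂ := T₂) ha b0 c0 k0 (C₁ := n * H)
    (C₂ := (n + 1) * H) (B₁ := U₁ - a * R) (B₂ := U₂ + a * R) (by
      intro c hc1 hc2
      have h1 := hnear c hc1 hc2 T₁ (Or.inl rfl)
      have h2 := hnear c hc1 hc2 T₂ (Or.inr rfl)
      rw [abs_le] at h1 h2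
      constructor
      · linarith [h1.1]
      · linarith [h2.2])
  have lo := le_pc hM (q := q) ha b0 c0 k0 (C₁ := n * H)
    (C₂ := (n + 1) * H) (B₁ := U₁ + a * R) (B₂ := U₂ - a * R) (by
      intro c hc1 hc2
      have h1 := hnear c hc1 hc2 T₁ (Or.inl rfl)
      have h2 := hnear c hc1 hc2 T₂ (Or.inr rfl)
      rw [abs_le] at h1 h2
      constructor
      · linarith [h1.2]
      · linarith [h2.1])
  have bu := card_bx hbox a q ha hq b0 c0 k0 h (U₁ - a * R) (U₂ + a * R) (n * H) ((n + 1) * H) hC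
  have bl := card_bx hbox a q ha hq b0 c0 k0 h (U₁ + a * R) (U₂ - a * R) (n * H) ((n + 1) * H) hC
  rw [hCC] at bu bl
  set m₁ := max 0 (U₂ + a * R - (U₁ - a * R)) with hm₁
  set m₂ := max 0 (U₂ - a * R - (U₁ + a * R)) with hm₂
  have haR0 : 0 ≤ a * R := by positivity
  have hm₁0 : 0 ≤ m₁ := le_max_left _ _
  have hm₂0 : 0 ≤ m₂ := le_max_left _ _
  have hm₁le : m₁ ≤ a * P + 2 * (a * R) := by
    rw [hm₁]
    apply max_le
    · positivity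
    · have := le_max_right 0 (U₂ - U₁)
      linarith
  have hm₂le : m₂ ≤ a * P := by
    rw [hm₂]
    apply max_le
    · positivity
    · have := le_max_right 0 (U₂ - U₁)
      linarith
  have hm₂ge : a * P - 2 * (a * R) ≤ m₂ := by
    rw [← hΔ]
    rcases max_cases 0 (U₂ - U₁) with ⟨h1, -⟩ | ⟨h1, -⟩
    · rw [h1]; linarith
    · rw [h1]
      have := le_max_right 0 (U₂ - a * R - (U₁ + a * R))
      linarith
  have w₁ : m₁ / a ≤ P + 2 * R := by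
    rw [div_le_iff₀ ha0]; linarith
  have w₂ : m₂ / a ≤ P := by
    rw [div_le_iff₀ ha0]; linarith
  have w₃ : P - 2 * R ≤ m₂ / a := by
    rw [le_div_iff₀ ha0]; linarith
  have e₁ : m₁ * H / (a * (q : ℝ) ^ 2) * ra a q = (m₁ / a) * H * (ra a q / (q : ℝ) ^ 2) := by
    field_simp
  have e₂ : m₂ * H / (a * (q : ℝ) ^ 2) * ra a q = (m₂ / a) * H * (ra a q / (q : ℝ) ^ 2) := by
    field_simp
  rw [e₁] at bu
  rw [e₂] at bl
  rw [abs_le] at bu bl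
  have upR : ((pc M T₁ T₂ q (rr q a c0 b0 k0) a (n * H) ((n + 1) * H)).card : ℝ) ≤
      ((bx a q b0 c0 k0 (U₁ - a * R) (U₂ + a * R) (n * H) ((n + 1) * H)).card : ℝ) := by
    exact_mod_cast up
  have loR : ((bx a q b0 c0 k0 (U₁ + a * R) (U₂ - a * R) (n * H) ((n + 1) * H)).card : ℝ) ≤
      ((pc M T₁ T₂ q (rr q a c0 b0 k0) a (n * H) ((n + 1) * H)).card : ℝ) := by
    exact_mod_cast lo
  have eu : 6 * ea a q * (1 + (m₁ + H) / a) ≤
      6 * ea a q * (1 + L ^ 2 * X / S ^ 2 + 2 * R + H / a) := by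
    apply mul_le_mul_of_nonneg_left _ (by linarith)
    rw [add_div]; linarith
  have el : 6 * ea a q * (1 + (m₂ + H) / a) ≤
      6 * ea a q * (1 + L ^ 2 * X / S ^ 2 + 2 * R + H / a) := by
    apply mul_le_mul_of_nonneg_left _ (by linarith)
    rw [add_div]; linarith
  have f1 : (m₁ / a) * H * (ra a q / (q : ℝ) ^ 2) ≤ P * H * (ra a q / (q : ℝ) ^ 2) + 2 * R * H := by
    have g1 : (m₁ / a) * H * (ra a q / (q : ℝ) ^ 2) ≤ (P + 2 * R) * H * (ra a q / (q : ℝ) ^ 2) := by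
      gcongr
    have g2 : 2 * R * H * (ra a q / (q : ℝ) ^ 2) ≤ 2 * R * H * 1 := by gcongr
    nlinarith
  have f2 : P * H * (ra a q / (q : ℝ) ^ 2) - 2 * R * H ≤ (m₂ / a) * H * (ra a q / (q : ℝ) ^ 2) := by
    have g1 : (P - 2 * R) * H * (ra a q / (q : ℝ) ^ 2) ≤ (m₂ / a) * H * (ra a q / (q : ℝ) ^ 2) := by
      gcongr
    have g2 : 2 * R * H * (ra a q / (q : ℝ) ^ 2) ≤ 2 * R * H * 1 := by gcongr
    nlinarith
  rw [abs_le]
  constructor
  · linarith [bl.1]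
  · linarith [bu.2]

/-- the main term for one `a` -/
noncomputable def gg (T₁ T₂ : ℝ → ℝ) (H n0 : ℕ) (a : ℝ) : ℝ :=
  ∑ n ∈ Ico (-(n0 : ℤ)) n0, PP' T₁ T₂ (a ^ 2 + ((n : ℝ) * H) ^ 2) * H

lemma perA (hbox : SpecBoxQ) {S : ℝ} (hL : 1 ≤ L) (hS : 1 ≤ S) (hX : S ^ 2 ≤ L * X)
    (hB : Bd L X (S ^ 2) T₁ T₂) {M : ℕ}
    (hM : ∀ x : V × V, cross x.1 x.2 = -1 → Reg T₁ T₂ x → x ∈ pairs 1 M)
    (a q H n0 : ℕ) (ha : 0 < a) (hq : 0 < q) (hH : 0 < H) (hH2 : 6 * L ^ 2 * H ≤ S)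
    (hn0 : L * S < n0 * H) (b0 c0 k0 : ℤ)
    (h : (q : ℤ) ∣ b0 * c0 - (1 + a * k0)) {R : ℝ} (hR : R = 80 * L ^ 5 * X * H / S ^ 3) :
    |(((cl M T₁ T₂ q (rr q a c0 b0 k0)).filter (fun x => x.1.1 = (a : ℤ))).card : ℝ) -
      gg T₁ T₂ H n0 a * (ra a q / (q : ℝ) ^ 2)| ≤
      2 * n0 * (2 * R * H + 6 * ea a q * (1 + L ^ 2 * X / S ^ 2 + 2 * R + H / a)) := by
  have hHZ : (0 : ℤ) < H := by exact_mod_cast hH
  have hmaps : ∀ x ∈ (cl M T₁ T₂ q (rr q a c0 b0 k0)).filter (fun x => x.1.1 = (a : ℤ)),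
      (x.1.2 - 1) / (H : ℤ) ∈ Ico (-(n0 : ℤ)) n0 := by
    intro x hx
    rw [mem_filter, mem_cl] at hx
    obtain ⟨⟨h1, h2, h3⟩, h4⟩ := hx
    obtain ⟨g1, g2⟩ := h2
    obtain ⟨-, g4, -, -⟩ := hB.supp _ (lt_of_lt_of_le g1 g2)
    have h5 : |(x.1.2 : ℝ)| ≤ L * S := by
      apply abs_le_of_sq_le_sq _ (by positivity)
      have : (nsq x.1 : ℝ) = (x.1.1 : ℝ) ^ 2 + (x.1.2 : ℝ) ^ 2 := by
        simp only [nsq]; push_cast; rfl
      rw [this] at g4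
      have : L ≤ L ^ 2 := by nlinarith
      nlinarith [sq_nonneg (x.1.1 : ℝ), sq_nonneg S]
    have h6 : |(x.1.2 : ℝ)| < ((n0 * H : ℤ) : ℝ) := by push_cast; linarith
    have h7 : |x.1.2| < n0 * H := by
      have : ((|x.1.2| : ℤ) : ℝ) < ((n0 * H : ℤ) : ℝ) := by push_cast at h6 ⊢; exact h6
      exact_mod_cast this
    rw [abs_lt] at h7
    rw [mem_Ico]
    constructor
    · rw [Int.le_ediv_iff_mul_le hHZ]; linarith [h7.1]
    · rw [Int.ediv_lt_iff_lt_mul hHZ]; linarith [h7.2]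
  rw [card_eq_sum_card_fiberwise hmaps]
  have hfib : ∀ n ∈ Ico (-(n0 : ℤ)) n0,
      (((cl M T₁ T₂ q (rr q a c0 b0 k0)).filter (fun x => x.1.1 = (a : ℤ))).filter
        (fun x => (x.1.2 - 1) / (H : ℤ) = n)) = pc M T₁ T₂ q (rr q a c0 b0 k0) a (n * H) ((n + 1) * H) := by
    intro n _
    ext x
    rw [mem_filter, mem_filter, pc, mem_filter, and_assoc]
    have : ((x.1.2 - 1) / (H : ℤ) = n) ↔ (n * H < x.1.2 ∧ x.1.2 ≤ (n + 1) * H) := by
      rw [Int.ediv_eq_iff_of_pos hHZ]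
      constructor
      · rintro ⟨h1, h2⟩
        constructor <;> nlinarith
      · rintro ⟨h1, h2⟩
        constructor <;> nlinarith
    rw [this]
  rw [sum_congr rfl (fun n hn => by rw [hfib n hn])]
  push_cast
  unfold gg
  rw [sum_mul, ← sum_sub_distrib]
  refine (abs_sum_le_sum_abs _ _).trans ?_
  calc _ ≤ ∑ n ∈ Ico (-(n0 : ℤ)) n0,
        (2 * R * H + 6 * ea a q * (1 + L ^ 2 * X / S ^ 2 + 2 * R + H / a)) := by
        apply sum_le_sum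
        intro n _
        exact piece hbox hL hS hX hB hM a q H ha hq hH hH2 b0 c0 k0 h n hR
    _ = _ := by
        rw [sum_const, Int.card_Ico, nsmul_eq_mul]
        have : ((n0 : ℤ) - -(n0 : ℤ)).toNat = 2 * n0 := by omega
        rw [this]
        push_cast
        ring

end Pool.Agent.Lib.MP391708.T1.Equ
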