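import Pool.Agent.Lib.MP_391708_nt.T1.EquC

/-!
# T1, group C, EQUID, fourth part: summation over the first coordinate
-/

set_option autoImplicit false

namespace Pool.Agent.Lib.MP391708.T1.Equ

open Finset Filter Topology
open Pool.Agent.Lib.MP391708.Eqd
open scoped Classical

variable {L X Y : ℝ} {T₁ T₂ : ℝ → ℝ}

/-- Abel summation with MEANQ -/
lemma abel (hmean : SpecMeanQ) {q : ℕ} (hq : 0 < q) (r : ℤ) (A : ℕ) (hA : 0 < A) (g : ℕ → ℝ)
    {G D : ℝ} (hD0 : 0 ≤ D) (hG : |g A| ≤ G)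
    (hD : ∀ a : ℕ, 1 ≤ a → a < A → |g (a + 1) - g a| ≤ D) :
    |∑ a ∈ (Icc 1 A).filter (fun a : ℕ => (q : ℤ) ∣ (a : ℤ) - r), ra a q * g a -
      zq q / q * ∑ a ∈ Icc 1 A, g a| ≤ 4 * (1 + Real.log A) * (G + A * D) := by
  set e : ℕ → ℝ := fun t =>
    ∑ a ∈ (Icc 1 t).filter (fun a : ℕ => (q : ℤ) ∣ (a : ℤ) - r), ra a q - zq q / q * t with he
  have he0 : e 0 = 0 := by rw [he]; simp
  have hkey : ∀ t : ℕ, ∑ a ∈ (Icc 1 t).filter (fun a : ℕ => (q : ℤ) ∣ (a : ℤ) - r), ra a q * g a -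
      zq q / q * ∑ a ∈ Icc 1 t, g a = e t * g t - ∑ a ∈ range t, e a * (g (a + 1) - g a) := by
    intro t
    induction t with
    | zero => rw [he0]; simp
    | succ t ih =>
      have h1 : Icc 1 (t + 1) = insert (t + 1) (Icc 1 t) := by
        ext x; simp only [mem_Icc, mem_insert]; omega
      have h2 : t + 1 ∉ Icc 1 t := by simp
      have h3 : e (t + 1) = e t + ((if (q : ℤ) ∣ ((t + 1 : ℕ) : ℤ) - r then ra (t + 1) q else 0) -
          zq q / q) := by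
        rw [he]; simp only
        rw [h1, sum_filter, sum_insert h2, ← sum_filter]
        push_cast
        ring
      rw [sum_filter] at ih ⊢
      rw [h1, sum_insert h2, sum_insert h2, sum_range_succ, h3]
      have h4 : (if (q : ℤ) ∣ ((t + 1 : ℕ) : ℤ) - r then ra (t + 1) q * g (t + 1) else 0) =
          (if (q : ℤ) ∣ ((t + 1 : ℕ) : ℤ) - r then ra (t + 1) q else 0) * g (t + 1) := by
        split_ifs <;> ring
      rw [h4]
      linear_combination ih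
  rw [hkey A]
  have hlog : ∀ a : ℕ, a ≤ A → Real.log a ≤ Real.log A := by
    intro a ha
    rcases Nat.eq_zero_or_pos a with h | h
    · rw [h, Nat.cast_zero, Real.log_zero]
      exact Real.log_nonneg (by exact_mod_cast hA)
    · exact Real.log_le_log (by exact_mod_cast h) (by exact_mod_cast ha)
  have hb : ∀ a : ℕ, a ≤ A → |e a| ≤ 4 * (1 + Real.log A) := by
    intro a ha
    have h1 := hmean q hq r a
    have h2 := hlog a ha
    rw [he]
    linarith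
  have hl0 : 0 ≤ Real.log A := Real.log_nonneg (by exact_mod_cast hA)
  have f1 : |e A * g A| ≤ 4 * (1 + Real.log A) * G := by
    rw [abs_mul]
    exact mul_le_mul (hb A le_rfl) hG (abs_nonneg _) (by positivity)
  have f2 : |∑ a ∈ range A, e a * (g (a + 1) - g a)| ≤ 4 * (1 + Real.log A) * (A * D) := by
    refine (abs_sum_le_sum_abs _ _).trans ?_
    calc ∑ a ∈ range A, |e a * (g (a + 1) - g a)| ≤ ∑ a ∈ range A, 4 * (1 + Real.log A) * D := by
          apply sum_le_sum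
          intro a ha
          rw [mem_range] at ha
          rcases Nat.eq_zero_or_pos a with h | h
          · rw [h, he0, zero_mul, abs_zero]; positivity
          · rw [abs_mul]
            exact mul_le_mul (hb a ha.le) (hD a h ha) (abs_nonneg _) (by positivity)
      _ = _ := by rw [sum_const, card_range, nsmul_eq_mul]; ring
  calc |e A * g A - ∑ a ∈ range A, e a * (g (a + 1) - g a)| ≤ |e A * g A| +
        |∑ a ∈ range A, e a * (g (a + 1) - g a)| := abs_sub _ _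
    _ ≤ _ := by linarith

lemma gg_nonneg {H n0 : ℕ} {a : ℝ} (ha : 0 < a) : 0 ≤ gg T₁ T₂ H n0 a := by
  unfold gg
  apply sum_nonneg
  intro n _
  exact mul_nonneg (PP'_nonneg (by positivity)) (Nat.cast_nonneg _)

lemma card_n0 (n0 : ℕ) : ((Ico (-(n0 : ℤ)) n0).card : ℝ) = 2 * n0 := by
  rw [Int.card_Ico]
  have : ((n0 : ℤ) - -(n0 : ℤ)).toNat = 2 * n0 := by omega
  rw [this]
  push_cast
  ring

lemma gg_le (hL : 1 ≤ L) (hY : 1 ≤ Y) (hX : 0 ≤ X) (hB : Bd L X Y T₁ T₂) {H n0 : ℕ} {a : ℝ}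
    (ha : 0 < a) : gg T₁ T₂ H n0 a ≤ 2 * n0 * (L ^ 2 * X / Y * H) := by
  unfold gg
  calc _ ≤ ∑ n ∈ Ico (-(n0 : ℤ)) n0, L ^ 2 * X / Y * H := by
        apply sum_le_sum
        intro n _
        apply mul_le_mul_of_nonneg_right _ (Nat.cast_nonneg _)
        exact PP'_le hL hY hX hB (by positivity)
    _ = _ := by rw [sum_const, nsmul_eq_mul, card_n0]

lemma gg_lip (hL : 1 ≤ L) (hY : 1 ≤ Y) (hX : 0 ≤ X) (hB : Bd L X Y T₁ T₂) {H n0 : ℕ} {a : ℝ}
    (ha : 0 < a) : |gg T₁ T₂ H n0 (a + 1) - gg T₁ T₂ H n0 a| ≤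
      2 * n0 * (3 * L ^ 3 * X / Y ^ 2 * (2 * a + 1) * H) := by
  unfold gg
  rw [← sum_sub_distrib]
  refine (abs_sum_le_sum_abs _ _).trans ?_
  calc _ ≤ ∑ n ∈ Ico (-(n0 : ℤ)) n0, 3 * L ^ 3 * X / Y ^ 2 * (2 * a + 1) * H := by
        apply sum_le_sum
        intro n _
        rw [← sub_mul, abs_mul, abs_of_nonneg (Nat.cast_nonneg H : (0 : ℝ) ≤ H)]
        apply mul_le_mul_of_nonneg_right _ (Nat.cast_nonneg _)
        have h1 := PP'_lip hL hY hX hB (s := (a + 1) ^ 2 + ((n : ℝ) * H) ^ 2)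
          (t := a ^ 2 + ((n : ℝ) * H) ^ 2) (by positivity) (by positivity)
        have h2 : (a + 1) ^ 2 + ((n : ℝ) * H) ^ 2 - (a ^ 2 + ((n : ℝ) * H) ^ 2) = 2 * a + 1 := by
          ring
        rw [h2, abs_of_pos (by linarith : 0 < 2 * a + 1)] at h1
        exact h1
    _ = _ := by rw [sum_const, nsmul_eq_mul, card_n0]

lemma nsq_cast (v : V) : (nsq v : ℝ) = (v.1 : ℝ) ^ 2 + (v.2 : ℝ) ^ 2 := by
  simp only [nsq]; push_cast; rfl

/-- the vectors in the region are short -/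
lemma short {S : ℝ} (hL : 1 ≤ L) (hS : 1 ≤ S) (hB : Bd L X (S ^ 2) T₁ T₂) {x : V × V}
    (h : Reg T₁ T₂ x) : |(x.1.1 : ℝ)| ≤ L * S ∧ |(x.1.2 : ℝ)| ≤ L * S := by
  obtain ⟨g1, g2⟩ := h
  obtain ⟨-, g4, -, -⟩ := hB.supp _ (lt_of_lt_of_le g1 g2)
  rw [nsq_cast] at g4
  have : L ≤ L ^ 2 := by nlinarith
  have h3 : L * S ^ 2 ≤ (L * S) ^ 2 := by nlinarith [sq_nonneg S]
  constructor
  · apply abs_le_of_sq_le_sq _ (by positivity)
    nlinarith [sq_nonneg (x.1.2 : ℝ)]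
  · apply abs_le_of_sq_le_sq _ (by positivity)
    nlinarith [sq_nonneg (x.1.1 : ℝ)]

/-- error for one `a` -/
noncomputable def er (q H n0 : ℕ) (L X S R : ℝ) (a : ℕ) : ℝ :=
  2 * n0 * (2 * R * H + 6 * ea a q * (1 + L ^ 2 * X / S ^ 2 + 2 * R + H / a))

/-- the part with positive first coordinate -/
lemma pos_part (hbox : SpecBoxQ) {S : ℝ} (hL : 1 ≤ L) (hS : 1 ≤ S) (hX : S ^ 2 ≤ L * X)
    (hB : Bd L X (S ^ 2) T₁ T₂) {M : ℕ}
    (hM : ∀ x : V × V, cross x.1 x.2 = -1 → Reg T₁ T₂ x → x ∈ pairs 1 M)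
    (q H n0 A : ℕ) (hq : 0 < q) (hH : 0 < H) (hH2 : 6 * L ^ 2 * H ≤ S)
    (hn0 : L * S < n0 * H) (hA : L * S < A + 1) (a0 c0 b0 k0 : ℤ)
    (h : (q : ℤ) ∣ b0 * c0 - (1 + a0 * k0)) {R : ℝ} (hR : R = 80 * L ^ 5 * X * H / S ^ 3) :
    |(((cl M T₁ T₂ q (rr q a0 c0 b0 k0)).filter (fun x => 0 < x.1.1)).card : ℝ) -
      (∑ a ∈ (Icc 1 A).filter (fun a : ℕ => (q : ℤ) ∣ (a : ℤ) - a0),
        ra a q * gg T₁ T₂ H n0 a) / (q : ℝ) ^ 2| ≤
      ∑ a ∈ Icc 1 A, er q H n0 L X S R a := by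
  have hL0 : 0 < L := by linarith
  have hS0 : 0 < S := by linarith
  have hX0 : 0 ≤ X := by
    have : 0 ≤ L * X := le_trans (by positivity) hX
    exact nonneg_of_mul_nonneg_right this hL0
  have hR0 : 0 ≤ R := by rw [hR]; positivity
  have hmaps : ∀ x ∈ (cl M T₁ T₂ q (rr q a0 c0 b0 k0)).filter (fun x => 0 < x.1.1),
      x.1.1.toNat ∈ Icc 1 A := by
    intro x hx
    rw [mem_filter, mem_cl] at hx
    obtain ⟨⟨h1, h2, h3⟩, h4⟩ := hx
    have h5 := (short hL hS hB h2).1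
    rw [mem_Icc]
    refine ⟨by omega, ?_⟩
    have h6 : (x.1.1 : ℝ) < ((A + 1 : ℤ) : ℝ) := by
      push_cast
      linarith [le_abs_self (x.1.1 : ℝ)]
    have h7 : x.1.1 < (A + 1 : ℤ) := by exact_mod_cast h6
    omega
  rw [card_eq_sum_card_fiberwise hmaps, sum_filter, sum_div]
  push_cast
  rw [← sum_sub_distrib]
  refine (abs_sum_le_sum_abs _ _).trans ?_
  apply sum_le_sum
  intro a ha
  rw [mem_Icc] at ha
  have ha0 : 0 < a := ha.1
  have hfib : ((cl M T₁ T₂ q (rr q a0 c0 b0 k0)).filter (fun x => 0 < x.1.1)).filter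
      (fun x => x.1.1.toNat = a) =
      (cl M T₁ T₂ q (rr q a0 c0 b0 k0)).filter (fun x => x.1.1 = (a : ℤ)) := by
    ext x
    rw [mem_filter, mem_filter, mem_filter, and_assoc]
    have : (0 < x.1.1 ∧ x.1.1.toNat = a) ↔ x.1.1 = (a : ℤ) := by omega
    rw [this]
  rw [hfib]
  by_cases hd : (q : ℤ) ∣ (a : ℤ) - a0
  · rw [if_pos hd]
    have hrr : rr q a0 c0 b0 k0 = rr q a c0 b0 k0 := by
      unfold rr
      have : ((a0 : ℤ) : ZMod q) = ((a : ℤ) : ZMod q) := by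
        rw [ZMod.intCast_eq_intCast_iff_dvd_sub]; exact hd
      rw [this]
    rw [hrr]
    have h' : (q : ℤ) ∣ b0 * c0 - (1 + a * k0) := by
      have : b0 * c0 - (1 + a * k0) = (b0 * c0 - (1 + a0 * k0)) - (a - a0) * k0 := by ring
      rw [this]
      exact dvd_sub h (hd.mul_right k0)
    have := perA hbox hL hS hX hB hM a q H n0 ha0 hq hH hH2 hn0 b0 c0 k0 h' hR
    have e : ra a q * gg T₁ T₂ H n0 a / (q : ℝ) ^ 2 = gg T₁ T₂ H n0 a * (ra a q / (q : ℝ) ^ 2) := by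
      ring
    rw [e]
    exact this
  · rw [if_neg hd]
    have hemp : (cl M T₁ T₂ q (rr q a0 c0 b0 k0)).filter (fun x => x.1.1 = (a : ℤ)) = ∅ := by
      apply Finset.eq_empty_of_forall_notMem
      intro x hx
      rw [mem_filter, mem_cl] at hx
      apply hd
      have h1 := hx.1.2.2
      unfold res rr at h1
      simp only [Prod.mk.injEq, hx.2] at h1
      have h2 := h1.1.1
      rw [eq_comm, ZMod.intCast_eq_intCast_iff_dvd_sub] at h2
      exact h2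
    rw [hemp]
    simp only [card_empty, Nat.cast_zero, zero_div, sub_zero, abs_zero]
    unfold er
    have := one_le_ea ha0 hq
    have : 0 ≤ ea a q := by linarith
    positivity

/-- negation of pairs -/
def neg (x : V × V) : V × V := ((-x.1.1, -x.1.2), (-x.2.1, -x.2.2))

lemma neg_neg' (x : V × V) : neg (neg x) = x := by
  unfold neg; simp

lemma cross_neg (x : V × V) : cross (neg x).1 (neg x).2 = cross x.1 x.2 := by
  simp only [cross, neg]; ring

lemma dot_neg (x : V × V) : dot (neg x).1 (neg x).2 = dot x.1 x.2 := by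
  simp only [dot, neg]; ring

lemma nsq_neg (x : V × V) : nsq (neg x).1 = nsq x.1 := by
  simp only [nsq, neg]; ring

lemma reg_neg (x : V × V) : Reg T₁ T₂ (neg x) ↔ Reg T₁ T₂ x := by
  unfold Reg
  rw [dot_neg, nsq_neg]

lemma neg_mem_pairs {M : ℕ} {x : V × V} (h : x ∈ pairs 1 M) : neg x ∈ pairs 1 M := by
  rw [mem_pairs, mem_box, mem_box] at h ⊢
  rw [cross_neg]
  refine ⟨⟨?_, ?_⟩, h.2⟩
  · simp only [neg, abs_neg]; exact h.1.1
  · simp only [neg, abs_neg]; exact h.1.2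

lemma neg_part {M q : ℕ} {r : RC q} :
    ((cl M T₁ T₂ q r).filter (fun x => x.1.1 < 0)).card =
      ((cl M T₁ T₂ q (-r)).filter (fun x => 0 < x.1.1)).card := by
  have hres : ∀ x : V × V, res q (neg x) = - res q x := by
    intro x
    unfold res neg
    simp
  apply card_bij (fun x _ => neg x)
  · intro x hx
    rw [mem_filter, mem_cl] at hx ⊢
    obtain ⟨⟨h1, h2, h3⟩, h4⟩ := hx
    refine ⟨⟨neg_mem_pairs h1, (reg_neg x).mpr h2, by rw [hres, h3]⟩, ?_⟩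
    simp only [neg]; omega
  · intro x _ y _ hxy
    rw [← neg_neg' x, ← neg_neg' y, hxy]
  · intro y hy
    rw [mem_filter, mem_cl] at hy
    obtain ⟨⟨h1, h2, h3⟩, h4⟩ := hy
    refine ⟨neg y, ?_, neg_neg' y⟩
    rw [mem_filter, mem_cl]
    refine ⟨⟨neg_mem_pairs h1, (reg_neg y).mpr h2, by rw [hres, h3, neg_neg]⟩, ?_⟩
    simp only [neg]; omega

lemma zero_part {M q : ℕ} {r : RC q} (hL : 1 ≤ L) (hY : L < Y) (hB : Bd L X Y T₁ T₂) :
    (cl M T₁ T₂ q r).filter (fun x => x.1.1 = 0) = ∅ := by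
  apply Finset.eq_empty_of_forall_notMem
  intro x hx
  rw [mem_filter, mem_cl] at hx
  obtain ⟨⟨h1, h2, h3⟩, h4⟩ := hx
  have hc := cross_of_mem h1
  simp only [cross, h4, zero_mul, zero_sub] at hc
  have h5 : x.1.2 * x.2.1 = 1 := by linarith
  have h6 : x.1.2 ^ 2 = 1 := by
    rcases Int.eq_one_or_neg_one_of_mul_eq_one h5 with h | h <;> rw [h] <;> norm_num
  obtain ⟨g1, g2⟩ := h2
  obtain ⟨g3, -, -, -⟩ := hB.supp _ (lt_of_lt_of_le g1 g2)
  have e : (nsq x.1 : ℝ) = 1 := by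
    have : nsq x.1 = 1 := by simp only [nsq, h4, h6]; norm_num
    rw [this]; norm_num
  rw [e, div_le_iff₀ (by linarith)] at g3
  linarith

lemma card_split {M q : ℕ} {r : RC q} (hL : 1 ≤ L) (hY : L < Y) (hB : Bd L X Y T₁ T₂) :
    (cl M T₁ T₂ q r).card = ((cl M T₁ T₂ q r).filter (fun x => 0 < x.1.1)).card +
      ((cl M T₁ T₂ q (-r)).filter (fun x => 0 < x.1.1)).card := by
  have h0 := zero_part (M := M) (q := q) (r := r) hL hY hB
  rw [← neg_part]
  rw [← card_union_of_disjoint]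
  · congr 1
    ext x
    rw [mem_union, mem_filter, mem_filter]
    constructor
    · intro hx
      rcases lt_trichotomy x.1.1 0 with h | h | h
      · exact Or.inr ⟨hx, h⟩
      · exfalso
        have : x ∈ (cl M T₁ T₂ q r).filter (fun x => x.1.1 = 0) := mem_filter.mpr ⟨hx, h⟩
        rw [h0] at this
        exact absurd this (Finset.notMem_empty x)
      · exact Or.inl ⟨hx, h⟩
    · rintro (h | h)
      · exact h.1
      · exact h.1
  · rw [disjoint_filter]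
    intro x _ h1 h2
    omega

/-- the region lies in the box -/
lemma reg_mem (hL : 1 ≤ L) (hY : 1 ≤ Y) (hX : Y ≤ L * X) (hB : Bd L X Y T₁ T₂) {M : ℕ}
    (hM : L ^ 4 * (X + 1) ^ 2 ≤ M) (x : V × V) (hc : cross x.1 x.2 = -1) (hr : Reg T₁ T₂ x) :
    x ∈ pairs 1 M := by
  have hL0 : 0 < L := by linarith
  have hX0 : 0 < X := by
    have : 0 < L * X := by linarith
    exact pos_of_mul_pos_right this hL0.le
  obtain ⟨g1, g2⟩ := hr
  obtain ⟨g3, g4, g5, g6⟩ := hB.supp _ (lt_of_lt_of_le g1 g2)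
  have hpos := nsq_pos_of_cross (J := 1) one_pos (x := x) (by rw [hc]; rfl)
  have h1 : (1 : ℝ) ≤ nsq x.1 := by exact_mod_cast hpos.1
  have h2 : (0 : ℝ) < nsq x.2 := by exact_mod_cast hpos.2
  have h3 : (nsq x.1 : ℝ) * nsq x.2 = (dot x.1 x.2 : ℝ) ^ 2 + 1 := by
    have := nsq_mul x.1 x.2
    rw [hc] at this
    have h' : ((nsq x.1 * nsq x.2 : ℤ) : ℝ) = ((dot x.1 x.2 ^ 2 + (-1) ^ 2 : ℤ) : ℝ) := by rw [this]
    push_cast at h'
    linarith
  have h4 : (nsq x.2 : ℝ) ≤ (L * X) ^ 2 + 1 := by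
    have e1 : (nsq x.2 : ℝ) ≤ nsq x.1 * nsq x.2 := by nlinarith
    have e2 : (dot x.1 x.2 : ℝ) ^ 2 ≤ (L * X) ^ 2 := by
      apply pow_le_pow_left₀ (by linarith)
      linarith
    linarith
  have hL2 : L ≤ L ^ 2 := by nlinarith
  have hL4 : L ^ 2 ≤ L ^ 4 := by nlinarith
  have h5 : (L * X) ^ 2 + 1 ≤ M := by
    have : L ^ 2 * (X + 1) ^ 2 ≤ L ^ 4 * (X + 1) ^ 2 :=
      mul_le_mul_of_nonneg_right hL4 (by positivity)
    nlinarith
  have h6 : (nsq x.1 : ℝ) ≤ M := by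
    have e1 : L * Y ≤ L * (L * X) := mul_le_mul_of_nonneg_left hX hL0.le
    have e2 : L ^ 2 * (X + 1) ^ 2 ≤ L ^ 4 * (X + 1) ^ 2 :=
      mul_le_mul_of_nonneg_right hL4 (by positivity)
    nlinarith
  have key : ∀ (v : V), (nsq v : ℝ) ≤ M → v ∈ Eqd.box M := by
    intro v hv
    have hv' : nsq v ≤ M := by exact_mod_cast hv
    rw [mem_box]
    simp only [nsq] at hv'
    constructor
    · have : |v.1| ≤ v.1 ^ 2 := by
        rcases abs_cases v.1 with ⟨h, h'⟩ | ⟨h, h'⟩ <;> rw [h] <;> nlinarith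
      nlinarith [sq_nonneg v.2]
    · have : |v.2| ≤ v.2 ^ 2 := by
        rcases abs_cases v.2 with ⟨h, h'⟩ | ⟨h, h'⟩ <;> rw [h] <;> nlinarith
      nlinarith [sq_nonneg v.1]
  rw [mem_pairs]
  exact ⟨⟨key _ h6, key _ (h4.trans h5)⟩, by rw [hc]; rfl⟩

end Pool.Agent.Lib.MP391708.T1.Equ
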