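import Pool.Agent.Lib.MP_391708_nt.T1.EquD

/-!
# T1, group C, EQUID, fifth part: choice of the parameters
-/

set_option autoImplicit false

namespace Pool.Agent.Lib.MP391708.T1.Equ

open Finset Filter Topology
open Pool.Agent.Lib.MP391708.Eqd
open scoped Classical

variable {L X Y : ℝ} {T₁ T₂ : ℝ → ℝ}

lemma pw₁ {y : ℝ} (hL : 1 ≤ L) (hy : 1 ≤ y) :
    (L * y ^ 5) ^ (3 / 2 + 1 / 100 : ℝ) ≤ L ^ 2 * y ^ 8 := by
  have hL0 : 0 ≤ L := by linarith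
  have hy0 : 0 ≤ y := by linarith
  have h1 : 1 ≤ L * y ^ 5 := one_le_mul_of_one_le_of_one_le hL (one_le_pow₀ hy)
  have h2 : (y ^ 5) ^ (8 / 5 : ℝ) = y ^ 8 := by
    rw [← Real.rpow_natCast, ← Real.rpow_mul hy0, ← Real.rpow_natCast]
    norm_num
  have h3 : L ^ (8 / 5 : ℝ) ≤ L ^ 2 := by
    rw [← Real.rpow_natCast]
    exact Real.rpow_le_rpow_of_exponent_le hL (by norm_num)
  calc (L * y ^ 5) ^ (3 / 2 + 1 / 100 : ℝ) ≤ (L * y ^ 5) ^ (8 / 5 : ℝ) :=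
        Real.rpow_le_rpow_of_exponent_le h1 (by norm_num)
    _ = L ^ (8 / 5 : ℝ) * y ^ 8 := by rw [Real.mul_rpow hL0 (by positivity), h2]
    _ ≤ _ := mul_le_mul_of_nonneg_right h3 (by positivity)

lemma pw₂ {y : ℝ} (hL : 1 ≤ L) (hy : 1 ≤ y) :
    (L * y ^ 5) ^ (1 / 2 + 1 / 100 : ℝ) ≤ L * y ^ 3 := by
  have hL0 : 0 ≤ L := by linarith
  have hy0 : 0 ≤ y := by linarith
  have h1 : 1 ≤ L * y ^ 5 := one_le_mul_of_one_le_of_one_le hL (one_le_pow₀ hy)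
  have h2 : (y ^ 5) ^ (3 / 5 : ℝ) = y ^ 3 := by
    rw [← Real.rpow_natCast, ← Real.rpow_mul hy0, ← Real.rpow_natCast]
    norm_num
  have h3 : L ^ (3 / 5 : ℝ) ≤ L := by
    conv_rhs => rw [← Real.rpow_one L]
    exact Real.rpow_le_rpow_of_exponent_le hL (by norm_num)
  calc (L * y ^ 5) ^ (1 / 2 + 1 / 100 : ℝ) ≤ (L * y ^ 5) ^ (3 / 5 : ℝ) :=
        Real.rpow_le_rpow_of_exponent_le h1 (by norm_num)
    _ = L ^ (3 / 5 : ℝ) * y ^ 3 := by rw [Real.mul_rpow hL0 (by positivity), h2]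
    _ ≤ _ := mul_le_mul_of_nonneg_right h3 (by positivity)

/-- the parameters: length of the pieces, number of pieces, range of the first coordinate -/
noncomputable def HH (y : ℝ) : ℕ := ⌈y ^ 4⌉₊
noncomputable def NN (L y : ℝ) : ℕ := ⌈L * y ^ 5 / HH y⌉₊ + 1
noncomputable def AA (L y : ℝ) : ℕ := ⌊L * y ^ 5⌋₊

lemma params {y : ℝ} (hL : 1 ≤ L) (hy : 12 * L ^ 2 ≤ y) :
    0 < HH y ∧ 6 * L ^ 2 * HH y ≤ y ^ 5 ∧ (HH y : ℝ) ≤ 2 * y ^ 4 ∧ L * y ^ 5 < NN L y * HH y ∧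
      (NN L y : ℝ) * HH y ≤ 2 * L * y ^ 5 ∧ (NN L y : ℝ) ≤ 2 * L * y ∧ L * y ^ 5 < AA L y + 1 ∧
      0 < AA L y ∧ (AA L y : ℝ) ≤ L * y ^ 5 := by
  have hL2 : 1 ≤ L ^ 2 := one_le_pow₀ hL
  have hy1 : 1 ≤ y := by linarith
  have hy0 : 0 < y := by linarith
  have h4 : 1 ≤ y ^ 4 := one_le_pow₀ hy1
  have h5 : 1 ≤ y ^ 5 := one_le_pow₀ hy1
  have hLy : 1 ≤ L * y ^ 5 := one_le_mul_of_one_le_of_one_le hL h5
  have a1 : y ^ 4 ≤ HH y := Nat.le_ceil _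
  have a2 : (HH y : ℝ) < y ^ 4 + 1 := Nat.ceil_lt_add_one (by positivity)
  have a3 : (HH y : ℝ) ≤ 2 * y ^ 4 := by linarith
  have a4 : (0 : ℝ) < HH y := by linarith
  have a4' : 0 < HH y := by exact_mod_cast a4
  have a5 : 12 * L ^ 2 * y ^ 4 ≤ y ^ 5 := by
    calc 12 * L ^ 2 * y ^ 4 ≤ y * y ^ 4 := mul_le_mul_of_nonneg_right hy (by positivity)
      _ = y ^ 5 := by ring
  have a6 : 6 * L ^ 2 * HH y ≤ y ^ 5 := by
    have : 6 * L ^ 2 * HH y ≤ 6 * L ^ 2 * (2 * y ^ 4) :=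
      mul_le_mul_of_nonneg_left a3 (by positivity)
    linarith
  have a7 : 6 * (HH y : ℝ) ≤ y ^ 5 := by nlinarith
  have b1 : L * y ^ 5 / HH y ≤ ⌈L * y ^ 5 / HH y⌉₊ := Nat.le_ceil _
  have b2 : (⌈L * y ^ 5 / HH y⌉₊ : ℝ) < L * y ^ 5 / HH y + 1 := Nat.ceil_lt_add_one (by positivity)
  have b3 : (NN L y : ℝ) = ⌈L * y ^ 5 / HH y⌉₊ + 1 := by unfold NN; push_cast; rfl
  have b4 : L * y ^ 5 / HH y * HH y = L * y ^ 5 := by field_simp
  have b5 : L * y ^ 5 < NN L y * HH y := by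
    rw [b3, add_mul, one_mul]
    have := mul_le_mul_of_nonneg_right b1 a4.le
    linarith
  have b6 : (NN L y : ℝ) * HH y ≤ 2 * L * y ^ 5 := by
    have c1 : (NN L y : ℝ) ≤ L * y ^ 5 / HH y + 2 := by rw [b3]; linarith
    have c2 := mul_le_mul_of_nonneg_right c1 a4.le
    have c3 : y ^ 5 ≤ L * y ^ 5 := by nlinarith
    nlinarith
  have b7 : (NN L y : ℝ) ≤ 2 * L * y := by
    have c1 : (NN L y : ℝ) * y ^ 4 ≤ (2 * L * y) * y ^ 4 := by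
      calc (NN L y : ℝ) * y ^ 4 ≤ NN L y * HH y :=
            mul_le_mul_of_nonneg_left a1 (Nat.cast_nonneg _)
        _ ≤ 2 * L * y ^ 5 := b6
        _ = _ := by ring
    exact le_of_mul_le_mul_right c1 (by positivity)
  refine ⟨a4', a6, a3, b5, b6, b7, Nat.lt_floor_add_one _, ?_, Nat.floor_le (by positivity)⟩
  exact Nat.floor_pos.mpr hLy

/-- the total error over all first coordinates -/
lemma er_sum (hpwr : SpecPwr) : ∃ C : ℝ, 0 < C ∧ ∀ L : ℝ, 1 ≤ L → ∀ y X : ℝ, 12 * L ^ 2 ≤ y →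
    y ^ 10 ≤ L * X → ∀ q : ℕ, 0 < q →
    ∑ a ∈ Icc 1 (AA L y), er q (HH y) (NN L y) L X (y ^ 5)
      (80 * L ^ 5 * X * HH y / (y ^ 5) ^ 3) a ≤ C * L ^ 8 * (q : ℝ) ^ 4 * X / y := by
  obtain ⟨C, hC, hP⟩ := hpwr
  refine ⟨1280 + 7752 * C, by positivity, ?_⟩
  intro L hL y X hy hX q hq
  obtain ⟨p1, p2, p3, p4, p5, p6, p7, p8, p9⟩ := params hL hy
  obtain ⟨s1, s2⟩ := hP q (AA L y) hq p8
  have hL0 : 0 < L := by linarith
  have hL2 : 1 ≤ L ^ 2 := one_le_pow₀ hL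
  have hy1 : 1 ≤ y := by linarith
  have hy0 : 0 < y := by linarith
  have hX0 : 0 ≤ X := by
    have : 0 ≤ L * X := le_trans (by positivity) hX
    exact nonneg_of_mul_nonneg_right this hL0
  have hq1 : (1 : ℝ) ≤ (q : ℝ) ^ 4 := one_le_pow₀ (by exact_mod_cast hq)
  set Z := X / y ^ 10 with hZ
  have hXZ : X = Z * y ^ 10 := by rw [hZ]; field_simp
  have hZ1 : 1 ≤ L * Z := by
    rw [hZ, ← mul_div_assoc, le_div_iff₀ (by positivity)]; linarith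
  have hZ0 : 0 ≤ Z := by positivity
  set R := 80 * L ^ 5 * X * HH y / (y ^ 5) ^ 3 with hR
  have hR0 : 0 ≤ R := by positivity
  have hRle : R ≤ 160 * L ^ 5 * Z / y := by
    have e1 : R = 80 * L ^ 5 * Z * HH y / y ^ 5 := by
      rw [hR, hXZ]; field_simp
    rw [e1, div_le_div_iff₀ (by positivity) hy0]
    calc 80 * L ^ 5 * Z * HH y * y ≤ 80 * L ^ 5 * Z * (2 * y ^ 4) * y := by gcongr
      _ = _ := by ring
  have hRle2 : R ≤ 160 * L ^ 5 * Z := by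
    refine hRle.trans ?_
    exact div_le_self (by positivity) hy1
  -- the sums of `ea`
  have hIoc : Icc 1 (AA L y) = Ioc 0 (AA L y) := by
    ext a; simp only [mem_Icc, mem_Ioc]; omega
  have s1' : ∑ a ∈ Icc 1 (AA L y), ea a q ≤ C * (q : ℝ) ^ 4 * (L ^ 2 * y ^ 8) := by
    rw [hIoc]
    refine s1.trans ?_
    apply mul_le_mul_of_nonneg_left _ (by positivity)
    exact (Real.rpow_le_rpow (Nat.cast_nonneg _) p9 (by norm_num)).trans (pw₁ hL hy1)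
  have s2' : ∑ a ∈ Icc 1 (AA L y), ea a q / a ≤ C * (q : ℝ) ^ 4 * (L * y ^ 3) := by
    rw [hIoc]
    refine s2.trans ?_
    apply mul_le_mul_of_nonneg_left _ (by positivity)
    exact (Real.rpow_le_rpow (Nat.cast_nonneg _) p9 (by norm_num)).trans (pw₂ hL hy1)
  have e0 : ∑ a ∈ Icc 1 (AA L y), er q (HH y) (NN L y) L X (y ^ 5) R a =
      4 * (NN L y * HH y) * R * AA L y +
      12 * NN L y * (1 + L ^ 2 * X / (y ^ 5) ^ 2 + 2 * R) * ∑ a ∈ Icc 1 (AA L y), ea a q +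
      12 * (NN L y * HH y) * ∑ a ∈ Icc 1 (AA L y), ea a q / a := by
    have h1 : ∀ a ∈ Icc 1 (AA L y), er q (HH y) (NN L y) L X (y ^ 5) R a =
        4 * (NN L y * HH y) * R + 12 * NN L y * (1 + L ^ 2 * X / (y ^ 5) ^ 2 + 2 * R) * ea a q +
        12 * (NN L y * HH y) * (ea a q / a) := by
      intro a _
      unfold er
      ring
    rw [sum_congr rfl h1, sum_add_distrib, sum_add_distrib, sum_const, Nat.card_Icc, ← mul_sum,
      ← mul_sum, nsmul_eq_mul]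
    simp only [add_tsub_cancel_right]
    ring
  rw [e0]
  have t1 : 4 * (NN L y * HH y) * R * AA L y ≤ 1280 * L ^ 7 * (Z * y ^ 9) := by
    calc 4 * ((NN L y : ℝ) * HH y) * R * AA L y ≤
        4 * (2 * L * y ^ 5) * (160 * L ^ 5 * Z / y) * (L * y ^ 5) := by gcongr
      _ = _ := by field_simp; ring
  have t2 : 12 * NN L y * (1 + L ^ 2 * X / (y ^ 5) ^ 2 + 2 * R) * ∑ a ∈ Icc 1 (AA L y), ea a q ≤
      7728 * C * L ^ 8 * (q : ℝ) ^ 4 * (Z * y ^ 9) := by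
    have e1 : L ^ 2 * X / (y ^ 5) ^ 2 = L ^ 2 * Z := by rw [hXZ]; field_simp
    rw [e1]
    have k1 : L ≤ L ^ 5 := by
      calc L = L ^ 1 := (pow_one L).symm
        _ ≤ L ^ 5 := pow_le_pow_right₀ hL (by norm_num)
    have k2 : L ^ 2 ≤ L ^ 5 := pow_le_pow_right₀ hL (by norm_num)
    have e2 : 1 + L ^ 2 * Z + 2 * R ≤ 322 * L ^ 5 * Z := by
      have := mul_le_mul_of_nonneg_right k1 hZ0
      have := mul_le_mul_of_nonneg_right k2 hZ0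
      linarith
    have e3 : 0 ≤ ∑ a ∈ Icc 1 (AA L y), ea a q := by
      apply sum_nonneg
      intro a ha
      rw [mem_Icc] at ha
      have := one_le_ea (a := a) ha.1 hq
      linarith
    calc 12 * (NN L y : ℝ) * (1 + L ^ 2 * Z + 2 * R) * ∑ a ∈ Icc 1 (AA L y), ea a q ≤
        12 * (2 * L * y) * (322 * L ^ 5 * Z) * (C * (q : ℝ) ^ 4 * (L ^ 2 * y ^ 8)) := by gcongr
      _ = _ := by ring
  have t3 : 12 * (NN L y * HH y) * ∑ a ∈ Icc 1 (AA L y), ea a q / a ≤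
      24 * C * L ^ 3 * (q : ℝ) ^ 4 * (Z * y ^ 9) := by
    have e3 : 0 ≤ ∑ a ∈ Icc 1 (AA L y), ea a q / a := by
      apply sum_nonneg
      intro a ha
      rw [mem_Icc] at ha
      have := one_le_ea (a := a) ha.1 hq
      apply div_nonneg _ (Nat.cast_nonneg _)
      linarith
    calc 12 * ((NN L y : ℝ) * HH y) * ∑ a ∈ Icc 1 (AA L y), ea a q / a ≤
        12 * (2 * L * y ^ 5) * (C * (q : ℝ) ^ 4 * (L * y ^ 3)) := by gcongr
      _ = 24 * C * L ^ 2 * (q : ℝ) ^ 4 * (1 * y ^ 8) := by ring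
      _ ≤ 24 * C * L ^ 2 * (q : ℝ) ^ 4 * ((L * Z) * y ^ 9) := by
          gcongr
          norm_num
      _ = _ := by ring
  have k7 : L ^ 7 ≤ L ^ 8 := pow_le_pow_right₀ hL (by norm_num)
  have k3 : L ^ 3 ≤ L ^ 8 := pow_le_pow_right₀ hL (by norm_num)
  have e9 : (1280 + 7752 * C) * L ^ 8 * (q : ℝ) ^ 4 * X / y =
      (1280 * L ^ 8 * (q : ℝ) ^ 4 + 7728 * C * L ^ 8 * (q : ℝ) ^ 4 + 24 * C * L ^ 8 * (q : ℝ) ^ 4) *
        (Z * y ^ 9) := by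
    rw [hXZ]; field_simp; ring
  rw [e9, add_mul, add_mul]
  have hZy : 0 ≤ Z * y ^ 9 := by positivity
  refine add_le_add (add_le_add ?_ t2) ?_
  · refine t1.trans ?_
    apply mul_le_mul_of_nonneg_right _ hZy
    calc 1280 * L ^ 7 ≤ 1280 * L ^ 8 * 1 := by linarith
      _ ≤ _ := by gcongr
  · refine t3.trans ?_
    apply mul_le_mul_of_nonneg_right _ hZy
    gcongr

lemma log_AA {y : ℝ} (hL : 1 ≤ L) (hy : 12 * L ^ 2 ≤ y) : 1 + Real.log (AA L y) ≤ 7 * L * y := by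
  obtain ⟨p1, p2, p3, p4, p5, p6, p7, p8, p9⟩ := params hL hy
  have hL0 : 0 < L := by linarith
  have hL2 : 1 ≤ L ^ 2 := one_le_pow₀ hL
  have hy1 : 1 ≤ y := by linarith
  have hy0 : 0 < y := by linarith
  have h1 : Real.log (AA L y) ≤ Real.log (L * y ^ 5) :=
    Real.log_le_log (by exact_mod_cast p8) p9
  rw [Real.log_mul hL0.ne' (by positivity), Real.log_pow] at h1
  have h2 := Real.log_le_sub_one_of_pos hL0
  have h3 := Real.log_le_sub_one_of_pos hy0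
  push_cast at h1
  nlinarith

/-- the main term, for all classes -/
noncomputable def mt (T₁ T₂ : ℝ → ℝ) (L y : ℝ) : ℝ :=
  ∑ a ∈ Icc 1 (AA L y), gg T₁ T₂ (HH y) (NN L y) a

lemma pos_main (hbox : SpecBoxQ) (hmean : SpecMeanQ) (hpwr : SpecPwr) : ∃ C : ℝ, 0 < C ∧
    ∀ L : ℝ, 1 ≤ L → ∀ y X : ℝ, 12 * L ^ 2 ≤ y → y ^ 10 ≤ L * X → ∀ T₁ T₂ : ℝ → ℝ,
    Bd L X (y ^ 10) T₁ T₂ → ∀ M : ℕ,
    (∀ x : V × V, cross x.1 x.2 = -1 → Reg T₁ T₂ x → x ∈ pairs 1 M) →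
    ∀ q : ℕ, 0 < q → ∀ a0 c0 b0 k0 : ℤ, (q : ℤ) ∣ b0 * c0 - (1 + a0 * k0) →
    |(((cl M T₁ T₂ q (rr q a0 c0 b0 k0)).filter (fun x => 0 < x.1.1)).card : ℝ) -
      zq q / (q : ℝ) ^ 3 * mt T₁ T₂ L y| ≤ C * L ^ 8 * (q : ℝ) ^ 4 * X / y := by
  obtain ⟨C, hC, hE⟩ := er_sum hpwr
  refine ⟨C + 1120, by positivity, ?_⟩
  intro L hL y X hy hX T₁ T₂ hB M hM q hq a0 c0 b0 k0 h
  obtain ⟨p1, p2, p3, p4, p5, p6, p7, p8, p9⟩ := params hL hy
  have hL0 : 0 < L := by linarith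
  have hL2 : 1 ≤ L ^ 2 := one_le_pow₀ hL
  have hy1 : 1 ≤ y := by linarith
  have hy0 : 0 < y := by linarith
  have hX0 : 0 ≤ X := by
    have : 0 ≤ L * X := le_trans (by positivity) hX
    exact nonneg_of_mul_nonneg_right this hL0
  have hq1 : (1 : ℝ) ≤ q := by exact_mod_cast hq
  have hq4 : (1 : ℝ) ≤ (q : ℝ) ^ 4 := one_le_pow₀ hq1
  have hy10 : (y ^ 5) ^ 2 = y ^ 10 := by ring
  have hB' : Bd L X ((y ^ 5) ^ 2) T₁ T₂ := by rw [hy10]; exact hB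
  have hX' : (y ^ 5) ^ 2 ≤ L * X := by rw [hy10]; exact hX
  have h1 := pos_part hbox hL (one_le_pow₀ hy1 : (1 : ℝ) ≤ y ^ 5) hX' hB' hM q (HH y) (NN L y)
    (AA L y) hq p1 p2 p4 p7 a0 c0 b0 k0 h rfl
  have h2 := hE L hL y X hy hX q hq
  have hg : |gg T₁ T₂ (HH y) (NN L y) (AA L y)| ≤ 4 * L ^ 3 * X / y ^ 5 := by
    have hA0 : (0 : ℝ) < AA L y := by exact_mod_cast p8
    rw [abs_of_nonneg (gg_nonneg hA0)]
    refine (gg_le hL (one_le_pow₀ hy1) hX0 hB hA0).trans ?_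
    calc 2 * (NN L y : ℝ) * (L ^ 2 * X / y ^ 10 * HH y) =
        2 * (NN L y * HH y) * (L ^ 2 * X / y ^ 10) := by ring
      _ ≤ 2 * (2 * L * y ^ 5) * (L ^ 2 * X / y ^ 10) := by gcongr
      _ = _ := by field_simp; ring
  have hD : ∀ a : ℕ, 1 ≤ a → a < AA L y →
      |gg T₁ T₂ (HH y) (NN L y) ((a + 1 : ℕ) : ℝ) - gg T₁ T₂ (HH y) (NN L y) a| ≤
        36 * L ^ 5 * X / y ^ 10 := by
    intro a ha1 ha2
    have haR : (1 : ℝ) ≤ a := by exact_mod_cast ha1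
    have haR2 : (a : ℝ) + 1 ≤ AA L y := by exact_mod_cast ha2
    have := gg_lip hL (one_le_pow₀ hy1) hX0 hB (H := HH y) (n0 := NN L y)
      (by linarith : (0 : ℝ) < a)
    push_cast
    refine this.trans ?_
    have e1 : 2 * (a : ℝ) + 1 ≤ 3 * (L * y ^ 5) := by linarith
    calc 2 * (NN L y : ℝ) * (3 * L ^ 3 * X / (y ^ 10) ^ 2 * (2 * a + 1) * HH y) =
        2 * (NN L y * HH y) * (3 * L ^ 3 * X / (y ^ 10) ^ 2) * (2 * a + 1) := by ring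
      _ ≤ 2 * (2 * L * y ^ 5) * (3 * L ^ 3 * X / (y ^ 10) ^ 2) * (3 * (L * y ^ 5)) := by gcongr
      _ = _ := by field_simp; ring
  have h3 := abel hmean hq a0 (AA L y) p8 (fun a => gg T₁ T₂ (HH y) (NN L y) a)
    (by positivity) hg hD
  have h4 : 4 * (1 + Real.log (AA L y)) *
      (4 * L ^ 3 * X / y ^ 5 + AA L y * (36 * L ^ 5 * X / y ^ 10)) ≤ 1120 * L ^ 7 * X / y := by
    have e1 : 4 * L ^ 3 * X / y ^ 5 + AA L y * (36 * L ^ 5 * X / y ^ 10) ≤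
        40 * L ^ 6 * X / y ^ 5 := by
      calc 4 * L ^ 3 * X / y ^ 5 + AA L y * (36 * L ^ 5 * X / y ^ 10) ≤
          4 * L ^ 6 * X / y ^ 5 + (L * y ^ 5) * (36 * L ^ 5 * X / y ^ 10) := by
            have k : L ^ 3 ≤ L ^ 6 := pow_le_pow_right₀ hL (by norm_num)
            gcongr
        _ = _ := by field_simp; ring
    have e2 := log_AA hL hy
    have e3 : 0 ≤ Real.log (AA L y) := Real.log_nonneg (by exact_mod_cast p8)
    calc 4 * (1 + Real.log (AA L y)) *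
        (4 * L ^ 3 * X / y ^ 5 + AA L y * (36 * L ^ 5 * X / y ^ 10)) ≤
        4 * (7 * L * y) * (40 * L ^ 6 * X / y ^ 5) := by gcongr
      _ = 1120 * L ^ 7 * X / y ^ 4 := by field_simp; ring
      _ ≤ 1120 * L ^ 7 * X / y := by
          apply div_le_div_of_nonneg_left (by positivity) hy0
          calc y = y ^ 1 := (pow_one y).symm
            _ ≤ y ^ 4 := pow_le_pow_right₀ hy1 (by norm_num)
  have h5 : |(∑ a ∈ (Icc 1 (AA L y)).filter (fun a : ℕ => (q : ℤ) ∣ (a : ℤ) - a0),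
        ra a q * gg T₁ T₂ (HH y) (NN L y) a) / (q : ℝ) ^ 2 -
      zq q / (q : ℝ) ^ 3 * mt T₁ T₂ L y| ≤ 1120 * L ^ 7 * X / y := by
    have e : (∑ a ∈ (Icc 1 (AA L y)).filter (fun a : ℕ => (q : ℤ) ∣ (a : ℤ) - a0),
        ra a q * gg T₁ T₂ (HH y) (NN L y) a) / (q : ℝ) ^ 2 -
      zq q / (q : ℝ) ^ 3 * mt T₁ T₂ L y =
      (∑ a ∈ (Icc 1 (AA L y)).filter (fun a : ℕ => (q : ℤ) ∣ (a : ℤ) - a0),
        ra a q * gg T₁ T₂ (HH y) (NN L y) a - zq q / q * mt T₁ T₂ L y) / (q : ℝ) ^ 2 := by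
      field_simp
    rw [e, abs_div, abs_of_pos (by positivity : (0 : ℝ) < (q : ℝ) ^ 2)]
    have h6 := h3.trans h4
    refine (div_le_self (abs_nonneg _) (one_le_pow₀ hq1)).trans ?_
    exact h6
  calc _ ≤ |(((cl M T₁ T₂ q (rr q a0 c0 b0 k0)).filter (fun x => 0 < x.1.1)).card : ℝ) -
      (∑ a ∈ (Icc 1 (AA L y)).filter (fun a : ℕ => (q : ℤ) ∣ (a : ℤ) - a0),
        ra a q * gg T₁ T₂ (HH y) (NN L y) a) / (q : ℝ) ^ 2| +
      |(∑ a ∈ (Icc 1 (AA L y)).filter (fun a : ℕ => (q : ℤ) ∣ (a : ℤ) - a0),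
        ra a q * gg T₁ T₂ (HH y) (NN L y) a) / (q : ℝ) ^ 2 -
      zq q / (q : ℝ) ^ 3 * mt T₁ T₂ L y| := abs_sub_le _ _ _
    _ ≤ C * L ^ 8 * (q : ℝ) ^ 4 * X / y + 1120 * L ^ 7 * X / y := add_le_add (h1.trans h2) h5
    _ ≤ _ := by
      have k : L ^ 7 ≤ L ^ 8 := pow_le_pow_right₀ hL (by norm_num)
      have e1 : 1120 * L ^ 7 * X / y ≤ 1120 * L ^ 8 * (q : ℝ) ^ 4 * X / y := by
        have e3 : 1120 * L ^ 7 ≤ 1120 * L ^ 8 * (q : ℝ) ^ 4 := by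
          calc 1120 * L ^ 7 ≤ 1120 * L ^ 8 * 1 := by linarith
            _ ≤ _ := by gcongr
        exact div_le_div_of_nonneg_right (mul_le_mul_of_nonneg_right e3 hX0) hy0.le
      have e2 : (C + 1120) * L ^ 8 * (q : ℝ) ^ 4 * X / y =
          C * L ^ 8 * (q : ℝ) ^ 4 * X / y + 1120 * L ^ 8 * (q : ℝ) ^ 4 * X / y := by ring
      rw [e2]
      linarith

end Pool.Agent.Lib.MP391708.T1.Equ
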