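import Pool.Agent.Lib.MP_391708_nt.T1.EquE

/-!
# T1, group C: `specEquid`
-/

set_option autoImplicit false

namespace Pool.Agent.Lib.MP391708.T1

namespace Equ

open Finset Filter Topology
open Pool.Agent.Lib.MP391708.Eqd
open scoped Classical

variable {L X Y : ℝ} {T₁ T₂ : ℝ → ℝ}

lemma exists_rr {q : ℕ} [NeZero q] {r : RC q} (hr : r ∈ sl q) :
    ∃ a0 c0 b0 k0 : ℤ, r = rr q a0 c0 b0 k0 ∧ (q : ℤ) ∣ b0 * c0 - (1 + a0 * k0) := by
  obtain ⟨a0, ha⟩ := ZMod.intCast_surjective r.1.1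
  obtain ⟨c0, hc⟩ := ZMod.intCast_surjective r.1.2
  obtain ⟨b0, hb⟩ := ZMod.intCast_surjective r.2.1
  obtain ⟨k0, hk⟩ := ZMod.intCast_surjective r.2.2
  refine ⟨a0, c0, b0, k0, ?_, ?_⟩
  · unfold rr
    rw [ha, hc, hb, hk]
  · unfold sl at hr
    rw [mem_filter] at hr
    have h := hr.2
    rw [← ha, ← hc, ← hb, ← hk] at h
    rw [← ZMod.intCast_zmod_eq_zero_iff_dvd]
    push_cast
    linear_combination -h

lemma rr_neg (q : ℕ) (a0 c0 b0 k0 : ℤ) :
    -rr q a0 c0 b0 k0 = rr q (-a0) (-c0) (-b0) (-k0) := by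
  unfold rr
  simp

/-- the number of pairs in a class: the main term does not depend on the class -/
lemma class_count (hbox : SpecBoxQ) (hmean : SpecMeanQ) (hpwr : SpecPwr) : ∃ C : ℝ, 0 < C ∧
    ∀ L : ℝ, 1 ≤ L → ∀ y X : ℝ, 12 * L ^ 2 ≤ y → y ^ 10 ≤ L * X → ∀ T₁ T₂ : ℝ → ℝ,
    Bd L X (y ^ 10) T₁ T₂ → ∀ M : ℕ,
    (∀ x : V × V, cross x.1 x.2 = -1 → Reg T₁ T₂ x → x ∈ pairs 1 M) →
    ∀ (q : ℕ) [NeZero q], ∀ r ∈ sl q,
    |((cl M T₁ T₂ q r).card : ℝ) - 2 * zq q / (q : ℝ) ^ 3 * mt T₁ T₂ L y| ≤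
      C * L ^ 8 * (q : ℝ) ^ 4 * X / y := by
  obtain ⟨C, hC, h⟩ := pos_main hbox hmean hpwr
  refine ⟨2 * C, by positivity, ?_⟩
  intro L hL y X hy hX T₁ T₂ hB M hM q hq0 r hr
  have hq : 0 < q := Nat.pos_of_ne_zero hq0.out
  obtain ⟨a0, c0, b0, k0, rfl, hdv⟩ := exists_rr hr
  have hL2 : 1 ≤ L ^ 2 := one_le_pow₀ hL
  have hy1 : 1 ≤ y := by linarith
  have hYL : L < y ^ 10 := by
    have e1 : L ≤ L ^ 2 := by nlinarith
    have e2 : y ≤ y ^ 10 := by
      calc y = y ^ 1 := (pow_one y).symm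
        _ ≤ y ^ 10 := pow_le_pow_right₀ hy1 (by norm_num)
    linarith
  have h1 := h L hL y X hy hX T₁ T₂ hB M hM q hq a0 c0 b0 k0 hdv
  have h2 := h L hL y X hy hX T₁ T₂ hB M hM q hq (-a0) (-c0) (-b0) (-k0) (by
    have : -b0 * -c0 - (1 + -a0 * -k0) = b0 * c0 - (1 + a0 * k0) := by ring
    rw [this]; exact hdv)
  rw [← rr_neg] at h2
  rw [card_split hL hYL hB]
  push_cast
  rw [abs_le] at h1 h2 ⊢
  have e : 2 * zq q / (q : ℝ) ^ 3 * mt T₁ T₂ L y = zq q / (q : ℝ) ^ 3 * mt T₁ T₂ L y +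
      zq q / (q : ℝ) ^ 3 * mt T₁ T₂ L y := by ring
  have e' : 2 * C * L ^ 8 * (q : ℝ) ^ 4 * X / y = C * L ^ 8 * (q : ℝ) ^ 4 * X / y +
      C * L ^ 8 * (q : ℝ) ^ 4 * X / y := by ring
  rw [e, e']
  constructor
  · linarith [h1.1, h2.1]
  · linarith [h1.2, h2.2]

lemma res_mem_sl {M q : ℕ} [NeZero q] {x : V × V} (hx : x ∈ pairs 1 M) : res q x ∈ sl q := by
  have hc := cross_of_mem hx
  unfold sl
  rw [mem_filter]
  refine ⟨mem_univ _, ?_⟩
  unfold res
  simp only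
  have : ((cross x.1 x.2 : ℤ) : ZMod q) = ((-1 : ℤ) : ZMod q) := by rw [hc]
  simp only [cross] at this
  push_cast at this
  exact this

lemma total_eq {M q : ℕ} [NeZero q] : ((pairs 1 M).filter (Reg T₁ T₂)).card =
    ∑ r ∈ sl q, (cl M T₁ T₂ q r).card := by
  have hmaps : ∀ x ∈ (pairs 1 M).filter (Reg T₁ T₂), res q x ∈ sl q := by
    intro x hx
    rw [mem_filter] at hx
    exact res_mem_sl hx.1
  rw [card_eq_sum_card_fiberwise hmaps]
  apply sum_congr rfl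
  intro r _
  congr 1
  ext x
  rw [mem_filter, mem_filter, mem_cl, and_assoc]

lemma sl_card_pos (q : ℕ) [NeZero q] : 0 < (sl q).card := by
  apply card_pos.mpr
  refine ⟨((1, 0), (0, -1)), ?_⟩
  unfold sl
  rw [mem_filter]
  exact ⟨mem_univ _, by simp⟩

/-- trivial bound -/
lemma triv (hL : 1 ≤ L) (hY : 1 ≤ Y) (hX : Y ≤ L * X) (hB : Bd L X Y T₁ T₂) (M : ℕ) :
    (((pairs 1 M).filter (Reg T₁ T₂)).card : ℝ) ≤ 9 * L ^ 3 * X * Y := by
  have hL0 : 0 < L := by linarith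
  have hX0 : 0 < X := by
    have : 0 < L * X := by linarith
    exact pos_of_mul_pos_right this hL0.le
  set S := √Y with hS
  have hS2 : S ^ 2 = Y := Real.sq_sqrt (by linarith)
  have hS1 : 1 ≤ S := by rw [hS, Real.one_le_sqrt]; exact hY
  have hB' : Bd L X (S ^ 2) T₁ T₂ := by rw [hS2]; exact hB
  set A : ℕ := ⌊L * S⌋₊ with hA
  have hLS : 1 ≤ L * S := one_le_mul_of_one_le_of_one_le hL hS1
  have hA1 : (A : ℝ) ≤ L * S := Nat.floor_le (by linarith)
  set B : ℕ := ⌊L * X⌋₊ with hBdef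
  have hB1 : (B : ℝ) ≤ L * X := Nat.floor_le (by positivity)
  set T : Finset ((ℤ × ℤ) × ℤ) := (Icc (-(A : ℤ)) A ×ˢ Icc (-(A : ℤ)) A) ×ˢ Ioc (0 : ℤ) B with hT
  have hcard : ((pairs 1 M).filter (Reg T₁ T₂)).card ≤ T.card := by
    apply card_le_card_of_injOn (fun x : V × V => (x.1, dot x.1 x.2))
    · intro x hx
      rw [mem_coe, mem_filter] at hx
      obtain ⟨h1, h2⟩ := short hL hS1 hB' hx.2
      obtain ⟨g1, g2⟩ := hx.2
      obtain ⟨-, -, g5, g6⟩ := hB.supp _ (lt_of_lt_of_le g1 g2)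
      have key : ∀ z : ℤ, |(z : ℝ)| ≤ L * S → z ∈ Icc (-(A : ℤ)) A := by
        intro z hz
        have h3 : (z.natAbs : ℝ) ≤ L * S := by
          rw [Nat.cast_natAbs]; push_cast; exact hz
        have h4 : z.natAbs ≤ A := Nat.le_floor h3
        rw [mem_Icc]; omega
      rw [mem_coe, hT, mem_product, mem_product, mem_Ioc]
      refine ⟨⟨key _ h1, key _ h2⟩, ?_, ?_⟩
      · have : (0 : ℝ) < (dot x.1 x.2 : ℝ) := by linarith
        exact_mod_cast this
      · have h5 : (0 : ℝ) < (dot x.1 x.2 : ℝ) := by linarith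
        have h5' : 0 < dot x.1 x.2 := by exact_mod_cast h5
        have h6 : (((dot x.1 x.2).toNat : ℕ) : ℝ) ≤ L * X := by
          have : (((dot x.1 x.2).toNat : ℤ) : ℝ) = (dot x.1 x.2 : ℝ) := by
            rw [Int.toNat_of_nonneg h5'.le]
          have h7 : (((dot x.1 x.2).toNat : ℕ) : ℝ) = (dot x.1 x.2 : ℝ) := by exact_mod_cast this
          rw [h7]; linarith
        have h8 : (dot x.1 x.2).toNat ≤ B := Nat.le_floor h6
        simp only
        omega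
    · intro x hx y hy hxy
      rw [mem_coe, mem_filter] at hx hy
      have c1 := cross_of_mem hx.1
      have c2 := cross_of_mem hy.1
      simp only [Prod.mk.injEq] at hxy
      obtain ⟨e1, e2⟩ := hxy
      have hpos := (nsq_pos_of_cross (J := 1) one_pos (x := x) (by rw [c1]; rfl)).1
      rw [← e1] at c2 e2
      simp only [cross] at c1 c2
      simp only [dot] at e2
      simp only [nsq] at hpos
      have f1 : (x.1.1 ^ 2 + x.1.2 ^ 2) * x.2.1 = (x.1.1 ^ 2 + x.1.2 ^ 2) * y.2.1 := by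
        linear_combination x.1.1 * e2 - x.1.2 * (c1 - c2)
      have f2 : (x.1.1 ^ 2 + x.1.2 ^ 2) * x.2.2 = (x.1.1 ^ 2 + x.1.2 ^ 2) * y.2.2 := by
        linear_combination x.1.2 * e2 + x.1.1 * (c1 - c2)
      have g1 := mul_left_cancel₀ hpos.ne' f1
      have g2 := mul_left_cancel₀ hpos.ne' f2
      exact Prod.ext e1 (Prod.ext g1 g2)
  have hTc : (T.card : ℝ) = (2 * A + 1) ^ 2 * B := by
    rw [hT, card_product, card_product, Int.card_Icc, Int.card_Ioc]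
    have e1 : ((A : ℤ) + 1 - -(A : ℤ)).toNat = 2 * A + 1 := by omega
    have e2 : ((B : ℤ) - 0).toNat = B := by omega
    rw [e1, e2]
    push_cast
    ring
  calc (((pairs 1 M).filter (Reg T₁ T₂)).card : ℝ) ≤ (T.card : ℝ) := by exact_mod_cast hcard
    _ = (2 * A + 1) ^ 2 * B := hTc
    _ ≤ (3 * (L * S)) ^ 2 * (L * X) := by
        gcongr
        linarith
    _ = 9 * L ^ 3 * X * S ^ 2 := by ring
    _ = _ := by rw [hS2]

end Equ

open Finset Filter Topology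
open Pool.Agent.Lib.MP391708.Eqd
open scoped Classical

/-- **EQUID** -/
theorem specEquid (hbox : SpecBoxQ) (hmean : SpecMeanQ) (hpwr : SpecPwr) : SpecEquid := by
  obtain ⟨C, hC, hcc⟩ := Equ.class_count hbox hmean hpwr
  intro L hL
  refine ⟨max (2 * C * L ^ 8) (9 * L ^ 3 * (12 * L ^ 2) ^ 20), ?_⟩
  intro X Y hY hX T₁ T₂ hB M hM q hq0 r hr
  have hq : 0 < q := Nat.pos_of_ne_zero hq0.out
  have hq1 : (1 : ℝ) ≤ q := by exact_mod_cast hq
  have hL0 : 0 < L := by linarith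
  have hX0 : 0 < X := by
    have : 0 < L * X := by linarith
    exact pos_of_mul_pos_right this hL0.le
  set y := Y ^ (1 / 10 : ℝ) with hy
  have hy10 : y ^ 10 = Y := by
    rw [hy, ← Real.rpow_natCast, ← Real.rpow_mul (by linarith)]
    norm_num
  have hy1 : 1 ≤ y := Real.one_le_rpow hY (by norm_num)
  have hy0 : 0 < y := by linarith
  have hpw : 1 / y ≤ Y ^ (-(1 / 20) : ℝ) := by
    have e1 : 1 / y = Y ^ (-(1 / 10) : ℝ) := by
      rw [hy, Real.rpow_neg (by linarith), one_div]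
    rw [e1]
    exact Real.rpow_le_rpow_of_exponent_le hY (by norm_num)
  have hcl : (pairs 1 M).filter (fun x => Reg T₁ T₂ x ∧ res q x = r) = Equ.cl M T₁ T₂ q r := rfl
  have hsl := Equ.sl_card_pos q
  have hslR : (1 : ℝ) ≤ ((sl q).card : ℝ) := by exact_mod_cast hsl
  have htot := Equ.total_eq (T₁ := T₁) (T₂ := T₂) (M := M) (q := q)
  rw [hcl]
  rcases lt_or_ge y (12 * L ^ 2) with hsm | hbig
  · -- small `Y`
    have ht := Equ.triv hL hY hX hB M
    set t := (((pairs 1 M).filter (Reg T₁ T₂)).card : ℝ) with htdef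
    have ht0 : 0 ≤ t := Nat.cast_nonneg _
    have h1 : ((Equ.cl M T₁ T₂ q r).card : ℝ) ≤ t := by
      rw [htdef]
      have : (Equ.cl M T₁ T₂ q r).card ≤ ((pairs 1 M).filter (Reg T₁ T₂)).card := by
        apply card_le_card
        intro x hx
        rw [Equ.mem_cl] at hx
        exact mem_filter.mpr ⟨hx.1, hx.2.1⟩
      exact_mod_cast this
    have h2 : t / ((sl q).card : ℝ) ≤ t := div_le_self ht0 hslR
    have h3 : 0 ≤ t / ((sl q).card : ℝ) := by positivity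
    have h4 : |((Equ.cl M T₁ T₂ q r).card : ℝ) - t / ((sl q).card : ℝ)| ≤ t := by
      rw [abs_le]
      have : (0 : ℝ) ≤ ((Equ.cl M T₁ T₂ q r).card : ℝ) := Nat.cast_nonneg _
      constructor <;> linarith
    refine h4.trans (ht.trans ?_)
    have h5 : Y ≤ (12 * L ^ 2) ^ 10 := by
      rw [← hy10]
      exact pow_le_pow_left₀ hy0.le hsm.le 10
    have h6 : 1 ≤ (12 * L ^ 2) ^ 10 * (1 / y) := by
      rw [mul_one_div, one_le_div hy0]
      have : (1 : ℝ) ≤ 12 * L ^ 2 := by nlinarith [one_le_pow₀ hL (n := 2)]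
      calc y ≤ 12 * L ^ 2 := hsm.le
        _ = (12 * L ^ 2) ^ 1 := (pow_one _).symm
        _ ≤ (12 * L ^ 2) ^ 10 := pow_le_pow_right₀ this (by norm_num)
    have hq8 : (1 : ℝ) ≤ (q : ℝ) ^ 8 := one_le_pow₀ hq1
    calc 9 * L ^ 3 * X * Y ≤ 9 * L ^ 3 * X * (12 * L ^ 2) ^ 10 := by gcongr
      _ = 9 * L ^ 3 * (12 * L ^ 2) ^ 10 * 1 * X * 1 := by ring
      _ ≤ 9 * L ^ 3 * (12 * L ^ 2) ^ 10 * (q : ℝ) ^ 8 * X * ((12 * L ^ 2) ^ 10 * (1 / y)) := by
          gcongr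
      _ = 9 * L ^ 3 * (12 * L ^ 2) ^ 20 * (q : ℝ) ^ 8 * X * (1 / y) := by ring
      _ ≤ _ := by
          gcongr
          exact le_max_right _ _
  · -- large `Y`
    have hmem : ∀ x : V × V, cross x.1 x.2 = -1 → Reg T₁ T₂ x → x ∈ pairs 1 M :=
      fun x hc hr => Equ.reg_mem hL hY hX hB hM x hc hr
    have hB' : Bd L X (y ^ 10) T₁ T₂ := by rw [hy10]; exact hB
    have hX' : y ^ 10 ≤ L * X := by rw [hy10]; exact hX
    have hall := hcc L hL y X hbig hX' T₁ T₂ hB' M hmem q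
    set E := C * L ^ 8 * (q : ℝ) ^ 4 * X / y with hE
    set m := 2 * zq q / (q : ℝ) ^ 3 * Equ.mt T₁ T₂ L y with hm
    have h1 := hall r hr
    have h2 : |(((pairs 1 M).filter (Reg T₁ T₂)).card : ℝ) - (sl q).card * m| ≤
        (sl q).card * E := by
      rw [htot]
      push_cast
      have e : ∑ r ∈ sl q, ((Equ.cl M T₁ T₂ q r).card : ℝ) - (sl q).card * m =
          ∑ r ∈ sl q, (((Equ.cl M T₁ T₂ q r).card : ℝ) - m) := by
        rw [sum_sub_distrib, sum_const, nsmul_eq_mul]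
      rw [e]
      refine (abs_sum_le_sum_abs _ _).trans ?_
      calc _ ≤ ∑ r ∈ sl q, E := sum_le_sum fun r hr => hall r hr
        _ = _ := by rw [sum_const, nsmul_eq_mul]
    have h3 : |(((pairs 1 M).filter (Reg T₁ T₂)).card : ℝ) / ((sl q).card : ℝ) - m| ≤ E := by
      have e : (((pairs 1 M).filter (Reg T₁ T₂)).card : ℝ) / ((sl q).card : ℝ) - m =
          ((((pairs 1 M).filter (Reg T₁ T₂)).card : ℝ) - (sl q).card * m) / ((sl q).card : ℝ) := by
        field_simp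
      rw [e, abs_div, abs_of_pos (by linarith : (0 : ℝ) < ((sl q).card : ℝ)),
        div_le_iff₀ (by linarith)]
      linarith
    have h4 : |((Equ.cl M T₁ T₂ q r).card : ℝ) -
        (((pairs 1 M).filter (Reg T₁ T₂)).card : ℝ) / ((sl q).card : ℝ)| ≤ 2 * E := by
      rw [abs_le] at h1 h3 ⊢
      constructor <;> linarith [h1.1, h1.2, h3.1, h3.2]
    refine h4.trans ?_
    have hE' : 2 * E = 2 * C * L ^ 8 * (q : ℝ) ^ 4 * X * (1 / y) := by rw [hE]; ring
    rw [hE']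
    have hqq : (q : ℝ) ^ 4 ≤ (q : ℝ) ^ 8 := pow_le_pow_right₀ hq1 (by norm_num)
    gcongr
    exact le_max_left _ _

end Pool.Agent.Lib.MP391708.T1
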