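import Pool.Agent.Lib.MP_391708_nt.T1.SpecC

/-!
# T1, MEANQ: the mean of `ra a q` over a residue class modulo `q`
-/

set_option autoImplicit false

namespace Pool.Agent.Lib.MP391708.T1

open Finset Filter Topology
open Pool.Agent.Lib.MP391708.Eqd
open scoped Classical

namespace MeanQ

/-- the number of elements of `(0, t]` in a residue class -/
theorem card_class (n : ℕ) (hn : 0 < n) (v : ℤ) (t : ℕ) :
    |((((Icc 1 t).filter (fun a : ℕ => (n : ℤ) ∣ (a : ℤ) - v)).card : ℕ) : ℝ) - (t : ℝ) / n| ≤ 1 := by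
  have hn' : (0 : ℤ) < n := by exact_mod_cast hn
  have h1 : ((Icc 1 t).filter (fun a : ℕ => (n : ℤ) ∣ (a : ℤ) - v)).card =
      ((Ioc (0 : ℤ) t).filter (fun x => x ≡ v [ZMOD n])).card := by
    refine Finset.card_bij (fun (a : ℕ) (_ : a ∈ (Icc 1 t).filter
      (fun a : ℕ => (n : ℤ) ∣ (a : ℤ) - v)) => (a : ℤ)) ?_ ?_ ?_
    · intro a ha
      simp only [mem_filter, mem_Icc, mem_Ioc] at ha ⊢
      refine ⟨⟨by omega, by omega⟩, ?_⟩
      exact (Int.modEq_iff_dvd.mpr ha.2).symm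
    · intro a _ b _ h
      exact_mod_cast h
    · intro b hb
      simp only [mem_filter, mem_Ioc] at hb
      refine ⟨b.toNat, ?_, by rw [Int.toNat_of_nonneg (by omega)]⟩
      simp only [mem_filter, mem_Icc]
      refine ⟨⟨by omega, by omega⟩, ?_⟩
      rw [Int.toNat_of_nonneg (by omega)]
      exact Int.modEq_iff_dvd.mp hb.2.symm
  have h2 := Int.Ioc_filter_modEq_card 0 (t : ℤ) hn' v
  rw [h1]
  have hnR : (0 : ℝ) < n := by exact_mod_cast hn
  have hle : (⌊(((0 : ℤ) : ℚ) - v) / ((n : ℤ) : ℚ)⌋ : ℤ) ≤ ⌊(((t : ℤ) : ℚ) - v) / ((n : ℤ) : ℚ)⌋ := by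
    apply Int.floor_le_floor
    apply div_le_div_of_nonneg_right _ (by positivity)
    have : (0 : ℚ) ≤ t := by positivity
    push_cast
    linarith
  rw [max_eq_left (by omega)] at h2
  have h3 : ((((Ioc (0 : ℤ) t).filter (fun x => x ≡ v [ZMOD n])).card : ℕ) : ℝ) =
      ((⌊(((t : ℤ) : ℚ) - v) / ((n : ℤ) : ℚ)⌋ : ℤ) : ℝ) - ((⌊(((0 : ℤ) : ℚ) - v) / ((n : ℤ) : ℚ)⌋ : ℤ) : ℝ) := by
    exact_mod_cast h2
  rw [h3]
  set A : ℚ := (((t : ℤ) : ℚ) - v) / ((n : ℤ) : ℚ) with hA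
  set B : ℚ := (((0 : ℤ) : ℚ) - v) / ((n : ℤ) : ℚ) with hB
  have hAB : (A : ℝ) - (B : ℝ) = (t : ℝ) / n := by
    rw [hA, hB]; push_cast; field_simp; ring
  have a1 : ((⌊A⌋ : ℤ) : ℝ) ≤ (A : ℝ) := by exact_mod_cast Int.floor_le A
  have a2 : (A : ℝ) < ((⌊A⌋ : ℤ) : ℝ) + 1 := by exact_mod_cast Int.lt_floor_add_one A
  have b1 : ((⌊B⌋ : ℤ) : ℝ) ≤ (B : ℝ) := by exact_mod_cast Int.floor_le B
  have b2 : (B : ℝ) < ((⌊B⌋ : ℤ) : ℝ) + 1 := by exact_mod_cast Int.lt_floor_add_one B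
  rw [abs_le]
  constructor <;> linarith

/-- the multiples of `m` in a residue class modulo `q`, `(m, q) = 1` -/
theorem card_mul (m q : ℕ) (hm : 0 < m) (hq : 0 < q) (h : m.Coprime q) (r : ℤ) (t : ℕ) :
    |((((Icc 1 t).filter (fun a : ℕ => (q : ℤ) ∣ (a : ℤ) - r ∧ m ∣ a)).card : ℕ) : ℝ) -
      (t : ℝ) / (m * q)| ≤ 1 := by
  -- a solution of `v = 0 mod m`, `v = r mod q`
  obtain ⟨x, hx⟩ : ∃ x : ℤ, (q : ℤ) ∣ (m : ℤ) * x - r := by
    have hg : Int.gcd m q = 1 := by simpa [Int.gcd_natCast_natCast] using h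
    obtain ⟨u, w, huw⟩ : ∃ u w : ℤ, (m : ℤ) * u + (q : ℤ) * w = 1 := by
      refine ⟨Int.gcdA m q, Int.gcdB m q, ?_⟩
      have := Int.gcd_eq_gcd_ab m q
      rw [hg] at this
      simpa using this.symm
    refine ⟨u * r, ⟨-(w * r), ?_⟩⟩
    linear_combination r * huw
  have := card_class (m * q) (Nat.mul_pos hm hq) (m * x) t
  have he : (Icc 1 t).filter (fun a : ℕ => (q : ℤ) ∣ (a : ℤ) - r ∧ m ∣ a) =
      (Icc 1 t).filter (fun a : ℕ => ((m * q : ℕ) : ℤ) ∣ (a : ℤ) - m * x) := by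
    apply filter_congr
    intro a _
    constructor
    · rintro ⟨h1, h2⟩
      have hd1 : (q : ℤ) ∣ (a : ℤ) - m * x := by
        have := dvd_sub h1 hx
        rwa [sub_sub_sub_cancel_right] at this
      have hd2 : (m : ℤ) ∣ (a : ℤ) - m * x :=
        dvd_sub (by exact_mod_cast h2) (dvd_mul_right _ _)
      rw [Nat.cast_mul]
      exact IsCoprime.mul_dvd (Nat.isCoprime_iff_coprime.mpr h) hd2 hd1
    · intro h1
      rw [Nat.cast_mul] at h1
      constructor
      · have := (dvd_trans (dvd_mul_left (q : ℤ) (m : ℤ)) h1)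
        have := dvd_add this hx
        rwa [sub_add_sub_cancel] at this
      · have h2 := (dvd_trans (dvd_mul_right (m : ℤ) (q : ℤ)) h1)
        have := dvd_add h2 (dvd_mul_right (m : ℤ) x)
        rw [sub_add_cancel] at this
        exact_mod_cast this
  rw [he]
  push_cast at this
  exact_mod_cast this

/-- `∑_{m ≤ t} 1/m ≤ 1 + log t` -/
theorem harm (t : ℕ) : ∑ m ∈ Icc 1 t, (1 : ℝ) / m ≤ 1 + Real.log t := by
  have h := harmonic_le_one_add_log t
  rw [harmonic_eq_sum_Icc] at h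
  push_cast at h
  simpa [one_div] using h

/-- the terms of the series `zq` -/
noncomputable def zt (q m : ℕ) : ℝ :=
  if m.Coprime q then (ArithmeticFunction.moebius m : ℝ) / (m : ℝ) ^ 2 else 0

theorem zt_le (q m : ℕ) : |zt q m| ≤ 1 / (m : ℝ) ^ 2 := by
  unfold zt
  split_ifs
  · rw [abs_div, abs_of_nonneg (by positivity : (0 : ℝ) ≤ (m : ℝ) ^ 2)]
    have : |(ArithmeticFunction.moebius m : ℝ)| ≤ 1 := by
      have := ArithmeticFunction.abs_moebius_le_one (n := m)
      exact_mod_cast this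
    gcongr
  · simp

theorem summ (q : ℕ) : Summable (zt q) := by
  apply Summable.of_abs
  apply Summable.of_nonneg_of_le (fun m => abs_nonneg _) (fun m => zt_le q m)
  exact Real.summable_one_div_nat_pow.mpr (by norm_num)

/-- the tail of the series -/
theorem tail (q t : ℕ) (ht : 1 ≤ t) : |zq q - ∑ m ∈ Icc 1 t, zt q m| ≤ 1 / (t : ℝ) := by
  have h0 : zt q 0 = 0 := by
    unfold zt
    simp
  have h1 : ∑ m ∈ Icc 1 t, zt q m = ∑ m ∈ range (t + 1), zt q m := by
    rw [Finset.range_eq_Ico, Finset.sum_eq_sum_Ico_succ_bot (by omega), h0, zero_add]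
    rfl
  have h2 : zq q = ∑ m ∈ range (t + 1), zt q m + ∑' m, zt q (m + (t + 1)) := by
    have := (summ q).sum_add_tsum_nat_add (t + 1)
    rw [this]
    rfl
  rw [h1, h2, add_sub_cancel_left]
  have hs : Summable (fun m : ℕ => zt q (m + (t + 1))) := (summable_nat_add_iff (t + 1)).mpr (summ q)
  have hs' : Summable (fun m : ℕ => 1 / ((m + (t + 1) : ℕ) : ℝ) ^ 2) :=
    (summable_nat_add_iff (f := fun m : ℕ => 1 / (m : ℝ) ^ 2) (t + 1)).mpr
      (Real.summable_one_div_nat_pow.mpr (by norm_num))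
  have h3 : |∑' m, zt q (m + (t + 1))| ≤ ∑' m : ℕ, 1 / ((m + (t + 1) : ℕ) : ℝ) ^ 2 := by
    have h4 := norm_tsum_le_tsum_norm (f := fun m : ℕ => zt q (m + (t + 1))) hs.norm
    refine h4.trans ?_
    apply Summable.tsum_le_tsum _ hs.norm hs'
    intro m
    exact zt_le q _
  refine h3.trans ?_
  -- telescoping
  have ht0 : (0 : ℝ) < t := by exact_mod_cast ht
  have hb : ∀ n : ℕ, ∑ m ∈ range n, 1 / ((m + (t + 1) : ℕ) : ℝ) ^ 2 ≤ 1 / (t : ℝ) - 1 / (t + n : ℝ) := by
    intro n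
    induction n with
    | zero => simp
    | succ n ih =>
      rw [sum_range_succ]
      have hp : (0 : ℝ) < (t : ℝ) + n := by positivity
      have : 1 / ((n + (t + 1) : ℕ) : ℝ) ^ 2 ≤ 1 / ((t : ℝ) + n) - 1 / ((t : ℝ) + ((n + 1 : ℕ) : ℝ)) := by
        push_cast
        rw [div_sub_div _ _ (by positivity) (by positivity), div_le_div_iff₀ (by positivity) (by positivity)]
        nlinarith
      linarith
  apply hs'.tsum_le_of_sum_range_le
  intro n
  refine (hb n).trans ?_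
  have : 0 ≤ 1 / ((t : ℝ) + n) := by positivity
  linarith

end MeanQ

open MeanQ in
theorem specMeanQ : SpecMeanQ := by
  intro q hq r t
  have hqR : (0 : ℝ) < q := by exact_mod_cast hq
  rcases Nat.eq_zero_or_pos t with ht | ht
  · subst ht
    simp
  have htR : (1 : ℝ) ≤ t := by exact_mod_cast ht
  -- exchange the sums
  set c : ℕ → ℝ := fun m => ((((Icc 1 t).filter (fun a : ℕ => (q : ℤ) ∣ (a : ℤ) - r ∧ m ∣ a)).card : ℕ) : ℝ)
    with hc
  have hsum : ∑ a ∈ (Icc 1 t).filter (fun a : ℕ => (q : ℤ) ∣ (a : ℤ) - r), ra a q =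
      ∑ m ∈ (Icc 1 t).filter (fun m => m.Coprime q), (ArithmeticFunction.moebius m : ℝ) / m * c m := by
    have e1 : ∀ a ∈ (Icc 1 t).filter (fun a : ℕ => (q : ℤ) ∣ (a : ℤ) - r), ra a q =
        ∑ m ∈ (Icc 1 t).filter (fun m => m.Coprime q),
          if m ∣ a then (ArithmeticFunction.moebius m : ℝ) / m else 0 := by
      intro a ha
      simp only [mem_filter, mem_Icc] at ha
      unfold ra
      rw [← sum_filter]
      apply sum_congr _ (fun _ _ => rfl)
      ext m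
      simp only [mem_filter, Nat.mem_divisors, mem_Icc]
      constructor
      · rintro ⟨⟨h1, h2⟩, h3⟩
        exact ⟨⟨⟨Nat.pos_of_dvd_of_pos h1 (by omega), (Nat.le_of_dvd (by omega) h1).trans ha.1.2⟩, h3⟩, h1⟩
      · rintro ⟨⟨h1, h3⟩, h2⟩
        exact ⟨⟨h2, by omega⟩, h3⟩
    rw [sum_congr rfl e1, sum_comm]
    apply sum_congr rfl
    intro m _
    rw [← sum_filter, sum_const, nsmul_eq_mul, mul_comm, hc]
    simp only [filter_filter]
  have hmain : ∑ m ∈ (Icc 1 t).filter (fun m => m.Coprime q), (ArithmeticFunction.moebius m : ℝ) / m *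
      ((t : ℝ) / (m * q)) = (∑ m ∈ Icc 1 t, zt q m) / q * t := by
    rw [sum_filter, sum_div, sum_mul]
    apply sum_congr rfl
    intro m hm
    have hmR : (0 : ℝ) < m := by
      have := (mem_Icc.mp hm).1
      exact_mod_cast this
    unfold zt
    split_ifs
    · field_simp
    · simp
  have herr : |∑ m ∈ (Icc 1 t).filter (fun m => m.Coprime q), (ArithmeticFunction.moebius m : ℝ) / m * c m -
      ∑ m ∈ (Icc 1 t).filter (fun m => m.Coprime q), (ArithmeticFunction.moebius m : ℝ) / m *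
      ((t : ℝ) / (m * q))| ≤ 1 + Real.log t := by
    rw [← sum_sub_distrib]
    refine (abs_sum_le_sum_abs _ _).trans ?_
    refine le_trans ?_ (harm t)
    refine le_trans ?_ (sum_le_sum_of_subset_of_nonneg (filter_subset (fun m => m.Coprime q) (Icc 1 t))
      (fun i _ _ => by positivity))
    apply sum_le_sum
    intro m hm
    simp only [mem_filter, mem_Icc] at hm
    have hmR : (0 : ℝ) < m := by exact_mod_cast hm.1.1
    rw [← mul_sub, abs_mul, abs_div, abs_of_pos hmR]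
    have h1 : |(ArithmeticFunction.moebius m : ℝ)| ≤ 1 := by
      have := ArithmeticFunction.abs_moebius_le_one (n := m)
      exact_mod_cast this
    have h2 := card_mul m q hm.1.1 hq hm.2 r t
    calc |(ArithmeticFunction.moebius m : ℝ)| / m * |c m - (t : ℝ) / (m * q)| ≤ 1 / m * 1 := by
          gcongr
      _ = 1 / m := by ring
  have htail := tail q t ht
  have h5 : |(∑ m ∈ Icc 1 t, zt q m) / q * t - zq q / q * t| ≤ 1 := by
    rw [← sub_mul, ← sub_div, abs_mul, abs_div, abs_of_pos hqR, abs_of_nonneg (by positivity : (0 : ℝ) ≤ t),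
      abs_sub_comm]
    have hq1 : (1 : ℝ) ≤ q := by exact_mod_cast hq
    have ht0 : (0 : ℝ) < t := by linarith
    calc |zq q - ∑ m ∈ Icc 1 t, zt q m| / q * t ≤ (1 / t) / 1 * t := by gcongr
      _ = 1 := by field_simp
  rw [hsum]
  rw [hmain] at herr
  have hlog : 0 ≤ Real.log t := Real.log_nonneg htR
  calc |∑ m ∈ (Icc 1 t).filter (fun m => m.Coprime q), (ArithmeticFunction.moebius m : ℝ) / m * c m -
        zq q / q * t| ≤ |∑ m ∈ (Icc 1 t).filter (fun m => m.Coprime q),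
          (ArithmeticFunction.moebius m : ℝ) / m * c m - (∑ m ∈ Icc 1 t, zt q m) / q * t| +
        |(∑ m ∈ Icc 1 t, zt q m) / q * t - zq q / q * t| := abs_sub_le _ _ _
    _ ≤ (1 + Real.log t) + 1 := by gcongr
    _ ≤ 4 * (1 + Real.log t) := by linarith

end Pool.Agent.Lib.MP391708.T1
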