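import Pool.Agent.Lib.MP_391708_nt.T1.SpecC
import Pool.Agent.Lib.MP_391708_nt.Div
import Pool.Agent.Lib.MP_1446ad_nt.SM.DEC
import Pool.Agent.Lib.MP_1446ad_nt.SM.AVG

/-!
# T1, PWR: the error terms of BOXQ on average
-/

set_option autoImplicit false

namespace Pool.Agent.Lib.MP391708.T1

open Finset Filter Topology
open scoped Classical

namespace Pwr

open Pool.Agent.Lib.MP_1446ad_nt.SM

theorem uu_dvd {a q : ℕ} (ha : 0 < a) (hq : 0 < q) : uu a ∣ q * uu (a * q) := by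
  have hD := specDEC a ha
  apply DECM.dvd_of_squarefree hD.2.2.1
  intro p hp hpu
  by_cases hpq : p ∣ q
  · exact Dvd.dvd.mul_right hpq _
  · apply Dvd.dvd.mul_left
    unfold uu at hpu ⊢
    rw [Prime.dvd_finsetProd_iff hp.prime] at hpu
    obtain ⟨r, hr, hpr⟩ := hpu
    rw [mem_filter] at hr
    have hrp : r.Prime := Nat.prime_of_mem_primeFactors hr.1
    have e : p = r := (Nat.prime_dvd_prime_iff_eq hp hrp).mp hpr
    subst e
    apply Finset.dvd_prod_of_mem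
    rw [mem_filter]
    refine ⟨Nat.mem_primeFactors.mpr ⟨hp, Dvd.dvd.mul_right (Nat.dvd_of_mem_primeFactors hr.1) _,
      (Nat.mul_pos ha hq).ne'⟩, ?_⟩
    intro h
    apply hr.2
    have hc : Nat.Coprime (p ^ 2) q := Nat.Coprime.pow_left 2 ((Nat.Prime.coprime_iff_not_dvd hp).mpr hpq)
    exact hc.dvd_of_dvd_mul_right h

theorem er_one (P : ℕ) : er P 1 = 2 * tau P ^ 2 * (1 + Real.log P) ^ 2 * √(uu P : ℝ) * (vv P : ℝ) := by
  unfold er
  simp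

theorem er_nn (P : ℕ) : 0 ≤ er P 1 := by
  rw [er_one]
  have : 0 ≤ tau P := by unfold tau; positivity
  positivity

theorem tau_mul (a q : ℕ) : tau (a * q) ≤ tau a * q := by
  unfold tau
  have h1 : (a * q).divisors.card ≤ a.divisors.card * q.divisors.card := by
    open scoped Pointwise in
    rw [Nat.divisors_mul]
    exact Finset.card_mul_le
  have h2 : q.divisors.card ≤ q := Nat.card_divisors_le_self q
  have h3 : (a * q).divisors.card ≤ a.divisors.card * q := h1.trans (Nat.mul_le_mul_left _ h2)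
  exact_mod_cast h3

/-- `√u v` for `a q` -/
theorem uv_le {a q : ℕ} (ha : 0 < a) (hq : 0 < q) :
    √(uu (a * q) : ℝ) * (vv (a * q) : ℝ) ≤ q * √(q : ℝ) * (√(uu a : ℝ) * (vv a : ℝ)) := by
  have haq := Nat.mul_pos ha hq
  have h1 := (specDEC a ha).1
  have h2 := (specDEC (a * q) haq).1
  have hx : 0 < uu (a * q) := Nat.pos_of_ne_zero (by rintro h; rw [h, zero_mul] at h2; omega)
  have hy : 0 < uu a := Nat.pos_of_ne_zero (by rintro h; rw [h, zero_mul] at h1; omega)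
  have h3 : uu a ≤ q * uu (a * q) := Nat.le_of_dvd (Nat.mul_pos hq hx) (uu_dvd ha hq)
  have hxR : (0 : ℝ) < uu (a * q) := by exact_mod_cast hx
  have hyR : (0 : ℝ) < uu a := by exact_mod_cast hy
  have hqR : (0 : ℝ) < q := by exact_mod_cast hq
  have haR : (0 : ℝ) < a := by exact_mod_cast ha
  have e1 : (uu (a * q) : ℝ) * (vv (a * q) : ℝ) = a * q := by exact_mod_cast h2
  have e2 : (uu a : ℝ) * (vv a : ℝ) = a := by exact_mod_cast h1
  have h4 : √(uu a : ℝ) ≤ √(q : ℝ) * √(uu (a * q) : ℝ) := by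
    rw [← Real.sqrt_mul hqR.le]
    apply Real.sqrt_le_sqrt
    exact_mod_cast h3
  have sx := Real.mul_self_sqrt hxR.le
  have sy := Real.mul_self_sqrt hyR.le
  have px : 0 < √(uu (a * q) : ℝ) := Real.sqrt_pos.mpr hxR
  have py : 0 < √(uu a : ℝ) := Real.sqrt_pos.mpr hyR
  have f1 : √(uu (a * q) : ℝ) * (vv (a * q) : ℝ) = a * q / √(uu (a * q) : ℝ) := by
    rw [eq_div_iff px.ne']
    calc √(uu (a * q) : ℝ) * (vv (a * q) : ℝ) * √(uu (a * q) : ℝ) =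
        (√(uu (a * q) : ℝ) * √(uu (a * q) : ℝ)) * (vv (a * q) : ℝ) := by ring
      _ = a * q := by rw [sx, e1]
  have f2 : √(uu a : ℝ) * (vv a : ℝ) = a / √(uu a : ℝ) := by
    rw [eq_div_iff py.ne']
    calc √(uu a : ℝ) * (vv a : ℝ) * √(uu a : ℝ) = (√(uu a : ℝ) * √(uu a : ℝ)) * (vv a : ℝ) := by ring
      _ = a := by rw [sy, e2]
  rw [f1, f2, ← mul_div_assoc, div_le_div_iff₀ px py]
  calc (a : ℝ) * q * √(uu a : ℝ) ≤ a * q * (√(q : ℝ) * √(uu (a * q) : ℝ)) := by gcongr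
    _ = q * √(q : ℝ) * a * √(uu (a * q) : ℝ) := by ring

/-- the summand of BOXQ -/
theorem term_le {a q : ℕ} (ha : 0 < a) (hq : 0 < q) :
    4 * tau (a * q) * √(uu (a * q) : ℝ) * (vv (a * q) : ℝ) * q * tau a * (1 + Real.log a) ^ 2 ≤
      2 * (q : ℝ) ^ 4 * er a 1 := by
  have hqR : (1 : ℝ) ≤ q := by exact_mod_cast hq
  have ht : 0 ≤ tau a := by unfold tau; positivity
  have hs : √(q : ℝ) ≤ q := by
    rw [Real.sqrt_le_left (by linarith)]
    nlinarith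
  have h0 : 0 ≤ √(uu a : ℝ) * (vv a : ℝ) := by positivity
  calc 4 * tau (a * q) * √(uu (a * q) : ℝ) * (vv (a * q) : ℝ) * q * tau a * (1 + Real.log a) ^ 2
      = 4 * tau (a * q) * (√(uu (a * q) : ℝ) * (vv (a * q) : ℝ)) * (q * tau a * (1 + Real.log a) ^ 2) := by
        ring
    _ ≤ 4 * (tau a * q) * (q * √(q : ℝ) * (√(uu a : ℝ) * (vv a : ℝ))) *
        (q * tau a * (1 + Real.log a) ^ 2) := by
        have h1 := tau_mul a q
        have h2 := uv_le ha hq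
        gcongr
    _ ≤ 4 * (tau a * q) * (q * q * (√(uu a : ℝ) * (vv a : ℝ))) *
        (q * tau a * (1 + Real.log a) ^ 2) := by gcongr
    _ = 2 * (q : ℝ) ^ 4 * er a 1 := by rw [er_one]; ring

/-- the error terms on average -/
theorem sum_er : ∃ K : ℝ, 0 < K ∧ ∀ A : ℕ, 1 ≤ A →
    ∑ a ∈ Ioc 0 A, er a 1 ≤ K * (A : ℝ) ^ (3 / 2 + 1 / 100 : ℝ) := by
  obtain ⟨C, hC, hdiv⟩ := Pool.Agent.Lib.MP_391708_nt.Div.card_divisors_le_rpow (1 / 1000) (by norm_num)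
  have hAVG := specAVG specDEC
  refine ⟨2 * (C + 1001) ^ 7, by positivity, ?_⟩
  intro A hA
  have hA1 : (1 : ℝ) ≤ A := by exact_mod_cast hA
  have hA0 : (0 : ℝ) < A := by linarith
  set T : ℝ := (C + 1001) * (A : ℝ) ^ (1 / 1000 : ℝ) with hT
  have hp1 : (1 : ℝ) ≤ (A : ℝ) ^ (1 / 1000 : ℝ) := Real.one_le_rpow hA1 (by norm_num)
  have hT1 : 1 ≤ T := by rw [hT]; nlinarith
  have hmT : ∀ m : ℕ, 0 < m → m ≤ A → tau m ≤ T ∧ 1 + Real.log m ≤ T := by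
    intro m hm hmA
    have hmR : (m : ℝ) ≤ A := by exact_mod_cast hmA
    have hm0 : (0 : ℝ) < m := by exact_mod_cast hm
    have hpm : (m : ℝ) ^ (1 / 1000 : ℝ) ≤ (A : ℝ) ^ (1 / 1000 : ℝ) :=
      Real.rpow_le_rpow hm0.le hmR (by norm_num)
    constructor
    · unfold tau
      calc (m.divisors.card : ℝ) ≤ C * (m : ℝ) ^ (1 / 1000 : ℝ) := hdiv m hm
        _ ≤ C * (A : ℝ) ^ (1 / 1000 : ℝ) := by gcongr
        _ ≤ T := by rw [hT]; nlinarith
    · have h1 := Real.log_le_rpow_div hm0.le (show (0 : ℝ) < 1 / 1000 by norm_num)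
      have h2 : (m : ℝ) ^ (1 / 1000 : ℝ) / (1 / 1000) = 1000 * (m : ℝ) ^ (1 / 1000 : ℝ) := by ring
      rw [h2] at h1
      rw [hT]
      nlinarith
  have h := hAVG T A 1 hA (by norm_num) hmT (by unfold tau; simpa using hT1)
  refine h.trans ?_
  have e1 : √(A : ℝ) = (A : ℝ) ^ (1 / 2 : ℝ) := Real.sqrt_eq_rpow _
  rw [hT, mul_pow, e1]
  have e2 : ((A : ℝ) ^ (1 / 1000 : ℝ)) ^ 7 = (A : ℝ) ^ (7 / 1000 : ℝ) := by
    rw [← Real.rpow_natCast, ← Real.rpow_mul hA0.le]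
    norm_num
  rw [e2]
  calc 2 * ((C + 1001) ^ 7 * (A : ℝ) ^ (7 / 1000 : ℝ)) * A * (A : ℝ) ^ (1 / 2 : ℝ)
      = 2 * (C + 1001) ^ 7 * ((A : ℝ) ^ (7 / 1000 : ℝ) * (A : ℝ) ^ (1 : ℝ) * (A : ℝ) ^ (1 / 2 : ℝ)) := by
        rw [Real.rpow_one]; ring
    _ = 2 * (C + 1001) ^ 7 * (A : ℝ) ^ (7 / 1000 + 1 + 1 / 2 : ℝ) := by
        rw [← Real.rpow_add hA0, ← Real.rpow_add hA0]
    _ ≤ 2 * (C + 1001) ^ 7 * (A : ℝ) ^ (3 / 2 + 1 / 100 : ℝ) := by
        have := Real.rpow_le_rpow_of_exponent_le hA1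
          (show (7 / 1000 + 1 + 1 / 2 : ℝ) ≤ 3 / 2 + 1 / 100 by norm_num)
        gcongr

/-- Abel summation -/
theorem abel (f : ℕ → ℝ) (K : ℝ) (hK : 0 < K)
    (h : ∀ A : ℕ, 1 ≤ A → ∑ a ∈ Ioc 0 A, f a ≤ K * (A : ℝ) ^ (3 / 2 + 1 / 100 : ℝ)) (n : ℕ) :
    ∑ a ∈ Ioc 0 n, f a / a ≤ (∑ a ∈ Ioc 0 n, f a) / n + 2 * K * (n : ℝ) ^ (1 / 2 + 1 / 100 : ℝ) := by
  induction n with
  | zero => simp; positivity
  | succ n ih =>
    rw [← Finset.insert_Ioc_right_eq_Ioc_add_one (by omega : 0 ≤ n), sum_insert (by simp),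
      sum_insert (by simp)]
    rcases Nat.eq_zero_or_pos n with hn | hn
    · subst hn
      simp
      positivity
    have hnR : (1 : ℝ) ≤ n := by exact_mod_cast hn
    have hn0 : (0 : ℝ) < n := by linarith
    set S : ℝ := ∑ a ∈ Ioc 0 n, f a with hS
    have hSn : S ≤ K * (n : ℝ) ^ (3 / 2 + 1 / 100 : ℝ) := h n hn
    push_cast
    -- key inequality
    have key : S / (n * (n + 1)) ≤ 2 * K * ((n : ℝ) + 1) ^ (1 / 2 + 1 / 100 : ℝ) -
        2 * K * (n : ℝ) ^ (1 / 2 + 1 / 100 : ℝ) := by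
      have b1 : ((n : ℝ)) ^ (1 / 2 + 1 / 100 : ℝ) ≤
          ((n : ℝ) + 1) ^ (1 / 2 + 1 / 100 : ℝ) - 51 / 100 * ((n : ℝ) + 1) ^ (1 / 2 + 1 / 100 : ℝ) / (n + 1) := by
        have hb := rpow_one_add_le_one_add_mul_self
          (show (-1 : ℝ) ≤ -(1 / (n + 1 : ℝ)) by
            rw [neg_le_neg_iff, div_le_one (by positivity)]; linarith)
          (show (0 : ℝ) ≤ 1 / 2 + 1 / 100 by norm_num) (show (1 / 2 + 1 / 100 : ℝ) ≤ 1 by norm_num)
        have e : (n : ℝ) = (n + 1) * (1 + -(1 / (n + 1 : ℝ))) := by field_simp; ring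
        have hpos : (0 : ℝ) ≤ 1 + -(1 / (n + 1 : ℝ)) := by
          have : 1 / (n + 1 : ℝ) ≤ 1 := by rw [div_le_one (by positivity)]; linarith
          linarith
        calc ((n : ℝ)) ^ (1 / 2 + 1 / 100 : ℝ) = ((n + 1) * (1 + -(1 / (n + 1 : ℝ)))) ^ (1 / 2 + 1 / 100 : ℝ) := by
              rw [← e]
          _ = ((n : ℝ) + 1) ^ (1 / 2 + 1 / 100 : ℝ) * (1 + -(1 / (n + 1 : ℝ))) ^ (1 / 2 + 1 / 100 : ℝ) :=
              Real.mul_rpow (by positivity) hpos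
          _ ≤ ((n : ℝ) + 1) ^ (1 / 2 + 1 / 100 : ℝ) * (1 + (1 / 2 + 1 / 100) * -(1 / (n + 1 : ℝ))) := by
              gcongr
          _ = _ := by ring
      have b2 : (n : ℝ) ^ (3 / 2 + 1 / 100 : ℝ) / n ≤ ((n : ℝ) + 1) ^ (1 / 2 + 1 / 100 : ℝ) := by
        have : (n : ℝ) ^ (3 / 2 + 1 / 100 : ℝ) = (n : ℝ) ^ (1 / 2 + 1 / 100 : ℝ) * n := by
          rw [show (3 / 2 + 1 / 100 : ℝ) = (1 / 2 + 1 / 100) + 1 by norm_num, Real.rpow_add hn0,
            Real.rpow_one]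
        rw [this, mul_div_assoc, div_self hn0.ne', mul_one]
        exact Real.rpow_le_rpow hn0.le (by linarith) (by norm_num)
      set R : ℝ := ((n : ℝ) + 1) ^ (1 / 2 + 1 / 100 : ℝ) with hR
      have hR0 : 0 ≤ R := by positivity
      calc S / (n * (n + 1)) ≤ K * (n : ℝ) ^ (3 / 2 + 1 / 100 : ℝ) / (n * (n + 1)) := by gcongr
        _ = K * ((n : ℝ) ^ (3 / 2 + 1 / 100 : ℝ) / n) / (n + 1) := by field_simp
        _ ≤ K * R / (n + 1) := by gcongr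
        _ ≤ 2 * K * R - 2 * K * (R - 51 / 100 * R / (n + 1)) := by
            have : 2 * K * R - 2 * K * (R - 51 / 100 * R / (n + 1)) = 102 / 100 * (K * R / (n + 1)) := by ring
            rw [this]
            have : 0 ≤ K * R / (n + 1) := by positivity
            linarith
        _ ≤ _ := by
            have := mul_le_mul_of_nonneg_left b1 (by positivity : (0 : ℝ) ≤ 2 * K)
            linarith
    have e3 : S / n = S / (n + 1) + S / (n * (n + 1)) := by field_simp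
    have e4 : (f (n + 1) + S) / ((n : ℝ) + 1) = f (n + 1) / (n + 1) + S / (n + 1) := add_div _ _ _
    rw [e4]
    linarith

end Pwr

open Pwr in
theorem specPwr : SpecPwr := by
  obtain ⟨K, hK, hsum⟩ := sum_er
  refine ⟨6 * K, by positivity, ?_⟩
  intro q A hq hA
  have hA1 : (1 : ℝ) ≤ A := by exact_mod_cast hA
  have hA0 : (0 : ℝ) < A := by linarith
  have hS := hsum A hA
  have hq4 : (0 : ℝ) ≤ (q : ℝ) ^ 4 := by positivity
  constructor
  · calc _ ≤ ∑ a ∈ Ioc 0 A, 2 * (q : ℝ) ^ 4 * MP_1446ad_nt.SM.er a 1 := by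
          apply sum_le_sum
          intro a ha
          exact term_le (mem_Ioc.mp ha).1 hq
      _ = 2 * (q : ℝ) ^ 4 * ∑ a ∈ Ioc 0 A, MP_1446ad_nt.SM.er a 1 := by rw [mul_sum]
      _ ≤ 2 * (q : ℝ) ^ 4 * (K * (A : ℝ) ^ (3 / 2 + 1 / 100 : ℝ)) := by gcongr
      _ ≤ 6 * K * (q : ℝ) ^ 4 * (A : ℝ) ^ (3 / 2 + 1 / 100 : ℝ) := by
          have : 0 ≤ K * (q : ℝ) ^ 4 * (A : ℝ) ^ (3 / 2 + 1 / 100 : ℝ) := by positivity
          nlinarith
  · have hab := abel (fun a => MP_1446ad_nt.SM.er a 1) K hK hsum A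
    have h1 : (∑ a ∈ Ioc 0 A, MP_1446ad_nt.SM.er a 1) / A ≤ K * (A : ℝ) ^ (1 / 2 + 1 / 100 : ℝ) := by
      rw [div_le_iff₀ hA0]
      refine hS.trans (le_of_eq ?_)
      rw [show (3 / 2 + 1 / 100 : ℝ) = (1 / 2 + 1 / 100) + 1 by norm_num, Real.rpow_add hA0,
        Real.rpow_one]
      ring
    calc _ ≤ ∑ a ∈ Ioc 0 A, 2 * (q : ℝ) ^ 4 * (MP_1446ad_nt.SM.er a 1 / a) := by
          apply sum_le_sum
          intro a ha
          have ha0 := (mem_Ioc.mp ha).1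
          have haR : (0 : ℝ) < a := by exact_mod_cast ha0
          rw [← mul_div_assoc]
          have := term_le ha0 hq
          gcongr
      _ = 2 * (q : ℝ) ^ 4 * ∑ a ∈ Ioc 0 A, MP_1446ad_nt.SM.er a 1 / a := by rw [mul_sum]
      _ ≤ 2 * (q : ℝ) ^ 4 * (K * (A : ℝ) ^ (1 / 2 + 1 / 100 : ℝ) +
          2 * K * (A : ℝ) ^ (1 / 2 + 1 / 100 : ℝ)) := by
          have := hab.trans (add_le_add_left h1 _)
          gcongr
      _ = 6 * K * (q : ℝ) ^ 4 * (A : ℝ) ^ (1 / 2 + 1 / 100 : ℝ) := by ring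

end Pool.Agent.Lib.MP391708.T1
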