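import Pool.Agent.Lib.MP_391708_nt.T1.Equid
import Pool.Agent.Lib.MP_391708_nt.T1.BoxQ
import Pool.Agent.Lib.MP_391708_nt.T1.MeanQ
import Pool.Agent.Lib.MP_391708_nt.T1.Pwr

/-!
# T1, group C: EQUID, unconditional
-/

set_option autoImplicit false

namespace Pool.Agent.Lib.MP391708.T1

/-- equidistribution of unimodular pairs in residue classes -/
theorem equid : SpecEquid := specEquid specBoxQ specMeanQ specPwr

end Pool.Agent.Lib.MP391708.T1
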