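import Pool.Agent.Lib.MP_391708_nt.T1.Flg

/-!
# T1, group F1, part A: the moments of the numbers of prime divisors in two ranges

`iv u x = 1` if `u ∣ nsq x.1`, `iw v x = 1` if `v ∣ nsq x.2`.  `R` is a set of pairs in which the
classes modulo all `q ≤ Q` are equidistributed.
-/

set_option autoImplicit false

namespace Pool.Agent.Lib.MP391708.T1

open Finset
open Pool.Agent.Lib.MP391708.Eqd
open scoped Classical

/-- `u ∣ d` -/
noncomputable def iv (u : ℕ) (x : V × V) : ℝ := if (u : ℤ) ∣ nsq x.1 then 1 else 0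

/-- `v ∣ e` -/
noncomputable def iw (u : ℕ) (x : V × V) : ℝ := if (u : ℤ) ∣ nsq x.2 then 1 else 0

lemma iv_nonneg (u : ℕ) (x : V × V) : 0 ≤ iv u x := by unfold iv; split_ifs <;> norm_num
lemma iv_le_one (u : ℕ) (x : V × V) : iv u x ≤ 1 := by unfold iv; split_ifs <;> norm_num
lemma iw_nonneg (u : ℕ) (x : V × V) : 0 ≤ iw u x := by unfold iw; split_ifs <;> norm_num
lemma iw_le_one (u : ℕ) (x : V × V) : iw u x ≤ 1 := by unfold iw; split_ifs <;> norm_num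
lemma iv_sq (u : ℕ) (x : V × V) : iv u x * iv u x = iv u x := by
  unfold iv; split_ifs <;> norm_num
lemma iw_sq (u : ℕ) (x : V × V) : iw u x * iw u x = iw u x := by
  unfold iw; split_ifs <;> norm_num

lemma nsq_res {u : ℕ} {v w : V} (h1 : (v.1 : ZMod u) = w.1) (h2 : (v.2 : ZMod u) = w.2) :
    ((u : ℤ) ∣ nsq v ↔ (u : ℤ) ∣ nsq w) := by
  rw [← ZMod.intCast_zmod_eq_zero_iff_dvd, ← ZMod.intCast_zmod_eq_zero_iff_dvd]
  simp only [nsq]
  push_cast
  rw [h1, h2]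

lemma iv_per (u : ℕ) : Per u (iv u) := by
  intro x y h
  simp only [res, Prod.mk.injEq] at h
  unfold iv
  rw [if_congr (nsq_res h.1.1 h.1.2) rfl rfl]

lemma iw_per (u : ℕ) : Per u (iw u) := by
  intro x y h
  simp only [res, Prod.mk.injEq] at h
  unfold iw
  rw [if_congr (nsq_res h.2.1 h.2.2) rfl rfl]

/-- modulus of two primes -/
def m2 (u u' : ℕ) : ℕ := if u = u' then u else u * u'

/-- mean of two primes -/
noncomputable def a2 (a : ℕ → ℝ) (u u' : ℕ) : ℝ := if u = u' then a u else a u * a u'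

lemma m2_ne {u u' : ℕ} (h : u.Prime) (h' : u'.Prime) : m2 u u' ≠ 0 := by
  unfold m2; split_ifs
  · exact h.ne_zero
  · exact mul_ne_zero h.ne_zero h'.ne_zero

lemma m2_le {u u' B : ℕ} (hp : u.Prime) (h : u ≤ B) (h' : u' ≤ B) : m2 u u' ≤ B ^ 2 := by
  unfold m2
  have hB : 1 ≤ B := hp.one_lt.le.trans h
  split_ifs
  · nlinarith
  · rw [sq]; exact Nat.mul_le_mul h h'

lemma m2_dvd (u u' : ℕ) : m2 u u' ∣ u * u' := by
  unfold m2; split_ifs
  · exact dvd_mul_right _ _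
  · exact dvd_rfl

lemma cop_m2 {u u' v v' : ℕ} (h : (u * u').Coprime (v * v')) :
    (m2 u u').Coprime (m2 v v') :=
  Nat.Coprime.coprime_dvd_left (m2_dvd _ _) (Nat.Coprime.coprime_dvd_right (m2_dvd _ _) h)

/-- two indicators of the same kind -/
lemma mn_two {g : ℕ → V × V → ℝ} (hg : ∀ u, Per u (g u)) (hs : ∀ u x, g u x * g u x = g u x)
    {a : ℕ → ℝ} {u u' : ℕ} (hu : u.Prime) (hu' : u'.Prime) (h : mn u (g u) = a u)
    (h' : mn u' (g u') = a u') :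
    Per (m2 u u') (fun x => g u x * g u' x) ∧
      mn (m2 u u') (fun x => g u x * g u' x) = a2 a u u' := by
  unfold m2 a2
  split_ifs with he
  · subst he
    have e : (fun x => g u x * g u x) = g u := by funext x; exact hs u x
    rw [e]
    exact ⟨hg u, h⟩
  · have hc : u.Coprime u' := (Nat.coprime_primes hu hu').2 he
    constructor
    · exact ((hg u).mono (dvd_mul_right _ _)).mul ((hg u').mono (dvd_mul_left _ _))
    · rw [mn_mul hc hu.ne_zero hu'.ne_zero (hg u) (hg u'), h, h']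

/-- `∑ a2 ≤ A² + A` -/
lemma sum_a2 {U : Finset ℕ} {a : ℕ → ℝ} (ha : ∀ u ∈ U, 0 ≤ a u) :
    ∑ u ∈ U, ∑ u' ∈ U, a2 a u u' ≤ (∑ u ∈ U, a u) ^ 2 + ∑ u ∈ U, a u := by
  have h1 : ∀ u ∈ U, ∑ u' ∈ U, a2 a u u' ≤ a u * (∑ u' ∈ U, a u') + a u := by
    intro u hu
    rw [Finset.mul_sum]
    have h2 : ∀ u' ∈ U, a2 a u u' ≤ a u * a u' + if u = u' then a u else 0 := by
      intro u' hu'
      unfold a2
      have := mul_nonneg (ha u hu) (ha u' hu')
      split_ifs <;> linarith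
    refine (Finset.sum_le_sum h2).trans ?_
    rw [Finset.sum_add_distrib, Finset.sum_ite_eq, if_pos hu]
  refine (Finset.sum_le_sum h1).trans ?_
  rw [Finset.sum_add_distrib, ← Finset.sum_mul, sq]

lemma a2_nonneg {U : Finset ℕ} {a : ℕ → ℝ} (ha : ∀ u ∈ U, 0 ≤ a u) {u u' : ℕ} (hu : u ∈ U)
    (hu' : u' ∈ U) : 0 ≤ a2 a u u' := by
  unfold a2; split_ifs
  · exact ha u hu
  · exact mul_nonneg (ha u hu) (ha u' hu')

/-- equidistribution of all classes to moduli `≤ Q` in `R`, error `Er` -/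
def EqR (R : Finset (V × V)) (Q : ℕ) (Er : ℝ) : Prop :=
  ∀ q : ℕ, q ≠ 0 → q ≤ Q → ∀ F : V × V → ℝ, Per q F → (∀ x, 0 ≤ F x ∧ F x ≤ 1) →
    |∑ x ∈ R, F x - R.card * mn q F| ≤ Er

/-- the number of prime divisors of `d` in `U` -/
noncomputable def nv (U : Finset ℕ) (x : V × V) : ℝ := ∑ u ∈ U, iv u x

/-- the number of prime divisors of `e` in `U` -/
noncomputable def nw (U : Finset ℕ) (x : V × V) : ℝ := ∑ u ∈ U, iw u x

lemma nv_nonneg (U : Finset ℕ) (x : V × V) : 0 ≤ nv U x :=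
  Finset.sum_nonneg fun _ _ => iv_nonneg _ _

lemma nw_nonneg (U : Finset ℕ) (x : V × V) : 0 ≤ nw U x :=
  Finset.sum_nonneg fun _ _ => iw_nonneg _ _

/-- first moment -/
theorem mom1 {R : Finset (V × V)} {Q B B' : ℕ} {Er : ℝ} (hR : EqR R Q Er) {U W : Finset ℕ}
    {a b : ℕ → ℝ} (hU : ∀ u ∈ U, u.Prime ∧ u ≤ B ∧ mn u (iv u) = a u)
    (hW : ∀ v ∈ W, v.Prime ∧ v ≤ B' ∧ mn v (iw v) = b v) (hUW : Disjoint U W)
    (hQ : B * B' ≤ Q) :
    |∑ x ∈ R, nv U x * nw W x - R.card * ((∑ u ∈ U, a u) * ∑ v ∈ W, b v)| ≤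
      U.card * W.card * Er := by
  have e1 : ∑ x ∈ R, nv U x * nw W x - R.card * ((∑ u ∈ U, a u) * ∑ v ∈ W, b v) =
      ∑ u ∈ U, ∑ v ∈ W, (∑ x ∈ R, iv u x * iw v x - R.card * (a u * b v)) := by
    have e2 : ∑ x ∈ R, nv U x * nw W x = ∑ u ∈ U, ∑ v ∈ W, ∑ x ∈ R, iv u x * iw v x := by
      have : ∀ x ∈ R, nv U x * nw W x = ∑ u ∈ U, ∑ v ∈ W, iv u x * iw v x := by
        intro x _
        unfold nv nw
        rw [Finset.sum_mul_sum]
      rw [Finset.sum_congr rfl this, Finset.sum_comm]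
      refine Finset.sum_congr rfl fun u _ => ?_
      rw [Finset.sum_comm]
    rw [e2, Finset.sum_mul_sum, Finset.mul_sum, ← Finset.sum_sub_distrib]
    refine Finset.sum_congr rfl fun u _ => ?_
    rw [Finset.mul_sum, ← Finset.sum_sub_distrib]
  rw [e1]
  have h1 : ∀ u ∈ U, ∀ v ∈ W, |∑ x ∈ R, iv u x * iw v x - R.card * (a u * b v)| ≤ Er := by
    intro u hu v hv
    obtain ⟨hup, huB, hua⟩ := hU u hu
    obtain ⟨hvp, hvB, hvb⟩ := hW v hv
    have hne : u ≠ v := by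
      rintro rfl
      exact (Finset.disjoint_left.1 hUW hu) hv
    have hc : u.Coprime v := (Nat.coprime_primes hup hvp).2 hne
    have h2 := hR (u * v) (mul_ne_zero hup.ne_zero hvp.ne_zero)
      ((Nat.mul_le_mul huB hvB).trans hQ) (fun x => iv u x * iw v x)
      (((iv_per u).mono (dvd_mul_right _ _)).mul ((iw_per v).mono (dvd_mul_left _ _)))
      (fun x => ⟨mul_nonneg (iv_nonneg _ _) (iw_nonneg _ _),
        mul_le_one₀ (iv_le_one _ _) (iw_nonneg _ _) (iw_le_one _ _)⟩)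
    rwa [mn_mul hc hup.ne_zero hvp.ne_zero (iv_per u) (iw_per v), hua, hvb] at h2
  refine (Finset.abs_sum_le_sum_abs _ _).trans ?_
  have h3 : ∀ u ∈ U, |∑ v ∈ W, (∑ x ∈ R, iv u x * iw v x - R.card * (a u * b v))| ≤
      W.card * Er := by
    intro u hu
    refine (Finset.abs_sum_le_sum_abs _ _).trans ?_
    refine (Finset.sum_le_sum (h1 u hu)).trans ?_
    rw [Finset.sum_const, nsmul_eq_mul]
  refine (Finset.sum_le_sum h3).trans ?_
  rw [Finset.sum_const, nsmul_eq_mul]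
  exact le_of_eq (by ring)

/-- mixed second moment -/
theorem mom2 {R : Finset (V × V)} {Q B B' : ℕ} {Er : ℝ} (hR : EqR R Q Er) {U W : Finset ℕ}
    {a b : ℕ → ℝ} (hU : ∀ u ∈ U, u.Prime ∧ u ≤ B ∧ mn u (iv u) = a u)
    (hW : ∀ v ∈ W, v.Prime ∧ v ≤ B' ∧ mn v (iw v) = b v) (hUW : Disjoint U W)
    (hQ : B ^ 2 * B' ^ 2 ≤ Q) :
    ∑ x ∈ R, nv U x ^ 2 * nw W x ^ 2 ≤
      R.card * (((∑ u ∈ U, a u) ^ 2 + ∑ u ∈ U, a u) * ((∑ v ∈ W, b v) ^ 2 + ∑ v ∈ W, b v)) +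
      (U.card : ℝ) ^ 2 * (W.card : ℝ) ^ 2 * Er := by
  have ha : ∀ u ∈ U, 0 ≤ a u := fun u hu => by
    rw [← (hU u hu).2.2]; exact mn_nonneg (iv_nonneg u)
  have hb : ∀ v ∈ W, 0 ≤ b v := fun v hv => by
    rw [← (hW v hv).2.2]; exact mn_nonneg (iw_nonneg v)
  have e1 : ∑ x ∈ R, nv U x ^ 2 * nw W x ^ 2 =
      ∑ u ∈ U, ∑ u' ∈ U, ∑ v ∈ W, ∑ v' ∈ W,
        ∑ x ∈ R, (iv u x * iv u' x) * (iw v x * iw v' x) := by
    have : ∀ x ∈ R, nv U x ^ 2 * nw W x ^ 2 =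
        ∑ u ∈ U, ∑ u' ∈ U, ∑ v ∈ W, ∑ v' ∈ W, (iv u x * iv u' x) * (iw v x * iw v' x) := by
      intro x _
      unfold nv nw
      rw [sq, sq, Finset.sum_mul_sum, Finset.sum_mul_sum, Finset.sum_mul]
      refine Finset.sum_congr rfl fun u _ => ?_
      rw [Finset.sum_mul]
      refine Finset.sum_congr rfl fun u' _ => ?_
      rw [Finset.mul_sum]
      refine Finset.sum_congr rfl fun v _ => ?_
      rw [Finset.mul_sum]
    rw [Finset.sum_congr rfl this, Finset.sum_comm]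
    refine Finset.sum_congr rfl fun u _ => ?_
    rw [Finset.sum_comm]
    refine Finset.sum_congr rfl fun u' _ => ?_
    rw [Finset.sum_comm]
    refine Finset.sum_congr rfl fun v _ => ?_
    rw [Finset.sum_comm]
  have h1 : ∀ u ∈ U, ∀ u' ∈ U, ∀ v ∈ W, ∀ v' ∈ W,
      ∑ x ∈ R, (iv u x * iv u' x) * (iw v x * iw v' x) ≤
        R.card * (a2 a u u' * a2 b v v') + Er := by
    intro u hu u' hu' v hv v' hv'
    obtain ⟨hup, huB, hua⟩ := hU u hu
    obtain ⟨hup', huB', hua'⟩ := hU u' hu'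
    obtain ⟨hvp, hvB, hvb⟩ := hW v hv
    obtain ⟨hvp', hvB', hvb'⟩ := hW v' hv'
    obtain ⟨p1, p2⟩ := mn_two iv_per iv_sq (a := a) hup hup' hua hua'
    obtain ⟨q1, q2⟩ := mn_two iw_per iw_sq (a := b) hvp hvp' hvb hvb'
    have hne : ∀ s ∈ U, ∀ t ∈ W, s.Prime → t.Prime → s.Coprime t := by
      intro s hs t ht hsp htp
      refine (Nat.coprime_primes hsp htp).2 ?_
      rintro rfl
      exact (Finset.disjoint_left.1 hUW hs) ht
    have hc : (m2 u u').Coprime (m2 v v') := by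
      refine cop_m2 ?_
      refine Nat.Coprime.mul_left ?_ ?_
      · exact Nat.Coprime.mul_right (hne u hu v hv hup hvp) (hne u hu v' hv' hup hvp')
      · exact Nat.Coprime.mul_right (hne u' hu' v hv hup' hvp) (hne u' hu' v' hv' hup' hvp')
    have h2 := hR (m2 u u' * m2 v v') (mul_ne_zero (m2_ne hup hup') (m2_ne hvp hvp'))
      ((Nat.mul_le_mul (m2_le hup huB huB') (m2_le hvp hvB hvB')).trans hQ)
      (fun x => (iv u x * iv u' x) * (iw v x * iw v' x))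
      ((p1.mono (dvd_mul_right _ _)).mul (q1.mono (dvd_mul_left _ _)))
      (fun x => ⟨mul_nonneg (mul_nonneg (iv_nonneg _ _) (iv_nonneg _ _))
          (mul_nonneg (iw_nonneg _ _) (iw_nonneg _ _)),
        mul_le_one₀ (mul_le_one₀ (iv_le_one _ _) (iv_nonneg _ _) (iv_le_one _ _))
          (mul_nonneg (iw_nonneg _ _) (iw_nonneg _ _))
          (mul_le_one₀ (iw_le_one _ _) (iw_nonneg _ _) (iw_le_one _ _))⟩)
    rw [mn_mul hc (m2_ne hup hup') (m2_ne hvp hvp') p1 q1, p2, q2] at h2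
    have := (abs_le.1 h2).2
    linarith
  rw [e1]
  have h2 : ∑ u ∈ U, ∑ u' ∈ U, ∑ v ∈ W, ∑ v' ∈ W,
        ∑ x ∈ R, (iv u x * iv u' x) * (iw v x * iw v' x) ≤
      ∑ u ∈ U, ∑ u' ∈ U, ∑ v ∈ W, ∑ v' ∈ W, (R.card * (a2 a u u' * a2 b v v') + Er) :=
    Finset.sum_le_sum fun u hu => Finset.sum_le_sum fun u' hu' => Finset.sum_le_sum fun v hv =>
      Finset.sum_le_sum fun v' hv' => h1 u hu u' hu' v hv v' hv'
  refine h2.trans ?_
  have e3 : ∑ u ∈ U, ∑ u' ∈ U, ∑ v ∈ W, ∑ v' ∈ W, (R.card * (a2 a u u' * a2 b v v') + Er) =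
      R.card * ((∑ u ∈ U, ∑ u' ∈ U, a2 a u u') * ∑ v ∈ W, ∑ v' ∈ W, a2 b v v') +
      (U.card : ℝ) ^ 2 * (W.card : ℝ) ^ 2 * Er := by
    simp only [Finset.sum_add_distrib, Finset.sum_const, nsmul_eq_mul]
    rw [Finset.sum_mul, Finset.mul_sum]
    congr 1
    · refine Finset.sum_congr rfl fun u _ => ?_
      rw [Finset.sum_mul, Finset.mul_sum]
      refine Finset.sum_congr rfl fun u' _ => ?_
      rw [Finset.mul_sum, Finset.mul_sum]
      refine Finset.sum_congr rfl fun v _ => ?_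
      rw [Finset.mul_sum, Finset.mul_sum]
    · ring
  rw [e3]
  have h4 : (∑ u ∈ U, ∑ u' ∈ U, a2 a u u') * ∑ v ∈ W, ∑ v' ∈ W, a2 b v v' ≤
      ((∑ u ∈ U, a u) ^ 2 + ∑ u ∈ U, a u) * ((∑ v ∈ W, b v) ^ 2 + ∑ v ∈ W, b v) := by
    refine mul_le_mul (sum_a2 ha) (sum_a2 hb) ?_ ?_
    · exact Finset.sum_nonneg fun v hv => Finset.sum_nonneg fun v' hv' => a2_nonneg hb hv hv'
    · have := Finset.sum_nonneg ha
      positivity
  have := mul_le_mul_of_nonneg_left h4 (Nat.cast_nonneg R.card : (0 : ℝ) ≤ R.card)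
  linarith

/-- **the typical part of the first moment.**  If the atypical elements have proportion at most
`η²` then `∑_{typ} n_v n_w ≥ (first moment) - η √(second moment · #R)`. -/
theorem mom_typ {R : Finset (V × V)} (T : V × V → Prop) (f : V × V → ℝ) {m₁ m₂ η : ℝ}
    (hη : 0 ≤ η) (hf1 : m₁ * R.card ≤ ∑ x ∈ R, f x) (hf2 : ∑ x ∈ R, f x ^ 2 ≤ m₂ ^ 2 * R.card)
    (hm : 0 ≤ m₂) (hT : ((R.filter (fun x => ¬ T x)).card : ℝ) ≤ η ^ 2 * R.card) :
    (m₁ - η * m₂) * R.card ≤ ∑ x ∈ R.filter T, f x := by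
  have h1 : ∑ x ∈ R, f x = ∑ x ∈ R.filter T, f x + ∑ x ∈ R.filter (fun x => ¬ T x), f x :=
    (Finset.sum_filter_add_sum_filter_not R T f).symm
  have h2 : (∑ x ∈ R.filter (fun x => ¬ T x), f x) ^ 2 ≤ (η * m₂ * R.card) ^ 2 := by
    have h3 : (∑ x ∈ R.filter (fun x => ¬ T x), f x) ^ 2 ≤
        ((R.filter (fun x => ¬ T x)).card : ℝ) * ∑ x ∈ R.filter (fun x => ¬ T x), f x ^ 2 :=
      sq_sum_le_card_mul_sum_sq
    have h4 : ∑ x ∈ R.filter (fun x => ¬ T x), f x ^ 2 ≤ ∑ x ∈ R, f x ^ 2 :=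
      Finset.sum_le_sum_of_subset_of_nonneg (Finset.filter_subset _ _) fun _ _ _ => sq_nonneg _
    have h5 : ((R.filter (fun x => ¬ T x)).card : ℝ) * ∑ x ∈ R.filter (fun x => ¬ T x), f x ^ 2 ≤
        (η ^ 2 * R.card) * (m₂ ^ 2 * R.card) :=
      mul_le_mul hT (h4.trans hf2) (Finset.sum_nonneg fun _ _ => sq_nonneg _) (by positivity)
    calc _ ≤ _ := h3
      _ ≤ _ := h5
      _ = _ := by ring
  have h3 : ∑ x ∈ R.filter (fun x => ¬ T x), f x ≤ η * m₂ * R.card :=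
    le_of_sq_le_sq h2 (by positivity)
  have h4 : (m₁ - η * m₂) * R.card = m₁ * R.card - η * m₂ * R.card := by ring
  linarith

end Pool.Agent.Lib.MP391708.T1
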