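import Pool.Agent.Lib.MP_391708_nt.T1.FuA

/-!
# T1, group F1, part B: all moments of the numbers of prime divisors in two ranges
-/

set_option autoImplicit false

namespace Pool.Agent.Lib.MP391708.T1

open Finset
open Pool.Agent.Lib.MP391708.Eqd
open scoped Classical

/-- moments of a sum of indicators from the probabilities of the joint events -/
theorem gen {ι : Type*} (R : Finset ι) (U : Finset ℕ) (g : ℕ → ι → ℝ) (w : ι → ℝ) (a : ℕ → ℝ)
    {X Y : ℝ} {k : ℕ} (hg : ∀ u x, g u x * g u x = g u x)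
    (ha : ∀ u ∈ U, 0 ≤ a u) (hX : 0 ≤ X)
    (h : ∀ S ⊆ U, S.card ≤ k → ∑ x ∈ R, w x * ∏ u ∈ S, g u x ≤ X * (∏ u ∈ S, a u) + Y) :
    ∑ x ∈ R, w x * (∑ u ∈ U, g u x) ^ k ≤
      X * (∏ t ∈ range k, ((∑ u ∈ U, a u) + t)) + (U.card : ℝ) ^ k * Y := by
  set A : ℝ := ∑ u ∈ U, a u with hA
  have hA0 : 0 ≤ A := Finset.sum_nonneg ha
  have key : ∀ i : ℕ, ∀ S ⊆ U, S.card + i ≤ k →
      ∑ x ∈ R, w x * (∑ u ∈ U, g u x) ^ i * ∏ u ∈ S, g u x ≤
        X * (∏ u ∈ S, a u) * (∏ t ∈ range i, (A + S.card + t)) + (U.card : ℝ) ^ i * Y := by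
    intro i
    induction i with
    | zero =>
      intro S hS hc
      simpa using h S hS (by omega)
    | succ i ih =>
      intro S hS hc
      have haS : 0 ≤ ∏ u ∈ S, a u := Finset.prod_nonneg fun u hu => ha u (hS hu)
      have e1 : ∀ x ∈ R, w x * (∑ u ∈ U, g u x) ^ (i + 1) * ∏ u ∈ S, g u x =
          S.card * (w x * (∑ u ∈ U, g u x) ^ i * ∏ u ∈ S, g u x) +
          ∑ u ∈ U \ S, w x * (∑ u ∈ U, g u x) ^ i * ∏ u' ∈ insert u S, g u' x := by
        intro x _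
        have e2 : (∑ u ∈ U, g u x) * ∏ u ∈ S, g u x = S.card * ∏ u ∈ S, g u x +
            ∑ u ∈ U \ S, ∏ u' ∈ insert u S, g u' x := by
          rw [← Finset.sum_sdiff hS, add_mul, add_comm]
          congr 1
          · rw [Finset.sum_mul, Finset.sum_congr rfl (g := fun _ => ∏ u ∈ S, g u x),
              Finset.sum_const, nsmul_eq_mul]
            intro u hu
            rw [← Finset.mul_prod_erase S (fun u => g u x) hu, ← mul_assoc, hg]
          · rw [Finset.sum_mul]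
            refine Finset.sum_congr rfl fun u hu => ?_
            rw [Finset.prod_insert (Finset.mem_sdiff.1 hu).2]
        calc w x * (∑ u ∈ U, g u x) ^ (i + 1) * ∏ u ∈ S, g u x =
            w x * (∑ u ∈ U, g u x) ^ i * ((∑ u ∈ U, g u x) * ∏ u ∈ S, g u x) := by ring
          _ = _ := by rw [e2, mul_add, Finset.mul_sum]; ring
      rw [Finset.sum_congr rfl e1, Finset.sum_add_distrib, ← Finset.mul_sum, Finset.sum_comm]
      have h1 := ih S hS (by omega)
      have h2 : ∀ u ∈ U \ S, ∑ x ∈ R, w x * (∑ u ∈ U, g u x) ^ i * ∏ u' ∈ insert u S, g u' x ≤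
          a u * (X * (∏ u ∈ S, a u) * (∏ t ∈ range i, (A + S.card + ((t + 1 : ℕ) : ℝ)))) +
            (U.card : ℝ) ^ i * Y := by
        intro u hu
        have hu' := Finset.mem_sdiff.1 hu
        have h3 := ih (insert u S) (Finset.insert_subset hu'.1 hS)
          (by rw [Finset.card_insert_of_notMem hu'.2]; omega)
        refine h3.trans (le_of_eq ?_)
        rw [Finset.prod_insert hu'.2, Finset.card_insert_of_notMem hu'.2]
        congr 1
        have e4 : ∏ t ∈ range i, (A + ((S.card + 1 : ℕ) : ℝ) + (t : ℝ)) =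
            ∏ t ∈ range i, (A + S.card + ((t + 1 : ℕ) : ℝ)) := by
          refine Finset.prod_congr rfl fun t _ => ?_
          push_cast; ring
        rw [e4]; ring
      have h4 : ∏ t ∈ range i, (A + S.card + (t : ℝ)) ≤
          ∏ t ∈ range i, (A + S.card + ((t + 1 : ℕ) : ℝ)) := by
        refine Finset.prod_le_prod (fun t _ => by positivity) fun t _ => ?_
        push_cast; linarith
      have hP : 0 ≤ ∏ t ∈ range i, (A + S.card + ((t + 1 : ℕ) : ℝ)) :=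
        Finset.prod_nonneg fun t _ => by positivity
      set P' : ℝ := ∏ t ∈ range i, (A + S.card + ((t + 1 : ℕ) : ℝ)) with hP'
      have h5 : (S.card : ℝ) * ∑ x ∈ R, w x * (∑ u ∈ U, g u x) ^ i * ∏ u ∈ S, g u x ≤
          S.card * (X * (∏ u ∈ S, a u) * P' + (U.card : ℝ) ^ i * Y) := by
        refine mul_le_mul_of_nonneg_left (h1.trans ?_) (Nat.cast_nonneg _)
        have := mul_le_mul_of_nonneg_left h4 (mul_nonneg hX haS)
        linarith
      have h6 : ∑ u ∈ U \ S, ∑ x ∈ R,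
          w x * (∑ u ∈ U, g u x) ^ i * ∏ u' ∈ insert u S, g u' x ≤
          (∑ u ∈ U \ S, a u) * (X * (∏ u ∈ S, a u) * P') +
            ((U \ S).card : ℝ) * ((U.card : ℝ) ^ i * Y) := by
        refine (Finset.sum_le_sum h2).trans (le_of_eq ?_)
        rw [Finset.sum_add_distrib, ← Finset.sum_mul, Finset.sum_const, nsmul_eq_mul]
      have h7 : ∑ u ∈ U \ S, a u ≤ A :=
        Finset.sum_le_sum_of_subset_of_nonneg Finset.sdiff_subset fun u hu _ => ha u hu
      have h8 : (∑ u ∈ U \ S, a u) * (X * (∏ u ∈ S, a u) * P') ≤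
          A * (X * (∏ u ∈ S, a u) * P') :=
        mul_le_mul_of_nonneg_right h7 (mul_nonneg (mul_nonneg hX haS) hP)
      have h9 : (S.card : ℝ) + ((U \ S).card : ℝ) = U.card := by
        rw [← Nat.cast_add, add_comm, Finset.card_sdiff_add_card_eq_card hS]
      have e5 : ∏ t ∈ range (i + 1), (A + S.card + (t : ℝ)) = (A + S.card) * P' := by
        rw [Finset.prod_range_succ', hP', mul_comm]
        simp
      rw [e5]
      calc _ ≤ S.card * (X * (∏ u ∈ S, a u) * P' + (U.card : ℝ) ^ i * Y) +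
          (A * (X * (∏ u ∈ S, a u) * P') + ((U \ S).card : ℝ) * ((U.card : ℝ) ^ i * Y)) := by
            linarith
        _ = X * (∏ u ∈ S, a u) * ((A + S.card) * P') +
            ((S.card : ℝ) + ((U \ S).card : ℝ)) * ((U.card : ℝ) ^ i * Y) := by ring
        _ = _ := by rw [h9]; ring
  have h1 := key k ∅ (Finset.empty_subset _) (by simp)
  simpa using h1

/-- periodicity and mean of a product of indicators over a set of primes -/
lemma mn_set {g : ℕ → V × V → ℝ} (hg : ∀ u, Per u (g u)) {a : ℕ → ℝ} (S : Finset ℕ)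
    (hS : ∀ u ∈ S, u.Prime ∧ mn u (g u) = a u) :
    Per (∏ u ∈ S, u) (fun x => ∏ u ∈ S, g u x) ∧
      mn (∏ u ∈ S, u) (fun x => ∏ u ∈ S, g u x) = ∏ u ∈ S, a u := by
  have h1 := mn_prod 1 one_ne_zero (w := fun _ => 1) (fun _ _ _ => rfl) (fun _ => 1) g S
    (fun l hl => ⟨(hS l hl).1, fun h => (hS l hl).1.one_lt.ne' (Nat.dvd_one.1 h)⟩)
    (fun l hl => by simpa using hg l)
  simp only [one_mul, pow_one] at h1
  obtain ⟨h2, h3⟩ := h1
  refine ⟨h2, ?_⟩
  rw [h3, mn_const, one_mul]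
  exact Finset.prod_congr rfl fun l hl => (hS l hl).2

lemma prod_le_B {S : Finset ℕ} {B k : ℕ} (hB : 1 ≤ B) (h : ∀ u ∈ S, u ≤ B) (hc : S.card ≤ k) :
    ∏ u ∈ S, u ≤ B ^ k :=
  calc ∏ u ∈ S, u ≤ ∏ _u ∈ S, B := Finset.prod_le_prod' h
    _ = B ^ S.card := by rw [Finset.prod_const]
    _ ≤ B ^ k := Nat.pow_le_pow_right hB hc

/-- **all mixed moments** -/
theorem momk {R : Finset (V × V)} {Q B B' : ℕ} {Er : ℝ} (hR : EqR R Q Er) {U W : Finset ℕ}
    {a b : ℕ → ℝ} (hU : ∀ u ∈ U, u.Prime ∧ u ≤ B ∧ mn u (iv u) = a u)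
    (hW : ∀ v ∈ W, v.Prime ∧ v ≤ B' ∧ mn v (iw v) = b v) (hUW : Disjoint U W)
    (i j : ℕ) (hB : 1 ≤ B) (hB' : 1 ≤ B') (hQ : B ^ i * B' ^ j ≤ Q) :
    ∑ x ∈ R, nv U x ^ i * nw W x ^ j ≤
      R.card * ((∏ t ∈ range i, ((∑ u ∈ U, a u) + t)) * ∏ t ∈ range j, ((∑ v ∈ W, b v) + t)) +
      (U.card : ℝ) ^ i * (W.card : ℝ) ^ j * Er := by
  have ha : ∀ u ∈ U, 0 ≤ a u := fun u hu => by
    rw [← (hU u hu).2.2]; exact mn_nonneg (iv_nonneg u)
  have hb : ∀ v ∈ W, 0 ≤ b v := fun v hv => by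
    rw [← (hW v hv).2.2]; exact mn_nonneg (iw_nonneg v)
  have h1 : ∀ S ⊆ U, S.card ≤ i → ∀ T ⊆ W, T.card ≤ j →
      ∑ x ∈ R, (∏ u ∈ S, iv u x) * ∏ v ∈ T, iw v x ≤
        R.card * (∏ u ∈ S, a u) * (∏ v ∈ T, b v) + Er := by
    intro S hS hSc T hT hTc
    obtain ⟨p1, p2⟩ := mn_set iv_per (a := a) S (fun u hu => ⟨(hU u (hS hu)).1, (hU u (hS hu)).2.2⟩)
    obtain ⟨q1, q2⟩ := mn_set iw_per (a := b) T (fun u hu => ⟨(hW u (hT hu)).1, (hW u (hT hu)).2.2⟩)
    have hS0 : ∏ u ∈ S, u ≠ 0 := Finset.prod_ne_zero_iff.2 fun u hu => (hU u (hS hu)).1.ne_zero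
    have hT0 : ∏ u ∈ T, u ≠ 0 := Finset.prod_ne_zero_iff.2 fun u hu => (hW u (hT hu)).1.ne_zero
    have hc : (∏ u ∈ S, u).Coprime (∏ u ∈ T, u) := by
      refine Nat.Coprime.prod_left fun u hu => Nat.Coprime.prod_right fun v hv => ?_
      refine (Nat.coprime_primes (hU u (hS hu)).1 (hW v (hT hv)).1).2 ?_
      rintro rfl
      exact (Finset.disjoint_left.1 hUW (hS hu)) (hT hv)
    have h2 := hR ((∏ u ∈ S, u) * ∏ u ∈ T, u) (mul_ne_zero hS0 hT0)
      ((Nat.mul_le_mul (prod_le_B hB (fun u hu => (hU u (hS hu)).2.1) hSc)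
        (prod_le_B hB' (fun u hu => (hW u (hT hu)).2.1) hTc)).trans hQ)
      (fun x => (∏ u ∈ S, iv u x) * ∏ v ∈ T, iw v x)
      ((p1.mono (dvd_mul_right _ _)).mul (q1.mono (dvd_mul_left _ _)))
      (fun x => by
        have n1 : 0 ≤ ∏ u ∈ S, iv u x := Finset.prod_nonneg fun u _ => iv_nonneg _ _
        have n2 : 0 ≤ ∏ u ∈ T, iw u x := Finset.prod_nonneg fun u _ => iw_nonneg _ _
        have n3 : ∏ u ∈ S, iv u x ≤ 1 :=
          Finset.prod_le_one (fun u _ => iv_nonneg _ _) fun u _ => iv_le_one _ _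
        have n4 : ∏ u ∈ T, iw u x ≤ 1 :=
          Finset.prod_le_one (fun u _ => iw_nonneg _ _) fun u _ => iw_le_one _ _
        exact ⟨mul_nonneg n1 n2, mul_le_one₀ n3 n2 n4⟩)
    rw [mn_mul hc hS0 hT0 p1 q1, p2, q2] at h2
    have := (abs_le.1 h2).2
    nlinarith
  have h2 : ∀ S ⊆ U, S.card ≤ i → ∑ x ∈ R, (∏ u ∈ S, iv u x) * nw W x ^ j ≤
      (R.card * (∏ u ∈ S, a u)) * (∏ t ∈ range j, ((∑ v ∈ W, b v) + t)) +
        (W.card : ℝ) ^ j * Er := by
    intro S hS hSc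
    refine gen R W iw (fun x => ∏ u ∈ S, iv u x) b iw_sq hb ?_ ?_
    · exact mul_nonneg (Nat.cast_nonneg _) (Finset.prod_nonneg fun u hu => ha u (hS hu))
    · intro T hT hTc
      exact h1 S hS hSc T hT hTc
  have h3 := gen R U iv (fun x => nw W x ^ j) a (k := i)
    (X := R.card * ∏ t ∈ range j, ((∑ v ∈ W, b v) + t)) (Y := (W.card : ℝ) ^ j * Er)
    iv_sq ha
    (mul_nonneg (Nat.cast_nonneg _) (Finset.prod_nonneg fun t _ => by
      have := Finset.sum_nonneg hb; positivity))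
    (by
      intro S hS hSc
      have h4 := h2 S hS hSc
      calc ∑ x ∈ R, nw W x ^ j * ∏ u ∈ S, iv u x = ∑ x ∈ R, (∏ u ∈ S, iv u x) * nw W x ^ j :=
            Finset.sum_congr rfl fun x _ => mul_comm _ _
        _ ≤ _ := h4
        _ = _ := by ring)
  calc ∑ x ∈ R, nv U x ^ i * nw W x ^ j = ∑ x ∈ R, nw W x ^ j * (∑ u ∈ U, iv u x) ^ i :=
        Finset.sum_congr rfl fun x _ => by unfold nv; ring
    _ ≤ _ := h3
    _ = _ := by ring

end Pool.Agent.Lib.MP391708.T1
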