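import Pool.Agent.Lib.MP_391708_nt.Eqd.Prime

/-!
# T1, group F1, part S: Mertens for the primes `1 mod 4`
-/

set_option autoImplicit false

namespace Pool.Agent.Lib.MP391708.T1

open Finset

/-- the primes `l = 1 mod 4` with `x < l ≤ y` -/
noncomputable def P1F (x y : ℝ) : Finset ℕ :=
  (Ioc ⌊x⌋₊ ⌊y⌋₊).filter (fun l => l.Prime ∧ l % 4 = 1)

/-- `∑ 2/l` over the primes `l = 1 mod 4` with `x < l ≤ y` -/
noncomputable def S1 (x y : ℝ) : ℝ := ∑ l ∈ P1F x y, 2 / (l : ℝ)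

lemma mem_P1 {x y : ℝ} (hx : 0 ≤ x) {l : ℕ} :
    l ∈ P1F x y ↔ x < l ∧ (l : ℝ) ≤ y ∧ l.Prime ∧ l % 4 = 1 := by
  unfold P1F
  rw [mem_filter, mem_Ioc]
  constructor
  · rintro ⟨⟨h1, h2⟩, h3, h4⟩
    refine ⟨(Nat.floor_lt hx).1 h1, ?_, h3, h4⟩
    have hl : l ≠ 0 := by have := h3.pos; omega
    exact (Nat.le_floor_iff' hl).1 h2
  · rintro ⟨h1, h2, h3, h4⟩
    exact ⟨⟨(Nat.floor_lt hx).2 h1, Nat.le_floor h2⟩, h3, h4⟩

lemma S1_nonneg (x y : ℝ) : 0 ≤ S1 x y := Finset.sum_nonneg fun _ _ => by positivity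

/-- Mertens, natural bounds -/
theorem mertN : ∃ C : ℝ, 0 < C ∧ ∀ y : ℕ, 3 ≤ y →
    |∑ p ∈ (Icc 1 y).filter (fun p => p.Prime ∧ p % 4 = 1), 2 / (p : ℝ) -
      Real.log (Real.log y)| ≤ C := by
  obtain ⟨C, hC⟩ := Pool.Agent.Lib.MP391708.Eqd.specPrime 4 (by norm_num) 1 (by norm_num) 1 one_pos
  have hC0 : 0 ≤ C := (norm_nonneg _).trans (hC 3 le_rfl 0 (by simp))
  refine ⟨2 * C + 1, by positivity, fun y hy => ?_⟩
  have h := hC y hy 0 (by simp)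
  have h1 : (∑ p ∈ (Icc 1 y).filter (fun p => p.Prime ∧ p ≡ 1 [MOD 4]),
      (p : ℂ) ^ (-1 + Complex.I * ((0 : ℝ) : ℂ))) =
      ((∑ p ∈ (Icc 1 y).filter (fun p => p.Prime ∧ p % 4 = 1), 1 / (p : ℝ) : ℝ) : ℂ) := by
    have e : (Icc 1 y).filter (fun p => p.Prime ∧ p ≡ 1 [MOD 4]) =
        (Icc 1 y).filter (fun p => p.Prime ∧ p % 4 = 1) := by
      refine Finset.filter_congr fun p _ => ?_
      rw [Nat.ModEq]
    rw [e]
    push_cast
    refine Finset.sum_congr rfl fun p _ => ?_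
    rw [mul_zero, add_zero, Complex.cpow_neg_one, one_div]
  rw [h1, ← Complex.ofReal_sub, Complex.norm_real, Real.norm_eq_abs] at h
  have h2 : -Real.log (1 / Real.log y + |(0 : ℝ)|) = Real.log (Real.log y) := by
    rw [abs_zero, add_zero, one_div, Real.log_inv, neg_neg]
  rw [h2] at h
  have h3 : ((4 : ℕ).totient : ℝ) = 2 := by
    have : (4 : ℕ).totient = 2 := by decide
    rw [this]; norm_num
  rw [h3] at h
  have h4 : ∑ p ∈ (Icc 1 y).filter (fun p => p.Prime ∧ p % 4 = 1), 2 / (p : ℝ) =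
      2 * ∑ p ∈ (Icc 1 y).filter (fun p => p.Prime ∧ p % 4 = 1), 1 / (p : ℝ) := by
    rw [Finset.mul_sum]
    refine Finset.sum_congr rfl fun p _ => ?_
    ring
  rw [h4]
  have h5 := abs_le.1 h
  rw [abs_le]
  constructor <;> linarith [h5.1, h5.2]

lemma one_lt_log3 : 1 < Real.log 3 := by
  rw [Real.lt_log_iff_exp_lt (by norm_num)]
  exact Real.exp_one_lt_d9.trans (by norm_num)

lemma loglog_floor {y : ℝ} (hy : 3 ≤ y) :
    Real.log (Real.log ⌊y⌋₊) ≤ Real.log (Real.log y) ∧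
      Real.log (Real.log y) ≤ Real.log (Real.log ⌊y⌋₊) + 1 := by
  have h3 : (3 : ℕ) ≤ ⌊y⌋₊ := Nat.le_floor (by exact_mod_cast hy)
  have h3' : (3 : ℝ) ≤ (⌊y⌋₊ : ℝ) := by exact_mod_cast h3
  have h4 : (⌊y⌋₊ : ℝ) ≤ y := Nat.floor_le (by linarith)
  have h5 : y ≤ (⌊y⌋₊ : ℝ) + 1 := (Nat.lt_floor_add_one y).le
  have h6 : 1 < Real.log ⌊y⌋₊ := one_lt_log3.trans_le (Real.log_le_log (by norm_num) h3')
  have h7 : Real.log ⌊y⌋₊ ≤ Real.log y := Real.log_le_log (by linarith) h4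
  constructor
  · exact Real.log_le_log (by linarith) h7
  · have h8 : Real.log y ≤ Real.log ⌊y⌋₊ + 1 := by
      have h9 : Real.log y ≤ Real.log (⌊y⌋₊ * 2) := Real.log_le_log (by linarith) (by linarith)
      rw [Real.log_mul (by linarith) (by norm_num)] at h9
      have := Real.log_two_lt_d9
      linarith
    have h10 : Real.log y ≤ Real.log ⌊y⌋₊ * 2 := by linarith
    have h11 : Real.log (Real.log y) ≤ Real.log (Real.log ⌊y⌋₊ * 2) :=
      Real.log_le_log (by linarith) h10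
    rw [Real.log_mul (by linarith) (by norm_num)] at h11
    have := Real.log_two_lt_d9
    linarith

/-- Mertens in an interval -/
theorem S1_log : ∃ C : ℝ, 0 < C ∧ ∀ x y : ℝ, 3 ≤ x → x ≤ y →
    |S1 x y - (Real.log (Real.log y) - Real.log (Real.log x))| ≤ C := by
  obtain ⟨C, hC0, hC⟩ := mertN
  refine ⟨2 * C + 1, by positivity, fun x y hx hxy => ?_⟩
  have hy : 3 ≤ y := hx.trans hxy
  have hxn : (3 : ℕ) ≤ ⌊x⌋₊ := Nat.le_floor (by exact_mod_cast hx)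
  have hyn : (3 : ℕ) ≤ ⌊y⌋₊ := Nat.le_floor (by exact_mod_cast hy)
  have hle : ⌊x⌋₊ ≤ ⌊y⌋₊ := Nat.floor_mono hxy
  have h1 := hC _ hxn
  have h2 := hC _ hyn
  have e : ∑ p ∈ (Icc 1 ⌊y⌋₊).filter (fun p => p.Prime ∧ p % 4 = 1), 2 / (p : ℝ) =
      ∑ p ∈ (Icc 1 ⌊x⌋₊).filter (fun p => p.Prime ∧ p % 4 = 1), 2 / (p : ℝ) + S1 x y := by
    unfold S1 P1F
    rw [← Finset.sum_union]
    · refine Finset.sum_congr ?_ fun _ _ => rfl
      rw [← Finset.filter_union]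
      congr 1
      ext p
      simp only [mem_Icc, mem_union, mem_Ioc]
      omega
    · rw [Finset.disjoint_left]
      intro p hp hp'
      simp only [mem_filter, mem_Icc, mem_Ioc] at hp hp'
      omega
  obtain ⟨h3, h4⟩ := loglog_floor hx
  obtain ⟨h5, h6⟩ := loglog_floor hy
  rw [abs_le] at h1 h2 ⊢
  constructor <;> linarith [h1.1, h1.2, h2.1, h2.2]

/-- the sum over `(z^a, z^b]` -/
theorem S1_pow : ∃ C : ℝ, 0 < C ∧ ∀ z a b : ℝ, 3 ≤ z → 1 ≤ a → a ≤ b →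
    |S1 (z ^ a) (z ^ b) - Real.log (b / a)| ≤ C := by
  obtain ⟨C, hC0, hC⟩ := S1_log
  refine ⟨C, hC0, fun z a b hz ha hab => ?_⟩
  have hz0 : 0 < z := by linarith
  have h1 : 3 ≤ z ^ a := by
    calc (3 : ℝ) ≤ z := hz
      _ = z ^ (1 : ℝ) := (Real.rpow_one z).symm
      _ ≤ z ^ a := Real.rpow_le_rpow_of_exponent_le (by linarith) ha
  have h2 : z ^ a ≤ z ^ b := Real.rpow_le_rpow_of_exponent_le (by linarith) hab
  have h3 := hC _ _ h1 h2
  have hl : 0 < Real.log z := Real.log_pos (by linarith)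
  rw [Real.log_rpow hz0, Real.log_rpow hz0, Real.log_mul (by linarith) hl.ne',
    Real.log_mul (by linarith) hl.ne'] at h3
  rw [Real.log_div (by linarith) (by linarith)]
  have e : Real.log b + Real.log (Real.log z) - (Real.log a + Real.log (Real.log z)) =
      Real.log b - Real.log a := by ring
  rwa [e] at h3

/-- the difference between `∑ 2/(l+1)` and `∑ 2/l` -/
lemma S1_succ {x y : ℝ} (hx : 0 < x) : (1 - 1 / x) * S1 x y ≤ ∑ l ∈ P1F x y, 2 / ((l : ℝ) + 1) ∧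
    ∑ l ∈ P1F x y, 2 / ((l : ℝ) + 1) ≤ S1 x y := by
  constructor
  · unfold S1
    rw [Finset.mul_sum]
    refine Finset.sum_le_sum fun l hl => ?_
    obtain ⟨h1, -, h3, -⟩ := (mem_P1 hx.le).1 hl
    have hl0 : (0 : ℝ) < l := hx.trans h1
    have h4 : 1 / (l : ℝ) ≤ 1 / x := one_div_le_one_div_of_le hx h1.le
    have h5 : (1 - 1 / x) * (2 / (l : ℝ)) ≤ (1 - 1 / (l : ℝ)) * (2 / (l : ℝ)) :=
      mul_le_mul_of_nonneg_right (by linarith) (by positivity)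
    refine h5.trans ?_
    rw [le_div_iff₀ (by linarith)]
    have : (1 - 1 / (l : ℝ)) * (2 / (l : ℝ)) * (l + 1) = 2 * (1 - 1 / (l : ℝ) ^ 2) := by
      field_simp
      ring
    rw [this]
    have : 0 < 1 / (l : ℝ) ^ 2 := by positivity
    linarith
  · unfold S1
    refine Finset.sum_le_sum fun l hl => ?_
    obtain ⟨h1, -, h3, -⟩ := (mem_P1 hx.le).1 hl
    have hl0 : (0 : ℝ) < l := hx.trans h1
    exact div_le_div_of_nonneg_left (by norm_num) hl0 (by linarith)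

lemma card_P1 {x y : ℝ} (hy : 0 ≤ y) : ((P1F x y).card : ℝ) ≤ y := by
  unfold P1F
  have h1 : ((Ioc ⌊x⌋₊ ⌊y⌋₊).filter (fun l => l.Prime ∧ l % 4 = 1)).card ≤ ⌊y⌋₊ := by
    refine (Finset.card_filter_le _ _).trans ?_
    rw [Nat.card_Ioc]
    exact Nat.sub_le _ _
  exact (Nat.cast_le.2 h1).trans (Nat.floor_le hy)

end Pool.Agent.Lib.MP391708.T1
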