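import Pool.Agent.Lib.MP_391708_nt.T1.SlCrt

/-!
# T1: local means over the unimodular classes modulo a prime power
-/

set_option autoImplicit false

namespace Pool.Agent.Lib.MP391708.T1

open Finset
open Pool.Agent.Lib.MP391708.Eqd
open scoped Classical

namespace LocM

/-! ### Units modulo prime powers -/

lemma isUnit_iff {l k : ℕ} (hl : l.Prime) (hk : 0 < k) (x : ZMod (l ^ k)) :
    IsUnit x ↔ ¬ l ∣ x.val := by
  have : NeZero (l ^ k) := ⟨pow_ne_zero _ hl.ne_zero⟩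
  conv_lhs => rw [← ZMod.natCast_zmod_val x]
  exact ZMod.isUnit_natCast_iff_not_dvd_pow hl hk

lemma not_isUnit_add {l k : ℕ} (hl : l.Prime) (hk : 0 < k) {x y : ZMod (l ^ k)}
    (hx : ¬ IsUnit x) (hy : ¬ IsUnit y) : ¬ IsUnit (x + y) := by
  have : NeZero (l ^ k) := ⟨pow_ne_zero _ hl.ne_zero⟩
  rw [isUnit_iff hl hk, not_not] at hx hy
  have e : x + y = ((x.val + y.val : ℕ) : ZMod (l ^ k)) := by simp
  rw [e, ZMod.isUnit_natCast_iff_not_dvd_pow hl hk, not_not]
  exact dvd_add hx hy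

/-- `x` or `y` is a unit if `x + y` is -/
lemma isUnit_or {l k : ℕ} (hl : l.Prime) (hk : 0 < k) {x y : ZMod (l ^ k)}
    (h : IsUnit (x + y)) : IsUnit x ∨ IsUnit y := by
  by_contra hc
  push Not at hc
  exact not_isUnit_add hl hk hc.1 hc.2 h

lemma card_units (q : ℕ) [NeZero q] :
    ((univ : Finset (ZMod q)).filter (fun x => IsUnit x)).card = q.totient := by
  rw [Nat.totient]
  refine Finset.card_bij (fun x _ => x.val) ?_ ?_ ?_
  · intro x hx
    rw [Finset.mem_filter] at hx ⊢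
    refine ⟨Finset.mem_range.2 (ZMod.val_lt x), ?_⟩
    have h := hx.2
    rw [← ZMod.natCast_zmod_val x, ZMod.isUnit_iff_coprime] at h
    exact h.symm
  · intro x _ y _ h
    exact ZMod.val_injective q h
  · intro n hn
    rw [Finset.mem_filter, Finset.mem_range] at hn
    refine ⟨(n : ZMod q), ?_, ZMod.val_cast_of_lt hn.1⟩
    rw [Finset.mem_filter]
    exact ⟨Finset.mem_univ _, (ZMod.isUnit_iff_coprime n q).2 hn.2.symm⟩

/-! ### Fibres over the first column -/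

lemma fiber_card {R : Type*} [CommRing R] [Fintype R] (a b c : R)
    (h : IsUnit a ∨ IsUnit b) :
    ((univ : Finset (R × R)).filter (fun w => a * w.2 - b * w.1 = c)).card = Fintype.card R := by
  rw [← Finset.card_univ]
  symm
  rcases h with ⟨u, rfl⟩ | ⟨u, rfl⟩
  · refine Finset.card_bij (fun t _ => (t, ((u⁻¹ : Rˣ) : R) * (c + b * t))) ?_ ?_ ?_
    · intro t _
      rw [Finset.mem_filter]
      refine ⟨Finset.mem_univ _, ?_⟩
      simp only
      rw [← mul_assoc, Units.mul_inv, one_mul]; ring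
    · intro t _ t' _ h
      exact congrArg Prod.fst h
    · intro w hw
      rw [Finset.mem_filter] at hw
      refine ⟨w.1, Finset.mem_univ _, ?_⟩
      refine Prod.ext rfl ?_
      simp only
      rw [← hw.2, sub_add_cancel, ← mul_assoc, Units.inv_mul, one_mul]
  · refine Finset.card_bij (fun t _ => (((u⁻¹ : Rˣ) : R) * (a * t - c), t)) ?_ ?_ ?_
    · intro t _
      rw [Finset.mem_filter]
      refine ⟨Finset.mem_univ _, ?_⟩
      simp only
      rw [← mul_assoc, Units.mul_inv, one_mul]; ring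
    · intro t _ t' _ h
      exact congrArg Prod.snd h
    · intro w hw
      rw [Finset.mem_filter] at hw
      refine ⟨w.2, Finset.mem_univ _, ?_⟩
      refine Prod.ext ?_ rfl
      simp only
      rw [← hw.2, sub_sub_cancel, ← mul_assoc, Units.inv_mul, one_mul]

/-- primitive vectors -/
noncomputable def prim (q : ℕ) [NeZero q] : Finset (ZMod q × ZMod q) :=
  univ.filter (fun v => IsUnit v.1 ∨ IsUnit v.2)

/-- the number of primitive vectors, in the form `q² - (q - φ)²` -/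
lemma card_prim (q : ℕ) [NeZero q] :
    (prim q).card + (q - q.totient) * (q - q.totient) = q * q := by
  have h1 : (univ : Finset (ZMod q × ZMod q)).card = q * q := by
    rw [Finset.card_univ, Fintype.card_prod, ZMod.card]
  have h2 := Finset.card_filter_add_card_filter_not
    (s := (univ : Finset (ZMod q × ZMod q))) (fun v => IsUnit v.1 ∨ IsUnit v.2)
  have h3 : ((univ : Finset (ZMod q × ZMod q)).filter
      (fun v => ¬ (IsUnit v.1 ∨ IsUnit v.2))).card = (q - q.totient) * (q - q.totient) := by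
    have h4 : ((univ : Finset (ZMod q)).filter (fun x => ¬ IsUnit x)).card = q - q.totient := by
      have h5 := Finset.card_filter_add_card_filter_not
        (s := (univ : Finset (ZMod q))) (fun x => IsUnit x)
      rw [card_units, Finset.card_univ, ZMod.card] at h5
      omega
    rw [← h4, ← Finset.card_product]
    congr 1
    ext v
    simp [not_or]
  rw [h1, h3] at h2
  exact h2

/-- sums over the unimodular classes of a function of the first column -/
lemma sum_sl_fst {l k : ℕ} (hl : l.Prime) (hk : 0 < k) [NeZero (l ^ k)]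
    (G : ZMod (l ^ k) × ZMod (l ^ k) → ℝ) :
    ∑ r ∈ sl (l ^ k), G r.1 = ((l ^ k : ℕ) : ℝ) * ∑ v ∈ prim (l ^ k), G v := by
  have e1 : ∑ r ∈ sl (l ^ k), G r.1 =
      ∑ v : ZMod (l ^ k) × ZMod (l ^ k), ∑ w : ZMod (l ^ k) × ZMod (l ^ k),
        if v.1 * w.2 - v.2 * w.1 = -1 then G v else 0 := by
    rw [sl, Finset.sum_filter, Fintype.sum_prod_type]
  rw [e1, prim, Finset.sum_filter, Finset.mul_sum]
  refine Finset.sum_congr rfl fun v _ => ?_
  rw [← Finset.sum_filter, Finset.sum_const, nsmul_eq_mul]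
  by_cases h : IsUnit v.1 ∨ IsUnit v.2
  · have h5 := fiber_card v.1 v.2 (-1) h
    rw [ZMod.card] at h5
    rw [if_pos h]
    congr 2
    convert h5
  · rw [if_neg h, mul_zero]
    have : (univ.filter (fun w : ZMod (l ^ k) × ZMod (l ^ k) =>
        v.1 * w.2 - v.2 * w.1 = -1)) = ∅ := by
      rw [Finset.filter_eq_empty_iff]
      intro w _ hw
      have h1 : IsUnit (v.1 * w.2 + -(v.2 * w.1)) := by
        rw [← sub_eq_add_neg, hw]; exact isUnit_one.neg
      rcases isUnit_or hl hk h1 with h2 | h2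
      · exact h (Or.inl (isUnit_of_mul_isUnit_left h2))
      · exact h (Or.inr (isUnit_of_mul_isUnit_left (IsUnit.neg_iff _ |>.1 h2)))
    rw [this]; simp

lemma totient_pp {l k : ℕ} (hl : l.Prime) (hk : 0 < k) :
    (((l ^ k).totient : ℕ) : ℝ) = ((l ^ k : ℕ) : ℝ) * (1 - 1 / (l : ℝ)) := by
  have hl0 : (l : ℝ) ≠ 0 := by exact_mod_cast hl.ne_zero
  obtain ⟨j, rfl⟩ := Nat.exists_eq_succ_of_ne_zero hk.ne'
  rw [Nat.totient_prime_pow_succ hl]
  push_cast [Nat.cast_sub hl.one_le, Nat.succ_eq_add_one]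
  rw [pow_succ]
  field_simp

lemma card_prim_real {l k : ℕ} (hl : l.Prime) (hk : 0 < k) [NeZero (l ^ k)] :
    ((prim (l ^ k)).card : ℝ) = ((l ^ k : ℕ) : ℝ) ^ 2 * (1 - 1 / (l : ℝ) ^ 2) := by
  have hl0 : (l : ℝ) ≠ 0 := by exact_mod_cast hl.ne_zero
  have h := card_prim (l ^ k)
  have h1 : (((prim (l ^ k)).card : ℝ)) + (((l ^ k : ℕ) : ℝ) - ((l ^ k).totient : ℝ)) *
      (((l ^ k : ℕ) : ℝ) - ((l ^ k).totient : ℝ)) = ((l ^ k : ℕ) : ℝ) * ((l ^ k : ℕ) : ℝ) := by
    rw [← Nat.cast_sub (Nat.totient_le _)]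
    exact_mod_cast h
  rw [totient_pp hl hk] at h1
  have h2 : ((prim (l ^ k)).card : ℝ) = ((l ^ k : ℕ) : ℝ) * ((l ^ k : ℕ) : ℝ) -
      (((l ^ k : ℕ) : ℝ) - ((l ^ k : ℕ) : ℝ) * (1 - 1 / (l : ℝ))) *
      (((l ^ k : ℕ) : ℝ) - ((l ^ k : ℕ) : ℝ) * (1 - 1 / (l : ℝ))) := by linarith
  rw [h2]
  field_simp
  ring

/-- the number of unimodular classes modulo a prime power -/
theorem card_sl {l k : ℕ} (hl : l.Prime) (hk : 0 < k) [NeZero (l ^ k)] :
    ((sl (l ^ k)).card : ℝ) = ((l ^ k : ℕ) : ℝ) ^ 3 * (1 - 1 / (l : ℝ) ^ 2) := by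
  have h := sum_sl_fst hl hk (fun _ => 1)
  simp only [Finset.sum_const, nsmul_eq_mul, mul_one] at h
  rw [h, card_prim_real hl hk]
  ring

/-! ### The action of `SL₂` on the classes -/

/-- the action of a matrix of determinant one -/
lemma sum_act {q : ℕ} [NeZero q] {s t s' t' : ZMod q} (h : s * t' - t * s' = 1)
    (H : R4 q → ℝ) :
    ∑ r ∈ sl q, H ((s * r.1.1 + t * r.2.1, s * r.1.2 + t * r.2.2),
      (s' * r.1.1 + t' * r.2.1, s' * r.1.2 + t' * r.2.2)) = ∑ r ∈ sl q, H r := by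
  refine Finset.sum_bij' (i := fun r _ => ((s * r.1.1 + t * r.2.1, s * r.1.2 + t * r.2.2),
      (s' * r.1.1 + t' * r.2.1, s' * r.1.2 + t' * r.2.2)))
    (j := fun r _ => ((t' * r.1.1 - t * r.2.1, t' * r.1.2 - t * r.2.2),
      (-s' * r.1.1 + s * r.2.1, -s' * r.1.2 + s * r.2.2))) ?_ ?_ ?_ ?_ ?_
  · intro r hr
    rw [mem_sl] at hr ⊢
    simp only
    linear_combination (r.1.1 * r.2.2 - r.1.2 * r.2.1) * h + hr
  · intro r hr
    rw [mem_sl] at hr ⊢
    simp only
    linear_combination (r.1.1 * r.2.2 - r.1.2 * r.2.1) * h + hr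
  · intro r _
    refine Prod.ext (Prod.ext ?_ ?_) (Prod.ext ?_ ?_)
    · simp only; linear_combination r.1.1 * h
    · simp only; linear_combination r.1.2 * h
    · simp only; linear_combination r.2.1 * h
    · simp only; linear_combination r.2.2 * h
  · intro r _
    refine Prod.ext (Prod.ext ?_ ?_) (Prod.ext ?_ ?_)
    · simp only; linear_combination r.1.1 * h
    · simp only; linear_combination r.1.2 * h
    · simp only; linear_combination r.2.1 * h
    · simp only; linear_combination r.2.2 * h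
  · intro r _
    rfl

/-- a primitive pair is the first row of a matrix of determinant one -/
lemma exists_act {q : ℕ} {s t : ZMod q} (h : IsUnit s ∨ IsUnit t) :
    ∃ s' t' : ZMod q, s * t' - t * s' = 1 := by
  rcases h with ⟨u, rfl⟩ | ⟨u, rfl⟩
  · exact ⟨0, ((u⁻¹ : (ZMod q)ˣ) : ZMod q), by rw [Units.mul_inv]; ring⟩
  · exact ⟨-((u⁻¹ : (ZMod q)ˣ) : ZMod q), 0, by rw [mul_neg, Units.mul_inv]; ring⟩

/-- functions of `s v + t w`, `(s, t)` primitive -/
lemma sum_lin {q : ℕ} [NeZero q] {s t : ZMod q} (h : IsUnit s ∨ IsUnit t)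
    (G : ZMod q × ZMod q → ℝ) :
    ∑ r ∈ sl q, G (s * r.1.1 + t * r.2.1, s * r.1.2 + t * r.2.2) = ∑ r ∈ sl q, G r.1 := by
  obtain ⟨s', t', hst⟩ := exists_act h
  exact sum_act hst (fun r => G r.1)

/-! ### Zeros of the norm form -/

/-- square roots of `-1` -/
noncomputable def iot (q : ℕ) [NeZero q] : Finset (ZMod q) :=
  univ.filter (fun s => s * s = -1)

lemma two_isUnit {l k : ℕ} (hl : l.Prime) (hl2 : l ≠ 2) (hk : 0 < k) :
    IsUnit (2 : ZMod (l ^ k)) := by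
  have h := (ZMod.isUnit_natCast_iff_not_dvd_pow (a := 2) hl hk).2
    (fun h => hl2 ((Nat.prime_dvd_prime_iff_eq hl Nat.prime_two).1 h))
  exact_mod_cast h

/-- two square roots of `-1` are equal or opposite -/
lemma iot_pm {l k : ℕ} (hl : l.Prime) (hl2 : l ≠ 2) (hk : 0 < k) {s s' : ZMod (l ^ k)}
    (hs : s * s = -1) (hs' : s' * s' = -1) : s' = s ∨ s' = -s := by
  have h1 : (s' - s) * (s' + s) = 0 := by linear_combination hs' - hs
  have h2 : IsUnit ((s' + s) + -(s' - s)) := by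
    have e : (s' + s) + -(s' - s) = 2 * s := by ring
    rw [e]
    refine (two_isUnit hl hl2 hk).mul ?_
    exact IsUnit.of_mul_eq_one (-s) (by linear_combination -hs)
  rcases isUnit_or hl hk h2 with h | h
  · left
    have := (h.mul_left_eq_zero).1 h1
    linear_combination this
  · right
    have h3 : IsUnit (s' - s) := (IsUnit.neg_iff _).1 h
    have := (h3.mul_right_eq_zero).1 h1
    linear_combination this

lemma card_iot_le {l k : ℕ} (hl : l.Prime) (hl2 : l ≠ 2) (hk : 0 < k) [NeZero (l ^ k)] :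
    (iot (l ^ k)).card ≤ 2 := by
  rcases (iot (l ^ k)).eq_empty_or_nonempty with h | ⟨s, hs⟩
  · rw [h]; simp
  · have : iot (l ^ k) ⊆ {s, -s} := by
      intro s' hs'
      rw [iot, Finset.mem_filter] at hs hs'
      rw [Finset.mem_insert, Finset.mem_singleton]
      exact iot_pm hl hl2 hk hs.2 hs'.2
    exact (Finset.card_le_card this).trans Finset.card_le_two

lemma card_iot_eq {l : ℕ} (hl : l.Prime) (hl4 : l % 4 = 1) [NeZero (l ^ 1)] :
    (iot (l ^ 1)).card = 2 := by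
  have hl2 : l ≠ 2 := by rintro rfl; norm_num at hl4
  have : Fact l.Prime := ⟨hl⟩
  have hsq : IsSquare (-1 : ZMod l) := ZMod.exists_sq_eq_neg_one_iff.mpr (by omega)
  have hsq' : IsSquare (-1 : ZMod (l ^ 1)) := by rw [pow_one]; exact hsq
  obtain ⟨s, hs⟩ := hsq'
  refine le_antisymm (card_iot_le hl hl2 one_pos) ?_
  have hne : s ≠ -s := by
    intro h
    have h1 : (2 : ZMod (l ^ 1)) * s = 0 := by linear_combination h
    have h2 := ((two_isUnit hl hl2 one_pos).mul_right_eq_zero).1 h1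
    rw [h2, mul_zero] at hs
    have h3 : (1 : ZMod (l ^ 1)) = 0 := by linear_combination -hs
    have : Fact (1 < l ^ 1) := ⟨by rw [pow_one]; exact hl.one_lt⟩
    exact one_ne_zero h3
  rw [← Finset.card_pair hne]
  refine Finset.card_le_card ?_
  intro x hx
  rw [Finset.mem_insert, Finset.mem_singleton] at hx
  rw [iot, Finset.mem_filter]
  refine ⟨Finset.mem_univ _, ?_⟩
  rcases hx with rfl | rfl
  · exact hs.symm
  · rw [neg_mul_neg]; exact hs.symm

/-- primitive zeros of the norm form -/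
lemma card_zero (l k : ℕ) (hl : l.Prime) (hk : 0 < k) [NeZero (l ^ k)] :
    ((prim (l ^ k)).filter (fun v => v.1 ^ 2 + v.2 ^ 2 = 0)).card =
      (iot (l ^ k)).card * (l ^ k).totient := by
  rw [← card_units, ← Finset.card_product]
  symm
  refine Finset.card_bij (fun x _ => (x.1 * x.2, x.2)) ?_ ?_ ?_
  · intro x hx
    rw [Finset.mem_product, iot, Finset.mem_filter, Finset.mem_filter] at hx
    rw [Finset.mem_filter, prim, Finset.mem_filter]
    refine ⟨⟨Finset.mem_univ _, Or.inr hx.2.2⟩, ?_⟩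
    simp only
    linear_combination x.2 ^ 2 * hx.1.2
  · intro x hx y hy h
    rw [Finset.mem_product, Finset.mem_filter] at hx hy
    have h2 : x.2 = y.2 := (Prod.ext_iff.1 h).2
    have h1 : x.1 * x.2 = y.1 * y.2 := (Prod.ext_iff.1 h).1
    rw [h2] at h1
    exact Prod.ext (hy.2.2.mul_right_cancel h1) h2
  · intro v hv
    rw [Finset.mem_filter, prim, Finset.mem_filter] at hv
    have hb : IsUnit v.2 := by
      rcases hv.1.2 with h | h
      · have h1 : v.2 * v.2 = -(v.1 * v.1) := by linear_combination hv.2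
        have h2 : IsUnit (v.2 * v.2) := by rw [h1]; exact (h.mul h).neg
        exact isUnit_of_mul_isUnit_left h2
      · exact h
    obtain ⟨u, hu⟩ := hb
    refine ⟨(v.1 * ((u⁻¹ : (ZMod (l ^ k))ˣ) : ZMod (l ^ k)), v.2), ?_, ?_⟩
    · rw [Finset.mem_product, iot, Finset.mem_filter, Finset.mem_filter]
      refine ⟨⟨Finset.mem_univ _, ?_⟩, Finset.mem_univ _, ⟨u, hu⟩⟩
      simp only
      have h3 : (u : ZMod (l ^ k)) * ((u⁻¹ : (ZMod (l ^ k))ˣ) : ZMod (l ^ k)) = 1 :=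
        Units.mul_inv u
      have h4 := hv.2
      rw [← hu] at h4
      linear_combination (((u⁻¹ : (ZMod (l ^ k))ˣ) : ZMod (l ^ k)) ^ 2) * h4 -
        (1 + (u : ZMod (l ^ k)) * ((u⁻¹ : (ZMod (l ^ k))ˣ) : ZMod (l ^ k))) * h3
    · refine Prod.ext ?_ rfl
      simp only
      rw [← hu, mul_assoc, Units.inv_mul, mul_one]

/-- zeros of the norm form at the first column -/
lemma sum_norm_fst {l k : ℕ} (hl : l.Prime) (hk : 0 < k) [NeZero (l ^ k)] :
    ∑ r ∈ sl (l ^ k), (if r.1.1 ^ 2 + r.1.2 ^ 2 = 0 then (1 : ℝ) else 0) =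
      ((iot (l ^ k)).card : ℝ) * ((l ^ k : ℕ) : ℝ) ^ 2 * (1 - 1 / (l : ℝ)) := by
  have h := sum_sl_fst hl hk (fun v => if v.1 ^ 2 + v.2 ^ 2 = 0 then (1 : ℝ) else 0)
  rw [h, ← Finset.sum_filter, Finset.sum_const, nsmul_eq_mul, mul_one, card_zero l k hl hk,
    Nat.cast_mul, totient_pp hl hk]
  ring

lemma one_sub_sq {l : ℕ} (hl : l.Prime) :
    (1 - 1 / (l : ℝ) ^ 2) = (1 - 1 / (l : ℝ)) * (1 + 1 / (l : ℝ)) := by
  have hl0 : (l : ℝ) ≠ 0 := by exact_mod_cast hl.ne_zero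
  field_simp
  ring

/-- the mean, at the level of residues -/
lemma mean_norm_lin {l k : ℕ} (hl : l.Prime) (hk : 0 < k) [NeZero (l ^ k)]
    {s t : ZMod (l ^ k)} (h : IsUnit s ∨ IsUnit t) :
    (∑ r ∈ sl (l ^ k), (if (s * r.1.1 + t * r.2.1) ^ 2 + (s * r.1.2 + t * r.2.2) ^ 2 = 0
      then (1 : ℝ) else 0)) / ((sl (l ^ k)).card : ℝ) =
      ((iot (l ^ k)).card : ℝ) / (((l ^ k : ℕ) : ℝ) * (1 + 1 / (l : ℝ))) := by
  have h1 := sum_lin h (fun v => if v.1 ^ 2 + v.2 ^ 2 = 0 then (1 : ℝ) else 0)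
  simp only at h1
  rw [h1, sum_norm_fst hl hk, card_sl hl hk, one_sub_sq hl]
  have hl1 : (1 : ℝ) < l := by exact_mod_cast hl.one_lt
  have hl0 : (l : ℝ) ≠ 0 := by linarith
  have h2 : (1 - 1 / (l : ℝ)) ≠ 0 := by
    have : 1 / (l : ℝ) < 1 := by rw [div_lt_one (by linarith)]; exact hl1
    linarith
  have h3 : (1 + 1 / (l : ℝ)) ≠ 0 := by positivity
  have h4 : ((l ^ k : ℕ) : ℝ) ≠ 0 := by
    exact_mod_cast pow_ne_zero _ hl.ne_zero
  generalize ((l ^ k : ℕ) : ℝ) = Q at h4 ⊢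
  generalize (1 - 1 / (l : ℝ)) = A at h2 ⊢
  generalize (1 + 1 / (l : ℝ)) = B at h3 ⊢
  field_simp

/-- the integral vector `s v + t w` -/
def lin (s t : ℤ) (x : V × V) : V := (s * x.1.1 + t * x.2.1, s * x.1.2 + t * x.2.2)

lemma lin_one_zero (x : V × V) : lin 1 0 x = x.1 := by simp [lin]
lemma lin_zero_one (x : V × V) : lin 0 1 x = x.2 := by simp [lin]

lemma dvd_nsq_iff {q : ℕ} (s t : ℤ) (x : V × V) :
    (q : ℤ) ∣ nsq (lin s t x) ↔ ((s : ZMod q) * (res q x).1.1 + (t : ZMod q) * (res q x).2.1) ^ 2 +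
      ((s : ZMod q) * (res q x).1.2 + (t : ZMod q) * (res q x).2.2) ^ 2 = 0 := by
  rw [← ZMod.intCast_zmod_eq_zero_iff_dvd]
  simp only [nsq, lin, res]
  push_cast
  rfl

lemma per_dvd_nsq (q : ℕ) (s t : ℤ) :
    Per q (fun x => if (q : ℤ) ∣ nsq (lin s t x) then (1 : ℝ) else 0) := by
  intro x y h
  simp only [dvd_nsq_iff, h]

/-- **LOC1**: the probability that `l^k ∣ nsq (s v + t w)` for `(s, t)` primitive modulo `l`. -/
theorem mn_norm {l k : ℕ} (hl : l.Prime) (hk : 0 < k) [NeZero (l ^ k)] (s t : ℤ)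
    (h : ¬ ((l : ℤ) ∣ s ∧ (l : ℤ) ∣ t)) :
    mn (l ^ k) (fun x => if ((l ^ k : ℕ) : ℤ) ∣ nsq (lin s t x) then (1 : ℝ) else 0) =
      ((iot (l ^ k)).card : ℝ) / (((l ^ k : ℕ) : ℝ) * (1 + 1 / (l : ℝ))) := by
  have hu : ∀ a : ℤ, ¬ (l : ℤ) ∣ a → IsUnit ((a : ℤ) : ZMod (l ^ k)) := by
    intro a ha
    rw [isUnit_iff hl hk]
    intro hd
    apply ha
    have e : (((a : ZMod (l ^ k)).val : ℤ) : ZMod (l ^ k)) = (a : ZMod (l ^ k)) := by simp
    rw [ZMod.intCast_eq_intCast_iff_dvd_sub] at e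
    have h1 : (l : ℤ) ∣ a - ((a : ZMod (l ^ k)).val : ℤ) :=
      (Int.natCast_dvd_natCast.2 (dvd_pow_self l hk.ne')).trans e
    have h2 : (l : ℤ) ∣ ((a : ZMod (l ^ k)).val : ℤ) := by exact_mod_cast hd
    have := dvd_add h1 h2
    rwa [sub_add_cancel] at this
  have hst : IsUnit ((s : ℤ) : ZMod (l ^ k)) ∨ IsUnit ((t : ℤ) : ZMod (l ^ k)) := by
    rw [not_and_or] at h
    exact h.imp (hu s) (hu t)
  rw [mn_def, ← mean_norm_lin hl hk hst]
  congr 1
  refine Finset.sum_congr rfl fun r _ => ?_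
  simp only [dvd_nsq_iff, res_lift]

theorem mn_norm_le {l k : ℕ} (hl : l.Prime) (hl2 : l ≠ 2) (hk : 0 < k) (s t : ℤ)
    (h : ¬ ((l : ℤ) ∣ s ∧ (l : ℤ) ∣ t)) :
    mn (l ^ k) (fun x => if ((l ^ k : ℕ) : ℤ) ∣ nsq (lin s t x) then (1 : ℝ) else 0) ≤
      2 / ((l ^ k : ℕ) : ℝ) := by
  have : NeZero (l ^ k) := ⟨pow_ne_zero _ hl.ne_zero⟩
  rw [mn_norm hl hk s t h]
  have h1 : ((iot (l ^ k)).card : ℝ) ≤ 2 := by exact_mod_cast card_iot_le hl hl2 hk
  have h2 : (0 : ℝ) < ((l ^ k : ℕ) : ℝ) := by exact_mod_cast pow_pos hl.pos k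
  have h3 : (1 : ℝ) ≤ 1 + 1 / (l : ℝ) := by
    have : (0 : ℝ) ≤ 1 / (l : ℝ) := by positivity
    linarith
  rw [div_le_div_iff₀ (by positivity) h2]
  nlinarith

theorem mn_norm_one {l : ℕ} (hl : l.Prime) (hl4 : l % 4 = 1) (s t : ℤ)
    (h : ¬ ((l : ℤ) ∣ s ∧ (l : ℤ) ∣ t)) :
    mn l (fun x => if (l : ℤ) ∣ nsq (lin s t x) then (1 : ℝ) else 0) = 2 / ((l : ℝ) + 1) := by
  have : NeZero (l ^ 1) := ⟨pow_ne_zero _ hl.ne_zero⟩
  have h1 := mn_norm hl one_pos s t h
  rw [card_iot_eq hl hl4] at h1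
  rw [pow_one] at h1
  rw [h1]
  have hl0 : (0 : ℝ) < l := by exact_mod_cast hl.pos
  push_cast
  rw [mul_add, mul_one, mul_one_div_cancel hl0.ne']

theorem mn_norm_three {l : ℕ} (hl : l.Prime) (hl4 : l % 4 = 3) (s t : ℤ)
    (h : ¬ ((l : ℤ) ∣ s ∧ (l : ℤ) ∣ t)) :
    mn l (fun x => if (l : ℤ) ∣ nsq (lin s t x) then (1 : ℝ) else 0) = 0 := by
  have : NeZero (l ^ 1) := ⟨pow_ne_zero _ hl.ne_zero⟩
  have h1 := mn_norm hl one_pos s t h
  have h2 : (iot (l ^ 1)) = ∅ := by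
    rw [iot, Finset.filter_eq_empty_iff]
    intro x _ hx
    have : Fact l.Prime := ⟨hl⟩
    have hsq : IsSquare (-1 : ZMod (l ^ 1)) := ⟨x, hx.symm⟩
    rw [pow_one] at hsq
    exact (ZMod.exists_sq_eq_neg_one_iff.mp hsq) hl4
  rw [h2] at h1
  rw [pow_one] at h1
  rw [h1]; simp

/-! ### Reduction of the modulus -/

/-- reduction of residues -/
def red (m : ℕ) {q : ℕ} (r : R4 q) : R4 m := res m (lift q r)

lemma card_cast_fiber {m q : ℕ} [NeZero q] [NeZero m] (hmq : m ∣ q) (a : ZMod m) :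
    ((univ : Finset (ZMod q)).filter (fun x => ((x.val : ℤ) : ZMod m) = a)).card ≤ q / m := by
  rw [← Finset.card_range (q / m)]
  refine Finset.card_le_card_of_injOn (fun x => x.val / m) ?_ ?_
  · intro x _
    simp only [Finset.coe_range, Set.mem_Iio]
    exact Nat.div_lt_div_of_lt_of_dvd hmq (ZMod.val_lt x)
  · intro x hx y hy h
    rw [Finset.coe_filter, Set.mem_setOf_eq] at hx hy
    have h1 : ((x.val : ℕ) : ZMod m) = ((y.val : ℕ) : ZMod m) := by
      have := hx.2.trans hy.2.symm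
      exact_mod_cast this
    rw [ZMod.natCast_eq_natCast_iff] at h1
    apply ZMod.val_injective q
    have h2 : x.val % m = y.val % m := h1
    simp only at h
    rw [← Nat.div_add_mod x.val m, ← Nat.div_add_mod y.val m, h, h2]

lemma res_isUnit {l i j : ℕ} (hl : l.Prime) (hi : 0 < i) (hij : i ≤ j) {x : ZMod (l ^ j)}
    (h : IsUnit (((x.val : ℤ) : ZMod (l ^ i)))) : IsUnit x := by
  have : NeZero (l ^ i) := ⟨pow_ne_zero _ hl.ne_zero⟩
  rw [isUnit_iff hl (by omega)]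
  intro hd
  have h2 : IsUnit ((x.val : ℕ) : ZMod (l ^ i)) := by exact_mod_cast h
  exact ((ZMod.isUnit_natCast_iff_not_dvd_pow hl hi).1 h2) hd

lemma red_fiber_le {l i j : ℕ} (hl : l.Prime) (hi : 0 < i) (hij : i ≤ j) [NeZero (l ^ i)]
    [NeZero (l ^ j)] (ρ : R4 (l ^ i)) (hρ : ρ ∈ sl (l ^ i)) :
    ((sl (l ^ j)).filter (fun r => red (l ^ i) r = ρ)).card ≤ (l ^ (j - i)) ^ 3 := by
  have hd : l ^ i ∣ l ^ j := pow_dvd_pow l hij
  have hdiv : l ^ j / l ^ i = l ^ (j - i) := Nat.pow_div hij hl.pos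
  have hc : ∀ a : ZMod (l ^ i),
      ((univ : Finset (ZMod (l ^ j))).filter (fun x => ((x.val : ℤ) : ZMod (l ^ i)) = a)).card ≤
        l ^ (j - i) := fun a => hdiv ▸ card_cast_fiber hd a
  have hu : IsUnit ρ.1.1 ∨ IsUnit ρ.1.2 := by
    rw [mem_sl] at hρ
    have h1 : IsUnit (ρ.1.1 * ρ.2.2 + -(ρ.1.2 * ρ.2.1)) := by
      rw [← sub_eq_add_neg, hρ]; exact isUnit_one.neg
    rcases isUnit_or hl hi h1 with h2 | h2
    · exact Or.inl (isUnit_of_mul_isUnit_left h2)
    · exact Or.inr (isUnit_of_mul_isUnit_left (IsUnit.neg_iff _ |>.1 h2))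
  have key : ∀ f : R4 (l ^ j) → (ZMod (l ^ j) × ZMod (l ^ j)) × ZMod (l ^ j),
      ∀ a b c : ZMod (l ^ i), (∀ r ∈ (sl (l ^ j)).filter (fun r => red (l ^ i) r = ρ),
        (((f r).1.1.val : ℤ) : ZMod (l ^ i)) = a ∧ (((f r).1.2.val : ℤ) : ZMod (l ^ i)) = b ∧
          (((f r).2.val : ℤ) : ZMod (l ^ i)) = c) →
      Set.InjOn f ((sl (l ^ j)).filter (fun r => red (l ^ i) r = ρ)) →
      ((sl (l ^ j)).filter (fun r => red (l ^ i) r = ρ)).card ≤ (l ^ (j - i)) ^ 3 := by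
    intro f a b c h1 h2
    have h3 := Finset.card_le_card_of_injOn
      (t := (((univ : Finset (ZMod (l ^ j))).filter
          (fun x => ((x.val : ℤ) : ZMod (l ^ i)) = a)) ×ˢ
        ((univ : Finset (ZMod (l ^ j))).filter (fun x => ((x.val : ℤ) : ZMod (l ^ i)) = b))) ×ˢ
        ((univ : Finset (ZMod (l ^ j))).filter (fun x => ((x.val : ℤ) : ZMod (l ^ i)) = c))) f
      (by
        intro r hr
        have := h1 r hr
        simp only [Finset.coe_product, Set.mem_prod, Finset.mem_coe, Finset.mem_filter,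
          Finset.mem_univ, true_and]
        exact ⟨⟨this.1, this.2.1⟩, this.2.2⟩) h2
    refine h3.trans ?_
    rw [Finset.card_product, Finset.card_product, pow_succ, pow_two]
    exact Nat.mul_le_mul (Nat.mul_le_mul (hc a) (hc b)) (hc c)
  rcases hu with hu | hu
  · refine key (fun r => ((r.1.1, r.1.2), r.2.1)) ρ.1.1 ρ.1.2 ρ.2.1 ?_ ?_
    · intro r hr
      rw [Finset.mem_filter] at hr
      rw [← hr.2]
      exact ⟨rfl, rfl, rfl⟩
    · intro r hr r' hr' h
      rw [Finset.mem_coe, Finset.mem_filter, mem_sl] at hr hr'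
      simp only [Prod.mk.injEq] at h
      obtain ⟨⟨h1, h2⟩, h3⟩ := h
      have hu1 : IsUnit r.1.1 := by
        refine res_isUnit hl hi hij ?_
        rw [← hr.2] at hu
        exact hu
      have h4 : r.1.1 * r.2.2 = r.1.1 * r'.2.2 := by
        have e1 := hr.1
        have e2 := hr'.1
        rw [← h1, ← h2, ← h3] at e2
        linear_combination e1 - e2
      exact Prod.ext (Prod.ext h1 h2) (Prod.ext h3 (hu1.mul_left_cancel h4))
  · refine key (fun r => ((r.1.1, r.1.2), r.2.2)) ρ.1.1 ρ.1.2 ρ.2.2 ?_ ?_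
    · intro r hr
      rw [Finset.mem_filter] at hr
      rw [← hr.2]
      exact ⟨rfl, rfl, rfl⟩
    · intro r hr r' hr' h
      rw [Finset.mem_coe, Finset.mem_filter, mem_sl] at hr hr'
      simp only [Prod.mk.injEq] at h
      obtain ⟨⟨h1, h2⟩, h3⟩ := h
      have hu1 : IsUnit r.1.2 := by
        refine res_isUnit hl hi hij ?_
        rw [← hr.2] at hu
        exact hu
      have h4 : r.1.2 * r.2.1 = r.1.2 * r'.2.1 := by
        have e1 := hr.1
        have e2 := hr'.1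
        rw [← h1, ← h2, ← h3] at e2
        linear_combination e2 - e1
      exact Prod.ext (Prod.ext h1 h2) (Prod.ext (hu1.mul_left_cancel h4) h3)

lemma red_mem {l i j : ℕ} (hij : i ≤ j) [NeZero (l ^ i)] [NeZero (l ^ j)] {r : R4 (l ^ j)}
    (hr : r ∈ sl (l ^ j)) : red (l ^ i) r ∈ sl (l ^ i) := by
  rw [mem_sl] at hr ⊢
  have h : ((((lift (l ^ j) r).1.1 * (lift (l ^ j) r).2.2 - (lift (l ^ j) r).1.2 *
      (lift (l ^ j) r).2.1 : ℤ)) : ZMod (l ^ j)) = ((-1 : ℤ) : ZMod (l ^ j)) := by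
    have e := res_lift (l ^ j) r
    simp only [res] at e
    push_cast
    rw [← hr]
    conv_rhs => rw [← e]
  rw [ZMod.intCast_eq_intCast_iff_dvd_sub] at h
  have h2 := (Int.natCast_dvd_natCast.2 (pow_dvd_pow l hij)).trans h
  rw [← ZMod.intCast_eq_intCast_iff_dvd_sub] at h2
  push_cast at h2
  simp only [red, res]
  exact h2

/-- **LOC2**: the mean of a class function modulo `l^i` does not depend on the exponent. -/
theorem mn_pow {l i j : ℕ} (hl : l.Prime) (hi : 0 < i) (hij : i ≤ j) {F : V × V → ℝ}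
    (hF : Per (l ^ i) F) : mn (l ^ j) F = mn (l ^ i) F := by
  have hni : NeZero (l ^ i) := ⟨pow_ne_zero _ hl.ne_zero⟩
  have hnj : NeZero (l ^ j) := ⟨pow_ne_zero _ hl.ne_zero⟩
  have hl0 : (l : ℝ) ≠ 0 := by exact_mod_cast hl.ne_zero
  -- the fibres have the same number of elements
  have htot : ∑ ρ ∈ sl (l ^ i), ((sl (l ^ j)).filter (fun r => red (l ^ i) r = ρ)).card =
      (sl (l ^ j)).card :=
    (Finset.card_eq_sum_card_fiberwise (fun r hr => red_mem hij hr)).symm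
  have hcard : (sl (l ^ j)).card = ∑ _ρ ∈ sl (l ^ i), (l ^ (j - i)) ^ 3 := by
    rw [Finset.sum_const, smul_eq_mul]
    have h1 := card_sl (l := l) (k := j) hl (by omega)
    have h2 := card_sl (l := l) (k := i) hl hi
    have h3 : ((sl (l ^ j)).card : ℝ) = ((sl (l ^ i)).card : ℝ) * ((l : ℝ) ^ (j - i)) ^ 3 := by
      rw [h1, h2]
      push_cast
      have e : (l : ℝ) ^ j = (l : ℝ) ^ i * (l : ℝ) ^ (j - i) := by
        rw [← pow_add]; congr 1; omega
      rw [e]; ring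
    exact_mod_cast h3
  have heq : ∀ ρ ∈ sl (l ^ i), ((sl (l ^ j)).filter (fun r => red (l ^ i) r = ρ)).card =
      (l ^ (j - i)) ^ 3 := by
    rw [hcard] at htot
    exact (Finset.sum_eq_sum_iff_of_le fun ρ hρ => red_fiber_le hl hi hij ρ hρ).1 htot
  have hsum : ∑ r ∈ sl (l ^ j), F (lift (l ^ j) r) =
      ∑ ρ ∈ sl (l ^ i), ((l : ℝ) ^ (j - i)) ^ 3 * F (lift (l ^ i) ρ) := by
    rw [← Finset.sum_fiberwise_of_maps_to (fun r hr => red_mem hij hr)]
    refine Finset.sum_congr rfl fun ρ hρ => ?_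
    rw [Finset.sum_congr rfl (g := fun _ => F (lift (l ^ i) ρ)), Finset.sum_const, nsmul_eq_mul,
      heq ρ hρ]
    · push_cast; ring
    · intro r hr
      rw [← (Finset.mem_filter.1 hr).2, red, hF.lift]
  rw [mn_def, mn_def, hsum, ← Finset.mul_sum, hcard, Finset.sum_const, smul_eq_mul]
  push_cast
  have h4 : ((sl (l ^ i)).card : ℝ) ≠ 0 := by exact_mod_cast (sl_card_pos (l ^ i)).ne'
  field_simp

end LocM

end Pool.Agent.Lib.MP391708.T1
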