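import Pool.Agent.Lib.MP_391708_nt.T1.FuB
import Pool.Agent.Lib.MP_391708_nt.T1.FuS
import Pool.Agent.Lib.MP_391708_nt.T1.LocM
import Pool.Agent.Lib.MP_391708_nt.T1.GoodL
import Pool.Agent.Lib.MP_391708_nt.T4.FSpecA

/-!
# T1, group F1, part C: the moments of `T_u T_v`
-/

set_option autoImplicit false

namespace Pool.Agent.Lib.MP391708.T4

open Finset Filter Topology
open Pool.Agent.Lib.MP391708.Eqd (V cross dot nsq pairs)
open Pool.Agent.Lib.MP391708.T1 (EqR iv iw nv nw mn)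
open scoped Classical

/-- equidistribution over the critical window in the language of `T1` -/
def EqG : Prop :=
  ∃ c : ℝ, 0 < c ∧ ∀ᶠ N : ℕ in atTop, EqR (Gam N 1 2) ⌊(N : ℝ) ^ c⌋₊ ((N : ℝ) ^ (1 - c))

lemma mn_iv {l : ℕ} (hl : l.Prime) (hl4 : l % 4 = 1) : mn l (iv l) = 2 / ((l : ℝ) + 1) := by
  have h := T1.LocM.mn_norm_one hl hl4 1 0 (fun h => by
    have := hl.two_le
    have h2 := Int.le_of_dvd one_pos h.1
    omega)
  simp only [T1.LocM.lin_one_zero] at h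
  rw [← h]
  congr 1

lemma mn_iw {l : ℕ} (hl : l.Prime) (hl4 : l % 4 = 1) : mn l (iw l) = 2 / ((l : ℝ) + 1) := by
  have h := T1.LocM.mn_norm_one hl hl4 0 1 (fun h => by
    have := hl.two_le
    have h2 := Int.le_of_dvd one_pos h.2
    omega)
  simp only [T1.LocM.lin_zero_one] at h
  rw [← h]
  congr 1

lemma zz_tendsto {p : Prm} (hζ : 0 < p.ζ) : Tendsto (fun N : ℕ => zz p N) atTop atTop :=
  (tendsto_rpow_atTop hζ).comp tendsto_natCast_atTop_atTop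

lemma zz_pow (p : Prm) (N n : ℕ) : zz p N ^ n = (N : ℝ) ^ (p.ζ * n) := by
  unfold zz
  rw [Real.rpow_mul (Nat.cast_nonneg _), Real.rpow_natCast]

lemma mem_Uu {p : Prm} {N u : ℕ} :
    u ∈ Uu p N ↔ u.Prime ∧ u % 4 = 1 ∧ Y1 p N ≤ (u : ℝ) ∧ (u : ℝ) ≤ Y2 p N := by
  unfold Uu
  rw [mem_filter, mem_range]
  constructor
  · rintro ⟨-, h⟩; exact h
  · intro h
    exact ⟨Nat.lt_succ_of_le (Nat.le_floor h.2.2.2), h⟩

lemma mem_Vv {p : Prm} {N u : ℕ} :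
    u ∈ Vv p N ↔ u.Prime ∧ u % 4 = 1 ∧ Y3 p N ≤ (u : ℝ) ∧ (u : ℝ) ≤ Y4 p N := by
  unfold Vv
  rw [mem_filter, mem_range]
  constructor
  · rintro ⟨-, h⟩; exact h
  · intro h
    exact ⟨Nat.lt_succ_of_le (Nat.le_floor h.2.2.2), h⟩

lemma S1_le_Su {p : Prm} {N : ℕ} (h : 0 ≤ Y1 p N) : T1.S1 (Y1 p N) (Y2 p N) ≤ Su p N := by
  unfold T1.S1 Su
  refine Finset.sum_le_sum_of_subset_of_nonneg ?_ fun _ _ _ => by positivity
  intro l hl
  obtain ⟨h1, h2, h3, h4⟩ := (T1.mem_P1 h).1 hl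
  exact mem_Uu.2 ⟨h3, h4, h1.le, h2⟩

lemma S1_le_Sv {p : Prm} {N : ℕ} (h : 0 ≤ Y3 p N) : T1.S1 (Y3 p N) (Y4 p N) ≤ Sv p N := by
  unfold T1.S1 Sv
  refine Finset.sum_le_sum_of_subset_of_nonneg ?_ fun _ _ _ => by positivity
  intro l hl
  obtain ⟨h1, h2, h3, h4⟩ := (T1.mem_P1 h).1 hl
  exact mem_Vv.2 ⟨h3, h4, h1.le, h2⟩

lemma card_le_of {U : Finset ℕ} {y : ℝ} (hy : 0 ≤ y)
    (h : ∀ u ∈ U, u.Prime ∧ (u : ℝ) ≤ y) : (U.card : ℝ) ≤ y := by
  have h1 : U ⊆ Icc 1 ⌊y⌋₊ := by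
    intro u hu
    rw [mem_Icc]
    exact ⟨(h u hu).1.one_lt.le, Nat.le_floor (h u hu).2⟩
  have h2 := Finset.card_le_card h1
  rw [Nat.card_Icc, Nat.add_sub_cancel] at h2
  exact (Nat.cast_le.2 h2).trans (Nat.floor_le hy)

/-- `∑ 2/(u+1)` -/
lemma sum_succ {U : Finset ℕ} {y : ℝ} (hy : 0 < y) (h : ∀ u ∈ U, y ≤ (u : ℝ)) :
    (1 - 1 / y) * (∑ u ∈ U, 2 / (u : ℝ)) ≤ ∑ u ∈ U, 2 / ((u : ℝ) + 1) ∧
      ∑ u ∈ U, 2 / ((u : ℝ) + 1) ≤ ∑ u ∈ U, 2 / (u : ℝ) := by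
  constructor
  · rw [Finset.mul_sum]
    refine Finset.sum_le_sum fun l hl => ?_
    have h1 := h l hl
    have hl0 : (0 : ℝ) < l := hy.trans_le h1
    have h4 : 1 / (l : ℝ) ≤ 1 / y := one_div_le_one_div_of_le hy h1
    have h5 : (1 - 1 / y) * (2 / (l : ℝ)) ≤ (1 - 1 / (l : ℝ)) * (2 / (l : ℝ)) :=
      mul_le_mul_of_nonneg_right (by linarith) (by positivity)
    refine h5.trans ?_
    rw [le_div_iff₀ (by linarith)]
    have : (1 - 1 / (l : ℝ)) * (2 / (l : ℝ)) * (l + 1) = 2 * (1 - 1 / (l : ℝ) ^ 2) := by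
      field_simp
      ring
    rw [this]
    have : 0 < 1 / (l : ℝ) ^ 2 := by positivity
    linarith
  · refine Finset.sum_le_sum fun l hl => ?_
    have hl0 : (0 : ℝ) < l := hy.trans_le (h l hl)
    exact div_le_div_of_nonneg_left (by norm_num) hl0 (by linarith)

lemma prod_ratio {A S L : ℝ} {j : ℕ} (hA : 0 ≤ A) (hAS : A ≤ S) (hL : 0 < L) (hS : L ≤ S) :
    (∏ t ∈ range j, (A + t)) ≤ S ^ j * (1 + j / L) ^ j := by
  have hS0 : 0 < S := hL.trans_le hS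
  have h1 : ∏ t ∈ range j, (A + (t : ℝ)) ≤ ∏ _t ∈ range j, (S * (1 + j / L)) := by
    refine Finset.prod_le_prod (fun t _ => by positivity) fun t ht => ?_
    have ht' : (t : ℝ) ≤ j := by exact_mod_cast (mem_range.1 ht).le
    have h2 : (j : ℝ) ≤ S * (j / L) := by
      rw [mul_div_assoc', le_div_iff₀ hL]
      nlinarith [(Nat.cast_nonneg j : (0 : ℝ) ≤ j)]
    nlinarith
  rwa [Finset.prod_const, card_range, mul_pow] at h1

theorem tm_of_eq (hEq : EqG) (hC : SpecCNT) : SpecTM := by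
  intro ε j hε
  obtain ⟨c, hc, hEq⟩ := hEq
  obtain ⟨-, c₁, hc₁, hCN⟩ := hC
  obtain ⟨C, hC0, hS1⟩ := T1.S1_pow
  -- choice of `L`
  have hlim : Tendsto (fun L : ℝ => (1 + (j : ℝ) / L) ^ (2 * j)) atTop (𝓝 1) := by
    have h1 : Tendsto (fun L : ℝ => 1 + (j : ℝ) / L) atTop (𝓝 (1 + 0)) :=
      tendsto_const_nhds.add (tendsto_const_nhds.div_atTop tendsto_id)
    have h2 := h1.pow (2 * j)
    simpa using h2
  obtain ⟨L, hL1, hLε, hLj⟩ : ∃ L : ℝ, 1 ≤ L ∧ 1 / ε ≤ L ∧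
      (1 + (j : ℝ) / L) ^ (2 * j) ≤ 1 + ε / 2 := by
    have h1 := (hlim.eventually_le_const (show (1 : ℝ) < 1 + ε / 2 by linarith)).and
      ((eventually_ge_atTop (1 : ℝ)).and (eventually_ge_atTop (1 / ε)))
    obtain ⟨L, h1, h2, h3⟩ := h1.exists
    exact ⟨L, h2, h3, h1⟩
  have hL0 : 0 < L := by linarith
  obtain ⟨r₀, hr₀⟩ := exists_nat_ge (Real.exp (L + C))
  have hgood := ((Good.large_r (fun _ _ => r₀ + 1)).and (Good.large_k (fun _ _ _ => 1))).and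
    (Good.zeta_pos.and (Good.zeta_le (fun _ _ r k =>
      c / 2 / (((r * k + 10 * r ^ 2 * k) * (j + 1) + 1 : ℕ) : ℝ))
      (fun _ _ r k => by positivity)))
  refine hgood.mono ?_
  rintro p ⟨⟨hr, hk⟩, hζ, hζ'⟩
  replace hr : r₀ + 1 ≤ p.r := hr
  replace hk : 1 ≤ p.k := hk
  have hr1 : 1 ≤ p.r := by omega
  have hrR : Real.exp (L + C) ≤ (p.r : ℝ) := by
    have : (r₀ : ℝ) ≤ (p.r : ℝ) := by exact_mod_cast (show r₀ ≤ p.r by omega)
    linarith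
  have hlogr : L + C ≤ Real.log p.r := by
    rw [Real.le_log_iff_exp_le (lt_of_lt_of_le (Real.exp_pos _) hrR)]
    exact hrR
  -- large `N`
  have hz := zz_tendsto hζ
  have hNc : Tendsto (fun N : ℕ => (N : ℝ) ^ (-(c / 2))) atTop (𝓝 0) :=
    (tendsto_rpow_neg_atTop (by positivity)).comp tendsto_natCast_atTop_atTop
  filter_upwards [hEq, hCN, hz.eventually_ge_atTop 3, hz.eventually_ge_atTop (8 / ε + 1),
    hNc.eventually_le_const (show 0 < ε * c₁ / 4 by positivity), eventually_ge_atTop 2]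
    with N hEqN hCNN hz3 hzε hNcN hN2
  have hN0 : (0 : ℝ) < N := by positivity
  have hN1 : (1 : ℝ) ≤ N := by exact_mod_cast (show 1 ≤ N by omega)
  have hz1 : 1 ≤ zz p N := by linarith
  have hz0 : 0 < zz p N := by linarith
  -- the sizes
  have hY1 : zz p N ≤ Y1 p N := by
    unfold Y1
    calc zz p N = zz p N ^ 1 := (pow_one _).symm
      _ ≤ zz p N ^ p.k := pow_le_pow_right₀ hz1 hk
  have hY1p : 0 < Y1 p N := by unfold Y1; positivity
  have hY2p : 0 < Y2 p N := by unfold Y2; positivity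
  have hY3p : 0 < Y3 p N := by unfold Y3; positivity
  have hY4p : 0 < Y4 p N := by unfold Y4; positivity
  have hrk : 1 ≤ p.r * p.k := Nat.mul_pos (by omega) (by omega)
  have hY23 : Y2 p N < Y3 p N := by
    unfold Y2 Y3
    refine pow_lt_pow_right₀ (by linarith) ?_
    nlinarith
  have hY3 : zz p N ≤ Y3 p N := by
    unfold Y3
    calc zz p N = zz p N ^ 1 := (pow_one _).symm
      _ ≤ _ := pow_le_pow_right₀ hz1 (by nlinarith)
  have hY24 : Y2 p N ≤ Y4 p N := by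
    unfold Y2 Y4
    refine pow_le_pow_right₀ hz1 ?_
    nlinarith
  -- `Su`, `Sv`
  have hSu : L ≤ Su p N := by
    have h1 := hS1 (zz p N) p.k ((p.r * p.k : ℕ) : ℝ) hz3 (by exact_mod_cast hk)
      (by exact_mod_cast Nat.le_mul_of_pos_left _ (by omega))
    rw [Real.rpow_natCast, Real.rpow_natCast] at h1
    have h2 : (((p.r * p.k : ℕ) : ℝ) / (p.k : ℝ)) = p.r := by
      have : (p.k : ℝ) ≠ 0 := by positivity
      push_cast
      field_simp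
    rw [h2] at h1
    have h3 := (abs_le.1 h1).1
    have h4 : T1.S1 (zz p N ^ p.k) (zz p N ^ (p.r * p.k)) ≤ Su p N := S1_le_Su hY1p.le
    linarith
  have hSv : L ≤ Sv p N := by
    have h1 := hS1 (zz p N) ((10 * p.r * p.k : ℕ) : ℝ) ((10 * p.r ^ 2 * p.k : ℕ) : ℝ) hz3
      (by exact_mod_cast (show 1 ≤ 10 * p.r * p.k by nlinarith))
      (by exact_mod_cast (show 10 * p.r * p.k ≤ 10 * p.r ^ 2 * p.k by nlinarith))
    rw [Real.rpow_natCast, Real.rpow_natCast] at h1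
    have h2 : (((10 * p.r ^ 2 * p.k : ℕ) : ℝ) / ((10 * p.r * p.k : ℕ) : ℝ)) = p.r := by
      have h3 : (p.k : ℝ) ≠ 0 := by positivity
      have h4 : (p.r : ℝ) ≠ 0 := by positivity
      push_cast
      field_simp
    rw [h2] at h1
    have h3 := (abs_le.1 h1).1
    have h4 : T1.S1 (zz p N ^ (10 * p.r * p.k)) (zz p N ^ (10 * p.r ^ 2 * p.k)) ≤ Sv p N :=
      S1_le_Sv hY3p.le
    linarith
  have hSu0 : 0 < Su p N := by linarith
  have hSv0 : 0 < Sv p N := by linarith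
  -- hypotheses of `momk`
  have hU : ∀ u ∈ Uu p N, u.Prime ∧ u ≤ ⌊Y2 p N⌋₊ ∧ mn u (iv u) = 2 / ((u : ℝ) + 1) := by
    intro u hu
    obtain ⟨h1, h2, h3, h4⟩ := mem_Uu.1 hu
    exact ⟨h1, Nat.le_floor h4, mn_iv h1 h2⟩
  have hV : ∀ u ∈ Vv p N, u.Prime ∧ u ≤ ⌊Y4 p N⌋₊ ∧ mn u (iw u) = 2 / ((u : ℝ) + 1) := by
    intro u hu
    obtain ⟨h1, h2, h3, h4⟩ := mem_Vv.1 hu
    exact ⟨h1, Nat.le_floor h4, mn_iw h1 h2⟩
  have hUV : Disjoint (Uu p N) (Vv p N) := by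
    rw [Finset.disjoint_left]
    intro u hu hu'
    have h1 := (mem_Uu.1 hu).2.2.2
    have h2 := (mem_Vv.1 hu').2.2.1
    linarith
  -- the product of the sizes
  have hsz : (Y2 p N) ^ (j + 1) * (Y4 p N) ^ (j + 1) ≤ (N : ℝ) ^ (c / 2) := by
    have e1 : (Y2 p N) ^ (j + 1) * (Y4 p N) ^ (j + 1) =
        zz p N ^ ((p.r * p.k + 10 * p.r ^ 2 * p.k) * (j + 1)) := by
      unfold Y2 Y4
      rw [← mul_pow, ← pow_add, ← pow_mul]
    rw [e1, zz_pow]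
    refine Real.rpow_le_rpow_of_exponent_le hN1 ?_
    set m : ℕ := (p.r * p.k + 10 * p.r ^ 2 * p.k) * (j + 1) with hm
    have h2 : p.ζ * (m : ℝ) ≤ c / 2 / (((m + 1 : ℕ) : ℝ)) * (m : ℝ) :=
      mul_le_mul_of_nonneg_right hζ' (Nat.cast_nonneg _)
    refine h2.trans ?_
    rw [div_mul_eq_mul_div, div_le_iff₀ (by positivity)]
    push_cast
    nlinarith
  have hY2one : 1 ≤ Y2 p N := by
    unfold Y2; exact one_le_pow₀ hz1
  have hY4one : 1 ≤ Y4 p N := by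
    unfold Y4; exact one_le_pow₀ hz1
  have hBa : 1 ≤ ⌊Y2 p N⌋₊ := Nat.le_floor (by push_cast; exact hY2one)
  have hBb : 1 ≤ ⌊Y4 p N⌋₊ := Nat.le_floor (by push_cast; exact hY4one)
  have hsz' : ∀ i : ℕ, i ≤ j + 1 → (Y2 p N) ^ i * (Y4 p N) ^ i ≤ (N : ℝ) ^ (c / 2) := by
    intro i hi
    refine le_trans ?_ hsz
    exact mul_le_mul (pow_le_pow_right₀ hY2one hi) (pow_le_pow_right₀ hY4one hi) (by positivity)
      (by positivity)
  have hQ : ∀ i : ℕ, i ≤ j + 1 → ⌊Y2 p N⌋₊ ^ i * ⌊Y4 p N⌋₊ ^ i ≤ ⌊(N : ℝ) ^ c⌋₊ := by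
    intro i hi
    refine Nat.le_floor ?_
    push_cast
    have h1 : (⌊Y2 p N⌋₊ : ℝ) ^ i * (⌊Y4 p N⌋₊ : ℝ) ^ i ≤ (Y2 p N) ^ i * (Y4 p N) ^ i := by
      have h2 := pow_le_pow_left₀ (Nat.cast_nonneg _) (Nat.floor_le hY2p.le) i
      have h3 := pow_le_pow_left₀ (Nat.cast_nonneg _) (Nat.floor_le hY4p.le) i
      exact mul_le_mul h2 h3 (by positivity) (by positivity)
    refine h1.trans ((hsz' i hi).trans ?_)
    exact Real.rpow_le_rpow_of_exponent_le hN1 (by linarith)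
  have hcU : ((Uu p N).card : ℝ) ≤ Y2 p N :=
    card_le_of hY2p.le fun u hu => ⟨(mem_Uu.1 hu).1, (mem_Uu.1 hu).2.2.2⟩
  have hcV : ((Vv p N).card : ℝ) ≤ Y4 p N :=
    card_le_of hY4p.le fun u hu => ⟨(mem_Vv.1 hu).1, (mem_Vv.1 hu).2.2.2⟩
  -- the error
  have herr : ∀ i : ℕ, i ≤ j + 1 → ((Uu p N).card : ℝ) ^ i * ((Vv p N).card : ℝ) ^ i *
      (N : ℝ) ^ (1 - c) ≤ ε / 4 * ((Gam N 1 2).card : ℝ) := by
    intro i hi
    have h2 := pow_le_pow_left₀ (Nat.cast_nonneg _) hcU i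
    have h3 := pow_le_pow_left₀ (Nat.cast_nonneg _) hcV i
    have h4 : ((Uu p N).card : ℝ) ^ i * ((Vv p N).card : ℝ) ^ i ≤ (N : ℝ) ^ (c / 2) :=
      (mul_le_mul h2 h3 (by positivity) (by positivity)).trans (hsz' i hi)
    have h5 : (N : ℝ) ^ (c / 2) * (N : ℝ) ^ (1 - c) = (N : ℝ) ^ (-(c / 2)) * N := by
      rw [← Real.rpow_add hN0, ← Real.rpow_add_one hN0.ne']
      congr 1; ring
    calc _ ≤ (N : ℝ) ^ (c / 2) * (N : ℝ) ^ (1 - c) :=
          mul_le_mul_of_nonneg_right h4 (by positivity)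
      _ = (N : ℝ) ^ (-(c / 2)) * N := h5
      _ ≤ (ε * c₁ / 4) * N := mul_le_mul_of_nonneg_right hNcN hN0.le
      _ = ε / 4 * (c₁ * N) := by ring
      _ ≤ ε / 4 * ((Gam N 1 2).card : ℝ) := mul_le_mul_of_nonneg_left hCNN (by positivity)
  set A : ℝ := ∑ u ∈ Uu p N, 2 / ((u : ℝ) + 1) with hA
  set B : ℝ := ∑ v ∈ Vv p N, 2 / ((v : ℝ) + 1) with hB
  obtain ⟨hA1, hA2⟩ := sum_succ hY1p (fun u hu => (mem_Uu.1 hu).2.2.1 : ∀ u ∈ Uu p N, _)
  obtain ⟨hB1, hB2⟩ := sum_succ hY3p (fun u hu => (mem_Vv.1 hu).2.2.1 : ∀ u ∈ Vv p N, _)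
  rw [← hA] at hA1 hA2
  rw [← hB] at hB1 hB2
  change A ≤ Su p N at hA2
  change B ≤ Sv p N at hB2
  change (1 - 1 / Y1 p N) * Su p N ≤ A at hA1
  change (1 - 1 / Y3 p N) * Sv p N ≤ B at hB1
  have hA0 : 0 ≤ A := Finset.sum_nonneg fun _ _ => by positivity
  have hB0 : 0 ≤ B := Finset.sum_nonneg fun _ _ => by positivity
  have hTuv : ∀ (i : ℕ) (x : VV), (Tu p N x * Tv p N x) ^ i =
      nv (Uu p N) x ^ i * nw (Vv p N) x ^ i / (Su p N * Sv p N) ^ i := by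
    intro i x
    have e1 : Tu p N x = nv (Uu p N) x / Su p N := rfl
    have e2 : Tv p N x = nw (Vv p N) x / Sv p N := rfl
    rw [e1, e2, div_mul_div_comm, div_pow, mul_pow]
  have hSS : 1 ≤ Su p N * Sv p N := one_le_mul_of_one_le_of_one_le (by linarith) (by linarith)
  have hR0 : (0 : ℝ) ≤ ((Gam N 1 2).card : ℝ) := Nat.cast_nonneg _
  refine ⟨by linarith, by linarith, ?_, ?_⟩
  · -- first moment
    have h1 := T1.mom1 hEqN hU hV hUV (by simpa using hQ 1 (by omega))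
    rw [← hA, ← hB] at h1
    have h2 := (abs_le.1 h1).1
    have h3 := herr 1 (by omega)
    rw [pow_one, pow_one] at h3
    have e1 : ∑ x ∈ Gam N 1 2, Tu p N x * Tv p N x =
        (∑ x ∈ Gam N 1 2, nv (Uu p N) x * nw (Vv p N) x) / (Su p N * Sv p N) := by
      rw [Finset.sum_div]
      refine Finset.sum_congr rfl fun x _ => ?_
      have := hTuv 1 x
      simpa using this
    rw [e1, le_div_iff₀ (by positivity)]
    have h4 : 1 / Y1 p N ≤ ε / 8 := by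
      rw [div_le_iff₀ hY1p]
      have h5 : 8 / ε ≤ Y1 p N := by linarith
      rw [div_le_iff₀ hε] at h5
      linarith
    have h5 : 1 / Y3 p N ≤ ε / 8 := by
      rw [div_le_iff₀ hY3p]
      have h5 : 8 / ε ≤ Y3 p N := by linarith
      rw [div_le_iff₀ hε] at h5
      linarith
    -- `A B ≥ (1 - ε/4) Su Sv`
    have h6 : (1 - ε / 4) * (Su p N * Sv p N) ≤ A * B := by
      have h7 : Su p N - A ≤ ε / 8 * Su p N := by nlinarith
      have h8 : Sv p N - B ≤ ε / 8 * Sv p N := by nlinarith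
      have h9 : Su p N * Sv p N - A * B = (Su p N - A) * Sv p N + A * (Sv p N - B) := by ring
      have h10 : (Su p N - A) * Sv p N ≤ ε / 8 * Su p N * Sv p N :=
        mul_le_mul_of_nonneg_right h7 hSv0.le
      have h11 : A * (Sv p N - B) ≤ Su p N * (ε / 8 * Sv p N) :=
        mul_le_mul hA2 h8 (by linarith) hSu0.le
      nlinarith
    have h7 := mul_le_mul_of_nonneg_left h6 hR0
    have h8 : ε / 4 * ((Gam N 1 2).card : ℝ) ≤
        ε / 4 * ((Gam N 1 2).card : ℝ) * (Su p N * Sv p N) :=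
      le_mul_of_one_le_right (by positivity) hSS
    nlinarith [mul_nonneg (mul_nonneg hε.le hR0) (by positivity : 0 ≤ Su p N * Sv p N)]
  · -- `j`-th moment
    have h1 := T1.momk hEqN hU hV hUV j j hBa hBb (hQ j (by omega))
    rw [← hA, ← hB] at h1
    have h2 := prod_ratio (j := j) hA0 hA2 hL0 hSu
    have h3 := prod_ratio (j := j) hB0 hB2 hL0 hSv
    have h4 := herr j (by omega)
    have e1 : ∑ x ∈ Gam N 1 2, (Tu p N x * Tv p N x) ^ j =
        (∑ x ∈ Gam N 1 2, nv (Uu p N) x ^ j * nw (Vv p N) x ^ j) / (Su p N * Sv p N) ^ j := by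
      rw [Finset.sum_div]
      exact Finset.sum_congr rfl fun x _ => hTuv j x
    have hSj : 1 ≤ (Su p N * Sv p N) ^ j := one_le_pow₀ hSS
    rw [e1, div_le_iff₀ (by positivity)]
    have h5 : (∏ t ∈ range j, (A + (t : ℝ))) * ∏ t ∈ range j, (B + (t : ℝ)) ≤
        (1 + ε / 2) * (Su p N * Sv p N) ^ j := by
      calc _ ≤ (Su p N ^ j * (1 + j / L) ^ j) * (Sv p N ^ j * (1 + j / L) ^ j) :=
            mul_le_mul h2 h3 (Finset.prod_nonneg fun t _ => by positivity) (by positivity)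
        _ = (1 + j / L) ^ (2 * j) * (Su p N * Sv p N) ^ j := by
            rw [two_mul, pow_add, mul_pow]; ring
        _ ≤ _ := mul_le_mul_of_nonneg_right hLj (by positivity)
    have h6 := mul_le_mul_of_nonneg_left h5 hR0
    have h7 : ε / 4 * ((Gam N 1 2).card : ℝ) ≤
        ε / 4 * ((Gam N 1 2).card : ℝ) * (Su p N * Sv p N) ^ j :=
      le_mul_of_one_le_right (by positivity) hSj
    have h8 : 0 ≤ ε * (((Gam N 1 2).card : ℝ) * (Su p N * Sv p N) ^ j) := by positivity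
    nlinarith

end Pool.Agent.Lib.MP391708.T4
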