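import Pool.Agent.Lib.MP_391708_nt.T4.FSpecA
import Pool.Agent.Lib.MP_391708_nt.T4.BrA
import Pool.Agent.Lib.MP_391708_nt.T1.LocM

/-!
# T1, group F: the moments of `∏_{l ∣ M² + 1} (1 + C/l)`
-/

set_option autoImplicit false

namespace Pool.Agent.Lib.MP391708.T4

open Finset Filter Topology
open Pool.Agent.Lib.MP391708.Eqd (V cross dot nsq pairs)
open scoped Classical

namespace FuPM

/-- the indicator of `l ∣ M² + 1` -/
noncomputable def im (l : ℕ) (x : VV) : ℝ := if l ∣ (mm x).natAbs ^ 2 + 1 then 1 else 0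

lemma im_nonneg (l : ℕ) (x : VV) : 0 ≤ im l x := by unfold im; split_ifs <;> norm_num

lemma im_le_one (l : ℕ) (x : VV) : im l x ≤ 1 := by unfold im; split_ifs <;> norm_num

lemma dvd_iff (l : ℕ) (x : VV) : l ∣ (mm x).natAbs ^ 2 + 1 ↔ (l : ℤ) ∣ mm x ^ 2 + 1 := by
  rw [← Int.natCast_dvd_natCast]
  push_cast
  rw [sq_abs]

lemma dvd_iff_zmod (l : ℕ) (x : VV) : (l : ℤ) ∣ mm x ^ 2 + 1 ↔
    ((x.1.1 : ZMod l) * x.2.1 + (x.1.2 : ZMod l) * x.2.2) ^ 2 + 1 = 0 := by
  rw [← ZMod.intCast_zmod_eq_zero_iff_dvd]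
  unfold mm dot
  push_cast
  rfl

lemma im_per (l : ℕ) : T1.Per l (im l) := by
  intro x y h
  simp only [Eqd.res, Prod.mk.injEq] at h
  unfold im
  simp only [dvd_iff, dvd_iff_zmod, h.1.1, h.1.2, h.2.1, h.2.2]

lemma im_mean {l : ℕ} (hl : l.Prime) (hl4 : l % 4 = 1) : T1.mn l (im l) ≤ 4 / (l : ℝ) := by
  have : NeZero l := ⟨hl.ne_zero⟩
  have h1 := T1.LocM.mn_norm_one hl hl4 1 0 (by
    rintro ⟨h, -⟩
    have : l ∣ 1 := by exact_mod_cast h
    exact hl.one_lt.ne' (Nat.dvd_one.1 this))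
  have h2 := T1.LocM.mn_norm_one hl hl4 0 1 (by
    rintro ⟨-, h⟩
    have : l ∣ 1 := by exact_mod_cast h
    exact hl.one_lt.ne' (Nat.dvd_one.1 this))
  simp only [T1.LocM.lin_one_zero, T1.LocM.lin_zero_one] at h1 h2
  have h3 : T1.mn l (im l) ≤ T1.mn l (fun x => if (l : ℤ) ∣ nsq x.1 then (1 : ℝ) else 0) +
      T1.mn l (fun x => if (l : ℤ) ∣ nsq x.2 then (1 : ℝ) else 0) := by
    rw [T1.mn_def, T1.mn_def, T1.mn_def, ← add_div, ← sum_add_distrib]
    refine div_le_div_of_nonneg_right (sum_le_sum fun r hr => ?_) (Nat.cast_nonneg _)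
    unfold im
    split_ifs with ha hb hc hc
    · norm_num
    · norm_num
    · norm_num
    · exfalso
      rw [dvd_iff] at ha
      have hcr : (l : ℤ) ∣ cross (T1.lift l r).1 (T1.lift l r).2 + 1 := by
        rw [← ZMod.intCast_zmod_eq_zero_iff_dvd]
        have h5 := (T1.mem_sl).1 hr
        have h6 := T1.res_lift l r
        rw [← h6] at h5
        simp only [Eqd.res] at h5
        unfold cross
        push_cast
        linear_combination h5
      have hprod : (l : ℤ) ∣ nsq (T1.lift l r).1 * nsq (T1.lift l r).2 := by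
        rw [Eqd.nsq_mul]
        have e : dot (T1.lift l r).1 (T1.lift l r).2 ^ 2 + cross (T1.lift l r).1 (T1.lift l r).2 ^ 2 =
            (mm (T1.lift l r) ^ 2 + 1) + (cross (T1.lift l r).1 (T1.lift l r).2 + 1) *
              (cross (T1.lift l r).1 (T1.lift l r).2 - 1) := by
          unfold mm; ring
        rw [e]
        exact dvd_add ha (hcr.mul_right _)
      rcases (Nat.prime_iff_prime_int.1 hl).dvd_or_dvd hprod with h | h
      · exact hb h
      · exact hc h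
    · norm_num
    · norm_num
    · norm_num
    · norm_num
  rw [h1, h2] at h3
  have hl0 : (0 : ℝ) < l := by exact_mod_cast hl.pos
  have h7 : 2 / ((l : ℝ) + 1) ≤ 2 / l := div_le_div_of_nonneg_left (by norm_num) hl0 (by linarith)
  calc T1.mn l (im l) ≤ 2 / ((l : ℝ) + 1) + 2 / ((l : ℝ) + 1) := h3
    _ ≤ 2 / (l : ℝ) + 2 / l := add_le_add h7 h7
    _ = 4 / (l : ℝ) := by ring

/-- the mean of a product of indicators -/
lemma im_prod {T : Finset ℕ} (hT : ∀ l ∈ T, l.Prime ∧ l % 4 = 1) :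
    T1.Per (∏ l ∈ T, l) (fun x => ∏ l ∈ T, im l x) ∧
    T1.mn (∏ l ∈ T, l) (fun x => ∏ l ∈ T, im l x) ≤ ∏ l ∈ T, 4 / (l : ℝ) := by
  obtain ⟨h1, h2⟩ := T1.mn_prod 1 one_ne_zero (w := fun _ => (1 : ℝ)) (fun _ _ _ => rfl)
    (fun _ => 1) im T (fun l hl => ⟨(hT l hl).1, fun h => (hT l hl).1.one_lt.ne' (Nat.dvd_one.1 h)⟩)
    (fun l _ => by rw [pow_one]; exact im_per l)
  have e1 : 1 * ∏ l ∈ T, l ^ (1 : ℕ) = ∏ l ∈ T, l := by
    rw [one_mul]; exact prod_congr rfl fun l _ => pow_one l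
  have e2 : (fun x : VV => (1 : ℝ) * ∏ l ∈ T, im l x) = fun x => ∏ l ∈ T, im l x := by
    funext x; rw [one_mul]
  rw [e1, e2] at h1 h2
  refine ⟨h1, ?_⟩
  rw [h2, T1.mn_const, one_mul]
  refine prod_le_prod (fun l _ => T1.mn_nonneg fun x => im_nonneg l x) fun l hl => ?_
  rw [pow_one]
  exact im_mean (hT l hl).1 (hT l hl).2

lemma prod_im (T : Finset ℕ) (x : VV) : ∏ l ∈ T, im l x =
    if ∀ l ∈ T, l ∣ (mm x).natAbs ^ 2 + 1 then 1 else 0 := by
  unfold im
  rw [prod_ite_zero]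
  simp

/-- `(1 + C/l)^j ≤ 1 + (1+C)^j/l` -/
lemma pow_bound {C l : ℝ} (hC : 0 < C) (hl : 1 ≤ l) (j : ℕ) :
    (1 + C / l) ^ j ≤ 1 + ((1 + C) ^ j - 1) / l := by
  have hl0 : 0 < l := by linarith
  induction j with
  | zero => simp
  | succ j ih =>
    have h1 : 0 ≤ (1 + C) ^ j - 1 := by
      have := one_le_pow₀ (n := j) (show (1 : ℝ) ≤ 1 + C by linarith)
      linarith
    obtain ⟨A, hA⟩ : ∃ A : ℝ, A = (1 + C) ^ j - 1 := ⟨_, rfl⟩
    rw [← hA] at ih h1
    have hA2 : (1 + C) ^ (j + 1) - 1 = A + C + A * C := by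
      rw [hA, pow_succ]; ring
    rw [hA2, pow_succ]
    have h2 : 0 ≤ C / l := by positivity
    calc (1 + C / l) ^ j * (1 + C / l) ≤ (1 + A / l) * (1 + C / l) :=
          mul_le_mul_of_nonneg_right ih (by linarith)
      _ = 1 + (A + C) / l + (A * C) / l * (1 / l) := by field_simp; ring
      _ ≤ 1 + (A + C) / l + (A * C) / l * 1 := by
          have h3 : 1 / l ≤ 1 := by rw [div_le_one hl0]; exact hl
          have h4 : 0 ≤ A * C / l := by positivity
          have := mul_le_mul_of_nonneg_left h3 h4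
          linarith
      _ = 1 + (A + C + A * C) / l := by ring

/-- the number of primes dividing `n` -/
lemma card_le_log {n : ℕ} (hn : n ≠ 0) {T : Finset ℕ} (hT : ∀ l ∈ T, l.Prime ∧ l ∣ n) :
    (T.card : ℝ) * Real.log 2 ≤ Real.log n := by
  have h1 : 2 ^ T.card ≤ n := by
    have h2 : 2 ^ T.card ≤ ∏ l ∈ T, l := by
      rw [← prod_const]
      exact prod_le_prod' fun l hl => (hT l hl).1.two_le
    have h3 : ∏ l ∈ T, l ∣ n := by
      refine Finset.prod_primes_dvd n (fun l hl => (hT l hl).1.prime) fun l hl => (hT l hl).2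
    exact h2.trans (Nat.le_of_dvd (Nat.pos_of_ne_zero hn) h3)
  have h4 : ((2 : ℝ) ^ T.card) ≤ n := by exact_mod_cast h1
  have h5 := Real.log_le_log (by positivity) h4
  rwa [Real.log_pow] at h5

/-- the sum of the reciprocals of the squares -/
lemma sum_sq_le (T : Finset ℕ) (hT : ∀ l ∈ T, 1 ≤ l) : ∑ l ∈ T, 1 / (l : ℝ) ^ 2 ≤ 2 := by
  have h1 : T ⊆ Ioc 0 (T.sup id + 1) := by
    intro l hl
    rw [mem_Ioc]
    have h := le_sup (f := id) hl
    simp only [id] at h
    exact ⟨hT l hl, h.trans (Nat.le_succ _)⟩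
  refine (sum_le_sum_of_subset_of_nonneg h1 fun _ _ _ => by positivity).trans ?_
  have h2 : ∀ n : ℕ, ∑ l ∈ Ioc 0 (n + 1), 1 / (l : ℝ) ^ 2 ≤ 2 - 1 / ((n : ℝ) + 1) := by
    intro n
    induction n with
    | zero => simp; norm_num
    | succ n ih =>
      have e : Ioc 0 (n + 1 + 1) = insert (n + 1 + 1) (Ioc 0 (n + 1)) := by
        ext a; simp only [mem_Ioc, mem_insert]; omega
      rw [e, sum_insert (by simp)]
      have hn : (0 : ℝ) ≤ n := Nat.cast_nonneg n
      have h3 : 1 / (((n + 1 + 1 : ℕ) : ℝ)) ^ 2 ≤ 1 / ((n : ℝ) + 1) - 1 / ((n : ℝ) + 1 + 1) := by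
        push_cast
        rw [div_sub_div _ _ (by positivity) (by positivity), div_le_div_iff₀ (by positivity)
          (by positivity)]
        nlinarith
      push_cast at h3 ⊢
      linarith
  refine (h2 _).trans ?_
  have : (0 : ℝ) ≤ 1 / (((T.sup id : ℕ) : ℝ) + 1) := by positivity
  linarith

/-- the sum of the reciprocals -/
lemma sum_inv_le {T : Finset ℕ} {y : ℝ} (hy : 1 ≤ y) (hT : ∀ l ∈ T, 1 ≤ l ∧ (l : ℝ) ≤ y) :
    ∑ l ∈ T, 1 / (l : ℝ) ≤ 1 + Real.log y := by
  have h1 : T ⊆ Icc 1 ⌊y⌋₊ := by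
    intro l hl
    rw [mem_Icc]
    exact ⟨(hT l hl).1, Nat.le_floor (hT l hl).2⟩
  refine (sum_le_sum_of_subset_of_nonneg h1 fun _ _ _ => by positivity).trans ?_
  have h2 : ∑ l ∈ Icc 1 ⌊y⌋₊, 1 / (l : ℝ) = ((harmonic ⌊y⌋₊ : ℚ) : ℝ) := by
    rw [harmonic_eq_sum_Icc]
    push_cast
    exact sum_congr rfl fun l _ => by rw [one_div]
  rw [h2]
  refine (harmonic_floor_le_one_add_log y hy)

lemma prod_exp_le {T : Finset ℕ} {a : ℕ → ℝ} (ha : ∀ l ∈ T, 0 ≤ a l) :
    ∏ l ∈ T, (1 + a l) ≤ Real.exp (∑ l ∈ T, a l) := by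
  rw [Real.exp_sum]
  refine prod_le_prod (fun l hl => by have := ha l hl; linarith) fun l _ => ?_
  rw [add_comm]
  exact Real.add_one_le_exp _

/-- products of distinct primes `≤ y` -/
lemma prod_primes_le {T : Finset ℕ} {y : ℝ} (hy : 0 ≤ y)
    (hT : ∀ l ∈ T, l.Prime ∧ (l : ℝ) ≤ y) : ((∏ l ∈ T, l : ℕ) : ℝ) ≤ Real.exp (2 * y) := by
  have h1 : ∏ l ∈ T, l ≤ primorial ⌊y⌋₊ := by
    unfold primorial
    refine prod_le_prod_of_subset_of_one_le' ?_ fun l hl _ => ?_
    · intro l hl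
      rw [mem_filter, mem_range]
      exact ⟨Nat.lt_succ_of_le (Nat.le_floor (hT l hl).2), (hT l hl).1⟩
    · exact (mem_filter.1 hl).2.one_lt.le
  have h2 := h1.trans (primorial_le_four_pow _)
  have h3 : ((∏ l ∈ T, l : ℕ) : ℝ) ≤ (4 : ℝ) ^ ⌊y⌋₊ := by exact_mod_cast h2
  refine h3.trans ?_
  rw [← Real.exp_log (show (0 : ℝ) < 4 ^ ⌊y⌋₊ by positivity), Real.log_pow]
  refine Real.exp_le_exp.2 ?_
  have h4 : Real.log 4 ≤ 2 := by
    rw [show (4 : ℝ) = 2 ^ 2 by norm_num, Real.log_pow]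
    have := Real.log_two_lt_d9
    push_cast; linarith
  have h5 : (⌊y⌋₊ : ℝ) ≤ y := Nat.floor_le hy
  have h6 : (0 : ℝ) ≤ Real.log 4 := Real.log_nonneg (by norm_num)
  nlinarith [mul_le_mul h5 h4 h6 hy]

end FuPM

open FuPM in
/-- **PM** -/
theorem specPM (hEQ : SpecEQ) (hC : SpecCNT) : SpecPM := by
  intro C j hC0
  obtain ⟨c, hc, hE⟩ := hEQ
  obtain ⟨-, c2, hc2, hG⟩ := hC
  obtain ⟨C1, hC1⟩ : ∃ C1 : ℝ, C1 = (1 + C) ^ j := ⟨_, rfl⟩
  have hC1p : 0 < C1 := by rw [hC1]; positivity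
  refine ⟨Real.exp (12 * C1 / c) * (Real.exp (8 * C1) + 1), by positivity, ?_⟩
  refine ⟨0, fun E _ => ⟨0, fun K _ => ⟨0, fun r _ => ⟨0, fun k _ => ⟨1, one_pos,
    fun ζ _ _ => ?_⟩⟩⟩⟩⟩
  generalize (⟨E, K, r, k, ζ⟩ : Prm) = p
  -- the level
  have hlog : Tendsto (fun N : ℕ => c / 2 * Real.log N) atTop atTop :=
    (Real.tendsto_log_atTop.comp tendsto_natCast_atTop_atTop).const_mul_atTop (by positivity)
  have hlog1 : Tendsto (fun N : ℕ => Real.log N) atTop atTop :=
    Real.tendsto_log_atTop.comp tendsto_natCast_atTop_atTop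
  have hdec := (tendsto_rpow_mul_exp_neg_mul_atTop_nhds_zero C1 2 (by norm_num)).comp hlog
  have hev := (hdec.eventually (gt_mem_nhds (show (0 : ℝ) < c2 * Real.exp (-C1) by positivity)))
  filter_upwards [hE, hG, hev, hlog.eventually_ge_atTop 1, hlog1.eventually_ge_atTop 2,
    eventually_ge_atTop 1] with N hEN hGN hdN hy1 hL1 hN1
  obtain ⟨L, hL⟩ : ∃ L : ℝ, L = Real.log N := ⟨_, rfl⟩
  obtain ⟨y, hy⟩ : ∃ y : ℝ, y = c / 2 * Real.log N := ⟨_, rfl⟩
  have hNpos : (0 : ℝ) < N := by exact_mod_cast hN1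
  simp only [Function.comp_apply] at hdN
  rw [← hy] at hdN hy1
  have hy0 : 0 < y := by linarith
  have hNc : (N : ℝ) ^ c = Real.exp (2 * y) := by
    rw [Real.rpow_def_of_pos hNpos, hy]; congr 1; ring
  -- pointwise
  set S : Finset ℕ := (PP p N).filter (fun l : ℕ => (l : ℝ) ≤ y) with hS
  have hSp : ∀ l ∈ S, l.Prime ∧ l % 4 = 1 ∧ (l : ℝ) ≤ y := by
    intro l hl
    rw [hS, mem_filter, PP, mem_filter] at hl
    exact ⟨hl.1.2.1, hl.1.2.2.1, hl.2⟩
  have hpt : ∀ x ∈ Gam N 1 2, (∏ l ∈ (PP p N).filter (fun l => l ∣ (mm x).natAbs ^ 2 + 1),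
      (1 + C / l)) ^ j ≤ Real.exp (12 * C1 / c) *
        ∑ T ∈ S.powerset, (∏ l ∈ T, C1 / (l : ℝ)) * ∏ l ∈ T, im l x := by
    intro x hx
    rw [Gam, mem_filter] at hx
    obtain ⟨-, hx1, hx2, -⟩ := hx
    obtain ⟨n, hn⟩ : ∃ n : ℕ, n = (mm x).natAbs ^ 2 + 1 := ⟨_, rfl⟩
    rw [← hn]
    have hn0 : n ≠ 0 := by omega
    have hnle : (n : ℝ) ≤ 5 * (N : ℝ) ^ 2 := by
      have h1 : (((mm x).natAbs : ℕ) : ℝ) ≤ 2 * N := by
        have h2 : ((mm x).natAbs : ℤ) = mm x := Int.natAbs_of_nonneg (by omega)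
        have h3 : (((mm x).natAbs : ℤ)) ≤ 2 * N := by rw [h2]; exact hx2
        exact_mod_cast h3
      have h4 : (0 : ℝ) ≤ (((mm x).natAbs : ℕ) : ℝ) := Nat.cast_nonneg _
      have h5 : (1 : ℝ) ≤ N := by exact_mod_cast hN1
      rw [hn]
      push_cast
      nlinarith
    -- the factors
    have h1 : (∏ l ∈ (PP p N).filter (fun l => l ∣ n), (1 + C / (l : ℝ))) ^ j ≤
        ∏ l ∈ (PP p N).filter (fun l => l ∣ n), (1 + C1 / (l : ℝ)) := by
      rw [← prod_pow]
      refine prod_le_prod (fun l _ => by positivity) fun l hl => ?_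
      have hlp : l.Prime := by
        rw [mem_filter, PP, mem_filter] at hl; exact hl.1.2.1
      have hl1 : (1 : ℝ) ≤ l := by exact_mod_cast hlp.one_lt.le
      refine (pow_bound hC0 hl1 j).trans ?_
      rw [hC1]
      have : ((1 + C) ^ j - 1) / (l : ℝ) ≤ (1 + C) ^ j / l :=
        div_le_div_of_nonneg_right (by linarith) (by linarith)
      linarith
    -- the large primes
    have h2 : ∏ l ∈ ((PP p N).filter (fun l => l ∣ n)).filter (fun l : ℕ => ¬ (l : ℝ) ≤ y),
        (1 + C1 / (l : ℝ)) ≤ Real.exp (12 * C1 / c) := by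
      refine (prod_exp_le fun l _ => by positivity).trans (Real.exp_le_exp.2 ?_)
      obtain ⟨B, hB⟩ : ∃ B : Finset ℕ,
        B = ((PP p N).filter (fun l => l ∣ n)).filter (fun l : ℕ => ¬ (l : ℝ) ≤ y) := ⟨_, rfl⟩
      rw [← hB]
      have hBp : ∀ l ∈ B, l.Prime ∧ l ∣ n ∧ y < (l : ℝ) := by
        intro l hl
        rw [hB, mem_filter, mem_filter, PP, mem_filter] at hl
        exact ⟨hl.1.1.2.1, hl.1.2, not_le.1 hl.2⟩
      have hBc := card_le_log hn0 (T := B) fun l hl => ⟨(hBp l hl).1, (hBp l hl).2.1⟩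
      have hln : Real.log n ≤ 4 * L := by
        have hn1 : (0 : ℝ) < n := by exact_mod_cast Nat.pos_of_ne_zero hn0
        have h3 := Real.log_le_log hn1 hnle
        rw [Real.log_mul (by norm_num) (by positivity), Real.log_pow] at h3
        have h4 : Real.log 5 ≤ 3 := by
          have h5 : Real.log 5 ≤ Real.log 8 := Real.log_le_log (by norm_num) (by norm_num)
          rw [show (8 : ℝ) = 2 ^ 3 by norm_num, Real.log_pow] at h5
          have := Real.log_two_lt_d9
          push_cast at h5; linarith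
        rw [hL]
        push_cast at h3
        linarith
      have hB6 : (B.card : ℝ) ≤ 6 * L := by
        have h3 := Real.log_two_gt_d9
        have h4 : (B.card : ℝ) * (2 / 3) ≤ B.card * Real.log 2 :=
          mul_le_mul_of_nonneg_left (by linarith) (Nat.cast_nonneg _)
        linarith
      calc ∑ l ∈ B, C1 / (l : ℝ) ≤ ∑ _l ∈ B, C1 / y := by
            refine sum_le_sum fun l hl => ?_
            exact div_le_div_of_nonneg_left hC1p.le hy0 (hBp l hl).2.2.le
        _ = B.card * (C1 / y) := by rw [sum_const, nsmul_eq_mul]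
        _ ≤ 6 * L * (C1 / y) := mul_le_mul_of_nonneg_right hB6 (by positivity)
        _ = 12 * C1 / c := by
            have hL0 : L ≠ 0 := by rw [hL]; linarith
            rw [hy, ← hL]
            field_simp
            norm_num
    -- the small primes
    have h3 : ∏ l ∈ ((PP p N).filter (fun l => l ∣ n)).filter (fun l : ℕ => (l : ℝ) ≤ y),
        (1 + C1 / (l : ℝ)) = ∑ T ∈ S.powerset, (∏ l ∈ T, C1 / (l : ℝ)) * ∏ l ∈ T, im l x := by
      have e1 : ((PP p N).filter (fun l => l ∣ n)).filter (fun l : ℕ => (l : ℝ) ≤ y) =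
          S.filter (fun l => l ∣ n) := by
        rw [hS, filter_filter, filter_filter]
        exact filter_congr fun l _ => and_comm
      rw [e1, prod_filter]
      have e2 : ∏ l ∈ S, (if l ∣ n then 1 + C1 / (l : ℝ) else 1) =
          ∏ l ∈ S, (1 + C1 / (l : ℝ) * im l x) := by
        refine prod_congr rfl fun l _ => ?_
        unfold im
        rw [← hn]
        split_ifs <;> ring
      rw [e2, prod_one_add]
      exact sum_congr rfl fun T _ => prod_mul_distrib
    refine h1.trans ?_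
    rw [← prod_filter_mul_prod_filter_not ((PP p N).filter (fun l => l ∣ n))
      (fun l : ℕ => (l : ℝ) ≤ y), h3, mul_comm]
    refine mul_le_mul_of_nonneg_right h2 (sum_nonneg fun T _ => mul_nonneg ?_ ?_)
    · exact prod_nonneg fun l _ => by positivity
    · exact prod_nonneg fun l _ => im_nonneg l x
  -- the counts
  have hcnt : ∀ T ∈ S.powerset, ∑ x ∈ Gam N 1 2, ∏ l ∈ T, im l x ≤
      ((Gam N 1 2).card : ℝ) * ∏ l ∈ T, 4 / (l : ℝ) + (N : ℝ) ^ (1 - c) := by
    intro T hT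
    have hTS := mem_powerset.1 hT
    obtain ⟨hper, hmean⟩ := im_prod (T := T) fun l hl =>
      ⟨(hSp l (hTS hl)).1, (hSp l (hTS hl)).2.1⟩
    have hm0 : 0 < ∏ l ∈ T, l := prod_pos fun l hl => (hSp l (hTS hl)).1.pos
    have hml : ((∏ l ∈ T, l : ℕ) : ℝ) ≤ (N : ℝ) ^ c := by
      rw [hNc]
      exact prod_primes_le hy0.le fun l hl => ⟨(hSp l (hTS hl)).1, (hSp l (hTS hl)).2.2⟩
    have h1 := hEN (∏ l ∈ T, l) (fun x => ∏ l ∈ T, im l x) 1 2 hm0 hml (per_iff.2 hper)
      (fun x => prod_nonneg fun l _ => im_nonneg l x)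
      (fun x => prod_le_one (fun l _ => im_nonneg l x) fun l _ => im_le_one l x)
      (Real.rpow_le_one_of_one_le_of_nonpos (by exact_mod_cast hN1) (by linarith))
      (by norm_num) (by norm_num)
    rw [mean_eq hm0] at h1
    have h2 := (abs_le.1 h1).2
    have h3 := mul_le_mul_of_nonneg_left hmean (Nat.cast_nonneg ((Gam N 1 2).card) (α := ℝ))
    linarith
  -- the sum
  calc ∑ x ∈ Gam N 1 2, (∏ l ∈ (PP p N).filter (fun l => l ∣ (mm x).natAbs ^ 2 + 1),
      (1 + C / (l : ℝ))) ^ j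
      ≤ ∑ x ∈ Gam N 1 2, Real.exp (12 * C1 / c) *
        ∑ T ∈ S.powerset, (∏ l ∈ T, C1 / (l : ℝ)) * ∏ l ∈ T, im l x := sum_le_sum hpt
    _ = Real.exp (12 * C1 / c) * ∑ T ∈ S.powerset, (∏ l ∈ T, C1 / (l : ℝ)) *
        ∑ x ∈ Gam N 1 2, ∏ l ∈ T, im l x := by
        rw [← mul_sum, sum_comm]
        congr 1
        exact sum_congr rfl fun T _ => by rw [mul_sum]
    _ ≤ Real.exp (12 * C1 / c) * ∑ T ∈ S.powerset, (∏ l ∈ T, C1 / (l : ℝ)) *
        (((Gam N 1 2).card : ℝ) * ∏ l ∈ T, 4 / (l : ℝ) + (N : ℝ) ^ (1 - c)) := by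
        refine mul_le_mul_of_nonneg_left (sum_le_sum fun T hT => ?_) (Real.exp_pos _).le
        exact mul_le_mul_of_nonneg_left (hcnt T hT) (prod_nonneg fun l _ => by positivity)
    _ = Real.exp (12 * C1 / c) * (((Gam N 1 2).card : ℝ) * ∏ l ∈ S, (1 + 4 * C1 * (1 / (l : ℝ) ^ 2)) +
        (N : ℝ) ^ (1 - c) * ∏ l ∈ S, (1 + C1 * (1 / (l : ℝ)))) := by
        congr 1
        rw [prod_one_add, prod_one_add, mul_sum, mul_sum, ← sum_add_distrib]
        refine sum_congr rfl fun T _ => ?_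
        have e1 : (∏ l ∈ T, C1 / (l : ℝ)) * ∏ l ∈ T, 4 / (l : ℝ) =
            ∏ l ∈ T, 4 * C1 * (1 / (l : ℝ) ^ 2) := by
          rw [← prod_mul_distrib]
          exact prod_congr rfl fun l _ => by ring
        have e2 : (∏ l ∈ T, C1 / (l : ℝ)) = ∏ l ∈ T, C1 * (1 / (l : ℝ)) :=
          prod_congr rfl fun l _ => by ring
        rw [← e1, ← e2]
        ring
    _ ≤ Real.exp (12 * C1 / c) * (((Gam N 1 2).card : ℝ) * Real.exp (8 * C1) +
        ((Gam N 1 2).card : ℝ)) := by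
        refine mul_le_mul_of_nonneg_left (add_le_add ?_ ?_) (Real.exp_pos _).le
        · refine mul_le_mul_of_nonneg_left ?_ (Nat.cast_nonneg _)
          refine (prod_exp_le fun l _ => by positivity).trans (Real.exp_le_exp.2 ?_)
          rw [← mul_sum]
          have := sum_sq_le S fun l hl => (hSp l hl).1.one_lt.le
          nlinarith
        · have h1 : ∏ l ∈ S, (1 + C1 * (1 / (l : ℝ))) ≤ Real.exp C1 * y ^ C1 := by
            refine (prod_exp_le fun l _ => by positivity).trans ?_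
            rw [← mul_sum]
            have h2 := sum_inv_le hy1 (T := S) fun l hl => ⟨(hSp l hl).1.one_lt.le, (hSp l hl).2.2⟩
            have h3 : C1 * ∑ l ∈ S, 1 / (l : ℝ) ≤ C1 * (1 + Real.log y) :=
              mul_le_mul_of_nonneg_left h2 hC1p.le
            refine (Real.exp_le_exp.2 h3).trans (le_of_eq ?_)
            rw [Real.rpow_def_of_pos hy0, ← Real.exp_add]
            congr 1; ring
          have h4 : Real.exp C1 * y ^ C1 ≤ c2 * Real.exp (2 * y) := by
            have h5 : y ^ C1 * Real.exp (-2 * y) ≤ c2 * Real.exp (-C1) := hdN.le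
            have h6 := mul_le_mul_of_nonneg_left h5 (mul_pos (Real.exp_pos C1)
              (Real.exp_pos (2 * y))).le
            have e1 : Real.exp C1 * Real.exp (2 * y) * (y ^ C1 * Real.exp (-2 * y)) =
                Real.exp C1 * y ^ C1 := by
              have : Real.exp (2 * y) * Real.exp (-2 * y) = 1 := by
                rw [← Real.exp_add]; simp
              linear_combination (Real.exp C1 * y ^ C1) * this
            have e2 : Real.exp C1 * Real.exp (2 * y) * (c2 * Real.exp (-C1)) =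
                c2 * Real.exp (2 * y) := by
              have : Real.exp C1 * Real.exp (-C1) = 1 := by
                rw [← Real.exp_add]; simp
              linear_combination (c2 * Real.exp (2 * y)) * this
            rw [e1, e2] at h6
            exact h6
          calc (N : ℝ) ^ (1 - c) * ∏ l ∈ S, (1 + C1 * (1 / (l : ℝ)))
              ≤ (N : ℝ) ^ (1 - c) * (c2 * (N : ℝ) ^ c) := by
                rw [hNc]
                exact mul_le_mul_of_nonneg_left (h1.trans h4) (by positivity)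
            _ = c2 * N := by
                have : (N : ℝ) ^ (1 - c) * (N : ℝ) ^ c = N := by
                  rw [← Real.rpow_add hNpos]; simp
                linear_combination c2 * this
            _ ≤ ((Gam N 1 2).card : ℝ) := hGN
    _ = Real.exp (12 * C1 / c) * (Real.exp (8 * C1) + 1) * ((Gam N 1 2).card : ℝ) := by ring

end Pool.Agent.Lib.MP391708.T4
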