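import Pool.Agent.Lib.MP_391708_nt.T1.Flg

/-!
# T1, group D: the fundamental lemma over `{N < M ≤ 2N, α M < d ≤ β M}` and the comparison lemma
-/

set_option autoImplicit false

namespace Pool.Agent.Lib.MP391708.T1

open Finset Filter Topology
open Pool.Agent.Lib.MP391708.Eqd
open Pool.Agent.Lib.MP391708.QPA (PB)
open scoped Classical

/-- unimodular pairs with `N < M ≤ 2N`, `al M < d ≤ be M` -/
noncomputable def Gm (N : ℕ) (al be : ℝ) : Finset (V × V) :=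
  (pairs 1 (4 * N ^ 2 + 1)).filter (fun x => (N : ℤ) < dot x.1 x.2 ∧ dot x.1 x.2 ≤ 2 * N ∧
    al * (dot x.1 x.2 : ℝ) < nsq x.1 ∧ (nsq x.1 : ℝ) ≤ be * (dot x.1 x.2 : ℝ))

lemma mem_box_of {M : ℕ} {v : V} (h : nsq v ≤ M) : v ∈ box M := by
  have key : ∀ a : ℤ, a ^ 2 ≤ M → -(M : ℤ) ≤ a ∧ a ≤ M := by
    intro a ha
    constructor
    · nlinarith [sq_nonneg (a + 1), sq_nonneg a]
    · nlinarith [sq_nonneg (a - 1), sq_nonneg a]
  unfold nsq at h
  have h1 := key v.1 (by nlinarith [sq_nonneg v.2])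
  have h2 := key v.2 (by nlinarith [sq_nonneg v.1])
  unfold Eqd.box
  rw [Finset.mem_product, Finset.mem_Icc, Finset.mem_Icc]
  exact ⟨h1, h2⟩

lemma nsq_pos_of_cross {v w : V} (h : cross v w = -1) : 1 ≤ nsq v ∧ 1 ≤ nsq w := by
  have h1 := nsq_mul v w
  rw [h] at h1
  have h2 := nsq_nonneg v
  have h3 := nsq_nonneg w
  have h4 : 0 < nsq v * nsq w := by rw [h1]; positivity
  constructor
  · rcases h2.lt_or_eq with h | h
    · omega
    · rw [← h, zero_mul] at h4; omega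
  · rcases h3.lt_or_eq with h | h
    · omega
    · rw [← h, mul_zero] at h4; omega

lemma mem_pairs_of {M : ℕ} {x : V × V} (hc : cross x.1 x.2 = -1)
    (hd : dot x.1 x.2 ^ 2 + 1 ≤ M) : x ∈ pairs 1 M := by
  have h1 := nsq_mul x.1 x.2
  rw [hc] at h1
  have h2 := nsq_pos_of_cross hc
  rw [pairs, Finset.mem_filter, Finset.mem_product]
  refine ⟨⟨mem_box_of ?_, mem_box_of ?_⟩, by rw [hc]; rfl⟩
  · nlinarith
  · nlinarith

lemma mem_Gm {N : ℕ} {al be : ℝ} {x : V × V} : x ∈ Gm N al be ↔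
    cross x.1 x.2 = -1 ∧ (N : ℤ) < dot x.1 x.2 ∧ dot x.1 x.2 ≤ 2 * N ∧
    al * (dot x.1 x.2 : ℝ) < nsq x.1 ∧ (nsq x.1 : ℝ) ≤ be * (dot x.1 x.2 : ℝ) := by
  rw [Gm, Finset.mem_filter]
  constructor
  · rintro ⟨h1, h2⟩
    rw [pairs, Finset.mem_filter] at h1
    exact ⟨by simpa using h1.2, h2⟩
  · rintro ⟨h1, h2⟩
    refine ⟨mem_pairs_of h1 ?_, h2⟩
    push_cast
    nlinarith [h2.1, h2.2.1]

lemma Gm_split {N : ℕ} {al be ga : ℝ} (h1 : al ≤ ga) (h2 : ga ≤ be) :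
    Gm N al be = Gm N al ga ∪ Gm N ga be ∧ Disjoint (Gm N al ga) (Gm N ga be) := by
  constructor
  · ext x
    rw [Finset.mem_union, mem_Gm, mem_Gm, mem_Gm]
    constructor
    · rintro ⟨a, b, c, d, e⟩
      rcases le_or_gt (nsq x.1 : ℝ) (ga * (dot x.1 x.2 : ℝ)) with h | h
      · exact Or.inl ⟨a, b, c, d, h⟩
      · exact Or.inr ⟨a, b, c, h, e⟩
    · rintro (⟨a, b, c, d, e⟩ | ⟨a, b, c, d, e⟩)
      · have : (0 : ℝ) < (dot x.1 x.2 : ℝ) := by
          have : (0 : ℤ) < dot x.1 x.2 := lt_of_le_of_lt (Int.natCast_nonneg N) b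
          exact_mod_cast this
        exact ⟨a, b, c, d, e.trans (by nlinarith)⟩
      · have : (0 : ℝ) < (dot x.1 x.2 : ℝ) := by
          have : (0 : ℤ) < dot x.1 x.2 := lt_of_le_of_lt (Int.natCast_nonneg N) b
          exact_mod_cast this
        exact ⟨a, b, c, lt_of_le_of_lt (by nlinarith) d, e⟩
  · rw [Finset.disjoint_left]
    intro x hx hx'
    rw [mem_Gm] at hx hx'
    linarith [hx.2.2.2.2, hx'.2.2.2.1]

/-- perturbation of the bounds: only finitely many integers matter -/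
lemma exists_pert (N : ℕ) (al : ℝ) (hal : 0 < al) :
    ∃ al' : ℝ, al < al' ∧ al' ≤ 2 * al ∧ ∀ M : ℤ, 0 < M → M ≤ 2 * N → ∀ d : ℤ,
      (al * (M : ℝ) < d ↔ al' * (M : ℝ) ≤ d) := by
  have h1 : ∀ M ∈ Finset.Icc (1 : ℤ) (2 * N), ∀ᶠ η : ℝ in 𝓝[>] 0,
      (al + η) * (M : ℝ) < (⌊al * (M : ℝ)⌋ : ℝ) + 1 := by
    intro M hM
    have h2 : Tendsto (fun η : ℝ => (al + η) * (M : ℝ)) (𝓝[>] 0) (𝓝 ((al + 0) * (M : ℝ))) := by
      refine Tendsto.mono_left ?_ nhdsWithin_le_nhds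
      exact ((continuous_const.add continuous_id).mul continuous_const).tendsto 0
    rw [add_zero] at h2
    exact h2.eventually_lt_const (Int.lt_floor_add_one _)
  have h3 := (Filter.eventually_all_finset (Finset.Icc (1 : ℤ) (2 * N))).2 h1
  have h4 : ∀ᶠ η : ℝ in 𝓝[>] 0, 0 < η ∧ η ≤ al := by
    filter_upwards [Ioc_mem_nhdsGT hal] with η hη
    exact hη
  obtain ⟨η, h5, h6⟩ := (h3.and h4).exists
  refine ⟨al + η, by linarith [h6.1], by linarith [h6.2], ?_⟩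
  intro M hM1 hM2 d
  have h7 := h5 M (Finset.mem_Icc.2 ⟨hM1, hM2⟩)
  have hMR : (0 : ℝ) < M := by exact_mod_cast hM1
  constructor
  · intro h8
    have h9 : ⌊al * (M : ℝ)⌋ < d := Int.floor_lt.2 h8
    have h10 : ((⌊al * (M : ℝ)⌋ + 1 : ℤ) : ℝ) ≤ d := by exact_mod_cast h9
    push_cast at h10
    linarith
  · intro h8
    nlinarith [h6.1]

/-- the constants -/
def zexp (b : ℕ) : ℕ := 25 * (8 * b + 16) + 1

/-- a dyadic piece is a region of `SpecEquid` -/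
lemma gm_reg {N : ℕ} {al be : ℝ} (hal : 0 < al) (hab : al < be) (hbe : be ≤ 2 * al)
    (h1 : 1 ≤ al * N) : ∃ (T₁ T₂ : ℝ → ℝ) (M0 : ℕ), Bd 20 (N : ℝ) (al * N) T₁ T₂ ∧
      (20 : ℝ) ^ 4 * ((N : ℝ) + 1) ^ 2 ≤ (M0 : ℝ) ∧ RegS T₁ T₂ M0 = Gm N al be := by
  have hN : (0 : ℝ) < N := by
    rcases Nat.eq_zero_or_pos N with h0 | h0
    · rw [h0] at h1; norm_num at h1
    · exact_mod_cast h0
  obtain ⟨al', hal1, hal2, hal3⟩ := exists_pert N al hal
  obtain ⟨be', hbe1, hbe2, hbe3⟩ := exists_pert N be (hal.trans hab)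
  have hal0 : 0 < al' := hal.trans hal1
  have hbe0 : 0 < be' := (hal.trans hab).trans hbe1
  set T₁ : ℝ → ℝ := fun d => max (N : ℝ) (d / be') with hT₁
  set T₂ : ℝ → ℝ := fun d => min (2 * N : ℝ) (d / al') with hT₂
  have hB : Bd 20 (N : ℝ) (al * N) T₁ T₂ := by
    have e1 : (20 : ℝ) * ((N : ℝ) / (al * N)) = 20 / al := by field_simp
    refine ⟨?_, ?_, ?_⟩
    · intro s t
      rw [e1]
      calc |max (N : ℝ) (s / be') - max (N : ℝ) (t / be')| ≤ |s / be' - t / be'| := by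
            have := abs_max_sub_max_le_max (N : ℝ) (s / be') (N : ℝ) (t / be')
            simpa using this
        _ = |s - t| / be' := by rw [← sub_div, abs_div, abs_of_pos hbe0]
        _ ≤ |s - t| / al := div_le_div_of_nonneg_left (abs_nonneg _) hal (by linarith)
        _ ≤ 20 / al * |s - t| := by
            have := abs_nonneg (s - t)
            rw [div_mul_eq_mul_div]
            exact div_le_div_of_nonneg_right (by linarith) hal.le
    · intro s t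
      rw [e1]
      calc |min (2 * N : ℝ) (s / al') - min (2 * N : ℝ) (t / al')| ≤ |s / al' - t / al'| := by
            have := abs_min_sub_min_le_max (2 * N : ℝ) (s / al') (2 * N : ℝ) (t / al')
            simpa using this
        _ = |s - t| / al' := by rw [← sub_div, abs_div, abs_of_pos hal0]
        _ ≤ |s - t| / al := div_le_div_of_nonneg_left (abs_nonneg _) hal (by linarith)
        _ ≤ 20 / al * |s - t| := by
            have := abs_nonneg (s - t)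
            rw [div_mul_eq_mul_div]
            exact div_le_div_of_nonneg_right (by linarith) hal.le
    · intro s hs
      have h2 : (N : ℝ) < s / al' := lt_of_le_of_lt (le_max_left _ _) (lt_of_lt_of_le hs
        (min_le_right _ _))
      have h3 : s / be' < 2 * N := lt_of_le_of_lt (le_max_right _ _) (lt_of_lt_of_le hs
        (min_le_left _ _))
      rw [lt_div_iff₀ hal0] at h2
      rw [div_lt_iff₀ hbe0] at h3
      refine ⟨?_, ?_, ?_, ?_⟩
      · rw [div_le_iff₀ (by norm_num)]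
        nlinarith
      · nlinarith
      · exact hN.le.trans (le_max_left (N : ℝ) (s / be'))
      · exact (min_le_left (2 * N : ℝ) (s / al')).trans (by linarith)
  obtain ⟨M0, hM0⟩ : ∃ M0 : ℕ, M0 = 160000 * (N + 1) ^ 2 := ⟨_, rfl⟩
  have hM : (20 : ℝ) ^ 4 * ((N : ℝ) + 1) ^ 2 ≤ (M0 : ℝ) := by
    rw [hM0]
    push_cast
    norm_num
  have hM1 : (4 * (N : ℤ) ^ 2 + 1) ≤ (M0 : ℤ) := by
    rw [hM0]
    push_cast
    have e0 : (0 : ℤ) ≤ N := Int.natCast_nonneg N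
    have e1 : (0 : ℤ) ≤ (N : ℤ) ^ 2 := sq_nonneg _
    have e2 : (160000 : ℤ) * ((N : ℤ) + 1) ^ 2 =
        160000 * (N : ℤ) ^ 2 + 320000 * (N : ℤ) + 160000 := by ring
    rw [e2]
    linarith
  clear hM0
  refine ⟨T₁, T₂, M0, hB, hM, ?_⟩
  ext x
  rw [mem_Gm, RegS, Finset.mem_filter, Reg]
  constructor
  · rintro ⟨hx, hx1, hx2⟩
    rw [pairs, Finset.mem_filter] at hx
    have hc : cross x.1 x.2 = -1 := by simpa using hx.2
    have h2 : (N : ℝ) < (dot x.1 x.2 : ℝ) := lt_of_le_of_lt (le_max_left _ _) hx1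
    have h3 : (nsq x.1 : ℝ) / be' < (dot x.1 x.2 : ℝ) :=
      lt_of_le_of_lt (le_max_right _ _) hx1
    have h4 : (dot x.1 x.2 : ℝ) ≤ 2 * N := hx2.trans (min_le_left _ _)
    have h5 : (dot x.1 x.2 : ℝ) ≤ (nsq x.1 : ℝ) / al' := hx2.trans (min_le_right _ _)
    rw [div_lt_iff₀ hbe0] at h3
    rw [le_div_iff₀ hal0] at h5
    have h6 : (N : ℤ) < dot x.1 x.2 := by exact_mod_cast h2
    have h7 : dot x.1 x.2 ≤ 2 * N := by exact_mod_cast h4
    have h8 : 0 < dot x.1 x.2 := lt_of_le_of_lt (Int.natCast_nonneg N) h6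
    refine ⟨hc, h6, h7, ?_, ?_⟩
    · rw [hal3 _ h8 h7]; linarith
    · by_contra hcon
      push Not at hcon
      rw [hbe3 _ h8 h7] at hcon
      linarith
  · rintro ⟨hc, h6, h7, h9, h10⟩
    have h8 : 0 < dot x.1 x.2 := lt_of_le_of_lt (Int.natCast_nonneg N) h6
    have h11 : dot x.1 x.2 ^ 2 ≤ (2 * (N : ℤ)) ^ 2 := by
      have := pow_le_pow_left₀ h8.le h7 2
      exact this
    refine ⟨mem_pairs_of hc ?_, ?_, ?_⟩
    · nlinarith
    · rw [hT₁]
      simp only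
      rw [max_lt_iff]
      refine ⟨by exact_mod_cast h6, ?_⟩
      rw [div_lt_iff₀ hbe0]
      by_contra hcon
      push Not at hcon
      rw [mul_comm, ← hbe3 _ h8 h7] at hcon
      linarith
    · rw [hT₂]
      simp only
      rw [le_min_iff]
      refine ⟨by exact_mod_cast h7, ?_⟩
      rw [le_div_iff₀ hal0, mul_comm]
      exact (hal3 _ h8 h7 _).1 h9

/-- one dyadic piece -/
lemma flg_piece (hF : SpecFlg) (κ : ℕ) : ∃ C : ℝ, 0 < C ∧ ∃ K : ℝ, 0 < K ∧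
    ∀ (N : ℕ) (al be : ℝ), 0 < al → al < be → be ≤ 2 * al → be ≤ 20 → 1 ≤ al * N →
    ∀ (b : ℕ) (z : ℝ), 2 ≤ z → ∀ m : ℕ, 0 < m →
    ∀ w : V × V → ℝ, Per m w → (∀ x, 0 ≤ w x ∧ w x ≤ 1) →
    ∀ f : ℕ → V × V → ℝ, (∀ l : ℕ, l.Prime → Per (l ^ 2) (f l) ∧ ∀ x, 0 ≤ f l x ∧ f l x ≤ 1) →
    (∀ l : ℕ, l.Prime → gm m f l ≤ κ / (l : ℝ) ∧ gm m f l ≤ 2 / 3) →
    |(∑ x ∈ Gm N al be, w x * ∏ l ∈ (PB z).filter (fun l => ¬ l ∣ m), f l x) -
      (Gm N al be).card * mn m w * ∏ l ∈ PB z, (1 - gm m f l)| ≤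
      C * Real.exp (-(b : ℝ)) *
        ((Gm N al be).card * mn m w * ∏ l ∈ PB z, (1 - gm m f l)) +
      K * (m : ℝ) ^ 12 * z ^ zexp b * N * (al * N) ^ (-(1 / 20) : ℝ) := by
  obtain ⟨C, hC, h⟩ := hF κ
  obtain ⟨K, hK, h⟩ := h 20 (by norm_num)
  refine ⟨C, hC, K, hK, ?_⟩
  intro N al be hal hab hbe hbe20 h1 b z hz m hm w hw hw01 f hf hg
  obtain ⟨T₁, T₂, M0, hB, hM, eR⟩ := gm_reg hal hab hbe h1
  have key := h (N : ℝ) (al * N) h1 (by nlinarith) T₁ T₂ hB M0 hM b z hz m hm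
    w hw hw01 f hf hg
  rw [eR] at key
  exact key

end Pool.Agent.Lib.MP391708.T1
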