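import Pool.Agent.Lib.MP_391708_nt.T1.LocM
import Pool.Agent.Lib.MP_391708_nt.Eqd.Loc

/-!
# T1: the density of the unimodular classes with `l^k ∣ dot² + 1`
-/

set_option autoImplicit false

namespace Pool.Agent.Lib.MP391708.T1

open Finset
open Pool.Agent.Lib.MP391708.Eqd
open scoped Classical

namespace LocD

open LocM
open Pool.Agent.Lib.MP391708.Eqd.Loc (co co_inj co_cross co_mul)

/-- multiples of `l^a` modulo `l^k` -/
lemma card_mult {l a k : ℕ} (hl : l.Prime) (ha : a ≤ k) [NeZero (l ^ k)] :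
    ((univ : Finset (ZMod (l ^ k))).filter (fun x => l ^ a ∣ x.val)).card ≤ l ^ (k - a) := by
  rw [← Finset.card_range (l ^ (k - a))]
  refine Finset.card_le_card_of_injOn (fun x => x.val / l ^ a) ?_ ?_
  · intro x _
    simp only [Finset.coe_range, Set.mem_Iio]
    have h := Nat.div_lt_div_of_lt_of_dvd (pow_dvd_pow l ha) (ZMod.val_lt x)
    rwa [Nat.pow_div ha hl.pos] at h
  · intro x hx y hy h
    rw [Finset.coe_filter, Set.mem_setOf_eq] at hx hy
    simp only at h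
    apply ZMod.val_injective (l ^ k)
    rw [← Nat.div_mul_cancel hx.2, ← Nat.div_mul_cancel hy.2, h]

/-- pairs with product zero modulo `l^k` -/
lemma card_mul_zero {l k : ℕ} (hl : l.Prime) [NeZero (l ^ k)] :
    ((univ : Finset (ZMod (l ^ k) × ZMod (l ^ k))).filter (fun t => t.1 * t.2 = 0)).card ≤
      (k + 1) * l ^ k := by
  have hsub : (univ : Finset (ZMod (l ^ k) × ZMod (l ^ k))).filter (fun t => t.1 * t.2 = 0) ⊆
      (range (k + 1)).biUnion (fun a =>
        ((univ : Finset (ZMod (l ^ k))).filter (fun x => l ^ a ∣ x.val)) ×ˢ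
        ((univ : Finset (ZMod (l ^ k))).filter (fun x => l ^ (k - a) ∣ x.val))) := by
    intro t ht
    rw [Finset.mem_filter] at ht
    have h1 : l ^ k ∣ t.1.val * t.2.val := by
      have h2 := ht.2
      rw [← ZMod.natCast_zmod_val t.1, ← ZMod.natCast_zmod_val t.2, ← Nat.cast_mul,
        ZMod.natCast_eq_zero_iff] at h2
      exact h2
    obtain ⟨a, b, ha, hb, hab⟩ := exists_dvd_and_dvd_of_dvd_mul h1
    obtain ⟨i, hi, rfl⟩ := (Nat.dvd_prime_pow hl).1 (Dvd.intro _ hab.symm)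
    have hb' : b = l ^ (k - i) := by
      have h3 : l ^ i * b = l ^ i * l ^ (k - i) := by
        rw [← hab, ← pow_add, Nat.add_sub_cancel' hi]
      exact Nat.eq_of_mul_eq_mul_left (pow_pos hl.pos i) h3
    subst hb'
    rw [Finset.mem_biUnion]
    refine ⟨i, Finset.mem_range.2 (by omega), ?_⟩
    rw [Finset.mem_product, Finset.mem_filter, Finset.mem_filter]
    exact ⟨⟨Finset.mem_univ _, ha⟩, Finset.mem_univ _, hb⟩
  refine (Finset.card_le_card hsub).trans (Finset.card_biUnion_le.trans ?_)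
  calc ∑ a ∈ range (k + 1), (((univ : Finset (ZMod (l ^ k))).filter (fun x => l ^ a ∣ x.val)) ×ˢ
        ((univ : Finset (ZMod (l ^ k))).filter (fun x => l ^ (k - a) ∣ x.val))).card
      ≤ ∑ _a ∈ range (k + 1), l ^ k := by
        refine Finset.sum_le_sum fun a ha => ?_
        have ha' : a ≤ k := by have := Finset.mem_range.1 ha; omega
        rw [Finset.card_product]
        calc _ ≤ l ^ (k - a) * l ^ (k - (k - a)) :=
              Nat.mul_le_mul (card_mult hl ha') (card_mult hl (by omega))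
          _ = l ^ k := by rw [← pow_add]; congr 1; omega
    _ = (k + 1) * l ^ k := by rw [Finset.sum_const, smul_eq_mul, Finset.card_range]

/-- the residue of `dot` -/
def dr {q : ℕ} (r : R4 q) : ZMod q := r.1.1 * r.2.1 + r.1.2 * r.2.2

lemma card_half {l k : ℕ} (hl : l.Prime) (hl2 : l ≠ 2) (hk : 0 < k) [NeZero (l ^ k)]
    {ι : ZMod (l ^ k)} (hι : ι * ι = -1) (σ : ZMod (l ^ k)) (hσ : σ = ι ∨ σ = -ι) :
    ((sl (l ^ k)).filter (fun r => dr r = σ)).card ≤ (l ^ k).totient * ((k + 1) * l ^ k) := by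
  have h2 := two_isUnit hl hl2 hk
  have hιu : IsUnit ι := IsUnit.of_mul_eq_one (-ι) (by linear_combination -hι)
  -- reduce to the case `σ = ι` by choosing the root
  have key : ∀ j : ZMod (l ^ k), j * j = -1 →
      ((sl (l ^ k)).filter (fun r => dr r = j)).card ≤ (l ^ k).totient * ((k + 1) * l ^ k) := by
    intro j hj
    have hju : IsUnit j := IsUnit.of_mul_eq_one (-j) (by linear_combination -hj)
    have h4 : IsUnit (2 * j) := h2.mul hju
    have hPQ : ∀ r ∈ (sl (l ^ k)).filter (fun r => dr r = j),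
        (co j r.1).1 * (co j r.2).2 = 2 * j ∧ (co j r.1).2 * (co j r.2).1 = 0 := by
      intro r hr
      rw [Finset.mem_filter, mem_sl] at hr
      have e1 := co_cross hj r.1 r.2
      rw [hr.1] at e1
      have e2 : (co j r.1).1 * (co j r.2).2 + (co j r.1).2 * (co j r.2).1 = 2 * dr r := by
        simp only [co, dr]
        linear_combination (-2 * r.1.2 * r.2.2) * hj
      rw [hr.2] at e2
      constructor
      · apply h2.mul_left_cancel
        linear_combination e1 + e2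
      · apply h2.mul_left_cancel
        linear_combination e2 - e1
    have h5 : ((univ : Finset (ZMod (l ^ k))).filter (fun x => IsUnit x) ×ˢ
        (univ : Finset (ZMod (l ^ k) × ZMod (l ^ k))).filter (fun t => t.1 * t.2 = 0)).card ≤
          (l ^ k).totient * ((k + 1) * l ^ k) := by
      rw [Finset.card_product, card_units]
      exact Nat.mul_le_mul_left _ (card_mul_zero hl)
    refine le_trans (Finset.card_le_card_of_injOn
      (fun r => ((co j r.1).1, ((co j r.1).2, (co j r.2).1))) ?_ ?_) h5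
    · intro r hr
      obtain ⟨e1, e2⟩ := hPQ r hr
      simp only [Finset.coe_product, Set.mem_prod, Finset.mem_coe, Finset.mem_filter,
        Finset.mem_univ, true_and]
      exact ⟨isUnit_of_mul_isUnit_left (e1 ▸ h4), e2⟩
    · intro r hr r' hr' h
      obtain ⟨e1, e2⟩ := hPQ r hr
      obtain ⟨e1', e2'⟩ := hPQ r' hr'
      simp only [Prod.mk.injEq] at h
      obtain ⟨h6, h7, h8⟩ := h
      have hu : IsUnit (co j r.1).1 := isUnit_of_mul_isUnit_left (e1 ▸ h4)
      have h9 : (co j r.2).2 = (co j r'.2).2 := by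
        rw [← h6] at e1'
        exact hu.mul_left_cancel (e1.trans e1'.symm)
      exact Prod.ext (co_inj hj h2 (Prod.ext h6 h7)) (co_inj hj h2 (Prod.ext h8 h9))
  rcases hσ with rfl | rfl
  · exact key _ hι
  · exact key _ (by rw [neg_mul_neg]; exact hι)

/-- the number of unimodular classes with `dot² = -1` -/
lemma card_dr {l k : ℕ} (hl : l.Prime) (hl2 : l ≠ 2) (hk : 0 < k) [NeZero (l ^ k)] :
    ((sl (l ^ k)).filter (fun r => dr r * dr r = -1)).card ≤
      2 * ((l ^ k).totient * ((k + 1) * l ^ k)) := by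
  rcases ((sl (l ^ k)).filter (fun r => dr r * dr r = -1)).eq_empty_or_nonempty with h | ⟨r₀, h0⟩
  · rw [h]; simp
  · rw [Finset.mem_filter] at h0
    set ι := dr r₀
    have hsub : (sl (l ^ k)).filter (fun r => dr r * dr r = -1) ⊆
        (sl (l ^ k)).filter (fun r => dr r = ι) ∪ (sl (l ^ k)).filter (fun r => dr r = -ι) := by
      intro r hr
      rw [Finset.mem_filter] at hr
      rw [Finset.mem_union, Finset.mem_filter, Finset.mem_filter]
      rcases iot_pm hl hl2 hk h0.2 hr.2 with h | h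
      · exact Or.inl ⟨hr.1, h⟩
      · exact Or.inr ⟨hr.1, h⟩
    refine (Finset.card_le_card hsub).trans ((Finset.card_union_le _ _).trans ?_)
    have h1 := card_half hl hl2 hk h0.2 ι (Or.inl rfl)
    have h2 := card_half hl hl2 hk h0.2 (-ι) (Or.inr rfl)
    omega

lemma dvd_dot_iff {q : ℕ} (x : V × V) :
    (q : ℤ) ∣ dot x.1 x.2 ^ 2 + 1 ↔ dr (res q x) * dr (res q x) = -1 := by
  rw [← ZMod.intCast_zmod_eq_zero_iff_dvd]
  simp only [dot, dr, res]
  push_cast
  constructor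
  · intro h; linear_combination h
  · intro h; linear_combination h

lemma per_dvd_dot (q : ℕ) :
    Per q (fun x => if (q : ℤ) ∣ dot x.1 x.2 ^ 2 + 1 then (1 : ℝ) else 0) := by
  intro x y h
  simp only [dvd_dot_iff, h]

/-- **LOC3**: the probability that `l^k ∣ dot² + 1`, `l` odd. -/
theorem mn_dot_le {l k : ℕ} (hl : l.Prime) (hl2 : l ≠ 2) (hk : 0 < k) :
    mn (l ^ k) (fun x => if ((l ^ k : ℕ) : ℤ) ∣ dot x.1 x.2 ^ 2 + 1 then (1 : ℝ) else 0) ≤
      2 * (k + 1) / ((l ^ k : ℕ) : ℝ) := by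
  have : NeZero (l ^ k) := ⟨pow_ne_zero _ hl.ne_zero⟩
  rw [mn_def]
  have e : ∑ r ∈ sl (l ^ k), (if ((l ^ k : ℕ) : ℤ) ∣
      dot (lift (l ^ k) r).1 (lift (l ^ k) r).2 ^ 2 + 1 then (1 : ℝ) else 0) =
      (((sl (l ^ k)).filter (fun r => dr r * dr r = -1)).card : ℝ) := by
    simp only [dvd_dot_iff, res_lift]
    rw [Finset.sum_boole]
  rw [e]
  have h1 : (((sl (l ^ k)).filter (fun r => dr r * dr r = -1)).card : ℝ) ≤
      2 * (((l ^ k).totient : ℝ) * ((k + 1) * ((l ^ k : ℕ) : ℝ))) := by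
    have := card_dr (k := k) hl hl2 hk
    exact_mod_cast this
  rw [totient_pp hl hk] at h1
  rw [card_sl hl hk, one_sub_sq hl]
  have hl1 : (1 : ℝ) < l := by exact_mod_cast hl.one_lt
  have h2 : 0 < (1 - 1 / (l : ℝ)) := by
    have : 1 / (l : ℝ) < 1 := by rw [div_lt_one (by linarith)]; exact hl1
    linarith
  have h3 : (0 : ℝ) ≤ 1 / (l : ℝ) := by positivity
  have h4 : (0 : ℝ) < ((l ^ k : ℕ) : ℝ) := by exact_mod_cast pow_pos hl.pos k
  generalize ((l ^ k : ℕ) : ℝ) = Q at h1 h4 ⊢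
  generalize (1 - 1 / (l : ℝ)) = A at h1 h2 ⊢
  generalize 1 / (l : ℝ) = b at h3 ⊢
  rw [div_le_div_iff₀ (by positivity) h4]
  have h5 : (0 : ℝ) ≤ 2 * ((k : ℝ) + 1) * Q ^ 3 * A * b := by positivity
  calc _ ≤ 2 * (Q * A * ((k + 1) * Q)) * Q := mul_le_mul_of_nonneg_right h1 h4.le
    _ = 2 * ((k : ℝ) + 1) * Q ^ 3 * A := by ring
    _ ≤ 2 * ((k : ℝ) + 1) * Q ^ 3 * A + 2 * ((k : ℝ) + 1) * Q ^ 3 * A * b := by linarith
    _ = _ := by ring

/-- the same for all primes -/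
theorem mn_dot_le' {l k : ℕ} (hl : l.Prime) (hk : 0 < k) :
    mn (l ^ k) (fun x => if ((l ^ k : ℕ) : ℤ) ∣ dot x.1 x.2 ^ 2 + 1 then (1 : ℝ) else 0) ≤
      2 * (k + 1) / ((l ^ k : ℕ) : ℝ) := by
  by_cases hl2 : l = 2
  · subst hl2
    by_cases hk1 : k = 1
    · subst hk1
      refine (mn_le_one fun x => ?_).trans ?_
      · split_ifs <;> norm_num
      · norm_num
    · have h0 : ∀ x : V × V, ¬ ((2 ^ k : ℕ) : ℤ) ∣ dot x.1 x.2 ^ 2 + 1 := by
        intro x h
        have h4 : (4 : ℤ) ∣ dot x.1 x.2 ^ 2 + 1 := by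
          refine dvd_trans ?_ h
          have : (2 : ℕ) ^ 2 ∣ 2 ^ k := pow_dvd_pow 2 (by omega)
          exact_mod_cast this
        rcases Int.even_or_odd' (dot x.1 x.2) with ⟨c, hc | hc⟩
        · rw [hc] at h4
          have : (4 : ℤ) ∣ (2 * c) ^ 2 := ⟨c ^ 2, by ring⟩
          have := (Int.dvd_add_right this).1 h4
          norm_num at this
        · rw [hc] at h4
          have h5 : (2 * c + 1) ^ 2 + 1 = 4 * (c ^ 2 + c) + 2 := by ring
          rw [h5] at h4
          have := (Int.dvd_add_right (Dvd.intro _ rfl)).1 h4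
          norm_num at this
      simp only [h0, if_false]
      have : NeZero (2 ^ k) := ⟨by positivity⟩
      rw [mn_const]
      positivity
  · exact mn_dot_le hl hl2 hk

/-! ### The exact density for `k = 1`, from below -/

lemma nn_eq {q : ℕ} [NeZero q] {r : R4 q} (hr : r ∈ sl q) :
    (r.1.1 ^ 2 + r.1.2 ^ 2) * (r.2.1 ^ 2 + r.2.2 ^ 2) = dr r * dr r + 1 := by
  rw [mem_sl] at hr
  simp only [dr]
  linear_combination (r.1.1 * r.2.2 - r.1.2 * r.2.1 - 1) * hr

lemma card_both {l : ℕ} (hl : l.Prime) (hl4 : l % 4 = 1) [NeZero (l ^ 1)] :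
    ((sl (l ^ 1)).filter (fun r => r.1.1 ^ 2 + r.1.2 ^ 2 = 0 ∧ r.2.1 ^ 2 + r.2.2 ^ 2 = 0)).card ≤
      2 * (l - 1) := by
  have hl2 : l ≠ 2 := by rintro rfl; norm_num at hl4
  have h1 := card_zero l 1 hl one_pos
  have htot : (l ^ 1).totient = l - 1 := by rw [pow_one, Nat.totient_prime hl]
  rw [card_iot_eq hl hl4, htot] at h1
  rw [← h1]
  refine Finset.card_le_card_of_injOn (fun r => r.1) ?_ ?_
  · intro r hr
    rw [Finset.mem_coe, Finset.mem_filter, mem_sl] at hr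
    rw [Finset.mem_coe, Finset.mem_filter, LocM.prim, Finset.mem_filter]
    refine ⟨⟨Finset.mem_univ _, ?_⟩, hr.2.1⟩
    have h2 : IsUnit (r.1.1 * r.2.2 + -(r.1.2 * r.2.1)) := by
      rw [← sub_eq_add_neg, hr.1]; exact isUnit_one.neg
    rcases isUnit_or hl one_pos h2 with h3 | h3
    · exact Or.inl (isUnit_of_mul_isUnit_left h3)
    · exact Or.inr (isUnit_of_mul_isUnit_left (IsUnit.neg_iff _ |>.1 h3))
  · intro r hr r' hr' h
    rw [Finset.mem_coe, Finset.mem_filter] at hr hr'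
    simp only at h
    -- dot is a unit and its square is `-1`
    have e1 := nn_eq hr.1
    have e1' := nn_eq hr'.1
    rw [hr.2.1, zero_mul] at e1
    rw [hr'.2.1, zero_mul] at e1'
    have hd : dr r * dr r = -1 := by linear_combination -e1
    have hd' : dr r' * dr r' = -1 := by linear_combination -e1'
    have hu : IsUnit (dr r) := IsUnit.of_mul_eq_one (-dr r) (by linear_combination -hd)
    have hc := mem_sl.1 hr.1
    have hc' := mem_sl.1 hr'.1
    have ha : r'.1.1 = r.1.1 := by rw [h]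
    have hb : r'.1.2 = r.1.2 := by rw [h]
    rw [ha, hb] at hc'
    have hv := hr.2.1
    have hw := hr.2.2
    have hw' := hr'.2.2
    -- `w' = w + t v` with `t = - cross (w, w') ...`
    set a := r.1.1
    set b := r.1.2
    set c := r.2.1
    set d := r.2.2
    set c' := r'.2.1
    set d' := r'.2.2
    set t := d * c' - c * d' with ht
    have h5 : c' = c - t * a ∧ d' = d - t * b := by
      constructor
      · rw [ht]; linear_combination c' * hc - c * hc'
      · rw [ht]; linear_combination d' * hc - d * hc'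
    have h6 : t * (2 * dr r) = 0 := by
      have h7 : dr r = a * c + b * d := rfl
      rw [h7]
      have h8 := hw'
      rw [h5.1, h5.2] at h8
      linear_combination hw - h8 + t ^ 2 * hv
    have h9 : t = 0 := (((two_isUnit hl hl2 one_pos).mul hu).mul_left_eq_zero).1 h6
    rw [h9] at h5
    refine Prod.ext h (Prod.ext ?_ ?_)
    · have := h5.1; rw [zero_mul, sub_zero] at this; exact this.symm
    · have := h5.2; rw [zero_mul, sub_zero] at this; exact this.symm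

/-- **LOC4**: the probability that `l ∣ dot² + 1`, `l ≡ 1 (mod 4)`, from below. -/
theorem mn_dot_ge {l : ℕ} (hl : l.Prime) (hl4 : l % 4 = 1) :
    4 / (l : ℝ) - 6 / (l : ℝ) ^ 2 ≤
      mn l (fun x => if (l : ℤ) ∣ dot x.1 x.2 ^ 2 + 1 then (1 : ℝ) else 0) := by
  have hn1 : NeZero (l ^ 1) := ⟨pow_ne_zero _ hl.ne_zero⟩
  have hl0 : (0 : ℝ) < l := by exact_mod_cast hl.pos
  have hl1 : (1 : ℝ) < l := by exact_mod_cast hl.one_lt
  -- the three means
  have hA : (∑ r ∈ sl (l ^ 1), (if r.1.1 ^ 2 + r.1.2 ^ 2 = 0 then (1 : ℝ) else 0)) =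
      2 * (l : ℝ) ^ 2 * (1 - 1 / (l : ℝ)) := by
    rw [sum_norm_fst hl one_pos, card_iot_eq hl hl4]
    push_cast
    ring
  have hB : (∑ r ∈ sl (l ^ 1), (if r.2.1 ^ 2 + r.2.2 ^ 2 = 0 then (1 : ℝ) else 0)) =
      2 * (l : ℝ) ^ 2 * (1 - 1 / (l : ℝ)) := by
    rw [← hA]
    have := sum_lin (q := l ^ 1) (s := 0) (t := 1) (Or.inr isUnit_one)
      (fun v => if v.1 ^ 2 + v.2 ^ 2 = 0 then (1 : ℝ) else 0)
    simp only [zero_mul, one_mul, zero_add] at this
    exact this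
  have hC : (∑ r ∈ sl (l ^ 1), (if r.1.1 ^ 2 + r.1.2 ^ 2 = 0 ∧ r.2.1 ^ 2 + r.2.2 ^ 2 = 0
      then (1 : ℝ) else 0)) ≤ 2 * ((l : ℝ) - 1) := by
    rw [Finset.sum_boole]
    have h1 := card_both hl hl4
    have h2 : ((l - 1 : ℕ) : ℝ) = (l : ℝ) - 1 := by rw [Nat.cast_sub hl.one_le]; simp
    rw [← h2]
    exact_mod_cast h1
  have hD : (∑ r ∈ sl (l ^ 1), (if r.1.1 ^ 2 + r.1.2 ^ 2 = 0 then (1 : ℝ) else 0)) +
      (∑ r ∈ sl (l ^ 1), (if r.2.1 ^ 2 + r.2.2 ^ 2 = 0 then (1 : ℝ) else 0)) -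
      (∑ r ∈ sl (l ^ 1), (if r.1.1 ^ 2 + r.1.2 ^ 2 = 0 ∧ r.2.1 ^ 2 + r.2.2 ^ 2 = 0
        then (1 : ℝ) else 0)) ≤
      ∑ r ∈ sl (l ^ 1), (if dr r * dr r = -1 then (1 : ℝ) else 0) := by
    rw [← Finset.sum_add_distrib, ← Finset.sum_sub_distrib]
    refine Finset.sum_le_sum fun r hr => ?_
    have e := nn_eq hr
    by_cases h1 : r.1.1 ^ 2 + r.1.2 ^ 2 = 0
    · rw [h1, zero_mul] at e
      have e' : dr r * dr r = -1 := by linear_combination -e
      by_cases h2 : r.2.1 ^ 2 + r.2.2 ^ 2 = 0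
      · simp [h1, h2, e']
      · simp [h1, h2, e']
    · by_cases h2 : r.2.1 ^ 2 + r.2.2 ^ 2 = 0
      · rw [h2, mul_zero] at e
        have e' : dr r * dr r = -1 := by linear_combination -e
        simp [h1, h2, e']
      · simp only [h1, h2, if_false, false_and]
        split_ifs <;> norm_num
  have hcard := card_sl hl one_pos
  have e : mn (l ^ 1) (fun x => if ((l ^ 1 : ℕ) : ℤ) ∣ dot x.1 x.2 ^ 2 + 1 then (1 : ℝ) else 0) =
      (∑ r ∈ sl (l ^ 1), (if dr r * dr r = -1 then (1 : ℝ) else 0)) /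
        ((sl (l ^ 1)).card : ℝ) := by
    rw [mn_def]
    simp only [dvd_dot_iff, res_lift]
  have hq : ((l ^ 1 : ℕ) : ℝ) = l := by rw [pow_one]
  have e0 : mn l (fun x => if (l : ℤ) ∣ dot x.1 x.2 ^ 2 + 1 then (1 : ℝ) else 0) =
      mn (l ^ 1) (fun x => if ((l ^ 1 : ℕ) : ℤ) ∣ dot x.1 x.2 ^ 2 + 1 then (1 : ℝ) else 0) := by
    rw [pow_one]
  rw [hcard, hq] at e
  rw [e0, e]
  rw [hA, hB] at hD
  have h5 : 2 * (l : ℝ) ^ 2 * (1 - 1 / (l : ℝ)) + 2 * (l : ℝ) ^ 2 * (1 - 1 / (l : ℝ)) -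
      2 * ((l : ℝ) - 1) ≤ ∑ r ∈ sl (l ^ 1), (if dr r * dr r = -1 then (1 : ℝ) else 0) := by
    linarith
  have h6 : 0 < (l : ℝ) ^ 3 * (1 - 1 / (l : ℝ) ^ 2) := by
    have : 1 / (l : ℝ) ^ 2 < 1 := by
      rw [div_lt_one (by positivity)]
      nlinarith
    have : 0 < 1 - 1 / (l : ℝ) ^ 2 := by linarith
    positivity
  rw [le_div_iff₀ h6]
  refine le_trans ?_ h5
  have e1 : (4 / (l : ℝ) - 6 / (l : ℝ) ^ 2) * ((l : ℝ) ^ 3 * (1 - 1 / (l : ℝ) ^ 2)) =
      (4 * (l : ℝ) - 6) * ((l : ℝ) ^ 2 - 1) / l := by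
    field_simp
  have e2 : 2 * (l : ℝ) ^ 2 * (1 - 1 / (l : ℝ)) + 2 * (l : ℝ) ^ 2 * (1 - 1 / (l : ℝ)) -
      2 * ((l : ℝ) - 1) = (4 * (l : ℝ) ^ 2 - 6 * l + 2) := by
    field_simp
    ring
  rw [e1, e2, div_le_iff₀ hl0]
  nlinarith [sq_nonneg ((l : ℝ) - 1)]

end LocD

end Pool.Agent.Lib.MP391708.T1
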