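import Pool.Agent.Lib.MP_391708_nt.T4.Defs

/-!
# T1, group NG: two relations at the same `M` with `M₄ = M₄'`
-/

set_option autoImplicit false

namespace Pool.Agent.Lib.MP391708.T1.NG

open Finset
open Pool.Agent.Lib.MP391708.T4

/-- the part at the primes `≤ E` determines the exponents -/
lemma ep_factorization (p : Prm) (n : ℕ) (l : ℕ) (hl : l.Prime) (hlE : l ≤ p.E) :
    (ep p n).factorization l = n.factorization l := by
  classical
  unfold ep
  rw [Nat.factorization_prod_apply]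
  · have h : ∀ i ∈ (range (p.E + 1)).filter Nat.Prime,
        (i ^ n.factorization i).factorization l = if i = l then n.factorization l else 0 := by
      intro i hi
      rw [mem_filter] at hi
      rw [Nat.factorization_pow, hi.2.factorization]
      by_cases hil : i = l
      · subst hil
        simp
      · simp [hil]
    rw [Finset.sum_congr rfl h, Finset.sum_ite_eq', if_pos]
    rw [mem_filter, mem_range]
    exact ⟨by omega, hl⟩
  · intro i hi
    rw [mem_filter] at hi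
    exact pow_ne_zero _ hi.2.ne_zero

/-- the quotients are `1` -/
lemma step1 {G P Q G' P' Q' m E : ℕ} {D D' : ℤ} (hP : 0 < P) (hP' : 0 < P')
    (h : G * P * Q = m) (h' : G' * P' * Q' = m) (hc' : IsCoprime D' (G' : ℤ))
    (hq' : ∀ l : ℕ, l.Prime → (l : ℤ) ∣ D' → l ∣ Q' → l ≤ E)
    (hE : ∀ l : ℕ, l.Prime → l ≤ E → P.factorization l = P'.factorization l)
    (hAD : ((P / Nat.gcd P P' : ℕ) : ℤ) * D = ((P' / Nat.gcd P P' : ℕ) : ℤ) * D') :
    P / Nat.gcd P P' = 1 := by
  by_contra hne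
  set g := Nat.gcd P P' with hg
  have hg0 : 0 < g := Nat.gcd_pos_of_pos_left _ hP
  set A := P / g with hA
  set A' := P' / g with hA'
  have hPA : P = A * g := (Nat.div_mul_cancel (Nat.gcd_dvd_left P P')).symm
  have hPA' : P' = A' * g := (Nat.div_mul_cancel (Nat.gcd_dvd_right P P')).symm
  have hcop : Nat.Coprime A A' := Nat.coprime_div_gcd_div_gcd hg0
  have hA0 : A ≠ 0 := by
    intro h0
    rw [h0, zero_mul] at hPA
    omega
  have hA'0 : A' ≠ 0 := by
    intro h0
    rw [h0, zero_mul] at hPA'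
    omega
  obtain ⟨l, hl, hlA⟩ := Nat.exists_prime_and_dvd hne
  have hlA' : ¬ l ∣ A' := fun h1 => by
    have := Nat.dvd_gcd hlA h1
    rw [hcop] at this
    exact hl.one_lt.ne' (Nat.dvd_one.1 this)
  have hlp : Prime (l : ℤ) := Nat.prime_iff_prime_int.1 hl
  have hlD' : (l : ℤ) ∣ D' := by
    have h1 : (l : ℤ) ∣ (A' : ℤ) * D' := by
      rw [← hAD]
      exact dvd_mul_of_dvd_left (Int.natCast_dvd_natCast.2 hlA) _
    rcases hlp.dvd_or_dvd h1 with h2 | h2
    · exact absurd (Int.natCast_dvd_natCast.1 h2) hlA'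
    · exact h2
  have hGAQ : G * A * Q = G' * A' * Q' := by
    have h1 : (G * A * Q) * g = (G' * A' * Q') * g := by
      calc (G * A * Q) * g = G * (A * g) * Q := by ring
        _ = G' * (A' * g) * Q' := by rw [← hPA, ← hPA', h, h']
        _ = (G' * A' * Q') * g := by ring
    exact Nat.eq_of_mul_eq_mul_right hg0 h1
  have hdvd : l ∣ G' * A' * Q' := by
    rw [← hGAQ]
    exact dvd_mul_of_dvd_left (dvd_mul_of_dvd_right hlA _) _
  rcases (hl.dvd_mul).1 hdvd with h1 | h1
  · rcases (hl.dvd_mul).1 h1 with h2 | h2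
    · have h3 : IsCoprime (l : ℤ) (l : ℤ) :=
        (hc'.of_isCoprime_of_dvd_left hlD').of_isCoprime_of_dvd_right (Int.natCast_dvd_natCast.2 h2)
      exact hlp.not_isUnit (isCoprime_self.1 h3)
    · exact hlA' h2
  · have hle := hq' l hl hlD' h1
    have h2 := hE l hl hle
    rw [hPA, hPA', Nat.factorization_mul hA0 hg0.ne', Nat.factorization_mul hA'0 hg0.ne',
      Finsupp.add_apply, Finsupp.add_apply, Nat.factorization_eq_zero_of_not_dvd hlA'] at h2
    have h3 := (hl.dvd_iff_one_le_factorization hA0).1 hlA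
    omega

/-- the alternative -/
lemma step2 {G X G' X' : ℕ} {D : ℤ} (hG : 0 < G) (hX : 0 < X) (hG' : 0 < G') (hX' : 0 < X')
    (hD : D ∣ (X : ℤ) - G) (hD' : D ∣ (X' : ℤ) - G') (hc : IsCoprime D (G : ℤ))
    (hGX : Nat.Coprime G X) (hGX' : Nat.Coprime G' X') (hne : ¬ (G = G' ∧ X = X')) :
    D.natAbs ≤ (X / Nat.gcd X X') ^ 2 ∨ D.natAbs ≤ (X' / Nat.gcd X X') ^ 2 ∨
      D.natAbs ≤ (G / Nat.gcd G G') ^ 2 ∨ D.natAbs ≤ (G' / Nat.gcd G G') ^ 2 := by
  by_contra hcon
  push Not at hcon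
  obtain ⟨c1, c2, c3, c4⟩ := hcon
  set e := Nat.gcd X X' with he
  set f := Nat.gcd G G' with hf
  have he0 : 0 < e := Nat.gcd_pos_of_pos_left _ hX
  have hf0 : 0 < f := Nat.gcd_pos_of_pos_left _ hG
  set a := X / e with ha
  set b := X' / e with hb
  set x := G / f with hx
  set y := G' / f with hy
  have hXa : X = a * e := (Nat.div_mul_cancel (Nat.gcd_dvd_left X X')).symm
  have hXb : X' = b * e := (Nat.div_mul_cancel (Nat.gcd_dvd_right X X')).symm
  have hGx : G = x * f := (Nat.div_mul_cancel (Nat.gcd_dvd_left G G')).symm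
  have hGy : G' = y * f := (Nat.div_mul_cancel (Nat.gcd_dvd_right G G')).symm
  have hab : Nat.Coprime a b := Nat.coprime_div_gcd_div_gcd he0
  have hxy : Nat.Coprime x y := Nat.coprime_div_gcd_div_gcd hf0
  have ha0 : 0 < a := Nat.pos_of_ne_zero fun h0 => by rw [h0, zero_mul] at hXa; omega
  have hb0 : 0 < b := Nat.pos_of_ne_zero fun h0 => by rw [h0, zero_mul] at hXb; omega
  have hx0 : 0 < x := Nat.pos_of_ne_zero fun h0 => by rw [h0, zero_mul] at hGx; omega
  have hy0 : 0 < y := Nat.pos_of_ne_zero fun h0 => by rw [h0, zero_mul] at hGy; omega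
  -- `D` is coprime to `e` and `f`
  have hcX : IsCoprime D (X : ℤ) := by
    obtain ⟨k, hk⟩ := hD
    have h1 : (X : ℤ) = G + D * k := by linarith
    rw [h1]
    exact IsCoprime.add_mul_left_right hc k
  have hce : IsCoprime D (e : ℤ) :=
    hcX.of_isCoprime_of_dvd_right (Int.natCast_dvd_natCast.2 (Nat.gcd_dvd_left X X'))
  have hcf : IsCoprime D (f : ℤ) :=
    hc.of_isCoprime_of_dvd_right (Int.natCast_dvd_natCast.2 (Nat.gcd_dvd_left G G'))
  have hdvd : D ∣ (a : ℤ) * y - b * x := by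
    have h1 : D ∣ ((e : ℤ) * f) * ((a : ℤ) * y - b * x) := by
      have h2 : ((e : ℤ) * f) * ((a : ℤ) * y - b * x) =
          ((X : ℤ) - G) * G' - ((X' : ℤ) - G') * G := by
        rw [hXa, hXb, hGx, hGy]
        push_cast
        ring
      rw [h2]
      exact dvd_sub (dvd_mul_of_dvd_left hD _) (dvd_mul_of_dvd_left hD' _)
    exact (hce.mul_right hcf).dvd_of_dvd_mul_left h1
  have hab2 : a * y < D.natAbs := by
    have h1 : (a * y) ^ 2 < D.natAbs ^ 2 := by
      rw [mul_pow, sq D.natAbs]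
      exact Nat.mul_lt_mul'' c1 c4
    exact lt_of_pow_lt_pow_left₀ 2 (Nat.zero_le _) h1
  have hbx2 : b * x < D.natAbs := by
    have h1 : (b * x) ^ 2 < D.natAbs ^ 2 := by
      rw [mul_pow, sq D.natAbs]
      exact Nat.mul_lt_mul'' c2 c3
    exact lt_of_pow_lt_pow_left₀ 2 (Nat.zero_le _) h1
  have heq : (a : ℤ) * y - b * x = 0 := by
    refine Int.eq_zero_of_abs_lt_dvd ((abs_dvd _ _).2 hdvd) ?_
    rw [abs_lt]
    have h1 : ((a * y : ℕ) : ℤ) < D.natAbs := by exact_mod_cast hab2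
    have h2 : ((b * x : ℕ) : ℤ) < D.natAbs := by exact_mod_cast hbx2
    push_cast at h1 h2
    have h3 : (0 : ℤ) ≤ (a : ℤ) * y := by positivity
    have h4 : (0 : ℤ) ≤ (b : ℤ) * x := by positivity
    constructor <;> linarith
  have heqn : a * y = b * x := by
    have : (a : ℤ) * y = b * x := by linarith
    exact_mod_cast this
  have hax : a ∣ x := by
    have : a ∣ b * x := by rw [← heqn]; exact dvd_mul_right a y
    exact hab.dvd_of_dvd_mul_left this
  have hby : b ∣ y := by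
    have : b ∣ a * y := by rw [heqn]; exact dvd_mul_right b x
    exact hab.symm.dvd_of_dvd_mul_left this
  have ha1 : a = 1 := by
    have h1 : a ∣ Nat.gcd G X := Nat.dvd_gcd (by rw [hGx]; exact dvd_mul_of_dvd_left hax f)
      (by rw [hXa]; exact dvd_mul_right a e)
    rw [hGX] at h1
    exact Nat.dvd_one.1 h1
  have hb1 : b = 1 := by
    have h1 : b ∣ Nat.gcd G' X' := Nat.dvd_gcd (by rw [hGy]; exact dvd_mul_of_dvd_left hby f)
      (by rw [hXb]; exact dvd_mul_right b e)
    rw [hGX'] at h1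
    exact Nat.dvd_one.1 h1
  rw [ha1, hb1, one_mul, one_mul] at heqn
  apply hne
  refine ⟨by rw [hGx, hGy, heqn], by rw [hXa, hXb, ha1, hb1]⟩

set_option linter.constructorNameAsVariable false in
/-- **algebra of a pair** with `M₄ = M₄'` -/
theorem pair_same {p : Prm} {N : ℕ} {r r' : Rl} (hr : r ∈ RG p N) (hr' : r' ∈ RG p N)
    (hM : rM r = rM r') (hne : r ≠ r') (hep : ep p (rP r) = ep p (rP r'))
    (hAD : ((rP r / Nat.gcd (rP r) (rP r') : ℕ) : ℤ) * rD r =
      ((rP r' / Nat.gcd (rP r) (rP r') : ℕ) : ℤ) * rD r') :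
    rP r = rP r' ∧ rD r = rD r' ∧
      ((rD r).natAbs ≤ (rX r / Nat.gcd (rX r) (rX r')) ^ 2 ∨
        (rD r).natAbs ≤ (rX r' / Nat.gcd (rX r) (rX r')) ^ 2 ∨
        (rD r).natAbs ≤ (rG r / Nat.gcd (rG r) (rG r')) ^ 2 ∨
        (rD r).natAbs ≤ (rG r' / Nat.gcd (rG r) (rG r')) ^ 2) := by
  classical
  rw [RG, mem_filter] at hr hr'
  obtain ⟨g0, P0, q0, d0, x0, hm, hdv, -, hcop⟩ := hr.2.1
  obtain ⟨g0', P0', q0', d0', x0', hm', hdv', -, hcop'⟩ := hr'.2.1
  have hcD := hr.2.2.2.2.2.2.2.2.2.2.2.2.1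
  have hcD' := hr'.2.2.2.2.2.2.2.2.2.2.2.2.1
  have hq := hr.2.2.2.2.2.2.2.2.2.2.2.2.2.1
  have hq' := hr'.2.2.2.2.2.2.2.2.2.2.2.2.2.1
  have hE : ∀ l : ℕ, l.Prime → l ≤ p.E → (rP r).factorization l = (rP r').factorization l := by
    intro l hl hle
    rw [← ep_factorization p (rP r) l hl hle, ← ep_factorization p (rP r') l hl hle, hep]
  have hm2 : rG r' * rP r' * rQ r' = rM r ^ 2 + 1 := by rw [hm', hM]
  have h1 : rP r / Nat.gcd (rP r) (rP r') = 1 := step1 P0 P0' hm hm2 hcD' hq' hE hAD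
  have h2 : rP r' / Nat.gcd (rP r) (rP r') = 1 := by
    have := step1 (D := rD r') (D' := rD r) P0' P0 hm2 hm hcD hq
      (fun l hl hle => (hE l hl hle).symm) (by rw [Nat.gcd_comm]; exact hAD.symm)
    rwa [Nat.gcd_comm] at this
  have e1 : rP r = Nat.gcd (rP r) (rP r') := by
    have := Nat.div_mul_cancel (Nat.gcd_dvd_left (rP r) (rP r'))
    rw [h1, one_mul] at this
    exact this.symm
  have e2 : rP r' = Nat.gcd (rP r) (rP r') := by
    have := Nat.div_mul_cancel (Nat.gcd_dvd_right (rP r) (rP r'))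
    rw [h2, one_mul] at this
    exact this.symm
  have hP : rP r = rP r' := e1.trans e2.symm
  have hD : rD r = rD r' := by
    rw [h1, h2] at hAD
    simpa using hAD
  refine ⟨hP, hD, step2 g0 x0 g0' x0' hdv (by rw [hD]; exact hdv') hcD hcop hcop' ?_⟩
  rintro ⟨hG, hX⟩
  apply hne
  have hQ : rQ r = rQ r' := by
    have h3 : rG r * rP r * rQ r = rG r * rP r * rQ r' := by
      rw [hm]
      rw [hG, hP, hm2]
    exact Nat.eq_of_mul_eq_mul_left (Nat.mul_pos g0 P0) h3
  exact Prod.ext hM (Prod.ext hG (Prod.ext hP (Prod.ext hQ (Prod.ext hD hX))))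

end Pool.Agent.Lib.MP391708.T1.NG
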