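import Pool.Agent.Lib.MP_391708_nt.T1.NGL
import Pool.Agent.Lib.MP_391708_nt.Eqd.Div
import Pool.Agent.Lib.MP_391708_nt.Eqd.First

/-!
# T1, group NG: number of pairs `(M, V)`, `V ∣ M² + 1`, with conditions at small moduli
-/

set_option autoImplicit false

namespace Pool.Agent.Lib.MP391708.T1.NG

open Finset
open Pool.Agent.Lib.MP391708.Eqd
open Pool.Agent.Lib.MP391708.Eqd.Loc
open scoped Classical

/-- the form of discriminant `-4` -/
def qf (M V W s t : ℤ) : ℤ := V * s ^ 2 + 2 * M * s * t + W * t ^ 2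

lemma qf_eq (x : V × V) (s t : ℤ) :
    qf (dot x.1 x.2) (nsq x.1) (nsq x.2) s t =
      (s * x.1.1 + t * x.2.1) ^ 2 + (s * x.1.2 + t * x.2.2) ^ 2 := by
  simp only [qf, dot, nsq]; ring

/-- the tent -/
noncomputable def tent (Y s : ℝ) : ℝ := max 0 (min 1 (min (2 * s / Y - 1) ((4 * Y - s) / (2 * Y))))

lemma tent_nonneg (Y s : ℝ) : 0 ≤ tent Y s := le_max_left _ _

lemma tent_le_one (Y s : ℝ) : tent Y s ≤ 1 := max_le zero_le_one (min_le_left _ _)

lemma tent_lip {Y : ℝ} (hY : 0 < Y) (s t : ℝ) : |tent Y s - tent Y t| ≤ 2 / Y * |s - t| := by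
  unfold tent
  refine (abs_max_sub_max_le_max _ _ _ _).trans ?_
  rw [sub_self, abs_zero]
  refine max_le (by positivity) ?_
  refine (abs_min_sub_min_le_max _ _ _ _).trans ?_
  rw [sub_self, abs_zero]
  refine max_le (by positivity) ?_
  refine (abs_min_sub_min_le_max _ _ _ _).trans ?_
  refine max_le ?_ ?_
  · have : 2 * s / Y - 1 - (2 * t / Y - 1) = 2 / Y * (s - t) := by field_simp; ring
    rw [this, abs_mul, abs_of_nonneg (by positivity : (0 : ℝ) ≤ 2 / Y)]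
  · have : (4 * Y - s) / (2 * Y) - (4 * Y - t) / (2 * Y) = (1 / (2 * Y)) * (t - s) := by
      field_simp; ring
    rw [this, abs_mul, abs_of_nonneg (by positivity : (0 : ℝ) ≤ 1 / (2 * Y)), abs_sub_comm t s]
    refine mul_le_mul_of_nonneg_right ?_ (abs_nonneg _)
    rw [div_le_div_iff₀ (by positivity) hY]
    nlinarith

lemma tent_supp {Y s : ℝ} (hY : 0 < Y) (h : 0 < tent Y s) : Y / 2 < s ∧ s < 4 * Y := by
  unfold tent at h
  have h1 : 0 < min 1 (min (2 * s / Y - 1) ((4 * Y - s) / (2 * Y))) := by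
    rcases lt_max_iff.mp h with h | h
    · exact absurd h (lt_irrefl _)
    · exact h
  have h2 := (lt_min_iff.mp h1).2
  obtain ⟨h3, h4⟩ := lt_min_iff.mp h2
  constructor
  · have : 1 < 2 * s / Y := by linarith
    rw [lt_div_iff₀ hY] at this
    linarith
  · have := (div_pos_iff_of_pos_right (by positivity : (0 : ℝ) < 2 * Y)).mp h4
    linarith

lemma tent_one {Y s : ℝ} (hY : 0 < Y) (h1 : Y ≤ s) (h2 : s ≤ 2 * Y) : tent Y s = 1 := by
  unfold tent
  have h3 : 1 ≤ 2 * s / Y - 1 := by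
    have : 2 ≤ 2 * s / Y := by rw [le_div_iff₀ hY]; linarith
    linarith
  have h4 : 1 ≤ (4 * Y - s) / (2 * Y) := by rw [le_div_iff₀ (by positivity)]; linarith
  rw [min_eq_left (le_min h3 h4)]
  exact max_eq_right zero_le_one

/-- pairs in `n` windows -/
lemma win {C : ℝ} (hF : ∀ X : ℝ, 1 ≤ X → ∀ l : ℝ, ∀ M : ℕ,
    (((pairs 1 M).filter (fun x => scal x ≤ X ∧ l ≤ shp x ∧ shp x ≤ l + 1)).card : ℝ) ≤ C * X)
    {X : ℝ} (hX : 1 ≤ X) (M : ℕ) (n : ℕ) : ∀ a : ℝ,
    (((pairs 1 M).filter (fun x => scal x ≤ X ∧ a ≤ shp x ∧ shp x ≤ a + (n + 1))).card : ℝ) ≤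
      (n + 1) * (C * X) := by
  induction n with
  | zero =>
    intro a
    have := hF X hX a M
    simpa using this
  | succ n ih =>
    intro a
    have hsub : (pairs 1 M).filter (fun x => scal x ≤ X ∧ a ≤ shp x ∧
        shp x ≤ a + ((n + 1 : ℕ) + 1)) ⊆
        (pairs 1 M).filter (fun x => scal x ≤ X ∧ a ≤ shp x ∧ shp x ≤ a + 1) ∪
        (pairs 1 M).filter (fun x => scal x ≤ X ∧ a + 1 ≤ shp x ∧ shp x ≤ (a + 1) + (n + 1)) := by
      intro x hx
      rw [mem_filter] at hx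
      rw [mem_union, mem_filter, mem_filter]
      obtain ⟨h0, h1, h2, h3⟩ := hx
      push_cast at h3
      rcases le_total (shp x) (a + 1) with h | h
      · exact Or.inl ⟨h0, h1, h2, h⟩
      · exact Or.inr ⟨h0, h1, h, by linarith⟩
    have h1 := (card_le_card hsub).trans (card_union_le _ _)
    have h2 : (((pairs 1 M).filter (fun x => scal x ≤ X ∧ a ≤ shp x ∧
        shp x ≤ a + ((n + 1 : ℕ) + 1))).card : ℝ) ≤
        (((pairs 1 M).filter (fun x => scal x ≤ X ∧ a ≤ shp x ∧ shp x ≤ a + 1)).card : ℝ) +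
        (((pairs 1 M).filter (fun x => scal x ≤ X ∧ a + 1 ≤ shp x ∧
          shp x ≤ (a + 1) + (n + 1))).card : ℝ) := by exact_mod_cast h1
    refine h2.trans ?_
    have h3 := hF X hX a M
    have h4 := ih (a + 1)
    push_cast
    linarith

/-- total number of pairs in the region -/
lemma total (c₁ C₁ : ℝ) (hc : 0 < c₁) (hcC : c₁ < C₁) :
    ∃ C : ℝ, 0 < C ∧ ∀ N Y : ℝ, 1 ≤ N → 1 ≤ Y → ∀ M : ℕ,
      (((pairs 1 M).filter (Reg (fun _ => c₁ * N) (fun s => c₁ * N + C₁ * N * tent Y s))).card : ℝ)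
        ≤ C * N := by
  obtain ⟨C, hC⟩ := specFirst 1 one_pos
  have hC1 : 0 < C := hC.1
  set X0 : ℝ := c₁ + C₁ + 1 with hX0
  have hX0pos : 1 ≤ X0 := by linarith
  obtain ⟨n, hn⟩ := exists_nat_ge (Real.log (8 * X0 / c₁))
  refine ⟨(n + 1) * (C * X0), by positivity, fun N Y hN hY M => ?_⟩
  have hN0 : 0 < N := by linarith
  have hY0 : 0 < Y := by linarith
  have hXN : 1 ≤ X0 * N := by nlinarith
  refine le_trans ?_ ((win hC.2 hXN M n (Real.log (c₁ * N / (4 * Y)))).trans (le_of_eq (by ring)))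
  refine Nat.cast_le.mpr (card_le_card ?_)
  intro x hx
  rw [mem_filter] at hx ⊢
  obtain ⟨hx0, hx1, hx2⟩ := hx
  simp only at hx1 hx2
  refine ⟨hx0, ?_⟩
  have hcr := (mem_pairs.mp hx0).2
  obtain ⟨hv, hw⟩ := nsq_pos_of_cross one_pos hcr
  have hv' : (0 : ℝ) < nsq x.1 := by exact_mod_cast hv
  have hw' : (0 : ℝ) < nsq x.2 := by exact_mod_cast hw
  have ht : 0 < tent Y (nsq x.1) := by
    have : 0 < C₁ * N * tent Y (nsq x.1) := by linarith
    exact (mul_pos_iff_of_pos_left (mul_pos (hc.trans hcC) hN0)).mp this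
  obtain ⟨hs1, hs2⟩ := tent_supp hY0 ht
  have hdot : (dot x.1 x.2 : ℝ) ≤ (c₁ + C₁) * N := by
    have := tent_le_one Y (nsq x.1)
    have h1 : C₁ * N * tent Y (nsq x.1) ≤ C₁ * N * 1 :=
      mul_le_mul_of_nonneg_left this (by nlinarith)
    nlinarith
  have hprod : (nsq x.1 : ℝ) * nsq x.2 = (dot x.1 x.2 : ℝ) ^ 2 + 1 := by
    have := nsq_mul x.1 x.2
    rw [hcr] at this
    have h2 : ((nsq x.1 * nsq x.2 : ℤ) : ℝ) = ((dot x.1 x.2 ^ 2 + (-((1 : ℕ) : ℤ)) ^ 2 : ℤ) : ℝ) := by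
      rw [this]
    push_cast at h2
    linarith
  have hd0 : 0 < (dot x.1 x.2 : ℝ) := lt_trans (by positivity) hx1
  have hub : (dot x.1 x.2 : ℝ) ^ 2 + 1 ≤ (X0 * N) ^ 2 := by
    have h1 : (dot x.1 x.2 : ℝ) + 1 ≤ X0 * N := by rw [hX0]; nlinarith
    have h2 : ((dot x.1 x.2 : ℝ) + 1) ^ 2 ≤ (X0 * N) ^ 2 := pow_le_pow_left₀ (by linarith) h1 2
    nlinarith
  have hscal : scal x ≤ X0 * N := by
    rw [scal, hprod]
    exact Real.sqrt_le_iff.mpr ⟨by positivity, hub⟩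
  refine ⟨hscal, ?_, ?_⟩
  · -- lower bound for the shape
    rw [shp]
    have h1 : (c₁ * N / (4 * Y)) ^ 2 ≤ (nsq x.2 : ℝ) / nsq x.1 := by
      rw [div_pow, div_le_div_iff₀ (by positivity) hv']
      have h3 : (nsq x.1 : ℝ) * nsq x.2 ≥ (c₁ * N) ^ 2 := by
        rw [hprod]
        have := pow_le_pow_left₀ (by positivity : 0 ≤ c₁ * N) hx1.le 2
        linarith
      have h4 : (nsq x.1 : ℝ) ^ 2 ≤ (4 * Y) ^ 2 := by
        exact pow_le_pow_left₀ hv'.le hs2.le 2
      by_contra hcon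
      push Not at hcon
      have h5 : (nsq x.2 : ℝ) * (4 * Y) ^ 2 * nsq x.1 < (c₁ * N) ^ 2 * nsq x.1 * nsq x.1 :=
        mul_lt_mul_of_pos_right hcon hv'
      have h6 : (c₁ * N) ^ 2 * (4 * Y) ^ 2 ≤ (nsq x.2 : ℝ) * (4 * Y) ^ 2 * nsq x.1 := by
        have := mul_le_mul_of_nonneg_right h3 (by positivity : (0 : ℝ) ≤ (4 * Y) ^ 2)
        nlinarith
      have h7 : (c₁ * N) ^ 2 * nsq x.1 * nsq x.1 ≤ (c₁ * N) ^ 2 * (4 * Y) ^ 2 := by
        have := mul_le_mul_of_nonneg_left h4 (by positivity : (0 : ℝ) ≤ (c₁ * N) ^ 2)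
        nlinarith
      linarith
    have h2 : Real.log ((c₁ * N / (4 * Y)) ^ 2) ≤ Real.log ((nsq x.2 : ℝ) / nsq x.1) :=
      Real.log_le_log (by positivity) h1
    rw [Real.log_pow] at h2
    push_cast at h2
    linarith
  · rw [shp]
    have h1 : (nsq x.2 : ℝ) / nsq x.1 ≤ (2 * (X0 * N) / Y) ^ 2 := by
      rw [div_pow, div_le_div_iff₀ hv' (by positivity)]
      have h4 : Y ^ 2 ≤ 4 * (nsq x.1 : ℝ) ^ 2 := by nlinarith
      by_contra hcon
      push Not at hcon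
      have h5 := mul_lt_mul_of_pos_right hcon hv'
      have h6 : (nsq x.2 : ℝ) * Y ^ 2 * nsq x.1 ≤ (X0 * N) ^ 2 * Y ^ 2 := by
        have : (nsq x.1 : ℝ) * nsq x.2 ≤ (X0 * N) ^ 2 := by rw [hprod]; exact hub
        have := mul_le_mul_of_nonneg_right this (by positivity : (0 : ℝ) ≤ Y ^ 2)
        nlinarith
      have h7 : (X0 * N) ^ 2 * Y ^ 2 ≤ (2 * (X0 * N)) ^ 2 * nsq x.1 * nsq x.1 := by
        have := mul_le_mul_of_nonneg_left h4 (by positivity : (0 : ℝ) ≤ (X0 * N) ^ 2)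
        nlinarith
      linarith
    have h2 : Real.log ((nsq x.2 : ℝ) / nsq x.1) ≤ Real.log ((2 * (X0 * N) / Y) ^ 2) :=
      Real.log_le_log (by positivity) h1
    rw [Real.log_pow] at h2
    push_cast at h2
    have h3 : Real.log (2 * (X0 * N) / Y) = Real.log (c₁ * N / (4 * Y)) + Real.log (8 * X0 / c₁) := by
      rw [← Real.log_mul (by positivity) (by positivity)]
      congr 1
      field_simp
      ring
    have h4 : Real.log (8 * X0 / c₁) ≤ n + 1 := by linarith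
    linarith

/-- the bounds are admissible -/
lemma bd {c₁ C₁ L N Y : ℝ} (hc : 0 < c₁) (hcC : c₁ < C₁) (hL : 4 + 4 * (c₁ + C₁) ≤ L)
    (hN : 1 ≤ N) (hY : 1 ≤ Y) :
    Bd L N Y (fun _ => c₁ * N) (fun s => c₁ * N + C₁ * N * tent Y s) := by
  have hY0 : 0 < Y := by linarith
  have hN0 : 0 < N := by linarith
  refine ⟨?_, ?_, ?_⟩
  · intro s t
    simp only [sub_self, abs_zero]
    have : 0 ≤ L := by linarith
    positivity
  · intro s t
    have e : c₁ * N + C₁ * N * tent Y s - (c₁ * N + C₁ * N * tent Y t) =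
        C₁ * N * (tent Y s - tent Y t) := by ring
    simp only [e]
    rw [abs_mul, abs_of_nonneg (by nlinarith : 0 ≤ C₁ * N)]
    refine (mul_le_mul_of_nonneg_left (tent_lip hY0 s t) (by nlinarith)).trans ?_
    rw [← mul_assoc]
    refine mul_le_mul_of_nonneg_right ?_ (abs_nonneg _)
    have : C₁ * N * (2 / Y) = 2 * C₁ * (N / Y) := by ring
    rw [this]
    exact mul_le_mul_of_nonneg_right (by linarith) (by positivity)
  · intro s h
    have ht : 0 < tent Y s := by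
      have : 0 < C₁ * N * tent Y s := by simpa using h
      exact (mul_pos_iff_of_pos_left (mul_pos (hc.trans hcC) hN0)).mp this
    obtain ⟨hs1, hs2⟩ := tent_supp hY0 ht
    have hL0 : 0 < L := by linarith
    refine ⟨?_, ?_, by positivity, ?_⟩
    · rw [div_le_iff₀ hL0]; nlinarith
    · nlinarith
    · have h1 : C₁ * N * tent Y s ≤ C₁ * N * 1 :=
        mul_le_mul_of_nonneg_left (tent_le_one Y s) (by nlinarith)
      nlinarith

/-- **CNT** -/
theorem cnt (hE : SpecEquid) (c₁ C₁ : ℝ) (hc : 0 < c₁) (hcC : c₁ < C₁) :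
    ∃ K : ℝ, 0 < K ∧ ∀ N Y : ℝ, 1 ≤ N → 1 ≤ Y → Y ≤ C₁ * N →
      ∀ (m : Fin 3 → ℕ) (s t : Fin 3 → ℤ) (g : ℕ), Pts m s t g → 0 < g →
      ∀ S : Finset (ℕ × ℕ), (∀ x ∈ S, c₁ * N < x.1 ∧ (x.1 : ℝ) ≤ C₁ * N ∧ Y ≤ x.2 ∧
        (x.2 : ℝ) ≤ 2 * Y ∧ x.2 ∣ x.1 ^ 2 + 1 ∧
        ∀ i, (m i : ℤ) ∣ qf x.1 x.2 ((x.1 ^ 2 + 1) / x.2 : ℕ) (s i) (t i)) →
      (S.card : ℝ) ≤ K * N * (4 ^ (PS m).card * g / (m 0 * m 1 * m 2)) +
        K * (md (PS m) : ℝ) ^ 12 * (N * Y ^ (-(1 / 20) : ℝ)) := by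
  obtain ⟨Ct, hCt, htot⟩ := total c₁ C₁ hc hcC
  set L : ℝ := 4 + 4 * (c₁ + C₁) with hL
  have hL1 : 1 ≤ L := by rw [hL]; nlinarith
  obtain ⟨K, hK⟩ := hE L hL1
  refine ⟨Ct + |K| + 1, by positivity, ?_⟩
  intro N Y hN hY hYN m s t g H hg S hS
  have hN0 : 0 < N := by linarith
  have hY0 : 0 < Y := by linarith
  have hm0 : ∀ i, 0 < m i := fun i => Nat.pos_of_ne_zero (H.sqf i).ne_zero
  have hPS : ∀ p ∈ PS m, p.Prime := fun p hp => ((mem_PS H).mp hp).1
  set q : ℕ := md (PS m) with hq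
  have hq0 : 0 < q := by
    rw [hq, md]; exact prod_pos fun i _ => (hPS i i.2).pos
  haveI : NeZero q := ⟨hq0.ne'⟩
  have hBd := bd (L := L) (N := N) (Y := Y) hc hcC hL.ge hN hY
  set T₁ : ℝ → ℝ := fun _ => c₁ * N with hT1
  set T₂ : ℝ → ℝ := fun s => c₁ * N + C₁ * N * tent Y s with hT2
  obtain ⟨M, hM⟩ := exists_nat_ge (L ^ 4 * (N + 1) ^ 2)
  have hYL : Y ≤ L * N := hYN.trans (mul_le_mul_of_nonneg_right (by rw [hL]; linarith) hN0.le)
  have hEq := hK N Y hY hYL T₁ T₂ hBd M hM q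
  -- the admissible classes
  set A : Finset ((ZMod q × ZMod q) × (ZMod q × ZMod q)) :=
    (sl q).filter (fun z => ∀ i : PS m, LC m s t i (red (PS m) (PS_pairwise m) z i)) with hA
  -- the map
  have hex : ∀ x ∈ S, ∃ y : V × V, y ∈ fib 1 x.1 ∧ (nsq y.1).toNat = x.2 := by
    intro x hx
    obtain ⟨-, -, -, -, h5, -⟩ := hS x hx
    have h6 := card_fib_norm x.1 x.2 (Nat.mem_divisors.mpr ⟨h5, by positivity⟩)
    have h7 : ((fib 1 x.1).filter (fun y => (nsq y.1).toNat = x.2)).Nonempty := by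
      rw [← card_pos, h6]; norm_num
    obtain ⟨y, hy⟩ := h7
    exact ⟨y, (mem_filter.mp hy).1, (mem_filter.mp hy).2⟩
  choose! φ hφ1 hφ2 using hex
  have hprops : ∀ x ∈ S, dot (φ x).1 (φ x).2 = x.1 ∧ nsq (φ x).1 = x.2 ∧
      nsq (φ x).2 = ((x.1 ^ 2 + 1) / x.2 : ℕ) ∧ cross (φ x).1 (φ x).2 = -1 := by
    intro x hx
    have h1 := hφ1 x hx
    have h2 := hφ2 x hx
    have h3 := (mem_fib one_pos).mp h1
    have h4 := fib_one_toNat h1
    rw [h2] at h4
    have hx2 : 0 < x.2 := by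
      rcases Nat.eq_zero_or_pos x.2 with h | h
      · rw [h] at h4; simp at h4
      · exact h
    have h5 : (nsq (φ x).2).toNat = (x.1 ^ 2 + 1) / x.2 := by
      rw [← h4, Nat.mul_div_cancel_left _ hx2]
    refine ⟨h3.2, ?_, ?_, by simpa using h3.1⟩
    · rw [← h2, Int.toNat_of_nonneg (nsq_nonneg _)]
    · rw [← h5, Int.toNat_of_nonneg (nsq_nonneg _)]
  have hinj : Set.InjOn φ (S : Set (ℕ × ℕ)) := by
    intro x hx y hy hxy
    obtain ⟨h1, h2, -, -⟩ := hprops x hx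
    obtain ⟨h3, h4, -, -⟩ := hprops y hy
    rw [hxy] at h1 h2
    exact Prod.ext (by exact_mod_cast h1.symm.trans h3) (by exact_mod_cast h2.symm.trans h4)
  have hmaps : ∀ x ∈ S, φ x ∈ (pairs 1 M).filter (fun y => Reg T₁ T₂ y ∧ res q y ∈ A) := by
    intro x hx
    obtain ⟨h1, h2, h3, h4⟩ := hprops x hx
    obtain ⟨g1, g2, g3, g4, g5, g6⟩ := hS x hx
    rw [mem_filter]
    refine ⟨?_, ⟨?_, ?_⟩, ?_⟩
    · have hf := hφ1 x hx
      rw [fib, mem_filter] at hf
      refine pairs_mono ?_ hf.1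
      have : ((x.1 ^ 2 + 1 ^ 2 : ℕ) : ℝ) ≤ M := by
        refine le_trans ?_ hM
        push_cast
        have e1 : (x.1 : ℝ) ≤ L * N := g2.trans
          (mul_le_mul_of_nonneg_right (by rw [hL]; linarith) hN0.le)
        have e2 : (x.1 : ℝ) ^ 2 ≤ (L * N) ^ 2 := pow_le_pow_left₀ (Nat.cast_nonneg _) e1 2
        have e3 : (1 : ℝ) ≤ L ^ 2 := by nlinarith
        have e4 : L ^ 2 ≤ L ^ 4 := by nlinarith
        have e5 : 0 ≤ N ^ 2 := sq_nonneg N
        calc (x.1 : ℝ) ^ 2 + 1 ≤ L ^ 2 * N ^ 2 + L ^ 2 := by nlinarith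
          _ = L ^ 2 * (N ^ 2 + 1) := by ring
          _ ≤ L ^ 4 * (N + 1) ^ 2 := by
            refine mul_le_mul e4 (by nlinarith) (by positivity) (by positivity)
      exact_mod_cast this
    · rw [h1]; exact_mod_cast g1
    · rw [h1, h2]
      simp only [hT2]
      have : tent Y ((x.2 : ℤ) : ℝ) = 1 := by
        refine tent_one hY0 ?_ ?_ <;> push_cast <;> assumption
      rw [this]
      push_cast
      have : 0 ≤ c₁ * N := by positivity
      linarith
    · have hcr : (((φ x).1.1 : ZMod q)) * ((φ x).2.2 : ZMod q) -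
          ((φ x).1.2 : ZMod q) * ((φ x).2.1 : ZMod q) = -1 := by
        have := congrArg (fun z : ℤ => (z : ZMod q)) h4
        simp only [cross] at this
        push_cast at this
        exact this
      rw [hA, mem_filter]
      refine ⟨?_, ?_⟩
      · simp only [sl, mem_filter, mem_univ, true_and, res]
        exact hcr
      · intro i
        have hred : red (PS m) (PS_pairwise m) (res q (φ x)) i = res (i : ℕ) (φ x) := by
          have key : ∀ a : ℤ, (ZMod.prodEquivPi (fun i : PS m => (i : ℕ)) (PS_pairwise m)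
              ((a : ZMod (∏ i : PS m, (i : ℕ)))) : (i : PS m) → ZMod (i : ℕ)) i =
              (a : ZMod (i : ℕ)) := by
            intro a
            rw [map_intCast]
            rfl
          exact Prod.ext (Prod.ext (key _) (key _)) (Prod.ext (key _) (key _))
        rw [hred]
        refine ⟨?_, ?_⟩
        · have := congrArg (fun z : ℤ => (z : ZMod (i : ℕ))) h4
          simp only [cross] at this
          push_cast at this
          simp only [res]
          exact this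
        · intro j hj
          have h6 := g6 j
          have h7 : ((i : ℕ) : ℤ) ∣ qf x.1 x.2 ((x.1 ^ 2 + 1) / x.2 : ℕ) (s j) (t j) :=
            (Int.natCast_dvd_natCast.mpr hj).trans h6
          rw [← h1, ← h2, ← h3, qf_eq] at h7
          have h8 := (ZMod.intCast_zmod_eq_zero_iff_dvd _ (i : ℕ)).mpr h7
          simp only [qn, res]
          push_cast at h8
          exact h8
  have hcard : S.card ≤ ((pairs 1 M).filter (fun y => Reg T₁ T₂ y ∧ res q y ∈ A)).card :=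
    card_le_card_of_injOn φ hmaps hinj
  have hfib : ((pairs 1 M).filter (fun y => Reg T₁ T₂ y ∧ res q y ∈ A)).card =
      ∑ r ∈ A, ((pairs 1 M).filter (fun y => Reg T₁ T₂ y ∧ res q y = r)).card := by
    rw [card_eq_sum_card_fiberwise (f := res q) (t := A)]
    · refine sum_congr rfl fun r hr => ?_
      congr 1
      ext y
      simp only [mem_filter]
      constructor
      · rintro ⟨⟨a, b, c⟩, d⟩; exact ⟨a, b, d⟩
      · rintro ⟨a, b, d⟩; exact ⟨⟨a, b, by rw [d]; exact hr⟩, d⟩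
    · intro y hy
      exact (mem_filter.mp hy).2.2
  have hbound : (S.card : ℝ) ≤ ∑ r ∈ A,
      ((((pairs 1 M).filter (Reg T₁ T₂)).card : ℝ) / ((sl q).card : ℝ) +
        K * (q : ℝ) ^ 8 * N * Y ^ (-(1 / 20) : ℝ)) := by
    calc (S.card : ℝ) ≤ (((pairs 1 M).filter (fun y => Reg T₁ T₂ y ∧ res q y ∈ A)).card : ℝ) := by
          exact_mod_cast hcard
      _ = ∑ r ∈ A, (((pairs 1 M).filter (fun y => Reg T₁ T₂ y ∧ res q y = r)).card : ℝ) := by
          rw [hfib]; push_cast; rfl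
      _ ≤ _ := by
          refine sum_le_sum fun r hr => ?_
          have h1 := hEq r (mem_filter.mp hr).1
          have h2 := le_of_abs_le h1
          linarith
  rw [sum_const, nsmul_eq_mul] at hbound
  -- cardinalities
  have hAc := card_red_le H hg A (fun z hz i => (mem_filter.mp hz).2 i)
  have hsl := sl_card_ge q
  have hsqf : Squarefree q := by
    have : q = ∏ p ∈ PS m, p := by
      rw [hq, md]; exact Finset.prod_coe_sort (PS m) (fun i => i)
    rw [this]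
    exact (Finset.squarefree_prod_of_pairwise_isCoprime (fun a ha b hb hab =>
      (Nat.coprime_iff_isRelPrime.mp ((Nat.coprime_primes (hPS a ha) (hPS b hb)).mpr hab)))
      (fun p hp => (hPS p hp).squarefree))
  have hqpf : q.primeFactors = PS m := by
    have : q = ∏ p ∈ PS m, p := by
      rw [hq, md]; exact Finset.prod_coe_sort (PS m) (fun i => i)
    rw [this, Nat.primeFactors_prod hPS]
  have htt := totient_ge q hsqf
  rw [hqpf] at htt
  have hqR : (0 : ℝ) < q := by exact_mod_cast hq0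
  have hslpos : (0 : ℝ) < ((sl q).card : ℝ) := by
    have : (0 : ℝ) < (q.totient : ℝ) := by exact_mod_cast Nat.totient_pos.mpr hq0
    exact lt_of_lt_of_le (by positivity) hsl
  have hmpos : (0 : ℝ) < (m 0 : ℝ) * m 1 * m 2 := by
    have h0 : (0 : ℝ) < m 0 := by exact_mod_cast hm0 0
    have h1 : (0 : ℝ) < m 1 := by exact_mod_cast hm0 1
    have h2 : (0 : ℝ) < m 2 := by exact_mod_cast hm0 2
    positivity
  have hratio : (A.card : ℝ) / ((sl q).card : ℝ) ≤
      4 ^ (PS m).card * g / (m 0 * m 1 * m 2) := by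
    rw [div_le_div_iff₀ hslpos hmpos]
    have h1 : (q : ℝ) ^ 3 ≤ 2 ^ (PS m).card * ((sl q).card : ℝ) := by
      calc (q : ℝ) ^ 3 = q * (q : ℝ) ^ 2 := by ring
        _ ≤ (2 ^ (PS m).card * q.totient) * (q : ℝ) ^ 2 := by gcongr
        _ = 2 ^ (PS m).card * (q.totient * (q : ℝ) ^ 2) := by ring
        _ ≤ _ := by gcongr
    calc (A.card : ℝ) * (m 0 * m 1 * m 2) ≤ 2 ^ (PS m).card * (q : ℝ) ^ 3 * g := hAc
      _ ≤ 2 ^ (PS m).card * (2 ^ (PS m).card * ((sl q).card : ℝ)) * g := by gcongr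
      _ = 4 ^ (PS m).card * g * ((sl q).card : ℝ) := by
        have : (4 : ℝ) ^ (PS m).card = 2 ^ (PS m).card * 2 ^ (PS m).card := by
          rw [← mul_pow]; norm_num
        rw [this]; ring
  have hAq : (A.card : ℝ) ≤ (q : ℝ) ^ 4 := by
    have h1 : A.card ≤ (univ : Finset ((ZMod q × ZMod q) × (ZMod q × ZMod q))).card :=
      card_le_card (subset_univ _)
    rw [card_univ, Fintype.card_prod, Fintype.card_prod, ZMod.card] at h1
    calc (A.card : ℝ) ≤ ((q * q * (q * q) : ℕ) : ℝ) := by exact_mod_cast h1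
      _ = (q : ℝ) ^ 4 := by push_cast; ring
  have hTot := htot N Y hN hY M
  have hYp : 0 ≤ Y ^ (-(1 / 20) : ℝ) := Real.rpow_nonneg hY0.le _
  calc (S.card : ℝ) ≤ A.card * ((((pairs 1 M).filter (Reg T₁ T₂)).card : ℝ) / ((sl q).card : ℝ) +
        K * (q : ℝ) ^ 8 * N * Y ^ (-(1 / 20) : ℝ)) := hbound
    _ = (A.card / ((sl q).card : ℝ)) * (((pairs 1 M).filter (Reg T₁ T₂)).card : ℝ) +
        A.card * (K * (q : ℝ) ^ 8 * (N * Y ^ (-(1 / 20) : ℝ))) := by ring
    _ ≤ (4 ^ (PS m).card * g / (m 0 * m 1 * m 2)) * (Ct * N) +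
        (q : ℝ) ^ 4 * (|K| * (q : ℝ) ^ 8 * (N * Y ^ (-(1 / 20) : ℝ))) := by
        refine add_le_add ?_ ?_
        · exact mul_le_mul hratio hTot (Nat.cast_nonneg _) (by positivity)
        · refine (mul_le_mul_of_nonneg_left ?_ (Nat.cast_nonneg _)).trans
            (mul_le_mul_of_nonneg_right hAq (by positivity))
          gcongr
          exact le_abs_self K
    _ ≤ _ := by
        have e1 : 0 ≤ 4 ^ (PS m).card * (g : ℝ) / (m 0 * m 1 * m 2) * N := by positivity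
        have e2 : 0 ≤ (q : ℝ) ^ 12 * (N * Y ^ (-(1 / 20) : ℝ)) := by positivity
        have e3 := abs_nonneg K
        nlinarith

end Pool.Agent.Lib.MP391708.T1.NG
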