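import Pool.Agent.Lib.MP_391708_nt.T1.SpecC
import Pool.Agent.Lib.MP_391708_nt.Eqd.Loc

/-!
# T1, group NG: number of residue classes with isotropy conditions

For `r = (v, w)` modulo `q` with cross product `-1` the conditions are `|s v + t w|² = 0` modulo
the primes of some squarefree moduli.
-/

set_option autoImplicit false

namespace Pool.Agent.Lib.MP391708.T1.NG

open Finset
open Pool.Agent.Lib.MP391708.Eqd
open Pool.Agent.Lib.MP391708.Eqd.Loc

/-- `|s v + t w|²` -/
def qn {R : Type*} [CommRing R] (s t : R) (r : (R × R) × (R × R)) : R :=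
  (s * r.1.1 + t * r.2.1) ^ 2 + (s * r.1.2 + t * r.2.2) ^ 2

section field

variable {F : Type*} [Field F] [Fintype F] {ι : F}

/-- one isotropy condition -/
lemma card_one (hι : ι * ι = -1) (h2 : (2 : F) ≠ 0) (c : F) (hc : c ≠ 0) (s t : F)
    (hst : s ≠ 0 ∨ t ≠ 0) (Z : Finset ((F × F) × (F × F)))
    (hZ : ∀ z ∈ Z, qn s t z = 0 ∧ z.1.1 * z.2.2 - z.1.2 * z.2.1 = c) :
    Z.card ≤ 2 * (Fintype.card F * Fintype.card F) := by
  classical
  by_cases ht : t = 0
  · have hs : s ≠ 0 := hst.resolve_right (by simpa using ht)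
    let f : (F × F) × (F × F) → (F × F) × (F × F) := fun z => (z.2, (s * z.1.1, s * z.1.2))
    have hf : Function.Injective f := by
      intro z z' h
      have e1 : z.2 = z'.2 := congrArg Prod.fst h
      have e2 : s * z.1.1 = s * z'.1.1 := congrArg (fun x => x.2.1) h
      have e3 : s * z.1.2 = s * z'.1.2 := congrArg (fun x => x.2.2) h
      exact Prod.ext (Prod.ext (mul_left_cancel₀ hs e2) (mul_left_cancel₀ hs e3)) e1
    rw [← card_image_of_injective Z hf]
    refine card_in hι h2 (-(s * c)) (neg_ne_zero.mpr (mul_ne_zero hs hc)) _ ?_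
    intro z' hz'
    obtain ⟨z, hz, rfl⟩ := mem_image.mp hz'
    obtain ⟨h1, h3⟩ := hZ z hz
    simp only [qn, ht] at h1
    refine ⟨?_, ?_⟩
    · simp only [f]; linear_combination h1
    · simp only [f]; linear_combination (-s) * h3
  · let f : (F × F) × (F × F) → (F × F) × (F × F) :=
      fun z => (z.1, (s * z.1.1 + t * z.2.1, s * z.1.2 + t * z.2.2))
    have hf : Function.Injective f := by
      intro z z' h
      have e1 : z.1 = z'.1 := (Prod.ext_iff.mp h).1
      have e2 : s * z.1.1 + t * z.2.1 = s * z'.1.1 + t * z'.2.1 := congrArg (fun x => x.2.1) h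
      have e3 : s * z.1.2 + t * z.2.2 = s * z'.1.2 + t * z'.2.2 := congrArg (fun x => x.2.2) h
      rw [e1] at e2 e3
      exact Prod.ext e1 (Prod.ext (mul_left_cancel₀ ht (add_left_cancel e2))
        (mul_left_cancel₀ ht (add_left_cancel e3)))
    rw [← card_image_of_injective Z hf]
    refine card_in hι h2 (t * c) (mul_ne_zero ht hc) _ ?_
    intro z' hz'
    obtain ⟨z, hz, rfl⟩ := mem_image.mp hz'
    obtain ⟨h1, h3⟩ := hZ z hz
    simp only [qn] at h1
    refine ⟨?_, ?_⟩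
    · simp only [f]; linear_combination h1
    · simp only [f]; linear_combination t * h3

/-- two isotropy conditions at different points -/
lemma card_two (hι : ι * ι = -1) (h2 : (2 : F) ≠ 0) (c : F) (hc : c ≠ 0) (s t s' t' : F)
    (hst : s * t' - s' * t ≠ 0) (Z : Finset ((F × F) × (F × F)))
    (hZ : ∀ z ∈ Z, qn s t z = 0 ∧ qn s' t' z = 0 ∧ z.1.1 * z.2.2 - z.1.2 * z.2.1 = c) :
    Z.card ≤ 2 * Fintype.card F := by
  classical
  have hιne : ι ≠ 0 := by
    rintro rfl; simp at hι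
  let A : (F × F) × (F × F) → F × F := fun z => (s * z.1.1 + t * z.2.1, s * z.1.2 + t * z.2.2)
  let B : (F × F) × (F × F) → F × F :=
    fun z => (s' * z.1.1 + t' * z.2.1, s' * z.1.2 + t' * z.2.2)
  set k : F := -2 * ι * ((s * t' - s' * t) * c) with hk
  have hkne : k ≠ 0 := by
    rw [hk]
    exact mul_ne_zero (mul_ne_zero (neg_ne_zero.mpr h2) hιne) (mul_ne_zero hst hc)
  have hAB : ∀ z z' : (F × F) × (F × F), A z = A z' → B z = B z' → z = z' := by
    intro z z' h h'
    have e1 : s * z.1.1 + t * z.2.1 = s * z'.1.1 + t * z'.2.1 := congrArg Prod.fst h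
    have e2 : s * z.1.2 + t * z.2.2 = s * z'.1.2 + t * z'.2.2 := congrArg Prod.snd h
    have e3 : s' * z.1.1 + t' * z.2.1 = s' * z'.1.1 + t' * z'.2.1 := congrArg Prod.fst h'
    have e4 : s' * z.1.2 + t' * z.2.2 = s' * z'.1.2 + t' * z'.2.2 := congrArg Prod.snd h'
    refine Prod.ext (Prod.ext ?_ ?_) (Prod.ext ?_ ?_)
    · exact mul_left_cancel₀ hst (by linear_combination t' * e1 - t * e3)
    · exact mul_left_cancel₀ hst (by linear_combination t' * e2 - t * e4)
    · exact mul_left_cancel₀ hst (by linear_combination s * e3 - s' * e1)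
    · exact mul_left_cancel₀ hst (by linear_combination s * e4 - s' * e2)
  have hprop : ∀ z ∈ Z, (co ι (A z)).1 * (co ι (A z)).2 = 0 ∧
      (co ι (B z)).1 * (co ι (B z)).2 = 0 ∧
      (co ι (A z)).1 * (co ι (B z)).2 - (co ι (A z)).2 * (co ι (B z)).1 = k := by
    intro z hz
    obtain ⟨h1, h3, h4⟩ := hZ z hz
    refine ⟨?_, ?_, ?_⟩
    · rw [co_mul hι]; simpa only [qn, A] using h1
    · rw [co_mul hι]; simpa only [qn, B] using h3
    · rw [co_cross hι, hk]
      simp only [A, B]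
      linear_combination (-2 * ι * (s * t' - s' * t)) * h4
  let f : (F × F) × (F × F) → Bool × F := fun z =>
    if (co ι (A z)).1 = 0 then (true, (co ι (A z)).2) else (false, (co ι (A z)).1)
  have hT : (univ : Finset (Bool × F)).card = 2 * Fintype.card F := by
    rw [card_univ]; simp
  rw [← hT]
  refine card_le_card_of_injOn f (fun _ _ => mem_coe.mpr (mem_univ _)) ?_
  intro z hz z' hz' hzz
  obtain ⟨h1, h3, h4⟩ := hprop z hz
  obtain ⟨h1', h3', h4'⟩ := hprop z' hz'
  have hu : IsUnit (2 : F) := isUnit_iff_ne_zero.mpr h2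
  by_cases hy : (co ι (A z)).1 = 0
  · by_cases hy' : (co ι (A z')).1 = 0
    · simp only [f, hy, hy', if_true, Prod.mk.injEq, true_and] at hzz
      rw [hy, zero_mul, zero_sub] at h4
      rw [hy', zero_mul, zero_sub, ← hzz] at h4'
      have hne : (co ι (A z)).2 ≠ 0 := by
        intro h; rw [h, zero_mul, neg_zero] at h4; exact hkne h4.symm
      have e1 : (co ι (B z)).1 = (co ι (B z')).1 := by
        have := h4.trans h4'.symm
        exact mul_left_cancel₀ hne (neg_injective this)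
      have hb : (co ι (B z)).1 ≠ 0 := by
        intro h; rw [h, mul_zero, neg_zero] at h4; exact hkne h4.symm
      have e2 : (co ι (B z)).2 = 0 := (mul_eq_zero.mp h3).resolve_left hb
      have e3 : (co ι (B z')).2 = 0 := (mul_eq_zero.mp h3').resolve_left (e1 ▸ hb)
      exact hAB z z' (co_inj hι hu (Prod.ext (hy.trans hy'.symm) hzz))
        (co_inj hι hu (Prod.ext e1 (e2.trans e3.symm)))
    · simp [f, hy, hy'] at hzz
  · by_cases hy' : (co ι (A z')).1 = 0
    · simp [f, hy, hy'] at hzz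
    · simp only [f, hy, hy', if_false, Prod.mk.injEq, true_and] at hzz
      have g : (co ι (A z)).2 = 0 := (mul_eq_zero.mp h1).resolve_left hy
      have g' : (co ι (A z')).2 = 0 := (mul_eq_zero.mp h1').resolve_left hy'
      rw [g, zero_mul, sub_zero] at h4
      rw [g', zero_mul, sub_zero, ← hzz] at h4'
      have e1 : (co ι (B z)).2 = (co ι (B z')).2 := mul_left_cancel₀ hy (h4.trans h4'.symm)
      have hb : (co ι (B z)).2 ≠ 0 := by
        intro h; rw [h, mul_zero] at h4; exact hkne h4.symm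
      have e2 : (co ι (B z)).1 = 0 := (mul_eq_zero.mp h3).resolve_right hb
      have e3 : (co ι (B z')).1 = 0 := (mul_eq_zero.mp h3').resolve_right (e1 ▸ hb)
      exact hAB z z' (co_inj hι hu (Prod.ext hzz (g.trans g'.symm)))
        (co_inj hι hu (Prod.ext (e2.trans e3.symm) e1))

end field

/-! ### the local conditions at a prime -/

/-- the conditions `m i ∣ |s i v + t i w|²` at the prime `l` -/
def LC (m : Fin 3 → ℕ) (s t : Fin 3 → ℤ) (l : ℕ) (z : (ZMod l × ZMod l) × (ZMod l × ZMod l)) :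
    Prop :=
  z.1.1 * z.2.2 - z.1.2 * z.2.1 = -1 ∧ ∀ i, l ∣ m i → qn (s i : ZMod l) (t i : ZMod l) z = 0

/-- hypotheses on the moduli and the points: squarefree moduli with primes `1 mod 4`, points
primitive, at most two active at each prime, equal points only at primes dividing `g` -/
structure Pts (m : Fin 3 → ℕ) (s t : Fin 3 → ℤ) (g : ℕ) : Prop where
  sqf : ∀ i, Squarefree (m i)
  one : ∀ i, ∀ l : ℕ, l.Prime → l ∣ m i → l % 4 = 1
  prim : ∀ i, ∀ l : ℕ, l.Prime → l ∣ m i → ¬ ((l : ℤ) ∣ s i ∧ (l : ℤ) ∣ t i)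
  two : ∀ l : ℕ, l.Prime → ¬ (l ∣ m 0 ∧ l ∣ m 1 ∧ l ∣ m 2)
  dist : ∀ i j, i ≠ j → ∀ l : ℕ, l.Prime → l ∣ m i → l ∣ m j →
    (l : ℤ) ∣ s i * t j - s j * t i → l ∣ g

/-- number of active conditions -/
def act (m : Fin 3 → ℕ) (l : ℕ) : Finset (Fin 3) := univ.filter (fun i => l ∣ m i)

lemma two_ne {p : ℕ} (hp : p.Prime) (hp4 : p % 4 = 1) : (2 : ZMod p) ≠ 0 := by
  have : ((2 : ℕ) : ZMod p) ≠ 0 := by
    rw [Ne, ZMod.natCast_eq_zero_iff]
    intro h
    have := Nat.le_of_dvd (by norm_num) h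
    have := hp.two_le
    interval_cases p
    omega
  exact_mod_cast this

lemma card_LC {m : Fin 3 → ℕ} {s t : Fin 3 → ℤ} {g : ℕ} (H : Pts m s t g) {l : ℕ} (hl : l.Prime)
    (hm : ∃ i, l ∣ m i) (Z : Finset ((ZMod l × ZMod l) × (ZMod l × ZMod l)))
    (hZ : ∀ z ∈ Z, LC m s t l z) :
    (Z.card : ℝ) * ∏ _i ∈ act m l, (l : ℝ) ≤ 2 * (l : ℝ) ^ 3 * (if l ∣ g then (l : ℝ) else 1) := by
  obtain ⟨i, hi⟩ := hm
  have : Fact l.Prime := ⟨hl⟩
  have hl4 := H.one i l hl hi
  obtain ⟨ι, hι⟩ := exists_iota l hl4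
  have h2 := two_ne hl hl4
  have hc : (-1 : ZMod l) ≠ 0 := neg_ne_zero.mpr one_ne_zero
  have hl0 : (0 : ℝ) < l := by exact_mod_cast hl.pos
  have hl1 : (1 : ℝ) ≤ l := by exact_mod_cast hl.one_le
  have hprim : ∀ i, l ∣ m i → ((s i : ZMod l) ≠ 0 ∨ (t i : ZMod l) ≠ 0) := by
    intro i hi
    by_contra h
    push Not at h
    exact H.prim i l hl hi ⟨(ZMod.intCast_zmod_eq_zero_iff_dvd _ _).mp h.1,
      (ZMod.intCast_zmod_eq_zero_iff_dvd _ _).mp h.2⟩
  have h1 : (Z.card : ℝ) ≤ 2 * (l : ℝ) ^ 2 := by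
    have := card_one hι h2 (-1) hc (s i : ZMod l) (t i : ZMod l) (hprim i hi) Z
      (fun z hz => ⟨(hZ z hz).2 i hi, (hZ z hz).1⟩)
    rw [ZMod.card] at this
    calc (Z.card : ℝ) ≤ ((2 * (l * l) : ℕ) : ℝ) := by exact_mod_cast this
      _ = 2 * (l : ℝ) ^ 2 := by push_cast; ring
  have hact : (act m l).card ≤ 2 := by
    by_contra h
    have h3 : (act m l).card = 3 := by
      have : (act m l).card ≤ (univ : Finset (Fin 3)).card := card_filter_le _ _
      simp at this
      omega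
    have h4 : act m l = univ := by
      apply eq_univ_of_card
      simpa using h3
    have h5 : ∀ i, l ∣ m i := fun i => by
      have : i ∈ act m l := by rw [h4]; exact mem_univ _
      exact (mem_filter.mp this).2
    exact H.two l hl ⟨h5 0, h5 1, h5 2⟩
  have hG : (1 : ℝ) ≤ (if l ∣ g then (l : ℝ) else 1) := by split_ifs <;> simp [hl1]
  rw [prod_const]
  rcases Nat.lt_or_ge (act m l).card 2 with h | h
  · have hp : (l : ℝ) ^ (act m l).card ≤ l := by
      calc (l : ℝ) ^ (act m l).card ≤ (l : ℝ) ^ 1 := pow_le_pow_right₀ hl1 (by omega)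
        _ = l := pow_one _
    calc (Z.card : ℝ) * (l : ℝ) ^ (act m l).card ≤ (2 * (l : ℝ) ^ 2) * l := by gcongr
      _ = 2 * (l : ℝ) ^ 3 * 1 := by ring
      _ ≤ _ := by gcongr
  · have hc2 : (act m l).card = 2 := by omega
    obtain ⟨i, j, hij, he⟩ := card_eq_two.mp hc2
    have hi' : l ∣ m i := by
      have : i ∈ act m l := by rw [he]; simp
      exact (mem_filter.mp this).2
    have hj' : l ∣ m j := by
      have : j ∈ act m l := by rw [he]; simp
      exact (mem_filter.mp this).2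
    rw [hc2]
    by_cases hd : (l : ℤ) ∣ s i * t j - s j * t i
    · have hg : l ∣ g := H.dist i j hij l hl hi' hj' hd
      rw [if_pos hg]
      calc (Z.card : ℝ) * (l : ℝ) ^ 2 ≤ (2 * (l : ℝ) ^ 2) * (l : ℝ) ^ 2 := by gcongr
        _ = _ := by ring
    · have hne : (s i : ZMod l) * (t j : ZMod l) - (s j : ZMod l) * (t i : ZMod l) ≠ 0 := by
        intro h0
        apply hd
        rw [← ZMod.intCast_zmod_eq_zero_iff_dvd]
        push_cast
        exact h0
      have := card_two hι h2 (-1) hc (s i : ZMod l) (t i : ZMod l) (s j : ZMod l) (t j : ZMod l)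
        hne Z (fun z hz => ⟨(hZ z hz).2 i hi', (hZ z hz).2 j hj', (hZ z hz).1⟩)
      rw [ZMod.card] at this
      have h3 : (Z.card : ℝ) ≤ 2 * l := by exact_mod_cast this
      calc (Z.card : ℝ) * (l : ℝ) ^ 2 ≤ (2 * l) * (l : ℝ) ^ 2 := by gcongr
        _ = 2 * (l : ℝ) ^ 3 * 1 := by ring
        _ ≤ _ := by gcongr

/-! ### all primes -/

/-- the primes of the moduli -/
def PS (m : Fin 3 → ℕ) : Finset ℕ := (m 0 * m 1 * m 2).primeFactors

lemma PS_pairwise (m : Fin 3 → ℕ) : Pairwise (fun i j : PS m => Nat.Coprime (i : ℕ) (j : ℕ)) := by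
  intro i j hij
  have hi := (Nat.mem_primeFactors.mp i.2).1
  have hj := (Nat.mem_primeFactors.mp j.2).1
  exact (Nat.coprime_primes hi hj).mpr (fun h => hij (Subtype.ext h))

lemma mem_PS {m : Fin 3 → ℕ} {s t : Fin 3 → ℤ} {g : ℕ} (H : Pts m s t g) {l : ℕ} :
    l ∈ PS m ↔ l.Prime ∧ ∃ i, l ∣ m i := by
  have h0 : ∀ i, m i ≠ 0 := fun i => (H.sqf i).ne_zero
  unfold PS
  rw [Nat.mem_primeFactors]
  constructor
  · rintro ⟨hp, hd, -⟩
    refine ⟨hp, ?_⟩
    rcases (hp.dvd_mul.mp hd) with h | h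
    · rcases (hp.dvd_mul.mp h) with h | h
      · exact ⟨0, h⟩
      · exact ⟨1, h⟩
    · exact ⟨2, h⟩
  · rintro ⟨hp, i, hi⟩
    refine ⟨hp, ?_, mul_ne_zero (mul_ne_zero (h0 0) (h0 1)) (h0 2)⟩
    fin_cases i
    · exact (hi.mul_right _).mul_right _
    · exact (hi.mul_left _).mul_right _
    · exact hi.mul_left _

/-- the classes satisfying all conditions: upper bound -/
theorem card_red_le {m : Fin 3 → ℕ} {s t : Fin 3 → ℤ} {g : ℕ} (H : Pts m s t g) (hg : 0 < g)
    (R : Finset ((ZMod (md (PS m)) × ZMod (md (PS m))) × (ZMod (md (PS m)) × ZMod (md (PS m)))))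
    (hR : ∀ z ∈ R, ∀ i : PS m, LC m s t i (red (PS m) (PS_pairwise m) z i)) :
    (R.card : ℝ) * (m 0 * m 1 * m 2) ≤ 2 ^ (PS m).card * ((md (PS m) : ℕ) : ℝ) ^ 3 * g := by
  classical
  haveI : ∀ i : PS m, Fintype (ZMod (i : ℕ)) := fun i =>
    have : NeZero (i : ℕ) := ⟨((mem_PS H).mp i.2).1.ne_zero⟩
    ZMod.fintype _
  let T : (i : PS m) → Finset ((ZMod (i : ℕ) × ZMod (i : ℕ)) × (ZMod (i : ℕ) × ZMod (i : ℕ))) :=
    fun i => univ.filter (fun z => LC m s t i z)
  have h1 : R.card ≤ (Fintype.piFinset T).card := by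
    refine card_le_card_of_injOn (red (PS m) (PS_pairwise m)) ?_
      ((red_inj (PS m) (PS_pairwise m)).injOn)
    intro z hz
    rw [mem_coe, Fintype.mem_piFinset]
    intro i
    simp only [T, mem_filter, mem_univ, true_and]
    exact hR z hz i
  rw [Fintype.card_piFinset] at h1
  have h2 : (R.card : ℝ) ≤ ∏ i : PS m, ((T i).card : ℝ) := by exact_mod_cast h1
  -- the moduli as products over the primes
  have hm : ∀ j : Fin 3, (m j : ℝ) = ∏ i : PS m, (if (i : ℕ) ∣ m j then ((i : ℕ) : ℝ) else 1) := by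
    intro j
    rw [Finset.prod_coe_sort (PS m) (fun i => if i ∣ m j then (i : ℝ) else 1),
      ← Finset.prod_filter]
    have e : (PS m).filter (fun i => i ∣ m j) = (m j).primeFactors := by
      ext l
      rw [mem_filter, mem_PS H, Nat.mem_primeFactors]
      constructor
      · rintro ⟨⟨hp, -⟩, h⟩; exact ⟨hp, h, (H.sqf j).ne_zero⟩
      · rintro ⟨hp, h, -⟩; exact ⟨⟨hp, j, h⟩, h⟩
    rw [e, ← Nat.cast_prod, Nat.prod_primeFactors_of_squarefree (H.sqf j)]
  have hmm : ((m 0 : ℝ) * m 1 * m 2) = ∏ i : PS m, ∏ _j ∈ act m i, ((i : ℕ) : ℝ) := by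
    rw [hm 0, hm 1, hm 2, ← Finset.prod_mul_distrib, ← Finset.prod_mul_distrib]
    refine Finset.prod_congr rfl fun i _ => ?_
    unfold act
    rw [Finset.prod_filter, Fin.prod_univ_three]
  have hgg : ∏ i : PS m, (if (i : ℕ) ∣ g then ((i : ℕ) : ℝ) else 1) ≤ g := by
    rw [Finset.prod_coe_sort (PS m) (fun i => if i ∣ g then (i : ℝ) else 1),
      ← Finset.prod_filter, ← Nat.cast_prod]
    have : ∏ i ∈ (PS m).filter (fun i => i ∣ g), i ∣ g := by
      refine Finset.prod_primes_dvd g (fun l hl => ?_) (fun l hl => (mem_filter.mp hl).2)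
      exact ((mem_PS H).mp (mem_filter.mp hl).1).1.prime
    exact_mod_cast Nat.le_of_dvd hg this
  have hq : ((md (PS m) : ℕ) : ℝ) = ∏ i : PS m, ((i : ℕ) : ℝ) := by
    rw [md, Nat.cast_prod]
  have hcard : (2 : ℝ) ^ (PS m).card = ∏ _i : PS m, (2 : ℝ) := by
    rw [Finset.prod_const, card_univ, Fintype.card_coe]
  calc (R.card : ℝ) * (m 0 * m 1 * m 2)
      ≤ (∏ i : PS m, ((T i).card : ℝ)) * ∏ i : PS m, ∏ _j ∈ act m i, ((i : ℕ) : ℝ) := by
        rw [hmm]
        exact mul_le_mul_of_nonneg_right h2 (prod_nonneg fun _ _ => prod_nonneg fun _ _ => by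
          positivity)
    _ = ∏ i : PS m, (((T i).card : ℝ) * ∏ _j ∈ act m i, ((i : ℕ) : ℝ)) := by
        rw [Finset.prod_mul_distrib]
    _ ≤ ∏ i : PS m, (2 * ((i : ℕ) : ℝ) ^ 3 * (if (i : ℕ) ∣ g then ((i : ℕ) : ℝ) else 1)) := by
        refine Finset.prod_le_prod (fun i _ => by positivity) (fun i _ => ?_)
        obtain ⟨hp, hex⟩ := (mem_PS H).mp i.2
        refine card_LC H hp hex (T i) (fun z hz => ?_)
        simp only [T, mem_filter, mem_univ, true_and] at hz
        exact hz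
    _ = (2 ^ (PS m).card * ((md (PS m) : ℕ) : ℝ) ^ 3) *
        ∏ i : PS m, (if (i : ℕ) ∣ g then ((i : ℕ) : ℝ) else 1) := by
        rw [hcard, hq, ← Finset.prod_pow, ← Finset.prod_mul_distrib, ← Finset.prod_mul_distrib]
    _ ≤ _ := by gcongr

/-- lower bound for the number of classes -/
theorem sl_card_ge (q : ℕ) [NeZero q] : (q.totient : ℝ) * (q : ℝ) ^ 2 ≤ ((sl q).card : ℝ) := by
  classical
  let f : (ZMod q)ˣ × (ZMod q × ZMod q) → (ZMod q × ZMod q) × (ZMod q × ZMod q) :=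
    fun x => (((x.1 : ZMod q), x.2.1), (x.2.2, ((x.1⁻¹ : (ZMod q)ˣ) : ZMod q) *
      (x.2.1 * x.2.2 - 1)))
  have h : (univ : Finset ((ZMod q)ˣ × (ZMod q × ZMod q))).card ≤ (sl q).card := by
    refine card_le_card_of_injOn f ?_ ?_
    · intro x _
      simp only [sl, f, coe_filter, mem_univ, true_and, Set.mem_setOf_eq]
      have : (x.1 : ZMod q) * ((x.1⁻¹ : (ZMod q)ˣ) : ZMod q) = 1 := Units.mul_inv _
      linear_combination (x.2.1 * x.2.2 - 1) * this
    · intro x _ y _ hxy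
      have e1 : (x.1 : ZMod q) = y.1 := congrArg (fun z => z.1.1) hxy
      have e2 : x.2.1 = y.2.1 := congrArg (fun z => z.1.2) hxy
      have e3 : x.2.2 = y.2.2 := congrArg (fun z => z.2.1) hxy
      exact Prod.ext (Units.ext e1) (Prod.ext e2 e3)
  rw [card_univ, Fintype.card_prod, Fintype.card_prod, ZMod.card_units_eq_totient, ZMod.card] at h
  calc (q.totient : ℝ) * (q : ℝ) ^ 2 = ((q.totient * (q * q) : ℕ) : ℝ) := by push_cast; ring
    _ ≤ _ := by exact_mod_cast h

lemma totient_ge (q : ℕ) (hq : Squarefree q) : (q : ℝ) ≤ 2 ^ q.primeFactors.card * q.totient := by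
  have h := Nat.totient_mul_prod_primeFactors q
  have h1 : q.totient = ∏ p ∈ q.primeFactors, (p - 1) := by
    have h2 : ∏ p ∈ q.primeFactors, p = q := Nat.prod_primeFactors_of_squarefree hq
    rw [h2] at h
    have hq0 : 0 < q := Nat.pos_of_ne_zero hq.ne_zero
    rw [mul_comm] at h
    exact Nat.eq_of_mul_eq_mul_left hq0 h
  have h3 : (q : ℝ) = ∏ p ∈ q.primeFactors, (p : ℝ) := by
    rw [← Nat.cast_prod, Nat.prod_primeFactors_of_squarefree hq]
  rw [h1, Nat.cast_prod, ← Finset.prod_const, ← Finset.prod_mul_distrib]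
  conv_lhs => rw [h3]
  refine Finset.prod_le_prod (fun _ _ => by positivity) fun p hp => ?_
  have hp2 := (Nat.mem_primeFactors.mp hp).1.two_le
  rw [Nat.cast_sub (by omega)]
  have : (2 : ℝ) ≤ p := by exact_mod_cast hp2
  push_cast
  linarith

end Pool.Agent.Lib.MP391708.T1.NG
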