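import Pool.Agent.Lib.MP_391708_nt.T1.NGA2
import Pool.Agent.Lib.MP_391708_nt.T1.NGC

/-!
# T1, group NG: the conditions given by a pair of relations at the same `M`
-/

set_option autoImplicit false
set_option linter.constructorNameAsVariable false

namespace Pool.Agent.Lib.MP391708.T1.NG

open Finset
open Pool.Agent.Lib.MP391708.T4 (Prm Rl RG IsR small rM rG rP rQ rD rX F1 D2 ep PP zz W0 tame)

attribute [local irreducible] RG

/-- the radical -/
def rdl (n : ℕ) : ℕ := ∏ l ∈ n.primeFactors, l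

/-- the moduli -/
def mF (A B G G' X X' : ℕ) : Fin 3 → ℕ := ![rdl (A * B * G * G'), X, X' / Nat.gcd X' (A * B)]

/-- the first coordinates -/
def sF (A B G G' : ℕ) (D D' : ℤ) : Fin 3 → ℤ :=
  ![((∏ l ∈ (A * B * G * G').primeFactors.filter (fun l => ¬ l ∣ A), l : ℕ) : ℤ), D, B * D']

/-- the second coordinates -/
def tF (A : ℕ) : Fin 3 → ℤ := ![(A : ℤ), -1, -(A : ℤ)]

/-! ## the radical -/

lemma sqf_prod_primes (S : Finset ℕ) (hS : ∀ l ∈ S, l.Prime) : Squarefree (∏ l ∈ S, l) := by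
  induction S using Finset.induction_on with
  | empty => simp
  | insert a S ha ih =>
    rw [Finset.prod_insert ha]
    have h1 : a.Prime := hS a (Finset.mem_insert_self a S)
    have h2 : ∀ l ∈ S, l.Prime := fun l hl => hS l (Finset.mem_insert_of_mem hl)
    have h3 : Nat.Coprime a (∏ l ∈ S, l) := by
      refine Nat.Coprime.prod_right fun l hl => ?_
      refine (Nat.coprime_primes h1 (h2 l hl)).2 ?_
      rintro rfl
      exact ha hl
    exact (Nat.squarefree_mul h3).2 ⟨h1.prime.squarefree, ih h2⟩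

lemma dvd_prod_primes {S : Finset ℕ} (hS : ∀ l ∈ S, l.Prime) {l : ℕ} (hl : l.Prime) :
    l ∣ ∏ k ∈ S, k ↔ l ∈ S := by
  constructor
  · intro h
    obtain ⟨k, hk, hlk⟩ := (hl.prime.dvd_finsetProd_iff _).1 h
    rwa [(Nat.prime_dvd_prime_iff_eq hl (hS k hk)).1 hlk]
  · intro h
    exact Finset.dvd_prod_of_mem _ h

lemma sqf_rdl (n : ℕ) : Squarefree (rdl n) :=
  sqf_prod_primes _ fun _ hl => Nat.prime_of_mem_primeFactors hl

lemma dvd_rdl {n l : ℕ} (hl : l.Prime) : l ∣ rdl n ↔ l ∣ n ∧ n ≠ 0 := by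
  unfold rdl
  rw [dvd_prod_primes (fun _ h => Nat.prime_of_mem_primeFactors h) hl, Nat.mem_primeFactors]
  exact ⟨fun h => h.2, fun h => ⟨hl, h⟩⟩

/-! ## plain relations -/

/-- a relation in numbers -/
structure RelN (M G P Q X : ℕ) (D : ℤ) : Prop where
  G0 : 0 < G
  P0 : 0 < P
  Q0 : 0 < Q
  X0 : 0 < X
  mul : G * P * Q = M ^ 2 + 1
  dvd : D ∣ (X : ℤ) - G
  F : (X : ℤ) ∣ (P : ℤ) * D ^ 2 - 2 * M * D + G * Q
  cop : Nat.Coprime G X
  sG : Squarefree G
  sX : Squarefree X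
  cD : IsCoprime D (G : ℤ)
  oneG : ∀ l : ℕ, l.Prime → l ∣ G → l % 4 = 1
  oneX : ∀ l : ℕ, l.Prime → l ∣ X → l % 4 = 1

lemma mod4 {l : ℕ} (hl : l.Prime) (h2 : l ≠ 2) {x : ℤ} (h : (l : ℤ) ∣ x ^ 2 + 1) : l % 4 = 1 := by
  have := Fact.mk hl
  have h1 : ((x : ZMod l)) ^ 2 = -1 := by
    have h3 : ((x ^ 2 + 1 : ℤ) : ZMod l) = 0 := (ZMod.intCast_zmod_eq_zero_iff_dvd _ _).2 h
    push_cast at h3
    exact eq_neg_of_add_eq_zero_left h3
  have h3 := ZMod.mod_four_ne_three_of_sq_eq_neg_one h1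
  rcases hl.eq_two_or_odd with h4 | h4
  · exact absurd h4 h2
  · omega

lemma two_dvd_W0 {p : Prm} (hE : 2 ≤ p.E) : 2 ∣ W0 p := by
  unfold W0
  refine dvd_pow ?_ (by omega)
  exact (Nat.prime_two.dvd_primorial_iff).2 hE

lemma RG_rel {p : Prm} {N : ℕ} {r : Rl} (hE : 2 ≤ p.E) (hr : r ∈ RG p N) :
    RelN (rM r) (rG r) (rP r) (rQ r) (rX r) (rD r) := by
  classical
  rw [RG, mem_filter] at hr
  obtain ⟨g0, P0, q0, d0, x0, hm, hdv, hF, hcop⟩ := hr.2.1
  obtain ⟨-, -, hW, -⟩ := hr.2.2.1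
  have hsG := hr.2.2.2.2.2.2.2.2.2.2.1
  have hsX := hr.2.2.2.2.2.2.2.2.2.2.2.1
  have hcD := hr.2.2.2.2.2.2.2.2.2.2.2.2.1
  have hodd : ∀ l : ℕ, l ∣ rG r * rX r → l ≠ 2 := by
    rintro l hl rfl
    have h1 : 2 ∣ Nat.gcd (rG r * rX r) (W0 p) := Nat.dvd_gcd hl (two_dvd_W0 hE)
    rw [hW] at h1
    omega
  refine ⟨g0, P0, q0, x0, hm, hdv, ?_, hcop, hsG, hsX, hcD, ?_, ?_⟩
  · unfold F1 at hF
    exact hF
  · intro l hl hlG
    refine mod4 hl (hodd l (dvd_mul_of_dvd_left hlG _)) (x := rM r) ?_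
    have h1 : l ∣ rM r ^ 2 + 1 := by
      rw [← hm]
      exact dvd_mul_of_dvd_left (dvd_mul_of_dvd_left hlG _) _
    exact_mod_cast h1
  · intro l hl hlX
    refine mod4 hl (hodd l (dvd_mul_of_dvd_right hlX _)) (x := rD r * rP r - rM r) ?_
    have h1 : (l : ℤ) ∣ (rP r : ℤ) * F1 r :=
      dvd_mul_of_dvd_right ((Int.natCast_dvd_natCast.2 hlX).trans hF) _
    have h2 : (rP r : ℤ) * F1 r = (rD r * rP r - rM r) ^ 2 + 1 := by
      unfold F1
      have h3 : (rG r : ℤ) * rP r * rQ r = (rM r : ℤ) ^ 2 + 1 := by exact_mod_cast hm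
      linear_combination h3
    rwa [h2] at h1

/-- primes of the quotients are large -/
lemma prime_large {p : Prm} {P P' : ℕ} (hP : 0 < P) (hP' : 0 < P') (hep : ep p P = ep p P') {l : ℕ}
    (hl : l.Prime) (hd : l ∣ P / Nat.gcd P P') : p.E < l := by
  by_contra hle
  push Not at hle
  set g := Nat.gcd P P' with hg
  have hg0 : 0 < g := Nat.gcd_pos_of_pos_left _ hP
  have hPA : P = P / g * g := (Nat.div_mul_cancel (Nat.gcd_dvd_left P P')).symm
  have hPA' : P' = P' / g * g := (Nat.div_mul_cancel (Nat.gcd_dvd_right P P')).symm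
  have hA0 : P / g ≠ 0 := fun h0 => by rw [h0, zero_mul] at hPA; omega
  have hA'0 : P' / g ≠ 0 := fun h0 => by rw [h0, zero_mul] at hPA'; omega
  have hcop : Nat.Coprime (P / g) (P' / g) := Nat.coprime_div_gcd_div_gcd hg0
  have hlA' : ¬ l ∣ P' / g := fun h1 => by
    have := Nat.dvd_gcd hd h1
    rw [hcop] at this
    exact hl.one_lt.ne' (Nat.dvd_one.1 this)
  have h2 : P.factorization l = P'.factorization l := by
    rw [← ep_factorization p P l hl hle, ← ep_factorization p P' l hl hle, hep]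
  have e1 : P.factorization l = (P / g).factorization l + g.factorization l := by
    conv_lhs => rw [hPA]
    rw [Nat.factorization_mul hA0 hg0.ne', Finsupp.add_apply]
  have e2 : P'.factorization l = (P' / g).factorization l + g.factorization l := by
    conv_lhs => rw [hPA']
    rw [Nat.factorization_mul hA'0 hg0.ne', Finsupp.add_apply]
  rw [e1, e2, Nat.factorization_eq_zero_of_not_dvd hlA'] at h2
  have h3 := (hl.dvd_iff_one_le_factorization hA0).1 hd
  omega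

section

variable {M G P Q X G' P' Q' X' : ℕ} {D D' : ℤ}

lemma RelN.cDX (h : RelN M G P Q X D) : IsCoprime D (X : ℤ) := by
  obtain ⟨k, hk⟩ := h.dvd
  have h1 : (X : ℤ) = G + D * k := by linarith
  rw [h1]
  exact IsCoprime.add_mul_left_right h.cD k

lemma RelN.not_dvd_D (h : RelN M G P Q X D) {l : ℕ} (hl : l.Prime) (hlX : l ∣ X) :
    ¬ (l : ℤ) ∣ D := by
  intro hlD
  have h3 : IsCoprime (l : ℤ) (l : ℤ) :=
    (h.cDX.of_isCoprime_of_dvd_left hlD).of_isCoprime_of_dvd_right (Int.natCast_dvd_natCast.2 hlX)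
  exact (Nat.prime_iff_prime_int.1 hl).not_isUnit (isCoprime_self.1 h3)

/-- the pair with `A D ≠ B D'` -/
theorem pts_core (h : RelN M G P Q X D) (h' : RelN M G' P' Q' X' D') {A B V : ℕ}
    (hA : P = A * V) (hB : P' = B * V) (hV : 0 < V)
    (hone : ∀ l : ℕ, l.Prime → l ∣ A * B → l % 4 = 1) :
    Pts (mF A B G G' X X') (sF A B G G' D D') (tF A)
        (Nat.gcd (Nat.gcd X X') ((A : ℤ) * D - B * D').natAbs) ∧
      ∀ i, (mF A B G G' X X' i : ℤ) ∣ qf M P ((M ^ 2 + 1) / P : ℕ) (sF A B G G' D D' i) (tF A i) := by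
  have hA0 : A ≠ 0 := fun h0 => by
    have := h.P0
    rw [hA, h0, zero_mul] at this
    omega
  have hB0 : B ≠ 0 := fun h0 => by
    have := h'.P0
    rw [hB, h0, zero_mul] at this
    omega
  have hn0 : A * B * G * G' ≠ 0 :=
    mul_ne_zero (mul_ne_zero (mul_ne_zero hA0 hB0) h.G0.ne') h'.G0.ne'
  set S : Finset ℕ := (A * B * G * G').primeFactors.filter (fun l => ¬ l ∣ A) with hS
  have hSp : ∀ l ∈ S, l.Prime := fun l hl =>
    Nat.prime_of_mem_primeFactors (mem_filter.1 hl).1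
  set s0 : ℕ := ∏ l ∈ S, l with hs0
  have hs0A : ∀ l : ℕ, l.Prime → l ∣ A → ¬ l ∣ s0 := by
    intro l hl hlA hls
    have := (dvd_prod_primes hSp hl).1 hls
    exact (mem_filter.1 this).2 hlA
  have hs0n : ∀ l : ℕ, l.Prime → l ∣ A * B * G * G' → ¬ l ∣ A → l ∣ s0 := by
    intro l hl hln hlA
    refine (dvd_prod_primes hSp hl).2 (mem_filter.2 ⟨Nat.mem_primeFactors.2 ⟨hl, hln, hn0⟩, hlA⟩)
  -- the third modulus
  have hX'0 : X' ≠ 0 := h'.X0.ne'
  have hg0 : 0 < Nat.gcd X' (A * B) := Nat.gcd_pos_of_pos_left _ h'.X0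
  have hX'eq : X' / Nat.gcd X' (A * B) * Nat.gcd X' (A * B) = X' :=
    Nat.div_mul_cancel (Nat.gcd_dvd_left _ _)
  have hm2X : X' / Nat.gcd X' (A * B) ∣ X' := ⟨_, hX'eq.symm⟩
  have hm2 : ∀ l : ℕ, l.Prime → l ∣ X' / Nat.gcd X' (A * B) → ¬ l ∣ A * B := by
    intro l hl h1 h2
    have h3 : Nat.Coprime (X' / Nat.gcd X' (A * B)) (Nat.gcd X' (A * B)) := by
      refine Nat.coprime_of_squarefree_mul ?_
      rw [hX'eq]
      exact h'.sX
    have h4 : l ∣ Nat.gcd (X' / Nat.gcd X' (A * B)) (Nat.gcd X' (A * B)) :=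
      Nat.dvd_gcd h1 (Nat.dvd_gcd (h1.trans hm2X) h2)
    rw [h3] at h4
    exact hl.one_lt.ne' (Nat.dvd_one.1 h4)
  -- `W`
  have hW : (M ^ 2 + 1) / P = G * Q := by
    rw [← h.mul]
    have : G * P * Q = G * Q * P := by ring
    rw [this, Nat.mul_div_cancel _ h.P0]
  have hAW : A * (G * Q) = B * (G' * Q') := by
    have h1 : A * (G * Q) * V = B * (G' * Q') * V := by
      calc A * (G * Q) * V = G * (A * V) * Q := by ring
        _ = G' * (B * V) * Q' := by rw [← hA, ← hB, h.mul, h'.mul]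
        _ = B * (G' * Q') * V := by ring
    exact Nat.eq_of_mul_eq_mul_right hV h1
  have hlW : ∀ l : ℕ, l.Prime → l ∣ A * B * G * G' → ¬ l ∣ A → l ∣ G * Q := by
    intro l hl hln hlA
    have key : l ∣ A * (G * Q) → l ∣ G * Q := fun h1 =>
      (hl.dvd_mul.1 h1).resolve_left hlA
    rcases hl.dvd_mul.1 hln with h1 | h1
    · rcases hl.dvd_mul.1 h1 with h2 | h2
      · rcases hl.dvd_mul.1 h2 with h3 | h3
        · exact absurd h3 hlA
        · refine key ?_
          rw [hAW]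
          exact dvd_mul_of_dvd_left h3 _
      · exact dvd_mul_of_dvd_left h2 _
    · refine key ?_
      rw [hAW]
      exact dvd_mul_of_dvd_right (dvd_mul_of_dvd_left h1 _) _
  have m0 : mF A B G G' X X' 0 = rdl (A * B * G * G') := rfl
  have m1 : mF A B G G' X X' 1 = X := rfl
  have m2 : mF A B G G' X X' 2 = X' / Nat.gcd X' (A * B) := rfl
  have e0 : sF A B G G' D D' 0 = (s0 : ℤ) := rfl
  have e1 : sF A B G G' D D' 1 = D := rfl
  have e2 : sF A B G G' D D' 2 = B * D' := rfl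
  have t0 : tF A 0 = (A : ℤ) := rfl
  have t1 : tF A 1 = -1 := rfl
  have t2 : tF A 2 = -(A : ℤ) := rfl
  -- the three distances
  have d01 : ∀ l : ℕ, l.Prime → l ∣ rdl (A * B * G * G') → l ∣ X →
      ¬ (l : ℤ) ∣ (s0 : ℤ) * (-1) - D * (A : ℤ) := by
    intro l hl hl0 hlX hd
    have hln := ((dvd_rdl hl).1 hl0).1
    have hlp : Prime (l : ℤ) := Nat.prime_iff_prime_int.1 hl
    by_cases hlA : l ∣ A
    · apply hs0A l hl hlA
      have h1 : (l : ℤ) ∣ D * (A : ℤ) := dvd_mul_of_dvd_right (Int.natCast_dvd_natCast.2 hlA) _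
      have h2 : (l : ℤ) ∣ (s0 : ℤ) := by
        have h3 := dvd_add hd h1
        have h4 : (s0 : ℤ) * (-1) - D * (A : ℤ) + D * (A : ℤ) = -(s0 : ℤ) := by ring
        rw [h4] at h3
        exact (dvd_neg).1 h3
      exact_mod_cast h2
    · have h1 : (l : ℤ) ∣ (s0 : ℤ) * (-1) :=
        dvd_mul_of_dvd_left (Int.natCast_dvd_natCast.2 (hs0n l hl hln hlA)) _
      have h2 : (l : ℤ) ∣ D * (A : ℤ) := by
        have h3 := dvd_sub h1 hd
        have h4 : (s0 : ℤ) * (-1) - ((s0 : ℤ) * (-1) - D * (A : ℤ)) = D * A := by ring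
        rwa [h4] at h3
      rcases hlp.dvd_or_dvd h2 with h3 | h3
      · exact h.not_dvd_D hl hlX h3
      · exact hlA (Int.natCast_dvd_natCast.1 h3)
  have d02 : ∀ l : ℕ, l.Prime → l ∣ rdl (A * B * G * G') → l ∣ X' / Nat.gcd X' (A * B) →
      ¬ (l : ℤ) ∣ (s0 : ℤ) * (-(A : ℤ)) - B * D' * (A : ℤ) := by
    intro l hl hl0 hl2 hd
    have hln := ((dvd_rdl hl).1 hl0).1
    have hlp : Prime (l : ℤ) := Nat.prime_iff_prime_int.1 hl
    have hAB := hm2 l hl hl2
    have hlA : ¬ l ∣ A := fun h1 => hAB (dvd_mul_of_dvd_left h1 _)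
    have hlB : ¬ l ∣ B := fun h1 => hAB (dvd_mul_of_dvd_right h1 _)
    have h1 : (l : ℤ) ∣ (s0 : ℤ) * (-(A : ℤ)) :=
      dvd_mul_of_dvd_left (Int.natCast_dvd_natCast.2 (hs0n l hl hln hlA)) _
    have h2 : (l : ℤ) ∣ B * D' * (A : ℤ) := by
      have h3 := dvd_sub h1 hd
      have h4 : (s0 : ℤ) * (-(A : ℤ)) - ((s0 : ℤ) * (-(A : ℤ)) - B * D' * (A : ℤ)) =
          B * D' * (A : ℤ) := by ring
      rwa [h4] at h3
    rcases hlp.dvd_or_dvd h2 with h3 | h3
    · rcases hlp.dvd_or_dvd h3 with h4 | h4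
      · exact hlB (Int.natCast_dvd_natCast.1 h4)
      · exact h'.not_dvd_D hl (hl2.trans hm2X) h4
    · exact hlA (Int.natCast_dvd_natCast.1 h3)
  have d12 : ∀ l : ℕ, l.Prime → l ∣ X → l ∣ X' / Nat.gcd X' (A * B) →
      (l : ℤ) ∣ D * (-(A : ℤ)) - B * D' * (-1) →
      l ∣ Nat.gcd (Nat.gcd X X') ((A : ℤ) * D - B * D').natAbs := by
    intro l hl hlX hl2 hd
    refine Nat.dvd_gcd (Nat.dvd_gcd hlX (hl2.trans hm2X)) ?_
    rw [← Int.natCast_dvd]
    have h4 : D * (-(A : ℤ)) - B * D' * (-1) = -((A : ℤ) * D - B * D') := by ring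
    rw [h4] at hd
    exact (dvd_neg).1 hd
  refine ⟨⟨?_, ?_, ?_, ?_, ?_⟩, ?_⟩
  · -- squarefree
    intro i
    fin_cases i
    · exact sqf_rdl _
    · exact h.sX
    · exact h'.sX.squarefree_of_dvd hm2X
  · -- 1 mod 4
    intro i l hl hd
    fin_cases i
    · have hln := ((dvd_rdl hl).1 hd).1
      rcases hl.dvd_mul.1 hln with h1 | h1
      · rcases hl.dvd_mul.1 h1 with h2 | h2
        · exact hone l hl h2
        · exact h.oneG l hl h2
      · exact h'.oneG l hl h1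
    · exact h.oneX l hl hd
    · exact h'.oneX l hl (hd.trans hm2X)
  · -- primitive
    intro i l hl hd
    fin_cases i
    · rintro ⟨h1, h2⟩
      exact hs0A l hl (Int.natCast_dvd_natCast.1 h2) (Int.natCast_dvd_natCast.1 h1)
    · rintro ⟨-, h2⟩
      have h3 : (l : ℤ) ∣ -1 := h2
      rw [dvd_neg] at h3
      have h4 : l ∣ 1 := by exact_mod_cast h3
      exact hl.one_lt.ne' (Nat.dvd_one.1 h4)
    · rintro ⟨-, h2⟩
      have h3 : (l : ℤ) ∣ -(A : ℤ) := h2
      rw [dvd_neg] at h3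
      exact hm2 l hl hd (dvd_mul_of_dvd_left (Int.natCast_dvd_natCast.1 h3) _)
  · -- at most two
    rintro l hl ⟨h0, h1, h2⟩
    rw [m0] at h0
    rw [m1] at h1
    rw [m2] at h2
    have hln := ((dvd_rdl hl).1 h0).1
    have hAB := hm2 l hl h2
    rcases hl.dvd_mul.1 hln with h3 | h3
    · rcases hl.dvd_mul.1 h3 with h4 | h4
      · exact hAB h4
      · have := Nat.dvd_gcd h4 h1
        rw [h.cop] at this
        exact hl.one_lt.ne' (Nat.dvd_one.1 this)
    · have := Nat.dvd_gcd h3 (h2.trans hm2X)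
      rw [h'.cop] at this
      exact hl.one_lt.ne' (Nat.dvd_one.1 this)
  · -- distances
    intro i j hij l hl hi hj hd
    have hneg : ∀ a b : ℤ, (l : ℤ) ∣ a - b → (l : ℤ) ∣ b - a := fun a b h1 => by
      have := (dvd_neg).2 h1
      rwa [neg_sub] at this
    fin_cases i <;> fin_cases j
    · exact absurd rfl hij
    · exact absurd hd (d01 l hl hi hj)
    · exact absurd hd (d02 l hl hi hj)
    · exact absurd (hneg _ _ hd) (d01 l hl hj hi)
    · exact absurd rfl hij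
    · exact d12 l hl hi hj hd
    · exact absurd (hneg _ _ hd) (d02 l hl hj hi)
    · exact d12 l hl hj hi (hneg _ _ hd)
    · exact absurd rfl hij
  · -- divisibilities
    intro i
    rw [hW]
    fin_cases i
    · show ((rdl (A * B * G * G') : ℕ) : ℤ) ∣ qf M P (G * Q : ℕ) (s0 : ℤ) (A : ℤ)
      have key : ((rdl (A * B * G * G') : ℕ) : ℤ) ∣ qf M P (G * Q : ℕ) (s0 : ℤ) (A : ℤ) := by
        rw [Int.natCast_dvd]
        unfold rdl
        refine Finset.prod_primes_dvd _ (fun l hl => (Nat.prime_of_mem_primeFactors hl).prime) ?_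
        intro l hl
        obtain ⟨hlp, hln, -⟩ := Nat.mem_primeFactors.1 hl
        rw [← Int.natCast_dvd]
        unfold qf
        by_cases hlA : l ∣ A
        · have a1 : (l : ℤ) ∣ (A : ℤ) := Int.natCast_dvd_natCast.2 hlA
          have a2 : (l : ℤ) ∣ (P : ℤ) := by
            rw [hA]
            exact Int.natCast_dvd_natCast.2 (dvd_mul_of_dvd_left hlA _)
          refine dvd_add (dvd_add (dvd_mul_of_dvd_left a2 _) (dvd_mul_of_dvd_right a1 _)) ?_
          exact dvd_mul_of_dvd_right (dvd_pow a1 two_ne_zero) _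
        · have a1 : (l : ℤ) ∣ (s0 : ℤ) := Int.natCast_dvd_natCast.2 (hs0n l hlp hln hlA)
          have a2 : (l : ℤ) ∣ ((G * Q : ℕ) : ℤ) := Int.natCast_dvd_natCast.2 (hlW l hlp hln hlA)
          refine dvd_add (dvd_add ?_ ?_) (dvd_mul_of_dvd_left a2 _)
          · exact dvd_mul_of_dvd_right (dvd_pow a1 two_ne_zero) _
          · exact dvd_mul_of_dvd_left (dvd_mul_of_dvd_right a1 _) _
      exact key
    · show (X : ℤ) ∣ qf M P (G * Q : ℕ) D (-1)
      have h1 : qf M P (G * Q : ℕ) D (-1) = (P : ℤ) * D ^ 2 - 2 * M * D + G * Q := by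
        unfold qf
        push_cast
        ring
      rw [h1]
      exact h.F
    · show ((X' / Nat.gcd X' (A * B) : ℕ) : ℤ) ∣ qf M P (G * Q : ℕ) (B * D') (-(A : ℤ))
      have hPB : (P : ℤ) * B = A * P' := by
        rw [hA, hB]
        push_cast
        ring
      have hAWz : (A : ℤ) * (G * Q) = B * (G' * Q') := by exact_mod_cast hAW
      have h1 : qf M P (G * Q : ℕ) (B * D') (-(A : ℤ)) =
          (A : ℤ) * B * ((P' : ℤ) * D' ^ 2 - 2 * M * D' + G' * Q') := by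
        unfold qf
        push_cast
        linear_combination (B * D' ^ 2) * hPB + (A : ℤ) * hAWz
      rw [h1]
      exact dvd_mul_of_dvd_right ((Int.natCast_dvd_natCast.2 hm2X).trans h'.F) _

lemma sqf_lcm {a b : ℕ} (ha : Squarefree a) (hb : Squarefree b) : Squarefree (Nat.lcm a b) := by
  rw [Nat.squarefree_iff_prime_squarefree]
  intro l hl hd
  have ha0 := ha.ne_zero
  have hb0 := hb.ne_zero
  have h1 : 2 ≤ (Nat.lcm a b).factorization l := by
    rw [← Nat.Prime.pow_dvd_iff_le_factorization hl (Nat.lcm_ne_zero ha0 hb0), sq]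
    exact hd
  rw [Nat.factorization_lcm ha0 hb0, Finsupp.sup_apply] at h1
  have h2 := ha.natFactorization_le_one l
  have h3 := hb.natFactorization_le_one l
  have h4 : a.factorization l ⊔ b.factorization l ≤ 1 := sup_le h2 h3
  omega

/-- the pair with `P = P'`, `D = D'` -/
theorem pts_core0 (h : RelN M G P Q X D) (h' : RelN M G' P Q' X' D) :
    Pts ![Nat.lcm G G', Nat.lcm X X', 1] ![0, D, 1] ![1, -1, 0] 1 ∧
      ∀ i, ((![Nat.lcm G G', Nat.lcm X X', 1] : Fin 3 → ℕ) i : ℤ) ∣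
        qf M P ((M ^ 2 + 1) / P : ℕ) ((![0, D, 1] : Fin 3 → ℤ) i) ((![1, -1, 0] : Fin 3 → ℤ) i) := by
  have hlcm : ∀ {a b l : ℕ}, l.Prime → l ∣ Nat.lcm a b → l ∣ a ∨ l ∣ b := by
    intro a b l hl hd
    exact hl.dvd_mul.1 (hd.trans (Nat.lcm_dvd_mul a b))
  have hne1 : ∀ l : ℕ, l.Prime → ¬ l ∣ 1 := fun l hl h1 => hl.one_lt.ne' (Nat.dvd_one.1 h1)
  have hW : (M ^ 2 + 1) / P = G * Q := by
    rw [← h.mul]
    have : G * P * Q = G * Q * P := by ring
    rw [this, Nat.mul_div_cancel _ h.P0]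
  have hQQ : G * Q = G' * Q' := by
    have h1 : G * Q * P = G' * Q' * P := by
      calc G * Q * P = G * P * Q := by ring
        _ = G' * P * Q' := by rw [h.mul, h'.mul]
        _ = G' * Q' * P := by ring
    exact Nat.eq_of_mul_eq_mul_right h.P0 h1
  have hGD : ∀ l : ℕ, l.Prime → l ∣ Nat.lcm G G' → ¬ (l : ℤ) ∣ D := by
    intro l hl hd hlD
    have key : ∀ g : ℕ, IsCoprime D (g : ℤ) → l ∣ g → False := by
      intro g hc hlg
      have h3 : IsCoprime (l : ℤ) (l : ℤ) :=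
        (hc.of_isCoprime_of_dvd_left hlD).of_isCoprime_of_dvd_right (Int.natCast_dvd_natCast.2 hlg)
      exact (Nat.prime_iff_prime_int.1 hl).not_isUnit (isCoprime_self.1 h3)
    rcases hlcm hl hd with h1 | h1
    · exact key G h.cD h1
    · exact key G' h'.cD h1
  refine ⟨⟨?_, ?_, ?_, ?_, ?_⟩, ?_⟩
  · intro i
    fin_cases i
    · exact sqf_lcm h.sG h'.sG
    · exact sqf_lcm h.sX h'.sX
    · exact squarefree_one
  · intro i l hl hd
    fin_cases i
    · rcases hlcm hl hd with h1 | h1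
      · exact h.oneG l hl h1
      · exact h'.oneG l hl h1
    · rcases hlcm hl hd with h1 | h1
      · exact h.oneX l hl h1
      · exact h'.oneX l hl h1
    · exact absurd hd (hne1 l hl)
  · intro i l hl hd
    fin_cases i
    · rintro ⟨-, h2⟩
      have h3 : (l : ℤ) ∣ 1 := h2
      exact hne1 l hl (by exact_mod_cast h3)
    · rintro ⟨-, h2⟩
      have h3 : (l : ℤ) ∣ -1 := h2
      rw [dvd_neg] at h3
      exact hne1 l hl (by exact_mod_cast h3)
    · exact absurd hd (hne1 l hl)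
  · rintro l hl ⟨-, -, h2⟩
    exact hne1 l hl h2
  · intro i j hij l hl hi hj hd
    fin_cases i <;> fin_cases j
    · exact absurd rfl hij
    · have h1 : (l : ℤ) ∣ 0 * (-1) - D * 1 := hd
      have h2 : (0 : ℤ) * (-1) - D * 1 = -D := by ring
      rw [h2, dvd_neg] at h1
      exact absurd h1 (hGD l hl hi)
    · exact absurd hj (hne1 l hl)
    · have h1 : (l : ℤ) ∣ D * 1 - 0 * (-1) := hd
      have h2 : D * 1 - 0 * (-1) = D := by ring
      rw [h2] at h1
      exact absurd h1 (hGD l hl hj)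
    · exact absurd rfl hij
    · exact absurd hj (hne1 l hl)
    · exact absurd hi (hne1 l hl)
    · exact absurd hi (hne1 l hl)
    · exact absurd rfl hij
  · intro i
    rw [hW]
    fin_cases i
    · show ((Nat.lcm G G' : ℕ) : ℤ) ∣ qf M P (G * Q : ℕ) 0 1
      have h1 : qf M P (G * Q : ℕ) 0 1 = ((G * Q : ℕ) : ℤ) := by
        unfold qf
        ring
      rw [h1]
      refine Int.natCast_dvd_natCast.2 (Nat.lcm_dvd (dvd_mul_right _ _) ?_)
      rw [hQQ]
      exact dvd_mul_right _ _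
    · show ((Nat.lcm X X' : ℕ) : ℤ) ∣ qf M P (G * Q : ℕ) D (-1)
      have h1 : qf M P (G * Q : ℕ) D (-1) = (P : ℤ) * D ^ 2 - 2 * M * D + G * Q := by
        unfold qf
        push_cast
        ring
      have h2 : (G : ℤ) * Q = G' * Q' := by exact_mod_cast hQQ
      have h3 : (X' : ℤ) ∣ (P : ℤ) * D ^ 2 - 2 * M * D + G * Q := by
        rw [h2]
        exact h'.F
      rw [h1, Int.natCast_dvd]
      exact Nat.lcm_dvd (Int.natCast_dvd.1 h.F) (Int.natCast_dvd.1 h3)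
    · show ((1 : ℕ) : ℤ) ∣ _
      simp

end

/-- **the pair**, `A = P / gcd(P, P')`, `B = P' / gcd(P, P')` -/
theorem pair_pts {p : Prm} {N : ℕ} {r r' : Rl} (hE : 2 ≤ p.E) (hr : r ∈ RG p N) (hr' : r' ∈ RG p N)
    (hM : rM r = rM r') (hep : ep p (rP r) = ep p (rP r')) {A B : ℕ}
    (hA : A = rP r / Nat.gcd (rP r) (rP r')) (hB : B = rP r' / Nat.gcd (rP r) (rP r')) :
    Pts (mF A B (rG r) (rG r') (rX r) (rX r')) (sF A B (rG r) (rG r') (rD r) (rD r')) (tF A)
        (Nat.gcd (Nat.gcd (rX r) (rX r')) ((A : ℤ) * rD r - B * rD r').natAbs) ∧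
      ∀ i, (mF A B (rG r) (rG r') (rX r) (rX r') i : ℤ) ∣
        qf (rM r) (rP r) ((rM r ^ 2 + 1) / rP r : ℕ) (sF A B (rG r) (rG r') (rD r) (rD r') i)
          (tF A i) := by
  have h := @RG_rel p N r hE hr
  have h' := @RG_rel p N r' hE hr'
  rw [← hM] at h'
  set V := Nat.gcd (rP r) (rP r') with hV
  have hV0 : 0 < V := Nat.gcd_pos_of_pos_left _ h.P0
  have hPA : rP r = A * V := by rw [hA, Nat.div_mul_cancel (Nat.gcd_dvd_left _ _)]
  have hPB : rP r' = B * V := by rw [hB, Nat.div_mul_cancel (Nat.gcd_dvd_right _ _)]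
  refine pts_core h h' hPA hPB hV0 ?_
  intro l hl hd
  have key : ∀ P Q G : ℕ, G * P * Q = rM r ^ 2 + 1 → l ∣ P → p.E < l → l % 4 = 1 := by
    intro P Q G hm hlP hlE
    refine mod4 hl (by omega) (x := rM r) ?_
    have h1 : l ∣ rM r ^ 2 + 1 := by
      rw [← hm]
      exact dvd_mul_of_dvd_left (dvd_mul_of_dvd_right hlP _) _
    exact_mod_cast h1
  rcases hl.dvd_mul.1 hd with h1 | h1
  · refine key _ _ _ h.mul ?_ (prime_large h.P0 h'.P0 hep hl (by rw [← hV, ← hA]; exact h1))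
    rw [hPA]
    exact dvd_mul_of_dvd_left h1 _
  · refine key _ _ _ h'.mul ?_ (prime_large h'.P0 h.P0 hep.symm hl
      (by rw [Nat.gcd_comm, ← hV, ← hB]; exact h1))
    rw [hPB]
    exact dvd_mul_of_dvd_left h1 _

/-- **the pair** with `P = P'`, `D = D'` -/
theorem pair_pts0 {p : Prm} {N : ℕ} {r r' : Rl} (hE : 2 ≤ p.E) (hr : r ∈ RG p N)
    (hr' : r' ∈ RG p N) (hM : rM r = rM r') (hP : rP r = rP r') (hD : rD r = rD r') :
    Pts ![Nat.lcm (rG r) (rG r'), Nat.lcm (rX r) (rX r'), 1] ![0, rD r, 1] ![1, -1, 0] 1 ∧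
      ∀ i, ((![Nat.lcm (rG r) (rG r'), Nat.lcm (rX r) (rX r'), 1] : Fin 3 → ℕ) i : ℤ) ∣
        qf (rM r) (rP r) ((rM r ^ 2 + 1) / rP r : ℕ) ((![0, rD r, 1] : Fin 3 → ℤ) i)
          ((![1, -1, 0] : Fin 3 → ℤ) i) := by
  have h := @RG_rel p N r hE hr
  have h' := @RG_rel p N r' hE hr'
  rw [← hM, ← hP, ← hD] at h'
  exact pts_core0 h h'

/-- **sizes** -/
theorem pair_size {p : Prm} {N : ℕ} {r r' : Rl} (hE : 2 ≤ p.E) (hr : r ∈ RG p N)
    (hr' : r' ∈ RG p N) (hM : rM r = rM r') (hep : ep p (rP r) = ep p (rP r')) {Z : ℝ}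
    (hn : ∃ n n' : ℕ, 0 < n ∧ 0 < n' ∧ (n : ℝ) ≤ Z ∧ (n' : ℝ) ≤ Z ∧ rP r * n = rP r' * n') {A B : ℕ}
    (hA : A = rP r / Nat.gcd (rP r) (rP r')) (hB : B = rP r' / Nat.gcd (rP r) (rP r')) :
    0 < A ∧ 0 < B ∧ (A : ℝ) ≤ Z ∧ (B : ℝ) ≤ Z ∧ Nat.Coprime A B ∧ rP r * B = rP r' * A ∧
      ∀ c : ℕ, 1 ≤ c → 1 < zz p N → Z ≤ zz p N ^ c → A ∣ rdl A ^ c ∧ B ∣ rdl B ^ c := by
  classical
  have h := @RG_rel p N r hE hr
  have h' := @RG_rel p N r' hE hr'
  rw [← hM] at h'
  set V := Nat.gcd (rP r) (rP r') with hV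
  have hV0 : 0 < V := Nat.gcd_pos_of_pos_left _ h.P0
  have hPA : rP r = A * V := by rw [hA, Nat.div_mul_cancel (Nat.gcd_dvd_left _ _)]
  have hPB : rP r' = B * V := by rw [hB, Nat.div_mul_cancel (Nat.gcd_dvd_right _ _)]
  have hA0 : 0 < A := Nat.pos_of_ne_zero fun h0 => by
    have := h.P0
    rw [hPA, h0, zero_mul] at this
    omega
  have hB0 : 0 < B := Nat.pos_of_ne_zero fun h0 => by
    have := h'.P0
    rw [hPB, h0, zero_mul] at this
    omega
  have hcop : Nat.Coprime A B := by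
    rw [hA, hB]
    exact Nat.coprime_div_gcd_div_gcd hV0
  obtain ⟨n, n', hn0, hn0', hnZ, hnZ', hnn⟩ := hn
  have hAB : A * n = B * n' := by
    have h1 : A * n * V = B * n' * V := by
      calc A * n * V = A * V * n := by ring
        _ = B * V * n' := by rw [← hPA, ← hPB, hnn]
        _ = B * n' * V := by ring
    exact Nat.eq_of_mul_eq_mul_right hV0 h1
  have hAn : A ∣ n' := by
    have : A ∣ B * n' := by rw [← hAB]; exact dvd_mul_right _ _
    exact hcop.dvd_of_dvd_mul_left this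
  have hBn : B ∣ n := by
    have : B ∣ A * n := by rw [hAB]; exact dvd_mul_right _ _
    exact hcop.symm.dvd_of_dvd_mul_left this
  have hAZ : (A : ℝ) ≤ Z := (by exact_mod_cast Nat.le_of_dvd hn0' hAn : (A : ℝ) ≤ n').trans hnZ'
  have hBZ : (B : ℝ) ≤ Z := (by exact_mod_cast Nat.le_of_dvd hn0 hBn : (B : ℝ) ≤ n).trans hnZ
  refine ⟨hA0, hB0, hAZ, hBZ, hcop, by rw [hPA, hPB]; ring, ?_⟩
  intro c hc hz hZc
  rw [RG, mem_filter] at hr hr'
  have hPP := hr.2.2.2.2.2.2.2.2.2.2.2.2.2.2.1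
  -- the general statement
  have key : ∀ C P Q G : ℕ, 0 < C → (C : ℝ) ≤ Z → G * P * Q = rM r ^ 2 + 1 → C ∣ P →
      (∀ l : ℕ, l.Prime → l ∣ C → p.E < l) → C ∣ rdl C ^ c := by
    intro C P Q G hC0 hCZ hm hCP hlarge
    have hr0 : rdl C ≠ 0 := (sqf_rdl C).ne_zero
    rw [← Nat.factorization_le_iff_dvd hC0.ne' (pow_ne_zero _ hr0)]
    intro l
    by_cases hl : l.Prime
    swap
    · simp [Nat.factorization_eq_zero_of_not_prime _ hl]
    by_cases hlC : l ∣ C
    swap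
    · rw [Nat.factorization_eq_zero_of_not_dvd hlC]
      exact Nat.zero_le _
    have h1 : 1 ≤ (rdl C).factorization l :=
      (hl.dvd_iff_one_le_factorization hr0).1 ((dvd_rdl hl).2 ⟨hlC, hC0.ne'⟩)
    rw [Nat.factorization_pow, Finsupp.smul_apply, smul_eq_mul]
    have h2 : C.factorization l ≤ c := by
      have hlE := hlarge l hl hlC
      have hl4 : l % 4 = 1 := by
        refine mod4 hl (by omega) (x := rM r) ?_
        have h3 : l ∣ rM r ^ 2 + 1 := by
          rw [← hm]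
          exact dvd_mul_of_dvd_left (dvd_mul_of_dvd_right (hlC.trans hCP) _) _
        exact_mod_cast h3
      by_cases hlz : (l : ℝ) < zz p N
      · have hmem : l ∈ PP p N := by
          unfold PP
          rw [mem_filter, mem_range]
          exact ⟨Nat.lt_ceil.2 hlz, hl, hl4, hlE⟩
        have h3 := hPP l hmem
        by_contra h4
        push Not at h4
        apply h3
        rw [← hm]
        refine dvd_mul_of_dvd_left (dvd_mul_of_dvd_right (dvd_trans ?_ hCP) _) _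
        rw [Nat.Prime.pow_dvd_iff_le_factorization hl hC0.ne']
        omega
      · push Not at hlz
        have h3 : (l : ℝ) ^ C.factorization l ≤ (l : ℝ) ^ c := by
          have h4 : l ^ C.factorization l ≤ C := Nat.le_of_dvd hC0 (Nat.ordProj_dvd C l)
          calc (l : ℝ) ^ C.factorization l ≤ C := by exact_mod_cast h4
            _ ≤ Z := hCZ
            _ ≤ zz p N ^ c := hZc
            _ ≤ (l : ℝ) ^ c := pow_le_pow_left₀ (by linarith) hlz c
        exact (pow_le_pow_iff_right₀ (by exact_mod_cast hl.one_lt)).1 h3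
    calc C.factorization l ≤ c * 1 := by omega
      _ ≤ c * (rdl C).factorization l := Nat.mul_le_mul_left _ h1
  refine ⟨key A _ _ _ hA0 hAZ h.mul (by rw [hPA]; exact dvd_mul_right _ _) ?_,
    key B _ _ _ hB0 hBZ h'.mul (by rw [hPB]; exact dvd_mul_right _ _) ?_⟩
  · intro l hl hd
    exact prime_large h.P0 h'.P0 hep hl (by rw [← hV, ← hA]; exact hd)
  · intro l hl hd
    exact prime_large h'.P0 h.P0 hep.symm hl (by rw [Nat.gcd_comm, ← hV, ← hB]; exact hd)

end Pool.Agent.Lib.MP391708.T1.NG
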