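import Pool.Agent.Lib.MP_391708_nt.T1.NGP
import Pool.Agent.Lib.MP_391708_nt.Div

/-!
# T1, group NG: the sum over four variables of the reciprocal radical of the product
-/

set_option autoImplicit false

namespace Pool.Agent.Lib.MP391708.T1.NG

open Finset

lemma rdl_dvd (n : ℕ) : rdl n ∣ n := Nat.prod_primeFactors_dvd n

lemma rdl_dvd_rdl {m n : ℕ} (h : m ∣ n) (hn : n ≠ 0) : rdl m ∣ rdl n := by
  unfold rdl
  exact Finset.prod_dvd_prod_of_subset _ _ _ (Nat.primeFactors_mono h hn)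

lemma rdl_of_squarefree {n : ℕ} (h : Squarefree n) : rdl n = n :=
  Nat.prod_primeFactors_of_squarefree h

lemma rdl_pos (n : ℕ) : 0 < rdl n := Nat.pos_of_ne_zero (sqf_rdl n).ne_zero

/-- the sum of `1/m` -/
lemma sum_inv_le_log (V : ℕ) (hV : 1 ≤ V) :
    ∑ m ∈ Icc 1 V, (1 : ℝ) / m ≤ 1 + Real.log V := by
  have h := harmonic_floor_le_one_add_log (V : ℝ) (by exact_mod_cast hV)
  rw [Nat.floor_natCast, harmonic_eq_sum_Icc] at h
  push_cast at h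
  simpa using h

theorem sum_rdl (c : ℕ) (hc : 1 ≤ c) (η : ℝ) (h : 0 < η) : ∃ C : ℝ, 0 < C ∧ ∀ U : ℕ, 1 ≤ U →
    ∀ S : Finset (ℕ × ℕ × ℕ × ℕ), (∀ a ∈ S, 0 < a.1 ∧ a.1 ≤ U ∧ 0 < a.2.1 ∧ a.2.1 ≤ U ∧
      0 < a.2.2.1 ∧ a.2.2.1 ≤ U ∧ 0 < a.2.2.2 ∧ a.2.2.2 ≤ U ∧ a.1 ∣ (rdl a.1) ^ c ∧
      a.2.1 ∣ (rdl a.2.1) ^ c ∧ Squarefree a.2.2.1 ∧ Squarefree a.2.2.2) →
    ∑ a ∈ S, (1 : ℝ) / (rdl (a.1 * a.2.1 * a.2.2.1 * a.2.2.2) : ℕ) ≤ C * (U : ℝ) ^ η := by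
  have hcr : (1 : ℝ) ≤ c := by exact_mod_cast hc
  set δ : ℝ := η / (32 * c) with hδ
  have hδ0 : 0 < δ := by positivity
  obtain ⟨K, hK, hdiv⟩ := Pool.Agent.Lib.MP_391708_nt.Div.card_divisors_le_rpow δ hδ0
  have hη2 : 0 < η / 2 := by positivity
  refine ⟨K ^ 4 * (1 + 4 * (1 / (η / 2))), by positivity, fun U hU S hS => ?_⟩
  have hUr : (1 : ℝ) ≤ U := by exact_mod_cast hU
  have hU0 : (0 : ℝ) < U := by linarith
  -- the radical is at most `U ^ 4`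
  set g : ℕ × ℕ × ℕ × ℕ → ℕ := fun a => rdl (a.1 * a.2.1 * a.2.2.1 * a.2.2.2) with hg
  have hmaps : ∀ a ∈ S, g a ∈ Icc 1 (U ^ 4) := by
    intro a ha
    obtain ⟨h1, h2, h3, h4, h5, h6, h7, h8, -⟩ := hS a ha
    rw [mem_Icc]
    refine ⟨rdl_pos _, ?_⟩
    have h9 : 0 < a.1 * a.2.1 * a.2.2.1 * a.2.2.2 := by positivity
    calc g a ≤ a.1 * a.2.1 * a.2.2.1 * a.2.2.2 := Nat.le_of_dvd h9 (rdl_dvd _)
      _ ≤ U * U * U * U := by gcongr
      _ = U ^ 4 := by ring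
  -- the fibres
  have hfib : ∀ m ∈ Icc 1 (U ^ 4), ((S.filter (fun a => g a = m)).card : ℝ) ≤
      K ^ 4 * (U : ℝ) ^ (η / 2) := by
    intro m hm
    rw [mem_Icc] at hm
    have hsub : S.filter (fun a => g a = m) ⊆ (m ^ c).divisors ×ˢ (m ^ c).divisors ×ˢ
        (m ^ c).divisors ×ˢ (m ^ c).divisors := by
      intro a ha
      rw [mem_filter] at ha
      obtain ⟨haS, ham⟩ := ha
      obtain ⟨h1, h2, h3, h4, h5, h6, h7, h8, h9, h10, h11, h12⟩ := hS a haS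
      have hP : a.1 * a.2.1 * a.2.2.1 * a.2.2.2 ≠ 0 := by positivity
      have hm0 : m ^ c ≠ 0 := pow_ne_zero _ (by omega)
      have hsq : ∀ q : ℕ, Squarefree q → q ∣ a.1 * a.2.1 * a.2.2.1 * a.2.2.2 → q ∣ m ^ c := by
        intro q hq hqd
        have h13 := rdl_dvd_rdl hqd hP
        rw [rdl_of_squarefree hq] at h13
        rw [← ham]
        exact h13.trans (dvd_pow_self _ (by omega))
      have hpw : ∀ q : ℕ, q ∣ (rdl q) ^ c → q ∣ a.1 * a.2.1 * a.2.2.1 * a.2.2.2 → q ∣ m ^ c := by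
        intro q hq hqd
        have h13 := rdl_dvd_rdl hqd hP
        rw [← ham]
        exact hq.trans (pow_dvd_pow_of_dvd h13 c)
      rw [mem_product, mem_product, mem_product, Nat.mem_divisors, Nat.mem_divisors,
        Nat.mem_divisors, Nat.mem_divisors]
      refine ⟨⟨hpw _ h9 ?_, hm0⟩, ⟨hpw _ h10 ?_, hm0⟩, ⟨hsq _ h11 ?_, hm0⟩, ⟨hsq _ h12 ?_, hm0⟩⟩
      · exact ⟨a.2.1 * a.2.2.1 * a.2.2.2, by ring⟩
      · exact ⟨a.1 * a.2.2.1 * a.2.2.2, by ring⟩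
      · exact ⟨a.1 * a.2.1 * a.2.2.2, by ring⟩
      · exact ⟨a.1 * a.2.1 * a.2.2.1, by ring⟩
    have hcard := card_le_card hsub
    rw [card_product, card_product, card_product] at hcard
    have hcard' : ((S.filter (fun a => g a = m)).card : ℝ) ≤ ((m ^ c).divisors.card : ℝ) ^ 4 := by
      have : (((m ^ c).divisors.card * ((m ^ c).divisors.card * ((m ^ c).divisors.card *
        (m ^ c).divisors.card)) : ℕ) : ℝ) = ((m ^ c).divisors.card : ℝ) ^ 4 := by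
        push_cast; ring
      rw [← this]
      exact_mod_cast hcard
    refine hcard'.trans ?_
    have h14 : ((m ^ c).divisors.card : ℝ) ≤ K * (U : ℝ) ^ (4 * c * δ) := by
      refine (hdiv (m ^ c) (pow_pos (by omega) c)).trans ?_
      apply mul_le_mul_of_nonneg_left _ hK.le
      have h15 : ((m ^ c : ℕ) : ℝ) ≤ (U : ℝ) ^ (4 * c : ℝ) := by
        have h16 : (m : ℝ) ≤ (U : ℝ) ^ 4 := by exact_mod_cast hm.2
        push_cast
        calc (m : ℝ) ^ c ≤ ((U : ℝ) ^ 4) ^ c := pow_le_pow_left₀ (Nat.cast_nonneg _) h16 _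
          _ = (U : ℝ) ^ (4 * c) := by rw [← pow_mul]
          _ = (U : ℝ) ^ (4 * c : ℝ) := by
              rw [← Real.rpow_natCast]
              push_cast
              rfl
      calc ((m ^ c : ℕ) : ℝ) ^ δ ≤ ((U : ℝ) ^ (4 * c : ℝ)) ^ δ :=
            Real.rpow_le_rpow (Nat.cast_nonneg _) h15 hδ0.le
        _ = (U : ℝ) ^ (4 * c * δ) := by rw [← Real.rpow_mul hU0.le]
    calc ((m ^ c).divisors.card : ℝ) ^ 4 ≤ (K * (U : ℝ) ^ (4 * c * δ)) ^ 4 :=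
          pow_le_pow_left₀ (Nat.cast_nonneg _) h14 _
      _ = K ^ 4 * (U : ℝ) ^ (η / 2) := by
          rw [mul_pow, ← Real.rpow_natCast ((U : ℝ) ^ (4 * c * δ)), ← Real.rpow_mul hU0.le]
          congr 2
          rw [hδ]
          push_cast
          field_simp
          ring
  -- the sum
  have h1 : ∑ a ∈ S, (1 : ℝ) / (rdl (a.1 * a.2.1 * a.2.2.1 * a.2.2.2) : ℕ) =
      ∑ m ∈ Icc 1 (U ^ 4), ∑ a ∈ S.filter (fun a => g a = m), (1 : ℝ) / (g a : ℕ) :=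
    (sum_fiberwise_of_maps_to hmaps _).symm
  rw [h1]
  have h2 : ∀ m ∈ Icc 1 (U ^ 4), ∑ a ∈ S.filter (fun a => g a = m), (1 : ℝ) / (g a : ℕ) ≤
      K ^ 4 * (U : ℝ) ^ (η / 2) * (1 / (m : ℝ)) := by
    intro m hm
    have h3 : ∑ a ∈ S.filter (fun a => g a = m), (1 : ℝ) / (g a : ℕ) =
        ((S.filter (fun a => g a = m)).card : ℝ) * (1 / (m : ℝ)) := by
      rw [← nsmul_eq_mul, ← sum_const]
      refine sum_congr rfl fun a ha => ?_
      rw [(mem_filter.1 ha).2]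
    rw [h3]
    exact mul_le_mul_of_nonneg_right (hfib m hm) (by positivity)
  refine (sum_le_sum h2).trans ?_
  rw [← mul_sum]
  have h4 := sum_inv_le_log (U ^ 4) (Nat.one_le_pow _ _ (by omega))
  have h5 : Real.log ((U ^ 4 : ℕ) : ℝ) = 4 * Real.log U := by
    push_cast
    rw [Real.log_pow]
    push_cast
    rfl
  rw [h5] at h4
  have h6 : Real.log U ≤ (U : ℝ) ^ (η / 2) / (η / 2) := Real.log_le_rpow_div hU0.le hη2
  have h7 : (1 : ℝ) ≤ (U : ℝ) ^ (η / 2) := Real.one_le_rpow hUr hη2.le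
  have h8 : ∑ m ∈ Icc 1 (U ^ 4), (1 : ℝ) / m ≤ (1 + 4 * (1 / (η / 2))) * (U : ℝ) ^ (η / 2) := by
    refine h4.trans ?_
    have : (1 + 4 * (1 / (η / 2))) * (U : ℝ) ^ (η / 2) =
        (U : ℝ) ^ (η / 2) + 4 * ((U : ℝ) ^ (η / 2) / (η / 2)) := by ring
    rw [this]
    linarith
  calc K ^ 4 * (U : ℝ) ^ (η / 2) * ∑ m ∈ Icc 1 (U ^ 4), (1 : ℝ) / m ≤
      K ^ 4 * (U : ℝ) ^ (η / 2) * ((1 + 4 * (1 / (η / 2))) * (U : ℝ) ^ (η / 2)) :=
        mul_le_mul_of_nonneg_left h8 (by positivity)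
    _ = K ^ 4 * (1 + 4 * (1 / (η / 2))) * ((U : ℝ) ^ (η / 2) * (U : ℝ) ^ (η / 2)) := by ring
    _ = K ^ 4 * (1 + 4 * (1 / (η / 2))) * (U : ℝ) ^ η := by
        rw [← Real.rpow_add hU0]
        congr 2
        ring

end Pool.Agent.Lib.MP391708.T1.NG
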