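import Pool.Agent.Lib.MP_391708_nt.Div

/-!
# T1, group NG: sums over the small data, different slopes
-/

set_option autoImplicit false

namespace Pool.Agent.Lib.MP391708.T1.NG

open Finset
open scoped Classical

/-- the `X ≡ G mod D`, `l ∣ X`, in the window -/
def XS (D G l : ℕ) : Finset ℕ :=
  (Icc 1 (100 * G)).filter (fun X => G ≤ 100 * X ∧ (D : ℤ) ∣ (X : ℤ) - G ∧ Nat.Coprime D X ∧ l ∣ X)

lemma mem_XS {D G l X : ℕ} : X ∈ XS D G l ↔ 0 < X ∧ X ≤ 100 * G ∧ G ≤ 100 * X ∧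
    (D : ℤ) ∣ (X : ℤ) - G ∧ Nat.Coprime D X ∧ l ∣ X := by
  simp only [XS, mem_filter, mem_Icc]
  constructor
  · rintro ⟨⟨h1, h2⟩, h3, h4, h5, h6⟩; exact ⟨h1, h2, h3, h4, h5, h6⟩
  · rintro ⟨h1, h2, h3, h4, h5, h6⟩; exact ⟨⟨h1, h2⟩, h3, h4, h5, h6⟩

lemma ap_card {q B : ℕ} (S : Finset ℕ) (hB : ∀ X ∈ S, X ≤ B)
    (h : ∀ X ∈ S, ∀ X' ∈ S, X ≡ X' [MOD q]) : (S.card : ℝ) ≤ (B : ℝ) / q + 1 := by
  have h1 : S.card ≤ (range (B / q + 1)).card := by
    refine card_le_card_of_injOn (fun X => X / q) ?_ ?_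
    · intro X hX
      have := hB X hX
      simp only [coe_range, Set.mem_Iio]
      exact Nat.lt_succ_of_le (Nat.div_le_div_right this)
    · intro X hX X' hX' he
      have e := h X hX X' hX'
      rw [← Nat.div_add_mod X q, ← Nat.div_add_mod X' q]
      simp only at he
      rw [he, e]
  rw [card_range] at h1
  have h2 : ((B / q : ℕ) : ℝ) ≤ (B : ℝ) / q := Nat.cast_div_le
  have h3 : (S.card : ℝ) ≤ ((B / q + 1 : ℕ) : ℝ) := by exact_mod_cast h1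
  push_cast at h3
  linarith

lemma xs_card (D G l h : ℕ) :
    (((XS D G l).filter (fun X => h * l ∣ X)).card : ℝ) ≤ 100 * (G : ℝ) / (h * l * D) + 1 := by
  rcases ((XS D G l).filter (fun X => h * l ∣ X)).eq_empty_or_nonempty with he | ⟨X0, hX0⟩
  · rw [he]
    simp only [card_empty, Nat.cast_zero]
    positivity
  · have hco : Nat.Coprime (h * l) D := by
      obtain ⟨h1, h2⟩ := mem_filter.mp hX0
      have := (mem_XS.mp h1).2.2.2.2.1
      exact (Nat.Coprime.coprime_dvd_right h2 this).symm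
    have := ap_card (q := h * l * D) (B := 100 * G) ((XS D G l).filter (fun X => h * l ∣ X))
      (fun X hX => (mem_XS.mp (mem_filter.mp hX).1).2.1) ?_
    · push_cast at this; exact this
    · intro X hX X' hX'
      obtain ⟨h1, h2⟩ := mem_filter.mp hX
      obtain ⟨h1', h2'⟩ := mem_filter.mp hX'
      refine (Nat.modEq_and_modEq_iff_modEq_mul hco).mp ⟨?_, ?_⟩
      · exact ((Nat.modEq_zero_iff_dvd.mpr h2).trans (Nat.modEq_zero_iff_dvd.mpr h2').symm)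
      · rw [← Int.natCast_modEq_iff]
        apply Int.modEq_of_dvd
        have e1 := (mem_XS.mp h1).2.2.2.1
        have e2 := (mem_XS.mp h1').2.2.2.1
        have : ((X' : ℤ) - X) = ((X' : ℤ) - G) - ((X : ℤ) - G) := by ring
        rw [this]
        exact dvd_sub e2 e1

/-- the sum with a common divisor -/
noncomputable def SS (D G l H : ℕ) : ℝ := ∑ X ∈ XS D G l, (Nat.gcd (X / l) H : ℝ) / X

lemma SS_nonneg (D G l H : ℕ) : 0 ≤ SS D G l H := sum_nonneg fun _ _ => by positivity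

lemma SS_le (D G l H : ℕ) (hD : 0 < D) (hG : 0 < G) (hl : 0 < l) (hH : 0 < H) :
    SS D G l H ≤ (H.divisors.card : ℝ) * (10000 / ((l : ℝ) * D) + 100 * H / G) := by
  have hG' : (0 : ℝ) < G := by exact_mod_cast hG
  have hl' : (0 : ℝ) < l := by exact_mod_cast hl
  have hD' : (0 : ℝ) < D := by exact_mod_cast hD
  have h1 : SS D G l H ≤ ∑ X ∈ XS D G l, ∑ h ∈ H.divisors,
      (if h * l ∣ X then (h : ℝ) * (100 / G) else 0) := by
    refine sum_le_sum fun X hX => ?_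
    obtain ⟨h1, h2, h3, h4, h5, h6⟩ := mem_XS.mp hX
    have hX0 : (0 : ℝ) < X := by exact_mod_cast h1
    have hmem : Nat.gcd (X / l) H ∈ H.divisors :=
      Nat.mem_divisors.mpr ⟨Nat.gcd_dvd_right _ _, hH.ne'⟩
    have hd : Nat.gcd (X / l) H * l ∣ X := by
      obtain ⟨y, hy⟩ := h6
      rw [hy, Nat.mul_div_cancel_left y hl, mul_comm l y]
      exact Nat.mul_dvd_mul_right (Nat.gcd_dvd_left _ _) l
    have h7 : (Nat.gcd (X / l) H : ℝ) / X ≤ (Nat.gcd (X / l) H : ℝ) * (100 / G) := by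
      rw [div_eq_mul_inv]
      refine mul_le_mul_of_nonneg_left ?_ (Nat.cast_nonneg _)
      rw [inv_eq_one_div, div_le_div_iff₀ hX0 hG']
      have : (G : ℝ) ≤ 100 * X := by exact_mod_cast h3
      linarith
    refine h7.trans ?_
    have := single_le_sum (f := fun h => (if h * l ∣ X then (h : ℝ) * (100 / G) else 0))
      (fun h _ => by positivity) hmem
    simp only [hd, if_true] at this
    exact this
  refine h1.trans ?_
  rw [sum_comm]
  have h2 : ∀ h ∈ H.divisors, ∑ X ∈ XS D G l, (if h * l ∣ X then (h : ℝ) * (100 / G) else 0) ≤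
      10000 / ((l : ℝ) * D) + 100 * H / G := by
    intro h hh
    have hh0 : 0 < h := Nat.pos_of_mem_divisors hh
    have hh' : (0 : ℝ) < h := by exact_mod_cast hh0
    have hhH : (h : ℝ) ≤ H := by exact_mod_cast Nat.le_of_dvd hH (Nat.dvd_of_mem_divisors hh)
    rw [← sum_filter, sum_const, nsmul_eq_mul]
    have h3 := xs_card D G l h
    calc (((XS D G l).filter (fun X => h * l ∣ X)).card : ℝ) * ((h : ℝ) * (100 / G))
        ≤ (100 * (G : ℝ) / (h * l * D) + 1) * ((h : ℝ) * (100 / G)) :=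
          mul_le_mul_of_nonneg_right h3 (by positivity)
      _ = 10000 / ((l : ℝ) * D) + 100 * h / G := by field_simp; ring
      _ ≤ 10000 / ((l : ℝ) * D) + 100 * H / G := by gcongr
  calc ∑ h ∈ H.divisors, ∑ X ∈ XS D G l, (if h * l ∣ X then (h : ℝ) * (100 / G) else 0)
      ≤ ∑ _h ∈ H.divisors, (10000 / ((l : ℝ) * D) + 100 * H / G) := sum_le_sum h2
    _ = _ := by rw [sum_const, nsmul_eq_mul]

/-- the weight of the pair `(X, X')` -/
noncomputable def wt (A B : ℕ) (D D' : ℤ) (X X' : ℕ) : ℝ :=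
  (Nat.gcd (Nat.gcd X X') (A * D - B * D').natAbs : ℝ) * (Nat.gcd X' (A * B) : ℝ) / (X * X')

/-- the three kinds of coincidences -/
lemma wt_le {A B G G' : ℕ} {D D' : ℤ} {z X X' l : ℕ} (hAB : Nat.Coprime A B)
    (hA : 0 < A) (hB : 0 < B) (hG' : 0 < G')
    (hΔ : (A : ℤ) * D - B * D' ≠ 0)
    (hX : X ∈ XS D.natAbs G 1) (hX' : X' ∈ XS D'.natAbs G' 1) (hXG : Nat.Coprime X' G')
    (hl : l.Prime) (hz : z ≤ l) (h1 : l ∣ X) (h2 : l ∣ X' * G') :
    (l ∈ (G' * (A * B)).primeFactors.filter (fun l => z ≤ l) ∧ l ∣ X ∧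
      wt A B D D' X X' ≤ (Nat.gcd (X / l) (A * D - B * D').natAbs : ℝ) / X *
        ((Nat.gcd (X' / 1) (A * B) : ℝ) / X')) ∨
    (l ∈ ((A : ℤ) * D - B * D').natAbs.primeFactors.filter (fun l => z ≤ l) ∧ l ∣ X ∧ l ∣ X' ∧
      wt A B D D' X X' ≤ l * ((Nat.gcd (X / l) (A * D - B * D').natAbs : ℝ) / X *
        ((Nat.gcd (X' / l) (A * B) : ℝ) / X'))) ∨
    (l ∈ (Icc z (100 * G)) ∧ l ∣ X ∧ l ∣ X' ∧
      wt A B D D' X X' ≤ (Nat.gcd (X / l) (A * D - B * D').natAbs : ℝ) / X *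
        ((Nat.gcd (X' / l) (A * B) : ℝ) / X')) := by
  obtain ⟨x1, x2, x3, x4, x5, -⟩ := mem_XS.mp hX
  obtain ⟨y1, y2, y3, y4, y5, -⟩ := mem_XS.mp hX'
  have hx0 : (0 : ℝ) < X := by exact_mod_cast x1
  have hy0 : (0 : ℝ) < X' := by exact_mod_cast y1
  set Δ : ℕ := ((A : ℤ) * D - B * D').natAbs with hΔd
  have hΔ0 : 0 < Δ := Int.natAbs_pos.mpr hΔ
  have hlD : ¬ l ∣ D.natAbs := fun h => by
    have := Nat.dvd_gcd h h1
    rw [x5] at this
    exact hl.one_lt.ne' (Nat.dvd_one.mp this)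
  -- the general splittings
  have hg1 : ¬ l ∣ Nat.gcd (Nat.gcd X X') Δ →
      (Nat.gcd (Nat.gcd X X') Δ : ℝ) ≤ Nat.gcd (X / l) Δ := by
    intro h
    have hco : Nat.Coprime (Nat.gcd (Nat.gcd X X') Δ) l := (hl.coprime_iff_not_dvd.mpr h).symm
    have hd : Nat.gcd (Nat.gcd X X') Δ ∣ X := (Nat.gcd_dvd_left _ _).trans (Nat.gcd_dvd_left _ _)
    have hd2 : Nat.gcd (Nat.gcd X X') Δ ∣ X / l := by
      have hd' : Nat.gcd (Nat.gcd X X') Δ ∣ l * (X / l) := by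
        rw [Nat.mul_div_cancel' h1]; exact hd
      exact hco.dvd_of_dvd_mul_left hd'
    exact_mod_cast Nat.le_of_dvd (Nat.gcd_pos_of_pos_right _ hΔ0)
      (Nat.dvd_gcd hd2 (Nat.gcd_dvd_right _ _))
  have hwt : wt A B D D' X X' = (Nat.gcd (Nat.gcd X X') Δ : ℝ) / X *
      ((Nat.gcd X' (A * B) : ℝ) / X') := by
    rw [wt, ← hΔd, div_mul_div_comm]
  by_cases hc : l ∣ G' * (A * B)
  · left
    refine ⟨mem_filter.mpr ⟨Nat.mem_primeFactors.mpr ⟨hl, hc, by positivity⟩, hz⟩, h1, ?_⟩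
    have hng : ¬ l ∣ Nat.gcd (Nat.gcd X X') Δ := by
      intro h
      have hX'l : l ∣ X' := (h.trans (Nat.gcd_dvd_left _ _)).trans (Nat.gcd_dvd_right _ _)
      have hΔl : l ∣ Δ := h.trans (Nat.gcd_dvd_right _ _)
      have hlD' : ¬ l ∣ D'.natAbs := fun h => by
        have := Nat.dvd_gcd h hX'l
        rw [y5] at this
        exact hl.one_lt.ne' (Nat.dvd_one.mp this)
      have hΔz : (l : ℤ) ∣ (A : ℤ) * D - B * D' := Int.natCast_dvd.mpr hΔl
      have hlp : Prime (l : ℤ) := Nat.prime_iff_prime_int.mp hl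
      rcases hl.dvd_mul.mp hc with h' | h'
      · have := Nat.dvd_gcd hX'l h'
        rw [hXG] at this
        exact hl.one_lt.ne' (Nat.dvd_one.mp this)
      · rcases hl.dvd_mul.mp h' with h' | h'
        · have h3 : (l : ℤ) ∣ (B : ℤ) * D' := by
            have : (B : ℤ) * D' = A * D - ((A : ℤ) * D - B * D') := by ring
            rw [this]
            exact dvd_sub ((Int.natCast_dvd_natCast.mpr h').mul_right _) hΔz
          rcases hlp.dvd_or_dvd h3 with h4 | h4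
          · have := Nat.dvd_gcd h' (Int.natCast_dvd_natCast.mp h4)
            rw [hAB] at this
            exact hl.one_lt.ne' (Nat.dvd_one.mp this)
          · exact hlD' (Int.natCast_dvd.mp h4)
        · have h3 : (l : ℤ) ∣ (A : ℤ) * D := by
            have : (A : ℤ) * D = ((A : ℤ) * D - B * D') + B * D' := by ring
            rw [this]
            exact dvd_add hΔz ((Int.natCast_dvd_natCast.mpr h').mul_right _)
          rcases hlp.dvd_or_dvd h3 with h4 | h4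
          · have := Nat.dvd_gcd (Int.natCast_dvd_natCast.mp h4) h'
            rw [hAB] at this
            exact hl.one_lt.ne' (Nat.dvd_one.mp this)
          · exact hlD (Int.natCast_dvd.mp h4)
    rw [hwt, Nat.div_one]
    have := hg1 hng
    gcongr
  · have hX'l : l ∣ X' := by
      rcases hl.dvd_mul.mp h2 with h | h
      · exact h
      · exact absurd (h.mul_right _) hc
    have hlAB : ¬ l ∣ A * B := fun h => hc (h.mul_left _)
    have hgAB : Nat.gcd X' (A * B) = Nat.gcd (X' / l) (A * B) := by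
      conv_lhs => rw [← Nat.mul_div_cancel' hX'l]
      exact Nat.Coprime.gcd_mul_left_cancel _ (hl.coprime_iff_not_dvd.mpr hlAB)
    by_cases hΔl : l ∣ Δ
    · right; left
      refine ⟨mem_filter.mpr ⟨Nat.mem_primeFactors.mpr ⟨hl, hΔl, hΔ0.ne'⟩, hz⟩, h1, hX'l, ?_⟩
      rw [hwt, hgAB]
      have h3 : Nat.gcd (Nat.gcd X X') Δ ∣ l * Nat.gcd (X / l) Δ := by
        rw [← Nat.gcd_mul_left]
        refine Nat.dvd_gcd ?_ ?_
        · rw [Nat.mul_div_cancel' h1]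
          exact (Nat.gcd_dvd_left _ _).trans (Nat.gcd_dvd_left _ _)
        · exact (Nat.gcd_dvd_right _ _).mul_left _
      have h4 : (Nat.gcd (Nat.gcd X X') Δ : ℝ) ≤ l * Nat.gcd (X / l) Δ := by
        have := Nat.le_of_dvd (Nat.mul_pos hl.pos (Nat.gcd_pos_of_pos_right _ hΔ0)) h3
        exact_mod_cast this
      calc (Nat.gcd (Nat.gcd X X') Δ : ℝ) / X * ((Nat.gcd (X' / l) (A * B) : ℝ) / X')
          ≤ (l * Nat.gcd (X / l) Δ) / X * ((Nat.gcd (X' / l) (A * B) : ℝ) / X') := by gcongr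
        _ = _ := by ring
    · right; right
      refine ⟨mem_Icc.mpr ⟨hz, (Nat.le_of_dvd x1 h1).trans x2⟩, h1, hX'l, ?_⟩
      rw [hwt, hgAB]
      have := hg1 (fun h => hΔl (h.trans (Nat.gcd_dvd_right _ _)))
      gcongr

/-- a double sum over a subset of a product -/
lemma sum_prod_le {S : Finset (ℕ × ℕ)} {A B A' B' : Finset ℕ} {f g : ℕ → ℝ}
    (hS : ∀ x ∈ S, x.1 ∈ A ∧ x.2 ∈ B) (P Q : ℕ → Prop) [DecidablePred P]
    [DecidablePred Q] (hA : ∀ x ∈ A, P x → x ∈ A') (hB : ∀ x ∈ B, Q x → x ∈ B')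
    (hf : ∀ x, 0 ≤ f x) (hg : ∀ x, 0 ≤ g x) :
    ∑ x ∈ S, (if P x.1 ∧ Q x.2 then f x.1 * g x.2 else 0) ≤ (∑ x ∈ A', f x) * ∑ x ∈ B', g x := by
  rw [← sum_filter, sum_mul_sum, ← sum_product']
  refine sum_le_sum_of_subset_of_nonneg ?_ (fun x _ _ => mul_nonneg (hf _) (hg _))
  intro x hx
  obtain ⟨h1, h2, h3⟩ := mem_filter.mp hx
  obtain ⟨h4, h5⟩ := hS x h1
  exact mem_product.mpr ⟨hA _ h4 h2, hB _ h5 h3⟩

lemma XS_sub {D G l X : ℕ} (h : X ∈ XS D G 1) (hl : l ∣ X) : X ∈ XS D G l := by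
  obtain ⟨h1, h2, h3, h4, h5, -⟩ := mem_XS.mp h
  exact mem_XS.mpr ⟨h1, h2, h3, h4, h5, hl⟩

/-- the sum over `X`, `X'` -/
lemma inner_le {A B G G' : ℕ} {D D' : ℤ} {z : ℕ} (hAB : Nat.Coprime A B)
    (hA : 0 < A) (hB : 0 < B) (hG' : 0 < G')
    (hΔ : (A : ℤ) * D - B * D' ≠ 0) (S : Finset (ℕ × ℕ))
    (hS : ∀ x ∈ S, x.1 ∈ XS D.natAbs G 1 ∧ x.2 ∈ XS D'.natAbs G' 1 ∧ Nat.Coprime x.2 G' ∧
      ∃ l : ℕ, l.Prime ∧ z ≤ l ∧ l ∣ x.1 ∧ l ∣ x.2 * G') :
    ∑ x ∈ S, wt A B D D' x.1 x.2 ≤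
      ∑ l ∈ (G' * (A * B)).primeFactors.filter (fun l => z ≤ l),
        SS D.natAbs G l (A * D - B * D').natAbs * SS D'.natAbs G' 1 (A * B) +
      ∑ l ∈ ((A : ℤ) * D - B * D').natAbs.primeFactors.filter (fun l => z ≤ l),
        l * (SS D.natAbs G l (A * D - B * D').natAbs * SS D'.natAbs G' l (A * B)) +
      ∑ l ∈ Icc z (100 * G),
        SS D.natAbs G l (A * D - B * D').natAbs * SS D'.natAbs G' l (A * B) := by
  set Δ : ℕ := ((A : ℤ) * D - B * D').natAbs with hΔd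
  set f : ℕ → ℕ → ℝ := fun l X => (Nat.gcd (X / l) Δ : ℝ) / X with hf
  set g : ℕ → ℕ → ℝ := fun l X => (Nat.gcd (X / l) (A * B) : ℝ) / X with hg
  have hf0 : ∀ l x, 0 ≤ f l x := fun l x => by simp only [hf]; positivity
  have hg0 : ∀ l x, 0 ≤ g l x := fun l x => by simp only [hg]; positivity
  have h1 : ∀ x ∈ S, wt A B D D' x.1 x.2 ≤
      ∑ l ∈ (G' * (A * B)).primeFactors.filter (fun l => z ≤ l),
        (if l ∣ x.1 ∧ True then f l x.1 * g 1 x.2 else 0) +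
      ∑ l ∈ Δ.primeFactors.filter (fun l => z ≤ l),
        l * (if l ∣ x.1 ∧ l ∣ x.2 then f l x.1 * g l x.2 else 0) +
      ∑ l ∈ Icc z (100 * G), (if l ∣ x.1 ∧ l ∣ x.2 then f l x.1 * g l x.2 else 0) := by
    intro x hx
    obtain ⟨h1, h2, h3, l, hl, hz, h4, h5⟩ := hS x hx
    have n1 : ∀ l ∈ (G' * (A * B)).primeFactors.filter (fun l => z ≤ l),
        0 ≤ (if l ∣ x.1 ∧ True then f l x.1 * g 1 x.2 else 0) := fun l _ => by
      split_ifs
      · exact mul_nonneg (hf0 _ _) (hg0 _ _)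
      · exact le_rfl
    have n2 : ∀ l ∈ Δ.primeFactors.filter (fun l => z ≤ l),
        0 ≤ (l : ℝ) * (if l ∣ x.1 ∧ l ∣ x.2 then f l x.1 * g l x.2 else 0) := fun l _ => by
      refine mul_nonneg (Nat.cast_nonneg _) ?_
      split_ifs
      · exact mul_nonneg (hf0 _ _) (hg0 _ _)
      · exact le_rfl
    have n3 : ∀ l ∈ Icc z (100 * G),
        0 ≤ (if l ∣ x.1 ∧ l ∣ x.2 then f l x.1 * g l x.2 else 0) := fun l _ => by
      split_ifs
      · exact mul_nonneg (hf0 _ _) (hg0 _ _)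
      · exact le_rfl
    have s1 := sum_nonneg n1
    have s2 := sum_nonneg n2
    have s3 := sum_nonneg n3
    rcases wt_le hAB hA hB hG' hΔ h1 h2 h3 hl hz h4 h5 with ⟨a1, a2, a3⟩ | ⟨a1, a2, a4, a3⟩ |
      ⟨a1, a2, a4, a3⟩
    · have := single_le_sum n1 a1
      simp only [a2, and_self, if_true] at this
      have h6 : wt A B D D' x.1 x.2 ≤ f l x.1 * g 1 x.2 := a3
      linarith
    · have := single_le_sum n2 a1
      simp only [a2, a4, and_self, if_true] at this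
      have h6 : wt A B D D' x.1 x.2 ≤ l * (f l x.1 * g l x.2) := a3
      linarith
    · have := single_le_sum n3 a1
      simp only [a2, a4, and_self, if_true] at this
      have h6 : wt A B D D' x.1 x.2 ≤ f l x.1 * g l x.2 := a3
      linarith
  refine (sum_le_sum h1).trans ?_
  rw [sum_add_distrib, sum_add_distrib, sum_comm (s := S), sum_comm (s := S), sum_comm (s := S)]
  have hSA : ∀ x ∈ S, x.1 ∈ XS D.natAbs G 1 ∧ x.2 ∈ XS D'.natAbs G' 1 :=
    fun x hx => ⟨(hS x hx).1, (hS x hx).2.1⟩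
  refine add_le_add (add_le_add (sum_le_sum fun l _ => ?_) (sum_le_sum fun l _ => ?_))
    (sum_le_sum fun l _ => ?_)
  · exact sum_prod_le hSA (fun y => l ∣ y) (fun _ => True) (fun y h1 h2 => XS_sub h1 h2)
      (fun y h1 _ => h1) (hf0 l) (hg0 1)
  · rw [← mul_sum]
    exact mul_le_mul_of_nonneg_left (sum_prod_le hSA (fun y => l ∣ y) (fun y => l ∣ y)
      (fun y h1 h2 => XS_sub h1 h2) (fun y h1 h2 => XS_sub h1 h2) (hf0 l) (hg0 l))
      (Nat.cast_nonneg _)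
  · exact sum_prod_le hSA (fun y => l ∣ y) (fun y => l ∣ y)
      (fun y h1 h2 => XS_sub h1 h2) (fun y h1 h2 => XS_sub h1 h2) (hf0 l) (hg0 l)

lemma sum_inv_le (z B : ℕ) (hz : 1 ≤ z) : ∑ l ∈ Icc z B, (1 : ℝ) / l ≤ 1 + Real.log B := by
  have h1 : ∑ l ∈ Icc z B, (1 : ℝ) / l ≤ ∑ l ∈ Icc 1 B, (1 : ℝ) / l :=
    sum_le_sum_of_subset_of_nonneg (Icc_subset_Icc hz le_rfl) fun _ _ _ => by positivity
  have h2 : ∑ l ∈ Icc 1 B, (1 : ℝ) / l = ((harmonic B : ℚ) : ℝ) := by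
    rw [harmonic_eq_sum_Icc]
    push_cast
    exact sum_congr rfl fun i _ => one_div _
  rw [h2] at h1
  exact h1.trans (harmonic_le_one_add_log B)

lemma sum_inv_sq_le (z B : ℕ) (hz : 1 ≤ z) : ∑ l ∈ Icc z B, (1 : ℝ) / (l : ℝ) ^ 2 ≤ 2 / z := by
  have h := sum_Ioo_inv_sq_le (α := ℝ) (z - 1) (B + 1)
  have h1 : Ioo (z - 1) (B + 1) = Icc z B := by
    ext l; simp only [mem_Ioo, mem_Icc]; omega
  rw [h1] at h
  have h2 : (((z - 1 : ℕ) : ℝ) + 1) = z := by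
    rw [Nat.cast_sub hz]; push_cast; ring
  rw [h2] at h
  refine le_trans (le_of_eq (sum_congr rfl fun i _ => one_div _)) h

/-- the inner sum: numerical bound -/
lemma inner_num {A B G G' Dm G0 B0 : ℕ} {D D' : ℤ} {z : ℕ} {T L : ℝ} (hAB : Nat.Coprime A B)
    (hA : 0 < A) (hB : 0 < B) (hAm : A ≤ Dm) (hBm : B ≤ Dm) (hG0 : 0 < G0) (hG : G0 ≤ G)
    (hG' : G0 ≤ G') (hDm : 200 * Dm ^ 2 ≤ G0) (hD0 : D ≠ 0) (hD0' : D' ≠ 0)
    (hD : D.natAbs ≤ Dm) (hD' : D'.natAbs ≤ Dm) (hz : 2 ≤ z)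
    (hΔ : (A : ℤ) * D - B * D' ≠ 0) (hT : 1 ≤ T)
    (hTn : ∀ n : ℕ, 0 < n → n ≤ B0 → (n.divisors.card : ℝ) ≤ T) (hB0 : G' * (A * B) ≤ B0)
    (hB1 : 2 * Dm ^ 2 ≤ B0) (hL : 1 + Real.log (100 * G) ≤ L) (hL1 : 1 ≤ L)
    (S : Finset (ℕ × ℕ))
    (hS : ∀ x ∈ S, x.1 ∈ XS D.natAbs G 1 ∧ x.2 ∈ XS D'.natAbs G' 1 ∧ Nat.Coprime x.2 G' ∧
      ∃ l : ℕ, l.Prime ∧ z ≤ l ∧ l ∣ x.1 ∧ l ∣ x.2 * G') :
    ∑ x ∈ S, wt A B D D' x.1 x.2 ≤
      T ^ 3 * L * (4 * 10 ^ 8 / (z * D.natAbs * D'.natAbs) + 2 * 10 ^ 7 * (Dm : ℝ) ^ 4 / G0) := by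
  have hGp : 0 < G := lt_of_lt_of_le hG0 hG
  have hGp' : 0 < G' := lt_of_lt_of_le hG0 hG'
  refine (inner_le (z := z) hAB hA hB hGp' hΔ S hS).trans ?_
  set Δ : ℕ := ((A : ℤ) * D - B * D').natAbs with hΔd
  have hΔ0 : 0 < Δ := Int.natAbs_pos.mpr hΔ
  set d : ℝ := (D.natAbs : ℝ) with hd
  set d' : ℝ := (D'.natAbs : ℝ) with hd'
  have hDp : 0 < D.natAbs := Int.natAbs_pos.mpr hD0
  have hDp' : 0 < D'.natAbs := Int.natAbs_pos.mpr hD0'
  have d1 : 1 ≤ d := by rw [hd]; exact_mod_cast hDp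
  have d1' : 1 ≤ d' := by rw [hd']; exact_mod_cast hDp'
  have hm1 : (1 : ℝ) ≤ Dm := by exact_mod_cast (lt_of_lt_of_le hA hAm)
  have hm2 : (1 : ℝ) ≤ (Dm : ℝ) ^ 2 := one_le_pow₀ hm1
  have hG0r : (0 : ℝ) < G0 := by exact_mod_cast hG0
  have hGr : (G0 : ℝ) ≤ G := by exact_mod_cast hG
  have hGr' : (G0 : ℝ) ≤ G' := by exact_mod_cast hG'
  have hGpr : (0 : ℝ) < G := by exact_mod_cast hGp
  have hGpr' : (0 : ℝ) < G' := by exact_mod_cast hGp'
  have hzr : (2 : ℝ) ≤ z := by exact_mod_cast hz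
  have hz0 : (0 : ℝ) < z := by linarith
  have hT0 : (0 : ℝ) < T := by linarith
  -- sizes
  have hΔm : Δ ≤ 2 * Dm ^ 2 := by
    have h1 : Δ ≤ ((A : ℤ) * D).natAbs + ((B : ℤ) * D').natAbs := Int.natAbs_sub_le _ _
    rw [Int.natAbs_mul, Int.natAbs_mul, Int.natAbs_natCast, Int.natAbs_natCast] at h1
    have h2 : A * D.natAbs ≤ Dm * Dm := Nat.mul_le_mul hAm hD
    have h3 : B * D'.natAbs ≤ Dm * Dm := Nat.mul_le_mul hBm hD'
    nlinarith
  have hΔr : (Δ : ℝ) ≤ 2 * (Dm : ℝ) ^ 2 := by exact_mod_cast hΔm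
  have hABm : A * B ≤ Dm ^ 2 := by
    have := Nat.mul_le_mul hAm hBm
    nlinarith
  have hABr : ((A * B : ℕ) : ℝ) ≤ (Dm : ℝ) ^ 2 := by exact_mod_cast hABm
  have hABp : 0 < A * B := Nat.mul_pos hA hB
  have tΔ : (Δ.divisors.card : ℝ) ≤ T := hTn Δ hΔ0 (hΔm.trans hB1)
  have tAB : ((A * B).divisors.card : ℝ) ≤ T := hTn _ hABp
    ((Nat.le_mul_of_pos_left _ hGp').trans hB0)
  have hGABp : 0 < G' * (A * B) := Nat.mul_pos hGp' hABp
  have tGAB : ((G' * (A * B)).divisors.card : ℝ) ≤ T := hTn _ hGABp hB0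
  set θ : ℝ := 200 * (Dm : ℝ) ^ 2 / G0 with hθ
  have θ0 : 0 < θ := by positivity
  have θ1 : θ ≤ 1 := by
    rw [hθ, div_le_one hG0r]; exact_mod_cast hDm
  have hθG : 200 * (Dm : ℝ) ^ 2 / G ≤ θ := by rw [hθ]; gcongr
  -- the sums over `X`
  have b1 : ∀ l : ℕ, 0 < l → SS D.natAbs G l Δ ≤ T * (10 ^ 4 / (l * d) + 200 * (Dm : ℝ) ^ 2 / G) := by
    intro l hl
    have hl0 : (0 : ℝ) < l := by exact_mod_cast hl
    refine (SS_le D.natAbs G l Δ hDp hGp hl hΔ0).trans ?_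
    refine mul_le_mul tΔ ?_ (by positivity) hT0.le
    refine add_le_add (by rw [← hd]; norm_num) ?_
    rw [div_le_div_iff_of_pos_right hGpr]
    linarith
  have b1' : ∀ l : ℕ, 0 < l → SS D.natAbs G l Δ ≤ T * (10 ^ 4 / (l * d) + θ) := by
    intro l hl
    refine (b1 l hl).trans ?_
    gcongr
  have b2 : ∀ l : ℕ, 0 < l → SS D'.natAbs G' l (A * B) ≤ T * (10 ^ 4 / (l * d') + θ) := by
    intro l hl
    have hl0 : (0 : ℝ) < l := by exact_mod_cast hl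
    refine (SS_le D'.natAbs G' l (A * B) hDp' hGp' hl hABp).trans ?_
    refine mul_le_mul tAB ?_ (by positivity) hT0.le
    refine add_le_add (by rw [← hd']; norm_num) ?_
    rw [hθ, div_le_div_iff₀ hGpr' hG0r]
    have h1 : 100 * ((A * B : ℕ) : ℝ) ≤ 200 * (Dm : ℝ) ^ 2 := by linarith [hABr, hm2]
    exact mul_le_mul h1 hGr' hG0r.le (by positivity)
  -- first sum
  have c1 : ∑ l ∈ (G' * (A * B)).primeFactors.filter (fun l => z ≤ l),
        SS D.natAbs G l Δ * SS D'.natAbs G' 1 (A * B) ≤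
      T ^ 3 * (10 ^ 8 / (z * d * d') + 3 * 10 ^ 4 * θ) := by
    have e1 : ∀ l ∈ (G' * (A * B)).primeFactors.filter (fun l => z ≤ l),
        SS D.natAbs G l Δ * SS D'.natAbs G' 1 (A * B) ≤
          T ^ 2 * (10 ^ 8 / (z * d * d') + 3 * 10 ^ 4 * θ) := by
      intro l hl
      obtain ⟨h1, h2⟩ := mem_filter.mp hl
      have hl0 : 0 < l := (Nat.mem_primeFactors.mp h1).1.pos
      have hlr : (z : ℝ) ≤ l := by exact_mod_cast h2
      have u1 := b1' l hl0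
      have u2 := b2 1 one_pos
      have u3 : (10 : ℝ) ^ 4 / (l * d) ≤ 10 ^ 4 / (z * d) := by gcongr
      rw [Nat.cast_one, one_mul] at u2
      calc SS D.natAbs G l Δ * SS D'.natAbs G' 1 (A * B)
          ≤ (T * (10 ^ 4 / (z * d) + θ)) * (T * (10 ^ 4 / d' + θ)) :=
            mul_le_mul (u1.trans (by gcongr)) u2 (SS_nonneg _ _ _ _) (by positivity)
        _ = T ^ 2 * (10 ^ 8 / (z * d * d') + 10 ^ 4 * (θ * (1 / (z * d))) +
              10 ^ 4 * (θ * (1 / d')) + θ * θ) := by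
            field_simp
            ring
        _ ≤ T ^ 2 * (10 ^ 8 / (z * d * d') + 10 ^ 4 * (θ * 1) + 10 ^ 4 * (θ * 1) +
              θ * 10 ^ 4) := by
            have v1 : 1 / ((z : ℝ) * d) ≤ 1 := by
              rw [div_le_one (by positivity)]
              nlinarith
            have v2 : 1 / d' ≤ 1 := by
              rw [div_le_one (by positivity)]; exact d1'
            have v3 : θ ≤ 10 ^ 4 := by linarith [θ1]
            gcongr
        _ = _ := by ring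
    calc _ ≤ ∑ _l ∈ (G' * (A * B)).primeFactors.filter (fun l => z ≤ l),
          T ^ 2 * (10 ^ 8 / (z * d * d') + 3 * 10 ^ 4 * θ) := sum_le_sum e1
      _ = (((G' * (A * B)).primeFactors.filter (fun l => z ≤ l)).card : ℝ) *
          (T ^ 2 * (10 ^ 8 / (z * d * d') + 3 * 10 ^ 4 * θ)) := by rw [sum_const, nsmul_eq_mul]
      _ ≤ T * (T ^ 2 * (10 ^ 8 / (z * d * d') + 3 * 10 ^ 4 * θ)) := by
          refine mul_le_mul_of_nonneg_right ?_ (by positivity)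
          refine le_trans ?_ tGAB
          exact_mod_cast card_le_card (fun l hl => by
            obtain ⟨h1, -⟩ := mem_filter.mp hl
            exact Nat.mem_divisors.mpr ⟨(Nat.mem_primeFactors.mp h1).2.1, hGABp.ne'⟩)
      _ = _ := by ring
  have c2 : ∑ l ∈ Δ.primeFactors.filter (fun l => z ≤ l),
        (l : ℝ) * (SS D.natAbs G l Δ * SS D'.natAbs G' l (A * B)) ≤
      T ^ 3 * (10 ^ 8 / (z * d * d') + 3 * 10 ^ 4 * ((Dm : ℝ) ^ 2 * θ)) := by
    have e1 : ∀ l ∈ Δ.primeFactors.filter (fun l => z ≤ l),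
        (l : ℝ) * (SS D.natAbs G l Δ * SS D'.natAbs G' l (A * B)) ≤
          T ^ 2 * (10 ^ 8 / (z * d * d') + 3 * 10 ^ 4 * ((Dm : ℝ) ^ 2 * θ)) := by
      intro l hl
      obtain ⟨h1, h2⟩ := mem_filter.mp hl
      have hl0 : 0 < l := (Nat.mem_primeFactors.mp h1).1.pos
      have hlr0 : (0 : ℝ) < l := by exact_mod_cast hl0
      have hlr : (z : ℝ) ≤ l := by exact_mod_cast h2
      have hlΔ : (l : ℝ) ≤ 2 * (Dm : ℝ) ^ 2 := by
        refine le_trans ?_ hΔr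
        exact_mod_cast Nat.le_of_dvd hΔ0 (Nat.mem_primeFactors.mp h1).2.1
      calc (l : ℝ) * (SS D.natAbs G l Δ * SS D'.natAbs G' l (A * B))
          ≤ l * ((T * (10 ^ 4 / (l * d) + θ)) * (T * (10 ^ 4 / (l * d') + θ))) := by
            refine mul_le_mul_of_nonneg_left ?_ hlr0.le
            exact mul_le_mul (b1' l hl0) (b2 l hl0) (SS_nonneg _ _ _ _) (by positivity)
        _ = T ^ 2 * (10 ^ 8 / (l * d * d') + 10 ^ 4 * (θ * (1 / d)) +
              10 ^ 4 * (θ * (1 / d')) + l * θ * θ) := by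
            field_simp
            ring
        _ ≤ T ^ 2 * (10 ^ 8 / (z * d * d') + 10 ^ 4 * (θ * (Dm : ℝ) ^ 2) +
              10 ^ 4 * (θ * (Dm : ℝ) ^ 2) + (2 * (Dm : ℝ) ^ 2) * θ * 1) := by
            have v1 : 1 / d ≤ (Dm : ℝ) ^ 2 := by
              refine le_trans ?_ hm2
              rw [div_le_one (by positivity)]; exact d1
            have v2 : 1 / d' ≤ (Dm : ℝ) ^ 2 := by
              refine le_trans ?_ hm2
              rw [div_le_one (by positivity)]; exact d1'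
            gcongr
        _ ≤ _ := by
            have : 0 ≤ (Dm : ℝ) ^ 2 * θ := by positivity
            refine mul_le_mul_of_nonneg_left ?_ (by positivity)
            nlinarith
    calc _ ≤ ∑ _l ∈ Δ.primeFactors.filter (fun l => z ≤ l),
          T ^ 2 * (10 ^ 8 / (z * d * d') + 3 * 10 ^ 4 * ((Dm : ℝ) ^ 2 * θ)) := sum_le_sum e1
      _ = ((Δ.primeFactors.filter (fun l => z ≤ l)).card : ℝ) *
          (T ^ 2 * (10 ^ 8 / (z * d * d') + 3 * 10 ^ 4 * ((Dm : ℝ) ^ 2 * θ))) := by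
          rw [sum_const, nsmul_eq_mul]
      _ ≤ T * (T ^ 2 * (10 ^ 8 / (z * d * d') + 3 * 10 ^ 4 * ((Dm : ℝ) ^ 2 * θ))) := by
          refine mul_le_mul_of_nonneg_right ?_ (by positivity)
          refine le_trans ?_ tΔ
          exact_mod_cast card_le_card (fun l hl => by
            obtain ⟨h1, -⟩ := mem_filter.mp hl
            exact Nat.mem_divisors.mpr ⟨(Nat.mem_primeFactors.mp h1).2.1, hΔ0.ne'⟩)
      _ = _ := by ring
  have c3 : ∑ l ∈ Icc z (100 * G), SS D.natAbs G l Δ * SS D'.natAbs G' l (A * B) ≤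
      T ^ 2 * (2 * 10 ^ 8 / (z * d * d') + 2 * 10 ^ 4 * θ * L + 2 * 10 ^ 4 * ((Dm : ℝ) ^ 2 * θ)) := by
    have e1 : ∀ l ∈ Icc z (100 * G), SS D.natAbs G l Δ * SS D'.natAbs G' l (A * B) ≤
        T ^ 2 * (10 ^ 8 / (d * d') * (1 / (l : ℝ) ^ 2) + 2 * 10 ^ 4 * θ * (1 / l) +
          200 * (Dm : ℝ) ^ 2 / G * θ) := by
      intro l hl
      have hl0 : 0 < l := lt_of_lt_of_le (by omega) (mem_Icc.mp hl).1
      have hlr0 : (0 : ℝ) < l := by exact_mod_cast hl0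
      calc SS D.natAbs G l Δ * SS D'.natAbs G' l (A * B)
          ≤ (T * (10 ^ 4 / (l * d) + 200 * (Dm : ℝ) ^ 2 / G)) * (T * (10 ^ 4 / (l * d') + θ)) :=
            mul_le_mul (b1 l hl0) (b2 l hl0) (SS_nonneg _ _ _ _) (by positivity)
        _ = T ^ 2 * (10 ^ 8 / (d * d') * (1 / (l : ℝ) ^ 2) + 10 ^ 4 * θ * (1 / l) * (1 / d) +
              10 ^ 4 * (200 * (Dm : ℝ) ^ 2 / G) * (1 / l) * (1 / d') +
              200 * (Dm : ℝ) ^ 2 / G * θ) := by
            field_simp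
            ring
        _ ≤ T ^ 2 * (10 ^ 8 / (d * d') * (1 / (l : ℝ) ^ 2) + 10 ^ 4 * θ * (1 / l) * 1 +
              10 ^ 4 * θ * (1 / l) * 1 + 200 * (Dm : ℝ) ^ 2 / G * θ) := by
            have v1 : 1 / d ≤ 1 := by
              rw [div_le_one (by positivity)]; exact d1
            have v2 : 1 / d' ≤ 1 := by
              rw [div_le_one (by positivity)]; exact d1'
            gcongr
        _ = _ := by ring
    refine (sum_le_sum e1).trans ?_
    rw [← mul_sum, sum_add_distrib, sum_add_distrib, ← mul_sum, ← mul_sum, sum_const, nsmul_eq_mul]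
    have f1 := sum_inv_sq_le z (100 * G) (by omega)
    have f2 := sum_inv_le z (100 * G) (by omega)
    have f3 : ((Icc z (100 * G)).card : ℝ) ≤ 100 * G := by
      rw [Nat.card_Icc]
      exact_mod_cast (by omega : 100 * G + 1 - z ≤ 100 * G)
    push_cast at f2
    refine mul_le_mul_of_nonneg_left ?_ (by positivity)
    have g1 : 10 ^ 8 / (d * d') * ∑ l ∈ Icc z (100 * G), (1 : ℝ) / (l : ℝ) ^ 2 ≤
        2 * 10 ^ 8 / (z * d * d') := by
      calc _ ≤ 10 ^ 8 / (d * d') * (2 / z) := mul_le_mul_of_nonneg_left f1 (by positivity)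
        _ = _ := by field_simp
    have g2 : 2 * 10 ^ 4 * θ * ∑ l ∈ Icc z (100 * G), (1 : ℝ) / l ≤ 2 * 10 ^ 4 * θ * L :=
      mul_le_mul_of_nonneg_left (f2.trans hL) (by positivity)
    have g3 : ((Icc z (100 * G)).card : ℝ) * (200 * (Dm : ℝ) ^ 2 / G * θ) ≤
        2 * 10 ^ 4 * ((Dm : ℝ) ^ 2 * θ) := by
      calc _ ≤ (100 * G : ℝ) * (200 * (Dm : ℝ) ^ 2 / G * θ) :=
            mul_le_mul_of_nonneg_right f3 (by positivity)
        _ = _ := by field_simp; ring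
    linarith
  have hθe : (Dm : ℝ) ^ 2 * θ = 200 * (Dm : ℝ) ^ 4 / G0 := by rw [hθ]; ring
  have hx : 0 ≤ 10 ^ 8 / ((z : ℝ) * d * d') := by positivity
  have hy : 0 ≤ (Dm : ℝ) ^ 2 * θ := by positivity
  have hθy : θ ≤ (Dm : ℝ) ^ 2 * θ := by nlinarith
  have hT23 : T ^ 2 ≤ T ^ 3 := pow_le_pow_right₀ hT (by norm_num)
  have c3' : ∑ l ∈ Icc z (100 * G), SS D.natAbs G l Δ * SS D'.natAbs G' l (A * B) ≤
      T ^ 3 * (2 * 10 ^ 8 / (z * d * d') + 2 * 10 ^ 4 * θ * L +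
        2 * 10 ^ 4 * ((Dm : ℝ) ^ 2 * θ)) := c3.trans (by gcongr)
  have e2 : (2 : ℝ) * 10 ^ 8 / (z * d * d') = 2 * (10 ^ 8 / (z * d * d')) := by ring
  have e4 : (4 : ℝ) * 10 ^ 8 / (z * d * d') = 4 * (10 ^ 8 / (z * d * d')) := by ring
  rw [e2] at c3'
  rw [e4]
  have e5 : 2 * 10 ^ 7 * (Dm : ℝ) ^ 4 / G0 = 10 ^ 5 * ((Dm : ℝ) ^ 2 * θ) := by rw [hθe]; ring
  rw [e5]
  set x : ℝ := 10 ^ 8 / ((z : ℝ) * d * d') with hxd
  set y : ℝ := (Dm : ℝ) ^ 2 * θ with hyd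
  have fin : (x + 3 * 10 ^ 4 * θ) + (x + 3 * 10 ^ 4 * y) +
      (2 * x + 2 * 10 ^ 4 * θ * L + 2 * 10 ^ 4 * y) ≤ L * (4 * x + 10 ^ 5 * y) := by
    have k1 : 4 * x ≤ L * (4 * x) := by nlinarith
    have k2 : y ≤ L * y := by nlinarith
    have k3 : θ * L ≤ L * y := by nlinarith
    nlinarith
  have hT3 : 0 < T ^ 3 := by positivity
  calc _ ≤ T ^ 3 * (x + 3 * 10 ^ 4 * θ) + T ^ 3 * (x + 3 * 10 ^ 4 * y) +
        T ^ 3 * (2 * x + 2 * 10 ^ 4 * θ * L + 2 * 10 ^ 4 * y) := by linarith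
    _ = T ^ 3 * ((x + 3 * 10 ^ 4 * θ) + (x + 3 * 10 ^ 4 * y) +
        (2 * x + 2 * 10 ^ 4 * θ * L + 2 * 10 ^ 4 * y)) := by ring
    _ ≤ T ^ 3 * (L * (4 * x + 10 ^ 5 * y)) := mul_le_mul_of_nonneg_left fin hT3.le
    _ = _ := by ring

end Pool.Agent.Lib.MP391708.T1.NG
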