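import Pool.Agent.Lib.MP_391708_nt.Div

/-!
# T1, group NG: the sum over two relations with the same `D` and `P`
-/

set_option autoImplicit false

namespace Pool.Agent.Lib.MP391708.T1.NG

open Finset

/-! ## elementary sums -/

lemma card_cls {q B : ℕ} (S : Finset ℕ) (hS : ∀ x ∈ S, x ≤ B)
    (hd : ∀ x ∈ S, ∀ y ∈ S, (q : ℤ) ∣ (x : ℤ) - y) : (S.card : ℝ) ≤ (B : ℝ) / q + 1 := by
  have h1 : S.card ≤ (range (B / q + 1)).card := by
    refine Finset.card_le_card_of_injOn (fun x => x / q) ?_ ?_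
    · intro x hx
      simp only [coe_range, Set.mem_Iio]
      exact Nat.lt_succ_of_le (Nat.div_le_div_right (hS x hx))
    · intro x hx y hy hxy
      have h2 : y % q = x % q := by
        have h3 : (y : ℤ) ≡ x [ZMOD q] := Int.modEq_iff_dvd.2 (hd x hx y hy)
        exact (Int.natCast_modEq_iff.1 h3)
      have h4 : x / q = y / q := hxy
      rw [← Nat.div_add_mod x q, ← Nat.div_add_mod y q, h4, h2]
  rw [card_range] at h1
  calc (S.card : ℝ) ≤ ((B / q + 1 : ℕ) : ℝ) := by exact_mod_cast h1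
    _ ≤ (B : ℝ) / q + 1 := by
        push_cast
        have := @Nat.cast_div_le ℝ _ _ _ B q
        linarith

lemma harm (U : ℕ) : ∑ G ∈ Icc 1 U, (1 : ℝ) / G ≤ 1 + Real.log U := by
  have h := harmonic_le_one_add_log U
  rw [harmonic_eq_sum_Icc] at h
  push_cast at h
  simpa [one_div] using h

lemma gcdsum (G U : ℕ) (hG : 1 ≤ G) :
    ∑ G' ∈ Icc 1 U, (Nat.gcd G G' : ℝ) / G' ≤ G.divisors.card * (1 + Real.log U) := by
  have h1 : ∀ G' ∈ Icc 1 U, (Nat.gcd G G' : ℝ) / G' ≤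
      ∑ e ∈ G.divisors, if e ∣ G' then (e : ℝ) / G' else 0 := by
    intro G' hG'
    have h2 : Nat.gcd G G' ∈ G.divisors := Nat.mem_divisors.2 ⟨Nat.gcd_dvd_left _ _, by omega⟩
    have h3 : (Nat.gcd G G' : ℝ) / G' =
        if Nat.gcd G G' ∣ G' then ((Nat.gcd G G' : ℕ) : ℝ) / G' else 0 := by
      rw [if_pos (Nat.gcd_dvd_right _ _)]
    rw [h3]
    refine Finset.single_le_sum (f := fun e : ℕ => if e ∣ G' then (e : ℝ) / G' else 0)
      (fun e _ => ?_) h2
    split_ifs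
    · positivity
    · exact le_rfl
  refine (Finset.sum_le_sum h1).trans ?_
  rw [Finset.sum_comm]
  have h4 : ∀ e ∈ G.divisors, ∑ G' ∈ Icc 1 U, (if e ∣ G' then (e : ℝ) / G' else 0) ≤
      1 + Real.log U := by
    intro e he
    have he0 : 0 < e := Nat.pos_of_mem_divisors he
    refine le_trans ?_ (harm U)
    rw [← Finset.sum_filter]
    have hinj : Set.InjOn (fun x => x / e) ((Icc 1 U).filter (fun G' => e ∣ G') : Set ℕ) := by
      intro x hx y hy hxy
      simp only [coe_filter, Set.mem_ofPred_eq] at hx hy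
      have h4 : x / e = y / e := hxy
      rw [← Nat.div_mul_cancel hx.2, ← Nat.div_mul_cancel hy.2, h4]
    have h5 : ∑ x ∈ (Icc 1 U).filter (fun G' => e ∣ G'), (e : ℝ) / x =
        ∑ y ∈ ((Icc 1 U).filter (fun G' => e ∣ G')).image (fun x => x / e), (1 : ℝ) / y := by
      rw [Finset.sum_image hinj]
      refine Finset.sum_congr rfl fun x hx => ?_
      rw [mem_filter] at hx
      rw [Nat.cast_div hx.2 (by positivity)]
      field_simp
    rw [h5]
    refine Finset.sum_le_sum_of_subset_of_nonneg ?_ (fun _ _ _ => by positivity)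
    intro y hy
    rw [mem_image] at hy
    obtain ⟨x, hx, rfl⟩ := hy
    rw [mem_filter, mem_Icc] at hx
    rw [mem_Icc]
    refine ⟨?_, (Nat.div_le_self _ _).trans hx.1.2⟩
    exact Nat.div_pos (Nat.le_of_dvd hx.1.1 hx.2) he0
  refine (Finset.sum_le_sum h4).trans ?_
  rw [Finset.sum_const, nsmul_eq_mul]

lemma inner (U D G' X : ℕ) (hD : 1 ≤ D) (hG' : 1 ≤ G') (hX : 1 ≤ X) :
    ∑ X' ∈ Icc 1 U, (if ((D : ℤ) ∣ (X' : ℤ) - G' ∧ Nat.Coprime D X' ∧ X' ≤ 100 * G' ∧ G' ≤ 100 * X' ∧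
      D ≤ (X' / Nat.gcd X X') ^ 2) then (Nat.gcd X X' : ℝ) / X' else 0) ≤
      X.divisors.card * (20000 / √D) := by
  have hG0 : (0 : ℝ) < G' := by exact_mod_cast hG'
  have hD0 : (0 : ℝ) < D := by exact_mod_cast hD
  have hsD : 0 < √(D : ℝ) := Real.sqrt_pos.2 hD0
  have hsD2 : √(D : ℝ) * √(D : ℝ) = D := Real.mul_self_sqrt hD0.le
  have h1 : ∀ X' ∈ Icc 1 U, (if ((D : ℤ) ∣ (X' : ℤ) - G' ∧ Nat.Coprime D X' ∧ X' ≤ 100 * G' ∧
      G' ≤ 100 * X' ∧ D ≤ (X' / Nat.gcd X X') ^ 2) then (Nat.gcd X X' : ℝ) / X' else 0) ≤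
      ∑ e ∈ X.divisors, (if ((D : ℤ) ∣ (X' : ℤ) - G' ∧ Nat.Coprime D e ∧ e ∣ X' ∧ X' ≤ 100 * G' ∧
        D * e ^ 2 ≤ (100 * G') ^ 2) then (100 * e : ℝ) / G' else 0) := by
    intro X' hX'
    have hnn : ∀ e ∈ X.divisors, (0 : ℝ) ≤ (if ((D : ℤ) ∣ (X' : ℤ) - G' ∧ Nat.Coprime D e ∧
        e ∣ X' ∧ X' ≤ 100 * G' ∧ D * e ^ 2 ≤ (100 * G') ^ 2) then (100 * e : ℝ) / G' else 0) := by
      intro e _
      split_ifs
      · positivity
      · exact le_rfl
    split_ifs with hc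
    · obtain ⟨c1, c2, c3, c4, c5⟩ := hc
      have hg : Nat.gcd X X' ∈ X.divisors := Nat.mem_divisors.2 ⟨Nat.gcd_dvd_left _ _, by omega⟩
      refine le_trans ?_ (Finset.single_le_sum hnn hg)
      have hX0 : 1 ≤ X' := (mem_Icc.1 hX').1
      have hX'0 : (0 : ℝ) < X' := by exact_mod_cast hX0
      rw [if_pos]
      · rw [div_le_div_iff₀ hX'0 hG0]
        have : (G' : ℝ) ≤ 100 * X' := by exact_mod_cast c4
        have h0 : (0 : ℝ) ≤ (Nat.gcd X X' : ℝ) := by positivity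
        nlinarith
      · refine ⟨c1, Nat.Coprime.coprime_dvd_right (Nat.gcd_dvd_right _ _) c2,
          Nat.gcd_dvd_right _ _, c3, ?_⟩
        calc D * (Nat.gcd X X') ^ 2 ≤ (X' / Nat.gcd X X') ^ 2 * (Nat.gcd X X') ^ 2 :=
              Nat.mul_le_mul_right _ c5
          _ = X' ^ 2 := by rw [← mul_pow, Nat.div_mul_cancel (Nat.gcd_dvd_right _ _)]
          _ ≤ (100 * G') ^ 2 := Nat.pow_le_pow_left c3 2
    · exact Finset.sum_nonneg hnn
  refine (Finset.sum_le_sum h1).trans ?_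
  rw [Finset.sum_comm]
  have h2 : ∀ e ∈ X.divisors, ∑ X' ∈ Icc 1 U, (if ((D : ℤ) ∣ (X' : ℤ) - G' ∧ Nat.Coprime D e ∧
      e ∣ X' ∧ X' ≤ 100 * G' ∧ D * e ^ 2 ≤ (100 * G') ^ 2) then (100 * e : ℝ) / G' else 0) ≤
      20000 / √D := by
    intro e he
    have he0 : 0 < e := Nat.pos_of_mem_divisors he
    have heR : (0 : ℝ) < e := by exact_mod_cast he0
    by_cases hc : Nat.Coprime D e ∧ D * e ^ 2 ≤ (100 * G') ^ 2
    · rw [← Finset.sum_filter, Finset.sum_const, nsmul_eq_mul]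
      have h3 := card_cls (q := D * e) (B := 100 * G') 
        ((Icc 1 U).filter (fun X' : ℕ => (D : ℤ) ∣ (X' : ℤ) - G' ∧ Nat.Coprime D e ∧
          e ∣ X' ∧ X' ≤ 100 * G' ∧ D * e ^ 2 ≤ (100 * G') ^ 2))
        (fun x hx => (mem_filter.1 hx).2.2.2.2.1) (by
          intro x hx y hy
          obtain ⟨-, x1, -, x3, -, -⟩ := mem_filter.1 hx
          obtain ⟨-, y1, -, y3, -, -⟩ := mem_filter.1 hy
          push_cast
          refine IsCoprime.mul_dvd (Nat.isCoprime_iff_coprime.2 hc.1) ?_ ?_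
          · have := dvd_sub x1 y1
            have h5 : (x : ℤ) - G' - (y - G') = x - y := by ring
            rwa [h5] at this
          · exact dvd_sub (Int.natCast_dvd_natCast.2 x3) (Int.natCast_dvd_natCast.2 y3))
      have h4 : (e : ℝ) * √D ≤ 100 * G' := by
        have h5 : (D : ℝ) * e ^ 2 ≤ (100 * G') ^ 2 := by exact_mod_cast hc.2
        have h6 : ((e : ℝ) * √D) ^ 2 ≤ (100 * G') ^ 2 := by
          have : ((e : ℝ) * √D) ^ 2 = D * e ^ 2 := by
            rw [mul_pow, Real.sq_sqrt hD0.le]; ring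
          rw [this]; exact h5
        exact (pow_le_pow_iff_left₀ (by positivity) (by positivity) two_ne_zero).1 h6
      calc _ ≤ (((100 * G' : ℕ) : ℝ) / ((D * e : ℕ) : ℝ) + 1) * (100 * e / G') :=
            mul_le_mul_of_nonneg_right h3 (by positivity)
        _ = 10000 / D + 100 * e / G' := by
            push_cast
            field_simp
            ring
        _ ≤ 10000 / √D + 10000 / √D := by
            have h7 : √(D : ℝ) ≤ D := by
              have : 1 ≤ √(D : ℝ) := Real.one_le_sqrt.2 (by exact_mod_cast hD)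
              nlinarith
            have h8 : (10000 : ℝ) / D ≤ 10000 / √D := by gcongr
            have h9 : 100 * (e : ℝ) / G' ≤ 10000 / √D := by
              rw [div_le_div_iff₀ hG0 hsD]
              nlinarith
            linarith
        _ = 20000 / √D := by ring
    · refine le_trans (le_of_eq ?_) (show (0 : ℝ) ≤ 20000 / √D by positivity)
      refine Finset.sum_eq_zero fun x _ => if_neg ?_
      rintro ⟨-, c2, -, -, c5⟩
      exact hc ⟨c2, c5⟩
  refine (Finset.sum_le_sum h2).trans ?_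
  rw [Finset.sum_const, nsmul_eq_mul]

lemma recip (U D G : ℕ) (hD : 1 ≤ D) (hG : 1 ≤ G) (h7 : D ≤ 100 * G) :
    ∑ X ∈ Icc 1 U, (if ((D : ℤ) ∣ (X : ℤ) - G ∧ X ≤ 100 * G ∧ G ≤ 100 * X) then (1 : ℝ) / X else 0) ≤
      20000 / D := by
  have hG0 : (0 : ℝ) < G := by exact_mod_cast hG
  have hD0 : (0 : ℝ) < D := by exact_mod_cast hD
  rw [← Finset.sum_filter]
  have h3 := card_cls (q := D) (B := 100 * G)
    ((Icc 1 U).filter (fun X : ℕ => (D : ℤ) ∣ (X : ℤ) - G ∧ X ≤ 100 * G ∧ G ≤ 100 * X))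
    (fun x hx => (mem_filter.1 hx).2.2.1) (by
      intro x hx y hy
      obtain ⟨-, x1, -⟩ := mem_filter.1 hx
      obtain ⟨-, y1, -⟩ := mem_filter.1 hy
      have := dvd_sub x1 y1
      have h5 : (x : ℤ) - G - (y - G) = x - y := by ring
      rwa [h5] at this)
  have h4 : ∀ x ∈ (Icc 1 U).filter (fun X : ℕ => (D : ℤ) ∣ (X : ℤ) - G ∧ X ≤ 100 * G ∧ G ≤ 100 * X),
      (1 : ℝ) / x ≤ 100 / G := by
    intro x hx
    rw [mem_filter, mem_Icc] at hx
    have hx0 : (0 : ℝ) < x := by exact_mod_cast hx.1.1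
    rw [div_le_div_iff₀ hx0 hG0]
    have : (G : ℝ) ≤ 100 * x := by exact_mod_cast hx.2.2.2
    linarith
  refine (Finset.sum_le_sum h4).trans ?_
  rw [Finset.sum_const, nsmul_eq_mul]
  calc _ ≤ (((100 * G : ℕ) : ℝ) / (D : ℝ) + 1) * (100 / G) :=
        mul_le_mul_of_nonneg_right h3 (by positivity)
    _ ≤ (100 * G / D + 100 * G / D) * (100 / G) := by
        refine mul_le_mul_of_nonneg_right ?_ (by positivity)
        push_cast
        have : (1 : ℝ) ≤ 100 * G / D := by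
          rw [le_div_iff₀ hD0, one_mul]
          exact_mod_cast h7
        linarith
    _ = 20000 / D := by
        field_simp
        ring

lemma tail (Dm U : ℕ) (hDm : 1 ≤ Dm) :
    ∑ D ∈ Icc Dm U, (1 : ℝ) / (D * √D) ≤ 3 / √Dm := by
  rcases lt_or_ge U Dm with h | h
  · rw [Icc_eq_empty (by omega), sum_empty]
    positivity
  · suffices H : ∑ D ∈ Icc Dm U, (1 : ℝ) / (D * √D) ≤ 3 / √Dm - 2 / √U by
      refine H.trans ?_
      have : (0 : ℝ) ≤ 2 / √U := by positivity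
      linarith
    induction U, h using Nat.le_induction with
    | base =>
      rw [Icc_self, sum_singleton]
      have h1 : (1 : ℝ) ≤ Dm := by exact_mod_cast hDm
      have h2 : 0 < √(Dm : ℝ) := Real.sqrt_pos.2 (by linarith)
      have h3 : (1 : ℝ) / (Dm * √Dm) ≤ 1 / √Dm := by
        gcongr
        nlinarith
      have h4 : (3 : ℝ) / √Dm - 2 / √Dm = 1 / √Dm := by ring
      linarith
    | succ U hU ih =>
      rw [Finset.sum_Icc_succ_top (by omega : Dm ≤ U + 1)]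
      have h1 : (0 : ℝ) < U := by
        have : 0 < U := by omega
        exact_mod_cast this
      have ha : 0 < √(U : ℝ) := Real.sqrt_pos.2 h1
      have hb : 0 < √((U : ℝ) + 1) := Real.sqrt_pos.2 (by linarith)
      have ha2 : √(U : ℝ) * √U = U := Real.mul_self_sqrt h1.le
      have hb2 : √((U : ℝ) + 1) * √((U : ℝ) + 1) = U + 1 := Real.mul_self_sqrt (by linarith)
      have hab : √(U : ℝ) ≤ √((U : ℝ) + 1) := Real.sqrt_le_sqrt (by linarith)
      have key : (1 : ℝ) / (((U : ℝ) + 1) * √((U : ℝ) + 1)) ≤ 2 / √U - 2 / √((U : ℝ) + 1) := by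
        rw [div_sub_div _ _ ha.ne' hb.ne', div_le_div_iff₀ (by positivity) (by positivity)]
        set a := √(U : ℝ)
        set b := √((U : ℝ) + 1)
        have h5 : (b - a) * (b + a) = 1 := by nlinarith
        have h6 : 1 ≤ (b - a) * (2 * b) := by nlinarith
        have h7 : a * b ≤ (b - a) * (2 * b) * (a * b) := by
          nlinarith [mul_pos ha hb]
        have h8 : (b - a) * (2 * b) * (a * b) ≤ (b - a) * (2 * b) * (b * b) := by
          have : 0 ≤ (b - a) * (2 * b) := by linarith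
          exact mul_le_mul_of_nonneg_left (mul_le_mul_of_nonneg_right hab hb.le) this
        rw [← hb2]
        nlinarith
      push_cast
      linarith

/-! ## the sum -/

/-- a sum over four variables -/
def S4 (U : ℕ) (k : ℕ → ℕ → ℕ → ℕ → ℝ) : ℝ :=
  ∑ G ∈ Icc 1 U, ∑ X ∈ Icc 1 U, ∑ G' ∈ Icc 1 U, ∑ X' ∈ Icc 1 U, k G X G' X'

lemma S4_swap (U : ℕ) (k : ℕ → ℕ → ℕ → ℕ → ℝ) :
    S4 U (fun G X G' X' => k G' X' G X) = S4 U k := by
  have key : ∀ k' : ℕ → ℕ → ℕ → ℕ → ℝ, S4 U k' =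
      ∑ p ∈ Icc 1 U ×ˢ Icc 1 U, ∑ q ∈ Icc 1 U ×ˢ Icc 1 U, k' p.1 p.2 q.1 q.2 := by
    intro k'
    unfold S4
    rw [Finset.sum_product]
    refine Finset.sum_congr rfl fun G _ => Finset.sum_congr rfl fun X _ => ?_
    rw [Finset.sum_product]
  rw [key, key, Finset.sum_comm]

lemma S4_flip (U : ℕ) (k : ℕ → ℕ → ℕ → ℕ → ℝ) :
    S4 U (fun G X G' X' => k X G X' G') = S4 U k := by
  unfold S4
  rw [Finset.sum_comm]
  refine Finset.sum_congr rfl fun G _ => Finset.sum_congr rfl fun X _ => ?_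
  rw [Finset.sum_comm]

lemma S4_mono (U : ℕ) {k k' : ℕ → ℕ → ℕ → ℕ → ℝ}
    (h : ∀ G X G' X' : ℕ, 1 ≤ G → 1 ≤ X → 1 ≤ G' → 1 ≤ X' → k G X G' X' ≤ k' G X G' X') :
    S4 U k ≤ S4 U k' := by
  unfold S4
  refine Finset.sum_le_sum fun G hG => Finset.sum_le_sum fun X hX => Finset.sum_le_sum fun G' hG' =>
    Finset.sum_le_sum fun X' hX' => ?_
  exact h G X G' X' (mem_Icc.1 hG).1 (mem_Icc.1 hX).1 (mem_Icc.1 hG').1 (mem_Icc.1 hX').1

lemma S4_add (U : ℕ) (k k' : ℕ → ℕ → ℕ → ℕ → ℝ) :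
    S4 U (fun G X G' X' => k G X G' X' + k' G X G' X') = S4 U k + S4 U k' := by
  unfold S4
  simp only [Finset.sum_add_distrib]

/-- the conditions, in symmetric form -/
def Bc (D G X G' X' : ℕ) : Prop :=
  (D : ℤ) ∣ (X : ℤ) - G ∧ (D : ℤ) ∣ (X' : ℤ) - G' ∧ Nat.Coprime D X ∧ Nat.Coprime D X' ∧
    Nat.Coprime D G ∧ Nat.Coprime D G' ∧ X ≤ 100 * G ∧ G ≤ 100 * X ∧ X' ≤ 100 * G' ∧ G' ≤ 100 * X' ∧
    D ≤ 100 * G ∧ D ≤ 100 * X ∧ D ≤ 100 * G' ∧ D ≤ 100 * X'

/-- the summand -/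
noncomputable def fs (G X G' X' : ℕ) : ℝ :=
  ((Nat.gcd G G' : ℝ) * (Nat.gcd X X' : ℝ)) / ((G : ℝ) * G' * X * X')

open scoped Classical in
/-- the case `X' / gcd(X, X') ≥ √D` -/
noncomputable def ka (D G X G' X' : ℕ) : ℝ :=
  if Bc D G X G' X' ∧ D ≤ (X' / Nat.gcd X X') ^ 2 then fs G X G' X' else 0

lemma ka_nonneg (D G X G' X' : ℕ) : 0 ≤ ka D G X G' X' := by
  unfold ka fs
  split_ifs
  · positivity
  · exact le_rfl

lemma sum_ka (U D : ℕ) (hD : 1 ≤ D) (T : ℝ) (hT0 : 0 ≤ T)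
    (hT : ∀ n : ℕ, 1 ≤ n → n ≤ U → (n.divisors.card : ℝ) ≤ T) :
    S4 U (ka D) ≤ (20000 * T * (1 + Real.log U)) ^ 2 / (D * √D) := by
  classical
  have hD0 : (0 : ℝ) < D := by exact_mod_cast hD
  have hsD : 0 < √(D : ℝ) := Real.sqrt_pos.2 hD0
  rcases Nat.eq_zero_or_pos U with rfl | hU
  · unfold S4
    simp only [Icc_eq_empty (show ¬ (1 : ℕ) ≤ 0 by omega), sum_empty]
    positivity
  have hL : 0 ≤ 1 + Real.log U := by
    have : 0 ≤ Real.log U := Real.log_nonneg (by exact_mod_cast hU)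
    linarith
  unfold S4
  have h1 : ∀ G ∈ Icc 1 U, ∀ X ∈ Icc 1 U, ∑ G' ∈ Icc 1 U, ∑ X' ∈ Icc 1 U, ka D G X G' X' ≤
      if ((D : ℤ) ∣ (X : ℤ) - G ∧ X ≤ 100 * G ∧ G ≤ 100 * X) ∧ D ≤ 100 * G then
        1 / (G : ℝ) * (1 / X) * (T * (1 + Real.log U) * (T * (20000 / √D))) else 0 := by
    intro G hG X hX
    rw [mem_Icc] at hG hX
    have hG0 : (0 : ℝ) < G := by exact_mod_cast hG.1
    have hX0 : (0 : ℝ) < X := by exact_mod_cast hX.1
    split_ifs with hc
    · have h2 : ∀ G' ∈ Icc 1 U, ∑ X' ∈ Icc 1 U, ka D G X G' X' ≤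
          1 / (G : ℝ) * (1 / X) * ((Nat.gcd G G' : ℝ) / G') * (T * (20000 / √D)) := by
        intro G' hG'
        rw [mem_Icc] at hG'
        have hG'0 : (0 : ℝ) < G' := by exact_mod_cast hG'.1
        have h3 : ∀ X' ∈ Icc 1 U, ka D G X G' X' ≤ 1 / (G : ℝ) * (1 / X) *
            ((Nat.gcd G G' : ℝ) / G') * (if ((D : ℤ) ∣ (X' : ℤ) - G' ∧ Nat.Coprime D X' ∧
              X' ≤ 100 * G' ∧ G' ≤ 100 * X' ∧ D ≤ (X' / Nat.gcd X X') ^ 2) then
                (Nat.gcd X X' : ℝ) / X' else 0) := by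
          intro X' hX'
          have hX'0 : (0 : ℝ) < X' := by exact_mod_cast (mem_Icc.1 hX').1
          unfold ka
          split_ifs with h4 h5 h5
          · refine le_of_eq ?_
            unfold fs
            field_simp
          · exfalso
            obtain ⟨⟨-, b2, -, b4, -, -, -, -, b9, b10, -⟩, b5⟩ := h4
            exact h5 ⟨b2, b4, b9, b10, b5⟩
          · positivity
          · simp
        refine (Finset.sum_le_sum h3).trans ?_
        rw [← Finset.mul_sum]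
        refine mul_le_mul_of_nonneg_left ?_ (by positivity)
        refine (inner U D G' X hD hG'.1 hX.1).trans ?_
        exact mul_le_mul_of_nonneg_right (hT X hX.1 hX.2) (by positivity)
      refine (Finset.sum_le_sum h2).trans ?_
      rw [← Finset.sum_mul, ← Finset.mul_sum, mul_assoc]
      refine mul_le_mul_of_nonneg_left ?_ (by positivity)
      refine mul_le_mul_of_nonneg_right ?_ (by positivity)
      refine (gcdsum G U hG.1).trans ?_
      exact mul_le_mul_of_nonneg_right (hT G hG.1 hG.2) hL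
    · refine le_of_eq (Finset.sum_eq_zero fun G' _ => Finset.sum_eq_zero fun X' _ => ?_)
      unfold ka
      rw [if_neg]
      rintro ⟨⟨b1, -, -, -, -, -, b7, b8, -, -, b11, -⟩, -⟩
      exact hc ⟨⟨b1, b7, b8⟩, b11⟩
  refine (Finset.sum_le_sum fun G hG => Finset.sum_le_sum fun X hX => h1 G hG X hX).trans ?_
  have h5 : ∀ G ∈ Icc 1 U, ∑ X ∈ Icc 1 U,
      (if ((D : ℤ) ∣ (X : ℤ) - G ∧ X ≤ 100 * G ∧ G ≤ 100 * X) ∧ D ≤ 100 * G then
        1 / (G : ℝ) * (1 / X) * (T * (1 + Real.log U) * (T * (20000 / √D))) else 0) ≤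
      1 / (G : ℝ) * (20000 / D * (T * (1 + Real.log U) * (T * (20000 / √D)))) := by
    intro G hG
    rw [mem_Icc] at hG
    have hG0 : (0 : ℝ) < G := by exact_mod_cast hG.1
    by_cases h7 : D ≤ 100 * G
    · have h6 : ∀ X ∈ Icc 1 U, (if ((D : ℤ) ∣ (X : ℤ) - G ∧ X ≤ 100 * G ∧ G ≤ 100 * X) ∧ D ≤ 100 * G then
        1 / (G : ℝ) * (1 / X) * (T * (1 + Real.log U) * (T * (20000 / √D))) else 0) =
          1 / (G : ℝ) * ((if ((D : ℤ) ∣ (X : ℤ) - G ∧ X ≤ 100 * G ∧ G ≤ 100 * X) then (1 : ℝ) / X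
            else 0) * (T * (1 + Real.log U) * (T * (20000 / √D)))) := by
        intro X _
        by_cases hc : (D : ℤ) ∣ (X : ℤ) - G ∧ X ≤ 100 * G ∧ G ≤ 100 * X
        · rw [if_pos ⟨hc, h7⟩, if_pos hc]; ring
        · rw [if_neg (fun h => hc h.1), if_neg hc]; ring
      rw [Finset.sum_congr rfl h6, ← Finset.mul_sum, ← Finset.sum_mul]
      refine mul_le_mul_of_nonneg_left ?_ (by positivity)
      exact mul_le_mul_of_nonneg_right (recip U D G hD hG.1 h7) (by positivity)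
    · refine le_trans (le_of_eq (Finset.sum_eq_zero fun X _ => if_neg fun h => h7 h.2)) ?_
      positivity
  refine (Finset.sum_le_sum h5).trans ?_
  rw [← Finset.sum_mul]
  calc _ ≤ (1 + Real.log U) * (20000 / D * (T * (1 + Real.log U) * (T * (20000 / √D)))) :=
        mul_le_mul_of_nonneg_right (harm U) (by positivity)
    _ = (20000 * T * (1 + Real.log U)) ^ 2 / (D * √D) := by
        field_simp

/-- the sum over two relations with the same `D` and `P` -/
theorem sum2 (η : ℝ) (hη : 0 < η) : ∃ C : ℝ, 0 < C ∧ ∀ (U Dm : ℕ), 1 ≤ Dm → 1 ≤ U →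
    ∑ D ∈ Icc Dm U, ∑ G ∈ Icc 1 U, ∑ X ∈ Icc 1 U, ∑ G' ∈ Icc 1 U, ∑ X' ∈ Icc 1 U,
      (if ((D : ℤ) ∣ (X : ℤ) - G ∧ (D : ℤ) ∣ (X' : ℤ) - G' ∧ Nat.Coprime D (X * X' * G * G') ∧
          X ≤ 100 * G ∧ G ≤ 100 * X ∧ X' ≤ 100 * G' ∧ G' ≤ 100 * X' ∧ D ≤ G ∧ D ≤ G' ∧
          (D ≤ (X / Nat.gcd X X') ^ 2 ∨ D ≤ (X' / Nat.gcd X X') ^ 2 ∨
            D ≤ (G / Nat.gcd G G') ^ 2 ∨ D ≤ (G' / Nat.gcd G G') ^ 2))
        then ((Nat.gcd G G' : ℝ) * (Nat.gcd X X' : ℝ)) / ((G : ℝ) * G' * X * X') else 0) ≤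
      C * (U : ℝ) ^ η / √Dm := by
  obtain ⟨T₀, hT₀, hT⟩ := Pool.Agent.Lib.MP_391708_nt.Div.card_divisors_le_rpow (η / 4) (by positivity)
  set L : ℝ := 1 + 4 / η with hL
  have hLpos : 0 < L := by positivity
  refine ⟨12 * (20000 * T₀ * L) ^ 2, by positivity, ?_⟩
  intro U Dm hDm hU
  have hU0 : (0 : ℝ) < U := by exact_mod_cast hU
  have hU1 : (1 : ℝ) ≤ U := by exact_mod_cast hU
  set u : ℝ := (U : ℝ) ^ (η / 4) with hu
  have hu1 : 1 ≤ u := Real.one_le_rpow hU1 (by positivity)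
  have hlog : 1 + Real.log U ≤ L * u := by
    have h1 : Real.log U ≤ (U : ℝ) ^ (η / 4) / (η / 4) := Real.log_le_rpow_div hU0.le (by positivity)
    rw [← hu] at h1
    rw [hL]
    have h2 : u / (η / 4) = 4 / η * u := by field_simp
    rw [h2] at h1
    nlinarith
  have hlog0 : 0 ≤ 1 + Real.log U := by
    have : 0 ≤ Real.log U := Real.log_nonneg hU1
    linarith
  have hTU : ∀ n : ℕ, 1 ≤ n → n ≤ U → (n.divisors.card : ℝ) ≤ T₀ * u := by
    intro n hn hnU
    refine (hT n hn).trans ?_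
    refine mul_le_mul_of_nonneg_left ?_ hT₀.le
    exact Real.rpow_le_rpow (by positivity) (by exact_mod_cast hnU) (by positivity)
  have hmain : ∀ D ∈ Icc Dm U, ∑ G ∈ Icc 1 U, ∑ X ∈ Icc 1 U, ∑ G' ∈ Icc 1 U, ∑ X' ∈ Icc 1 U,
      (if ((D : ℤ) ∣ (X : ℤ) - G ∧ (D : ℤ) ∣ (X' : ℤ) - G' ∧ Nat.Coprime D (X * X' * G * G') ∧
          X ≤ 100 * G ∧ G ≤ 100 * X ∧ X' ≤ 100 * G' ∧ G' ≤ 100 * X' ∧ D ≤ G ∧ D ≤ G' ∧
          (D ≤ (X / Nat.gcd X X') ^ 2 ∨ D ≤ (X' / Nat.gcd X X') ^ 2 ∨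
            D ≤ (G / Nat.gcd G G') ^ 2 ∨ D ≤ (G' / Nat.gcd G G') ^ 2))
        then ((Nat.gcd G G' : ℝ) * (Nat.gcd X X' : ℝ)) / ((G : ℝ) * G' * X * X') else 0) ≤
      4 * ((20000 * (T₀ * u) * (1 + Real.log U)) ^ 2 / (D * √D)) := by
    intro D hD
    rw [mem_Icc] at hD
    have hD1 : 1 ≤ D := hDm.trans hD.1
    have h1 := sum_ka U D hD1 (T₀ * u) (by positivity) hTU
    have h2 : S4 U (fun G X G' X' => (ka D G X G' X' + ka D G' X' G X) +
        (ka D X G X' G' + ka D X' G' X G)) ≤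
        4 * ((20000 * (T₀ * u) * (1 + Real.log U)) ^ 2 / (D * √D)) := by
      rw [S4_add U (fun G X G' X' => ka D G X G' X' + ka D G' X' G X)
        (fun G X G' X' => ka D X G X' G' + ka D X' G' X G),
        S4_add U (fun G X G' X' => ka D G X G' X') (fun G X G' X' => ka D G' X' G X),
        S4_add U (fun G X G' X' => ka D X G X' G') (fun G X G' X' => ka D X' G' X G)]
      have e1 : S4 U (fun G X G' X' => ka D G X G' X') = S4 U (ka D) := rfl
      have e2 := S4_swap U (ka D)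
      have e3 := S4_flip U (ka D)
      have e4 := S4_swap U (fun G X G' X' => ka D X G X' G')
      simp only [e3] at e4
      rw [e1, e2, e3, e4]
      linarith
    refine le_trans ?_ h2
    refine S4_mono U ?_
    intro G X G' X' hG hX hG' hX'
    have n1 := ka_nonneg D G X G' X'
    have n2 := ka_nonneg D G' X' G X
    have n3 := ka_nonneg D X G X' G'
    have n4 := ka_nonneg D X' G' X G
    split_ifs with hc
    · obtain ⟨c1, c2, c3, c4, c5, c6, c7, c8, c9, c10⟩ := hc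
      have p1 : Nat.Coprime D G' := Nat.Coprime.coprime_dvd_right (Dvd.intro_left _ rfl) c3
      have p2' : Nat.Coprime D (X * X' * G) := Nat.Coprime.coprime_dvd_right (Dvd.intro _ rfl) c3
      have p2 : Nat.Coprime D G := Nat.Coprime.coprime_dvd_right (Dvd.intro_left _ rfl) p2'
      have p3' : Nat.Coprime D (X * X') := Nat.Coprime.coprime_dvd_right (Dvd.intro _ rfl) p2'
      have p3 : Nat.Coprime D X' := Nat.Coprime.coprime_dvd_right (Dvd.intro_left _ rfl) p3'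
      have p4 : Nat.Coprime D X := Nat.Coprime.coprime_dvd_right (Dvd.intro _ rfl) p3'
      have c1' : (D : ℤ) ∣ (G : ℤ) - X := by
        have := dvd_neg.2 c1
        rwa [neg_sub] at this
      have c2' : (D : ℤ) ∣ (G' : ℤ) - X' := by
        have := dvd_neg.2 c2
        rwa [neg_sub] at this
      have d1 : D ≤ 100 * G := by omega
      have d2 : D ≤ 100 * X := by omega
      have d3 : D ≤ 100 * G' := by omega
      have d4 : D ≤ 100 * X' := by omega
      have q1 : Bc D G X G' X' := ⟨c1, c2, p4, p3, p2, p1, c4, c5, c6, c7, d1, d2, d3, d4⟩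
      have q2 : Bc D G' X' G X := ⟨c2, c1, p3, p4, p1, p2, c6, c7, c4, c5, d3, d4, d1, d2⟩
      have q3 : Bc D X G X' G' := ⟨c1', c2', p2, p1, p4, p3, c5, c4, c7, c6, d2, d1, d4, d3⟩
      have q4 : Bc D X' G' X G := ⟨c2', c1', p1, p2, p3, p4, c7, c6, c5, c4, d4, d3, d2, d1⟩
      have f2 : fs G' X' G X = fs G X G' X' := by
        unfold fs
        rw [Nat.gcd_comm G' G, Nat.gcd_comm X' X]
        congr 1
        ring
      have f3 : fs X G X' G' = fs G X G' X' := by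
        unfold fs
        congr 1 <;> ring
      have f4 : fs X' G' X G = fs G X G' X' := by
        unfold fs
        rw [Nat.gcd_comm G' G, Nat.gcd_comm X' X]
        congr 1 <;> ring
      have hfs : ((Nat.gcd G G' : ℝ) * (Nat.gcd X X' : ℝ)) / ((G : ℝ) * G' * X * X') = fs G X G' X' := rfl
      rw [hfs]
      rcases c10 with c | c | c | c
      · have : ka D G' X' G X = fs G X G' X' := by
          unfold ka
          rw [if_pos ⟨q2, by rwa [Nat.gcd_comm X' X]⟩, f2]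
        linarith
      · have : ka D G X G' X' = fs G X G' X' := by
          unfold ka
          rw [if_pos ⟨q1, c⟩]
        linarith
      · have : ka D X' G' X G = fs G X G' X' := by
          unfold ka
          rw [if_pos ⟨q4, by rwa [Nat.gcd_comm G' G]⟩, f4]
        linarith
      · have : ka D X G X' G' = fs G X G' X' := by
          unfold ka
          rw [if_pos ⟨q3, c⟩, f3]
        linarith
    · linarith
  refine (Finset.sum_le_sum hmain).trans ?_
  have h3 : ∀ D : ℕ, 4 * ((20000 * (T₀ * u) * (1 + Real.log U)) ^ 2 / ((D : ℝ) * √D)) =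
      4 * (20000 * (T₀ * u) * (1 + Real.log U)) ^ 2 * (1 / ((D : ℝ) * √D)) := by
    intro D
    ring
  simp only [h3]
  rw [← Finset.mul_sum]
  have h4 : (20000 * (T₀ * u) * (1 + Real.log U)) ^ 2 ≤ (20000 * T₀ * L) ^ 2 * (U : ℝ) ^ η := by
    have h5 : 20000 * (T₀ * u) * (1 + Real.log U) ≤ 20000 * T₀ * L * (u * u) := by
      have := mul_le_mul_of_nonneg_left hlog (show 0 ≤ 20000 * (T₀ * u) by positivity)
      linarith
    have h6 : (U : ℝ) ^ η = (u * u) ^ 2 := by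
      rw [hu, ← Real.rpow_add hU0, ← Real.rpow_natCast, ← Real.rpow_mul hU0.le]
      congr 1
      push_cast
      ring
    rw [h6, ← mul_pow]
    exact pow_le_pow_left₀ (by positivity) h5 2
  calc _ ≤ 4 * ((20000 * T₀ * L) ^ 2 * (U : ℝ) ^ η) * (3 / √Dm) := by
        refine mul_le_mul (mul_le_mul_of_nonneg_left h4 (by norm_num)) (tail Dm U hDm)
          (Finset.sum_nonneg fun _ _ => by positivity) (by positivity)
    _ = 12 * (20000 * T₀ * L) ^ 2 * (U : ℝ) ^ η / √Dm := by ring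

end Pool.Agent.Lib.MP391708.T1.NG
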