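import Pool.Agent.Lib.MP_391708_nt.T1.NGS
import Pool.Agent.Lib.MP_391708_nt.T1.NGP

/-!
# T1, group NG: the sum over all small data, different slopes
-/

set_option autoImplicit false
set_option linter.constructorNameAsVariable false

namespace Pool.Agent.Lib.MP391708.T1.NG

open Finset
open scoped Classical

/-- the conditions on the small data -/
structure Cd (c U Dm G0 z A B G G' : ℕ) (D D' : ℤ) (X X' : ℕ) : Prop where
  A0 : 0 < A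
  B0 : 0 < B
  Am : A ≤ Dm
  Bm : B ≤ Dm
  rA : A ∣ rdl A ^ c
  rB : B ∣ rdl B ^ c
  cAB : Nat.Coprime A B
  g : G0 ≤ G
  g' : G0 ≤ G'
  gU : G ≤ U
  gU' : G' ≤ U
  sG : Squarefree G
  sG' : Squarefree G'
  D0 : D ≠ 0
  D0' : D' ≠ 0
  Dm_ : D.natAbs ≤ Dm
  Dm' : D'.natAbs ≤ Dm
  Δ : (A : ℤ) * D - B * D' ≠ 0
  hX : X ∈ XS D.natAbs G 1
  hX' : X' ∈ XS D'.natAbs G' 1
  cXG : Nat.Coprime X' G'
  ex : ∃ l : ℕ, l.Prime ∧ z ≤ l ∧ l ∣ X ∧ l ∣ X' * G'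

/-- the statement of the sum over `(A, B, G, G')` -/
def SumRdl : Prop :=
  ∀ (c : ℕ), 1 ≤ c → ∀ η : ℝ, 0 < η → ∃ C : ℝ, 0 < C ∧ ∀ U : ℕ, 1 ≤ U →
    ∀ S : Finset (ℕ × ℕ × ℕ × ℕ), (∀ a ∈ S, (0 < a.1 ∧ a.1 ≤ U) ∧ (0 < a.2.1 ∧ a.2.1 ≤ U) ∧
      (0 < a.2.2.1 ∧ a.2.2.1 ≤ U) ∧ (0 < a.2.2.2 ∧ a.2.2.2 ≤ U) ∧ a.1 ∣ rdl a.1 ^ c ∧
      a.2.1 ∣ rdl a.2.1 ^ c ∧ Squarefree a.2.2.1 ∧ Squarefree a.2.2.2) →
    ∑ a ∈ S, (1 : ℝ) / (rdl (a.1 * a.2.1 * a.2.2.1 * a.2.2.2)) ≤ C * (U : ℝ) ^ η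

lemma log_bd (δ : ℝ) (hδ : 0 < δ) (U : ℕ) (hU : 1 ≤ U) :
    1 + Real.log (100 * U) ≤ (101 + 1 / δ) * (U : ℝ) ^ δ := by
  have hU1 : (1 : ℝ) ≤ U := by exact_mod_cast hU
  have h1 : (1 : ℝ) ≤ (U : ℝ) ^ δ := Real.one_le_rpow hU1 hδ.le
  have h2 : Real.log U ≤ (U : ℝ) ^ δ / δ := Real.log_le_rpow_div (by linarith) hδ
  have h3 : Real.log 100 ≤ 100 := by
    have := Real.log_le_sub_one_of_pos (x := 100) (by norm_num)
    linarith
  rw [Real.log_mul (by norm_num) (by linarith)]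
  have h4 : (U : ℝ) ^ δ / δ = 1 / δ * (U : ℝ) ^ δ := by ring
  nlinarith

/-- sum of `1/|D|` -/
lemma sum_D (Dm : ℕ) : ∑ D ∈ (Icc (-(Dm : ℤ)) Dm).filter (fun D => D ≠ 0), (1 : ℝ) / D.natAbs ≤
    2 * (1 + Real.log Dm) := by
  have h1 : ∑ D ∈ (Icc (-(Dm : ℤ)) Dm).filter (fun D => D ≠ 0), (1 : ℝ) / D.natAbs =
      ∑ d ∈ Icc 1 Dm, ∑ D ∈ ((Icc (-(Dm : ℤ)) Dm).filter (fun D => D ≠ 0)).filter
        (fun D => D.natAbs = d), (1 : ℝ) / D.natAbs := by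
    rw [sum_fiberwise_of_maps_to]
    intro D hD
    obtain ⟨h1, h2⟩ := mem_filter.mp hD
    obtain ⟨h3, h4⟩ := mem_Icc.mp h1
    refine mem_Icc.mpr ⟨Int.natAbs_pos.mpr h2, ?_⟩
    omega
  rw [h1]
  have h2 : ∀ d ∈ Icc 1 Dm, ∑ D ∈ ((Icc (-(Dm : ℤ)) Dm).filter (fun D => D ≠ 0)).filter
        (fun D => D.natAbs = d), (1 : ℝ) / D.natAbs ≤ 2 * (1 / d) := by
    intro d _
    have h3 : ∑ D ∈ ((Icc (-(Dm : ℤ)) Dm).filter (fun D => D ≠ 0)).filter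
        (fun D => D.natAbs = d), (1 : ℝ) / D.natAbs =
        ∑ D ∈ ((Icc (-(Dm : ℤ)) Dm).filter (fun D => D ≠ 0)).filter
        (fun D => D.natAbs = d), (1 : ℝ) / d :=
      sum_congr rfl fun D hD => by rw [(mem_filter.mp hD).2]
    rw [h3, sum_const, nsmul_eq_mul]
    refine mul_le_mul_of_nonneg_right ?_ (by positivity)
    have h4 : (((Icc (-(Dm : ℤ)) Dm).filter (fun D => D ≠ 0)).filter
        (fun D => D.natAbs = d)).card ≤ ({(d : ℤ), -(d : ℤ)} : Finset ℤ).card := by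
      refine card_le_card fun D hD => ?_
      have := (mem_filter.mp hD).2
      simp only [mem_insert, mem_singleton]
      omega
    have h5 : ({(d : ℤ), -(d : ℤ)} : Finset ℤ).card ≤ 2 := card_le_two
    exact_mod_cast h4.trans h5
  refine (sum_le_sum h2).trans ?_
  rw [← mul_sum]
  exact mul_le_mul_of_nonneg_left (sum_inv_le 1 Dm le_rfl) (by norm_num)

lemma card_DD (Dm : ℕ) : (((Icc (-(Dm : ℤ)) Dm).filter (fun D => D ≠ 0)).card : ℝ) ≤ 2 * Dm := by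
  have h1 : (Icc (-(Dm : ℤ)) Dm).filter (fun D => D ≠ 0) = (Icc (-(Dm : ℤ)) Dm).erase 0 := by
    ext D; simp only [mem_filter, mem_erase]; tauto
  rw [h1, card_erase_of_mem (by simp), Int.card_Icc]
  have : ((Dm : ℤ) + 1 - -(Dm : ℤ)).toNat - 1 = 2 * Dm := by omega
  rw [this]
  push_cast
  exact le_rfl

/-- the type of the small data -/
abbrev Dt := (ℕ × ℕ × ℕ × ℕ) × (ℤ × ℤ) × (ℕ × ℕ)

/-- the weight -/
noncomputable def Wt (x : Dt) : ℝ :=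
  wt x.1.1 x.1.2.1 x.2.1.1 x.2.1.2 x.2.2.1 x.2.2.2 /
    (rdl (x.1.1 * x.1.2.1 * x.1.2.2.1 * x.1.2.2.2))

/-- **SUM1** -/
theorem sum1 (hR : SumRdl) (c : ℕ) (hc : 1 ≤ c) (η : ℝ) (hη : 0 < η) :
    ∃ C : ℝ, 0 < C ∧ ∀ (U Dm G0 z : ℕ), 2 ≤ z → 0 < G0 → 200 * Dm ^ 2 ≤ G0 → Dm ≤ U →
      ∀ S : Finset Dt, (∀ x ∈ S, Cd c U Dm G0 z x.1.1 x.1.2.1 x.1.2.2.1 x.1.2.2.2 x.2.1.1 x.2.1.2
        x.2.2.1 x.2.2.2) →
      ∑ x ∈ S, Wt x ≤ C * (U : ℝ) ^ η * (1 / z + (Dm : ℝ) ^ 6 / G0) := by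
  set δ : ℝ := η / 100 with hδ
  have hδ0 : 0 < δ := by positivity
  obtain ⟨C1, hC1, hT⟩ := MP_391708_nt.Div.card_divisors_le_rpow δ hδ0
  obtain ⟨C3, hC3, hRd⟩ := hR c hc δ hδ0
  set C2 : ℝ := 101 + 1 / δ with hC2
  have hC2' : 1 ≤ C2 := by
    have : 0 < 1 / δ := by positivity
    rw [hC2]; linarith
  set T0 : ℝ := 1 + C1 * 3 ^ δ with hT0
  have hT00 : 1 ≤ T0 := by
    have : 0 < C1 * (3 : ℝ) ^ δ := by positivity
    rw [hT0]; linarith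
  refine ⟨C3 * (T0 ^ 3 * C2 ^ 3 * (16 * 10 ^ 8)), by positivity, ?_⟩
  intro U Dm G0 z hz hG0 hDG hDU S hS
  rcases S.eq_empty_or_nonempty with hSe | ⟨x0, hx0⟩
  · rw [hSe, sum_empty]
    positivity
  have hDm1 : 1 ≤ Dm := (hS x0 hx0).A0.trans_le (hS x0 hx0).Am
  have hU1 : 1 ≤ U := hDm1.trans hDU
  have hU1r : (1 : ℝ) ≤ U := by exact_mod_cast hU1
  have hU0 : (0 : ℝ) < U := by linarith
  have hDmr : (1 : ℝ) ≤ Dm := by exact_mod_cast hDm1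
  have hUδ : (1 : ℝ) ≤ (U : ℝ) ^ δ := Real.one_le_rpow hU1r hδ0.le
  set B0 : ℕ := 3 * U ^ 3 with hB0
  set T : ℝ := T0 * ((U : ℝ) ^ δ) ^ 3 with hTd
  have hT1 : 1 ≤ T := by
    rw [hTd]
    exact one_le_mul_of_one_le_of_one_le hT00 (one_le_pow₀ hUδ)
  have hTn : ∀ n : ℕ, 0 < n → n ≤ B0 → (n.divisors.card : ℝ) ≤ T := by
    intro n hn hnB
    refine (hT n hn).trans ?_
    have h1 : (n : ℝ) ^ δ ≤ (3 * (U : ℝ) ^ 3) ^ δ := by
      refine Real.rpow_le_rpow (Nat.cast_nonneg _) ?_ hδ0.le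
      rw [hB0] at hnB
      exact_mod_cast hnB
    have h2 : (3 * (U : ℝ) ^ 3) ^ δ = 3 ^ δ * ((U : ℝ) ^ δ) ^ 3 := by
      rw [Real.mul_rpow (by norm_num) (by positivity), ← Real.rpow_natCast ((U : ℝ) ^ δ) 3,
        ← Real.rpow_mul hU0.le, ← Real.rpow_natCast (U : ℝ) 3, ← Real.rpow_mul hU0.le,
        mul_comm δ]
    rw [h2] at h1
    calc C1 * (n : ℝ) ^ δ ≤ C1 * (3 ^ δ * ((U : ℝ) ^ δ) ^ 3) := by gcongr
      _ = (C1 * 3 ^ δ) * ((U : ℝ) ^ δ) ^ 3 := by ring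
      _ ≤ T := by
        rw [hTd, hT0]
        gcongr
        linarith
  set L : ℝ := C2 * (U : ℝ) ^ δ with hLd
  have hL0 := log_bd δ hδ0 U hU1
  rw [← hC2, ← hLd] at hL0
  have hL1 : 1 ≤ L := one_le_mul_of_one_le_of_one_le hC2' hUδ
  have hLD : 1 + Real.log Dm ≤ L := by
    refine le_trans ?_ hL0
    have : Real.log Dm ≤ Real.log (100 * U) := by
      refine Real.log_le_log (by linarith) ?_
      have : (Dm : ℝ) ≤ U := by exact_mod_cast hDU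
      linarith
    linarith
  have hG0r : (0 : ℝ) < G0 := by exact_mod_cast hG0
  have hzr : (2 : ℝ) ≤ z := by exact_mod_cast hz
  have hz0 : (0 : ℝ) < z := by linarith
  have hT0' : 0 < T := by linarith
  have hL0' : 0 < L := by linarith
  set DD : Finset ℤ := (Icc (-(Dm : ℤ)) Dm).filter (fun D => D ≠ 0) with hDD
  set Q : ℝ := T ^ 3 * L ^ 3 * (16 * 10 ^ 8) * (1 / z + (Dm : ℝ) ^ 6 / G0) with hQ
  have hQ0 : 0 ≤ Q := by positivity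
  -- the sum for fixed `(A, B, G, G')`
  have key : ∀ a ∈ S.image (fun x => x.1), ∑ x ∈ S.filter (fun x => x.1 = a), Wt x ≤
      Q * (1 / (rdl (a.1 * a.2.1 * a.2.2.1 * a.2.2.2))) := by
    intro a ha
    have hmap : ∀ x ∈ S.filter (fun x => x.1 = a), x.2.1 ∈ DD ×ˢ DD := by
      intro x hx
      have h := hS x (mem_filter.mp hx).1
      have h1 := h.Dm_
      have h2 := h.Dm'
      refine mem_product.mpr ⟨mem_filter.mpr ⟨mem_Icc.mpr ?_, h.D0⟩,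
        mem_filter.mpr ⟨mem_Icc.mpr ?_, h.D0'⟩⟩
      · omega
      · omega
    rw [← sum_fiberwise_of_maps_to hmap]
    have hone : ∀ d ∈ DD ×ˢ DD, ∑ x ∈ (S.filter (fun x => x.1 = a)).filter (fun x => x.2.1 = d), Wt x ≤
        (T ^ 3 * L * (4 * 10 ^ 8 / (z * d.1.natAbs * d.2.natAbs) + 2 * 10 ^ 7 * (Dm : ℝ) ^ 4 / G0)) *
          (1 / (rdl (a.1 * a.2.1 * a.2.2.1 * a.2.2.2))) := by
      intro d _
      set F := (S.filter (fun x => x.1 = a)).filter (fun x => x.2.1 = d) with hF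
      have hFm : ∀ x ∈ F, x ∈ S ∧ x.1 = a ∧ x.2.1 = d := fun x hx =>
        ⟨(mem_filter.mp (mem_filter.mp hx).1).1, (mem_filter.mp (mem_filter.mp hx).1).2,
          (mem_filter.mp hx).2⟩
      have hinj : Set.InjOn (fun x : Dt => x.2.2) (F : Set Dt) := by
        intro x hx y hy hxy
        obtain ⟨-, h1, h2⟩ := hFm x hx
        obtain ⟨-, h1', h2'⟩ := hFm y hy
        exact Prod.ext (h1.trans h1'.symm) (Prod.ext (h2.trans h2'.symm) hxy)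
      have h1 : ∑ x ∈ F, Wt x = ∑ y ∈ F.image (fun x => x.2.2),
          wt a.1 a.2.1 d.1 d.2 y.1 y.2 * (1 / (rdl (a.1 * a.2.1 * a.2.2.1 * a.2.2.2))) := by
        rw [sum_image hinj]
        refine sum_congr rfl fun x hx => ?_
        obtain ⟨-, h1, h2⟩ := hFm x hx
        rw [Wt, h1, h2, div_eq_mul_one_div]
      rw [h1, ← sum_mul]
      refine mul_le_mul_of_nonneg_right ?_ (by positivity)
      rcases F.eq_empty_or_nonempty with hFe | ⟨y0, hy0⟩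
      · rw [hFe, image_empty, sum_empty]
        positivity
      · obtain ⟨e0, e1, e2⟩ := hFm y0 hy0
        have h := hS y0 e0
        rw [e1, e2] at h
        have hGU : (a.2.2.1 : ℝ) ≤ U := by exact_mod_cast h.gU
        have hGpos : 0 < a.2.2.1 := lt_of_lt_of_le hG0 h.g
        have hGr : (0 : ℝ) < a.2.2.1 := by exact_mod_cast hGpos
        refine inner_num (z := z) h.cAB h.A0 h.B0 h.Am h.Bm hG0 h.g h.g' hDG h.D0 h.D0' h.Dm_ h.Dm'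
          hz h.Δ hT1 hTn ?_ ?_ ?_ hL1 _ ?_
        · rw [hB0]
          have h3 : a.1 * a.2.1 ≤ U * U := Nat.mul_le_mul (h.Am.trans hDU) (h.Bm.trans hDU)
          calc a.2.2.2 * (a.1 * a.2.1) ≤ U * (U * U) := Nat.mul_le_mul h.gU' h3
            _ = U ^ 3 := by ring
            _ ≤ 3 * U ^ 3 := by omega
        · rw [hB0]
          have h3 : Dm ^ 2 ≤ U ^ 2 := Nat.pow_le_pow_left hDU 2
          have h4 : U ^ 2 ≤ U ^ 3 := Nat.pow_le_pow_right hU1 (by norm_num)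
          omega
        · refine le_trans ?_ hL0
          have : Real.log (100 * a.2.2.1) ≤ Real.log (100 * U) :=
            Real.log_le_log (by linarith) (by linarith)
          linarith
        · intro y hy
          obtain ⟨x, hx, rfl⟩ := mem_image.mp hy
          obtain ⟨f0, f1, f2⟩ := hFm x hx
          have hh := hS x f0
          rw [f1, f2] at hh
          exact ⟨hh.hX, hh.hX', hh.cXG, hh.ex⟩
    refine (sum_le_sum hone).trans ?_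
    rw [← sum_mul]
    refine mul_le_mul_of_nonneg_right ?_ (by positivity)
    rw [← mul_sum, sum_add_distrib, sum_const, nsmul_eq_mul, card_product]
    have hsd := sum_D Dm
    rw [← hDD] at hsd
    have hsd0 : 0 ≤ ∑ D ∈ DD, (1 : ℝ) / D.natAbs := sum_nonneg fun _ _ => by positivity
    have s1 : ∑ d ∈ DD ×ˢ DD, (4 * 10 ^ 8 / ((z : ℝ) * d.1.natAbs * d.2.natAbs)) ≤
        4 * 10 ^ 8 / z * (2 * L) ^ 2 := by
      have : ∑ d ∈ DD ×ˢ DD, (4 * 10 ^ 8 / ((z : ℝ) * d.1.natAbs * d.2.natAbs)) =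
          4 * 10 ^ 8 / z * ((∑ D ∈ DD, (1 : ℝ) / D.natAbs) * ∑ D ∈ DD, (1 : ℝ) / D.natAbs) := by
        rw [sum_mul_sum, ← sum_product', mul_sum]
        refine sum_congr rfl fun d _ => ?_
        rw [div_mul_div_comm, div_mul_div_comm]
        ring
      rw [this, sq]
      have hb : ∑ D ∈ DD, (1 : ℝ) / D.natAbs ≤ 2 * L := hsd.trans (by linarith)
      gcongr
    have s2 : ((DD.card * DD.card : ℕ) : ℝ) ≤ 4 * (Dm : ℝ) ^ 2 := by
      have := card_DD Dm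
      rw [← hDD] at this
      push_cast
      nlinarith [Nat.cast_nonneg (α := ℝ) DD.card]
    have s3 : ((DD.card * DD.card : ℕ) : ℝ) * (2 * 10 ^ 7 * (Dm : ℝ) ^ 4 / G0) ≤
        8 * 10 ^ 7 * ((Dm : ℝ) ^ 6 / G0) := by
      calc _ ≤ (4 * (Dm : ℝ) ^ 2) * (2 * 10 ^ 7 * (Dm : ℝ) ^ 4 / G0) :=
            mul_le_mul_of_nonneg_right s2 (by positivity)
        _ = _ := by ring
    have hD6 : 0 ≤ (Dm : ℝ) ^ 6 / G0 := by positivity
    have hL3 : 1 ≤ L ^ 2 := one_le_pow₀ hL1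
    calc T ^ 3 * L * (∑ d ∈ DD ×ˢ DD, (4 * 10 ^ 8 / ((z : ℝ) * d.1.natAbs * d.2.natAbs)) +
          ((DD.card * DD.card : ℕ) : ℝ) * (2 * 10 ^ 7 * (Dm : ℝ) ^ 4 / G0))
        ≤ T ^ 3 * L * (4 * 10 ^ 8 / z * (2 * L) ^ 2 + 8 * 10 ^ 7 * ((Dm : ℝ) ^ 6 / G0)) :=
          mul_le_mul_of_nonneg_left (add_le_add s1 s3) (by positivity)
      _ ≤ T ^ 3 * L * (16 * 10 ^ 8 * L ^ 2 * (1 / z) + 16 * 10 ^ 8 * L ^ 2 * ((Dm : ℝ) ^ 6 / G0)) := by
          refine mul_le_mul_of_nonneg_left (add_le_add (le_of_eq ?_) ?_) (by positivity)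
          · ring
          · refine mul_le_mul_of_nonneg_right ?_ hD6
            nlinarith
      _ = Q := by rw [hQ]; ring
  -- the sum over `(A, B, G, G')`
  rw [← sum_fiberwise_of_maps_to (fun x hx => mem_image_of_mem (fun x : Dt => x.1) hx)]
  refine (sum_le_sum key).trans ?_
  rw [← mul_sum]
  have hsum := hRd U hU1 (S.image (fun x => x.1)) ?_
  · calc Q * ∑ a ∈ S.image (fun x => x.1), (1 : ℝ) / (rdl (a.1 * a.2.1 * a.2.2.1 * a.2.2.2))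
        ≤ Q * (C3 * (U : ℝ) ^ δ) := mul_le_mul_of_nonneg_left hsum hQ0
      _ = C3 * (T0 ^ 3 * C2 ^ 3 * (16 * 10 ^ 8)) * (((U : ℝ) ^ δ) ^ 13) *
          (1 / z + (Dm : ℝ) ^ 6 / G0) := by rw [hQ, hTd, hLd]; ring
      _ ≤ C3 * (T0 ^ 3 * C2 ^ 3 * (16 * 10 ^ 8)) * (U : ℝ) ^ η *
          (1 / z + (Dm : ℝ) ^ 6 / G0) := by
          have : ((U : ℝ) ^ δ) ^ 13 ≤ (U : ℝ) ^ η := by
            rw [← Real.rpow_natCast ((U : ℝ) ^ δ) 13, ← Real.rpow_mul hU0.le]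
            refine Real.rpow_le_rpow_of_exponent_le hU1r ?_
            rw [hδ]; push_cast; linarith
          gcongr
  · intro a ha
    obtain ⟨x, hx, rfl⟩ := mem_image.mp ha
    have h := hS x hx
    have p1 : 0 < x.1.2.2.1 := lt_of_lt_of_le hG0 h.g
    have p2 : 0 < x.1.2.2.2 := lt_of_lt_of_le hG0 h.g'
    exact ⟨⟨h.A0, h.Am.trans hDU⟩, ⟨h.B0, h.Bm.trans hDU⟩, ⟨p1, h.gU⟩, ⟨p2, h.gU'⟩, h.rA, h.rB,
      h.sG, h.sG'⟩

end Pool.Agent.Lib.MP391708.T1.NG
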