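import Pool.Agent.Lib.MP_391708_nt.T1.RelA

/-!
# T1, group A: sizes in the windows `2 M < D P ≤ 3 M`, `M² + 1 ≤ D₂ Q M ≤ 2 (M² + 1)`
-/

set_option autoImplicit false

namespace Pool.Agent.Lib.MP391708.T1

namespace RD

/-- the windows of role 1 -/
structure Win (r : RD) : Prop where
  M3 : 3 ≤ r.M
  G1 : 1 ≤ r.G
  P1 : 1 ≤ r.P
  Q1 : 1 ≤ r.Q
  D1 : 1 ≤ r.D
  p1 : 2 * r.M < r.D * r.P
  p2 : r.D * r.P ≤ 3 * r.M
  q1 : r.M ^ 2 + 1 ≤ r.D2 * r.Q * r.M
  q2 : r.D2 * r.Q * r.M ≤ 2 * (r.M ^ 2 + 1)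

variable {r : RD}

lemma Win.lq (w : Win r) : r.M + 1 ≤ r.D2 * r.Q := by
  have h1 := w.q1
  have h3 := w.M3
  by_contra hc
  have : r.D2 * r.Q ≤ r.M := by omega
  nlinarith

lemma Win.uq (w : Win r) : r.D2 * r.Q ≤ 2 * r.M := by
  have h1 := w.q2
  have h3 := w.M3
  by_contra hc
  have : 2 * r.M + 1 ≤ r.D2 * r.Q := by omega
  nlinarith

lemma Win.d2 (w : Win r) : 1 ≤ r.D2 := by
  have h1 := w.lq
  have h3 := w.M3
  have h4 := w.Q1
  by_contra hc
  have : r.D2 ≤ 0 := by omega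
  nlinarith

lemma Win.M4_lo (w : Win r) : r.M < r.M4 := by
  have := w.p1
  simp only [M4]; linarith

lemma Win.M4_hi (w : Win r) : r.M4 ≤ 2 * r.M := by
  have := w.p2
  simp only [M4]; linarith

lemma Win.M2_lo (w : Win r) : 2 * r.M < r.M2 := by
  have := w.lq
  simp only [M2]; linarith

lemma Win.M2_hi (w : Win r) : r.M2 ≤ 3 * r.M := by
  have := w.uq
  simp only [M2]; linarith

/-- `2 G < D D₂ ≤ 6 G` -/
lemma Win.dd_lo (w : Win r) (h : Ok r) : 2 * r.G < r.D * r.D2 := by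
  have h3 := w.M3
  have h0 : 0 < r.P * r.Q * r.M := by
    have := w.P1; have := w.Q1
    have : 0 < r.P * r.Q := by positivity
    have : 0 < r.M := by linarith
    positivity
  refine lt_of_mul_lt_mul_right ?_ h0.le
  have e1 : 2 * r.G * (r.P * r.Q * r.M) = 2 * r.M * (r.M ^ 2 + 1) := by
    rw [← h.gpq]; ring
  have e2 : r.D * r.D2 * (r.P * r.Q * r.M) = (r.D * r.P) * (r.D2 * r.Q * r.M) := by ring
  rw [e1, e2]
  have a1 := w.p1
  have a2 := w.q1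
  have a3 : 0 < r.M ^ 2 + 1 := by positivity
  calc 2 * r.M * (r.M ^ 2 + 1) < (r.D * r.P) * (r.M ^ 2 + 1) :=
        mul_lt_mul_of_pos_right a1 a3
    _ ≤ (r.D * r.P) * (r.D2 * r.Q * r.M) :=
        mul_le_mul_of_nonneg_left a2 (by linarith)

lemma Win.dd_hi (w : Win r) (h : Ok r) : r.D * r.D2 ≤ 6 * r.G := by
  have h3 := w.M3
  have h0 : 0 < r.P * r.Q * r.M := by
    have := w.P1; have := w.Q1
    have : 0 < r.P * r.Q := by positivity
    have : 0 < r.M := by linarith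
    positivity
  refine le_of_mul_le_mul_right ?_ h0
  have e1 : 6 * r.G * (r.P * r.Q * r.M) = 3 * r.M * (2 * (r.M ^ 2 + 1)) := by
    rw [← h.gpq]; ring
  have e2 : r.D * r.D2 * (r.P * r.Q * r.M) = (r.D * r.P) * (r.D2 * r.Q * r.M) := by ring
  rw [e1, e2]
  have a1 := w.p2
  have a2 := w.q2
  have a3 := w.q1
  have a4 : 0 < r.M ^ 2 + 1 := by positivity
  calc (r.D * r.P) * (r.D2 * r.Q * r.M) ≤ (3 * r.M) * (r.D2 * r.Q * r.M) :=
        mul_le_mul_of_nonneg_right a1 (by linarith)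
    _ ≤ 3 * r.M * (2 * (r.M ^ 2 + 1)) :=
        mul_le_mul_of_nonneg_left a2 (by linarith)

lemma Win.x_lo (w : Win r) (h : Ok r) : 3 * r.G < r.X := by
  have := w.dd_lo h
  have := h.hX
  linarith

lemma Win.x_hi (w : Win r) (h : Ok r) : r.X ≤ 7 * r.G := by
  have := w.dd_hi h
  have := h.hX
  linarith

lemma Win.Xpos (w : Win r) (h : Ok r) : 1 ≤ r.X := by
  have := w.x_lo h
  have := w.G1
  linarith

/-- `(M² + 1 + p q) M_3 = (M² + 1)(p - q - M) + p q M`, `p = D P`, `q = D₂ Q` -/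
lemma Ok.key3 (h : Ok r) :
    (r.M ^ 2 + 1 + (r.D * r.P) * (r.D2 * r.Q)) * r.M3 =
      (r.M ^ 2 + 1) * (r.D * r.P - r.D2 * r.Q - r.M) + (r.D * r.P) * (r.D2 * r.Q) * r.M := by
  have e := h.xm3
  have e1 : r.X * (r.P * r.Q) = r.M ^ 2 + 1 + (r.D * r.P) * (r.D2 * r.Q) := by
    rw [h.hX, ← h.gpq]; ring
  rw [← e1]
  have e2 : r.X * (r.P * r.Q) * r.M3 = (r.P * r.Q) * (r.X * r.M3) := by ring
  rw [e2, e]
  linear_combination ((r.D * r.P) - (r.D2 * r.Q) - r.M) * h.gpq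

lemma Win.M3_hi (w : Win r) (h : Ok r) : r.M3 < r.M := by
  have e := h.key3
  have a1 := w.p1
  have a2 := w.p2
  have a3 := w.lq
  have a4 := w.M3
  have h0 : 0 < r.M ^ 2 + 1 + (r.D * r.P) * (r.D2 * r.Q) := by
    have : 0 < (r.D * r.P) * (r.D2 * r.Q) := mul_pos (by linarith) (by linarith)
    positivity
  refine lt_of_mul_lt_mul_left ?_ h0.le
  rw [e]
  have : (r.M ^ 2 + 1) * (r.D * r.P - r.D2 * r.Q - r.M) < (r.M ^ 2 + 1) * r.M :=
    mul_lt_mul_of_pos_left (by linarith) (by positivity)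
  nlinarith

lemma Win.M3_lo (w : Win r) (h : Ok r) : r.M ≤ 2 * r.M3 := by
  have e := h.key3
  have a1 := w.p1
  have a2 := w.p2
  have a3 := w.lq
  have a4 := w.M3
  have a5 := w.uq
  have h0 : 0 < r.M ^ 2 + 1 + (r.D * r.P) * (r.D2 * r.Q) := by
    have : 0 < (r.D * r.P) * (r.D2 * r.Q) := mul_pos (by linarith) (by linarith)
    positivity
  refine le_of_mul_le_mul_left ?_ h0
  have e2 : (r.M ^ 2 + 1 + (r.D * r.P) * (r.D2 * r.Q)) * (2 * r.M3) =
    2 * ((r.M ^ 2 + 1) * (r.D * r.P - r.D2 * r.Q - r.M) + (r.D * r.P) * (r.D2 * r.Q) * r.M) := by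
    rw [← e]; ring
  rw [e2]
  set p := r.D * r.P
  set q := r.D2 * r.Q
  set m := r.M
  have b1 : 0 ≤ (p - 2 * m) * (2 * (m ^ 2 + 1) + q * m) :=
    mul_nonneg (by linarith) (by nlinarith)
  have b2 : 0 ≤ (m ^ 2 + 1) * m - 2 * q := by nlinarith
  nlinarith

lemma Win.Tpos (w : Win r) (h : Ok r) : 1 ≤ r.T := by
  have e := h.f1
  have a1 := w.p1
  have a2 := w.D1
  have a3 := w.G1
  have a4 := w.Q1
  have a5 := w.Xpos h
  have b1 : 0 < r.X * r.T := by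
    rw [← e]
    have : 0 < r.D * (r.D * r.P - 2 * r.M) := mul_pos (by linarith) (by linarith)
    have : 0 < r.G * r.Q := mul_pos (by linarith) (by linarith)
    nlinarith
  have := (mul_pos_iff_of_pos_left (by linarith : (0:ℤ) < r.X)).1 b1
  linarith

lemma Win.Rpos (w : Win r) (h : Ok r) : 1 ≤ r.R := by
  have e := h.f2
  have a1 := w.M3
  have a2 := w.d2
  have a3 := w.G1
  have a4 := w.Q1
  have a5 := w.Xpos h
  have a6 := w.P1
  have b1 : 0 < r.X * r.R := by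
    rw [← e]
    have : 0 < r.Q * r.D2 ^ 2 := mul_pos (by linarith) (by positivity)
    have : 0 < r.M * r.D2 := mul_pos (by linarith) (by linarith)
    have : 0 < r.G * r.P := mul_pos (by linarith) (by linarith)
    nlinarith
  have := (mul_pos_iff_of_pos_left (by linarith : (0:ℤ) < r.X)).1 b1
  linarith

/-- `G Q < X T ≤ 4 G Q` -/
lemma Win.t_lo (w : Win r) (h : Ok r) : r.G * r.Q < r.X * r.T := by
  have e := h.f1
  have : 0 < r.D * (r.D * r.P - 2 * r.M) :=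
    mul_pos (by linarith [w.D1]) (by linarith [w.p1])
  nlinarith

lemma Win.t_hi (w : Win r) (h : Ok r) : r.X * r.T ≤ 4 * (r.G * r.Q) := by
  have e := h.f1
  have a1 := w.p2
  have a2 := w.P1
  have a3 := w.D1
  have a4 := w.M3
  have h1 : r.D * r.M * r.P ≤ 3 * (r.G * r.Q) * r.P := by
    have e1 : 3 * (r.G * r.Q) * r.P = 3 * (r.M ^ 2 + 1) := by rw [← h.gpq]; ring
    rw [e1]
    nlinarith
  have h2 : r.D * r.M ≤ 3 * (r.G * r.Q) := le_of_mul_le_mul_right h1 (by linarith)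
  have h3 : r.D * (r.D * r.P - 2 * r.M) ≤ r.D * r.M :=
    mul_le_mul_of_nonneg_left (by linarith) (by linarith)
  nlinarith

/-- `4 G P < X R ≤ 9 G P` (up to the rounding) -/
lemma Win.r_lo (w : Win r) (h : Ok r) : 4 * (r.G * r.P) ≤ r.X * r.R := by
  have a1 := w.M2_lo
  have a2 := w.Q1
  have a3 := w.M3
  refine le_of_mul_le_mul_right ?_ (by linarith : 0 < r.Q)
  have e1 : 4 * (r.G * r.P) * r.Q = 4 * (r.M ^ 2 + 1) := by rw [← h.gpq]; ring
  have e2 : r.X * r.R * r.Q = r.M2 ^ 2 + 1 := by rw [← h.xqr]; ring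
  rw [e1, e2]
  have : (2 * r.M + 1) ^ 2 ≤ r.M2 ^ 2 := by
    apply pow_le_pow_left₀ <;> linarith
  nlinarith

lemma Win.r_hi (w : Win r) (h : Ok r) : r.X * r.R ≤ 9 * (r.G * r.P) := by
  have a1 := w.M2_lo
  have a2 := w.Q1
  have a3 := w.M3
  have a4 := w.M2_hi
  refine le_of_mul_le_mul_right ?_ (by linarith : 0 < r.Q)
  have e1 : 9 * (r.G * r.P) * r.Q = 9 * (r.M ^ 2 + 1) := by rw [← h.gpq]; ring
  have e2 : r.X * r.R * r.Q = r.M2 ^ 2 + 1 := by rw [← h.xqr]; ring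
  rw [e1, e2]
  have : r.M2 ^ 2 ≤ (3 * r.M) ^ 2 := by
    apply pow_le_pow_left₀ <;> linarith
  nlinarith

lemma Win.M3pos (w : Win r) (h : Ok r) : 2 ≤ r.M3 := by
  have := w.M3_lo h
  have := w.M3
  omega

/-- the windows seen from the other vertices: `D P / M_4 ∈ [3/2, 2)`, `D R / M_2 ∈ (1, 3/2)`,
`D R / M_3 ∈ (3, 7]` -/
lemma Win.p4 (w : Win r) : 3 * r.M4 ≤ 2 * (r.D * r.P) ∧ r.D * r.P < 2 * r.M4 := by
  have := w.p1; have := w.p2
  simp only [M4]; constructor <;> linarith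

lemma Win.p2' (w : Win r) (h : Ok r) : r.M2 < r.D * r.R ∧ 2 * (r.D * r.R) < 3 * r.M2 := by
  have e := Ok.dr r
  have := w.M3_hi h; have := w.M3pos h; have := w.M2_lo
  constructor <;> linarith

lemma Win.p3 (w : Win r) (h : Ok r) : 3 * r.M3 < r.D * r.R ∧ r.D * r.R ≤ 7 * r.M3 := by
  have e := Ok.dr r
  have := w.M3_hi h; have := w.M3_lo h; have := w.M2_lo; have := w.M2_hi
  constructor <;> linarith

/-- the second windows: `D₂ T = M_4 - M_3 > 0`, `≤ 3/2 M` -/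
lemma Win.q4 (w : Win r) (h : Ok r) : 0 < r.D2 * r.T ∧ 2 * (r.D2 * r.T) ≤ 3 * r.M := by
  have e := h.d2t
  have := w.M3_hi h; have := w.M3_lo h; have := w.M4_lo; have := w.M4_hi
  constructor <;> linarith

end RD

end Pool.Agent.Lib.MP391708.T1
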