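import Pool.Agent.Lib.MP_391708_nt.T1.SpecC

/-!
# T1, group D, part 1: class functions on unimodular pairs, means, Chinese remainder theorem
-/

set_option autoImplicit false

namespace Pool.Agent.Lib.MP391708.T1

open Finset
open Pool.Agent.Lib.MP391708.Eqd

/-- residues of pairs of vectors -/
abbrev R4 (q : ℕ) := (ZMod q × ZMod q) × (ZMod q × ZMod q)

/-- representative of a residue -/
def lift (q : ℕ) (r : R4 q) : V × V :=
  (((r.1.1.val : ℤ), (r.1.2.val : ℤ)), ((r.2.1.val : ℤ), (r.2.2.val : ℤ)))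

lemma res_lift (q : ℕ) [NeZero q] (r : R4 q) : res q (lift q r) = r := by
  simp [res, lift]

/-- class functions modulo `q` -/
def Per (q : ℕ) (F : V × V → ℝ) : Prop := ∀ x y : V × V, res q x = res q y → F x = F y

lemma Per.lift {q : ℕ} [NeZero q] {F : V × V → ℝ} (h : Per q F) (x : V × V) :
    F (T1.lift q (res q x)) = F x := h _ _ (res_lift q _)

lemma res_eq_of_dvd {m q : ℕ} (h : m ∣ q) {x y : V × V} (hxy : res q x = res q y) :
    res m x = res m y := by
  have key : ∀ a b : ℤ, (a : ZMod q) = b → (a : ZMod m) = b := by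
    intro a b hab
    rw [ZMod.intCast_eq_intCast_iff_dvd_sub] at hab ⊢
    exact (Int.natCast_dvd_natCast.2 h).trans hab
  simp only [res, Prod.mk.injEq] at hxy ⊢
  exact ⟨⟨key _ _ hxy.1.1, key _ _ hxy.1.2⟩, ⟨key _ _ hxy.2.1, key _ _ hxy.2.2⟩⟩

lemma Per.mono {m q : ℕ} (h : m ∣ q) {F : V × V → ℝ} (hF : Per m F) : Per q F :=
  fun _ _ hxy => hF _ _ (res_eq_of_dvd h hxy)

lemma Per.mul {q : ℕ} {F G : V × V → ℝ} (hF : Per q F) (hG : Per q G) :
    Per q (fun x => F x * G x) := fun x y h => by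
  simp only [hF x y h, hG x y h]

lemma Per.prod {q : ℕ} {α : Type*} (T : Finset α) {F : α → V × V → ℝ}
    (hF : ∀ l ∈ T, Per q (F l)) : Per q (fun x => ∏ l ∈ T, F l x) := fun x y h =>
  Finset.prod_congr rfl fun l hl => hF l hl x y h

/-- the mean of a function over the unimodular classes modulo `q` -/
noncomputable def mn (q : ℕ) (F : V × V → ℝ) : ℝ :=
  if h : q = 0 then 0 else
    have : NeZero q := ⟨h⟩
    (∑ r ∈ sl q, F (lift q r)) / ((sl q).card : ℝ)

lemma mn_def (q : ℕ) [NeZero q] (F : V × V → ℝ) :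
    mn q F = (∑ r ∈ sl q, F (lift q r)) / ((sl q).card : ℝ) := by
  unfold mn
  rw [dif_neg (NeZero.ne q)]

lemma mem_sl {q : ℕ} [NeZero q] {r : R4 q} : r ∈ sl q ↔ r.1.1 * r.2.2 - r.1.2 * r.2.1 = -1 := by
  simp [sl]

lemma sl_card_pos (q : ℕ) [NeZero q] : 0 < (sl q).card := by
  rw [Finset.card_pos]
  exact ⟨((1, 0), (0, -1)), mem_sl.2 (by ring)⟩

lemma mn_const (q : ℕ) [NeZero q] (c : ℝ) : mn q (fun _ => c) = c := by
  rw [mn_def, Finset.sum_const, nsmul_eq_mul]
  have : ((sl q).card : ℝ) ≠ 0 := by exact_mod_cast (sl_card_pos q).ne'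
  field_simp

lemma mn_nonneg {q : ℕ} {F : V × V → ℝ} (hF : ∀ x, 0 ≤ F x) : 0 ≤ mn q F := by
  unfold mn
  split_ifs with h
  · exact le_rfl
  · exact div_nonneg (Finset.sum_nonneg fun _ _ => hF _) (Nat.cast_nonneg _)

lemma mn_mono {q : ℕ} {F G : V × V → ℝ} (h : ∀ x, F x ≤ G x) : mn q F ≤ mn q G := by
  unfold mn
  split_ifs with h0
  · exact le_rfl
  · exact div_le_div_of_nonneg_right (Finset.sum_le_sum fun _ _ => h _) (Nat.cast_nonneg _)

lemma mn_le_one {q : ℕ} {F : V × V → ℝ} (hF : ∀ x, F x ≤ 1) : mn q F ≤ 1 := by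
  by_cases h : q = 0
  · unfold mn; rw [dif_pos h]; exact zero_le_one
  · have : NeZero q := ⟨h⟩
    calc mn q F ≤ mn q (fun _ => 1) := mn_mono hF
      _ = 1 := mn_const q 1

lemma mn_one_sub (q : ℕ) [NeZero q] (F : V × V → ℝ) :
    mn q (fun x => 1 - F x) = 1 - mn q F := by
  rw [mn_def, mn_def, Finset.sum_sub_distrib, Finset.sum_const, nsmul_eq_mul, mul_one, sub_div,
    div_self (by exact_mod_cast (sl_card_pos q).ne')]

/-- the Chinese remainder bijection of residues -/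
def crt {m n : ℕ} (h : m.Coprime n) : R4 (m * n) ≃ R4 m × R4 n where
  toFun r :=
    ((((ZMod.chineseRemainder h r.1.1).1, (ZMod.chineseRemainder h r.1.2).1),
      ((ZMod.chineseRemainder h r.2.1).1, (ZMod.chineseRemainder h r.2.2).1)),
    (((ZMod.chineseRemainder h r.1.1).2, (ZMod.chineseRemainder h r.1.2).2),
      ((ZMod.chineseRemainder h r.2.1).2, (ZMod.chineseRemainder h r.2.2).2)))
  invFun t :=
    (((ZMod.chineseRemainder h).symm (t.1.1.1, t.2.1.1),
      (ZMod.chineseRemainder h).symm (t.1.1.2, t.2.1.2)),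
    ((ZMod.chineseRemainder h).symm (t.1.2.1, t.2.2.1),
      (ZMod.chineseRemainder h).symm (t.1.2.2, t.2.2.2)))
  left_inv r := by simp
  right_inv t := by simp

lemma crt_mem {m n : ℕ} [NeZero m] [NeZero n] (h : m.Coprime n) (r : R4 (m * n)) :
    r ∈ sl (m * n) ↔ crt h r ∈ sl m ×ˢ sl n := by
  rw [Finset.mem_product, mem_sl, mem_sl, mem_sl,
    ← (ZMod.chineseRemainder h).injective.eq_iff]
  simp only [map_sub, map_mul, map_neg, map_one, Prod.ext_iff, Prod.fst_sub, Prod.fst_mul,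
    Prod.snd_sub, Prod.snd_mul, Prod.fst_neg, Prod.snd_neg, Prod.fst_one, Prod.snd_one, crt,
    Equiv.coe_fn_mk]

lemma crt_fst {m n : ℕ} [NeZero m] [NeZero n] (h : m.Coprime n) (r : R4 (m * n)) :
    res m (lift (m * n) r) = (crt h r).1 := by
  have key : ∀ x : ZMod (m * n), ((x.val : ℤ) : ZMod m) = (ZMod.chineseRemainder h x).1 := by
    intro x
    conv_rhs => rw [← ZMod.natCast_zmod_val x]
    rw [map_natCast]
    simp
  simp only [res, lift, crt, Equiv.coe_fn_mk, key]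

lemma crt_snd {m n : ℕ} [NeZero m] [NeZero n] (h : m.Coprime n) (r : R4 (m * n)) :
    res n (lift (m * n) r) = (crt h r).2 := by
  have key : ∀ x : ZMod (m * n), ((x.val : ℤ) : ZMod n) = (ZMod.chineseRemainder h x).2 := by
    intro x
    conv_rhs => rw [← ZMod.natCast_zmod_val x]
    rw [map_natCast]
    simp
  simp only [res, lift, crt, Equiv.coe_fn_mk, key]

lemma sum_crt {m n : ℕ} [NeZero m] [NeZero n] (h : m.Coprime n) {F G : V × V → ℝ}
    (hF : Per m F) (hG : Per n G) :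
    ∑ r ∈ sl (m * n), F (lift _ r) * G (lift _ r) =
      (∑ r ∈ sl m, F (lift _ r)) * ∑ r ∈ sl n, G (lift _ r) := by
  rw [Finset.sum_mul_sum, ← Finset.sum_product']
  refine Finset.sum_equiv (crt h) (fun r => crt_mem h r) fun r _ => ?_
  rw [← hF.lift (lift (m * n) r), ← hG.lift (lift (m * n) r), crt_fst h, crt_snd h]

lemma card_crt {m n : ℕ} [NeZero m] [NeZero n] (h : m.Coprime n) :
    (sl (m * n)).card = (sl m).card * (sl n).card := by
  rw [← Finset.card_product]
  exact Finset.card_equiv (crt h) (fun r => crt_mem h r)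

/-- means are multiplicative -/
lemma mn_mul {m n : ℕ} (h : m.Coprime n) (hm : m ≠ 0) (hn : n ≠ 0) {F G : V × V → ℝ}
    (hF : Per m F) (hG : Per n G) : mn (m * n) (fun x => F x * G x) = mn m F * mn n G := by
  have : NeZero m := ⟨hm⟩
  have : NeZero n := ⟨hn⟩
  rw [mn_def, mn_def, mn_def, sum_crt h hF hG, card_crt h, Nat.cast_mul, div_mul_div_comm]

/-- a class function modulo `m` is a class function modulo every multiple, with the same mean -/
lemma mn_prod (m : ℕ) (hm : m ≠ 0) {w : V × V → ℝ} (hw : Per m w) (e : ℕ → ℕ)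
    (f : ℕ → V × V → ℝ) (T : Finset ℕ) (hT : ∀ l ∈ T, l.Prime ∧ ¬ l ∣ m)
    (hf : ∀ l ∈ T, Per (l ^ e l) (f l)) :
    Per (m * ∏ l ∈ T, l ^ e l) (fun x => w x * ∏ l ∈ T, f l x) ∧
    mn (m * ∏ l ∈ T, l ^ e l) (fun x => w x * ∏ l ∈ T, f l x) =
      mn m w * ∏ l ∈ T, mn (l ^ e l) (f l) := by
  classical
  induction T using Finset.induction_on with
  | empty => simp only [Finset.prod_empty, mul_one]; exact ⟨hw, trivial⟩
  | insert q T hq ih =>
    have hT' : ∀ l ∈ T, l.Prime ∧ ¬ l ∣ m := fun l hl => hT l (Finset.mem_insert_of_mem hl)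
    have hf' : ∀ l ∈ T, Per (l ^ e l) (f l) := fun l hl => hf l (Finset.mem_insert_of_mem hl)
    obtain ⟨ih1, ih2⟩ := ih hT' hf'
    have hqq := hT q (Finset.mem_insert_self q T)
    have hne : m * ∏ l ∈ T, l ^ e l ≠ 0 :=
      mul_ne_zero hm (Finset.prod_ne_zero_iff.2 fun l hl => pow_ne_zero _ (hT' l hl).1.ne_zero)
    have hcop : (m * ∏ l ∈ T, l ^ e l).Coprime (q ^ e q) := by
      refine Nat.Coprime.pow_right _ ?_
      rw [Nat.coprime_comm, Nat.Prime.coprime_iff_not_dvd hqq.1]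
      intro hd
      rcases (hqq.1.dvd_mul).1 hd with h | h
      · exact hqq.2 h
      · obtain ⟨l, hl, hql⟩ := (hqq.1.prime.dvd_finsetProd_iff _).1 h
        have := (Nat.prime_dvd_prime_iff_eq hqq.1 (hT' l hl).1).1 (hqq.1.dvd_of_dvd_pow hql)
        rw [this] at hq
        exact hq hl
    have hq0 : q ^ e q ≠ 0 := pow_ne_zero _ hqq.1.ne_zero
    have hfq := hf q (Finset.mem_insert_self q T)
    have e1 : m * ∏ l ∈ insert q T, l ^ e l = (m * ∏ l ∈ T, l ^ e l) * q ^ e q := by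
      rw [Finset.prod_insert hq]; ring
    have e2 : (fun x => w x * ∏ l ∈ insert q T, f l x) =
        fun x => (w x * ∏ l ∈ T, f l x) * f q x := by
      funext x
      rw [Finset.prod_insert hq]; ring
    rw [e1, e2]
    constructor
    · exact (ih1.mono (Dvd.intro _ rfl)).mul (hfq.mono (Dvd.intro_left _ rfl))
    · rw [mn_mul hcop hne hq0 ih1 hfq, ih2, Finset.prod_insert hq]
      ring

end Pool.Agent.Lib.MP391708.T1
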