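import Pool.Agent.Lib.MP_391708_nt.T1.SlLoc

/-!
# T1, group D: densities of the conditions `q ∣ |s v + t w|²` for composite `q`
-/

set_option autoImplicit false

namespace Pool.Agent.Lib.MP391708.T1

open Finset
open Pool.Agent.Lib.MP391708.Eqd

lemma dvd_iff_fac {q : ℕ} (hq : q ≠ 0) (A : ℤ) :
    (q : ℤ) ∣ A ↔ ∀ l ∈ q.primeFactors, ((l ^ q.factorization l : ℕ) : ℤ) ∣ A := by
  constructor
  · intro h l _
    exact (Int.natCast_dvd_natCast.2 (Nat.ordProj_dvd q l)).trans h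
  · intro h
    rw [Int.natCast_dvd, Nat.dvd_iff_prime_pow_dvd_dvd]
    intro p k hp hk
    rcases Nat.eq_zero_or_pos k with rfl | hk0
    · simp
    · have h1 : p ∈ q.primeFactors :=
        Nat.mem_primeFactors.2 ⟨hp, (dvd_pow_self p hk0.ne').trans hk, hq⟩
      have h2 := h p h1
      rw [Int.natCast_dvd] at h2
      exact (pow_dvd_pow p ((hp.pow_dvd_iff_le_factorization hq).1 hk)).trans h2

lemma ind_fac {q : ℕ} (hq : q ≠ 0) (s t : ℤ) (x : V × V) :
    ind q s t x = ∏ l ∈ q.primeFactors, ind (l ^ q.factorization l) s t x := by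
  unfold ind
  rw [Finset.prod_ite_zero, Finset.prod_const_one]
  exact if_congr (dvd_iff_fac hq _) rfl rfl

/-- the mean over the classes modulo `q` of a product of local functions -/
lemma mn_fac {q : ℕ} (hq : q ≠ 0) (f : ℕ → V × V → ℝ)
    (hf : ∀ l ∈ q.primeFactors, Per (l ^ q.factorization l) (f l)) :
    mn q (fun x => ∏ l ∈ q.primeFactors, f l x) =
      ∏ l ∈ q.primeFactors, mn (l ^ q.factorization l) (f l) := by
  have h1 := (mn_prod 1 one_ne_zero (w := fun _ => 1) (fun _ _ _ => rfl) q.factorization f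
    q.primeFactors (fun l hl => ⟨Nat.prime_of_mem_primeFactors hl, fun h =>
      (Nat.prime_of_mem_primeFactors hl).one_lt.ne' (Nat.dvd_one.1 h)⟩) hf).2
  have h2 : ∏ l ∈ q.primeFactors, l ^ q.factorization l = q :=
    Nat.factorization_prod_pow_eq_self hq
  rw [one_mul, h2, mn_const, one_mul] at h1
  rw [← h1]
  congr 1
  funext x
  rw [one_mul]

lemma mn_ind_fac {q : ℕ} (hq : q ≠ 0) (s t : ℤ) :
    mn q (ind q s t) = ∏ l ∈ q.primeFactors, mn (l ^ q.factorization l)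
      (ind (l ^ q.factorization l) s t) := by
  rw [← mn_fac hq (fun l => ind (l ^ q.factorization l) s t) fun l _ => per_ind _ s t]
  congr 1
  funext x
  exact ind_fac hq s t x

/-- density of one condition -/
theorem mn_ind_le {q : ℕ} (hq : q ≠ 0) (h2 : ¬ 2 ∣ q) {s t : ℤ}
    (h : ∀ l : ℕ, l.Prime → l ∣ q → ¬ ((l : ℤ) ∣ s ∧ (l : ℤ) ∣ t)) :
    mn q (ind q s t) ≤ 2 ^ q.primeFactors.card / (q : ℝ) := by
  rw [mn_ind_fac hq]
  have h3 : ((q : ℕ) : ℝ) = ∏ l ∈ q.primeFactors, ((l ^ q.factorization l : ℕ) : ℝ) := by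
    rw [← Nat.cast_prod]
    congr 1
    exact (Nat.factorization_prod_pow_eq_self hq).symm
  conv_rhs => rw [h3, ← Finset.prod_const, ← Finset.prod_div_distrib]
  refine Finset.prod_le_prod (fun l _ => mn_nonneg (ind_nonneg _ s t)) fun l hl => ?_
  have hlp := Nat.prime_of_mem_primeFactors hl
  have : Fact l.Prime := ⟨hlp⟩
  have hdvd := Nat.dvd_of_mem_primeFactors hl
  refine mn_ind_pow_le' ?_ ?_ (h l hlp hdvd)
  · rintro rfl; exact h2 hdvd
  · exact (hlp.factorization_pos_of_dvd hq hdvd).ne'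

/-- exact density of one condition, squarefree modulus with primes `≡ 1 (mod 4)` -/
theorem mn_ind_sqf {q : ℕ} (hq : Squarefree q) (h4 : ∀ l : ℕ, l.Prime → l ∣ q → l % 4 = 1)
    {s t : ℤ} (h : ∀ l : ℕ, l.Prime → l ∣ q → ¬ ((l : ℤ) ∣ s ∧ (l : ℤ) ∣ t)) :
    mn q (ind q s t) = ∏ l ∈ q.primeFactors, 2 / ((l : ℝ) + 1) := by
  rw [mn_ind_fac hq.ne_zero]
  refine Finset.prod_congr rfl fun l hl => ?_
  have hlp := Nat.prime_of_mem_primeFactors hl
  have : Fact l.Prime := ⟨hlp⟩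
  have hdvd := Nat.dvd_of_mem_primeFactors hl
  rw [Nat.factorization_eq_one_of_squarefree hq hlp hdvd, pow_one]
  exact mn_ind_eq (h4 l hlp hdvd) (h l hlp hdvd)

/-- lower bound: all primes of `q` are at least `z` -/
theorem mn_ind_ge {q : ℕ} (hq : Squarefree q) (h4 : ∀ l : ℕ, l.Prime → l ∣ q → l % 4 = 1)
    {s t : ℤ} (h : ∀ l : ℕ, l.Prime → l ∣ q → ¬ ((l : ℤ) ∣ s ∧ (l : ℤ) ∣ t)) {z : ℝ}
    (hz : 0 < z) (hz' : ∀ l : ℕ, l.Prime → l ∣ q → z ≤ l) :
    (1 - q.primeFactors.card / z) * (2 ^ q.primeFactors.card / (q : ℝ)) ≤ mn q (ind q s t) := by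
  rw [mn_ind_sqf hq h4 h]
  have h3 : (q : ℝ) = ∏ l ∈ q.primeFactors, (l : ℝ) := by
    rw [← Nat.cast_prod, Nat.prod_primeFactors_of_squarefree hq]
  have h5 : ∏ l ∈ q.primeFactors, 2 / ((l : ℝ) + 1) =
      (∏ l ∈ q.primeFactors, ((l : ℝ) / (l + 1))) * (2 ^ q.primeFactors.card / (q : ℝ)) := by
    conv_rhs => rw [h3, ← Finset.prod_const, ← Finset.prod_div_distrib, ← Finset.prod_mul_distrib]
    refine Finset.prod_congr rfl fun l hl => ?_
    have hlp := (Nat.prime_of_mem_primeFactors hl).pos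
    have : (0 : ℝ) < l := by exact_mod_cast hlp
    field_simp
  rw [h5]
  refine mul_le_mul_of_nonneg_right ?_ (by positivity)
  have h6 : ∀ T : Finset ℕ, (∀ l ∈ T, z ≤ (l : ℝ)) →
      1 - (T.card : ℝ) / z ≤ ∏ l ∈ T, ((l : ℝ) / (l + 1)) := by
    intro T
    induction T using Finset.induction_on with
    | empty => intro _; simp
    | insert a T ha ih =>
      intro hT
      have ih' := ih fun l hl => hT l (Finset.mem_insert_of_mem hl)
      have ha' := hT a (Finset.mem_insert_self a T)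
      rw [Finset.prod_insert ha, Finset.card_insert_of_notMem ha]
      have hap : (0 : ℝ) < a := lt_of_lt_of_le hz ha'
      have e1 : (a : ℝ) / (a + 1) = 1 - 1 / (a + 1) := by field_simp; ring
      have e2 : 1 / ((a : ℝ) + 1) ≤ 1 / z := one_div_le_one_div_of_le hz (by linarith)
      have e3 : ∏ l ∈ T, ((l : ℝ) / (l + 1)) ≤ 1 := Finset.prod_le_one
        (fun l hl => by positivity) (fun l hl => by
          rw [div_le_one (by positivity)]; linarith)
      have e4 : 0 ≤ ∏ l ∈ T, ((l : ℝ) / (l + 1)) := Finset.prod_nonneg fun l hl => by positivity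
      have e5 : (0 : ℝ) < 1 / (a + 1) := by positivity
      rw [e1]
      push_cast
      have e6 : ((T.card : ℝ) + 1) / z = T.card / z + 1 / z := by ring
      rw [e6]
      nlinarith
  exact h6 _ fun l hl => hz' l (Nat.prime_of_mem_primeFactors hl) (Nat.dvd_of_mem_primeFactors hl)

/-- density of two conditions with coprime moduli -/
theorem mn_ind_mul {q q' : ℕ} (h : q.Coprime q') (hq : q ≠ 0) (hq' : q' ≠ 0) (s t s' t' : ℤ) :
    mn (q * q') (fun x => ind q s t x * ind q' s' t' x) =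
      mn q (ind q s t) * mn q' (ind q' s' t') :=
  mn_mul h hq hq' (per_ind _ _ _) (per_ind _ _ _)

/-! ### several conditions -/

lemma ind_sub {q m : ℕ} (hq : Squarefree q) (hm : m ∣ q) (s t : ℤ) (x : V × V) :
    ind m s t x = ∏ l ∈ q.primeFactors, (if l ∣ m then ind l s t x else 1) := by
  have hm0 : m ≠ 0 := fun h => hq.ne_zero (by rw [h] at hm; exact Nat.eq_zero_of_zero_dvd hm)
  have hms : Squarefree m := hq.squarefree_of_dvd hm
  rw [ind_fac hm0, ← Finset.prod_filter]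
  have h1 : q.primeFactors.filter (fun l => l ∣ m) = m.primeFactors := by
    ext l
    simp only [Finset.mem_filter, Nat.mem_primeFactors]
    constructor
    · rintro ⟨⟨h1, h2, h3⟩, h4⟩; exact ⟨h1, h4, hm0⟩
    · rintro ⟨h1, h2, h3⟩; exact ⟨⟨h1, h2.trans hm, hq.ne_zero⟩, h2⟩
  rw [h1]
  refine Finset.prod_congr rfl fun l hl => ?_
  rw [Nat.factorization_eq_one_of_squarefree hms (Nat.prime_of_mem_primeFactors hl)
    (Nat.dvd_of_mem_primeFactors hl), pow_one]

lemma prod_sub {q m : ℕ} (hq : Squarefree q) (hm : m ∣ q) :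
    ∏ l ∈ q.primeFactors, (if l ∣ m then (l : ℝ) else 1) = m := by
  have hm0 : m ≠ 0 := fun h => hq.ne_zero (by rw [h] at hm; exact Nat.eq_zero_of_zero_dvd hm)
  have hms : Squarefree m := hq.squarefree_of_dvd hm
  rw [← Finset.prod_filter]
  have h1 : q.primeFactors.filter (fun l => l ∣ m) = m.primeFactors := by
    ext l
    simp only [Finset.mem_filter, Nat.mem_primeFactors]
    constructor
    · rintro ⟨⟨h1, h2, h3⟩, h4⟩; exact ⟨h1, h4, hm0⟩
    · rintro ⟨h1, h2, h3⟩; exact ⟨⟨h1, h2.trans hm, hq.ne_zero⟩, h2⟩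
  rw [h1, ← Nat.cast_prod, Nat.prod_primeFactors_of_squarefree hms]

lemma mn_one_le {l : ℕ} (hl : l.Prime) (h2 : l ≠ 2) {s t : ℤ}
    (h : ¬ ((l : ℤ) ∣ s ∧ (l : ℤ) ∣ t)) : mn l (ind l s t) ≤ 2 / l := by
  have : Fact l.Prime := ⟨hl⟩
  have h1 := mn_ind_pow_le' (l := l) (k := 1) h2 one_ne_zero h
  rwa [pow_one] at h1

lemma mn_two_le {l : ℕ} (hl : l.Prime) (h2 : l ≠ 2) {s t s' t' : ℤ}
    (h : ¬ ((l : ℤ) ∣ s ∧ (l : ℤ) ∣ t)) :
    mn l (fun x => ind l s t x * ind l s' t' x) ≤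
      2 * (if (l : ℤ) ∣ s * t' - t * s' then (l : ℝ) else 1) / (l : ℝ) ^ 2 := by
  have : Fact l.Prime := ⟨hl⟩
  have hl0 : (0 : ℝ) < l := by exact_mod_cast hl.pos
  split_ifs with hd
  · refine le_trans (mn_mono (G := ind l s t) fun x => ?_) ((mn_one_le hl h2 h).trans (le_of_eq ?_))
    · exact mul_le_of_le_one_right (ind_nonneg _ _ _ _) (ind_le_one _ _ _ _)
    · field_simp
  · have h1 := mn_ind2_pow_le' (l := l) (k := 1) h2 one_ne_zero hd
    rw [pow_one] at h1
    rw [mul_one]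
    exact h1

/-- the primes at which two of three conditions are active with the same point -/
def sameP (m : Fin 3 → ℕ) (s t : Fin 3 → ℤ) (l : ℕ) : Prop :=
  ∃ i j : Fin 3, i ≠ j ∧ l ∣ m i ∧ l ∣ m j ∧ (l : ℤ) ∣ s i * t j - t i * s j

open Classical in
/-- **LD**: three conditions, at most two active at each prime. -/
theorem mn_ind3_le {q : ℕ} (hq : Squarefree q) (h2 : ¬ 2 ∣ q) (m : Fin 3 → ℕ) (s t : Fin 3 → ℤ)
    (hm : ∀ i, m i ∣ q)
    (hp : ∀ i, ∀ l : ℕ, l.Prime → l ∣ m i → ¬ ((l : ℤ) ∣ s i ∧ (l : ℤ) ∣ t i))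
    (h3 : ∀ l : ℕ, l.Prime → ¬ (l ∣ m 0 ∧ l ∣ m 1 ∧ l ∣ m 2)) :
    mn q (fun x => ind (m 0) (s 0) (t 0) x * ind (m 1) (s 1) (t 1) x *
        ind (m 2) (s 2) (t 2) x) ≤
      2 ^ (q.primeFactors.filter (fun l => l ∣ m 0 * m 1 * m 2)).card *
        (∏ l ∈ q.primeFactors.filter (fun l => sameP m s t l), (l : ℝ)) /
          ((m 0 : ℝ) * m 1 * m 2) := by
  set f : ℕ → V × V → ℝ := fun l x => (if l ∣ m 0 then ind l (s 0) (t 0) x else 1) *
    (if l ∣ m 1 then ind l (s 1) (t 1) x else 1) * (if l ∣ m 2 then ind l (s 2) (t 2) x else 1)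
    with hf
  have hfac : ∀ l ∈ q.primeFactors, q.factorization l = 1 := fun l hl =>
    Nat.factorization_eq_one_of_squarefree hq (Nat.prime_of_mem_primeFactors hl)
      (Nat.dvd_of_mem_primeFactors hl)
  have hPi : ∀ (i : Fin 3) (l : ℕ),
      Per l (fun x => if l ∣ m i then ind l (s i) (t i) x else 1) := by
    intro i l
    by_cases h : l ∣ m i
    · simp only [h, if_true]; exact per_ind _ _ _
    · simp only [h, if_false]; exact fun _ _ _ => rfl
  have e1 : (fun x => ind (m 0) (s 0) (t 0) x * ind (m 1) (s 1) (t 1) x *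
      ind (m 2) (s 2) (t 2) x) = fun x => ∏ l ∈ q.primeFactors, f l x := by
    funext x
    rw [ind_sub hq (hm 0), ind_sub hq (hm 1), ind_sub hq (hm 2), ← Finset.prod_mul_distrib,
      ← Finset.prod_mul_distrib]
  rw [e1, mn_fac hq.ne_zero f (fun l hl => by
    rw [hfac l hl, pow_one]
    exact ((hPi 0 l).mul (hPi 1 l)).mul (hPi 2 l))]
  have e2 : 2 ^ (q.primeFactors.filter (fun l => l ∣ m 0 * m 1 * m 2)).card *
        (∏ l ∈ q.primeFactors.filter (fun l => sameP m s t l), (l : ℝ)) /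
          ((m 0 : ℝ) * m 1 * m 2) = ∏ l ∈ q.primeFactors,
        ((if l ∣ m 0 * m 1 * m 2 then (2 : ℝ) else 1) * (if sameP m s t l then (l : ℝ) else 1) /
          ((if l ∣ m 0 then (l : ℝ) else 1) * (if l ∣ m 1 then (l : ℝ) else 1) *
            (if l ∣ m 2 then (l : ℝ) else 1))) := by
    rw [Finset.prod_div_distrib, Finset.prod_mul_distrib, Finset.prod_mul_distrib,
      Finset.prod_mul_distrib, prod_sub hq (hm 0), prod_sub hq (hm 1), prod_sub hq (hm 2),
      ← Finset.prod_filter, ← Finset.prod_filter, Finset.prod_const]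
  rw [e2]
  refine Finset.prod_le_prod (fun l _ => mn_nonneg fun x => ?_) fun l hl => ?_
  · have hnn : ∀ i : Fin 3, 0 ≤ (if l ∣ m i then ind l (s i) (t i) x else 1) := by
      intro i; split_ifs
      · exact ind_nonneg _ _ _ _
      · exact zero_le_one
    exact mul_nonneg (mul_nonneg (hnn 0) (hnn 1)) (hnn 2)
  rw [hfac l hl, pow_one]
  have hlp := Nat.prime_of_mem_primeFactors hl
  have hl0 : (0 : ℝ) < l := by exact_mod_cast hlp.pos
  have hl1 : (1 : ℝ) ≤ l := by exact_mod_cast hlp.one_le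
  have hl2 : l ≠ 2 := by rintro rfl; exact h2 (Nat.dvd_of_mem_primeFactors hl)
  have hF : Fact l.Prime := ⟨hlp⟩
  have hdm : l ∣ m 0 * m 1 * m 2 ↔ l ∣ m 0 ∨ l ∣ m 1 ∨ l ∣ m 2 := by
    rw [hlp.dvd_mul, hlp.dvd_mul, or_assoc]
  -- two active conditions
  have htwo : ∀ i j : Fin 3, i ≠ j → l ∣ m i → l ∣ m j →
      mn l (fun x => ind l (s i) (t i) x * ind l (s j) (t j) x) ≤
        2 * (if sameP m s t l then (l : ℝ) else 1) / (l : ℝ) ^ 2 := by
    intro i j hij hi hj
    refine (mn_two_le hlp hl2 (hp i l hlp hi)).trans ?_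
    refine div_le_div_of_nonneg_right (mul_le_mul_of_nonneg_left ?_ (by norm_num)) (by positivity)
    split_ifs with h4 h5 h6
    · exact le_rfl
    · exact absurd ⟨i, j, hij, hi, hj, h4⟩ h5
    · exact hl1
    · exact le_rfl
  have hone : ∀ i : Fin 3, l ∣ m i → mn l (ind l (s i) (t i)) ≤
      2 * (if sameP m s t l then (l : ℝ) else 1) / l := by
    intro i hi
    refine (mn_one_le hlp hl2 (hp i l hlp hi)).trans ?_
    refine div_le_div_of_nonneg_right ?_ hl0.le
    split_ifs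
    · linarith
    · linarith
  have hzero : (1 : ℝ) ≤ (if sameP m s t l then (l : ℝ) else 1) := by
    split_ifs
    · exact hl1
    · exact le_rfl
  by_cases h0 : l ∣ m 0 <;> by_cases h1 : l ∣ m 1 <;> by_cases h2' : l ∣ m 2
  · exact absurd ⟨h0, h1, h2'⟩ (h3 l hlp)
  all_goals simp only [hf, hdm, h0, h1, h2', if_true, if_false, or_true, true_or, or_false,
    false_or, one_mul, mul_one, or_self]
  · rw [← sq]; exact htwo 0 1 (by decide) h0 h1
  · rw [← sq]; exact htwo 0 2 (by decide) h0 h2'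
  · exact hone 0 h0
  · rw [← sq]; exact htwo 1 2 (by decide) h1 h2'
  · exact hone 1 h1
  · exact hone 2 h2'
  · rw [mn_const, div_one]; exact hzero

end Pool.Agent.Lib.MP391708.T1
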