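import Pool.Agent.Lib.MP_391708_nt.T1.SlCrt

/-!
# T1, group D: local computations on unimodular pairs modulo `q`

Densities of the conditions `q ∣ |s v + t w|²` on the pairs `(v, w)` modulo `q` with cross product `-1`.
-/

set_option autoImplicit false

namespace Pool.Agent.Lib.MP391708.T1

open Finset
open Pool.Agent.Lib.MP391708.Eqd

namespace Loc

section general

variable {q : ℕ} [NeZero q]

/-- vectors modulo `q` -/
abbrev V2 (q : ℕ) := ZMod q × ZMod q

/-- cross product modulo `q` -/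
def cr (v w : V2 q) : ZMod q := v.1 * w.2 - v.2 * w.1

/-- square of the length modulo `q` -/
def nq (v : V2 q) : ZMod q := v.1 ^ 2 + v.2 ^ 2

/-- dot product modulo `q` -/
def dq (v w : V2 q) : ZMod q := v.1 * w.1 + v.2 * w.2

/-- `s v + t w` -/
def lv (s t : ZMod q) (r : R4 q) : V2 q := (s * r.1.1 + t * r.2.1, s * r.1.2 + t * r.2.2)

lemma mem_sl_cr {r : R4 q} : r ∈ sl q ↔ cr r.1 r.2 = -1 := mem_sl

omit [NeZero q] in
lemma nq_mul (v w : V2 q) : nq v * nq w = dq v w ^ 2 + cr v w ^ 2 := by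
  simp only [nq, dq, cr]; ring

/-- primitive vectors -/
def prim (v : V2 q) : Prop := ∃ w, cr v w = -1

open Classical in
/-- `q` pairs over every primitive first vector -/
lemma card_fib (v : V2 q) (hv : prim v) : ((sl q).filter (fun r => r.1 = v)).card = q := by
  obtain ⟨w0, h0⟩ := hv
  have h1 : (sl q).filter (fun r => r.1 = v) =
      (univ : Finset (ZMod q)).image (fun k => (v, (w0.1 + k * v.1, w0.2 + k * v.2))) := by
    ext r
    simp only [mem_filter, mem_image, mem_univ, true_and]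
    constructor
    · rintro ⟨hr, rfl⟩
      rw [mem_sl_cr] at hr
      refine ⟨-cr (r.2.1 - w0.1, r.2.2 - w0.2) w0, ?_⟩
      have h2 : cr r.1 (r.2.1 - w0.1, r.2.2 - w0.2) = 0 := by
        simp only [cr] at hr h0 ⊢
        linear_combination hr - h0
      simp only [cr] at h0 h2 ⊢
      refine Prod.ext rfl (Prod.ext ?_ ?_)
      · simp only
        linear_combination -(r.2.1 - w0.1) * h0 + w0.1 * h2
      · simp only
        linear_combination -(r.2.2 - w0.2) * h0 + w0.2 * h2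
    · rintro ⟨k, rfl⟩
      refine ⟨?_, rfl⟩
      rw [mem_sl_cr]
      simp only [cr] at h0 ⊢
      linear_combination h0
  rw [h1, Finset.card_image_of_injective, Finset.card_univ, ZMod.card]
  intro k k' hk
  have h2 := congrArg (fun r : R4 q => cr r.2 w0) hk
  simp only [cr] at h2 h0
  linear_combination -h2 + (k - k') * h0

open Classical in
/-- counting by the first vector -/
lemma card_first (P : V2 q → Prop) :
    ((sl q).filter (fun r => P r.1)).card = q * ((univ : Finset (V2 q)).filter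
      (fun v => prim v ∧ P v)).card := by
  rw [Finset.card_eq_sum_card_fiberwise (f := fun r : R4 q => r.1)
    (t := (univ : Finset (V2 q)).filter (fun v => prim v ∧ P v))]
  · rw [Finset.sum_const_nat (m := q), mul_comm]
    intro v hv
    obtain ⟨-, h1, h2⟩ := Finset.mem_filter.1 hv
    refine Eq.trans (congrArg Finset.card ?_) (card_fib v h1)
    ext r
    simp only [mem_filter]
    constructor
    · rintro ⟨⟨a, b⟩, c⟩; exact ⟨a, c⟩
    · rintro ⟨a, c⟩; exact ⟨⟨a, c ▸ h2⟩, c⟩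
  · intro r hr
    have hr' := Finset.mem_filter.1 (Finset.mem_coe.1 hr)
    refine Finset.mem_coe.2 (Finset.mem_filter.2 ⟨Finset.mem_univ _, ⟨r.2, mem_sl_cr.1 hr'.1⟩,
      hr'.2⟩)

open Classical in
/-- change of basis -/
lemma card_base {a b c d : ZMod q} (h : a * d - b * c = 1) (P : V2 q → V2 q → Prop) :
    ((sl q).filter (fun r => P (lv a b r) (lv c d r))).card =
      ((sl q).filter (fun r => P r.1 r.2)).card := by
  have e1 : ∀ r : R4 q, (lv d (-b) (lv a b r, lv c d r), lv (-c) a (lv a b r, lv c d r)) = r := by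
    intro r
    simp only [lv]
    refine Prod.ext (Prod.ext ?_ ?_) (Prod.ext ?_ ?_)
    · linear_combination r.1.1 * h
    · linear_combination r.1.2 * h
    · linear_combination r.2.1 * h
    · linear_combination r.2.2 * h
  have e2 : ∀ r : R4 q, (lv a b (lv d (-b) r, lv (-c) a r), lv c d (lv d (-b) r, lv (-c) a r)) =
      r := by
    intro r
    simp only [lv]
    refine Prod.ext (Prod.ext ?_ ?_) (Prod.ext ?_ ?_)
    · linear_combination r.1.1 * h
    · linear_combination r.1.2 * h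
    · linear_combination r.2.1 * h
    · linear_combination r.2.2 * h
  have e3 : ∀ r : R4 q, cr (lv a b r) (lv c d r) = cr r.1 r.2 := by
    intro r
    simp only [lv, cr]
    linear_combination (r.1.1 * r.2.2 - r.1.2 * r.2.1) * h
  refine Finset.card_bij' (fun r _ => (lv a b r, lv c d r))
    (fun r _ => (lv d (-b) r, lv (-c) a r)) ?_ ?_ ?_ ?_
  · intro r hr
    obtain ⟨h1, h2⟩ := Finset.mem_filter.1 hr
    refine Finset.mem_filter.2 ⟨?_, h2⟩
    rw [mem_sl_cr] at h1 ⊢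
    rw [e3, h1]
  · intro r hr
    obtain ⟨h1, h2⟩ := Finset.mem_filter.1 hr
    refine Finset.mem_filter.2 ⟨?_, ?_⟩
    · rw [mem_sl_cr] at h1 ⊢
      have := e3 (lv d (-b) r, lv (-c) a r)
      rw [← this]
      have h3 := e2 r
      rw [Prod.ext_iff] at h3
      simp only at h3
      rw [h3.1, h3.2, h1]
    · have h3 := e2 r
      rw [Prod.ext_iff] at h3
      simp only at h3
      rw [h3.1, h3.2]
      exact h2
  · intro r _; exact e1 r
  · intro r _; exact e2 r

omit [NeZero q] in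
lemma prim_of_unit {v : V2 q} (h : IsUnit v.1 ∨ IsUnit v.2) : prim v := by
  rcases h with h | h
  · obtain ⟨u, hu⟩ := h
    refine ⟨(0, -(u⁻¹ : (ZMod q)ˣ)), ?_⟩
    simp only [cr, ← hu]
    rw [mul_neg, Units.mul_inv]; ring
  · obtain ⟨u, hu⟩ := h
    refine ⟨((u⁻¹ : (ZMod q)ˣ), 0), ?_⟩
    simp only [cr, ← hu]
    rw [Units.mul_inv]; ring

end general

/-! ### prime powers -/

section primepower

variable {l k : ℕ} [hl : Fact l.Prime] [hk : NeZero k]

instance : NeZero (l ^ k) := ⟨pow_ne_zero _ hl.1.ne_zero⟩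

omit hk in
lemma isUnit_iff (hk : k ≠ 0) (x : ZMod (l ^ k)) :
    IsUnit x ↔ ZMod.castHom (dvd_pow_self l hk) (ZMod l) x ≠ 0 := by
  have : NeZero (l ^ k) := ⟨pow_ne_zero _ hl.1.ne_zero⟩
  obtain ⟨n, rfl⟩ : ∃ n : ℕ, (n : ZMod (l ^ k)) = x := ⟨x.val, ZMod.natCast_zmod_val x⟩
  rw [ZMod.isUnit_iff_coprime, map_natCast, Ne, ZMod.natCast_eq_zero_iff,
    Nat.coprime_pow_right_iff (Nat.pos_of_ne_zero hk), Nat.coprime_comm,
    Nat.Prime.coprime_iff_not_dvd hl.1]

lemma add_unit {x y : ZMod (l ^ k)} (h : IsUnit (x + y)) : IsUnit x ∨ IsUnit y := by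
  by_contra hc
  push Not at hc
  rw [isUnit_iff (NeZero.ne k), map_add] at h
  have h1 := hc.1
  have h2 := hc.2
  rw [isUnit_iff (NeZero.ne k), not_not] at h1 h2
  rw [h1, h2, add_zero] at h
  exact h rfl

lemma prim_iff {v : V2 (l ^ k)} : prim v ↔ IsUnit v.1 ∨ IsUnit v.2 := by
  refine ⟨?_, prim_of_unit⟩
  rintro ⟨w, hw⟩
  have h1 : IsUnit (v.1 * w.2 + -(v.2 * w.1)) := by
    rw [← sub_eq_add_neg]
    have : v.1 * w.2 - v.2 * w.1 = -1 := hw
    rw [this]
    exact isUnit_one.neg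
  rcases add_unit h1 with h | h
  · exact Or.inl (isUnit_of_mul_isUnit_left h)
  · exact Or.inr (isUnit_of_mul_isUnit_left (IsUnit.neg_iff _ |>.1 h))

open Classical in
lemma card_isUnit : ((univ : Finset (ZMod (l ^ k))).filter IsUnit).card = l ^ (k - 1) * (l - 1) := by
  have h1 : ((univ : Finset (ZMod (l ^ k))).filter IsUnit) =
      (univ : Finset ((ZMod (l ^ k))ˣ)).image Units.val := by
    ext x
    simp only [mem_filter, mem_univ, true_and, mem_image]
    rfl
  rw [h1, Finset.card_image_of_injective _ Units.val_injective, Finset.card_univ,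
    ZMod.card_units_eq_totient, Nat.totient_prime_pow hl.1 (Nat.pos_of_ne_zero (NeZero.ne k))]

open Classical in
lemma card_not_isUnit :
    ((univ : Finset (ZMod (l ^ k))).filter (fun x => ¬ IsUnit x)).card = l ^ (k - 1) := by
  have h1 := Finset.card_filter_add_card_filter_not (s := (univ : Finset (ZMod (l ^ k)))) IsUnit
  rw [card_isUnit, Finset.card_univ, ZMod.card] at h1
  have h2 : l ^ k = l ^ (k - 1) * (l - 1) + l ^ (k - 1) := by
    have h3 : l = (l - 1) + 1 := (Nat.succ_pred_prime hl.1).symm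
    obtain ⟨j, hj⟩ := Nat.exists_eq_succ_of_ne_zero (NeZero.ne k)
    rw [hj, Nat.succ_sub_one, pow_succ]
    conv_lhs => rw [h3]
    rw [mul_add, mul_one, ← h3]
  omega

open Classical in
lemma card_prim : ((univ : Finset (V2 (l ^ k))).filter prim).card + (l ^ (k - 1)) ^ 2 =
    (l ^ k) ^ 2 := by
  have h1 := Finset.card_filter_add_card_filter_not (s := (univ : Finset (V2 (l ^ k)))) prim
  have h2 : (univ : Finset (V2 (l ^ k))).filter (fun v => ¬ prim v) =
      ((univ : Finset (ZMod (l ^ k))).filter (fun x => ¬ IsUnit x)) ×ˢ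
      ((univ : Finset (ZMod (l ^ k))).filter (fun x => ¬ IsUnit x)) := by
    ext v
    simp only [mem_filter, mem_univ, true_and, mem_product, prim_iff]
    tauto
  rw [h2, Finset.card_product, card_not_isUnit, Finset.card_univ, Fintype.card_prod,
    ZMod.card] at h1
  rw [sq, sq]
  exact h1

lemma card_sl : (sl (l ^ k)).card = l ^ k * ((l ^ (k - 1)) ^ 2 * (l ^ 2 - 1)) := by
  classical
  have h1 := card_first (q := l ^ k) (fun _ => True)
  simp only [Finset.filter_true, and_true] at h1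
  rw [h1]
  congr 1
  have h2 := card_prim (l := l) (k := k)
  have h3 : (l ^ k) ^ 2 = (l ^ (k - 1)) ^ 2 * l ^ 2 := by
    obtain ⟨j, hj⟩ := Nat.exists_eq_succ_of_ne_zero (NeZero.ne k)
    rw [hj, Nat.succ_sub_one, Nat.succ_eq_add_one, pow_succ l j, mul_pow]
  have h4 : 1 ≤ l ^ 2 := Nat.one_le_pow _ _ hl.1.pos
  have h5 : (l ^ (k - 1)) ^ 2 * (l ^ 2 - 1) + (l ^ (k - 1)) ^ 2 = (l ^ (k - 1)) ^ 2 * l ^ 2 := by
    obtain ⟨m, hm⟩ : ∃ m, l ^ 2 = m + 1 := ⟨l ^ 2 - 1, by omega⟩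
    rw [hm, Nat.add_sub_cancel]; ring
  exact Nat.add_right_cancel (h2.trans (h3.trans h5.symm))

lemma isUnit_two (h2 : l ≠ 2) : IsUnit (2 : ZMod (l ^ k)) := by
  rw [isUnit_iff (NeZero.ne k)]
  have h1 : ZMod.castHom (dvd_pow_self l (NeZero.ne k)) (ZMod l) (2 : ZMod (l ^ k)) =
      ((2 : ℕ) : ZMod l) := by
    rw [← map_natCast (ZMod.castHom (dvd_pow_self l (NeZero.ne k)) (ZMod l)) 2]
    norm_num
  rw [h1, Ne, ZMod.natCast_eq_zero_iff]
  intro h
  exact h2 ((Nat.prime_dvd_prime_iff_eq hl.1 Nat.prime_two).1 h)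

/-- the second coordinate of a primitive isotropic vector is a unit -/
lemma iso_unit {v : V2 (l ^ k)} (hp : prim v) (h0 : nq v = 0) : IsUnit v.2 := by
  simp only [nq] at h0
  rcases prim_iff.1 hp with h | h
  · have h1 : IsUnit (v.2 ^ 2) := by
      have h3 : v.2 ^ 2 = -(v.1 ^ 2) := by linear_combination h0
      rw [h3]
      exact (h.pow 2).neg
    exact (isUnit_pow_iff two_ne_zero).1 h1
  · exact h

lemma iso_unit' {v : V2 (l ^ k)} (hp : prim v) (h0 : nq v = 0) : IsUnit v.1 := by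
  have h := iso_unit hp h0
  simp only [nq] at h0
  have h1 : IsUnit (v.1 ^ 2) := by
    have h3 : v.1 ^ 2 = -(v.2 ^ 2) := by linear_combination h0
    rw [h3]
    exact (h.pow 2).neg
  exact (isUnit_pow_iff two_ne_zero).1 h1

/-- `x y = 0`, `x + y` a unit: one of them is zero -/
lemma zero_of_mul {x y : ZMod (l ^ k)} (h : x * y = 0) (h1 : IsUnit (x + y)) : x = 0 ∨ y = 0 := by
  rcases add_unit h1 with hx | hy
  · exact Or.inr (hx.mul_right_eq_zero.1 h)
  · exact Or.inl (hy.mul_left_eq_zero.1 h)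

open Classical in
lemma card_iso_le (h2 : l ≠ 2) : ((univ : Finset (V2 (l ^ k))).filter
    (fun v => prim v ∧ nq v = 0)).card ≤ 2 * (l ^ (k - 1) * (l - 1)) := by
  rw [← card_isUnit (l := l) (k := k)]
  refine Finset.card_le_mul_card_image_of_maps_to (f := fun v : V2 (l ^ k) => v.2) ?_ 2 ?_
  · intro v hv
    obtain ⟨-, hp, h0⟩ := Finset.mem_filter.1 hv
    exact Finset.mem_filter.2 ⟨Finset.mem_univ _, iso_unit hp h0⟩
  · intro b _
    rcases Finset.eq_empty_or_nonempty (((univ : Finset (V2 (l ^ k))).filter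
      (fun v => prim v ∧ nq v = 0)).filter (fun v => v.2 = b)) with he | ⟨a, ha⟩
    · rw [he]; simp
    · obtain ⟨ha1, ha2⟩ := Finset.mem_filter.1 ha
      obtain ⟨-, hap, ha0⟩ := Finset.mem_filter.1 ha1
      refine (Finset.card_le_card (?_ : _ ⊆ ({a, (-a.1, a.2)} : Finset (V2 (l ^ k))))).trans
        Finset.card_le_two
      intro c hc
      obtain ⟨hc1, hc2⟩ := Finset.mem_filter.1 hc
      obtain ⟨-, hcp, hc0⟩ := Finset.mem_filter.1 hc1
      rw [Finset.mem_insert, Finset.mem_singleton]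
      have hu : IsUnit ((c.1 + a.1) + (a.1 - c.1)) := by
        have : (c.1 + a.1) + (a.1 - c.1) = 2 * a.1 := by ring
        rw [this]
        exact (isUnit_two h2).mul (iso_unit' hap ha0)
      simp only [nq] at ha0 hc0
      have h3 : (c.1 + a.1) * (a.1 - c.1) = 0 := by
        rw [hc2] at hc0
        rw [ha2] at ha0
        linear_combination ha0 - hc0
      rcases zero_of_mul h3 hu with h | h
      · right
        exact Prod.ext (by simp only; linear_combination h) (hc2.trans ha2.symm)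
      · left
        exact Prod.ext (by linear_combination -h) (hc2.trans ha2.symm)

open Classical in
/-- exact number of primitive isotropic vectors -/
lemma card_iso_eq (h2 : l ≠ 2) {i : ZMod (l ^ k)} (hi : i ^ 2 = -1) :
    ((univ : Finset (V2 (l ^ k))).filter (fun v => prim v ∧ nq v = 0)).card =
      2 * (l ^ (k - 1) * (l - 1)) := by
  have hiu : IsUnit i := by
    refine (isUnit_pow_iff two_ne_zero).1 ?_
    rw [hi]; exact isUnit_one.neg
  have h3 : (univ : Finset (V2 (l ^ k))).filter (fun v => prim v ∧ nq v = 0) =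
      ((univ : Finset (ZMod (l ^ k))).filter IsUnit).image (fun b => (i * b, b)) ∪
      ((univ : Finset (ZMod (l ^ k))).filter IsUnit).image (fun b => (-(i * b), b)) := by
    ext v
    simp only [mem_filter, mem_univ, true_and, mem_union, mem_image]
    constructor
    · rintro ⟨hp, h0⟩
      have hu := iso_unit hp h0
      have h4 : (v.1 + i * v.2) * (i * v.2 - v.1) = 0 := by
        simp only [nq] at h0
        linear_combination -h0 + v.2 ^ 2 * hi
      have h5 : IsUnit ((v.1 + i * v.2) + (i * v.2 - v.1)) := by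
        have : (v.1 + i * v.2) + (i * v.2 - v.1) = 2 * (i * v.2) := by ring
        rw [this]
        exact (isUnit_two h2).mul (hiu.mul hu)
      rcases zero_of_mul h4 h5 with h | h
      · right
        exact ⟨v.2, hu, Prod.ext (by simp only; linear_combination -h) rfl⟩
      · left
        exact ⟨v.2, hu, Prod.ext (by simp only; linear_combination h) rfl⟩
    · rintro (⟨b, hb, rfl⟩ | ⟨b, hb, rfl⟩)
      · refine ⟨prim_of_unit (Or.inr hb), ?_⟩
        simp only [nq]
        linear_combination b ^ 2 * hi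
      · refine ⟨prim_of_unit (Or.inr hb), ?_⟩
        simp only [nq]
        linear_combination b ^ 2 * hi
  rw [h3, Finset.card_union_of_disjoint, Finset.card_image_of_injective,
    Finset.card_image_of_injective, card_isUnit, two_mul]
  · intro a b hab
    exact (Prod.ext_iff.1 hab).2
  · intro a b hab
    exact (Prod.ext_iff.1 hab).2
  · rw [Finset.disjoint_left]
    intro v hv hv'
    obtain ⟨b, hb, rfl⟩ := Finset.mem_image.1 hv
    obtain ⟨c, hc, hbc⟩ := Finset.mem_image.1 hv'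
    rw [Prod.ext_iff] at hbc
    obtain ⟨h4, h5⟩ := hbc
    simp only at h4 h5
    rw [h5] at h4
    have h6 : IsUnit (2 * (i * b)) := (isUnit_two h2).mul (hiu.mul (Finset.mem_filter.1 hb).2)
    have h7 : 2 * (i * b) = 0 := by linear_combination -h4
    rw [h7] at h6
    have h8 := (isUnit_iff (NeZero.ne k) (0 : ZMod (l ^ k))).1 h6
    rw [map_zero] at h8
    exact h8 rfl

/-- no primitive isotropic vectors if `-1` is not a square modulo `l` -/
lemma card_iso_zero (h4 : l % 4 = 3) (v : V2 (l ^ k)) (hp : prim v) : nq v ≠ 0 := by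
  intro h0
  have hu := iso_unit hp h0
  set π := ZMod.castHom (dvd_pow_self l (NeZero.ne k)) (ZMod l) with hπ
  have hu' : π v.2 ≠ 0 := (isUnit_iff (NeZero.ne k) _).1 hu
  have h1 : (π v.1) ^ 2 + (π v.2) ^ 2 = 0 := by
    rw [← map_pow, ← map_pow, ← map_add]
    have : v.1 ^ 2 + v.2 ^ 2 = 0 := h0
    rw [this, map_zero]
  have h2 : IsSquare (-1 : ZMod l) := by
    refine ⟨π v.1 * (π v.2)⁻¹, ?_⟩
    have h5 : π v.2 * (π v.2)⁻¹ = 1 := mul_inv_cancel₀ hu'
    linear_combination -(π v.2)⁻¹ ^ 2 * h1 + (1 + π v.2 * (π v.2)⁻¹) * h5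
  rw [ZMod.exists_sq_eq_neg_one_iff] at h2
  exact h2 h4

open Classical in
/-- two isotropic vectors -/
lemma card_iso2_le (h2 : l ≠ 2) : ((sl (l ^ k)).filter
    (fun r => nq r.1 = 0 ∧ nq r.2 = 0)).card ≤ 2 * (l ^ (k - 1) * (l - 1)) := by
  refine le_trans ?_ (card_iso_le (l := l) (k := k) h2)
  refine Finset.card_le_card_of_injOn (fun r => r.1) ?_ ?_
  · intro r hr
    obtain ⟨h1, h3, h4⟩ := Finset.mem_filter.1 (Finset.mem_coe.1 hr)
    exact Finset.mem_coe.2 (Finset.mem_filter.2 ⟨Finset.mem_univ _, ⟨r.2, mem_sl_cr.1 h1⟩, h3⟩)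
  · intro r hr r' hr' h
    obtain ⟨h1, h3, h4⟩ := Finset.mem_filter.1 (Finset.mem_coe.1 hr)
    obtain ⟨h1', h3', h4'⟩ := Finset.mem_filter.1 (Finset.mem_coe.1 hr')
    have h' : r.1 = r'.1 := h
    obtain ⟨v, w⟩ := r
    obtain ⟨v', w'⟩ := r'
    simp only at h' h1 h3 h4 h1' h3' h4'
    subst h'
    rw [mem_sl_cr] at h1 h1'
    simp only at h1 h1'
    have hd : IsUnit (dq v w) := by
      refine (isUnit_pow_iff two_ne_zero).1 ?_
      have h5 := nq_mul v w
      rw [h3, h1, zero_mul] at h5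
      have h6 : dq v w ^ 2 = -1 := by linear_combination -h5
      rw [h6]; exact isUnit_one.neg
    set κ : ZMod (l ^ k) := -((w'.1 - w.1) * w.2 - (w'.2 - w.2) * w.1) with hκ
    simp only [cr] at h1 h1'
    have e1 : w'.1 = w.1 + κ * v.1 := by
      rw [hκ]
      linear_combination (w'.1 - w.1) * h1 - w.1 * (h1' - h1)
    have e2 : w'.2 = w.2 + κ * v.2 := by
      rw [hκ]
      linear_combination (w'.2 - w.2) * h1 - w.2 * (h1' - h1)
    simp only [nq] at h3 h4 h4'
    have e3 : 2 * dq v w * κ = 0 := by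
      simp only [dq]
      rw [e1, e2] at h4'
      linear_combination h4' - h4 - κ ^ 2 * h3
    have e4 : κ = 0 := (((isUnit_two h2).mul hd).mul_right_eq_zero).1 e3
    rw [e4] at e1 e2
    refine Prod.ext rfl (Prod.ext ?_ ?_)
    · simp only; linear_combination -e1
    · simp only; linear_combination -e2

end primepower


/-! ### change of the level -/

section level

variable {l j k : ℕ} [hl : Fact l.Prime]

/-- reduction of residues -/
def red {m q : ℕ} (h : m ∣ q) (r : R4 q) : R4 m :=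
  ((ZMod.castHom h (ZMod m) r.1.1, ZMod.castHom h (ZMod m) r.1.2),
    (ZMod.castHom h (ZMod m) r.2.1, ZMod.castHom h (ZMod m) r.2.2))

lemma res_lift_red {m q : ℕ} [NeZero q] (h : m ∣ q) (r : R4 q) : res m (lift q r) = red h r := by
  have key : ∀ x : ZMod q, ((x.val : ℤ) : ZMod m) = ZMod.castHom h (ZMod m) x := by
    intro x
    conv_rhs => rw [← ZMod.natCast_zmod_val x]
    rw [map_natCast]
    simp
  simp only [res, lift, red, key]

lemma red_mem {m q : ℕ} [NeZero m] [NeZero q] (h : m ∣ q) {r : R4 q} (hr : r ∈ sl q) :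
    red h r ∈ sl m := by
  rw [mem_sl] at hr ⊢
  simp only [red]
  rw [← map_mul, ← map_mul, ← map_sub, hr, map_neg, map_one]

open Classical in
/-- the fibres over two classes which have representatives have the same size -/
lemma card_red {m q : ℕ} [NeZero m] [NeZero q] (h : m ∣ q) {r r' : R4 q} (hr : r ∈ sl q)
    (hr' : r' ∈ sl q) : ((sl q).filter (fun x => red h x = red h r)).card =
      ((sl q).filter (fun x => red h x = red h r')).card := by
  rw [mem_sl_cr] at hr hr'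
  set a := -cr r'.1 r.2 with ha
  set b := cr r'.1 r.1 with hb
  set c := -cr r'.2 r.2 with hc
  set d := cr r'.2 r.1 with hd
  have hdet : a * d - b * c = 1 := by
    simp only [cr] at hr hr' ha hb hc hd
    rw [ha, hb, hc, hd]
    linear_combination (r'.1.1 * r'.2.2 - r'.1.2 * r'.2.1) * hr - hr'
  have h1 : (lv a b r, lv c d r) = r' := by
    simp only [cr] at hr hr' ha hb hc hd
    simp only [lv, ha, hb, hc, hd]
    refine Prod.ext (Prod.ext ?_ ?_) (Prod.ext ?_ ?_)
    · linear_combination -r'.1.1 * hr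
    · linear_combination -r'.1.2 * hr
    · linear_combination -r'.2.1 * hr
    · linear_combination -r'.2.2 * hr
  have h5 := card_base hdet (fun v w => red h (v, w) = red h r')
  simp only [Prod.mk.eta] at h5
  rw [← h5]
  congr 1
  ext x
  simp only [mem_filter]
  refine and_congr_right fun _ => ?_
  set π := ZMod.castHom h (ZMod m) with hπ
  have hdet' : π a * π d - π b * π c = 1 := by
    rw [← map_mul, ← map_mul, ← map_sub, hdet, map_one]
  have e1 : ∀ x : R4 q, red h (lv a b x, lv c d x) =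
      (lv (π a) (π b) (red h x), lv (π c) (π d) (red h x)) := by
    intro x
    simp only [red, lv, map_add, map_mul, hπ]
  rw [← h1, e1, e1]
  constructor
  · intro hx; rw [hx]
  · intro hx
    have e2 : ∀ y : R4 m, (lv (π d) (-π b) (lv (π a) (π b) y, lv (π c) (π d) y),
        lv (-π c) (π a) (lv (π a) (π b) y, lv (π c) (π d) y)) = y := by
      intro y
      simp only [lv]
      refine Prod.ext (Prod.ext ?_ ?_) (Prod.ext ?_ ?_)
      · linear_combination y.1.1 * hdet'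
      · linear_combination y.1.2 * hdet'
      · linear_combination y.2.1 * hdet'
      · linear_combination y.2.2 * hdet'
    rw [← e2 (red h x), hx, e2]

/-- residues modulo `l ^ j` lift to residues modulo `l ^ k` -/
lemma exists_red (hj : j ≠ 0) (hjk : j ≤ k) (r : R4 (l ^ j)) (hr : cr r.1 r.2 = -1) :
    ∃ x : R4 (l ^ k), cr x.1 x.2 = -1 ∧ red (pow_dvd_pow l hjk) x = r := by
  have hk : k ≠ 0 := by omega
  have : NeZero k := ⟨hk⟩
  have : NeZero j := ⟨hj⟩
  set π := ZMod.castHom (pow_dvd_pow l hjk) (ZMod (l ^ j)) with hπ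
  have hsurj : Function.Surjective π := ZMod.castHom_surjective _
  obtain ⟨v1, hv1⟩ := hsurj r.1.1
  obtain ⟨v2, hv2⟩ := hsurj r.1.2
  obtain ⟨w1, hw1⟩ := hsurj r.2.1
  obtain ⟨w2, hw2⟩ := hsurj r.2.2
  have h1 : π (v1 * w2 - v2 * w1 + 1) = 0 := by
    rw [map_add, map_sub, map_mul, map_mul, hv1, hv2, hw1, hw2, map_one]
    have : r.1.1 * r.2.2 - r.1.2 * r.2.1 = -1 := hr
    rw [this]; ring
  have hunit : IsUnit v1 ∨ IsUnit v2 := by
    have h2 : prim (q := l ^ j) r.1 := ⟨r.2, hr⟩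
    rw [prim_iff, isUnit_iff hj, isUnit_iff hj] at h2
    rw [isUnit_iff hk, isUnit_iff hk]
    have h3 : ∀ x : ZMod (l ^ k), ZMod.castHom (dvd_pow_self l hj) (ZMod l) (π x) =
        ZMod.castHom (dvd_pow_self l hk) (ZMod l) x := by
      intro x
      rw [hπ, ← RingHom.comp_apply]
      congr 1
      exact RingHom.ext_zmod _ _
    rw [← hv1, ← hv2, h3, h3] at h2
    exact h2
  obtain ⟨u, hu⟩ : prim (q := l ^ k) (v1, v2) := prim_of_unit hunit
  simp only [cr] at hu
  set m := v1 * w2 - v2 * w1 + 1 with hm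
  refine ⟨((v1, v2), (w1 + m * u.1, w2 + m * u.2)), ?_, ?_⟩
  · simp only [cr]
    linear_combination m * hu - hm
  · show ((π v1, π v2), (π (w1 + m * u.1), π (w2 + m * u.2))) = r
    have e1 : ∀ a b : ZMod (l ^ k), π (a + m * b) = π a := by
      intro a b
      rw [map_add, map_mul, h1, zero_mul, add_zero]
    rw [e1, e1, hv1, hv2, hw1, hw2]

open Classical in
/-- the mean of a class function does not depend on the level -/
lemma mn_level (hj : j ≠ 0) (hjk : j ≤ k) {F : V × V → ℝ} (hF : Per (l ^ j) F) :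
    mn (l ^ k) F = mn (l ^ j) F := by
  have : NeZero (l ^ j) := ⟨pow_ne_zero _ hl.1.ne_zero⟩
  have : NeZero (l ^ k) := ⟨pow_ne_zero _ hl.1.ne_zero⟩
  set h := pow_dvd_pow l hjk with hh
  obtain ⟨x0, hx0⟩ := Finset.card_pos.1 (sl_card_pos (l ^ k))
  set c := ((sl (l ^ k)).filter (fun x => red h x = red h x0)).card with hc
  have hfib : ∀ r ∈ sl (l ^ j), ((sl (l ^ k)).filter (fun x => red h x = r)).card = c := by
    intro r hr
    obtain ⟨x, hx1, hx2⟩ := exists_red hj hjk r (mem_sl_cr.1 hr)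
    rw [← hx2]
    exact card_red h (mem_sl_cr.2 hx1) hx0
  have hsum : ∀ G : V × V → ℝ, Per (l ^ j) G → ∑ r ∈ sl (l ^ k), G (lift _ r) =
      c * ∑ r ∈ sl (l ^ j), G (lift _ r) := by
    intro G hG
    rw [← Finset.sum_fiberwise_of_maps_to (g := red h) (t := sl (l ^ j))
      (fun r hr => red_mem h hr), Finset.mul_sum]
    refine Finset.sum_congr rfl fun r hr => ?_
    rw [Finset.sum_congr rfl (g := fun _ => G (lift (l ^ j) r)), Finset.sum_const,
      nsmul_eq_mul, hfib r hr]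
    intro x hx
    have hx2 := (Finset.mem_filter.1 hx).2
    apply hG
    rw [res_lift_red h, res_lift, hx2]
  have h1 := hsum (fun _ => 1) (fun _ _ _ => rfl)
  simp only [Finset.sum_const, nsmul_eq_mul, mul_one] at h1
  have hc0 : (c : ℝ) ≠ 0 := by
    intro h0
    rw [h0, zero_mul] at h1
    exact absurd h1 (by exact_mod_cast (sl_card_pos (l ^ k)).ne')
  rw [mn_def, mn_def, hsum F hF, h1, mul_div_mul_left _ _ hc0]

end level


end Loc

/-! ### means of the indicators of `q ∣ |s v + t w|²` -/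

open Loc

/-- the indicator of `q ∣ |s v + t w|²` -/
noncomputable def ind (q : ℕ) (s t : ℤ) (x : V × V) : ℝ :=
  if (q : ℤ) ∣ nsq x.1 * s ^ 2 + 2 * dot x.1 x.2 * s * t + nsq x.2 * t ^ 2 then 1 else 0

lemma qf_cast (q : ℕ) (s t : ℤ) (x : V × V) :
    ((nsq x.1 * s ^ 2 + 2 * dot x.1 x.2 * s * t + nsq x.2 * t ^ 2 : ℤ) : ZMod q) =
      nq (lv (s : ZMod q) (t : ZMod q) (res q x)) := by
  simp only [nsq, dot, nq, lv, res]
  push_cast
  ring

lemma dvd_qf_iff (q : ℕ) (s t : ℤ) (x : V × V) :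
    (q : ℤ) ∣ nsq x.1 * s ^ 2 + 2 * dot x.1 x.2 * s * t + nsq x.2 * t ^ 2 ↔
      nq (lv (s : ZMod q) (t : ZMod q) (res q x)) = 0 := by
  rw [← qf_cast, ZMod.intCast_zmod_eq_zero_iff_dvd]

lemma per_ind (q : ℕ) (s t : ℤ) : Per q (ind q s t) := by
  intro x y h
  unfold ind
  exact if_congr (by rw [dvd_qf_iff, dvd_qf_iff, h]) rfl rfl

lemma ind_nonneg (q : ℕ) (s t : ℤ) (x : V × V) : 0 ≤ ind q s t x := by
  unfold ind; split_ifs <;> norm_num

lemma ind_le_one (q : ℕ) (s t : ℤ) (x : V × V) : ind q s t x ≤ 1 := by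
  unfold ind; split_ifs <;> norm_num

lemma ind_one (s t : ℤ) (x : V × V) : ind 1 s t x = 1 := by
  unfold ind
  rw [if_pos (by simp)]

open Classical in
lemma mn_ind (q : ℕ) [NeZero q] (s t : ℤ) : mn q (ind q s t) =
    (((sl q).filter (fun r => nq (lv (s : ZMod q) (t : ZMod q) r) = 0)).card : ℝ) /
      ((sl q).card : ℝ) := by
  rw [mn_def, Finset.card_filter, Nat.cast_sum]
  congr 1
  refine Finset.sum_congr rfl fun r _ => ?_
  unfold ind
  rw [show ((if nq (lv (s : ZMod q) (t : ZMod q) r) = 0 then 1 else 0 : ℕ) : ℝ) =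
    if nq (lv (s : ZMod q) (t : ZMod q) r) = 0 then (1 : ℝ) else 0 by split_ifs <;> simp]
  refine if_congr ?_ rfl rfl
  rw [dvd_qf_iff, res_lift]

open Classical in
lemma mn_ind2 (q : ℕ) [NeZero q] (s t s' t' : ℤ) : mn q (fun x => ind q s t x * ind q s' t' x) =
    (((sl q).filter (fun r => nq (lv (s : ZMod q) (t : ZMod q) r) = 0 ∧
      nq (lv (s' : ZMod q) (t' : ZMod q) r) = 0)).card : ℝ) / ((sl q).card : ℝ) := by
  rw [mn_def, Finset.card_filter, Nat.cast_sum]
  congr 1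
  refine Finset.sum_congr rfl fun r _ => ?_
  unfold ind
  simp only [dvd_qf_iff, res_lift]
  split_ifs <;> simp_all

section pp

variable {l k : ℕ} [hl : Fact l.Prime]

/-- a primitive pair of coefficients is the first row of a matrix of determinant one -/
lemma exists_compl (hk : k ≠ 0) {s t : ℤ} (h : ¬ ((l : ℤ) ∣ s ∧ (l : ℤ) ∣ t)) :
    ∃ c d : ZMod (l ^ k), (s : ZMod (l ^ k)) * d - (t : ZMod (l ^ k)) * c = 1 := by
  have key : ∀ a : ℤ, ¬ (l : ℤ) ∣ a → IsUnit (a : ZMod (l ^ k)) := by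
    intro a ha
    rw [isUnit_iff hk, map_intCast, Ne, ZMod.intCast_zmod_eq_zero_iff_dvd]
    exact ha
  by_cases hs : (l : ℤ) ∣ s
  · obtain ⟨u, hu⟩ := key t (fun ht => h ⟨hs, ht⟩)
    refine ⟨-((u⁻¹ : (ZMod (l ^ k))ˣ) : ZMod (l ^ k)), 0, ?_⟩
    rw [← hu, mul_zero, mul_neg, Units.mul_inv]; ring
  · obtain ⟨u, hu⟩ := key s hs
    refine ⟨0, ((u⁻¹ : (ZMod (l ^ k))ˣ) : ZMod (l ^ k)), ?_⟩
    rw [← hu, mul_zero, Units.mul_inv]; ring

open Classical in
lemma card_ind (hk : k ≠ 0) {s t : ℤ} (h : ¬ ((l : ℤ) ∣ s ∧ (l : ℤ) ∣ t))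
    [NeZero (l ^ k)] :
    ((sl (l ^ k)).filter
      (fun r => nq (lv (s : ZMod (l ^ k)) (t : ZMod (l ^ k)) r) = 0)).card =
      l ^ k * ((univ : Finset (V2 (l ^ k))).filter (fun v => prim v ∧ nq v = 0)).card := by
  obtain ⟨c, d, hcd⟩ := exists_compl hk h
  have h1 := card_base hcd (fun v _ => nq v = 0)
  have h2 := card_first (q := l ^ k) (fun v => nq v = 0)
  refine Eq.trans ?_ (h1.trans (Eq.trans ?_ (h2.trans ?_)))
  · congr!
  · congr!
  · congr!

lemma real_card_sl (hk : k ≠ 0) [NeZero (l ^ k)] : ((sl (l ^ k)).card : ℝ) =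
    (l : ℝ) ^ k * (((l : ℝ) ^ (k - 1)) ^ 2 * ((l : ℝ) ^ 2 - 1)) := by
  have : NeZero k := ⟨hk⟩
  rw [card_sl]
  have h1 : 1 ≤ l ^ 2 := Nat.one_le_pow _ _ hl.1.pos
  push_cast [Nat.cast_sub h1]
  ring

lemma mn_ind_pow_le (h2 : l ≠ 2) (hk : k ≠ 0) {s t : ℤ} (h : ¬ ((l : ℤ) ∣ s ∧ (l : ℤ) ∣ t)) :
    mn (l ^ k) (ind (l ^ k) s t) ≤ 2 / ((l : ℝ) ^ (k - 1) * (l + 1)) := by
  classical
  have : NeZero k := ⟨hk⟩
  have : NeZero (l ^ k) := ⟨pow_ne_zero _ hl.1.ne_zero⟩
  have hl1 : (1 : ℝ) < l := by exact_mod_cast hl.1.one_lt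
  rw [mn_ind, card_ind hk h, real_card_sl hk, Nat.cast_mul, Nat.cast_pow]
  have h3 := card_iso_le (l := l) (k := k) h2
  have h4 : (((univ : Finset (V2 (l ^ k))).filter (fun v => prim v ∧ nq v = 0)).card : ℝ) ≤
      2 * ((l : ℝ) ^ (k - 1) * ((l : ℝ) - 1)) := by
    have h5 : ((2 * (l ^ (k - 1) * (l - 1)) : ℕ) : ℝ) = 2 * ((l : ℝ) ^ (k - 1) * ((l : ℝ) - 1)) := by
      push_cast [Nat.cast_sub hl.1.one_le]
      ring
    rw [← h5]
    exact_mod_cast h3
  have hp : (0 : ℝ) < (l : ℝ) ^ (k - 1) := by positivity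
  rw [mul_div_mul_left _ _ (by positivity : (l : ℝ) ^ k ≠ 0), div_le_div_iff₀ (by
    refine mul_pos (by positivity) (by nlinarith)) (by positivity)]
  have h6 : ((l : ℝ) ^ 2 - 1) = (l - 1) * (l + 1) := by ring
  rw [h6]
  calc (((univ : Finset (V2 (l ^ k))).filter (fun v => prim v ∧ nq v = 0)).card : ℝ) *
        ((l : ℝ) ^ (k - 1) * (l + 1)) ≤
        2 * ((l : ℝ) ^ (k - 1) * ((l : ℝ) - 1)) * ((l : ℝ) ^ (k - 1) * (l + 1)) :=
      mul_le_mul_of_nonneg_right h4 (by positivity)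
    _ = 2 * (((l : ℝ) ^ (k - 1)) ^ 2 * ((l - 1) * (l + 1))) := by ring

/-- exact mean of the indicator at a prime `l ≡ 1 (mod 4)` -/
lemma mn_ind_eq (h4 : l % 4 = 1) {s t : ℤ} (h : ¬ ((l : ℤ) ∣ s ∧ (l : ℤ) ∣ t)) :
    mn l (ind l s t) = 2 / ((l : ℝ) + 1) := by
  classical
  have h2 : l ≠ 2 := by rintro rfl; norm_num at h4
  have : NeZero (l ^ 1) := ⟨pow_ne_zero _ hl.1.ne_zero⟩
  have hl1 : (1 : ℝ) < l := by exact_mod_cast hl.1.one_lt
  have hi : ∃ i : ZMod (l ^ 1), i ^ 2 = -1 := by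
    have h5 : IsSquare (-1 : ZMod l) := ZMod.exists_sq_eq_neg_one_iff.2 (by omega)
    obtain ⟨i, hi⟩ := h5
    refine ⟨ZMod.ringEquivCongr (pow_one l).symm i, ?_⟩
    rw [sq, ← map_mul, ← hi, map_neg, map_one]
  obtain ⟨i, hi⟩ := hi
  have h6 : mn (l ^ 1) (ind (l ^ 1) s t) = 2 / ((l : ℝ) + 1) := by
    rw [mn_ind, card_ind one_ne_zero h, real_card_sl one_ne_zero, card_iso_eq h2 hi]
    push_cast [Nat.cast_sub hl.1.one_le]
    have h7 : (l : ℝ) - 1 ≠ 0 := by linarith
    have h8 : (l : ℝ) + 1 ≠ 0 := by linarith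
    have h9 : ((l : ℝ) ^ 2 - 1) = (l - 1) * (l + 1) := by ring
    rw [h9]
    simp only [pow_zero, one_pow, one_mul, pow_one]
    field_simp
  rw [pow_one] at h6
  exact h6

lemma mn_ind_zero (h4 : l % 4 = 3) (hk : k ≠ 0) {s t : ℤ}
    (h : ¬ ((l : ℤ) ∣ s ∧ (l : ℤ) ∣ t)) : mn (l ^ k) (ind (l ^ k) s t) = 0 := by
  classical
  have : NeZero k := ⟨hk⟩
  have : NeZero (l ^ k) := ⟨pow_ne_zero _ hl.1.ne_zero⟩
  rw [mn_ind, card_ind hk h]
  have h1 : (univ : Finset (V2 (l ^ k))).filter (fun v => prim v ∧ nq v = 0) = ∅ := by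
    rw [Finset.filter_eq_empty_iff]
    rintro v - ⟨hp, h0⟩
    exact card_iso_zero h4 v hp h0
  rw [h1]; simp

/-- two conditions with different points -/
lemma mn_ind2_pow_le (h2 : l ≠ 2) (hk : k ≠ 0) {s t s' t' : ℤ} (h : ¬ (l : ℤ) ∣ s * t' - t * s') :
    mn (l ^ k) (fun x => ind (l ^ k) s t x * ind (l ^ k) s' t' x) ≤
      2 / ((l : ℝ) ^ (2 * k - 1) * (l + 1)) := by
  classical
  have : NeZero k := ⟨hk⟩
  have : NeZero (l ^ k) := ⟨pow_ne_zero _ hl.1.ne_zero⟩
  have hl1 : (1 : ℝ) < l := by exact_mod_cast hl.1.one_lt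
  have hu : IsUnit ((s * t' - t * s' : ℤ) : ZMod (l ^ k)) := by
    rw [isUnit_iff hk, map_intCast, Ne, ZMod.intCast_zmod_eq_zero_iff_dvd]
    exact h
  obtain ⟨u, hu⟩ := hu
  set ui : ZMod (l ^ k) := ((u⁻¹ : (ZMod (l ^ k))ˣ) : ZMod (l ^ k)) with hui
  have huu : (u : ZMod (l ^ k)) * ui = 1 := Units.mul_inv u
  have hdet : (s : ZMod (l ^ k)) * (ui * (t' : ZMod (l ^ k))) -
      (t : ZMod (l ^ k)) * (ui * (s' : ZMod (l ^ k))) = 1 := by
    have h3 : (u : ZMod (l ^ k)) = s * t' - t * s' := by rw [hu]; push_cast; ring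
    rw [h3] at huu
    linear_combination huu
  rw [mn_ind2, real_card_sl hk]
  have h5 : ((sl (l ^ k)).filter (fun r => nq (lv (s : ZMod (l ^ k)) (t : ZMod (l ^ k)) r) = 0 ∧
      nq (lv (s' : ZMod (l ^ k)) (t' : ZMod (l ^ k)) r) = 0)).card =
      ((sl (l ^ k)).filter (fun r => nq r.1 = 0 ∧ nq r.2 = 0)).card := by
    have h5' := card_base hdet (fun v w => nq v = 0 ∧ nq w = 0)
    refine Eq.trans ?_ (h5'.trans (by congr!))
    congr 1
    ext r
    simp only [mem_filter]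
    refine and_congr_right fun _ => and_congr_right fun _ => ?_
    have h6 : nq (lv (ui * (s' : ZMod (l ^ k))) (ui * (t' : ZMod (l ^ k))) r) =
        ui ^ 2 * nq (lv (s' : ZMod (l ^ k)) (t' : ZMod (l ^ k)) r) := by
      simp only [nq, lv]; ring
    rw [h6]
    have h7 : IsUnit (ui ^ 2) := (Units.isUnit (u⁻¹)).pow 2
    exact (h7.mul_right_eq_zero).symm
  rw [h5]
  have h6 := card_iso2_le (l := l) (k := k) h2
  have h7 : (((sl (l ^ k)).filter (fun r => nq r.1 = 0 ∧ nq r.2 = 0)).card : ℝ) ≤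
      2 * ((l : ℝ) ^ (k - 1) * ((l : ℝ) - 1)) := by
    have h8 : ((2 * (l ^ (k - 1) * (l - 1)) : ℕ) : ℝ) = 2 * ((l : ℝ) ^ (k - 1) * ((l : ℝ) - 1)) := by
      push_cast [Nat.cast_sub hl.1.one_le]
      ring
    rw [← h8]
    exact_mod_cast h6
  obtain ⟨j, rfl⟩ := Nat.exists_eq_succ_of_ne_zero hk
  have e1 : 2 * j.succ - 1 = 2 * j + 1 := by omega
  rw [e1, Nat.succ_sub_one] at *
  rw [div_le_div_iff₀ (by
    refine mul_pos (by positivity) (mul_pos (by positivity) (by nlinarith))) (by positivity)]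
  have h9 : ((l : ℝ) ^ 2 - 1) = (l - 1) * (l + 1) := by ring
  rw [h9]
  calc (((sl (l ^ j.succ)).filter (fun r => nq r.1 = 0 ∧ nq r.2 = 0)).card : ℝ) *
        ((l : ℝ) ^ (2 * j + 1) * (l + 1)) ≤
        2 * ((l : ℝ) ^ j * ((l : ℝ) - 1)) * ((l : ℝ) ^ (2 * j + 1) * (l + 1)) :=
      mul_le_mul_of_nonneg_right h7 (by positivity)
    _ = 2 * ((l : ℝ) ^ j.succ * (((l : ℝ) ^ j) ^ 2 * ((l - 1) * (l + 1)))) := by
      rw [Nat.succ_eq_add_one, pow_succ (l : ℝ) j, pow_succ (l : ℝ) (2 * j), pow_mul' (l : ℝ) 2 j]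
      ring

lemma mn_ind_pow_le' (h2 : l ≠ 2) (hk : k ≠ 0) {s t : ℤ} (h : ¬ ((l : ℤ) ∣ s ∧ (l : ℤ) ∣ t)) :
    mn (l ^ k) (ind (l ^ k) s t) ≤ 2 / ((l ^ k : ℕ) : ℝ) := by
  refine (mn_ind_pow_le h2 hk h).trans ?_
  have hl1 : (1 : ℝ) < l := by exact_mod_cast hl.1.one_lt
  obtain ⟨j, rfl⟩ := Nat.exists_eq_succ_of_ne_zero hk
  rw [Nat.succ_sub_one, Nat.cast_pow, Nat.succ_eq_add_one, pow_succ]
  refine div_le_div_of_nonneg_left (by norm_num) (by positivity) ?_
  exact mul_le_mul_of_nonneg_left (by linarith) (by positivity)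

lemma mn_ind2_pow_le' (h2 : l ≠ 2) (hk : k ≠ 0) {s t s' t' : ℤ}
    (h : ¬ (l : ℤ) ∣ s * t' - t * s') :
    mn (l ^ k) (fun x => ind (l ^ k) s t x * ind (l ^ k) s' t' x) ≤ 2 / ((l ^ k : ℕ) : ℝ) ^ 2 := by
  refine (mn_ind2_pow_le h2 hk h).trans ?_
  have hl1 : (1 : ℝ) < l := by exact_mod_cast hl.1.one_lt
  obtain ⟨j, rfl⟩ := Nat.exists_eq_succ_of_ne_zero hk
  have e1 : 2 * j.succ - 1 = 2 * j + 1 := by omega
  rw [e1, Nat.cast_pow]
  refine div_le_div_of_nonneg_left (by norm_num) (by positivity) ?_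
  have e2 : ((l : ℝ) ^ j.succ) ^ 2 = (l : ℝ) ^ (2 * j + 1) * l := by
    rw [Nat.succ_eq_add_one, pow_succ (l : ℝ) j, pow_succ (l : ℝ) (2 * j), pow_mul' (l : ℝ) 2 j]
    ring
  rw [e2]
  exact mul_le_mul_of_nonneg_left (by linarith) (by positivity)

end pp

end Pool.Agent.Lib.MP391708.T1
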