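import Pool.Agent.Lib.MP_391708_nt.Eqd.Spec
import Pool.Agent.Lib.MP_1446ad_nt.SM.SpecK

/-!
# T1, group C: equidistribution of unimodular pairs in residue classes

Sizes: `d = |v|²` is about `Y`, `dot v w` is about `X`, `Y ≤ L X`; moduli `q` are arbitrary (the
error term has a power of `q`).  For `Y > X` use the symmetry `(v, w) ↦ (w, v)`.
-/

set_option autoImplicit false

namespace Pool.Agent.Lib.MP391708.T1

open Finset Filter Topology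
open Pool.Agent.Lib.MP391708.Eqd
open scoped Classical

/-- number of `(i, j)`, `i < W`, `j < L`, with `(β + q i)(γ + q j) = c mod a q` -/
noncomputable def cntQ (a q : ℕ) (β γ c : ℤ) (W L : ℕ) : ℕ :=
  ((range W ×ˢ range L).filter
    (fun t : ℕ × ℕ => ((a * q : ℕ) : ℤ) ∣ (β + q * (t.1 : ℤ)) * (γ + q * (t.2 : ℤ)) - c)).card

/-- the product of `1 - 1/l` over the primes `l` dividing `a` and not `q` -/
noncomputable def ra (a q : ℕ) : ℝ :=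
  ∑ m ∈ a.divisors.filter (fun m => m.Coprime q), (ArithmeticFunction.moebius m : ℝ) / m

/-- **BOXQ** (as `SM/FOU.lean`, `SM/BOX.lean`).
Proof. Fourier expansion modulo `a`: with `T(h,k) = ∑ e((h i + k j)/a)` over `i, j mod a` with
`(β + q i)(γ + q j) = c mod a q` (well defined, as `q ∣ β γ - c`),
`cnt = a⁻² ∑_{h,k mod a} F(h) G(k) T(h,k)`, `F(h) = ∑_{i<W} e(-h i/a)`, `G(k) = ∑_{j<L} e(-k j/a)`.
With `x = β + q i`, `z = γ + q j` modulo `P = a q` and additive characters modulo `q`,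
`T(h,k) = q⁻² ∑_{s,t mod q} (unit) kc P c (h + a s) (k + a t)`, so by `SM.BOXM.kcb`
`|T(h,k)| ≤ τ(P) √(uu P) vv(P) q √(gcd(h,a))` (`gcd(h + a s, a q) ≤ q gcd(h,a)`, `gcd(c, uu P) ≤ q`
as `gcd(c,a) = 1`), and the same with `gcd(k,a)`.  Main term: `T(0,0) = #{j mod a : gcd(γ + q j, a) = 1}
= a ra(a,q)` (for such `j` exactly one `i`; a prime `l ∣ (a,q)` does not divide `γ`, as `β γ = c mod l`).
Rest: `∑_{0<h<a} |F(h)| √gcd(h,a) ≤ a τ(a) (1 + log a)`, `∑_k |G(k)| ≤ L + a (1 + log a)` and for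
`h = 0`: `W a τ(a) (1 + log a)`. -/
def SpecBoxQ : Prop :=
  ∀ (a q : ℕ) (β γ c : ℤ) (W L : ℕ), 0 < a → 0 < q → (q : ℤ) ∣ β * γ - c → Int.gcd c a = 1 →
    |(cntQ a q β γ c W L : ℝ) - (W : ℝ) * L / a * ra a q| ≤
      4 * MP_1446ad_nt.SM.tau (a * q) * √(MP_1446ad_nt.SM.uu (a * q) : ℝ) *
        (MP_1446ad_nt.SM.vv (a * q) : ℝ) * q * MP_1446ad_nt.SM.tau a * (1 + Real.log a) ^ 2 *
        (1 + (W : ℝ) / a + (L : ℝ) / a)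

/-- `∑ μ(m)/m²` over the `m` coprime to `q` -/
noncomputable def zq (q : ℕ) : ℝ :=
  ∑' m : ℕ, if m.Coprime q then (ArithmeticFunction.moebius m : ℝ) / (m : ℝ) ^ 2 else 0

/-- **MEANQ**. Proof. `∑_a ra(a,q) = ∑_{(m,q)=1, m ≤ t} μ(m)/m #{a ≤ t : m ∣ a, a = r mod q}`, the
number is `t/(m q) + O(1)` with constant `1`, the tail of the series is at most `1/t`. -/
def SpecMeanQ : Prop :=
  ∀ q : ℕ, 0 < q → ∀ (r : ℤ) (t : ℕ),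
    |∑ a ∈ (Icc 1 t).filter (fun a : ℕ => (q : ℤ) ∣ (a : ℤ) - r), ra a q - zq q / q * t| ≤
      4 * (1 + Real.log t)

/-- **PWR**: the error terms of BOXQ on average (from `SM.specAVG` with `c = 1`, `SM.specDEC`:
`√(uu (a q)) vv (a q) = √(a q) √(vv (a q)) ≤ q² √(uu a) vv a` as `vv (a q) ≤ q² vv a`;
`τ(a q) ≤ τ(a) q`, `τ(a) ≤ C a^(1/1000)`). -/
def SpecPwr : Prop :=
  ∃ C : ℝ, 0 < C ∧ ∀ (q A : ℕ), 0 < q → 1 ≤ A →
    ∑ a ∈ Ioc 0 A, 4 * MP_1446ad_nt.SM.tau (a * q) * √(MP_1446ad_nt.SM.uu (a * q) : ℝ) *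
        (MP_1446ad_nt.SM.vv (a * q) : ℝ) * q * MP_1446ad_nt.SM.tau a * (1 + Real.log a) ^ 2 ≤
      C * (q : ℝ) ^ 4 * (A : ℝ) ^ (3 / 2 + 1 / 100 : ℝ) ∧
    ∑ a ∈ Ioc 0 A, 4 * MP_1446ad_nt.SM.tau (a * q) * √(MP_1446ad_nt.SM.uu (a * q) : ℝ) *
        (MP_1446ad_nt.SM.vv (a * q) : ℝ) * q * MP_1446ad_nt.SM.tau a * (1 + Real.log a) ^ 2 / a ≤
      C * (q : ℝ) ^ 4 * (A : ℝ) ^ (1 / 2 + 1 / 100 : ℝ)

/-- residue pairs modulo `q` with cross product `-1` -/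
def sl (q : ℕ) [NeZero q] : Finset ((ZMod q × ZMod q) × (ZMod q × ZMod q)) :=
  univ.filter (fun r => r.1.1 * r.2.2 - r.1.2 * r.2.1 = -1)

/-- the region: `T₁(d) < M ≤ T₂(d)`, `d = |v|²`, `M = dot v w` -/
def Reg (T₁ T₂ : ℝ → ℝ) (x : V × V) : Prop :=
  T₁ (nsq x.1) < (dot x.1 x.2 : ℝ) ∧ (dot x.1 x.2 : ℝ) ≤ T₂ (nsq x.1)

/-- admissible bounds for a region at the scales `X` (of `M`) and `Y` (of `d`) -/
structure Bd (L X Y : ℝ) (T₁ T₂ : ℝ → ℝ) : Prop where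
  lip₁ : ∀ s t : ℝ, |T₁ s - T₁ t| ≤ L * (X / Y) * |s - t|
  lip₂ : ∀ s t : ℝ, |T₂ s - T₂ t| ≤ L * (X / Y) * |s - t|
  supp : ∀ s : ℝ, T₁ s < T₂ s → Y / L ≤ s ∧ s ≤ L * Y ∧ 0 ≤ T₁ s ∧ T₂ s ≤ L * X

/-- **EQUID** (from BOXQ, MEANQ, PWR): unimodular pairs in a region and a residue class. -/
def SpecEquid : Prop :=
  ∀ L : ℝ, 1 ≤ L → ∃ K : ℝ, ∀ X Y : ℝ, 1 ≤ Y → Y ≤ L * X → ∀ T₁ T₂ : ℝ → ℝ, Bd L X Y T₁ T₂ →
    ∀ M : ℕ, L ^ 4 * (X + 1) ^ 2 ≤ M → ∀ (q : ℕ) [NeZero q], ∀ r ∈ sl q,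
      |(((pairs 1 M).filter (fun x => Reg T₁ T₂ x ∧ res q x = r)).card : ℝ) -
        (((pairs 1 M).filter (Reg T₁ T₂)).card : ℝ) / ((sl q).card : ℝ)| ≤
        K * (q : ℝ) ^ 8 * X * Y ^ (-(1 / 20) : ℝ)

end Pool.Agent.Lib.MP391708.T1
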